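import Pool.Agent.BMV.Basic

/-!
# BMV/Absorb: the arithmetic of the final balance

Everything is linear in the nonnegative numbers `KL, J, O, ML, OO, Bq, NN` and in `TQ`.  Put `K ≥ 80000`, `δ K⁵ = 1`,
`L = K/80`, `h = 1/(1000 K)`, `η' = δ/(1200 K²)`, `ηR = 500 K δ`, `D = η K + η' K² + ηR ≤ 517 K δ ≤ 1/200`, `99/100 ≤ E ≤ 1`.
`16/ε1 = 76800 K²`, `4/ε2 = 6400 K²` for `ε1 = 1/(4800 K²)`, `ε2 = 1/(1600 K²)`.
PROOF.
(1) `η² ≤ 256 δ²`, `η'² K² = δ²/(1440000 K²) ≤ δ²/100`, so `AA ≤ 1542 δ² OO + δ² Bq + 4500000 K² δ² ML + NN` and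
 `NN ≤ 1028 δ² Bq + 500000 K² δ² ML`.
(2) `(16/ε1 + 309 K)/3 ≤ 25601 K²`, `(4/ε2 + 308 K)/3 ≤ 2134 K²`.
(3) `E/3 * S ≥ (33/100) (η TQ⁺..)`: termwise, `E S ≥ E (η TQ + η' (OO - Bq) + ηR/2 ML - D/5 NN)` and
 `E η TQ ≥ (99/100) η TQ`, `E η' OO ≥ (99/100) η' OO`, `- E η' Bq ≥ - η' Bq`, `E ηR/2 ML ≥ (99/100) ηR/2 ML`, `- E D/5 NN ≥ - D/5 NN`.
(4) coefficients:
 `TQ`: if `TQ ≥ 0`, `η = 16 δ`: `(99/300) 16 δ - 4 δ ≥ 0`; if `TQ ≤ 0`, `η = 0`, `- 4 δ TQ ≥ 0`.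
 `KL`: `99/100 - δ (95/2 + 5808 L) ≥ 0`.   `J`: `δ (99/100 - 19/198 - 22/390) ≥ 0`.   `O`: `- δ (176/5) Mt ≥ - 36 Mt δ`.
 `OO`: `δ [ (33/100)/(1200 K²) - 1/(14400 K²) - 25601 K² 1542 δ² ] ≥ 0`.
 `Bq`: `h δ/(24 L) = δ/(300 K²)`: `δ [ 1/(300 K²) - 1/(3600 K²) - 1/(1200 K²) - 25601 K² δ² - 27771 K² 1028 δ² ] ≥ 0`.
 `ML`: `δ [ (33/200) 500 K - 19/2 - 2816 L - 25601 K² 4500000 K² δ² - 27771 K² 500000 K² δ² ] ≥ 0` (`2816 L = 35.2 K`).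
 (the coefficient of `NN` is at most `δ (25601 K² + 2134 K² + 35 K) ≤ 27771 K² δ`; `D/15 ≤ 35 K δ`.)
 All follow from `δ ≤ 1/(K⁵)`, `K ≥ 80000` (e.g. `K⁴ δ² ≤ 1/K⁶`).
-/

namespace BMV

open Finset BMP

theorem absorb (K δ L h η D E KL J O ML OO Bq NN AA TQ' S Y Ebb M : ℝ)
    (hK : 80000 ≤ K) (hδ : δ * K ^ 5 = 1) (hL : K = 80 * L) (hh : h * K = 1 / 1000) (hM : 0 ≤ M)
    (hη : (η = 16 * δ ∧ 0 ≤ TQ') ∨ (η = 0 ∧ TQ' ≤ 0))
    (hD : D = η * K + δ / (1200 * K ^ 2) * K ^ 2 + 500 * K * δ)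
    (hE0 : 99 / 100 ≤ E) (hE1 : E ≤ 1)
    (k1 : 0 ≤ KL) (k2 : 0 ≤ J) (k3 : 0 ≤ O) (k4 : 0 ≤ ML) (k5 : 0 ≤ OO) (k6 : 0 ≤ Bq) (k7 : 0 ≤ NN)
    (hS : η * TQ' + δ / (1200 * K ^ 2) * (OO - Bq) + 500 * K * δ / 2 * ML - D / 5 * NN ≤ S)
    (hAA : AA ≤ 6 * (η ^ 2 + 2 * (δ / (1200 * K ^ 2)) ^ 2 * K ^ 2) * OO
      + 12 * (δ / (1200 * K ^ 2)) ^ 2 * K ^ 2 * Bq + 18 * (500 * K * δ) ^ 2 * ML + NN)
    (hNN : NN ≤ 4 * ((η ^ 2 + (δ / (1200 * K ^ 2)) ^ 2 * K ^ 2) * Bq + (500 * K * δ) ^ 2 / 2 * ML))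
    (hY : Y ≤ 5 * KL + 1 / 99 * J + ML)
    (hEb : Ebb ≤ 640 * L * ML + 1320 * L * KL + 8 * M * O + 1 / 78 * J) :
    - (36 * M * δ * O) ≤ 99 / 100 * (KL + δ * J) + 1 / 3 * (E * S) + h * δ * (Bq / (24 * L)) - 4 * δ * TQ'
      - δ * (19 / 2 * Y + 22 / 5 * Ebb + 1 / (4800 * K ^ 2) / 3 * OO
        + (16 / (1 / (4800 * K ^ 2)) + 309 * K) / 3 * AA + 4 / 3 * (1 / (1600 * K ^ 2)) * Bq
        + (4 / (1 / (1600 * K ^ 2)) + 308 * K) / 3 * NN) := by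
  have hK0 : 0 < K := by linarith
  have hK5 : 0 < K ^ 5 := by positivity
  have hδ0 : 0 < δ := by
    by_contra hc
    push Not at hc
    nlinarith
  have hK2 : 0 < K ^ 2 := by positivity
  have hKK : 80000 * K ≤ K ^ 2 := by nlinarith
  -- the small quantities
  have hsm : K ^ 4 * δ ^ 2 ≤ 1 / 10 ^ 20 := by
    have h1 : K ^ 4 * δ ^ 2 * K ^ 6 = 1 := by
      calc K ^ 4 * δ ^ 2 * K ^ 6 = (δ * K ^ 5) ^ 2 := by ring
        _ = 1 := by rw [hδ]; norm_num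
    have h2 : (10 : ℝ) ^ 20 ≤ K ^ 6 := by
      calc (10 : ℝ) ^ 20 ≤ 80000 ^ 6 := by norm_num
        _ ≤ K ^ 6 := pow_le_pow_left₀ (by norm_num) hK 6
    rw [le_div_iff₀ (by positivity)]
    calc K ^ 4 * δ ^ 2 * 10 ^ 20 ≤ K ^ 4 * δ ^ 2 * K ^ 6 :=
          mul_le_mul_of_nonneg_left h2 (by positivity)
      _ = 1 := h1
  obtain ⟨a, ha⟩ : ∃ a, a = δ / K ^ 2 := ⟨_, rfl⟩
  have ha0 : 0 < a := by rw [ha]; positivity
  have haδ : δ = a * K ^ 2 := by rw [ha]; field_simp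
  obtain ⟨q, hq⟩ : ∃ q, q = K ^ 2 * δ ^ 3 := ⟨_, rfl⟩
  obtain ⟨t, ht⟩ : ∃ t, t = K ^ 4 * δ ^ 3 := ⟨_, rfl⟩
  have hq0 : 0 ≤ q := by rw [hq]; positivity
  have ht0 : 0 ≤ t := by rw [ht]; positivity
  have hqa : q ≤ a / 10 ^ 20 := by
    have e : q = a * (K ^ 4 * δ ^ 2) := by
      have : q = K ^ 2 * δ ^ 2 * δ := by rw [hq]; ring
      rw [this]
      nth_rewrite 2 [haδ]
      ring
    rw [e]
    calc a * (K ^ 4 * δ ^ 2) ≤ a * (1 / 10 ^ 20) := mul_le_mul_of_nonneg_left hsm ha0.le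
      _ = a / 10 ^ 20 := by ring
  have htδ : t ≤ δ / 10 ^ 20 := by
    have e : t = δ * (K ^ 4 * δ ^ 2) := by rw [ht]; ring
    rw [e]
    calc δ * (K ^ 4 * δ ^ 2) ≤ δ * (1 / 10 ^ 20) := mul_le_mul_of_nonneg_left hsm hδ0.le
      _ = δ / 10 ^ 20 := by ring
  have haδ2 : a ≤ δ := by
    rw [ha]
    exact div_le_self hδ0.le (by nlinarith)
  have hη0 : 0 ≤ η := by
    rcases hη with h | h
    · rw [h.1]; positivity
    · rw [h.1]
  have hη2 : η ^ 2 ≤ 256 * δ ^ 2 := by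
    rcases hη with h | h
    · rw [h.1]
      nlinarith
    · rw [h.1]
      nlinarith
  have hη16 : η ≤ 16 * δ := by
    rcases hη with h | h
    · exact h.1.le
    · rw [h.1]; positivity
  have hη' : (δ / (1200 * K ^ 2)) ^ 2 * K ^ 2 ≤ δ ^ 2 / 100 := by
    have e : (δ / (1200 * K ^ 2)) ^ 2 * K ^ 2 = δ ^ 2 / 100 * (1 / (14400 * K ^ 2)) := by
      field_simp
      norm_num
    rw [e]
    have : 1 / (14400 * K ^ 2) ≤ 1 := by
      rw [div_le_one (by positivity)]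
      nlinarith
    calc δ ^ 2 / 100 * (1 / (14400 * K ^ 2)) ≤ δ ^ 2 / 100 * 1 :=
          mul_le_mul_of_nonneg_left this (by positivity)
      _ = δ ^ 2 / 100 := by ring
  have hη'0 : 0 ≤ (δ / (1200 * K ^ 2)) ^ 2 * K ^ 2 := by positivity
  have hδ2 : 0 ≤ δ ^ 2 := by positivity
  -- (1)
  have hNN1 : NN ≤ 1028 * δ ^ 2 * Bq + 500000 * K ^ 2 * δ ^ 2 * ML := by
    refine hNN.trans ?_
    have h1 : (η ^ 2 + (δ / (1200 * K ^ 2)) ^ 2 * K ^ 2) * Bq ≤ 257 * δ ^ 2 * Bq := by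
      apply mul_le_mul_of_nonneg_right _ k6
      linarith
    have e : 4 * ((500 * K * δ) ^ 2 / 2 * ML) = 500000 * K ^ 2 * δ ^ 2 * ML := by ring
    linarith
  have hAA1 : AA ≤ 1542 * δ ^ 2 * OO + δ ^ 2 * Bq + 4500000 * K ^ 2 * δ ^ 2 * ML + NN := by
    refine hAA.trans ?_
    have h1 : 6 * (η ^ 2 + 2 * (δ / (1200 * K ^ 2)) ^ 2 * K ^ 2) * OO ≤ 1542 * δ ^ 2 * OO := by
      apply mul_le_mul_of_nonneg_right _ k5
      linarith
    have h2 : 12 * (δ / (1200 * K ^ 2)) ^ 2 * K ^ 2 * Bq ≤ δ ^ 2 * Bq := by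
      apply mul_le_mul_of_nonneg_right _ k6
      linarith
    have e : 18 * (500 * K * δ) ^ 2 * ML = 4500000 * K ^ 2 * δ ^ 2 * ML := by ring
    linarith
  obtain ⟨V, hV⟩ : ∃ V, V = K ^ 2 * δ * NN := ⟨_, rfl⟩
  have hKδ : 0 ≤ K ^ 2 * δ := by positivity
  have hV0 : 0 ≤ V := by rw [hV]; positivity
  have hV1 : V ≤ 1028 * q * Bq + 500000 * t * ML := by
    have := mul_le_mul_of_nonneg_left hNN1 hKδ
    rw [hV, hq, ht]
    refine this.trans (le_of_eq ?_)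
    ring
  have e1 : 16 / (1 / (4800 * K ^ 2)) = 76800 * K ^ 2 := by
    field_simp
    norm_num
  have e2 : 4 / (1 / (1600 * K ^ 2)) = 6400 * K ^ 2 := by
    field_simp
    norm_num
  -- (2)
  have hAA2 : δ * ((16 / (1 / (4800 * K ^ 2)) + 309 * K) / 3 * AA) ≤
      25601 * (1542 * q * OO + q * Bq + 4500000 * t * ML + V) := by
    rw [e1]
    have h1 : (76800 * K ^ 2 + 309 * K) / 3 ≤ 25601 * K ^ 2 := by linarith
    have h2 : 0 ≤ 1542 * δ ^ 2 * OO + δ ^ 2 * Bq + 4500000 * K ^ 2 * δ ^ 2 * ML + NN := by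
      positivity
    have h3 : (76800 * K ^ 2 + 309 * K) / 3 * AA ≤ 25601 * K ^ 2 *
        (1542 * δ ^ 2 * OO + δ ^ 2 * Bq + 4500000 * K ^ 2 * δ ^ 2 * ML + NN) :=
      (mul_le_mul_of_nonneg_left hAA1 (by positivity)).trans (mul_le_mul_of_nonneg_right h1 h2)
    refine (mul_le_mul_of_nonneg_left h3 hδ0.le).trans (le_of_eq ?_)
    rw [hq, ht, hV]
    ring
  have hNN2 : δ * ((4 / (1 / (1600 * K ^ 2)) + 308 * K) / 3 * NN) ≤ 2134 * V := by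
    rw [e2]
    have h1 : (6400 * K ^ 2 + 308 * K) / 3 ≤ 2134 * K ^ 2 := by linarith
    refine (mul_le_mul_of_nonneg_left (mul_le_mul_of_nonneg_right h1 k7) hδ0.le).trans
      (le_of_eq ?_)
    rw [hV]
    ring
  -- (3)
  have hD0 : 0 ≤ D := by rw [hD]; positivity
  have hD1 : D ≤ 517 * K * δ := by
    have e : δ / (1200 * K ^ 2) * K ^ 2 = δ / 1200 := by field_simp
    rw [hD, e]
    have h1 : η * K ≤ 16 * δ * K := mul_le_mul_of_nonneg_right hη16 hK0.le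
    have h2 : δ ≤ K * δ := by nlinarith
    linarith
  have hDV : D / 15 * NN ≤ V := by
    rw [hV]
    apply mul_le_mul_of_nonneg_right _ k7
    have h1 : 517 * (K * δ) ≤ 15 * (K ^ 2 * δ) := by nlinarith
    linarith
  have e3 : δ / (1200 * K ^ 2) = a / 1200 := by
    rw [ha]
    field_simp
  have hES : 33 / 100 * (η * TQ') + 33 / 100 * (a / 1200) * OO - a / 3600 * Bq +
      33 / 200 * 500 * (K * δ) * ML - V ≤ 1 / 3 * (E * S) := by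
    have hE00 : 0 ≤ E := by linarith
    have h1 := mul_le_mul_of_nonneg_left hS hE00
    rw [e3] at h1
    have hT : 0 ≤ η * TQ' := by
      rcases hη with h | h
      · exact mul_nonneg hη0 h.2
      · rw [h.1, zero_mul]
    have h2 : 99 / 100 * (η * TQ') ≤ E * (η * TQ') := mul_le_mul_of_nonneg_right hE0 hT
    have h3 : 99 / 100 * (a / 1200 * OO) ≤ E * (a / 1200 * OO) :=
      mul_le_mul_of_nonneg_right hE0 (by positivity)
    have h4 : E * (a / 1200 * Bq) ≤ 1 * (a / 1200 * Bq) :=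
      mul_le_mul_of_nonneg_right hE1 (by positivity)
    have h5 : 99 / 100 * (500 * K * δ / 2 * ML) ≤ E * (500 * K * δ / 2 * ML) :=
      mul_le_mul_of_nonneg_right hE0 (by positivity)
    have h6 : E * (D / 5 * NN) ≤ 1 * (D / 5 * NN) :=
      mul_le_mul_of_nonneg_right hE1 (by positivity)
    nlinarith [h1, h2, h3, h4, h5, h6, hDV]
  -- the other terms
  have hY1 : δ * (19 / 2 * Y) ≤ δ * (95 / 2 * KL + 19 / 198 * J + 19 / 2 * ML) := by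
    apply mul_le_mul_of_nonneg_left _ hδ0.le
    linarith
  have hEb1 : δ * (22 / 5 * Ebb) ≤ δ * (2816 * L * ML + 5808 * L * KL + 176 / 5 * (M * O) +
      22 / 390 * J) := by
    apply mul_le_mul_of_nonneg_left _ hδ0.le
    linarith
  have hL0 : 0 < L := by linarith
  have hhδ : h * δ * (Bq / (24 * L)) = a / 300 * Bq := by
    have h1 : h = 1 / 1000 / K := by
      rw [eq_div_iff hK0.ne']
      exact hh
    have h2 : L = K / 80 := by linarith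
    rw [h1, h2, ha]
    field_simp
    ring
  have e4 : δ * (1 / (4800 * K ^ 2) / 3 * OO) = a / 14400 * OO := by
    rw [ha]
    ring
  have e5 : δ * (4 / 3 * (1 / (1600 * K ^ 2)) * Bq) = a / 1200 * Bq := by
    rw [ha]
    ring
  -- (4) the coefficients
  have cTQ : 0 ≤ 33 / 100 * (η * TQ') - 4 * δ * TQ' := by
    rcases hη with h | h
    · rw [h.1]
      have := mul_nonneg hδ0.le h.2
      nlinarith
    · rw [h.1]
      have := mul_nonneg hδ0.le (neg_nonneg.2 h.2)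
      nlinarith
  have hKδ1 : K * δ ≤ 1 / 10 ^ 6 := by
    have h1 : K * δ * K ^ 4 = 1 := by
      rw [← hδ]
      ring
    have h2 : (10 : ℝ) ^ 6 ≤ K ^ 4 := by
      calc (10 : ℝ) ^ 6 ≤ 80000 ^ 4 := by norm_num
        _ ≤ K ^ 4 := pow_le_pow_left₀ (by norm_num) hK 4
    rw [le_div_iff₀ (by positivity)]
    calc K * δ * 10 ^ 6 ≤ K * δ * K ^ 4 := mul_le_mul_of_nonneg_left h2 (by positivity)
      _ = 1 := h1
  have hδK : δ ≤ K * δ := by nlinarith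
  have hLδ : δ * L = K * δ / 80 := by
    rw [hL]
    ring
  have cKL : 0 ≤ (99 / 100 - δ * (95 / 2 + 5808 * L)) * KL := by
    apply mul_nonneg _ k1
    have : δ * (95 / 2 + 5808 * L) = 95 / 2 * δ + 5808 * (δ * L) := by ring
    rw [this, hLδ]
    norm_num at hKδ1 ⊢
    linarith
  have cJ : 0 ≤ δ * J := mul_nonneg hδ0.le k2
  have cO : 0 ≤ δ * (M * O) := mul_nonneg hδ0.le (mul_nonneg hM k3)
  norm_num at hqa htδ
  have cOO : 0 ≤ (33 / 100 * (a / 1200) - a / 14400 - 25601 * 1542 * q) * OO := by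
    apply mul_nonneg _ k5
    linarith
  have cBq : 0 ≤ (a / 300 - a / 3600 - a / 1200 - 25601 * q - 27771 * 1028 * q) * Bq := by
    apply mul_nonneg _ k6
    linarith
  have cML : 0 ≤ (33 / 200 * 500 * (K * δ) - 19 / 2 * δ - 2816 * (δ * L) -
      25601 * 4500000 * t - 27771 * 500000 * t) * ML := by
    apply mul_nonneg _ k4
    rw [hLδ]
    nlinarith
  have hVV : 0 ≤ 27771 * (1028 * q * Bq + 500000 * t * ML) - 27736 * V := by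
    have h1 : 0 ≤ 1028 * q * Bq + 500000 * t * ML := hV0.trans hV1
    linarith
  have hsplit : δ * (19 / 2 * Y + 22 / 5 * Ebb + 1 / (4800 * K ^ 2) / 3 * OO
        + (16 / (1 / (4800 * K ^ 2)) + 309 * K) / 3 * AA + 4 / 3 * (1 / (1600 * K ^ 2)) * Bq
        + (4 / (1 / (1600 * K ^ 2)) + 308 * K) / 3 * NN) =
      δ * (19 / 2 * Y) + δ * (22 / 5 * Ebb) + δ * (1 / (4800 * K ^ 2) / 3 * OO)
        + δ * ((16 / (1 / (4800 * K ^ 2)) + 309 * K) / 3 * AA)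
        + δ * (4 / 3 * (1 / (1600 * K ^ 2)) * Bq)
        + δ * ((4 / (1 / (1600 * K ^ 2)) + 308 * K) / 3 * NN) := by ring
  rw [hsplit, hhδ, e4, e5]
  linarith [hAA2, hNN2, hES, hY1, hEb1, cTQ, cKL, cJ, cO, cOO, cBq, cML, hVV]

end BMV
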