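import Pool.Agent.BMV.Basic

/-!
# BMV/BarF: properties of the merged state

`hS : St θ δ h (rX r) W m k j` is a state on `α × X`; `bar` sums over the block.
PROOF.
`kz`: from `k (θ + nb) ≤ m = 0`, `nb ≥ 0`, `θ > 0`, `k ≥ 0`; `j` from `0 ≤ m ≤ j ≤ (5/4) m`.
`nb_ge_bar`: `nb (rX r) m (A,i) = ∑_C ∑_l [r A C ∨ i = l] m (C,l) ≥ ∑_C [r A C] ∑_l m(C,l)`
(`Fintype.sum_prod_type`); `nb_ge_P`: keep only the terms `l = i`.
`bar_kU`: sum `k(A,i) (θ + nb (rX r) m (A,i)) ≤ m(A,i)` over `i` with `nb_ge_bar`.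
`k_P`: `k(A,i) P_i ≤ k(A,i) (θ + nb ..) ≤ m(A,i)`.
`bar_dom`: collect (`bar j ≤ (5/4) bar m ≤ 2 bar m`).  The rest: sums of the hypotheses; if `bar m A > 0` then some
`m (A,i) > 0`.
-/

namespace BMV

open Finset BMP

variable {α X : Type} [Fintype α] [Fintype X] [DecidableEq X] (r : α → α → Prop) [DecidableRel r]

theorem kz (θ δ h : ℝ) (hθ : 0 < θ) (W m k j : α × X → ℝ) (hS : St θ δ h (rX r) W m k j) (p : α × X)
    (hp : m p = 0) : k p = 0 ∧ j p = 0 := by
  have h1 := hS.kU p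
  have h2 := nb_nonneg (rX r) m hS.m0 p
  have h3 := hS.k0 p
  rw [hp] at h1
  constructor
  · by_contra hne
    have h4 : 0 < k p := lt_of_le_of_ne h3 (Ne.symm hne)
    have h5 : 0 < k p * (θ + nb (rX r) m p) := mul_pos h4 (by linarith)
    linarith
  · have h4 := hS.mj p
    have h5 := hS.j5 p
    rw [hp] at h4 h5
    linarith

theorem nb_ge_bar (m : α × X → ℝ) (hm : ∀ p, 0 ≤ m p) (A : α) (i : X) :
    nb r (bar m) A ≤ nb (rX r) m (A, i) := by
  unfold nb bar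
  rw [Fintype.sum_prod_type]
  refine Finset.sum_le_sum fun C _ => ?_
  by_cases hr : r A C
  · rw [if_pos hr]
    refine Finset.sum_le_sum fun l _ => ?_
    rw [if_pos (show rX r (A, i) (C, l) from Or.inl hr)]
  · rw [if_neg hr]
    refine Finset.sum_nonneg fun l _ => ?_
    split_ifs
    · exact hm _
    · exact le_rfl

theorem nb_ge_P (m : α × X → ℝ) (hm : ∀ p, 0 ≤ m p) (A : α) (i : X) :
    ∑ C, m (C, i) ≤ nb (rX r) m (A, i) := by
  unfold nb
  rw [Fintype.sum_prod_type]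
  refine Finset.sum_le_sum fun C _ => ?_
  have h1 : (if rX r (A, i) (C, i) then m (C, i) else 0) = m (C, i) :=
    if_pos (show rX r (A, i) (C, i) from Or.inr rfl)
  calc m (C, i) = (if rX r (A, i) (C, i) then m (C, i) else 0) := h1.symm
    _ ≤ ∑ l, (if rX r (A, i) (C, l) then m (C, l) else 0) := by
      refine Finset.single_le_sum (f := fun l => (if rX r (A, i) (C, l) then m (C, l) else 0))
        (fun l _ => ?_) (Finset.mem_univ i)
      show 0 ≤ (if rX r (A, i) (C, l) then m (C, l) else 0)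
      split_ifs
      · exact hm _
      · exact le_rfl

theorem bar_m0 (m : α × X → ℝ) (hm : ∀ p, 0 ≤ m p) (A : α) : 0 ≤ bar m A := Finset.sum_nonneg fun _ _ => hm _

theorem bar_zero (m : α × X → ℝ) (hm : ∀ p, 0 ≤ m p) (A : α) (hA : bar m A = 0) (i : X) : m (A, i) = 0 := (Finset.sum_eq_zero_iff_of_nonneg (fun _ _ => hm _)).1 hA i (Finset.mem_univ i)

theorem bar_mj (θ δ h : ℝ) (W m k j : α × X → ℝ) (hS : St θ δ h (rX r) W m k j) (A : α) :
    bar m A ≤ bar j A := Finset.sum_le_sum fun _ _ => hS.mj _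

theorem bar_j5 (θ δ h : ℝ) (W m k j : α × X → ℝ) (hS : St θ δ h (rX r) W m k j) (A : α) :
    4 * bar j A ≤ 5 * bar m A := by
  unfold bar
  rw [Finset.mul_sum, Finset.mul_sum]
  exact Finset.sum_le_sum fun _ _ => hS.j5 _

private theorem ex_pos (m : α × X → ℝ) (A : α) (hA : 0 < bar m A) : ∃ i, 0 < m (A, i) := by
  by_contra hn
  push Not at hn
  have : bar m A ≤ 0 := Finset.sum_nonpos fun i _ => hn i
  linarith

theorem bar_kp (θ δ h : ℝ) (W m k j : α × X → ℝ) (hS : St θ δ h (rX r) W m k j) (A : α)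
    (hA : 0 < bar m A) : 0 < bar k A := by
  obtain ⟨i, hi⟩ := ex_pos m A hA
  exact lt_of_lt_of_le (hS.kp _ hi)
    (Finset.single_le_sum (f := fun i => k (A, i)) (fun _ _ => hS.k0 _) (Finset.mem_univ i))

theorem bar_Wp (θ δ h : ℝ) (W m k j : α × X → ℝ) (hW : ∀ p, 0 ≤ W p) (hS : St θ δ h (rX r) W m k j) (A : α)
    (hA : 0 < bar m A) : 0 < bar W A := by
  obtain ⟨i, hi⟩ := ex_pos m A hA
  exact lt_of_lt_of_le (hS.Wp _ hi)
    (Finset.single_le_sum (f := fun i => W (A, i)) (fun _ _ => hW _) (Finset.mem_univ i))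

theorem bar_kU (θ δ h : ℝ) (hθ : 0 < θ) (W m k j : α × X → ℝ) (hS : St θ δ h (rX r) W m k j) (A : α) :
    bar k A * (θ + nb r (bar m) A) ≤ bar m A := by
  unfold bar
  rw [Finset.sum_mul]
  refine Finset.sum_le_sum fun i _ => ?_
  refine le_trans (mul_le_mul_of_nonneg_left ?_ (hS.k0 _)) (hS.kU (A, i))
  have := nb_ge_bar r m hS.m0 A i
  have e : nb r (bar m) A = nb r (fun A => ∑ i, m (A, i)) A := rfl
  rw [e] at this
  linarith

theorem k_P (θ δ h : ℝ) (hθ : 0 < θ) (W m k j : α × X → ℝ) (hS : St θ δ h (rX r) W m k j) (A : α) (i : X) :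
    k (A, i) * ∑ C, m (C, i) ≤ m (A, i) := by
  refine le_trans (mul_le_mul_of_nonneg_left ?_ (hS.k0 _)) (hS.kU (A, i))
  have := nb_ge_P r m hS.m0 A i
  linarith

theorem bar_dom (θ δ h : ℝ) (W m k j : α × X → ℝ) (hW : ∀ p, 0 ≤ W p) (hS : St θ δ h (rX r) W m k j) :
    Dom (bar W) (bar m) (bar k) (bar j) where
  m0 := bar_m0 m hS.m0
  k0 := fun A => Finset.sum_nonneg fun _ _ => hS.k0 _
  j0 := fun A => le_trans (bar_m0 m hS.m0 A) (bar_mj r θ δ h W m k j hS A)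
  jm := fun A => by
    have h1 := bar_j5 r θ δ h W m k j hS A
    have h2 := bar_m0 m hS.m0 A
    linarith
  Wp := fun A => bar_Wp r θ δ h W m k j hW hS A
  kp := fun A => bar_kp r θ δ h W m k j hS A

end BMV
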