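import Pool.Agent.BMV.Defs

/-!
# BMV/Basic: elementary properties of the sums and of the expectations
-/

namespace BMV

open Finset BMP

section sums

variable {β : Type} [Fintype β] (r : β → β → Prop) [DecidableRel r]

theorem hs_add (f g : β → β → ℝ) : hs r (fun B C => f B C + g B C) = hs r f + hs r g := by
  unfold hs
  rw [← Finset.sum_add_distrib]
  refine Finset.sum_congr rfl fun B _ => ?_
  rw [← Finset.sum_add_distrib]
  refine Finset.sum_congr rfl fun C _ => ?_
  split_ifs <;> simp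

theorem hs_sub (f g : β → β → ℝ) : hs r (fun B C => f B C - g B C) = hs r f - hs r g := by
  unfold hs
  rw [← Finset.sum_sub_distrib]
  refine Finset.sum_congr rfl fun B _ => ?_
  rw [← Finset.sum_sub_distrib]
  refine Finset.sum_congr rfl fun C _ => ?_
  split_ifs <;> simp

theorem hs_mul_left (a : ℝ) (f : β → β → ℝ) : hs r (fun B C => a * f B C) = a * hs r f := by
  unfold hs
  rw [Finset.mul_sum]
  refine Finset.sum_congr rfl fun B _ => ?_
  rw [Finset.mul_sum]
  refine Finset.sum_congr rfl fun C _ => ?_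
  split_ifs <;> simp

theorem hs_congr (f g : β → β → ℝ) (h : ∀ B C, r B C → f B C = g B C) : hs r f = hs r g := by
  unfold hs
  refine Finset.sum_congr rfl fun B _ => Finset.sum_congr rfl fun C _ => ?_
  split_ifs with hr
  · exact h B C hr
  · rfl

theorem hs_mono (f g : β → β → ℝ) (h : ∀ B C, r B C → f B C ≤ g B C) : hs r f ≤ hs r g := by
  unfold hs
  refine Finset.sum_le_sum fun B _ => Finset.sum_le_sum fun C _ => ?_
  split_ifs with hr
  · exact h B C hr
  · exact le_rfl

theorem hs_nonneg (f : β → β → ℝ) (h : ∀ B C, r B C → 0 ≤ f B C) : 0 ≤ hs r f := by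
  unfold hs
  refine Finset.sum_nonneg fun B _ => Finset.sum_nonneg fun C _ => ?_
  split_ifs with hr
  · exact h B C hr
  · exact le_rfl

theorem hs_comm (hr : ∀ B C, r B C → r C B) (f : β → β → ℝ) : hs r f = hs r (fun B C => f C B) := by
  unfold hs
  rw [Finset.sum_comm]
  refine Finset.sum_congr rfl fun B _ => Finset.sum_congr rfl fun C _ => ?_
  by_cases h : r B C
  · rw [if_pos h, if_pos (hr _ _ h)]
  · rw [if_neg h, if_neg (fun h' => h (hr _ _ h'))]

theorem hs_mul_nb (f g : β → ℝ) : hs r (fun B C => f B * g C) = ∑ B, f B * nb r g B := by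
  unfold hs nb
  refine Finset.sum_congr rfl fun B _ => ?_
  rw [Finset.mul_sum]
  refine Finset.sum_congr rfl fun C _ => ?_
  split_ifs <;> simp

theorem ns_add (f g : β → β → ℝ) : ns r (fun B C => f B C + g B C) = ns r f + ns r g := by
  unfold ns
  rw [← Finset.sum_add_distrib]
  refine Finset.sum_congr rfl fun B _ => ?_
  rw [← Finset.sum_add_distrib]
  refine Finset.sum_congr rfl fun C _ => ?_
  split_ifs <;> simp

theorem ns_sub (f g : β → β → ℝ) : ns r (fun B C => f B C - g B C) = ns r f - ns r g := by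
  unfold ns
  rw [← Finset.sum_sub_distrib]
  refine Finset.sum_congr rfl fun B _ => ?_
  rw [← Finset.sum_sub_distrib]
  refine Finset.sum_congr rfl fun C _ => ?_
  split_ifs <;> simp

theorem ns_mul_left (a : ℝ) (f : β → β → ℝ) : ns r (fun B C => a * f B C) = a * ns r f := by
  unfold ns
  rw [Finset.mul_sum]
  refine Finset.sum_congr rfl fun B _ => ?_
  rw [Finset.mul_sum]
  refine Finset.sum_congr rfl fun C _ => ?_
  split_ifs <;> simp

theorem ns_mono (f g : β → β → ℝ) (h : ∀ B C, ¬ r B C → f B C ≤ g B C) : ns r f ≤ ns r g := by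
  unfold ns
  refine Finset.sum_le_sum fun B _ => Finset.sum_le_sum fun C _ => ?_
  split_ifs with hr
  · exact le_rfl
  · exact h B C hr

theorem ns_nonneg (f : β → β → ℝ) (h : ∀ B C, ¬ r B C → 0 ≤ f B C) : 0 ≤ ns r f := by
  unfold ns
  refine Finset.sum_nonneg fun B _ => Finset.sum_nonneg fun C _ => ?_
  split_ifs with hr
  · exact le_rfl
  · exact h B C hr

theorem hs_add_ns (f : β → β → ℝ) : hs r f + ns r f = ∑ B, ∑ C, f B C := by
  unfold hs ns
  rw [← Finset.sum_add_distrib]
  refine Finset.sum_congr rfl fun B _ => ?_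
  rw [← Finset.sum_add_distrib]
  refine Finset.sum_congr rfl fun C _ => ?_
  split_ifs <;> simp

theorem ns_comm (hr : ∀ B C, r B C → r C B) (f : β → β → ℝ) : ns r f = ns r (fun B C => f C B) := by
  unfold ns
  rw [Finset.sum_comm]
  refine Finset.sum_congr rfl fun B _ => Finset.sum_congr rfl fun C _ => ?_
  by_cases h : r B C
  · rw [if_pos h, if_pos (hr _ _ h)]
  · rw [if_neg h, if_neg (fun h' => h (hr _ _ h'))]

theorem nb_nonneg (f : β → ℝ) (h : ∀ B, 0 ≤ f B) (B : β) : 0 ≤ nb r f B := by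
  unfold nb
  refine Finset.sum_nonneg fun C _ => ?_
  split_ifs
  · exact h C
  · exact le_rfl

theorem sum_nb_comm (hr : ∀ B C, r B C → r C B) (f g : β → ℝ) :
    ∑ B, f B * nb r g B = ∑ B, g B * nb r f B := by
  rw [← hs_mul_nb, ← hs_mul_nb, hs_comm r hr]
  exact hs_congr r _ _ fun B C _ => mul_comm _ _

theorem hs_eq_sum (f : β → β → ℝ) : hs r f = ∑ B, ∑ C, if r B C then f B C else 0 := rfl

theorem mu_comm (k j : β → ℝ) (B C : β) : mu k j B C = mu k j C B := by
  unfold mu
  exact min_comm _ _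

theorem mu_le_left (k j : β → ℝ) (B C : β) : mu k j B C ≤ j B * k C := min_le_left _ _

theorem mu_le_right (k j : β → ℝ) (B C : β) : mu k j B C ≤ j C * k B := min_le_right _ _

theorem mu_nonneg (k j : β → ℝ) (hk : ∀ B, 0 ≤ k B) (hj : ∀ B, 0 ≤ j B) (B C : β) : 0 ≤ mu k j B C :=
  le_min (mul_nonneg (hj B) (hk C)) (mul_nonneg (hj C) (hk B))

end sums

section meas

variable {X : Type} [Fintype X] [DecidableEq X] (w : (X → Bool) → ℝ)

theorem Ew_add (f g : (X → Bool) → ℝ) : Ew w (fun s => f s + g s) = Ew w f + Ew w g := by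
  unfold Ew
  rw [← Finset.sum_add_distrib]
  exact Finset.sum_congr rfl fun s _ => mul_add _ _ _

theorem Ew_sub (f g : (X → Bool) → ℝ) : Ew w (fun s => f s - g s) = Ew w f - Ew w g := by
  unfold Ew
  rw [← Finset.sum_sub_distrib]
  exact Finset.sum_congr rfl fun s _ => mul_sub _ _ _

theorem Ew_mul_left (a : ℝ) (f : (X → Bool) → ℝ) : Ew w (fun s => a * f s) = a * Ew w f := by
  unfold Ew
  rw [Finset.mul_sum]
  exact Finset.sum_congr rfl fun s _ => by ring

theorem Ew_sum {K : Type} (S : Finset K) (F : K → (X → Bool) → ℝ) :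
    Ew w (fun s => ∑ a ∈ S, F a s) = ∑ a ∈ S, Ew w (F a) := by
  unfold Ew
  rw [Finset.sum_comm]
  exact Finset.sum_congr rfl fun s _ => by rw [Finset.mul_sum]

theorem Ew_const (hw : ∑ s, w s = 1) (a : ℝ) : Ew w (fun _ => a) = a := by
  unfold Ew
  rw [← Finset.sum_mul, hw, one_mul]

theorem Ew_mono (hw : ∀ s, 0 ≤ w s) (f g : (X → Bool) → ℝ) (h : ∀ s, f s ≤ g s) : Ew w f ≤ Ew w g := by
  unfold Ew
  exact Finset.sum_le_sum fun s _ => mul_le_mul_of_nonneg_left (h s) (hw s)

theorem Ew_nonneg (hw : ∀ s, 0 ≤ w s) (f : (X → Bool) → ℝ) (h : ∀ s, 0 ≤ f s) : 0 ≤ Ew w f :=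
  Finset.sum_nonneg fun s _ => mul_nonneg (hw s) (h s)

theorem Ew_hs {β : Type} [Fintype β] (r : β → β → Prop) [DecidableRel r] (F : β → β → (X → Bool) → ℝ) :
    Ew w (fun s => hs r (fun B C => F B C s)) = hs r (fun B C => Ew w (F B C)) := by
  unfold hs
  rw [Ew_sum]
  refine Finset.sum_congr rfl fun B _ => ?_
  rw [Ew_sum]
  refine Finset.sum_congr rfl fun C _ => ?_
  split_ifs
  · rfl
  · unfold Ew
    simp

theorem exists_ge (hw : ∀ s, 0 ≤ w s) (h1 : ∑ s, w s = 1) (f : (X → Bool) → ℝ) (a : ℝ) (h : a ≤ Ew w f) :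
    ∃ s, a ≤ f s := by
  by_contra hn
  push Not at hn
  obtain ⟨s0, hs0⟩ : ∃ s, 0 < w s := by
    by_contra h0
    push Not at h0
    have : ∑ s, w s ≤ 0 := Finset.sum_nonpos fun s _ => h0 s
    linarith
  have : Ew w f < a := by
    have e : a = ∑ s, w s * a := by rw [← Finset.sum_mul, h1, one_mul]
    rw [e]
    unfold Ew
    exact Finset.sum_lt_sum (fun s _ => mul_le_mul_of_nonneg_left (hn s).le (hw s))
      ⟨s0, Finset.mem_univ _, mul_lt_mul_of_pos_left (hn s0) hs0⟩
  linarith

/-- the uniform weights -/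
noncomputable def uw (X : Type) [Fintype X] : (X → Bool) → ℝ := fun _ => 1 / 2 ^ (Fintype.card X)

theorem uw_nonneg (s : X → Bool) : 0 ≤ uw X s := by unfold uw; positivity

theorem uw_sum : ∑ s, uw X s = 1 := by
  unfold uw
  rw [Finset.sum_const, Finset.card_univ, Fintype.card_fun, Fintype.card_bool, nsmul_eq_mul]
  push_cast
  field_simp

theorem Ew_uw (f : (X → Bool) → ℝ) : Ew (uw X) f = Ex f := by
  unfold Ew uw Ex
  rw [Finset.sum_div]
  exact Finset.sum_congr rfl fun s _ => by ring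

end meas

section const

theorem L0_ge : 1000 ≤ L0 := by
  have h : (200 : ℝ) ^ 3 / 6 ≤ Real.exp 200 := by
    have := Real.pow_div_factorial_le_exp (x := 200) (by norm_num) 3
    simpa [Nat.factorial] using this
  unfold L0
  norm_num at h ⊢
  linarith

theorem L0_pos : 0 < L0 := by linarith [L0_ge]

theorem K0_eq : K0 = 80 * L0 := rfl

theorem K0_ge : 80000 ≤ K0 := by
  have := L0_ge
  unfold K0
  linarith

theorem K0_pos : 0 < K0 := by linarith [K0_ge]

theorem h0_pos : 0 < h0 := by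
  unfold h0
  exact div_pos one_pos (mul_pos (by norm_num) K0_pos)

theorem h0_K0 : h0 * K0 = 1 / 1000 := by
  have := K0_pos
  unfold h0
  field_simp

theorem h0_le : h0 ≤ 1 / 80000000 := by
  have h1 := h0_K0
  have h2 := K0_ge
  have h3 := h0_pos
  nlinarith

theorem d0_pos : 0 < d0 := by
  unfold d0
  exact div_pos one_pos (pow_pos K0_pos 5)

theorem d0_K0 : d0 * K0 ^ 5 = 1 := by
  have := K0_pos
  unfold d0
  field_simp

end const

end BMV
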