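import Pool.Agent.BMV.PsiLe

/-!
# BMV/Clip: every admissible state can be improved to a state in a compact box

PROOF of `clip`.  Write `Psi = ∑ lc + ∑_{r B C} q(B,C)`, `q(B,C) = - 2 δ k_B m_C + h δ min(j_B k_C, j_C k_B)`.
Step 1 (`m ≤ W`).  Let `s_B = 1` if `m_B ≤ W_B`, else `s_B = W_B / m_B` (in `[0,1]`); new state
`(s m, s k, s j)`.
 * entropy part: for `m_B > W_B` one has `W_B > 0` (`Dom.Wp`), the new value is
   `W (log (W/W) + 1) = W ≥ m (log (W/m) + 1)` (`log x ≤ x - 1`).
 * the rest of `lc`: `E(m,k,j) = δ (m log(θ k/m) + m - θ k - 8 h (j-m)²/m)` is homogeneous of degree one and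
   `≤ 0` (see `PsiLe`), so `E(s m, s k, s j) = s E ≥ E` (if `m_B = 0` then `s_B = 1`).
 * pairs: `hs r q ≤` new one: both arguments of the min and `k_B m_C` are multiplied by `s_B s_C ∈ [0,1]`, and
   `q(B,C) + q(C,B) = - 2 δ (k_B m_C + k_C m_B) + 2 h δ min ≤ 0` (`min ≤ j_C k_B ≤ 2 m_C k_B`, `2 h ≤ 1`);
   in fact already `- 2 k_B m_C + h min ≤ 0` pointwise.
   So `q` pointwise improves.
Step 2 (`k ≤ m/θ`).  Replace `k_B` by `k'_B = min(k_B, m_B/θ)`.
 * local: if `k_B > m_B/θ`: `m log(θ k/m) + m - θ k ≤ 0` and the new value is `0` (also if `m_B = 0`).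
 * pairs: with `e_B = k_B - k'_B ≥ 0` : `hs(k m) - hs(k' m) = hs(e_B m_C)`, and
   `min(j_B k_C, j_C k_B) - min(j_B k'_C, j_C k'_B) ≤ j_B e_C + j_C e_B ≤ 2 m_B e_C + 2 m_C e_B`, whose sum over
   the related pairs is `4 hs(e_B m_C)` (`hs_comm`).  Change of `Psi` is at least
   `2 δ hs(e m) - 4 h δ hs(e m) ≥ 0` since `h ≤ 1/2`.
Step 3 (`k ≥ lo m`, `lo = 1/(θ + 2 V)`, `V = ∑ W`; now `∑ m ≤ V`).  Replace `k_B` by `k'_B = max(k_B, lo m_B)`,
 `e_B = k'_B - k_B ≥ 0`.  Where `e_B > 0` : `m_B > 0`, `k_B > 0`,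
 `m log(θ k'/m) - m log(θ k/m) = m log(k'/k) ≥ m (1 - k/k') = m e/k' = (θ + 2 V) e`, the term `- θ k` loses
 `θ e`, the pairs lose at most `2 δ e_B ∑_C m_C ≤ 2 δ V e_B` and the min terms do not decrease.
At the end put `κ_B = k_B/m_B` and `ρ_B = j_B/m_B` if `m_B > 0`, else `κ_B = lo`, `ρ_B = 0`
(if `m_B = 0` then after step 2 `k_B = 0` and `j_B = 0`).  `lo ≤ 1/θ`.
-/

namespace BMV

open Finset BMP

variable {β : Type} [Fintype β] (r : β → β → Prop) [DecidableRel r]

private theorem clip_log_le {x : ℝ} (hx : 0 < x) : Real.log x ≤ x - 1 :=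
  Real.log_le_sub_one_of_pos hx

/-- the energy part of the local term is nonpositive -/
private theorem clip_e1 {θ m k : ℝ} (hθ : 0 < θ) (hm : 0 ≤ m) (hk : 0 ≤ k) (hkp : 0 < m → 0 < k) :
    m * Real.log (θ * k / m) + m - θ * k ≤ 0 := by
  rcases hm.eq_or_lt with h | h
  · rw [← h]
    have := mul_nonneg hθ.le hk
    simp only [zero_mul, zero_add, zero_sub]
    linarith
  · have hk' := hkp h
    have h1 : 0 < θ * k / m := div_pos (mul_pos hθ hk') h
    have h2 := mul_le_mul_of_nonneg_left (clip_log_le h1) hm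
    have h3 : m * (θ * k / m - 1) = θ * k - m := by field_simp
    linarith

private theorem clip_e2 {h m j : ℝ} (hh : 0 ≤ h) (hm : 0 ≤ m) : 0 ≤ 8 * h * ((j - m) ^ 2 / m) := by
  positivity

private theorem clip_loc1 {θ δ h W m k j : ℝ} (hθ : 0 < θ) (hδ : 0 ≤ δ) (hh : 0 ≤ h) (hW : 0 < W)
    (hm : W < m) (hk : 0 < k) : lc θ δ h W m k j ≤ lc θ δ h W (W / m * m) (W / m * k) (W / m * j) := by
  have hm0 : 0 < m := hW.trans hm
  have hs0 : 0 < W / m := div_pos hW hm0
  have hs1 : W / m ≤ 1 := (div_le_one hm0).2 hm.le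
  unfold lc
  set s := W / m with hs
  have e1 : s * m = W := by rw [hs]; field_simp
  have e2 : θ * (s * k) / (s * m) = θ * k / m := by field_simp
  have e3 : (s * j - s * m) ^ 2 / (s * m) = s * ((j - m) ^ 2 / m) := by field_simp
  have h1 : m * (Real.log (W / m) + 1) ≤ W := by
    have h2 := mul_le_mul_of_nonneg_left (clip_log_le (div_pos hW hm0)) hm0.le
    have h3 : m * (W / m - 1) = W - m := by field_simp
    linarith
  have h2 : s * m * (Real.log (W / (s * m)) + 1) = W := by
    rw [e1, div_self hW.ne', Real.log_one]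
    ring
  rw [h2, e2, e3]
  have h3 : m * Real.log (θ * k / m) + m - θ * k - 8 * h * ((j - m) ^ 2 / m) ≤ 0 := by
    have := clip_e1 hθ hm0.le hk.le (fun _ => hk)
    have := clip_e2 (j := j) hh hm0.le
    linarith
  have h4 : s * m * Real.log (θ * k / m) + s * m - θ * (s * k) - 8 * h * (s * ((j - m) ^ 2 / m)) =
      s * (m * Real.log (θ * k / m) + m - θ * k - 8 * h * ((j - m) ^ 2 / m)) := by ring
  rw [h4]
  have h5 : (m * Real.log (θ * k / m) + m - θ * k - 8 * h * ((j - m) ^ 2 / m)) ≤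
      s * (m * Real.log (θ * k / m) + m - θ * k - 8 * h * ((j - m) ^ 2 / m)) := by nlinarith
  have h6 := mul_le_mul_of_nonneg_left h5 hδ
  linarith

private theorem clip_psi_eq (θ δ h : ℝ) (W m k j : β → ℝ) :
    Psi θ δ h r W m k j = ∑ B, lc θ δ h (W B) (m B) (k B) (j B) +
      hs r (fun B C => - 2 * δ * (k B * m C) + h * δ * mu k j B C) := by
  unfold Psi
  rw [hs_add, hs_mul_left, hs_mul_left]
  have : hs r (fun B C => mu k j B C) = hs r (mu k j) := rfl
  rw [this]
  ring

/-- step 1 -/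
private theorem clip_step1 (θ δ h : ℝ) (hθ : 0 < θ) (hδ : 0 ≤ δ) (hh : 0 ≤ h) (hh1 : h ≤ 1 / 2)
    (W m k j : β → ℝ) (hW : ∀ B, 0 ≤ W B) (hd : Dom W m k j) :
    ∃ m' k' j' : β → ℝ, Dom W m' k' j' ∧ (∀ B, m' B ≤ W B) ∧
      Psi θ δ h r W m k j ≤ Psi θ δ h r W m' k' j' := by
  classical
  obtain ⟨s, hs⟩ : ∃ s : β → ℝ, ∀ B, s B = if m B ≤ W B then 1 else W B / m B := ⟨_, fun B => rfl⟩
  have hgt : ∀ B, ¬ m B ≤ W B → 0 < m B ∧ 0 < W B ∧ 0 < k B := by
    intro B hB
    have h1 : 0 < m B := lt_of_le_of_lt (hW B) (not_le.1 hB)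
    exact ⟨h1, hd.Wp B h1, hd.kp B h1⟩
  have hs0 : ∀ B, 0 < s B := by
    intro B
    rw [hs B]
    split_ifs with hB
    · exact one_pos
    · obtain ⟨h1, h2, -⟩ := hgt B hB
      exact div_pos h2 h1
  have hs1 : ∀ B, s B ≤ 1 := by
    intro B
    rw [hs B]
    split_ifs with hB
    · exact le_rfl
    · obtain ⟨h1, h2, -⟩ := hgt B hB
      exact (div_le_one h1).2 (not_le.1 hB).le
  refine ⟨fun B => s B * m B, fun B => s B * k B, fun B => s B * j B, ?_, ?_, ?_⟩
  · refine ⟨fun B => mul_nonneg (hs0 B).le (hd.m0 B), fun B => mul_nonneg (hs0 B).le (hd.k0 B),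
      fun B => mul_nonneg (hs0 B).le (hd.j0 B), fun B => ?_, fun B hB => ?_, fun B hB => ?_⟩
    · have := mul_le_mul_of_nonneg_left (hd.jm B) (hs0 B).le
      linarith
    · exact hd.Wp B ((mul_pos_iff_of_pos_left (hs0 B)).1 hB)
    · exact mul_pos (hs0 B) (hd.kp B ((mul_pos_iff_of_pos_left (hs0 B)).1 hB))
  · intro B
    show s B * m B ≤ W B
    rw [hs B]
    split_ifs with hB
    · rw [one_mul]
      exact hB
    · obtain ⟨h1, h2, -⟩ := hgt B hB
      rw [div_mul_cancel₀ _ h1.ne']
  · rw [clip_psi_eq, clip_psi_eq]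
    refine add_le_add (sum_le_sum fun B _ => ?_) (hs_mono r _ _ fun B C _ => ?_)
    · show lc θ δ h (W B) (m B) (k B) (j B) ≤ lc θ δ h (W B) (s B * m B) (s B * k B) (s B * j B)
      by_cases hB : m B ≤ W B
      · rw [hs B, if_pos hB, one_mul, one_mul, one_mul]
      · obtain ⟨h1, h2, h3⟩ := hgt B hB
        rw [hs B, if_neg hB]
        exact clip_loc1 hθ hδ hh h2 (not_le.1 hB) h3
    · have e1 : mu (fun B => s B * k B) (fun B => s B * j B) B C = s B * s C * mu k j B C := by
        unfold mu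
        rw [mul_min_of_nonneg _ _ (mul_nonneg (hs0 B).le (hs0 C).le)]
        congr 1 <;> ring
      rw [e1]
      have h1 : mu k j B C ≤ 2 * (k B * m C) := by
        have h2 := mu_le_right k j B C
        have h3 := mul_le_mul_of_nonneg_right (hd.jm C) (hd.k0 B)
        linarith
      have h2 : 0 ≤ k B * m C := mul_nonneg (hd.k0 B) (hd.m0 C)
      have h3 : - 2 * (k B * m C) + h * mu k j B C ≤ 0 := by nlinarith
      have h4 : - 2 * δ * (k B * m C) + h * δ * mu k j B C =
          δ * (- 2 * (k B * m C) + h * mu k j B C) := by ring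
      have h5 : - 2 * δ * (s B * k B * (s C * m C)) + h * δ * (s B * s C * mu k j B C) =
          s B * s C * (δ * (- 2 * (k B * m C) + h * mu k j B C)) := by ring
      show - 2 * δ * (k B * m C) + h * δ * mu k j B C ≤
        - 2 * δ * (s B * k B * (s C * m C)) + h * δ * (s B * s C * mu k j B C)
      rw [h4, h5]
      have h6 : δ * (- 2 * (k B * m C) + h * mu k j B C) ≤ 0 := mul_nonpos_of_nonneg_of_nonpos hδ h3
      have h7 : s B * s C ≤ 1 := mul_le_one₀ (hs1 B) (hs0 C).le (hs1 C)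
      nlinarith

/-- step 2 -/
private theorem clip_step2 (θ δ h : ℝ) (hθ : 0 < θ) (hδ : 0 ≤ δ) (hh : 0 ≤ h) (hh1 : h ≤ 1 / 2)
    (hr : ∀ B C, r B C → r C B) (W m k j : β → ℝ) (hd : Dom W m k j) :
    ∃ k' : β → ℝ, Dom W m k' j ∧ (∀ B, k' B ≤ m B / θ) ∧
      Psi θ δ h r W m k j ≤ Psi θ δ h r W m k' j := by
  refine ⟨fun B => min (k B) (m B / θ), ?_, fun B => min_le_right _ _, ?_⟩
  · exact ⟨hd.m0, fun B => le_min (hd.k0 B) (div_nonneg (hd.m0 B) hθ.le), hd.j0, hd.jm, hd.Wp,
      fun B hB => lt_min (hd.kp B hB) (div_pos hB hθ)⟩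
  · obtain ⟨e, he⟩ : ∃ e : β → ℝ, ∀ B, e B = k B - min (k B) (m B / θ) := ⟨_, fun B => rfl⟩
    have he0 : ∀ B, 0 ≤ e B := fun B => by
      rw [he B]
      exact sub_nonneg.2 (min_le_left _ _)
    unfold Psi
    have h1 : ∑ B, lc θ δ h (W B) (m B) (k B) (j B) ≤
        ∑ B, lc θ δ h (W B) (m B) (min (k B) (m B / θ)) (j B) := by
      refine sum_le_sum fun B _ => ?_
      rcases le_total (k B) (m B / θ) with hB | hB
      · rw [min_eq_left hB]
      · rw [min_eq_right hB]
        unfold lc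
        have h2 := clip_e1 hθ (hd.m0 B) (hd.k0 B) (hd.kp B)
        have h3 : m B * Real.log (θ * (m B / θ) / m B) + m B - θ * (m B / θ) = 0 := by
          have e1 : θ * (m B / θ) = m B := by field_simp
          rw [e1]
          rcases (hd.m0 B).eq_or_lt with h0 | h0
          · rw [← h0]
            simp
          · rw [div_self h0.ne', Real.log_one]
            ring
        have h4 : m B * Real.log (θ * k B / m B) + m B - θ * k B - 8 * h * ((j B - m B) ^ 2 / m B) ≤
            m B * Real.log (θ * (m B / θ) / m B) + m B - θ * (m B / θ) -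
              8 * h * ((j B - m B) ^ 2 / m B) := by linarith
        have h5 := mul_le_mul_of_nonneg_left h4 hδ
        linarith
    have h2 : hs r (fun B C => k B * m C) =
        hs r (fun B C => min (k B) (m B / θ) * m C) + hs r (fun B C => e B * m C) := by
      rw [← hs_add]
      refine hs_congr r _ _ fun B C _ => ?_
      rw [he B]
      ring
    have h3 : hs r (mu k j) ≤ hs r (mu (fun B => min (k B) (m B / θ)) j) +
        4 * hs r (fun B C => e B * m C) := by
      have h4 : hs r (mu k j) ≤ hs r (fun B C => mu (fun B => min (k B) (m B / θ)) j B C +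
          (2 * (e B * m C) + 2 * (e C * m B))) := by
        refine hs_mono r _ _ fun B C _ => ?_
        have hkB : k B = min (k B) (m B / θ) + e B := by rw [he B]; ring
        have hkC : k C = min (k C) (m C / θ) + e C := by rw [he C]; ring
        have hj1 : j B * e C ≤ 2 * (e C * m B) := by
          have := mul_le_mul_of_nonneg_right (hd.jm B) (he0 C)
          linarith
        have hj2 : j C * e B ≤ 2 * (e B * m C) := by
          have := mul_le_mul_of_nonneg_right (hd.jm C) (he0 B)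
          linarith
        have hn1 : 0 ≤ e C * m B := mul_nonneg (he0 C) (hd.m0 B)
        have hn2 : 0 ≤ e B * m C := mul_nonneg (he0 B) (hd.m0 C)
        have h5 := mu_le_left k j B C
        have h6 := mu_le_right k j B C
        have h7 : mu (fun B => min (k B) (m B / θ)) j B C =
            min (j B * min (k C) (m C / θ)) (j C * min (k B) (m B / θ)) := rfl
        rw [h7]
        rcases min_choice (j B * min (k C) (m C / θ)) (j C * min (k B) (m B / θ)) with hc | hc
        · rw [hc]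
          have h8 : j B * k C = j B * min (k C) (m C / θ) + j B * e C := by
            rw [← mul_add, ← hkC]
          linarith
        · rw [hc]
          have h8 : j C * k B = j C * min (k B) (m B / θ) + j C * e B := by
            rw [← mul_add, ← hkB]
          linarith
      have h5 : hs r (fun B C => mu (fun B => min (k B) (m B / θ)) j B C +
          (2 * (e B * m C) + 2 * (e C * m B))) = hs r (mu (fun B => min (k B) (m B / θ)) j) +
          4 * hs r (fun B C => e B * m C) := by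
        rw [hs_add, hs_add, hs_mul_left, hs_mul_left, hs_comm r hr (fun B C => e C * m B)]
        have : hs r (fun B C => mu (fun B => min (k B) (m B / θ)) j B C) =
          hs r (mu (fun B => min (k B) (m B / θ)) j) := rfl
        rw [this]
        ring
      rw [h5] at h4
      exact h4
    have h4 : 0 ≤ hs r (fun B C => e B * m C) :=
      hs_nonneg r _ fun B C _ => mul_nonneg (he0 B) (hd.m0 C)
    have h5 := mul_le_mul_of_nonneg_left h3 (mul_nonneg hh hδ)
    have h6 : 0 ≤ δ * hs r (fun B C => e B * m C) := mul_nonneg hδ h4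
    have h7 : h * (δ * hs r (fun B C => e B * m C)) ≤ 1 / 2 * (δ * hs r (fun B C => e B * m C)) :=
      mul_le_mul_of_nonneg_right hh1 h6
    rw [h2]
    nlinarith

/-- step 3 -/
private theorem clip_step3 (θ δ h : ℝ) (hθ : 0 < θ) (hδ : 0 ≤ δ) (hh : 0 ≤ h)
    (W m k j : β → ℝ) (hW : ∀ B, 0 ≤ W B) (hd : Dom W m k j) (hmW : ∀ B, m B ≤ W B)
    (hkm : ∀ B, k B ≤ m B / θ) :
    ∃ k' : β → ℝ, Dom W m k' j ∧ (∀ B, k' B ≤ m B / θ) ∧
      (∀ B, 1 / (θ + 2 * ∑ C, W C) * m B ≤ k' B) ∧ Psi θ δ h r W m k j ≤ Psi θ δ h r W m k' j := by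
  have hV : 0 ≤ ∑ C, W C := sum_nonneg fun C _ => hW C
  have hden : 0 < θ + 2 * ∑ C, W C := by linarith
  set V := ∑ C, W C with hVdef
  set lo := 1 / (θ + 2 * V) with hlo
  have hlo0 : 0 < lo := by rw [hlo]; positivity
  have hlo1 : lo ≤ 1 / θ := one_div_le_one_div_of_le hθ (by linarith)
  have hlo2 : lo * (θ + 2 * V) = 1 := by rw [hlo]; field_simp
  refine ⟨fun B => max (k B) (lo * m B), ?_, ?_, fun B => le_max_right _ _, ?_⟩
  · exact ⟨hd.m0, fun B => le_max_of_le_left (hd.k0 B), hd.j0, hd.jm, hd.Wp,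
      fun B hB => lt_max_of_lt_left (hd.kp B hB)⟩
  · intro B
    refine max_le (hkm B) ?_
    have := mul_le_mul_of_nonneg_right hlo1 (hd.m0 B)
    rw [one_div, inv_mul_eq_div] at this
    exact this
  · obtain ⟨e, he⟩ : ∃ e : β → ℝ, ∀ B, e B = max (k B) (lo * m B) - k B := ⟨_, fun B => rfl⟩
    have he0 : ∀ B, 0 ≤ e B := fun B => by
      rw [he B]
      exact sub_nonneg.2 (le_max_left _ _)
    unfold Psi
    have h1 : ∀ B, lc θ δ h (W B) (m B) (k B) (j B) + 2 * V * δ * e B ≤
        lc θ δ h (W B) (m B) (max (k B) (lo * m B)) (j B) := by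
      intro B
      rcases le_total (lo * m B) (k B) with hB | hB
      · rw [he B, max_eq_left hB, sub_self, mul_zero, add_zero]
      · rcases (hd.m0 B).eq_or_lt with h0 | h0
        · have hk0 : k B = 0 := by
            refine le_antisymm ?_ (hd.k0 B)
            rw [← h0] at hB
            simpa using hB
          rw [he B, ← h0, hk0]
          simp
        · have hk0 := hd.kp B h0
          rw [he B, max_eq_right hB]
          have hk1 : 0 < lo * m B := mul_pos hlo0 h0
          have h2 : m B * Real.log (θ * k B / m B) + (θ + 2 * V) * (lo * m B - k B) ≤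
              m B * Real.log (θ * (lo * m B) / m B) := by
            have h3 : Real.log (θ * (lo * m B) / m B) =
                Real.log (θ * k B / m B) - Real.log (k B / (lo * m B)) := by
              rw [← Real.log_div (by positivity) (by positivity)]
              congr 1
              field_simp
            have h4 := clip_log_le (div_pos hk0 hk1)
            have h5 : m B * (k B / (lo * m B) - 1) = - ((θ + 2 * V) * (lo * m B - k B)) := by
              have h6 : θ + 2 * V = 1 / lo := by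
                rw [eq_div_iff hlo0.ne', mul_comm]
                exact hlo2
              rw [h6]
              field_simp
              ring
            have h6 := mul_le_mul_of_nonneg_left h4 h0.le
            rw [h5] at h6
            rw [h3]
            linarith
          unfold lc
          have h3 : (m B * Real.log (θ * k B / m B) + m B - θ * k B - 8 * h * ((j B - m B) ^ 2 / m B)) +
              2 * V * (lo * m B - k B) ≤ m B * Real.log (θ * (lo * m B) / m B) + m B -
                θ * (lo * m B) - 8 * h * ((j B - m B) ^ 2 / m B) := by linarith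
          have h4 := mul_le_mul_of_nonneg_left h3 hδ
          linarith
    have h2 : ∑ B, lc θ δ h (W B) (m B) (k B) (j B) + 2 * V * δ * ∑ B, e B ≤
        ∑ B, lc θ δ h (W B) (m B) (max (k B) (lo * m B)) (j B) := by
      rw [mul_sum, ← sum_add_distrib]
      exact sum_le_sum fun B _ => h1 B
    have h3 : hs r (fun B C => max (k B) (lo * m B) * m C) =
        hs r (fun B C => k B * m C) + hs r (fun B C => e B * m C) := by
      rw [← hs_add]
      refine hs_congr r _ _ fun B C _ => ?_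
      rw [he B]
      ring
    have h4 : hs r (fun B C => e B * m C) ≤ V * ∑ B, e B := by
      rw [hs_mul_nb, mul_sum]
      refine sum_le_sum fun B _ => ?_
      have h5 : nb r m B ≤ V := by
        unfold nb
        rw [hVdef]
        refine sum_le_sum fun C _ => ?_
        split_ifs
        · exact hmW C
        · exact hW C
      rw [mul_comm]
      exact mul_le_mul_of_nonneg_right h5 (he0 B)
    have h5 : hs r (mu k j) ≤ hs r (mu (fun B => max (k B) (lo * m B)) j) := by
      refine hs_mono r _ _ fun B C _ => ?_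
      unfold mu
      exact min_le_min (mul_le_mul_of_nonneg_left (le_max_left _ _) (hd.j0 B))
        (mul_le_mul_of_nonneg_left (le_max_left _ _) (hd.j0 C))
    have h6 := mul_le_mul_of_nonneg_left h5 (mul_nonneg hh hδ)
    have h7 := mul_le_mul_of_nonneg_left h4 hδ
    rw [h3]
    linarith

theorem clip (θ δ h : ℝ) (hθ : 0 < θ) (hδ : 0 ≤ δ) (hh : 0 ≤ h) (hh1 : h ≤ 1 / 2)
    (hr : ∀ B C, r B C → r C B) (W m k j : β → ℝ) (hW : ∀ B, 0 ≤ W B) (hd : Dom W m k j) :
    ∃ m' κ ρ : β → ℝ, (∀ B, 0 ≤ m' B ∧ m' B ≤ W B) ∧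
      (∀ B, 1 / (θ + 2 * ∑ C, W C) ≤ κ B ∧ κ B ≤ 1 / θ) ∧ (∀ B, 0 ≤ ρ B ∧ ρ B ≤ 2) ∧
      Psi θ δ h r W m k j ≤ Psi θ δ h r W m' (fun B => κ B * m' B) (fun B => ρ B * m' B) := by
  classical
  obtain ⟨m1, k1, j1, hd1, hm1, hp1⟩ := clip_step1 r θ δ h hθ hδ hh hh1 W m k j hW hd
  obtain ⟨k2, hd2, hk2, hp2⟩ := clip_step2 r θ δ h hθ hδ hh hh1 hr W m1 k1 j1 hd1
  obtain ⟨k3, hd3, hk3, hl3, hp3⟩ := clip_step3 r θ δ h hθ hδ hh W m1 k2 j1 hW hd2 hm1 hk2
  have hV : 0 ≤ ∑ C, W C := sum_nonneg fun C _ => hW C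
  have hlo1 : 1 / (θ + 2 * ∑ C, W C) ≤ 1 / θ := one_div_le_one_div_of_le hθ (by linarith)
  refine ⟨m1, fun B => if m1 B = 0 then 1 / (θ + 2 * ∑ C, W C) else k3 B / m1 B,
    fun B => if m1 B = 0 then 0 else j1 B / m1 B, fun B => ⟨hd3.m0 B, hm1 B⟩, fun B => ?_,
    fun B => ?_, ?_⟩
  · show 1 / (θ + 2 * ∑ C, W C) ≤ (if m1 B = 0 then 1 / (θ + 2 * ∑ C, W C) else k3 B / m1 B) ∧
      (if m1 B = 0 then 1 / (θ + 2 * ∑ C, W C) else k3 B / m1 B) ≤ 1 / θ
    split_ifs with h0
    · exact ⟨le_rfl, hlo1⟩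
    · have hm0 : 0 < m1 B := lt_of_le_of_ne (hd3.m0 B) (Ne.symm h0)
      refine ⟨(le_div_iff₀ hm0).2 (hl3 B), (div_le_iff₀ hm0).2 ?_⟩
      rw [one_div, inv_mul_eq_div]
      exact hk3 B
  · show 0 ≤ (if m1 B = 0 then 0 else j1 B / m1 B) ∧ (if m1 B = 0 then 0 else j1 B / m1 B) ≤ 2
    split_ifs with h0
    · exact ⟨le_rfl, by norm_num⟩
    · have hm0 : 0 < m1 B := lt_of_le_of_ne (hd3.m0 B) (Ne.symm h0)
      exact ⟨div_nonneg (hd3.j0 B) hm0.le, (div_le_iff₀ hm0).2 (hd3.jm B)⟩
  · refine hp1.trans (hp2.trans (hp3.trans (le_of_eq ?_)))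
    congr 1
    · funext B
      show k3 B = (if m1 B = 0 then 1 / (θ + 2 * ∑ C, W C) else k3 B / m1 B) * m1 B
      split_ifs with h0
      · have h1 := hk3 B
        rw [h0, zero_div] at h1
        rw [h0, mul_zero]
        exact le_antisymm h1 (hd3.k0 B)
      · rw [div_mul_cancel₀ _ h0]
    · funext B
      show j1 B = (if m1 B = 0 then 0 else j1 B / m1 B) * m1 B
      split_ifs with h0
      · have h1 := hd3.jm B
        rw [h0, mul_zero] at h1
        rw [zero_mul]
        exact le_antisymm h1 (hd3.j0 B)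
      · rw [div_mul_cancel₀ _ h0]

end BMV
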