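import Pool.Agent.BMP.Defs

/-!
# Project BMV (helper67): the Aaronson-Ambainis conjecture for block-multilinear forms

max influence ≥ (variance / number of blocks)^C.  Paper proof: /team-store/aa_additive_helper67.md.
The potential is a free energy `Psi`, maximised over a mass distribution `m`, weights `k` and auxiliary
masses `j`.
-/

namespace BMV

open Finset BMP

/-- the constants of the proof -/
noncomputable def L0 : ℝ := 4 * Real.exp 200
noncomputable def K0 : ℝ := 80 * L0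
noncomputable def h0 : ℝ := 1 / (1000 * K0)
noncomputable def d0 : ℝ := 1 / K0 ^ 5
noncomputable def Mt : ℝ := Real.exp (1 + 100000 * L0)

section functional

variable {β : Type} [Fintype β]

/-- sum over the related pairs -/
def hs (r : β → β → Prop) [DecidableRel r] (f : β → β → ℝ) : ℝ :=
  ∑ B, ∑ C, if r B C then f B C else 0

/-- sum over the unrelated pairs -/
def ns (r : β → β → Prop) [DecidableRel r] (f : β → β → ℝ) : ℝ :=
  ∑ B, ∑ C, if r B C then 0 else f B C

/-- sum over the neighbours -/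
def nb (r : β → β → Prop) [DecidableRel r] (f : β → ℝ) (B : β) : ℝ := ∑ C, if r B C then f C else 0

/-- the min kernel -/
def mu (k j : β → ℝ) (B C : β) : ℝ := min (j B * k C) (j C * k B)

/-- local term of the free energy -/
noncomputable def lc (θ δ h W m k j : ℝ) : ℝ :=
  m * (Real.log (W / m) + 1) + δ * (m * Real.log (θ * k / m) + m - θ * k - 8 * h * ((j - m) ^ 2 / m))

/-- the free energy -/
noncomputable def Psi (θ δ h : ℝ) (r : β → β → Prop) [DecidableRel r] (W m k j : β → ℝ) : ℝ :=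
  ∑ B, lc θ δ h (W B) (m B) (k B) (j B) - 2 * δ * hs r (fun B C => k B * m C) + h * δ * hs r (mu k j)

/-- admissible states -/
structure Dom (W m k j : β → ℝ) : Prop where
  m0 : ∀ B, 0 ≤ m B
  k0 : ∀ B, 0 ≤ k B
  j0 : ∀ B, 0 ≤ j B
  jm : ∀ B, j B ≤ 2 * m B
  Wp : ∀ B, 0 < m B → 0 < W B
  kp : ∀ B, 0 < m B → 0 < k B

/-- maximisers of the free energy -/
structure IsMx (θ δ h : ℝ) (r : β → β → Prop) [DecidableRel r] (W m k j : β → ℝ) : Prop where
  dom : Dom W m k j
  mx : ∀ m' k' j' : β → ℝ, Dom W m' k' j' → Psi θ δ h r W m' k' j' ≤ Psi θ δ h r W m k j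

/-- the maximal free energy -/
noncomputable def GG (θ δ h : ℝ) (r : β → β → Prop) [DecidableRel r] (W : β → ℝ) : ℝ :=
  sSup {x | ∃ m k j : β → ℝ, Dom W m k j ∧ x = Psi θ δ h r W m k j}

/-- the derivative in the direction of `m` is `lamA - 1` -/
noncomputable def lamA (θ δ h : ℝ) (r : β → β → Prop) [DecidableRel r] (W m k j : β → ℝ) (A : β) : ℝ :=
  Real.log (W A / m A) + 1 + δ * Real.log (θ * k A / m A) + 8 * h * δ * ((j A / m A) ^ 2 - 1)
    - 2 * δ * nb r k A

/-- derivative in the direction of `(k,j)` (scaled jointly), divided by `δ` -/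
noncomputable def XiA (θ h : ℝ) (r : β → β → Prop) [DecidableRel r] (m k j : β → ℝ) (A : β) : ℝ :=
  m A - θ * k A - 2 * k A * nb r m A + 2 * h * (∑ C, if r A C then mu k j A C else 0)
    - 16 * h * (j A * (j A - m A) / m A)

/-- properties of the maximisers -/
structure St (θ δ h : ℝ) (r : β → β → Prop) [DecidableRel r] (W m k j : β → ℝ) : Prop where
  m0 : ∀ B, 0 ≤ m B
  k0 : ∀ B, 0 ≤ k B
  Wp : ∀ B, 0 < m B → 0 < W B
  kp : ∀ B, 0 < m B → 0 < k B
  mj : ∀ B, m B ≤ j B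
  j5 : ∀ B, 4 * j B ≤ 5 * m B
  kU : ∀ B, k B * (θ + nb r m B) ≤ m B
  lam : ∀ B, 0 < m B → lamA θ δ h r W m k j B = 1
  xi : ∀ B, XiA θ h r m k j B = 0

end functional

/-! ### one block: the index set is `α × X` -/
section block

variable {α X : Type} [Fintype α] [Fintype X] [DecidableEq X]

/-- the relation on `α × X`: related in `α`, or same variable of the block -/
def rX (r : α → α → Prop) (p q : α × X) : Prop := r p.1 q.1 ∨ p.2 = q.2

instance (r : α → α → Prop) [DecidableRel r] : DecidableRel (rX (X := X) r) := fun p q => by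
  unfold rX; infer_instance

/-- sum over the block -/
def bar (f : α × X → ℝ) (A : α) : ℝ := ∑ i, f (A, i)

/-- entropy loss of the merging -/
noncomputable def KLt (W m : α × X → ℝ) (A : α) : ℝ :=
  ∑ i, m (A, i) * (Real.log (m (A, i) / W (A, i)) - Real.log (bar m A / bar W A))

/-- Jensen loss of the merging -/
noncomputable def Jt (m k : α × X → ℝ) (A : α) : ℝ :=
  ∑ i, m (A, i) * (Real.log (bar k A / bar m A) - Real.log (k (A, i) / m (A, i)))

/-- quadratic loss of the merging -/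
noncomputable def Qt (m j : α × X → ℝ) (A : α) : ℝ :=
  ∑ i, j (A, i) ^ 2 / m (A, i) - bar j A ^ 2 / bar m A

/-- energy of the pairs which meet only in the block -/
def Oc (r : α → α → Prop) [DecidableRel r] (m k : α × X → ℝ) : ℝ :=
  ns r (fun A C => ∑ i, k (A, i) * m (C, i))

def Ohc (r : α → α → Prop) [DecidableRel r] (k j : α × X → ℝ) : ℝ :=
  ns r (fun A C => ∑ i, mu k j (A, i) (C, i))

/-- part of `Oc` -/
def onl (r : α → α → Prop) [DecidableRel r] (m k : α × X → ℝ) (A : α) : ℝ :=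
  ∑ i, m (A, i) * ∑ C, if r A C then 0 else k (C, i)

/-- loss of the min kernel in the merging -/
def Gp (r : α → α → Prop) [DecidableRel r] (k j : α × X → ℝ) (A : α) : ℝ :=
  ∑ C, if r A C then mu (bar k) (bar j) A C - ∑ i, ∑ i', mu k j (A, i) (C, i') else 0

/-- scalar product -/
def ip (p q : X → ℝ) : ℝ := ∑ i, p i * q i

/-- off-diagonal part of the squared scalar product -/
def chi (p q : X → ℝ) : ℝ := ip p q ^ 2 - ∑ i, p i ^ 2 * q i ^ 2

/-- weighted Gram matrix -/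
def Gw (c : α → ℝ) (u : α → X → ℝ) : Matrix X X ℝ := fun i j => ∑ A, c A * (u A i * u A j)

/-- weighted total of squared norms -/
def ms (m : α → ℝ) (u : α → X → ℝ) : ℝ := ∑ A, m A * n2 (u A)

/-- `∑_{i≠j} N_ij Γ_ij` -/
def TQ (m k : α → ℝ) (v z : α → X → ℝ) : ℝ := ∑ i, ∑ j, off (Gw k z) i j * Gw m v i j

/-- surplus: the pairs which do not meet -/
def Sur (r : α → α → Prop) [DecidableRel r] (m k : α → ℝ) (v z : α → X → ℝ) : ℝ :=
  ns r (fun A C => k A * m C * ip (z A) (v C) ^ 2)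

def Eb (r : α → α → Prop) [DecidableRel r] (m k : α → ℝ) (v z : α → X → ℝ) : ℝ :=
  ns r (fun A C => k A * m C * ∑ i, z A i ^ 2 * v C i ^ 2)

/-- `∑_{i≠j} max(P_i,P_j) N_ij²` -/
noncomputable def Bq (Ph : X → ℝ) (N : Matrix X X ℝ) : ℝ :=
  ∑ i, ∑ j, max (Ph i) (Ph j) * off N i j ^ 2

/-- data of one block (the state is already merged) -/
structure BDat (r : α → α → Prop) [DecidableRel r] (θ : ℝ) (m k j : α → ℝ) (v z y : α → X → ℝ)
    (R : Matrix X X ℝ) (Ph : X → ℝ) : Prop where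
  θ0 : 0 < θ
  rs : ∀ A C, r A C → r C A
  m0 : ∀ A, 0 ≤ m A
  k0 : ∀ A, 0 ≤ k A
  kp : ∀ A, 0 < m A → 0 < k A
  mj : ∀ A, m A ≤ j A
  j5 : ∀ A, 4 * j A ≤ 5 * m A
  kU : ∀ A, k A * (θ + nb r m A) ≤ m A
  nv : ∀ A, 0 < m A → n2 (v A) = 1
  v0 : ∀ A, m A = 0 → v A = 0
  z0 : ∀ A, m A = 0 → z A = 0
  vzy : ∀ A i, v A i = z A i + y A i
  orth : ∀ A, ip (z A) (y A) = 0
  qN : ∀ x : X → ℝ, qd (Gw k z) x ≤ K0 * n2 x
  Ph0 : ∀ i, 0 < Ph i
  GP : ∀ i, Gw m v i i ≤ Ph i ∨ ((∀ A, z A i = 0) ∧ (∀ l, R i l = 0))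
  zG : ∀ i, ∑ A, m A * z A i ^ 2 ≤ Gw m v i i
  cold : ∀ A i, z A i ≠ 0 → Ph i * k A ≤ 16 * L0 * j A
  Rs : ∀ i l, R i l = R l i
  Ri : ∀ i l, ∑ p, R i p * R p l = R i l
  RML : ∑ i, Ph i * R i i ≤ 1 / 2 * ms m (fun A => ap R (v A))

end block

/-! ### the measures -/
section meas

variable {X : Type} [Fintype X] [DecidableEq X]

/-- expectation for the weights `w` -/
def Ew (w : (X → Bool) → ℝ) (f : (X → Bool) → ℝ) : ℝ := ∑ s, w s * f s

/-- covariance for the weights `w` -/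
def Cv (w : (X → Bool) → ℝ) (f g : (X → Bool) → ℝ) : ℝ := Ew w (fun s => f s * g s) - Ew w f * Ew w g

/-- four-point function of the measure -/
def F4 (a b : Matrix X X ℝ) (i j k l : X) : ℝ :=
  a i j * a k l * (b i k * b i l * b j k * b j l)
  + a i k * a j l * (b i j * b i l * b k j * b k l)
  + a i l * a j k * (b i j * b i k * b l j * b l k)
  - a i j * a i k * a i l * (b j k * b j l * b k l)
  - a j i * a j k * a j l * (b i k * b i l * b k l)
  - a k i * a k j * a k l * (b i j * b i l * b j l)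
  - a l i * a l j * a l k * (b i j * b i k * b j k)
  + a i j * a i k * a i l * a j k * a j l * a k l

/-- `w` = law of signs with means `sin φ_i`, `φ` a Gaussian field of variance `D` -/
structure Fld (w : (X → Bool) → ℝ) (D : ℝ) (a b : Matrix X X ℝ) : Prop where
  w0 : ∀ s, 0 ≤ w s
  w1 : ∑ s, w s = 1
  two : ∀ i j, i ≠ j → Ew w (fun s => sg (s i) * sg (s j)) = Real.exp (-D) * a i j
  four : ∀ i j k l, i ≠ j → i ≠ k → i ≠ l → j ≠ k → j ≠ l → k ≠ l →
    Ew w (fun s => sg (s i) * sg (s j) * (sg (s k) * sg (s l))) = Real.exp (-D) ^ 2 * F4 a b i j k l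

/-- hypotheses on the matrices of the measure -/
structure QH (a b : Matrix X X ℝ) (κ : ℝ) : Prop where
  κ0 : 0 ≤ κ
  κ1 : κ ≤ 1 / 100
  as : ∀ i j, a i j = a j i
  bs : ∀ i j, b i j = b j i
  ad : ∀ i, a i i = 0
  bd : ∀ i, b i i = 0
  b1 : ∀ i j, i ≠ j → 1 ≤ b i j
  b2 : ∀ i j, b i j ≤ 1 + 1 / 2 * a i j ^ 2
  op : ∀ x : X → ℝ, n2 (ap a x) ≤ κ ^ 2 * n2 x

/-- squared length of the row `i` -/
def ra (a : Matrix X X ℝ) (i : X) : ℝ := ∑ j, a i j ^ 2

/-- the quadratic error functional -/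
def Zq (a : Matrix X X ℝ) (v : X → ℝ) : ℝ := n2 (ap a v) + ∑ i, ra a i * v i ^ 2

/-- `⟨x, M x⟩` for a sign vector -/
def qx (M : Matrix X X ℝ) (s : X → Bool) : ℝ := ∑ i, ∑ j, M i j * (sg (s i) * sg (s j))

/-- off-diagonal hyperbolic sine and cosine (entrywise) -/
noncomputable def aM (n : Matrix X X ℝ) : Matrix X X ℝ := fun i j => if i = j then 0 else Real.sinh (n i j)
noncomputable def bM (n : Matrix X X ℝ) : Matrix X X ℝ := fun i j => if i = j then 0 else Real.cosh (n i j)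

end meas

/-! ### the trial states -/
section trial

variable {α X : Type} [Fintype α] [Fintype X] [DecidableEq X]

def mT (m : α → ℝ) (v : α → X → ℝ) (s : X → Bool) (A : α) : ℝ := m A * dt (v A) s ^ 2

noncomputable def kT (k ν : α → ℝ) (z y : α → X → ℝ) (s : X → Bool) (A : α) : ℝ :=
  k A * (ν A * dt (z A) s ^ 2 + 9 / 8 * dt (y A) s ^ 2)

noncomputable def jT (j ν : α → ℝ) (v z : α → X → ℝ) (s : X → Bool) (A : α) : ℝ :=
  j A * (ν A * min (dt (z A) s ^ 2) (5 / 4 * dt (v A) s ^ 2))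

/-- local part of the polynomial lower bound for the free energy of the trial state;
`F, z, y` are the values of the three linear forms -/
noncomputable def loc (θ δ h W m k j ν F z y : ℝ) : ℝ :=
  m * F ^ 2 * (Real.log (W / m) + 1)
  + δ * (m * (F ^ 2 * Real.log (θ * k / m) + z ^ 2 - 3 * y ^ 2 + F ^ 2 * Real.log ν)
    - θ * k * (ν * z ^ 2 + 9 / 8 * y ^ 2)
    - 8 * h * (m * ((j / m - 1) ^ 2 * F ^ 2 + 2 * (j / m) * (j / m - 1) * (ν * z ^ 2 - F ^ 2)
        + (j / m) ^ 2 * (5 / 2 * (ν - 1) ^ 2 * z ^ 2 + 9 * y ^ 2))))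

/-- polynomial of degree four, a lower bound for the free energy of the trial state -/
noncomputable def Pol (θ δ h : ℝ) (r : α → α → Prop) [DecidableRel r] (W m k j ν : α → ℝ)
    (v z y : α → X → ℝ) (s : X → Bool) : ℝ :=
  ∑ A, loc θ δ h (W A) (m A) (k A) (j A) (ν A) (dt (v A) s) (dt (z A) s) (dt (y A) s)
  - 2 * δ * hs r (fun A C => k A * m C * ((ν A * dt (z A) s ^ 2 + 9 / 8 * dt (y A) s ^ 2) * dt (v C) s ^ 2))
  + h * δ * hs r (fun A C => ν A * ν C * mu k j A C * (dt (z A) s ^ 2 * dt (z C) s ^ 2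
      - 5 * (dt (y A) s ^ 2 * dt (z C) s ^ 2) - 5 * (dt (z A) s ^ 2 * dt (y C) s ^ 2)))

end trial

/-! ### forms -/
section forms

variable {ι X : Type} [Fintype ι] [DecidableEq ι] [Fintype X] [DecidableEq X]

/-- the monomials share a variable -/
def rM (B C : ι → X) : Prop := ∃ b, B b = C b

instance : DecidableRel (rM (ι := ι) (X := X)) := fun B C => by unfold rM; infer_instance

/-- maximal free energy of a form -/
noncomputable def GB (θ : ℝ) (c : (ι → X) → ℝ) : ℝ := GG θ d0 h0 rM (fun B => c B ^ 2)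

end forms

end BMV
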