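import Pool.Agent.BMV.StepF
import Pool.Agent.BMP.Base

/-!
# BMV/EndT: one block

PROOF.  `card ι = 1`, the block is `b0`; `B ↦ B b0` is a bijection `(ι → X) ≃ X`, `rM B C ↔ B = C`.
`ev c s = ∑_B c B sg (s b0 (B b0))`; choosing the signs, `∑_B |c B| ≤ 1` (see `BMP.Base` for the same argument; in
particular `|c B| ≤ 1`).
For an admissible state, with `W = c²`: `Psi ≤ ∑_B { m (log (W/m) + 1) + δ (m log (θ k/m) + m - θ k) - 2 δ k m + h δ j k }`
(`hs rM f = ∑ f B B`, `mu B B = j k`; the term `- 8 h (j-m)²/m ≤ 0`), and `h j k ≤ 2 h m k ≤ k m`.  So the bracket is at most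
`m (log (W/m) + 1) + δ (m log (θ k/m) + m - (θ + m) k)`.  For `m > 0`:
`m log (θ k/m) + m - (θ+m) k ≤ m log (θ/(θ+m)) ≤ m log (θ/m)` (with `y = (θ+m) k/m`: `log y + 1 - y ≤ 0`).
With `α = δ/(1+δ)`, `m* = exp(-α) W^(1-α) θ^α` (`W > 0`): `log (W/m) + δ log (θ/m) + 1 = (1+δ) (1 + log (m*/m)) ≤ (1+δ) m*/m`
(`(1+δ) log m* = log W + δ log θ - δ`).  So the bracket is `≤ (1+δ) m* ≤ (1+δ) θ^α |c|^(2-2α) ≤ (1+δ) θ^α |c|`
(`|c| ≤ 1`, `2 - 2α ≥ 1`); for `m = 0` it is `≤ 0`.  Sum: `≤ (1+δ) θ^α ≤ 2 θ^α`.  `csSup_le` (the set is nonempty: zero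
state).
-/

namespace BMV

open Finset BMP

variable {ι X : Type} [Fintype ι] [DecidableEq ι] [Fintype X] [DecidableEq X]

omit [DecidableEq X] in
private lemma sum_abs_le' (h1 : Fintype.card ι = 1) (c : (ι → X) → ℝ) (hc : Bdd c) :
    ∑ B : ι → X, |c B| ≤ 1 := by
  classical
  obtain ⟨b₀, hb₀⟩ := Fintype.card_eq_one_iff.1 h1
  let s : ι → X → Bool := fun _ x => decide (0 ≤ c (fun _ => x))
  have h2 : ev c s = ∑ B : ι → X, |c B| := by
    unfold ev
    refine Finset.sum_congr rfl fun B _ => ?_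
    have h3 : ∏ b, sg (s b (B b)) = sg (s b₀ (B b₀)) := by
      have h4 : (Finset.univ : Finset ι) = {b₀} := by
        ext b
        simp [hb₀ b]
      rw [h4, Finset.prod_singleton]
    have h5 : (fun _ => B b₀) = B := by
      funext b
      rw [hb₀ b]
    rw [h3]
    change c B * sg (decide (0 ≤ c (fun _ => B b₀))) = |c B|
    rw [h5]
    unfold sg
    by_cases h6 : 0 ≤ c B
    · simp [h6, abs_of_nonneg h6]
    · rw [abs_of_neg (not_le.1 h6)]
      simp [h6]
  rw [← h2]
  exact (le_abs_self _).trans (hc s)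

private lemma K0_ge' : (320 : ℝ) ≤ K0 := by
  have h : (1 : ℝ) ≤ Real.exp 200 := Real.one_le_exp (by norm_num)
  unfold K0 L0
  linarith

private lemma h0_pos' : 0 < h0 := by
  have h := K0_ge'
  unfold h0
  positivity

private lemma h0_le' : h0 ≤ 1 / 2 := by
  have h := K0_ge'
  unfold h0
  rw [div_le_div_iff₀ (by positivity) (by norm_num)]
  linarith

private lemma d0_pos' : 0 < d0 := by
  have h := K0_ge'
  unfold d0
  positivity

private lemma bracket (θ δ h a W m k j : ℝ) (hθ : 0 < θ) (hδ : 0 < δ) (hδ1 : δ ≤ 1) (hh : 0 < h) (hh1 : h ≤ 1 / 2)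
    (ha0 : 0 ≤ a) (ha1 : a ≤ 1) (hW : W = a ^ 2) (hm : 0 ≤ m) (hk : 0 ≤ k) (hj : 0 ≤ j) (hjm : j ≤ 2 * m)
    (hWp : 0 < m → 0 < W) (hkp : 0 < m → 0 < k) :
    lc θ δ h W m k j - 2 * δ * (k * m) + h * δ * (j * k) ≤ (1 + δ) * θ ^ (δ / (1 + δ)) * a := by
  have hR : 0 ≤ (1 + δ) * θ ^ (δ / (1 + δ)) * a := by positivity
  rcases hm.eq_or_lt with h0 | hmp
  · have hj0 : j = 0 := by linarith
    subst h0
    subst hj0
    have : lc θ δ h W 0 k 0 = - (δ * (θ * k)) := by
      unfold lc
      simp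
    rw [this]
    have h2 : 0 ≤ δ * (θ * k) := by positivity
    linarith
  · have hWp' := hWp hmp
    have hkp' := hkp hmp
    have hap : 0 < a := by
      rcases ha0.eq_or_lt with h1 | h1
      · rw [← h1] at hW
        rw [hW] at hWp'
        norm_num at hWp'
      · exact h1
    have hla : Real.log a ≤ 0 := Real.log_nonpos ha0 ha1
    have hlW : Real.log (W / m) = 2 * Real.log a - Real.log m := by
      rw [Real.log_div hWp'.ne' hmp.ne', hW, Real.log_pow]
      norm_num
    have hlk : Real.log (θ * k / m) = Real.log θ + Real.log k - Real.log m := by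
      rw [Real.log_div (by positivity) hmp.ne', Real.log_mul hθ.ne' hkp'.ne']
    have hy : Real.log (θ + m) + Real.log k - Real.log m ≤ (θ + m) * k / m - 1 := by
      have h1 := Real.log_le_sub_one_of_pos (x := (θ + m) * k / m) (by positivity)
      rwa [Real.log_div (by positivity) hmp.ne', Real.log_mul (by positivity) hkp'.ne'] at h1
    have hlm : Real.log m ≤ Real.log (θ + m) := Real.log_le_log hmp (by linarith)
    have hq : m * Real.log (θ * k / m) + m - θ * k - m * k ≤ m * (Real.log θ - Real.log m) := by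
      have h1 : m * ((θ + m) * k / m) = (θ + m) * k := by field_simp
      have h2 := mul_le_mul_of_nonneg_left hy hm
      have h3 := mul_le_mul_of_nonneg_left hlm hm
      rw [mul_sub m ((θ + m) * k / m) 1, h1] at h2
      rw [hlk]
      nlinarith
    have hsq : 0 ≤ 8 * h * ((j - m) ^ 2 / m) := by positivity
    have hjk : h * δ * (j * k) ≤ δ * (m * k) := by
      have h1 : j * k ≤ 2 * m * k := mul_le_mul_of_nonneg_right hjm hk
      have h2 : h * δ * (j * k) ≤ h * δ * (2 * m * k) := mul_le_mul_of_nonneg_left h1 (by positivity)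
      have h3 : h * (2 * δ * (m * k)) ≤ 1 / 2 * (2 * δ * (m * k)) :=
        mul_le_mul_of_nonneg_right hh1 (by positivity)
      nlinarith
    have h1 : lc θ δ h W m k j - 2 * δ * (k * m) + h * δ * (j * k)
        ≤ m * (2 * Real.log a - Real.log m + 1) + δ * (m * (Real.log θ - Real.log m)) := by
      unfold lc
      rw [hlW]
      have h2 := mul_le_mul_of_nonneg_left hq hδ.le
      have h3 : 0 ≤ δ * (8 * h * ((j - m) ^ 2 / m)) := by positivity
      nlinarith
    refine h1.trans ?_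
    set ms : ℝ := Real.exp ((2 * Real.log a + δ * Real.log θ - δ) / (1 + δ)) with hms
    have hmsp : 0 < ms := Real.exp_pos _
    have hlms : (1 + δ) * Real.log ms = 2 * Real.log a + δ * Real.log θ - δ := by
      rw [hms, Real.log_exp]
      field_simp
    have h2 : m * (Real.log ms - Real.log m + 1) ≤ ms := by
      have h3 := Real.log_le_sub_one_of_pos (x := ms / m) (by positivity)
      rw [Real.log_div hmsp.ne' hmp.ne'] at h3
      have h4 := mul_le_mul_of_nonneg_left h3 hm
      have h5 : m * (ms / m) = ms := by field_simp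
      rw [mul_sub m (ms / m) 1, h5] at h4
      linarith
    have h3 : m * (2 * Real.log a - Real.log m + 1) + δ * (m * (Real.log θ - Real.log m))
        = (1 + δ) * (m * (Real.log ms - Real.log m + 1)) := by
      have h4 : (1 + δ) * (m * (Real.log ms - Real.log m + 1))
          = m * ((1 + δ) * Real.log ms) - (1 + δ) * (m * Real.log m) + (1 + δ) * m := by ring
      rw [h4, hlms]
      ring
    rw [h3]
    have h5 : ms ≤ θ ^ (δ / (1 + δ)) * a := by
      have h6 : θ ^ (δ / (1 + δ)) * a = Real.exp (Real.log θ * (δ / (1 + δ)) + Real.log a) := by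
        rw [Real.exp_add, Real.exp_log hap, Real.rpow_def_of_pos hθ]
      rw [h6, hms]
      apply Real.exp_le_exp.2
      have h7 : (1 + δ) * ((2 * Real.log a + δ * Real.log θ - δ) / (1 + δ))
          = 2 * Real.log a + δ * Real.log θ - δ := by field_simp
      have h8 : (1 + δ) * (Real.log θ * (δ / (1 + δ)) + Real.log a)
          = δ * Real.log θ + (1 + δ) * Real.log a := by field_simp
      have h9 : (1 + δ) * ((2 * Real.log a + δ * Real.log θ - δ) / (1 + δ))
          ≤ (1 + δ) * (Real.log θ * (δ / (1 + δ)) + Real.log a) := by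
        rw [h7, h8]
        nlinarith
      exact le_of_mul_le_mul_left h9 (by positivity)
    calc (1 + δ) * (m * (Real.log ms - Real.log m + 1)) ≤ (1 + δ) * ms :=
          mul_le_mul_of_nonneg_left h2 (by positivity)
      _ ≤ (1 + δ) * (θ ^ (δ / (1 + δ)) * a) := mul_le_mul_of_nonneg_left h5 (by positivity)
      _ = (1 + δ) * θ ^ (δ / (1 + δ)) * a := by ring

private lemma hs_one (hι : Fintype.card ι = 1) (f : (ι → X) → (ι → X) → ℝ) :
    hs rM f = ∑ B, f B B := by
  obtain ⟨b₀, hb₀⟩ := Fintype.card_eq_one_iff.1 hι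
  unfold hs
  refine Finset.sum_congr rfl fun B _ => ?_
  rw [Finset.sum_eq_single B]
  · rw [if_pos]
    exact ⟨b₀, rfl⟩
  · intro C _ hC
    rw [if_neg]
    rintro ⟨b, hb⟩
    apply hC
    funext b'
    rw [hb₀ b', ← hb₀ b]
    exact hb.symm
  · intro h
    exact absurd (Finset.mem_univ B) h

theorem endT (hι : Fintype.card ι = 1) (c : (ι → X) → ℝ) (hc : Bdd c) (θ : ℝ) (hθ : 0 < θ) :
    GB θ c ≤ 2 * θ ^ (d0 / (1 + d0)) := by
  have hs1 := sum_abs_le' hι c hc
  have hd1 : d0 ≤ 1 := d0_small.trans (by norm_num)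
  have hd := d0_pos'
  have hc1 : ∀ B, |c B| ≤ 1 := fun B =>
    (Finset.single_le_sum (f := fun B => |c B|) (fun B _ => abs_nonneg _) (Finset.mem_univ B)).trans hs1
  unfold GB GG
  apply csSup_le
  · refine ⟨_, fun _ => 0, fun _ => 0, fun _ => 0, ⟨?_, ?_, ?_, ?_, ?_, ?_⟩, rfl⟩
    · intro B; exact le_refl _
    · intro B; exact le_refl _
    · intro B; exact le_refl _
    · intro B; simp
    · intro B hB; exact absurd hB (lt_irrefl _)
    · intro B hB; exact absurd hB (lt_irrefl _)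
  · rintro x ⟨m, k, j, hD, rfl⟩
    unfold Psi
    rw [hs_one hι, hs_one hι]
    have h1 : ∑ B, lc θ d0 h0 (c B ^ 2) (m B) (k B) (j B) - 2 * d0 * ∑ B, k B * m B + h0 * d0 * ∑ B, mu k j B B
        = ∑ B, (lc θ d0 h0 (c B ^ 2) (m B) (k B) (j B) - 2 * d0 * (k B * m B) + h0 * d0 * (j B * k B)) := by
      rw [Finset.sum_add_distrib, Finset.sum_sub_distrib, Finset.mul_sum, Finset.mul_sum]
      congr 1
      refine Finset.sum_congr rfl fun B _ => ?_
      unfold mu
      rw [min_self]
    rw [h1]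
    calc ∑ B, (lc θ d0 h0 (c B ^ 2) (m B) (k B) (j B) - 2 * d0 * (k B * m B) + h0 * d0 * (j B * k B))
        ≤ ∑ B, (1 + d0) * θ ^ (d0 / (1 + d0)) * |c B| := by
          refine Finset.sum_le_sum fun B _ => ?_
          exact bracket θ d0 h0 |c B| (c B ^ 2) (m B) (k B) (j B) hθ hd hd1 h0_pos' h0_le' (abs_nonneg _) (hc1 B)
            (sq_abs _).symm (hD.m0 B) (hD.k0 B) (hD.j0 B) (hD.jm B) (hD.Wp B) (hD.kp B)
      _ = (1 + d0) * θ ^ (d0 / (1 + d0)) * ∑ B, |c B| := by rw [Finset.mul_sum]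
      _ ≤ (1 + d0) * θ ^ (d0 / (1 + d0)) * 1 := mul_le_mul_of_nonneg_left hs1 (by positivity)
      _ ≤ 2 * θ ^ (d0 / (1 + d0)) := by
          rw [mul_one]
          exact mul_le_mul_of_nonneg_right (by linarith) (by positivity)

end BMV
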