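import Pool.Agent.BMV.StB

/-!
# BMV/StLam: stationarity in `m_B`

PROOF.  Let `m = m_B > 0`, `k = k_B > 0`, `j = j_B`, `W = W_B > 0`.  For `s > (5/8) m` the state with `m_B`
replaced by `s` (same `k_B`, `j_B`) is admissible (`j ≤ (5/4) m ≤ 2 s` by `mx_j5`).  By `Psi_update`
(`k1 = k_B`, `j1 = j_B`: the min terms do not change) the change of `Psi` is
`g(s) = s (log (W/s) + 1) - m (log (W/m) + 1)`
` + δ (s log(θ k/s) + s - m log(θ k/m) - m - 8 h ((j-s)²/s - (j-m)²/m)) - 2 δ (s-m) nb r k B`
(`nbo r k B + [r B B] k = nb r k B`).  `g ≤ 0 = g(m)` near `m`, so `g'(m) = 0`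
(`IsLocalMax.hasDerivAt_eq_zero`):
`log(W/m) + δ (log(θ k/m) - 8 h (1 - j²/m²)) - 2 δ nb r k B = 0`, i.e. `lamA - 1 = 0`.
(For the derivative: `s log(W/s) = s log W - s log s`, `(j-s)²/s = j²/s - 2 j + s` near `s = m > 0`.)
-/

namespace BMV

open Finset BMP

variable {β : Type} [Fintype β] (r : β → β → Prop) [DecidableRel r]

theorem mx_lam (θ δ h : ℝ) (hθ : 0 < θ) (hδ : 0 < δ) (hh : 0 < h) (hh1 : h ≤ 1 / 4)
    (hr : ∀ B C, r B C → r C B) (W m k j : β → ℝ) (hx : IsMx θ δ h r W m k j) (B : β) (hB : 0 < m B) :
    lamA θ δ h r W m k j B = 1 := by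
  classical
  have hk : 0 < k B := hx.dom.kp B hB
  have hW : 0 < W B := hx.dom.Wp B hB
  have hj5 : 4 * j B ≤ 5 * m B := mx_j5 r θ δ h hθ hδ hh hh1 hr W m k j hx B
  -- the function of one variable
  have hle : ∀ s : ℝ, 5 / 8 * m B < s →
      lc θ δ h (W B) s (k B) (j B) - 2 * δ * (s * nb r k B)
        ≤ lc θ δ h (W B) (m B) (k B) (j B) - 2 * δ * (m B * nb r k B) := by
    intro s hs
    have hs0 : 0 < s := lt_trans (by positivity) hs
    have hdom : Dom W (Function.update m B s) k j := by
      refine ⟨fun C => ?_, hx.dom.k0, hx.dom.j0, fun C => ?_, fun C hC => ?_, fun C hC => ?_⟩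
      · by_cases hCB : C = B
        · subst hCB
          rw [Function.update_self]
          exact hs0.le
        · rw [Function.update_of_ne hCB]
          exact hx.dom.m0 C
      · by_cases hCB : C = B
        · subst hCB
          rw [Function.update_self]
          linarith
        · rw [Function.update_of_ne hCB]
          exact hx.dom.jm C
      · by_cases hCB : C = B
        · subst hCB
          exact hW
        · rw [Function.update_of_ne hCB] at hC
          exact hx.dom.Wp C hC
      · by_cases hCB : C = B
        · subst hCB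
          exact hk
        · rw [Function.update_of_ne hCB] at hC
          exact hx.dom.kp C hC
    have h1 := hx.mx _ _ _ hdom
    have h2 := Psi_update r θ δ h hr W m k j B s (k B) (j B)
    rw [Function.update_eq_self, Function.update_eq_self] at h2
    have h3 : (∑ C ∈ univ.erase B, if r B C then
        min (j B * k C) (j C * k B) - min (j B * k C) (j C * k B) else 0) = 0 := by
      refine Finset.sum_eq_zero fun C _ => ?_
      rw [sub_self, ite_self]
    have h4 : (if r B B then j B * k B - j B * k B else 0) = 0 := by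
      rw [sub_self, ite_self]
    have h5 : (s - m B) * nbo r k B + (if r B B then k B * s - k B * m B else 0)
        = (s - m B) * nb r k B := by
      rw [nb_eq_nbo]
      split_ifs
      · ring
      · ring
    rw [h3, h4] at h2
    have h6 : (k B - k B) * nbo r m B + (s - m B) * nbo r k B
        + (if r B B then k B * s - k B * m B else 0) = (s - m B) * nb r k B := by
      rw [sub_self, zero_mul, zero_add, h5]
    rw [h6] at h2
    have h7 : (s - m B) * nb r k B = s * nb r k B - m B * nb r k B := by ring
    rw [h7] at h2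
    linarith
  have hmax : IsLocalMax (fun s : ℝ => lc θ δ h (W B) s (k B) (j B) - 2 * δ * (s * nb r k B)) (m B) := by
    have hn : Set.Ioi (5 / 8 * m B) ∈ nhds (m B) := Ioi_mem_nhds (by linarith)
    filter_upwards [hn] with s hs
    exact hle s hs
  have hm : m B ≠ 0 := hB.ne'
  -- derivatives
  have hlog : ∀ c : ℝ, 0 < c → HasDerivAt (fun s : ℝ => s * Real.log (c / s))
      (Real.log (c / m B) - 1) (m B) := by
    intro c hc
    have e1 : HasDerivAt (fun s : ℝ => c / s) (-c / m B ^ 2) (m B) := by
      have := (hasDerivAt_const (m B) c).div (hasDerivAt_id (m B)) hm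
      refine this.congr_deriv ?_
      simp
    have e2 := e1.log (by positivity : c / m B ≠ 0)
    have e3 := (hasDerivAt_id (m B)).mul e2
    have e4 : (1 : ℝ) * Real.log (c / m B) + id (m B) * (-c / m B ^ 2 / (c / m B))
        = Real.log (c / m B) - 1 := by
      rw [one_mul, id]
      have : m B * (-c / m B ^ 2 / (c / m B)) = -1 := by
        field_simp
      rw [this]
      ring
    rw [e4] at e3
    exact e3
  have hq : HasDerivAt (fun s : ℝ => (j B - s) ^ 2 / s) (1 - (j B / m B) ^ 2) (m B) := by
    have e1 : HasDerivAt (fun s : ℝ => (j B - s) ^ 2) (-(2 * (j B - m B))) (m B) := by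
      have := ((hasDerivAt_id (m B)).const_sub (j B)).pow 2
      refine this.congr_deriv ?_
      simp
    have e2 := e1.div (hasDerivAt_id (m B)) hm
    refine e2.congr_deriv ?_
    simp only [id]
    field_simp
    ring
  have hθk : 0 < θ * k B := by positivity
  have hd : HasDerivAt (fun s : ℝ => lc θ δ h (W B) s (k B) (j B) - 2 * δ * (s * nb r k B))
      (lamA θ δ h r W m k j B - 1) (m B) := by
    have f1 := (hlog (W B) hW).add (hasDerivAt_id (m B))
    have f2 := ((((hlog (θ * k B) hθk).add (hasDerivAt_id (m B))).sub_const (θ * k B)).sub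
      (hq.const_mul (8 * h))).const_mul δ
    have f3 := ((hasDerivAt_id (m B)).mul_const (nb r k B)).const_mul (2 * δ)
    have f4 := (f1.add f2).sub f3
    refine (f4.congr_deriv ?_).congr_of_eventuallyEq ?_
    · unfold lamA
      ring
    · refine Filter.Eventually.of_forall fun s => ?_
      simp only [lc, Pi.add_apply, Pi.sub_apply, id]
      ring
  have h0 := hmax.hasDerivAt_eq_zero hd
  linarith

end BMV
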