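import Pool.Agent.BMV.StB

/-!
# BMV/StXi: stationarity under joint scaling of `(k_B, j_B)`

PROOF.  If `m_B = 0` then `k_B = 0` (`mx_kz`), `j_B = 0`, and `mu k j B C = min(0, 0) = 0`, so `XiA = 0` (all
terms vanish, `0 * (0-0)/0 = 0`).
Let `m = m_B > 0`, `k = k_B > 0`, `j = j_B`.  For `s ∈ (0, 8/5]` the state with `(k_B, j_B)` replaced by
`(s k, s j)` is admissible (`s j ≤ (8/5)(5/4) m = 2 m` by `mx_j5`).  By `Psi_update` (`m1 = m_B`;
`min(s j k_C, j_C s k) = s min(j k_C, j_C k)`) the change of `Psi` is
`g(s) = δ (m log s - θ (s-1) k - 8 h ((s j - m)² - (j-m)²)/m) - 2 δ (s-1) k U`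
`      + h δ (2 (s-1) ∑_{C ≠ B, r B C} mu B C + [r B B] (s² - 1) j k)`,  `U = nb r m B`.
`g ≤ 0 = g(1)` on `(0, 8/5)`, so `g'(1) = 0` (`IsLocalMax.hasDerivAt_eq_zero`), that is
`δ (m - θ k - 16 h (j-m) j/m) - 2 δ k U + h δ (2 ∑_{C≠B} mu B C + 2 [r B B] j k) = 0`; as `mu k j B B = j k` this
is `δ * XiA = 0`.
(`log (θ (s k)/m) = log s + log (θ k/m)`.)
-/

namespace BMV

open Finset BMP

variable {β : Type} [Fintype β] (r : β → β → Prop) [DecidableRel r]

theorem mx_xi (θ δ h : ℝ) (hθ : 0 < θ) (hδ : 0 < δ) (hh : 0 < h) (hh1 : h ≤ 1 / 4)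
    (hr : ∀ B C, r B C → r C B) (W m k j : β → ℝ) (hx : IsMx θ δ h r W m k j) (B : β) :
    XiA θ h r m k j B = 0 := by
  classical
  have hdom := hx.dom
  rcases eq_or_lt_of_le (hdom.m0 B) with hm | hm
  · have hk := mx_kz r θ δ h hθ hδ hh hh1 hr W m k j hx B hm.symm
    have hj : j B = 0 :=
      le_antisymm (by have := hdom.jm B; rw [← hm] at this; linarith) (hdom.j0 B)
    have hmu : ∀ C, (if r B C then mu k j B C else 0) = 0 := by
      intro C
      split_ifs
      · unfold mu; rw [hk, hj]; simp
      · rfl
    unfold XiA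
    rw [Finset.sum_congr rfl (fun C _ => hmu C), ← hm, hk, hj]
    simp
  · have hkp := hdom.kp B hm
    have hj0 := hdom.j0 B
    have h5 := mx_j5 r θ δ h hθ hδ hh hh1 hr W m k j hx B
    obtain ⟨S, hS⟩ : ∃ S, S = ∑ C ∈ univ.erase B, if r B C then min (j B * k C) (j C * k B) else 0 :=
      ⟨_, rfl⟩
    obtain ⟨D, hD⟩ : ∃ D : ℝ, D = if r B B then 1 else 0 := ⟨_, rfl⟩
    have hif : ∀ x : ℝ, (if r B B then x else 0) = D * x := by
      intro x; rw [hD]; split_ifs <;> simp
    -- the bound for each scaling
    have key : ∀ s : ℝ, 0 < s → s < 8 / 5 →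
        δ * m B * Real.log s
          + (δ * (- θ * k B - 16 * h * ((j B - m B) * j B / m B))
              - 2 * δ * (k B * nbo r m B + D * (k B * m B)) + h * δ * (2 * S + 2 * D * (j B * k B)))
            * (s - 1)
          + (δ * (-8 * h * (j B ^ 2 / m B)) + h * δ * D * (j B * k B)) * (s - 1) ^ 2 ≤ 0 := by
      intro s hs hs2
      have hd' : Dom W m (Function.update k B (s * k B)) (Function.update j B (s * j B)) := by
        refine ⟨hdom.m0, ?_, ?_, ?_, hdom.Wp, ?_⟩
        · intro C
          by_cases hC : C = B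
          · subst hC; rw [Function.update_self]; positivity
          · rw [Function.update_of_ne hC]; exact hdom.k0 C
        · intro C
          by_cases hC : C = B
          · subst hC; rw [Function.update_self]; positivity
          · rw [Function.update_of_ne hC]; exact hdom.j0 C
        · intro C
          by_cases hC : C = B
          · subst hC; rw [Function.update_self]; nlinarith
          · rw [Function.update_of_ne hC]; exact hdom.jm C
        · intro C hC0
          by_cases hC : C = B
          · subst hC; rw [Function.update_self]; positivity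
          · rw [Function.update_of_ne hC]; exact hdom.kp C hC0
      have h1 := hx.mx _ _ _ hd'
      have h2 := Psi_update r θ δ h hr W m k j B (m B) (s * k B) (s * j B)
      rw [Function.update_eq_self] at h2
      rw [hif, hif] at h2
      have hsum : (∑ C ∈ univ.erase B,
          if r B C then min (s * j B * k C) (j C * (s * k B)) - min (j B * k C) (j C * k B) else 0)
          = (s - 1) * S := by
        rw [hS, Finset.mul_sum]
        apply Finset.sum_congr rfl
        intro C _
        split_ifs
        · have : min (s * j B * k C) (j C * (s * k B)) = s * min (j B * k C) (j C * k B) := by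
            rw [mul_min_of_nonneg _ _ hs.le]
            congr 1 <;> ring
          rw [this]; ring
        · simp
      rw [hsum] at h2
      have hlog : Real.log (θ * (s * k B) / m B) = Real.log s + Real.log (θ * k B / m B) := by
        rw [← Real.log_mul hs.ne' (by positivity)]
        congr 1; ring
      unfold lc at h2
      rw [hlog] at h2
      have hq : (s * j B - m B) ^ 2 / m B = (j B - m B) ^ 2 / m B
          + 2 * ((j B - m B) * j B / m B) * (s - 1) + (j B ^ 2 / m B) * (s - 1) ^ 2 := by
        field_simp; ring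
      rw [hq] at h2
      have h3 : Psi θ δ h r W m (Function.update k B (s * k B)) (Function.update j B (s * j B))
          - Psi θ δ h r W m k j ≤ 0 := by linarith
      rw [h2] at h3
      refine le_trans (le_of_eq ?_) h3
      ring
    have hder : HasDerivAt (fun s : ℝ => δ * m B * Real.log s
          + (δ * (- θ * k B - 16 * h * ((j B - m B) * j B / m B))
              - 2 * δ * (k B * nbo r m B + D * (k B * m B)) + h * δ * (2 * S + 2 * D * (j B * k B)))
            * (s - 1)
          + (δ * (-8 * h * (j B ^ 2 / m B)) + h * δ * D * (j B * k B)) * (s - 1) ^ 2)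
        (δ * m B + (δ * (- θ * k B - 16 * h * ((j B - m B) * j B / m B))
              - 2 * δ * (k B * nbo r m B + D * (k B * m B)) + h * δ * (2 * S + 2 * D * (j B * k B)))) 1 := by
      have e1 : HasDerivAt (fun s : ℝ => Real.log s) (1 : ℝ)⁻¹ 1 := Real.hasDerivAt_log one_ne_zero
      have e2 : HasDerivAt (fun s : ℝ => s - 1) 1 1 := (hasDerivAt_id (1 : ℝ)).sub_const 1
      have e3 : HasDerivAt (fun s : ℝ => (s - 1) ^ 2) (2 * (1 - 1) ^ 1 * 1) 1 := by
        have := (e2.mul e2)
        refine (HasDerivAt.congr_deriv this ?_).congr_of_eventuallyEq ?_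
        · simp
        · filter_upwards with s
          simp only [Pi.mul_apply]; ring
      have e4 := ((e1.const_mul (δ * m B)).add (e2.const_mul
        (δ * (- θ * k B - 16 * h * ((j B - m B) * j B / m B))
              - 2 * δ * (k B * nbo r m B + D * (k B * m B)) + h * δ * (2 * S + 2 * D * (j B * k B))))).add
        (e3.const_mul (δ * (-8 * h * (j B ^ 2 / m B)) + h * δ * D * (j B * k B)))
      refine HasDerivAt.congr_deriv e4 ?_
      simp
    have hmax : IsLocalMax (fun s : ℝ => δ * m B * Real.log s
          + (δ * (- θ * k B - 16 * h * ((j B - m B) * j B / m B))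
              - 2 * δ * (k B * nbo r m B + D * (k B * m B)) + h * δ * (2 * S + 2 * D * (j B * k B)))
            * (s - 1)
          + (δ * (-8 * h * (j B ^ 2 / m B)) + h * δ * D * (j B * k B)) * (s - 1) ^ 2) 1 := by
      have hnh : Set.Ioo (0 : ℝ) (8 / 5) ∈ nhds (1 : ℝ) := Ioo_mem_nhds (by norm_num) (by norm_num)
      filter_upwards [hnh] with s hs
      refine (key s hs.1 hs.2).trans (le_of_eq ?_)
      simp
    have h0 := hmax.hasDerivAt_eq_zero hder
    have hall : (∑ C, if r B C then mu k j B C else 0) = S + D * (j B * k B) := by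
      rw [hS, ← Finset.add_sum_erase univ _ (Finset.mem_univ B), hif]
      unfold mu
      rw [min_self]; ring
    have hnb := nb_eq_nbo r m B
    rw [hif] at hnb
    have hfin : δ * XiA θ h r m k j B = 0 := by
      unfold XiA
      rw [hall, hnb, ← h0]
      ring
    rcases mul_eq_zero.mp hfin with h' | h'
    · exact absurd h' hδ.ne'
    · exact h'

end BMV
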