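import Pool.Agent.BMV.PsiLe
import Pool.Agent.BMV.StXi
import Pool.Agent.BMV.StLam

/-!
# BMV/Energy: all properties of a maximiser; the value of the free energy

PROOF.  `mx_St`: collect `mx_kz, mx_mj, mx_kU, mx_j5, mx_xi, mx_lam` and `IsMx.dom`.
`energy` (for a state with `St`): write `U = nb r m`, `La = nb r k`.
(i) `∑ k U ≤ ∑ m` since `k_B (θ + U_B) ≤ m_B` and `θ k_B ≥ 0`.
(ii) For every `B` : `lc θ δ h (W B) (m B) (k B) (j B) = m + 2 δ m La + 2 δ k U - 2 h δ ∑_C [r B C] mu B C`.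
 If `m_B = 0`: `k_B = 0` (from `k_B (θ + U_B) ≤ 0`), `j_B = 0`, both sides `0`.  If `m_B > 0`: `lamA = 1` times `m`
 gives `m log(W/m) = - δ m log(θ k/m) - 8 h δ (j²/m - m) + 2 δ m La`, hence
 `lc = m + 2 δ m La + δ (m - θ k) - 16 h δ (j²/m - j)` (since `(j-m)²/m = j²/m - 2j + m`), and `XiA = 0` gives
 `m - θ k - 16 h j(j-m)/m = 2 k U - 2 h ∑_C [r B C] mu B C`.
(iii) Sum over `B`: `∑ m La = ∑ k U` (`sum_nb_comm`), `hs r (k_B m_C) = ∑ k U` (`hs_mul_nb`), so
 `Psi = ∑ m + 2 δ ∑ k U - h δ hs r mu`.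
(iv) `0 ≤ hs r mu ≤ (5/4) ∑ k U` (`mu B C ≤ j_C k_B ≤ (5/4) m_C k_B`), so `∑ m ≤ Psi` (`h ≤ 1`) and
 `Psi ≤ ∑ m + 2 δ ∑ k U ≤ (1 + 2 δ) ∑ m ≤ 2 ∑ m` (`δ ≤ 1/2`).
-/

namespace BMV

open Finset BMP

variable {β : Type} [Fintype β] (r : β → β → Prop) [DecidableRel r]

/-- the local term of a stationary state -/
private theorem en_loc (θ δ h : ℝ) (_hθ : 0 < θ) (W m k j : β → ℝ) (hS : St θ δ h r W m k j) (B : β) :
    lc θ δ h (W B) (m B) (k B) (j B)
      = m B + 2 * δ * (m B * nb r k B) + 2 * δ * (k B * nb r m B)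
        - 2 * h * δ * (∑ C, if r B C then mu k j B C else 0) := by
  have hxi := hS.xi B
  unfold XiA at hxi
  rcases (hS.m0 B).eq_or_lt with hm | hm
  · have hm' : m B = 0 := hm.symm
    have hj : j B = 0 := by
      have h1 := hS.j5 B
      have h2 := hS.mj B
      rw [hm'] at h1 h2
      linarith
    have hmu : (∑ C, if r B C then mu k j B C else 0) = k B * 0 := by
      rw [mul_zero]
      refine Finset.sum_eq_zero fun C _ => ?_
      split_ifs
      · unfold mu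
        rw [hj, zero_mul]
        exact min_eq_left (mul_nonneg (le_trans (hS.m0 C) (hS.mj C)) (hS.k0 B))
      · rfl
    rw [hmu, hm', hj] at hxi
    rw [hmu, hm', hj]
    unfold lc
    simp only [zero_mul, mul_zero, sub_zero, zero_add, add_zero, zero_pow, ne_eq, OfNat.ofNat_ne_zero,
      not_false_eq_true, zero_div, sub_self] at hxi ⊢
    linear_combination δ * hxi
  · have hlam := hS.lam B hm
    unfold lamA at hlam
    unfold lc
    have hm' : m B ≠ 0 := hm.ne'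
    have e1 : (j B - m B) ^ 2 / m B = j B ^ 2 / m B - 2 * j B + m B := by
      field_simp
      ring
    have e2 : j B * (j B - m B) / m B = j B ^ 2 / m B - j B := by
      field_simp
    have e3 : m B * (j B / m B) ^ 2 = j B ^ 2 / m B := by
      field_simp
    rw [e1]
    rw [e2] at hxi
    linear_combination m B * hlam + δ * hxi - 8 * h * δ * e3

theorem mx_St (θ δ h : ℝ) (hθ : 0 < θ) (hδ : 0 < δ) (hh : 0 < h) (hh1 : h ≤ 1 / 4)
    (hr : ∀ B C, r B C → r C B) (W m k j : β → ℝ) (hx : IsMx θ δ h r W m k j) :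
    St θ δ h r W m k j := by
  have hd := hx.dom
  exact ⟨hd.m0, hd.k0, hd.Wp, hd.kp, fun B => mx_mj r θ δ h hθ hδ hh hh1 hr W m k j hx B,
    fun B => mx_j5 r θ δ h hθ hδ hh hh1 hr W m k j hx B,
    fun B => mx_kU r θ δ h hθ hδ hh hh1 hr W m k j hx B,
    fun B hB => mx_lam r θ δ h hθ hδ hh hh1 hr W m k j hx B hB,
    fun B => mx_xi r θ δ h hθ hδ hh hh1 hr W m k j hx B⟩

theorem energy (θ δ h : ℝ) (hθ : 0 < θ) (hδ : 0 < δ) (hδ1 : δ ≤ 1 / 2) (hh : 0 < h) (hh1 : h ≤ 1 / 4)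
    (hr : ∀ B C, r B C → r C B) (W m k j : β → ℝ) (hS : St θ δ h r W m k j) :
    (∑ B, k B * nb r m B ≤ ∑ B, m B) ∧ (∑ B, m B ≤ Psi θ δ h r W m k j) ∧
      (Psi θ δ h r W m k j ≤ 2 * ∑ B, m B) := by
  have hj0 : ∀ B, 0 ≤ j B := fun B => le_trans (hS.m0 B) (hS.mj B)
  have hU0 : ∀ B, 0 ≤ nb r m B := nb_nonneg r m hS.m0
  have hkU : ∑ B, k B * nb r m B ≤ ∑ B, m B := by
    refine Finset.sum_le_sum fun B _ => ?_
    have h1 := hS.kU B
    have h2 : 0 ≤ k B * θ := mul_nonneg (hS.k0 B) hθ.le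
    have h3 : k B * (θ + nb r m B) = k B * θ + k B * nb r m B := by ring
    linarith
  have hkU0 : 0 ≤ ∑ B, k B * nb r m B :=
    Finset.sum_nonneg fun B _ => mul_nonneg (hS.k0 B) (hU0 B)
  have hE : Psi θ δ h r W m k j = ∑ B, m B + 2 * δ * (∑ B, k B * nb r m B) - h * δ * hs r (mu k j) := by
    have e1 : ∑ B, lc θ δ h (W B) (m B) (k B) (j B)
        = ∑ B, m B + 2 * δ * (∑ B, m B * nb r k B) + 2 * δ * (∑ B, k B * nb r m B)
          - 2 * h * δ * hs r (mu k j) := by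
      rw [hs_eq_sum, Finset.mul_sum, Finset.mul_sum, Finset.mul_sum, ← Finset.sum_add_distrib,
        ← Finset.sum_add_distrib, ← Finset.sum_sub_distrib]
      refine Finset.sum_congr rfl fun B _ => ?_
      rw [en_loc r θ δ h hθ W m k j hS B]
    have e2 : ∑ B, m B * nb r k B = ∑ B, k B * nb r m B := sum_nb_comm r hr m k
    have e3 : hs r (fun B C => k B * m C) = ∑ B, k B * nb r m B := hs_mul_nb r k m
    unfold Psi
    rw [e1, e2, e3]
    ring
  have hmu0 : 0 ≤ hs r (mu k j) := hs_nonneg r _ fun B C _ => mu_nonneg k j hS.k0 hj0 B C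
  have hmu1 : hs r (mu k j) ≤ 5 / 4 * (∑ B, k B * nb r m B) := by
    rw [← hs_mul_nb, ← hs_mul_left]
    refine hs_mono r _ _ fun B C _ => ?_
    have h1 := mu_le_right k j B C
    have h2 := mul_le_mul_of_nonneg_right (hS.j5 C) (hS.k0 B)
    have h3 : 4 * j C * k B = 4 * (j C * k B) := by ring
    have h4 : 5 * m C * k B = 5 * (k B * m C) := by ring
    rw [h3, h4] at h2
    linarith
  have hS0 : 0 ≤ ∑ B, m B := Finset.sum_nonneg fun B _ => hS.m0 B
  refine ⟨hkU, ?_, ?_⟩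
  · rw [hE]
    have h1 : h * δ * hs r (mu k j) ≤ h * δ * (5 / 4 * (∑ B, k B * nb r m B)) :=
      mul_le_mul_of_nonneg_left hmu1 (by positivity)
    have h2 : h * δ * (5 / 4 * (∑ B, k B * nb r m B)) ≤ 2 * δ * (∑ B, k B * nb r m B) := by
      have h3 : h * (5 / 4) ≤ 2 := by linarith
      have h4 := mul_le_mul_of_nonneg_right h3 (mul_nonneg hδ.le hkU0)
      calc h * δ * (5 / 4 * (∑ B, k B * nb r m B)) = h * (5 / 4) * (δ * (∑ B, k B * nb r m B)) := by ring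
        _ ≤ 2 * (δ * (∑ B, k B * nb r m B)) := h4
        _ = _ := by ring
    linarith
  · rw [hE]
    have h1 : 0 ≤ h * δ * hs r (mu k j) := mul_nonneg (mul_nonneg hh.le hδ.le) hmu0
    have h2 : 2 * δ * (∑ B, k B * nb r m B) ≤ 1 * (∑ B, k B * nb r m B) :=
      mul_le_mul_of_nonneg_right (by linarith) hkU0
    linarith

end BMV
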