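import Pool.Agent.BMV.Basic
import Pool.Agent.BMP.Ins

/-!
# BMV/EqT: transport of a state to `α × X`, `α = ({j // j ≠ b} → X)`

PROOF.  General transport along an equivalence `e : γ ≃ β` with `r' p q ↔ r (e p) (e q)`: all sums are invariant
(`Equiv.sum_comp`); `hs`, `nb`, `Psi`, `lamA`, `XiA` agree; hence `St` is transported.
`insE b : ({j // j ≠ b} → X) × X ≃ (ι → X)`, `insE b (A, i) = ins b i A`: inverse `B ↦ (fun j => B j.1, B b)`.
`rM_ins`: `rM (ins b i A) (ins b l C) ↔ rM A C ∨ i = l` (`ins_same`, `ins_ne`).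
`sum_Oc`: `Oc rM (m ∘ insE b) (k ∘ insE b) = ∑_{B,B'} [B b = B' b and B j ≠ B' j for all j ≠ b] k B m B'`
(`sum_ins` twice: `¬ rM A C` means `A j ≠ C j` for all `j`; the pairs `(B,B')` with `B b = B' b` correspond to `i = l`).
For each pair `(B,B')` at most one `b` contributes, and then `rM B B'`; so the sum over `b` is at most
`hs rM (k B * m B') = ∑ k B * nb rM m B` (`hs_mul_nb`).
-/

namespace BMV

open Finset BMP

section gen

variable {β γ : Type} [Fintype β] [Fintype γ] (r : β → β → Prop) [DecidableRel r]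
  (r' : γ → γ → Prop) [DecidableRel r'] (e : γ ≃ β) (he : ∀ p q, r' p q ↔ r (e p) (e q))

include he

private theorem sum_ite_equiv (F : β → ℝ) (p : γ) :
    ∑ q, (if r' p q then F (e q) else 0) = ∑ C, if r (e p) C then F C else 0 := by
  rw [← Equiv.sum_comp e (fun C => if r (e p) C then F C else 0)]
  refine Finset.sum_congr rfl fun q _ => ?_
  by_cases h : r' p q
  · rw [if_pos h, if_pos ((he p q).1 h)]
  · rw [if_neg h, if_neg fun h' => h ((he p q).2 h')]

private theorem hs_equiv (f : β → β → ℝ) : hs r' (fun p q => f (e p) (e q)) = hs r f := by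
  unfold hs
  rw [← Equiv.sum_comp e (fun B => ∑ C, if r B C then f B C else 0)]
  exact Finset.sum_congr rfl fun p _ => sum_ite_equiv r r' e he (fun C => f (e p) C) p

private theorem nb_equiv (f : β → ℝ) (p : γ) : nb r' (fun q => f (e q)) p = nb r f (e p) :=
  sum_ite_equiv r r' e he f p

theorem Psi_equiv (θ δ h : ℝ) (W m k j : β → ℝ) :
    Psi θ δ h r' (fun p => W (e p)) (fun p => m (e p)) (fun p => k (e p)) (fun p => j (e p))
      = Psi θ δ h r W m k j := by
  unfold Psi
  have h1 := hs_equiv r r' e he (fun B C => k B * m C)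
  have h2 := hs_equiv r r' e he (mu k j)
  have h3 : hs r' (mu (fun p => k (e p)) (fun p => j (e p))) = hs r (mu k j) := h2
  have h4 := Equiv.sum_comp e (fun B => lc θ δ h (W B) (m B) (k B) (j B))
  rw [h1, h3, h4]

theorem St_equiv (θ δ h : ℝ) (W m k j : β → ℝ) (hS : St θ δ h r W m k j) :
    St θ δ h r' (fun p => W (e p)) (fun p => m (e p)) (fun p => k (e p)) (fun p => j (e p)) where
  m0 p := hS.m0 (e p)
  k0 p := hS.k0 (e p)
  Wp p := hS.Wp (e p)
  kp p := hS.kp (e p)
  mj p := hS.mj (e p)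
  j5 p := hS.j5 (e p)
  kU p := by
    rw [nb_equiv r r' e he]
    exact hS.kU (e p)
  lam p hp := by
    have h1 := hS.lam (e p) hp
    unfold lamA at h1 ⊢
    rw [nb_equiv r r' e he]
    exact h1
  xi p := by
    have h1 := hS.xi (e p)
    unfold XiA at h1 ⊢
    have h2 := sum_ite_equiv r r' e he (fun C => mu k j (e p) C) p
    have h3 : ∑ q, (if r' p q then mu (fun p => k (e p)) (fun p => j (e p)) p q else 0) =
        ∑ C, if r (e p) C then mu k j (e p) C else 0 := h2
    rw [nb_equiv r r' e he, h3]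
    exact h1

end gen

variable {ι X : Type} [Fintype ι] [DecidableEq ι] [Fintype X] [DecidableEq X]

/-- splitting off the block `b` -/
def insE (b : ι) : ({j // j ≠ b} → X) × X ≃ (ι → X) where
  toFun p := ins b p.2 p.1
  invFun B := (fun j => B j.1, B b)
  left_inv := by
    rintro ⟨A, i⟩
    ext1
    · funext j
      exact ins_ne b i A j
    · exact ins_same b i A
  right_inv := by
    intro B
    funext j
    by_cases hj : j = b
    · subst hj
      exact ins_same _ _ _
    · exact ins_ne b (B b) (fun j => B j.1) ⟨j, hj⟩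

theorem rM_ins (b : ι) (p q : ({j // j ≠ b} → X) × X) :
    rX (rM (ι := {j // j ≠ b}) (X := X)) p q ↔ rM (insE b p) (insE b q) := by
  obtain ⟨A, i⟩ := p
  obtain ⟨C, l⟩ := q
  show ((∃ j, A j = C j) ∨ i = l) ↔ ∃ j, ins b i A j = ins b l C j
  constructor
  · rintro (⟨j, hj⟩ | h)
    · exact ⟨j.1, by rw [ins_ne, ins_ne, hj]⟩
    · exact ⟨b, by rw [ins_same, ins_same, h]⟩
  · rintro ⟨j, hj⟩
    by_cases hjb : j = b
    · subst hjb
      rw [ins_same, ins_same] at hj
      exact Or.inr hj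
    · have h1 := ins_ne b i A ⟨j, hjb⟩
      have h2 := ins_ne b l C ⟨j, hjb⟩
      simp only at h1 h2
      rw [h1, h2] at hj
      exact Or.inl ⟨⟨j, hjb⟩, hj⟩

/-- the pairs which meet exactly in the block `b` -/
private def mt (b : ι) (B C : ι → X) : Prop := B b = C b ∧ ∀ j, j ≠ b → B j ≠ C j

private instance mtDec (b : ι) (B C : ι → X) : Decidable (mt b B C) := by
  unfold mt
  infer_instance

private theorem mt_ins (b : ι) (A C : {j // j ≠ b} → X) (i l : X) :
    mt b (ins b i A) (ins b l C) ↔ i = l ∧ ¬ rM A C := by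
  constructor
  · rintro ⟨h1, h2⟩
    rw [ins_same, ins_same] at h1
    refine ⟨h1, ?_⟩
    rintro ⟨j, hj⟩
    have h3 := h2 j.1 j.2
    rw [ins_ne, ins_ne] at h3
    exact h3 hj
  · rintro ⟨h1, h2⟩
    refine ⟨by rw [ins_same, ins_same, h1], fun j hj h3 => h2 ⟨⟨j, hj⟩, ?_⟩⟩
    have h4 := ins_ne b i A ⟨j, hj⟩
    have h5 := ins_ne b l C ⟨j, hj⟩
    simp only at h4 h5
    rw [h4, h5] at h3
    exact h3

private theorem Oc_eq (m k : (ι → X) → ℝ) (b : ι) :
    Oc (rM (ι := {j // j ≠ b}) (X := X)) (fun p => m (insE b p)) (fun p => k (insE b p)) =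
      ∑ B, ∑ C, if mt b B C then k B * m C else 0 := by
  rw [sum_ins b]
  unfold Oc ns
  refine Finset.sum_congr rfl fun A _ => ?_
  have h1 : ∀ i, ∑ C, (if mt b (ins b i A) C then k (ins b i A) * m C else 0) =
      ∑ C : {j // j ≠ b} → X, if rM A C then 0 else k (ins b i A) * m (ins b i C) := by
    intro i
    rw [sum_ins b]
    refine Finset.sum_congr rfl fun C _ => ?_
    by_cases hr : rM A C
    · rw [if_pos hr]
      refine Finset.sum_eq_zero fun l _ => ?_
      rw [if_neg fun h => ((mt_ins b A C i l).1 h).2 hr]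
    · rw [if_neg hr, Finset.sum_eq_single i]
      · rw [if_pos ((mt_ins b A C i i).2 ⟨rfl, hr⟩)]
      · intro l _ hl
        rw [if_neg fun h => hl ((mt_ins b A C i l).1 h).1.symm]
      · intro h
        exact absurd (Finset.mem_univ i) h
  rw [Finset.sum_congr rfl fun i _ => h1 i, Finset.sum_comm]
  refine Finset.sum_congr rfl fun C _ => ?_
  by_cases hr : rM A C
  · rw [if_pos hr]
    refine (Finset.sum_eq_zero fun i _ => ?_).symm
    rw [if_pos hr]
  · rw [if_neg hr]
    refine Finset.sum_congr rfl fun i _ => ?_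
    rw [if_neg hr]
    rfl

theorem sum_Oc (m k : (ι → X) → ℝ) (hm : ∀ B, 0 ≤ m B) (hk : ∀ B, 0 ≤ k B) :
    ∑ b : ι, Oc (rM (ι := {j // j ≠ b}) (X := X)) (fun p => m (insE b p)) (fun p => k (insE b p)) ≤
      ∑ B, k B * nb rM m B := by
  rw [← hs_mul_nb, Finset.sum_congr rfl fun b _ => Oc_eq m k b, Finset.sum_comm]
  unfold hs
  refine Finset.sum_le_sum fun B _ => ?_
  rw [Finset.sum_comm]
  refine Finset.sum_le_sum fun C _ => ?_
  have h0 : 0 ≤ k B * m C := mul_nonneg (hk B) (hm C)
  by_cases h : ∃ b, mt b B C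
  · obtain ⟨b, hb⟩ := h
    rw [Finset.sum_eq_single b]
    · rw [if_pos hb, if_pos ⟨b, hb.1⟩]
    · intro b' _ hb'
      rw [if_neg fun h' => hb.2 b' hb' h'.1]
    · intro h
      exact absurd (Finset.mem_univ b) h
  · rw [Finset.sum_eq_zero fun b _ => if_neg fun h' => h ⟨b, h'⟩]
    split_ifs
    · exact h0
    · exact le_rfl

end BMV
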