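import Pool.Agent.BMV.Clip

/-!
# BMV/Exist: the free energy has a maximiser

PROOF.  Let `V = ∑ W`, `lo = 1/(θ + 2V)`, and let `S` be the compact box of the `(m, κ, ρ)` with
`0 ≤ m ≤ W`, `lo ≤ κ ≤ 1/θ`, `0 ≤ ρ ≤ 2` (products of `Set.Icc`).  On `S` the function
`Φ(m,κ,ρ) = Psi θ δ h r W m (κ m) (ρ m)` is continuous: its local term is equal on `S` to
`m log W - m log m + m + δ (m log (θ κ) + m - θ κ m - 8 h (ρ-1)² m)` (for `m = 0` both vanish; for `m > 0` one
has `W > 0`, `θ (κ m)/m = θ κ`), which is continuous (`Real.continuous_mul_log` or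
`Real.continuous_negMulLog`, `log` continuous at `θ κ ≥ θ lo > 0`); the pair terms are compositions of products
and `min`.  `S` is nonempty (`m = 0`), so there is a maximum point (`IsCompact.exists_isMaxOn`).  The state
`(m, κ m, ρ m)` is admissible (`κ ≥ lo > 0`; `m > 0` and `m ≤ W` give `W > 0`), and by `clip` it beats every
admissible state.
-/

namespace BMV

open Finset BMP

variable {β : Type} [Fintype β] (r : β → β → Prop) [DecidableRel r]

omit [DecidableRel r] in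
private theorem lc_eq {θ δ h w m κ ρ : ℝ} (hθ : 0 < θ) (hκ : 0 < κ) (hm : 0 ≤ m) (hmw : m ≤ w) :
    lc θ δ h w m (κ * m) (ρ * m) =
      m * Real.log w - m * Real.log m + m + δ * (m * Real.log (θ * κ) + m - θ * (κ * m)
        - 8 * h * ((ρ - 1) ^ 2 * m)) := by
  unfold lc
  rcases hm.eq_or_lt with h0 | h0
  · subst h0
    simp
  · have hw : 0 < w := h0.trans_le hmw
    rw [Real.log_div hw.ne' h0.ne']
    have e1 : θ * (κ * m) / m = θ * κ := by field_simp
    have e2 : (ρ * m - m) ^ 2 / m = (ρ - 1) ^ 2 * m := by field_simp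
    rw [e1, e2]
    ring

theorem exists_max (θ δ h : ℝ) (hθ : 0 < θ) (hδ : 0 ≤ δ) (hh : 0 ≤ h) (hh1 : h ≤ 1 / 2)
    (hr : ∀ B C, r B C → r C B) (W : β → ℝ) (hW : ∀ B, 0 ≤ W B) :
    ∃ m k j : β → ℝ, IsMx θ δ h r W m k j := by
  have hV : 0 ≤ ∑ C, W C := Finset.sum_nonneg fun C _ => hW C
  set lo : ℝ := 1 / (θ + 2 * ∑ C, W C) with hlo
  have hlo0 : 0 < lo := by rw [hlo]; positivity
  have hlo1 : lo ≤ 1 / θ := by
    rw [hlo]
    exact one_div_le_one_div_of_le hθ (by linarith)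
  let S : Set ((β → ℝ) × (β → ℝ) × (β → ℝ)) :=
    Set.Icc (fun _ => 0) W ×ˢ (Set.Icc (fun _ => lo) (fun _ => 1 / θ) ×ˢ
      Set.Icc (fun _ => 0) (fun _ => 2))
  have hS : IsCompact S := isCompact_Icc.prod (isCompact_Icc.prod isCompact_Icc)
  have hne : S.Nonempty :=
    ⟨(fun _ => 0, fun _ => lo, fun _ => 0), ⟨⟨fun _ => le_rfl, hW⟩,
      ⟨⟨fun _ => le_rfl, fun _ => hlo1⟩, ⟨fun _ => le_rfl, fun _ => by norm_num⟩⟩⟩⟩
  let Φ : (β → ℝ) × (β → ℝ) × (β → ℝ) → ℝ := fun q =>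
    Psi θ δ h r W q.1 (fun B => q.2.1 B * q.1 B) (fun B => q.2.2 B * q.1 B)
  have c1 : ∀ B, Continuous fun q : (β → ℝ) × (β → ℝ) × (β → ℝ) => q.1 B := fun B =>
    (continuous_apply B).comp continuous_fst
  have c2 : ∀ B, Continuous fun q : (β → ℝ) × (β → ℝ) × (β → ℝ) => q.2.1 B := fun B =>
    (continuous_apply B).comp (continuous_fst.comp continuous_snd)
  have c3 : ∀ B, Continuous fun q : (β → ℝ) × (β → ℝ) × (β → ℝ) => q.2.2 B := fun B =>
    (continuous_apply B).comp (continuous_snd.comp continuous_snd)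
  have hS1 : ∀ q ∈ S, ∀ B, 0 ≤ q.1 B ∧ q.1 B ≤ W B := fun q hq B => ⟨hq.1.1 B, hq.1.2 B⟩
  have hS2 : ∀ q ∈ S, ∀ B, lo ≤ q.2.1 B ∧ q.2.1 B ≤ 1 / θ := fun q hq B =>
    ⟨hq.2.1.1 B, hq.2.1.2 B⟩
  have hS3 : ∀ q ∈ S, ∀ B, 0 ≤ q.2.2 B ∧ q.2.2 B ≤ 2 := fun q hq B => ⟨hq.2.2.1 B, hq.2.2.2 B⟩
  have hloc : ∀ B, ContinuousOn (fun q : (β → ℝ) × (β → ℝ) × (β → ℝ) =>
      lc θ δ h (W B) (q.1 B) (q.2.1 B * q.1 B) (q.2.2 B * q.1 B)) S := by
    intro B
    have hlog : ContinuousOn (fun q : (β → ℝ) × (β → ℝ) × (β → ℝ) => Real.log (θ * q.2.1 B)) S := by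
      refine ContinuousOn.log (continuous_const.mul (c2 B)).continuousOn fun q hq => ?_
      have h1 := (hS2 q hq B).1
      have h2 : 0 < q.2.1 B := hlo0.trans_le h1
      positivity
    have hc : ContinuousOn (fun q : (β → ℝ) × (β → ℝ) × (β → ℝ) =>
        q.1 B * Real.log (W B) - q.1 B * Real.log (q.1 B) + q.1 B +
          δ * (q.1 B * Real.log (θ * q.2.1 B) + q.1 B - θ * (q.2.1 B * q.1 B)
            - 8 * h * ((q.2.2 B - 1) ^ 2 * q.1 B))) S := by
      have h1 : Continuous fun q : (β → ℝ) × (β → ℝ) × (β → ℝ) => q.1 B * Real.log (q.1 B) :=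
        Real.continuous_mul_log.comp (c1 B)
      refine ContinuousOn.add ?_ (ContinuousOn.mul continuousOn_const ?_)
      · exact (((c1 B).mul continuous_const).sub h1 |>.add (c1 B)).continuousOn
      · refine ContinuousOn.sub (ContinuousOn.sub (ContinuousOn.add ?_ (c1 B).continuousOn) ?_) ?_
        · exact (c1 B).continuousOn.mul hlog
        · exact (continuous_const.mul ((c2 B).mul (c1 B))).continuousOn
        · exact (continuous_const.mul ((((c3 B).sub continuous_const).pow 2).mul (c1 B))).continuousOn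
    refine hc.congr fun q hq => ?_
    exact lc_eq hθ (hlo0.trans_le (hS2 q hq B).1) (hS1 q hq B).1 (hS1 q hq B).2
  have hhs : ∀ F : ((β → ℝ) × (β → ℝ) × (β → ℝ)) → β → β → ℝ,
      (∀ B C, Continuous fun q => F q B C) → Continuous fun q => hs r (F q) := by
    intro F hF
    unfold hs
    refine continuous_finset_sum _ fun B _ => continuous_finset_sum _ fun C _ => ?_
    split_ifs
    · exact hF B C
    · exact continuous_const
  have hΦ : ContinuousOn Φ S := by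
    refine ContinuousOn.add (ContinuousOn.sub ?_ ?_) ?_
    · exact continuousOn_finset_sum _ fun B _ => hloc B
    · exact (continuous_const.mul (hhs (fun q B C => q.2.1 B * q.1 B * q.1 C) fun B C =>
        ((c2 B).mul (c1 B)).mul (c1 C))).continuousOn
    · refine (continuous_const.mul (hhs (fun q => mu (fun B => q.2.1 B * q.1 B)
        (fun B => q.2.2 B * q.1 B)) fun B C => ?_)).continuousOn
      exact (((c3 B).mul (c1 B)).mul ((c2 C).mul (c1 C))).min
        (((c3 C).mul (c1 C)).mul ((c2 B).mul (c1 B)))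
  obtain ⟨q, hq, hmax⟩ := hS.exists_isMaxOn hne hΦ
  refine ⟨q.1, fun B => q.2.1 B * q.1 B, fun B => q.2.2 B * q.1 B, ⟨?_, ?_⟩⟩
  · have hk : ∀ B, 0 < q.2.1 B := fun B => hlo0.trans_le (hS2 q hq B).1
    exact {
      m0 := fun B => (hS1 q hq B).1
      k0 := fun B => mul_nonneg (hk B).le (hS1 q hq B).1
      j0 := fun B => mul_nonneg (hS3 q hq B).1 (hS1 q hq B).1
      jm := fun B => mul_le_mul_of_nonneg_right (hS3 q hq B).2 (hS1 q hq B).1
      Wp := fun B hB => hB.trans_le (hS1 q hq B).2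
      kp := fun B hB => mul_pos (hk B) hB }
  · intro m' k' j' hd
    obtain ⟨m'', κ, ρ, h1, h2, h3, h4⟩ := clip r θ δ h hθ hδ hh hh1 hr W m' k' j' hW hd
    refine h4.trans ?_
    have hmem : ((m'', κ, ρ) : (β → ℝ) × (β → ℝ) × (β → ℝ)) ∈ S :=
      ⟨⟨fun B => (h1 B).1, fun B => (h1 B).2⟩, ⟨⟨fun B => (h2 B).1, fun B => (h2 B).2⟩,
        ⟨fun B => (h3 B).1, fun B => (h3 B).2⟩⟩⟩
    exact hmax hmem

end BMV
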