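import Pool.Agent.BMV.Basic

/-!
# BMV/FourAlg: the four-point function

PROOF.  `G q i` vectors with `∑_q G q i ^ 2 = D` and `∑_q G q i * G q j = n i j` for `i ≠ j`.
For signs `ε2, ε3, ε4`:
`∑ (G_i + ε2 G_j + ε3 G_k + ε4 G_l)² = 4 D + 2 (ε2 n_ij + ε3 n_ik + ε4 n_il + ε2 ε3 n_jk + ε2 ε4 n_jl + ε3 ε4 n_kl)`,
so each exponential is `exp(-D)² * ∏ exp(∓ n)`, and `exp (-x) = cosh x - sinh x`, `exp x = cosh x + sinh x`.
After this substitution the identity is a polynomial identity in the six pairs `(cosh n, sinh n)` (`ring`); for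
distinct indices `aM n i j = sinh (n i j)`, `bM n i j = cosh (n i j)` and `n` is symmetric.
(The products over the edges of the complete graph on four points with all degrees odd.)
`two_alg` is the same with two indices.
-/

namespace BMV

open Finset BMP

variable {X R : Type} [Fintype X] [DecidableEq X] [Fintype R] [DecidableEq R]

private theorem exp_sign (ε x : ℝ) (h : ε = 1 ∨ ε = -1) :
    Real.exp (-(ε * x)) = Real.cosh x - ε * Real.sinh x := by
  rcases h with h | h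
  · rw [h, one_mul, one_mul, Real.cosh_sub_sinh]
  · rw [h, neg_one_mul, neg_neg, neg_one_mul, sub_neg_eq_add, Real.cosh_add_sinh]

private theorem sgn_mul {ε η : ℝ} (h : ε = 1 ∨ ε = -1) (h' : η = 1 ∨ η = -1) :
    ε * η = 1 ∨ ε * η = -1 := by
  rcases h with h | h <;> rcases h' with h' | h' <;> rw [h, h'] <;> norm_num

omit [Fintype X] [DecidableEq R] in
private theorem exp4 (g : R → X → ℝ) (n : Matrix X X ℝ) (D : ℝ)
    (hd : ∀ i, ∑ q, g q i ^ 2 = D) (hn : ∀ i j, i ≠ j → ∑ q, g q i * g q j = n i j) (i j k l : X)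
    (hij : i ≠ j) (hik : i ≠ k) (hil : i ≠ l) (hjk : j ≠ k) (hjl : j ≠ l) (hkl : k ≠ l)
    (a b c : ℝ) (ha : a = 1 ∨ a = -1) (hb : b = 1 ∨ b = -1) (hc : c = 1 ∨ c = -1) :
    Real.exp (-(1 / 2 * ∑ q, (g q i + a * g q j + b * g q k + c * g q l) ^ 2)) =
      Real.exp (-D) ^ 2 * ((bM n i j - a * aM n i j) * (bM n i k - b * aM n i k) *
        (bM n i l - c * aM n i l) * (bM n j k - (a * b) * aM n j k) *
        (bM n j l - (a * c) * aM n j l) * (bM n k l - (b * c) * aM n k l)) := by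
  have ha2 : a ^ 2 = 1 := by rcases ha with h | h <;> rw [h] <;> norm_num
  have hb2 : b ^ 2 = 1 := by rcases hb with h | h <;> rw [h] <;> norm_num
  have hc2 : c ^ 2 = 1 := by rcases hc with h | h <;> rw [h] <;> norm_num
  have hS : ∑ q, (g q i + a * g q j + b * g q k + c * g q l) ^ 2 = 4 * D +
      2 * (a * n i j + b * n i k + c * n i l + (a * b) * n j k + (a * c) * n j l
        + (b * c) * n k l) := by
    have h1 : ∀ q, (g q i + a * g q j + b * g q k + c * g q l) ^ 2 =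
        (g q i ^ 2 + a ^ 2 * g q j ^ 2 + b ^ 2 * g q k ^ 2 + c ^ 2 * g q l ^ 2) +
        ((2 * a) * (g q i * g q j) + (2 * b) * (g q i * g q k) + (2 * c) * (g q i * g q l) +
          (2 * (a * b)) * (g q j * g q k) + (2 * (a * c)) * (g q j * g q l) +
          (2 * (b * c)) * (g q k * g q l)) := fun q => by ring
    simp only [h1, Finset.sum_add_distrib, ← Finset.mul_sum, hd, hn i j hij, hn i k hik,
      hn i l hil, hn j k hjk, hn j l hjl, hn k l hkl, ha2, hb2, hc2]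
    ring
  rw [hS]
  have e1 : -(1 / 2 * (4 * D + 2 * (a * n i j + b * n i k + c * n i l + (a * b) * n j k
      + (a * c) * n j l + (b * c) * n k l))) =
      (-D) + (-D) + (-(a * n i j)) + (-(b * n i k)) + (-(c * n i l)) + (-((a * b) * n j k))
        + (-((a * c) * n j l)) + (-((b * c) * n k l)) := by ring
  rw [e1, Real.exp_add, Real.exp_add, Real.exp_add, Real.exp_add, Real.exp_add, Real.exp_add,
    Real.exp_add, exp_sign a _ ha, exp_sign b _ hb, exp_sign c _ hc, exp_sign _ _ (sgn_mul ha hb),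
    exp_sign _ _ (sgn_mul ha hc), exp_sign _ _ (sgn_mul hb hc)]
  simp only [aM, bM, if_neg hij, if_neg hik, if_neg hil, if_neg hjk, if_neg hjl, if_neg hkl]
  ring

theorem two_alg (g : R → X → ℝ) (n : Matrix X X ℝ) (D : ℝ)
    (hd : ∀ i, ∑ q, g q i ^ 2 = D) (hn : ∀ i j, i ≠ j → ∑ q, g q i * g q j = n i j) (i j : X) (hij : i ≠ j) :
    1 / 2 * (Real.exp (-(1 / 2 * ∑ q, (g q i - g q j) ^ 2))
        - Real.exp (-(1 / 2 * ∑ q, (g q i + g q j) ^ 2))) = Real.exp (-D) * aM n i j := by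
  have e : ∀ a : ℝ, a = 1 ∨ a = -1 → Real.exp (-(1 / 2 * ∑ q, (g q i + a * g q j) ^ 2)) =
      Real.exp (-D) * (Real.cosh (n i j) - a * Real.sinh (n i j)) := by
    intro a ha
    have ha2 : a ^ 2 = 1 := by rcases ha with h | h <;> rw [h] <;> norm_num
    have h1 : ∀ q, (g q i + a * g q j) ^ 2 =
        (g q i ^ 2 + a ^ 2 * g q j ^ 2) + (2 * a) * (g q i * g q j) := fun q => by ring
    have hS : ∑ q, (g q i + a * g q j) ^ 2 = 2 * D + 2 * (a * n i j) := by
      simp only [h1, Finset.sum_add_distrib, ← Finset.mul_sum, hd, hn i j hij, ha2]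
      ring
    rw [hS]
    have e1 : -(1 / 2 * (2 * D + 2 * (a * n i j))) = (-D) + (-(a * n i j)) := by ring
    rw [e1, Real.exp_add, exp_sign a _ ha]
  have e1 := e (-1) (Or.inr rfl)
  have e2 := e 1 (Or.inl rfl)
  have r1 : ∀ q, g q i + (-1 : ℝ) * g q j = g q i - g q j := fun q => by ring
  have r2 : ∀ q, g q i + (1 : ℝ) * g q j = g q i + g q j := fun q => by ring
  simp only [r1] at e1
  simp only [r2] at e2
  rw [e1, e2]
  simp only [aM, if_neg hij]
  ring

theorem four_alg (g : R → X → ℝ) (n : Matrix X X ℝ) (D : ℝ) (hs : ∀ i j, n i j = n j i)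
    (hd : ∀ i, ∑ q, g q i ^ 2 = D) (hn : ∀ i j, i ≠ j → ∑ q, g q i * g q j = n i j) (i j k l : X)
    (hij : i ≠ j) (hik : i ≠ k) (hil : i ≠ l) (hjk : j ≠ k) (hjl : j ≠ l) (hkl : k ≠ l) :
    1 / 8 * (Real.exp (-(1 / 2 * ∑ q, (g q i + g q j + g q k + g q l) ^ 2))
        - Real.exp (-(1 / 2 * ∑ q, (g q i + g q j + g q k - g q l) ^ 2))
        - Real.exp (-(1 / 2 * ∑ q, (g q i + g q j - g q k + g q l) ^ 2))
        + Real.exp (-(1 / 2 * ∑ q, (g q i + g q j - g q k - g q l) ^ 2))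
        - Real.exp (-(1 / 2 * ∑ q, (g q i - g q j + g q k + g q l) ^ 2))
        + Real.exp (-(1 / 2 * ∑ q, (g q i - g q j + g q k - g q l) ^ 2))
        + Real.exp (-(1 / 2 * ∑ q, (g q i - g q j - g q k + g q l) ^ 2))
        - Real.exp (-(1 / 2 * ∑ q, (g q i - g q j - g q k - g q l) ^ 2)))
      = Real.exp (-D) ^ 2 * F4 (aM n) (bM n) i j k l := by
  have e := exp4 g n D hd hn i j k l hij hik hil hjk hjl hkl
  have P : (1 : ℝ) = 1 ∨ (1 : ℝ) = -1 := Or.inl rfl
  have M : (-1 : ℝ) = 1 ∨ (-1 : ℝ) = -1 := Or.inr rfl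
  have t1 := e 1 1 1 P P P
  have t2 := e 1 1 (-1) P P M
  have t3 := e 1 (-1) 1 P M P
  have t4 := e 1 (-1) (-1) P M M
  have t5 := e (-1) 1 1 M P P
  have t6 := e (-1) 1 (-1) M P M
  have t7 := e (-1) (-1) 1 M M P
  have t8 := e (-1) (-1) (-1) M M M
  have r : ∀ x : ℝ, (-1 : ℝ) * x = -x := fun x => by ring
  simp only [one_mul, r, ← sub_eq_add_neg] at t1 t2 t3 t4 t5 t6 t7 t8
  rw [t1, t2, t3, t4, t5, t6, t7, t8]
  have hsa : ∀ x y, aM n x y = aM n y x := by
    intro x y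
    simp only [aM, hs x y, eq_comm]
  have hsb : ∀ x y, bM n x y = bM n y x := by
    intro x y
    simp only [bM, hs x y, eq_comm]
  unfold F4
  rw [hsa j i, hsa k i, hsa k j, hsa l i, hsa l j, hsa l k, hsb l j, hsb l k, hsb k j]
  ring

end BMV
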