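import Pool.Agent.BMV.Basic
import Pool.Agent.BMP.Round

/-!
# BMV/SinLim: averages of products of two and four sines, central limit

`sn g m e i = sin (∑_{(r,l)} e_(r,l) g r i/√m)`, index set `R × Fin m`.
PROOF.
`sin_four`: `sin a sin b = (cos (a-b) - cos (a+b))/2`, `cos x cos y = (cos (x+y) + cos (x-y))/2`.
`lim_cos`: `Ex (cos (dt (fun q => t q.1/√m) e)) = ∏_r cos(t r/√m)^m` (`BMP.Ex_cos`, `Fintype.prod_prod_type`,
 `Finset.prod_const`) and `BMP.cos_pow_tendsto`, `tendsto_finsetProd` (as in `BMP.round`); the product of the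
 `exp(-(t r)²/2)` is `exp(-(1/2) ∑ (t r)²)`.
`lim_two`, `lim_four`: write the product of the sines as a combination of cosines of
 `dt (fun q => (g q.1 i + ε2 g q.1 j + ε3 g q.1 k + ε4 g q.1 l)/√m) e` (linearity of `dt`) and use `lim_cos`.
-/

namespace BMV

open Finset BMP

theorem sin_four (a b c d : ℝ) :
    Real.sin a * Real.sin b * (Real.sin c * Real.sin d) =
      1 / 8 * (Real.cos (a + b + c + d) - Real.cos (a + b + c - d) - Real.cos (a + b - c + d)
        + Real.cos (a + b - c - d) - Real.cos (a - b + c + d) + Real.cos (a - b + c - d)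
        + Real.cos (a - b - c + d) - Real.cos (a - b - c - d)) := by
  simp only [Real.cos_add, Real.cos_sub, Real.sin_add, Real.sin_sub]
  ring

variable {X R : Type} [Fintype X] [DecidableEq X] [Fintype R] [DecidableEq R]

noncomputable def sn (g : R → X → ℝ) (m : ℕ) (e : R × Fin m → Bool) (i : X) : ℝ :=
  Real.sin (dt (fun q : R × Fin m => g q.1 i / Real.sqrt m) e)

theorem lim_cos (t : R → ℝ) :
    Filter.Tendsto (fun m : ℕ => Ex (fun e : R × Fin m → Bool =>
        Real.cos (dt (fun q : R × Fin m => t q.1 / Real.sqrt m) e))) Filter.atTop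
      (nhds (Real.exp (-(1 / 2 * ∑ q, t q ^ 2)))) := by
  have h1 : ∀ m : ℕ, Ex (fun e : R × Fin m → Bool =>
        Real.cos (dt (fun q : R × Fin m => t q.1 / Real.sqrt m) e)) =
      ∏ r, Real.cos (t r / Real.sqrt m) ^ m := by
    intro m
    rw [Ex_cos, Fintype.prod_prod_type]
    refine Finset.prod_congr rfl fun r _ => ?_
    show (∏ _y : Fin m, Real.cos (t r / Real.sqrt m)) = _
    rw [Finset.prod_const, Finset.card_univ, Fintype.card_fin]
  have h2 : Filter.Tendsto (fun m : ℕ => ∏ r, Real.cos (t r / Real.sqrt m) ^ m) Filter.atTop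
      (nhds (∏ r, Real.exp (-(t r ^ 2 / 2)))) :=
    tendsto_finsetProd _ fun r _ => cos_pow_tendsto _
  rw [← Real.exp_sum] at h2
  have h3 : ∑ r, -(t r ^ 2 / 2) = -(1 / 2 * ∑ q, t q ^ 2) := by
    rw [Finset.mul_sum, ← Finset.sum_neg_distrib]
    exact Finset.sum_congr rfl fun r _ => by ring
  rw [h3] at h2
  exact h2.congr fun m => (h1 m).symm

theorem lim_two (g : R → X → ℝ) (i j : X) :
    Filter.Tendsto (fun m : ℕ => Ex (fun e : R × Fin m → Bool => sn g m e i * sn g m e j)) Filter.atTop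
      (nhds (1 / 2 * (Real.exp (-(1 / 2 * ∑ q, (g q i - g q j) ^ 2))
        - Real.exp (-(1 / 2 * ∑ q, (g q i + g q j) ^ 2))))) := by
  have h1 := ((lim_cos (fun q => g q i - g q j)).sub
    (lim_cos (fun q => g q i + g q j))).const_mul (1 / 2)
  refine h1.congr fun m => ?_
  rw [← Ex_sub, ← Ex_mul_left]
  congr 1
  funext e
  have e1 : dt (fun q : R × Fin m => (g q.1 i - g q.1 j) / Real.sqrt m) e =
      dt (fun q : R × Fin m => g q.1 i / Real.sqrt m) e -
        dt (fun q : R × Fin m => g q.1 j / Real.sqrt m) e := by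
    unfold dt
    rw [← Finset.sum_sub_distrib]
    exact Finset.sum_congr rfl fun q _ => by ring
  have e2 : dt (fun q : R × Fin m => (g q.1 i + g q.1 j) / Real.sqrt m) e =
      dt (fun q : R × Fin m => g q.1 i / Real.sqrt m) e +
        dt (fun q : R × Fin m => g q.1 j / Real.sqrt m) e := by
    unfold dt
    rw [← Finset.sum_add_distrib]
    exact Finset.sum_congr rfl fun q _ => by ring
  unfold sn
  rw [e1, e2, Real.cos_sub, Real.cos_add]
  ring

theorem lim_four (g : R → X → ℝ) (i j k l : X) :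
    Filter.Tendsto (fun m : ℕ => Ex (fun e : R × Fin m → Bool =>
        sn g m e i * sn g m e j * (sn g m e k * sn g m e l))) Filter.atTop
      (nhds (1 / 8 * (Real.exp (-(1 / 2 * ∑ q, (g q i + g q j + g q k + g q l) ^ 2))
        - Real.exp (-(1 / 2 * ∑ q, (g q i + g q j + g q k - g q l) ^ 2))
        - Real.exp (-(1 / 2 * ∑ q, (g q i + g q j - g q k + g q l) ^ 2))
        + Real.exp (-(1 / 2 * ∑ q, (g q i + g q j - g q k - g q l) ^ 2))
        - Real.exp (-(1 / 2 * ∑ q, (g q i - g q j + g q k + g q l) ^ 2))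
        + Real.exp (-(1 / 2 * ∑ q, (g q i - g q j + g q k - g q l) ^ 2))
        + Real.exp (-(1 / 2 * ∑ q, (g q i - g q j - g q k + g q l) ^ 2))
        - Real.exp (-(1 / 2 * ∑ q, (g q i - g q j - g q k - g q l) ^ 2))))) := by
  obtain ⟨C, hC⟩ : ∃ C : (R → ℝ) → ℕ → ℝ, C = fun t m => Ex (fun e : R × Fin m → Bool =>
        Real.cos (dt (fun q : R × Fin m => t q.1 / Real.sqrt m) e)) := ⟨_, rfl⟩
  have hL : ∀ t : R → ℝ, Filter.Tendsto (C t) Filter.atTop
      (nhds (Real.exp (-(1 / 2 * ∑ q, t q ^ 2)))) := by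
    intro t
    rw [hC]
    exact lim_cos t
  have h1 := ((((((((hL (fun q => g q i + g q j + g q k + g q l)).sub
      (hL (fun q => g q i + g q j + g q k - g q l))).sub
      (hL (fun q => g q i + g q j - g q k + g q l))).add
      (hL (fun q => g q i + g q j - g q k - g q l))).sub
      (hL (fun q => g q i - g q j + g q k + g q l))).add
      (hL (fun q => g q i - g q j + g q k - g q l))).add
      (hL (fun q => g q i - g q j - g q k + g q l))).sub
      (hL (fun q => g q i - g q j - g q k - g q l))).const_mul (1 / 8)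
  refine h1.congr fun m => ?_
  rw [hC]
  simp only
  rw [← Ex_sub, ← Ex_sub, ← Ex_add, ← Ex_sub, ← Ex_add, ← Ex_add, ← Ex_sub, ← Ex_mul_left]
  congr 1
  funext e
  obtain ⟨a, ha⟩ : ∃ a, a = dt (fun q : R × Fin m => g q.1 i / Real.sqrt m) e := ⟨_, rfl⟩
  obtain ⟨b, hb⟩ : ∃ b, b = dt (fun q : R × Fin m => g q.1 j / Real.sqrt m) e := ⟨_, rfl⟩
  obtain ⟨c, hc⟩ : ∃ c, c = dt (fun q : R × Fin m => g q.1 k / Real.sqrt m) e := ⟨_, rfl⟩
  obtain ⟨d, hd⟩ : ∃ d, d = dt (fun q : R × Fin m => g q.1 l / Real.sqrt m) e := ⟨_, rfl⟩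
  have e1 : dt (fun q : R × Fin m => (g q.1 i + g q.1 j + g q.1 k + g q.1 l) / Real.sqrt m) e =
      a + b + c + d := by
    rw [ha, hb, hc, hd]
    unfold dt
    simp only [← Finset.sum_add_distrib, ← Finset.sum_sub_distrib]
    exact Finset.sum_congr rfl fun q _ => by ring
  have e2 : dt (fun q : R × Fin m => (g q.1 i + g q.1 j + g q.1 k - g q.1 l) / Real.sqrt m) e =
      a + b + c - d := by
    rw [ha, hb, hc, hd]
    unfold dt
    simp only [← Finset.sum_add_distrib, ← Finset.sum_sub_distrib]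
    exact Finset.sum_congr rfl fun q _ => by ring
  have e3 : dt (fun q : R × Fin m => (g q.1 i + g q.1 j - g q.1 k + g q.1 l) / Real.sqrt m) e =
      a + b - c + d := by
    rw [ha, hb, hc, hd]
    unfold dt
    simp only [← Finset.sum_add_distrib, ← Finset.sum_sub_distrib]
    exact Finset.sum_congr rfl fun q _ => by ring
  have e4 : dt (fun q : R × Fin m => (g q.1 i + g q.1 j - g q.1 k - g q.1 l) / Real.sqrt m) e =
      a + b - c - d := by
    rw [ha, hb, hc, hd]
    unfold dt
    simp only [← Finset.sum_add_distrib, ← Finset.sum_sub_distrib]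
    exact Finset.sum_congr rfl fun q _ => by ring
  have e5 : dt (fun q : R × Fin m => (g q.1 i - g q.1 j + g q.1 k + g q.1 l) / Real.sqrt m) e =
      a - b + c + d := by
    rw [ha, hb, hc, hd]
    unfold dt
    simp only [← Finset.sum_add_distrib, ← Finset.sum_sub_distrib]
    exact Finset.sum_congr rfl fun q _ => by ring
  have e6 : dt (fun q : R × Fin m => (g q.1 i - g q.1 j + g q.1 k - g q.1 l) / Real.sqrt m) e =
      a - b + c - d := by
    rw [ha, hb, hc, hd]
    unfold dt
    simp only [← Finset.sum_add_distrib, ← Finset.sum_sub_distrib]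
    exact Finset.sum_congr rfl fun q _ => by ring
  have e7 : dt (fun q : R × Fin m => (g q.1 i - g q.1 j - g q.1 k + g q.1 l) / Real.sqrt m) e =
      a - b - c + d := by
    rw [ha, hb, hc, hd]
    unfold dt
    simp only [← Finset.sum_add_distrib, ← Finset.sum_sub_distrib]
    exact Finset.sum_congr rfl fun q _ => by ring
  have e8 : dt (fun q : R × Fin m => (g q.1 i - g q.1 j - g q.1 k - g q.1 l) / Real.sqrt m) e =
      a - b - c - d := by
    rw [ha, hb, hc, hd]
    unfold dt
    simp only [← Finset.sum_add_distrib, ← Finset.sum_sub_distrib]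
    exact Finset.sum_congr rfl fun q _ => by ring
  unfold sn
  rw [← ha, ← hb, ← hc, ← hd, sin_four, e1, e2, e3, e4, e5, e6, e7, e8]

end BMV
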