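import Pool.Agent.BMV.Rnd
import Pool.Agent.BMV.SinLim
import Pool.Agent.BMV.FourAlg

/-!
# BMV/Field: existence of the measure

PROOF.  Write `n = ∑_r B r i B r j` (`BMP.Round`, private lemma `psd_gram`: copy it) and add the private coordinates
`k : X`, `g (inr k) i = if i = k then √(D - n k k) else 0`; so `∑_q g q i ^ 2 = D` and `∑_q g q i g q j = n i j`
for `i ≠ j` (as in `BMP.round`).  For each `m` let `w_m` be the weights of `rnd` for `p e i = sn g m e i`
(`|sin| ≤ 1`).  They lie in the compact simplex `stdSimplex ℝ (X → Bool)` (`isCompact_stdSimplex`), so a subsequence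
converges (`IsCompact.tendsto_subseq`) to `w` in the simplex.  For fixed indices `Ew w_m f → Ew w f` along the
subsequence (finite sums), and by `lim_two`, `lim_four` with `two_alg`, `four_alg` and uniqueness of limits `w` has the
required two- and four-point functions.
-/

namespace BMV

open Finset BMP

variable {X : Type} [Fintype X] [DecidableEq X]

open scoped MatrixOrder in
/-- a positive semidefinite real matrix is a Gram matrix -/
private lemma psd_gram (n : Matrix X X ℝ) (hn : n.PosSemidef) :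
    ∃ B : Matrix X X ℝ, ∀ i j, n i j = ∑ r, B r i * B r j := by
  obtain ⟨B, hB⟩ := CStarAlgebra.nonneg_iff_eq_star_mul_self.mp hn.nonneg
  refine ⟨B, fun i j => ?_⟩
  rw [hB, Matrix.mul_apply]
  rfl

theorem exists_fld (n : Matrix X X ℝ) (hn : n.PosSemidef) (D : ℝ) (hD : ∀ i, n i i ≤ D) :
    ∃ w : (X → Bool) → ℝ, Fld w D (aM n) (bM n) := by
  obtain ⟨B, hnB⟩ := psd_gram n hn
  have hsym : ∀ i j, n i j = n j i := by
    intro i j
    rw [hnB i j, hnB j i]
    exact Finset.sum_congr rfl fun r _ => mul_comm _ _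
  obtain ⟨g, hg1, hg2⟩ : ∃ g : X ⊕ X → X → ℝ, (∀ r i, g (Sum.inl r) i = B r i) ∧
      ∀ k i, g (Sum.inr k) i = if i = k then Real.sqrt (D - n k k) else 0 :=
    ⟨fun r i => Sum.elim (fun r => B r i) (fun k => if i = k then Real.sqrt (D - n k k) else 0) r,
      fun _ _ => rfl, fun _ _ => rfl⟩
  have hgg : ∀ i j, ∑ r, g r i * g r j = if i = j then D else n i j := by
    intro i j
    rw [Fintype.sum_sum_type]
    simp only [hg1, hg2]
    rw [← hnB]
    by_cases hij : i = j
    · subst hij
      rw [if_pos rfl, Finset.sum_eq_single i]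
      · rw [if_pos rfl, Real.mul_self_sqrt (by linarith [hD i])]
        ring
      · intro k _ hk
        rw [if_neg (Ne.symm hk), mul_zero]
      · intro h
        exact absurd (Finset.mem_univ i) h
    · rw [if_neg hij, Finset.sum_eq_zero, add_zero]
      intro k _
      by_cases hik : i = k
      · have hjk : ¬ j = k := fun h => hij (hik.trans h.symm)
        rw [if_neg hjk, mul_zero]
      · rw [if_neg hik, zero_mul]
  have hd : ∀ i, ∑ q, g q i ^ 2 = D := by
    intro i
    have := hgg i i
    rw [if_pos rfl] at this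
    rw [← this]
    exact Finset.sum_congr rfl fun r _ => by ring
  have hn' : ∀ i j, i ≠ j → ∑ q, g q i * g q j = n i j := by
    intro i j hij
    rw [hgg i j, if_neg hij]
  have hw : ∀ m : ℕ, ∃ w : (X → Bool) → ℝ, (∀ s, 0 ≤ w s) ∧ ∑ s, w s = 1 ∧
      (∀ i j, i ≠ j → Ew w (fun s => sg (s i) * sg (s j)) =
        Ex (fun e : (X ⊕ X) × Fin m → Bool => sn g m e i * sn g m e j)) ∧
      (∀ i j k l, i ≠ j → i ≠ k → i ≠ l → j ≠ k → j ≠ l → k ≠ l →
        Ew w (fun s => sg (s i) * sg (s j) * (sg (s k) * sg (s l)))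
          = Ex (fun e : (X ⊕ X) × Fin m → Bool =>
            sn g m e i * sn g m e j * (sn g m e k * sn g m e l))) := by
    intro m
    exact rnd (fun (e : (X ⊕ X) × Fin m → Bool) i => sn g m e i)
      (fun e i => Real.abs_sin_le_one _)
  choose w hw0 hw1 hw2 hw4 using hw
  have hmem : ∀ m, w m ∈ stdSimplex ℝ (X → Bool) := fun m => ⟨hw0 m, hw1 m⟩
  obtain ⟨a, ha, φ, hφ, hlim⟩ := (isCompact_stdSimplex ℝ (X → Bool)).tendsto_subseq hmem
  have hE : ∀ f : (X → Bool) → ℝ,
      Filter.Tendsto (fun m => Ew (w (φ m)) f) Filter.atTop (nhds (Ew a f)) := by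
    intro f
    unfold Ew
    refine tendsto_finsetSum _ fun s _ => ?_
    exact ((tendsto_pi_nhds.1 hlim) s).mul_const _
  refine ⟨a, ha.1, ha.2, ?_, ?_⟩
  · intro i j hij
    have h1 := hE (fun s => sg (s i) * sg (s j))
    have h2 := (lim_two g i j).comp hφ.tendsto_atTop
    have h3 : (fun m => Ew (w (φ m)) (fun s => sg (s i) * sg (s j))) =
        (fun m : ℕ => Ex (fun e : (X ⊕ X) × Fin m → Bool => sn g m e i * sn g m e j)) ∘ φ := by
      funext m
      exact hw2 (φ m) i j hij
    rw [h3] at h1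
    rw [tendsto_nhds_unique h1 h2, two_alg g n D hd hn' i j hij]
  · intro i j k l hij hik hil hjk hjl hkl
    have h1 := hE (fun s => sg (s i) * sg (s j) * (sg (s k) * sg (s l)))
    have h2 := (lim_four g i j k l).comp hφ.tendsto_atTop
    have h3 : (fun m => Ew (w (φ m)) (fun s => sg (s i) * sg (s j) * (sg (s k) * sg (s l)))) =
        (fun m : ℕ => Ex (fun e : (X ⊕ X) × Fin m → Bool =>
          sn g m e i * sn g m e j * (sn g m e k * sn g m e l))) ∘ φ := by
      funext m
      exact hw4 (φ m) i j k l hij hik hil hjk hjl hkl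
    rw [h3] at h1
    rw [tendsto_nhds_unique h1 h2, four_alg g n D hsym hd hn' i j k l hij hik hil hjk hjl hkl]

end BMV
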