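import Pool.Agent.BMV.FinT
import Pool.Agent.BMP.ToCube

/-!
# BMV/FinC: the theorem for functions on the cube

PROOF.  As in `BMP.bm_influence` (file `Pool/Agent/BMP/ToCube.lean`): let `j` be the variable with the largest
`M = ex (fun x => discreteDeriv j f x ^ 2)` (if `n = 0` then `variance f = 0`, excluded); `M ≥ 0`; apply `finT` to
`tensor f β` (`tensor_Bdd`, `tensor_VV`, `tensor_infl`, `Fintype.card_fin`).
-/

namespace BMV

open Finset BMP Pool.Agent.Helper11.AA Pool.Agent.Helper11.Cube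

theorem finC : ∃ C : ℕ, 0 < C ∧ ∀ (n k : ℕ) (f : Cube n → ℝ) (β : Fin n → Fin k), 1 ≤ k →
    (∀ S, coef f S ≠ 0 → ∀ b, (S.filter (fun i => β i = b)).card = 1) → (∀ x, |f x| ≤ 1) →
    0 < variance f →
    ∃ j : Fin n, (variance f / (2 * (k : ℝ))) ^ C ≤ ex (fun x => discreteDeriv j f x ^ 2) := by
  obtain ⟨C, hC, h⟩ := finT
  refine ⟨C, hC, fun n k f β hk hf h1 hV => ?_⟩
  have hn : (univ : Finset (Fin n)).Nonempty := by
    by_contra h0
    rw [not_nonempty_iff_eq_empty] at h0
    have h3 := poincare f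
    rw [h0, sum_empty] at h3
    linarith
  obtain ⟨j, _, hj⟩ := exists_max_image univ (fun j => ex (fun x => discreteDeriv j f x ^ 2)) hn
  refine ⟨j, ?_⟩
  have hM0 : 0 ≤ ex (fun x => discreteDeriv j f x ^ 2) := by
    by_contra h0
    push Not at h0
    have h3 := poincare f
    have h4 : ∑ i, ex (fun x => discreteDeriv i f x ^ 2) ≤ ∑ i : Fin n, (0 : ℝ) :=
      sum_le_sum fun i _ => le_trans (hj i (mem_univ _)) h0.le
    rw [sum_const_zero] at h4
    linarith
  have hkpos : 0 < Fintype.card (Fin k) := by rw [Fintype.card_fin]; exact hk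
  have hmain := h (Fin k) (Fin n) hkpos (tensor f β) (tensor_Bdd hf h1) _ hM0
    (fun b i => le_trans (tensor_infl b i) (hj i (mem_univ _)))
  rwa [tensor_VV hk hf, Fintype.card_fin] at hmain

end BMV
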