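import Pool.Agent.BMV.StepF
import Pool.Agent.BMP.Ins

/-!
# BMV/StartT: lower bound of the free energy by the variance

PROOF.  `θ = t M`, `t = card ι ≥ 1`.  The state `m = j = W = c²`, `k = W/θ` is admissible.  Its local terms: `lc = W`
(`W > 0`: `log (W/W) = 0`, `θ (W/θ)/W = 1`; `W = 0`: `0`).  Pairs: `hs rM (k m) = (1/θ) ∑_B W_B ∑_C [rM B C] W_C` and
`∑_C [rM B C] W_C ≤ ∑_b infl c b (B b) ≤ t M = θ` (union bound over the `b` with `B b = C b`), so
`hs rM (k m) ≤ ∑ W = VV c`; `hs rM mu ≥ 0`.  So `Psi ≥ VV c - 2 d0 VV c`; `Psi_le_GG`.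
-/

namespace BMV

open Finset BMP

variable {ι X : Type} [Fintype ι] [DecidableEq ι] [Fintype X] [DecidableEq X]


private theorem startT_nb (c : (ι → X) → ℝ) (M : ℝ) (hM : ∀ b i, infl c b i ≤ M) (B : ι → X) :
    (∑ C : ι → X, if rM B C then c C ^ 2 else 0) ≤ (Fintype.card ι : ℝ) * M := by
  calc (∑ C : ι → X, if rM B C then c C ^ 2 else 0)
      ≤ ∑ C : ι → X, ∑ b : ι, (if C b = B b then c C ^ 2 else 0) := by
        refine Finset.sum_le_sum fun C _ => ?_
        have hn : ∀ b : ι, 0 ≤ (if C b = B b then c C ^ 2 else 0) := by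
          intro b
          split_ifs
          · positivity
          · exact le_rfl
        split_ifs with h
        · obtain ⟨b, hb⟩ := h
          have h1 := Finset.single_le_sum (f := fun b : ι => (if C b = B b then c C ^ 2 else 0))
            (fun b _ => hn b) (Finset.mem_univ b)
          rw [if_pos hb.symm] at h1
          exact h1
        · exact Finset.sum_nonneg fun b _ => hn b
    _ = ∑ b : ι, infl c b (B b) := by
        rw [Finset.sum_comm]
        rfl
    _ ≤ ∑ _b : ι, M := Finset.sum_le_sum fun b _ => hM b (B b)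
    _ = (Fintype.card ι : ℝ) * M := by
        rw [Finset.sum_const, Finset.card_univ, nsmul_eq_mul]

private theorem startT_lc (θ δ h W : ℝ) (hθ : θ ≠ 0) : lc θ δ h W W (W / θ) W = W := by
  unfold lc
  have h1 : θ * (W / θ) = W := by field_simp
  rw [h1]
  by_cases hW : W = 0
  · subst hW
    simp
  · rw [div_self hW, Real.log_one]
    ring

theorem startT (hι : 0 < Fintype.card ι) (c : (ι → X) → ℝ) (M : ℝ) (hM0 : 0 < M)
    (hM : ∀ b i, infl c b i ≤ M) : (1 - 2 * d0) * VV c ≤ GB ((Fintype.card ι : ℝ) * M) c := by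
  have hθ : 0 < (Fintype.card ι : ℝ) * M := mul_pos (by exact_mod_cast hι) hM0
  set θ : ℝ := (Fintype.card ι : ℝ) * M with hθd
  have hd0 := d0_pos
  have hh0 := h0_pos
  have hh1 : h0 ≤ 1 := by linarith [h0_le]
  have hW : ∀ B : ι → X, 0 ≤ c B ^ 2 := fun B => sq_nonneg _
  have hdom : Dom (fun B : ι → X => c B ^ 2) (fun B => c B ^ 2) (fun B => c B ^ 2 / θ)
      (fun B => c B ^ 2) :=
    { m0 := hW
      k0 := fun B => div_nonneg (hW B) hθ.le
      j0 := hW
      jm := fun B => by linarith [hW B]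
      Wp := fun B h => h
      kp := fun B h => div_pos h hθ }
  have hle := Psi_le_GG rM θ d0 h0 hθ hd0.le hh0.le hh1 _ _ _ _ hW hdom
  refine le_trans ?_ hle
  unfold Psi
  have e1 : (∑ B : ι → X, lc θ d0 h0 (c B ^ 2) (c B ^ 2) (c B ^ 2 / θ) (c B ^ 2)) = VV c := by
    unfold VV
    exact Finset.sum_congr rfl fun B _ => startT_lc θ d0 h0 _ hθ.ne'
  have e2 : hs rM (fun B C : ι → X => c B ^ 2 / θ * c C ^ 2) ≤ VV c := by
    unfold hs VV
    refine Finset.sum_le_sum fun B _ => ?_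
    have h1 : (∑ C : ι → X, if rM B C then c B ^ 2 / θ * c C ^ 2 else 0) =
        c B ^ 2 / θ * ∑ C : ι → X, (if rM B C then c C ^ 2 else 0) := by
      rw [Finset.mul_sum]
      refine Finset.sum_congr rfl fun C _ => ?_
      split_ifs <;> simp
    rw [h1]
    have h2 := startT_nb c M hM B
    rw [← hθd] at h2
    calc c B ^ 2 / θ * ∑ C : ι → X, (if rM B C then c C ^ 2 else 0)
        ≤ c B ^ 2 / θ * θ := mul_le_mul_of_nonneg_left h2 (div_nonneg (hW B) hθ.le)
      _ = c B ^ 2 := by field_simp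
  have e3 : 0 ≤ hs (rM (ι := ι) (X := X)) (mu (fun B : ι → X => c B ^ 2 / θ) (fun B => c B ^ 2)) := by
    refine hs_nonneg _ _ fun B C _ => ?_
    unfold mu
    exact le_min (mul_nonneg (hW B) (div_nonneg (hW C) hθ.le))
      (mul_nonneg (hW C) (div_nonneg (hW B) hθ.le))
  rw [e1]
  have e4 : 0 ≤ h0 * d0 * hs (rM (ι := ι) (X := X)) (mu (fun B : ι → X => c B ^ 2 / θ) (fun B => c B ^ 2)) :=
    mul_nonneg (mul_nonneg hh0.le hd0.le) e3
  have e5 : 2 * d0 * hs rM (fun B C : ι → X => c B ^ 2 / θ * c C ^ 2) ≤ 2 * d0 * VV c :=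
    mul_le_mul_of_nonneg_left e2 (by linarith)
  linarith

end BMV
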