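import Pool.Agent.BMV.Iter
import Pool.Agent.BMV.StartT
import Pool.Agent.BMP.QQ

/-!
# BMV/FinT: the Aaronson-Ambainis conjecture for block-multilinear forms, tensor version

PROOF.  Let `p` be from `iter`, `α = d0/(1+d0) ∈ (0,1)`, `C` a natural number `≥ 1 + (p+2)/α`.  `V = VV c ≤ 1`
(`BMP.VV_le_one`).  If `V = 0`: `0^C = 0 ≤ M` (`C ≥ 1`).  Let `V > 0`.  Then `M > 0`: otherwise all influences vanish
(`infl ≥ 0`) and `V = ∑_i infl c b i = 0` for a block `b`.  `startT`, `iter` (`θ = t M`):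
`V/2 ≤ (1 - 2 d0) V ≤ t^p * 2 (t M)^α`, so `V/(4 t^p) ≤ (t M)^α`.  Put `x = V/(2t) ∈ (0, 1/2]`.
`x^(p+2) ≤ V/(4 t^p)` (`V^(p+2) ≤ V`, `(2t)^(p+2) ≥ 4 t^p`).  Hence `(x^(p+2))^(1/α) ≤ t M`, and as `1/t ≥ x`:
`M ≥ x * x^((p+2)/α) = x^(1 + (p+2)/α) ≥ x^C` (`Real.rpow` monotonicity, `x ≤ 1`).
-/

namespace BMV

open Finset BMP

private theorem d0_bd72 : 0 < d0 ∧ d0 ≤ 1 / 4 := by
  have hL : (4 : ℝ) ≤ L0 := by
    unfold L0
    have : (1 : ℝ) ≤ Real.exp 200 := Real.one_le_exp (by norm_num)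
    linarith
  have hK : (4 : ℝ) ≤ K0 := by
    unfold K0
    linarith
  have hK5 : (4 : ℝ) ≤ K0 ^ 5 := by
    calc (4 : ℝ) ≤ 4 ^ 5 := by norm_num
      _ ≤ K0 ^ 5 := pow_le_pow_left₀ (by norm_num) hK 5
  unfold d0
  constructor
  · positivity
  · exact one_div_le_one_div_of_le (by norm_num) hK5

private theorem sum_infl72 {ι X : Type} [Fintype ι] [DecidableEq ι] [Fintype X] [DecidableEq X]
    (c : (ι → X) → ℝ) (b : ι) : ∑ i, infl c b i = VV c := by
  unfold infl VV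
  rw [Finset.sum_comm]
  refine Finset.sum_congr rfl fun B _ => ?_
  rw [Finset.sum_ite_eq]
  simp

private theorem arith72 {V t M α : ℝ} {p C : ℕ} (hV : 0 < V) (hV1 : V ≤ 1) (ht : 1 ≤ t)
    (hM : 0 < M) (hα : 0 < α) (hC : 1 + (p + 2) / α ≤ C)
    (h : V / 2 ≤ t ^ p * (2 * (t * M) ^ α)) : (V / (2 * t)) ^ C ≤ M := by
  have ht0 : 0 < t := by linarith
  have hx : 0 < V / (2 * t) := by positivity
  have hx1 : V / (2 * t) ≤ 1 := by
    rw [div_le_one (by positivity)]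
    linarith
  have htM : 0 < t * M := mul_pos ht0 hM
  have h1 : (V / (2 * t)) ^ (p + 2) ≤ (t * M) ^ α := by
    have h2 : (V / (2 * t)) ^ (p + 2) ≤ V / (4 * t ^ p) := by
      rw [div_pow]
      apply div_le_div₀ hV.le
      · calc V ^ (p + 2) ≤ V ^ 1 := pow_le_pow_of_le_one hV.le hV1 (by omega)
          _ = V := pow_one V
      · positivity
      · rw [mul_pow]
        have h3 : (4 : ℝ) ≤ 2 ^ (p + 2) := by
          calc (4 : ℝ) = 2 ^ 2 := by norm_num
            _ ≤ 2 ^ (p + 2) := pow_le_pow_right₀ (by norm_num) (by omega)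
        have h4 : t ^ p ≤ t ^ (p + 2) := pow_le_pow_right₀ ht (by omega)
        have h5 : 0 < t ^ p := by positivity
        exact mul_le_mul h3 h4 h5.le (by positivity)
    refine h2.trans ?_
    have h5 : 0 < t ^ p := by positivity
    rw [div_le_iff₀ (by positivity)]
    have h6 : V ≤ 2 * (t ^ p * (2 * (t * M) ^ α)) := by linarith
    calc V ≤ 2 * (t ^ p * (2 * (t * M) ^ α)) := h6
      _ = (t * M) ^ α * (4 * t ^ p) := by ring
  have h2 : (V / (2 * t)) ^ (((p : ℝ) + 2) / α) ≤ t * M := by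
    have h3 := Real.rpow_le_rpow (by positivity) h1 (by positivity : (0 : ℝ) ≤ 1 / α)
    rw [← Real.rpow_mul htM.le, mul_one_div_cancel hα.ne', Real.rpow_one, ← Real.rpow_natCast,
      ← Real.rpow_mul hx.le] at h3
    refine le_trans (le_of_eq ?_) h3
    congr 1
    push_cast
    ring
  have h3 : (V / (2 * t)) ^ (1 + ((p : ℝ) + 2) / α) ≤ M := by
    rw [Real.rpow_add hx, Real.rpow_one]
    have h4 : V / (2 * t) ≤ 1 / t := by
      rw [div_le_div_iff₀ (by positivity) ht0]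
      nlinarith
    calc V / (2 * t) * (V / (2 * t)) ^ (((p : ℝ) + 2) / α) ≤ 1 / t * (t * M) :=
          mul_le_mul h4 h2 (by positivity) (by positivity)
      _ = M := by field_simp
  refine le_trans ?_ h3
  rw [← Real.rpow_natCast]
  exact Real.rpow_le_rpow_of_exponent_ge hx hx1 hC

theorem finT : ∃ C : ℕ, 0 < C ∧ ∀ (ι X : Type) [Fintype ι] [DecidableEq ι] [Fintype X] [DecidableEq X],
    0 < Fintype.card ι → ∀ (c : (ι → X) → ℝ), Bdd c → ∀ M : ℝ, 0 ≤ M → (∀ b i, infl c b i ≤ M) →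
    (VV c / (2 * (Fintype.card ι : ℝ))) ^ C ≤ M := by
  obtain ⟨hd0, hd1⟩ := d0_bd72
  obtain ⟨p, hp⟩ := iter
  have hα : 0 < d0 / (1 + d0) := by positivity
  refine ⟨⌈1 + ((p : ℝ) + 2) / (d0 / (1 + d0))⌉₊, Nat.ceil_pos.2 (by positivity), ?_⟩
  intro ι X _ _ _ _ hι c hc M hM0 hM
  have hCpos : ⌈1 + ((p : ℝ) + 2) / (d0 / (1 + d0))⌉₊ ≠ 0 := (Nat.ceil_pos.2 (by positivity)).ne'
  have hV1 := VV_le_one c hc
  have hV0 := VV_nonneg c
  rcases hV0.eq_or_lt with hV | hV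
  · rw [← hV, zero_div, zero_pow hCpos]
    exact hM0
  · have hMpos : 0 < M := by
      rcases hM0.eq_or_lt with h | h
      · exfalso
        obtain ⟨b⟩ : Nonempty ι := Fintype.card_pos_iff.1 hι
        rw [← sum_infl72 c b] at hV
        have h2 : ∑ i, infl c b i ≤ 0 := Finset.sum_nonpos fun i _ => by
          rw [h]
          exact hM b i
        linarith
      · exact h
    have ht : (1 : ℝ) ≤ (Fintype.card ι : ℝ) := by exact_mod_cast hι
    refine arith72 (p := p) hV hV1 ht hMpos hα (Nat.le_ceil _) ?_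
    have h1 := startT hι c M hMpos hM
    have h2 := hp (Fintype.card ι - 1) X ι (by omega) c hc ((Fintype.card ι : ℝ) * M) (by positivity)
    have e : Fintype.card ι - 1 + 1 = Fintype.card ι := by omega
    rw [e] at h2
    refine le_trans ?_ (h1.trans h2)
    nlinarith

end BMV
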