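import Pool.Agent.BMV.GLawA
import Pool.Agent.BMP.Round

/-! BMV GLaw (section 4, helper94): existence of the gaussian-sine sign measure.

Follow the proof of `BMP.round` (file BMP/Round, copy `psd_gram`, `ex_sin_sin`, which are private there). Vectors `g : X ⊕ X → X → ℝ` with
`∑_r g r i * g r j = if i = j then D else n i j`. For `m : ℕ` let `T = (X ⊕ X) × Fin m`, `u i q = g q.1 i / sqrt m`, `p e i = sin (dt (u i) e)`.
`law_of_avg` gives weights `w m` in `stdSimplex ℝ (X → Bool)` with (for `S = {i, j}`, `S = {i, j, k, l}` with distinct elements;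
`Finset.prod_insert`, `Finset.prod_singleton`) `Ew (w m) (x_i x_j) = Ex (p_i p_j)`, `Ew (w m) (x_i x_j x_k x_l) = Ex (p_i p_j p_k p_l)`.
The first is computed in `BMP.round` and tends to `e^(-D) sinh (n i j)`. For the second use `Ex_sin4`; each product over `T` is
`∏_r cos(t_r/sqrt m)^m → ∏_r exp(-t_r^2/2) = exp(-∑_r t_r^2/2)` (`BMP.cos_pow_tendsto`, `tendsto_finsetProd`), `t_r = g r i ± g r j ± g r k ± g r l`, and
`∑_r t_r^2/2 = 2 D ± n_ij ± n_ik ± ...` (signs: product of the two signs), then `four_alg`; finally `F4 (aM n) (bM n) i j k l` is the bracket of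
`four_alg` because the indices are distinct and `n` is symmetric (`aM n i j = sinh (n i j)`, `bM n i j = cosh (n i j)`), `exp(-2D) = exp(-D)^2`.
Compactness: `isCompact_stdSimplex`, `IsCompact.tendsto_subseq` gives a limit `p` of `w (φ m)` in the simplex; `Ew (w (φ m)) F → Ew p F` for every `F`
(finite sum, `tendsto_pi_nhds`); uniqueness of limits (`tendsto_nhds_unique`, `StrictMono.tendsto_atTop`).

`fld_unif`: `Ew (uw X) f = Ex f` (`Ew_uw`); two point function `BMP.Ex_sg_mul`; for four distinct indices the average vanishes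
(flip the sign at `i`), and with `a = 0` every term of `F4 0 b` is zero. -/

namespace BMV

open Finset BMP

variable {X : Type} [Fintype X] [DecidableEq X]

open scoped MatrixOrder in
/-- a positive semidefinite real matrix is a Gram matrix -/
private lemma psd_gram (n : Matrix X X ℝ) (hn : n.PosSemidef) :
    ∃ B : Matrix X X ℝ, ∀ i j, n i j = ∑ r, B r i * B r j := by
  obtain ⟨B, hB⟩ := CStarAlgebra.nonneg_iff_eq_star_mul_self.mp hn.nonneg
  refine ⟨B, fun i j => ?_⟩
  rw [hB, Matrix.mul_apply]
  rfl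

/-- the vectors -/
private lemma ex_vec (n : Matrix X X ℝ) (hn : n.PosSemidef) (D : ℝ) (hD : ∀ i, n i i ≤ D) :
    ∃ g : X ⊕ X → X → ℝ, ∀ i j, ∑ r, g r i * g r j = if i = j then D else n i j := by
  obtain ⟨B, hnB⟩ := psd_gram n hn
  obtain ⟨g, hg1, hg2⟩ : ∃ g : X ⊕ X → X → ℝ, (∀ r i, g (Sum.inl r) i = B r i) ∧
      ∀ k i, g (Sum.inr k) i = if i = k then Real.sqrt (D - n k k) else 0 :=
    ⟨fun r i => Sum.elim (fun r => B r i) (fun k => if i = k then Real.sqrt (D - n k k) else 0) r,
      fun _ _ => rfl, fun _ _ => rfl⟩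
  refine ⟨g, fun i j => ?_⟩
  rw [Fintype.sum_sum_type]
  simp only [hg1, hg2]
  rw [← hnB]
  by_cases hij : i = j
  · subst hij
    rw [if_pos rfl, Finset.sum_eq_single i]
    · rw [if_pos rfl, Real.mul_self_sqrt (by linarith [hD i])]
      ring
    · intro k _ hk
      rw [if_neg (Ne.symm hk), mul_zero]
    · intro h
      exact absurd (Finset.mem_univ i) h
  · rw [if_neg hij, Finset.sum_eq_zero, add_zero]
    intro k _
    by_cases hik : i = k
    · have hjk : ¬ j = k := fun h => hij (hik.trans h.symm)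
      rw [if_neg hjk, mul_zero]
    · rw [if_neg hik, zero_mul]

/-- the product formula for the averages of products of two sines -/
private lemma ex_sin_sin {T : Type} [Fintype T] [DecidableEq T] (u v : T → ℝ) :
    Ex (fun e : T → Bool => Real.sin (dt u e) * Real.sin (dt v e)) =
      (∏ q, Real.cos (u q - v q) - ∏ q, Real.cos (u q + v q)) / 2 := by
  have h1 : ∀ e : T → Bool, Real.sin (dt u e) * Real.sin (dt v e) =
      (Real.cos (dt (fun q => u q - v q) e) - Real.cos (dt (fun q => u q + v q) e)) / 2 := by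
    intro e
    have e1 : dt (fun q => u q - v q) e = dt u e - dt v e := by
      unfold dt
      rw [← Finset.sum_sub_distrib]
      exact Finset.sum_congr rfl fun q _ => by ring
    have e2 : dt (fun q => u q + v q) e = dt u e + dt v e := by
      unfold dt
      rw [← Finset.sum_add_distrib]
      exact Finset.sum_congr rfl fun q _ => by ring
    rw [e1, e2, Real.cos_sub, Real.cos_add]
    ring
  rw [← Ex_cos (fun q => u q - v q), ← Ex_cos (fun q => u q + v q)]
  unfold Ex
  simp only [h1]
  rw [← Finset.sum_div, Finset.sum_sub_distrib]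
  ring

/-- limit of the products of cosines -/
private lemma lim_cos (f : (m : ℕ) → (X ⊕ X) × Fin m → ℝ) (t : X ⊕ X → ℝ)
    (hf : ∀ m q, f m q = t q.1 / Real.sqrt m) (c : ℝ) (hc : ∑ r, t r ^ 2 = -(2 * c)) :
    Filter.Tendsto (fun m : ℕ => ∏ q, Real.cos (f m q)) Filter.atTop (nhds (Real.exp c)) := by
  have h1 : ∀ m : ℕ, ∏ q, Real.cos (f m q) = ∏ r, Real.cos (t r / Real.sqrt m) ^ m := by
    intro m
    rw [Fintype.prod_prod_type]
    refine Finset.prod_congr rfl fun r _ => ?_
    rw [Finset.prod_congr rfl fun y _ => by rw [hf m (r, y)]]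
    show ∏ _y : Fin m, Real.cos (t r / Real.sqrt m) = _
    rw [Finset.prod_const, Finset.card_univ, Fintype.card_fin]
  have h2 : Filter.Tendsto (fun m : ℕ => ∏ r, Real.cos (t r / Real.sqrt m) ^ m) Filter.atTop
      (nhds (∏ r, Real.exp (-(t r ^ 2 / 2)))) := tendsto_finsetProd _ fun r _ => cos_pow_tendsto _
  have h3 : ∏ r, Real.exp (-(t r ^ 2 / 2)) = Real.exp c := by
    rw [← Real.exp_sum]
    congr 1
    rw [Finset.sum_neg_distrib, ← Finset.sum_div, hc]
    ring
  rw [h3] at h2
  exact h2.congr fun m => (h1 m).symm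

/-- the square of a signed sum -/
private lemma sq_sum (g : X ⊕ X → X → ℝ) (n : Matrix X X ℝ) (D : ℝ)
    (hg : ∀ i j, ∑ r, g r i * g r j = if i = j then D else n i j) (i j k l : X) (hij : i ≠ j)
    (hik : i ≠ k) (hil : i ≠ l) (hjk : j ≠ k) (hjl : j ≠ l) (hkl : k ≠ l) (s2 s3 s4 : ℝ)
    (h2 : s2 ^ 2 = 1) (h3 : s3 ^ 2 = 1) (h4 : s4 ^ 2 = 1) :
    ∑ r, (g r i + s2 * g r j + s3 * g r k + s4 * g r l) ^ 2 =
      -(2 * (-(2 * D) + (-(s2 * n i j) - s3 * n i k - s4 * n i l - s2 * s3 * n j k
        - s2 * s4 * n j l - s3 * s4 * n k l))) := by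
  have e : ∀ r, (g r i + s2 * g r j + s3 * g r k + s4 * g r l) ^ 2 =
      g r i * g r i + s2 ^ 2 * (g r j * g r j) + s3 ^ 2 * (g r k * g r k)
        + s4 ^ 2 * (g r l * g r l) + 2 * s2 * (g r i * g r j) + 2 * s3 * (g r i * g r k)
        + 2 * s4 * (g r i * g r l) + 2 * (s2 * s3) * (g r j * g r k)
        + 2 * (s2 * s4) * (g r j * g r l) + 2 * (s3 * s4) * (g r k * g r l) := fun r => by ring
  rw [Finset.sum_congr rfl fun r _ => e r]
  simp only [Finset.sum_add_distrib, ← Finset.mul_sum]
  rw [hg i i, hg j j, hg k k, hg l l, hg i j, hg i k, hg i l, hg j k, hg j l, hg k l, h2, h3, h4]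
  simp only [if_true, if_neg hij, if_neg hik, if_neg hil, if_neg hjk, if_neg hjl, if_neg hkl]
  ring

theorem exists_law (n : Matrix X X ℝ) (hn : n.PosSemidef) (D : ℝ) (hD : ∀ i, n i i ≤ D) :
    ∃ w : (X → Bool) → ℝ, Fld w D (aM n) (bM n) := by
  obtain ⟨g, hg⟩ := ex_vec n hn D hD
  have hsym : ∀ i j, n j i = n i j := fun i j => by
    have := hn.isHermitian.apply i j
    simpa using this
  set P : (m : ℕ) → ((X ⊕ X) × Fin m → Bool) → X → ℝ := fun m e i =>
    Real.sin (dt (fun q : (X ⊕ X) × Fin m => g q.1 i / Real.sqrt m) e) with hP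
  have hex : ∀ m : ℕ, ∃ w : (X → Bool) → ℝ, (∀ s, 0 ≤ w s) ∧ ∑ s, w s = 1 ∧
      ∀ S : Finset X, Ew w (fun s => ∏ i ∈ S, sg (s i)) = Ex (fun e => ∏ i ∈ S, P m e i) :=
    fun m => law_of_avg (P m) fun e i => Real.abs_sin_le_one _
  choose w hw0 hw1 hwS using hex
  -- two point function
  have htwo : ∀ i j, i ≠ j → Filter.Tendsto (fun m => Ew (w m) (fun s => sg (s i) * sg (s j)))
      Filter.atTop (nhds (Real.exp (-D) * aM n i j)) := by
    intro i j hij
    have h1 : ∀ m : ℕ, Ew (w m) (fun s => sg (s i) * sg (s j)) =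
        (∏ q : (X ⊕ X) × Fin m, Real.cos (g q.1 i / Real.sqrt m - g q.1 j / Real.sqrt m) -
          ∏ q : (X ⊕ X) × Fin m, Real.cos (g q.1 i / Real.sqrt m + g q.1 j / Real.sqrt m)) / 2 := by
      intro m
      have h2 := hwS m {i, j}
      simp only [Finset.prod_pair hij] at h2
      rw [h2, hP, ex_sin_sin]
    have e0 : ∀ c : ℝ, ∑ r, (g r i + c * g r j) ^ 2 = D + c ^ 2 * D + 2 * c * n i j := by
      intro c
      have e : ∀ r, (g r i + c * g r j) ^ 2 =
          g r i * g r i + c ^ 2 * (g r j * g r j) + 2 * c * (g r i * g r j) := fun r => by ring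
      rw [Finset.sum_congr rfl fun r _ => e r]
      simp only [Finset.sum_add_distrib, ← Finset.mul_sum]
      rw [hg i i, hg j j, hg i j, if_pos rfl, if_pos rfl, if_neg hij]
    have l1 := lim_cos (fun m (q : (X ⊕ X) × Fin m) =>
      g q.1 i / Real.sqrt m - g q.1 j / Real.sqrt m) (fun r => g r i + (-1) * g r j)
      (fun m q => by ring) (-D + n i j) (by rw [e0]; ring)
    have l2 := lim_cos (fun m (q : (X ⊕ X) × Fin m) =>
      g q.1 i / Real.sqrt m + g q.1 j / Real.sqrt m) (fun r => g r i + 1 * g r j)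
      (fun m q => by ring) (-D + -n i j) (by rw [e0]; ring)
    have l3 := (l1.sub l2).div_const 2
    have h4 : (Real.exp (-D + n i j) - Real.exp (-D + -n i j)) / 2 = Real.exp (-D) * aM n i j := by
      unfold aM
      rw [if_neg hij, Real.sinh_eq, Real.exp_add, Real.exp_add]
      ring
    rw [h4] at l3
    exact l3.congr fun m => (h1 m).symm
  -- four point function
  have hfour : ∀ i j k l, i ≠ j → i ≠ k → i ≠ l → j ≠ k → j ≠ l → k ≠ l →
      Filter.Tendsto (fun m => Ew (w m) (fun s => sg (s i) * sg (s j) * (sg (s k) * sg (s l))))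
      Filter.atTop (nhds (Real.exp (-D) ^ 2 * F4 (aM n) (bM n) i j k l)) := by
    intro i j k l hij hik hil hjk hjl hkl
    have h1 : ∀ m : ℕ, Ew (w m) (fun s => sg (s i) * sg (s j) * (sg (s k) * sg (s l))) =
        Ex (fun e => P m e i * P m e j * (P m e k * P m e l)) := by
      intro m
      have h2 := hwS m {i, j, k, l}
      have h3 : ∀ f : X → ℝ, ∏ x ∈ ({i, j, k, l} : Finset X), f x = f i * f j * (f k * f l) := by
        intro f
        rw [Finset.prod_insert (by simp [hij, hik, hil]), Finset.prod_insert (by simp [hjk, hjl]),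
          Finset.prod_pair hkl]
        ring
      simp only [h3] at h2
      exact h2
    have hl : ∀ s2 s3 s4 : ℝ, s2 ^ 2 = 1 → s3 ^ 2 = 1 → s4 ^ 2 = 1 →
        ∀ f : (m : ℕ) → (X ⊕ X) × Fin m → ℝ,
        (∀ m q, f m q = (g q.1 i + s2 * g q.1 j + s3 * g q.1 k + s4 * g q.1 l) / Real.sqrt m) →
        Filter.Tendsto (fun m : ℕ => ∏ q, Real.cos (f m q)) Filter.atTop
          (nhds (Real.exp (-(2 * D) + (-(s2 * n i j) - s3 * n i k - s4 * n i l - s2 * s3 * n j k
        - s2 * s4 * n j l - s3 * s4 * n k l)))) := by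
      intro s2 s3 s4 h2 h3 h4 f hf
      exact lim_cos f (fun r => g r i + s2 * g r j + s3 * g r k + s4 * g r l) hf _
        (sq_sum g n D hg i j k l hij hik hil hjk hjl hkl s2 s3 s4 h2 h3 h4)
    set u : X → (m : ℕ) → (X ⊕ X) × Fin m → ℝ := fun x m q => g q.1 x / Real.sqrt m with hu
    have p1 := hl 1 1 1 (by norm_num) (by norm_num) (by norm_num)
      (fun m q => u i m q + u j m q + u k m q + u l m q) (fun m q => by rw [hu]; ring)
    have p2 := hl 1 1 (-1) (by norm_num) (by norm_num) (by norm_num)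
      (fun m q => u i m q + u j m q + u k m q - u l m q) (fun m q => by rw [hu]; ring)
    have p3 := hl 1 (-1) 1 (by norm_num) (by norm_num) (by norm_num)
      (fun m q => u i m q + u j m q - u k m q + u l m q) (fun m q => by rw [hu]; ring)
    have p4 := hl 1 (-1) (-1) (by norm_num) (by norm_num) (by norm_num)
      (fun m q => u i m q + u j m q - u k m q - u l m q) (fun m q => by rw [hu]; ring)
    have p5 := hl (-1) 1 1 (by norm_num) (by norm_num) (by norm_num)
      (fun m q => u i m q - u j m q + u k m q + u l m q) (fun m q => by rw [hu]; ring)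
    have p6 := hl (-1) 1 (-1) (by norm_num) (by norm_num) (by norm_num)
      (fun m q => u i m q - u j m q + u k m q - u l m q) (fun m q => by rw [hu]; ring)
    have p7 := hl (-1) (-1) 1 (by norm_num) (by norm_num) (by norm_num)
      (fun m q => u i m q - u j m q - u k m q + u l m q) (fun m q => by rw [hu]; ring)
    have p8 := hl (-1) (-1) (-1) (by norm_num) (by norm_num) (by norm_num)
      (fun m q => u i m q - u j m q - u k m q - u l m q) (fun m q => by rw [hu]; ring)
    have h5 := (((((((p1.sub p2).sub p3).add p4).sub p5).add p6).add p7).sub p8).div_const 8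
    have h6 := four_alg D (n i j) (n i k) (n i l) (n j k) (n j l) (n k l)
    have h7 : Real.exp (-D) ^ 2 * F4 (aM n) (bM n) i j k l = Real.exp (-(2 * D)) *
      (Real.sinh (n i j) * Real.sinh (n k l) *
          (Real.cosh (n i k) * Real.cosh (n i l) * Real.cosh (n j k) * Real.cosh (n j l))
      + Real.sinh (n i k) * Real.sinh (n j l) *
          (Real.cosh (n i j) * Real.cosh (n i l) * Real.cosh (n j k) * Real.cosh (n k l))
      + Real.sinh (n i l) * Real.sinh (n j k) *
          (Real.cosh (n i j) * Real.cosh (n i k) * Real.cosh (n j l) * Real.cosh (n k l))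
      - Real.sinh (n i j) * Real.sinh (n i k) * Real.sinh (n i l) *
          (Real.cosh (n j k) * Real.cosh (n j l) * Real.cosh (n k l))
      - Real.sinh (n i j) * Real.sinh (n j k) * Real.sinh (n j l) *
          (Real.cosh (n i k) * Real.cosh (n i l) * Real.cosh (n k l))
      - Real.sinh (n i k) * Real.sinh (n j k) * Real.sinh (n k l) *
          (Real.cosh (n i j) * Real.cosh (n i l) * Real.cosh (n j l))
      - Real.sinh (n i l) * Real.sinh (n j l) * Real.sinh (n k l) *
          (Real.cosh (n i j) * Real.cosh (n i k) * Real.cosh (n j k))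
      + Real.sinh (n i j) * Real.sinh (n k l) *
          (Real.sinh (n i k) * Real.sinh (n i l) * Real.sinh (n j k) * Real.sinh (n j l))) := by
      have h8 : Real.exp (-D) ^ 2 = Real.exp (-(2 * D)) := by
        rw [sq, ← Real.exp_add]
        congr 1
        ring
      rw [h8]
      congr 1
      unfold F4 aM bM
      simp only [if_neg hij, if_neg hik, if_neg hil, if_neg hjk, if_neg hjl, if_neg hkl,
        if_neg hij.symm, if_neg hik.symm, if_neg hil.symm, if_neg hjk.symm, if_neg hjl.symm,
        if_neg hkl.symm, hsym i j, hsym i k, hsym i l, hsym j k, hsym j l, hsym k l]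
      ring
    rw [h7, ← h6]
    refine (h5.congr fun m => ?_).trans (le_of_eq ?_)
    · rw [h1 m, hP]
      exact (Ex_sin4 (u i m) (u j m) (u k m) (u l m)).symm
    · congr 1
      have q : ∀ x y : ℝ, x = y → Real.exp x = Real.exp y := fun x y h => by rw [h]
      rw [q _ (-(2 * D) + (-n i j - n i k - n i l - n j k - n j l - n k l)) (by ring),
        q (-(2 * D) + (-(1 * n i j) - 1 * n i k - -1 * n i l - 1 * 1 * n j k - 1 * -1 * n j l
          - 1 * -1 * n k l))
          (-(2 * D) + (-n i j - n i k + n i l - n j k + n j l + n k l)) (by ring),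
        q (-(2 * D) + (-(1 * n i j) - -1 * n i k - 1 * n i l - 1 * -1 * n j k - 1 * 1 * n j l
          - -1 * 1 * n k l))
          (-(2 * D) + (-n i j + n i k - n i l + n j k - n j l + n k l)) (by ring),
        q (-(2 * D) + (-(1 * n i j) - -1 * n i k - -1 * n i l - 1 * -1 * n j k - 1 * -1 * n j l
          - -1 * -1 * n k l))
          (-(2 * D) + (-n i j + n i k + n i l + n j k + n j l - n k l)) (by ring),
        q (-(2 * D) + (-(-1 * n i j) - 1 * n i k - 1 * n i l - -1 * 1 * n j k - -1 * 1 * n j l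
          - 1 * 1 * n k l))
          (-(2 * D) + (n i j - n i k - n i l + n j k + n j l - n k l)) (by ring),
        q (-(2 * D) + (-(-1 * n i j) - 1 * n i k - -1 * n i l - -1 * 1 * n j k - -1 * -1 * n j l
          - 1 * -1 * n k l))
          (-(2 * D) + (n i j - n i k + n i l + n j k - n j l + n k l)) (by ring),
        q (-(2 * D) + (-(-1 * n i j) - -1 * n i k - 1 * n i l - -1 * -1 * n j k - -1 * 1 * n j l
          - -1 * 1 * n k l))
          (-(2 * D) + (n i j + n i k - n i l - n j k + n j l + n k l)) (by ring),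
        q (-(2 * D) + (-(-1 * n i j) - -1 * n i k - -1 * n i l - -1 * -1 * n j k - -1 * -1 * n j l
          - -1 * -1 * n k l))
          (-(2 * D) + (n i j + n i k + n i l - n j k - n j l - n k l)) (by ring)]
  -- compactness
  have hmem : ∀ m, w m ∈ stdSimplex ℝ (X → Bool) := fun m => ⟨hw0 m, hw1 m⟩
  obtain ⟨p, hp, φ, hφ, hlim⟩ := (isCompact_stdSimplex ℝ (X → Bool)).tendsto_subseq hmem
  have hE : ∀ f : (X → Bool) → ℝ,
      Filter.Tendsto (fun m => Ew (w (φ m)) f) Filter.atTop (nhds (Ew p f)) := by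
    intro f
    unfold Ew
    exact tendsto_finsetSum _ fun s _ => ((tendsto_pi_nhds.1 hlim) s).mul_const _
  refine ⟨p, hp.1, hp.2, fun i j hij => ?_, fun i j k l h1 h2 h3 h4 h5 h6 => ?_⟩
  · exact tendsto_nhds_unique (hE _) ((htwo i j hij).comp hφ.tendsto_atTop)
  · exact tendsto_nhds_unique (hE _) ((hfour i j k l h1 h2 h3 h4 h5 h6).comp hφ.tendsto_atTop)

private theorem ex_flip (a : X) (F : (X → Bool) → ℝ)
    (h : ∀ s, F (Function.update s a (!(s a))) = -F s) : Ex F = 0 := by
  have hinv : Function.Involutive fun s : X → Bool => Function.update s a (!(s a)) := by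
    intro s
    funext b
    rcases eq_or_ne b a with rfl | hb
    · simp
    · simp [Function.update_of_ne hb]
  have h1 : ∑ s : X → Bool, F s = ∑ s : X → Bool, F (Function.update s a (!(s a))) :=
    (Equiv.sum_comp hinv.toPerm F).symm
  have h2 : ∑ s : X → Bool, F (Function.update s a (!(s a))) = -∑ s : X → Bool, F s := by
    rw [← Finset.sum_neg_distrib]
    exact Finset.sum_congr rfl fun s _ => h s
  have h3 : ∑ s : X → Bool, F s = 0 := by linarith
  unfold Ex
  rw [h3, zero_div]

private theorem sg_not (s : Bool) : sg (!s) = -sg s := by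
  cases s <;> simp [sg]

theorem fld_unif (b : Matrix X X ℝ) : Fld (uw X) 0 0 b where
  w0 := uw_nonneg
  w1 := uw_sum
  two := fun i j hij => by
    rw [Ew_uw, Ex_sg_mul, if_neg hij]
    simp
  four := fun i j k l hij hik hil hjk hjl hkl => by
    rw [Ew_uw]
    have h1 : F4 (0 : Matrix X X ℝ) b i j k l = 0 := by
      unfold F4
      simp
    rw [h1, mul_zero]
    apply ex_flip i
    intro s
    rw [Function.update_self, Function.update_of_ne (Ne.symm hij),
      Function.update_of_ne (Ne.symm hik), Function.update_of_ne (Ne.symm hil), sg_not]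
    ring

end BMV
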