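import Pool.Agent.BMV.GQH
import Pool.Agent.BMV.GLaw

/-! BMV GB1 (helper94): the quantities of the tilted experiment in terms of the block data: lower bound of `∑ m_A <v_A, a v_A>`.

`Γ = Gw m v`, `N = Gw k z`, `O = off N`, `n = nF η η' ηR N R`, `a = aM n`, `OO = ms m (fun A => ap O (v A))`, `ML = ms m (fun A => ap R (v A))`,
`Bq = Bq Ph N`, `NN = ∑_i Ph_i ra a i`. By `GP`, for each `i` either `Γ_ii ≤ Ph_i`, or the row (and column) `i` of `N` and of `R` vanish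
(`N_ij = ∑ k_A z_A(i) z_A(j)`), and then the row `i` of `n` and of `a` vanish.
`∑_A m_A qd a (v_A) = ∑_{ij} a_ij Γ_ij = ∑_{ij} off(n)_ij Γ_ij + ∑_{ij} (a_ij - off(n)_ij) Γ_ij`.
* `∑_{ij} off(n)_ij Γ_ij = η TQ + η' (∑_A m_A |O v_A|^2 - ∑_i (O^2)_ii Γ_ii) + ηR (∑_A m_A |R v_A|^2 - ∑_i R_ii Γ_ii)`; `(O^2)_ii Γ_ii ≤ Ph_i ∑_l O_il^2`
  (zero on bad `i`) and `Ph_i ≤ max(Ph_i, Ph_l)`, so `∑_i (O^2)_ii Γ_ii ≤ Bq`; `∑_i R_ii Γ_ii ≤ ∑ Ph_i R_ii ≤ ML/2` (`RML`; `R_ii = |R e_i|^2 ≥ 0`).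
* `|Γ_ij| ≤ (Γ_ii + Γ_jj)/2` (`2|v_i v_j| ≤ v_i^2 + v_j^2`), `|a_ij - off(n)_ij| ≤ |off(n)_ij|^3/5 ≤ (D/5) off(n)_ij^2 ≤ (D/5) a_ij^2` (`aM_sub`, `ent_le`, `off_le_aM`), so the
  last sum is `≥ - ∑_{ij} (D/5) a_ij^2 (Γ_ii + Γ_jj)/2 = - (D/5) ∑_i Γ_ii ra a i ≥ - (D/5) NN` (terms with bad `i` or `j` vanish).
The form bounds of `n` (`0 ≤ qd n x ≤ D n2 x`) come from `nF_op`, `nF_psd`/`nF_qd`. `exists_field`: `QH_of` and `GLaw.exists_law`. -/

namespace BMV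

open Finset BMP

variable {α X : Type} [Fintype α] [Fintype X] [DecidableEq X]

/-- the level `D` of the field -/
noncomputable def DF (η η' ηR : ℝ) : ℝ := η * K0 + η' * K0 ^ 2 + ηR

/-- the matrix `a` of the third experiment -/
noncomputable def aF (η η' ηR : ℝ) (k : α → ℝ) (z : α → X → ℝ) (R : Matrix X X ℝ) : Matrix X X ℝ :=
  aM (nF η η' ηR (Gw k z) R)

/-- the matrix `b` of the third experiment -/
noncomputable def bF (η η' ηR : ℝ) (k : α → ℝ) (z : α → X → ℝ) (R : Matrix X X ℝ) : Matrix X X ℝ :=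
  bM (nF η η' ηR (Gw k z) R)

/-- `NN = ∑ Ph_i |a_i|^2` -/
def NNq (Ph : X → ℝ) (a : Matrix X X ℝ) : ℝ := ∑ i, Ph i * ra a i

theorem gb_N0 {k : α → ℝ} (hk : ∀ A, 0 ≤ k A) (z : α → X → ℝ) (x : X → ℝ) : 0 ≤ qd (Gw k z) x := by
  rw [Gw_qd]
  exact Finset.sum_nonneg fun A _ => mul_nonneg (hk A) (sq_nonneg _)

theorem nF_of_BDat {r : α → α → Prop} [DecidableRel r] {θ : ℝ} {m k j : α → ℝ} {v z y : α → X → ℝ}
    {R : Matrix X X ℝ} {Ph : X → ℝ} (hB : BDat r θ m k j v z y R Ph) {η η' ηR : ℝ} (hη : 0 ≤ η) (hη' : 0 ≤ η')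
    (hηR : 0 ≤ ηR) :
    (nF η η' ηR (Gw k z) R).PosSemidef ∧ (∀ i j, nF η η' ηR (Gw k z) R i j = nF η η' ηR (Gw k z) R j i) ∧
    (∀ x, 0 ≤ qd (nF η η' ηR (Gw k z) R) x) ∧ (∀ x, qd (nF η η' ηR (Gw k z) R) x ≤ DF η η' ηR * n2 x) ∧
    (∀ i, nF η η' ηR (Gw k z) R i i ≤ DF η η' ηR) := by
  have hN := Gw_sym k z
  have h0 := gb_N0 hB.k0 z
  have h1 := hB.qN
  have hK := K0_pos.le
  refine ⟨nF_psd hη hη' hηR hN h0 hB.Rs hB.Ri, nF_sym hN hB.Rs, fun x => ?_,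
    nF_op hη hη' hηR hN hK h0 h1 hB.Rs hB.Ri, nF_diag hη hη' hηR hN hK h0 h1 hB.Rs hB.Ri⟩
  rw [nF_qd hN hB.Rs hB.Ri]
  have := gf_n2_nonneg (ap (off (Gw k z)) x)
  have := gf_n2_nonneg (ap R x)
  have := h0 x
  positivity

/-- bad coordinates -/
theorem aF_bad {r : α → α → Prop} [DecidableRel r] {θ : ℝ} {m k j : α → ℝ} {v z y : α → X → ℝ}
    {R : Matrix X X ℝ} {Ph : X → ℝ} (hB : BDat r θ m k j v z y R Ph) {η η' ηR : ℝ} (i : X) :
    Gw m v i i ≤ Ph i ∨ ((∀ l, off (Gw k z) i l = 0) ∧ (∀ l, R i l = 0) ∧ (∀ l, aF η η' ηR k z R i l = 0)) := by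
  rcases hB.GP i with h | ⟨hz, hR⟩
  · exact Or.inl h
  · right
    have hN : ∀ l, Gw k z i l = 0 := fun l => by
      unfold Gw
      exact Finset.sum_eq_zero fun A _ => by rw [hz A]; ring
    have hO : ∀ l, off (Gw k z) i l = 0 := fun l => by
      unfold off
      split_ifs
      · rfl
      · exact hN l
    have hO2 : ∀ l, O2 (Gw k z) i l = 0 := fun l => by
      unfold O2
      exact Finset.sum_eq_zero fun p _ => by rw [hO p, zero_mul]
    refine ⟨hO, hR, fun l => ?_⟩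
    unfold aF aM nF
    split_ifs
    · rfl
    · rw [hN l, hO2 l, hR l]
      simp

/-- there is a law with these matrices -/
theorem exists_field {r : α → α → Prop} [DecidableRel r] {θ : ℝ} {m k j : α → ℝ} {v z y : α → X → ℝ}
    {R : Matrix X X ℝ} {Ph : X → ℝ} (hB : BDat r θ m k j v z y R Ph) {η η' ηR : ℝ} (hη : 0 ≤ η) (hη' : 0 ≤ η')
    (hηR : 0 ≤ ηR) (hD : DF η η' ηR ≤ 1 / 200) : QH (aF η η' ηR k z R) (bF η η' ηR k z R) (2 * DF η η' ηR) ∧
    ∃ w : (X → Bool) → ℝ, Fld w (DF η η' ηR) (aF η η' ηR k z R) (bF η η' ηR k z R) := by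
  obtain ⟨h1, h2, h3, h4, h5⟩ := nF_of_BDat hB hη hη' hηR
  have hK := K0_pos.le
  have hD0 : 0 ≤ DF η η' ηR := by
    unfold DF
    positivity
  exact ⟨QH_of h2 hD0 hD h3 h4, exists_law _ h1 _ h5⟩

theorem gb_sum_qd (m : α → ℝ) (v : α → X → ℝ) (M : Matrix X X ℝ) :
    ∑ A, m A * qd M (v A) = ∑ i, ∑ j, M i j * Gw m v i j := by
  have e : ∀ A, m A * qd M (v A) = ∑ i, ∑ j, M i j * (m A * (v A i * v A j)) := by
    intro A
    unfold qd
    rw [Finset.mul_sum]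
    refine Finset.sum_congr rfl fun i _ => ?_
    rw [Finset.mul_sum]
    exact Finset.sum_congr rfl fun j _ => by ring
  simp only [e]
  rw [Finset.sum_comm]
  refine Finset.sum_congr rfl fun i _ => ?_
  rw [Finset.sum_comm]
  refine Finset.sum_congr rfl fun j _ => ?_
  unfold Gw
  rw [Finset.mul_sum]

theorem gb_Gdiag (m : α → ℝ) (v : α → X → ℝ) (i : X) : Gw m v i i = ∑ A, m A * v A i ^ 2 := by
  unfold Gw
  exact Finset.sum_congr rfl fun A _ => by ring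

theorem gb_Gdiag0 {m : α → ℝ} (hm : ∀ A, 0 ≤ m A) (v : α → X → ℝ) (i : X) : 0 ≤ Gw m v i i := by
  rw [gb_Gdiag]
  exact Finset.sum_nonneg fun A _ => mul_nonneg (hm A) (sq_nonneg _)

theorem gb_Gabs {m : α → ℝ} (hm : ∀ A, 0 ≤ m A) (v : α → X → ℝ) (i j : X) :
    |Gw m v i j| ≤ (Gw m v i i + Gw m v j j) / 2 := by
  rw [gb_Gdiag, gb_Gdiag]
  unfold Gw
  rw [← Finset.sum_add_distrib, Finset.sum_div]
  refine le_trans (Finset.abs_sum_le_sum_abs _ _) (Finset.sum_le_sum fun A _ => ?_)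
  rw [abs_mul, abs_of_nonneg (hm A)]
  have h1 : |v A i * v A j| ≤ (v A i ^ 2 + v A j ^ 2) / 2 := by
    rw [abs_le]
    constructor <;> nlinarith [sq_nonneg (v A i + v A j), sq_nonneg (v A i - v A j)]
  have h2 := mul_le_mul_of_nonneg_left h1 (hm A)
  linarith

theorem gb_sum_diag (m : α → ℝ) (v : α → X → ℝ) (f : X → ℝ) :
    ∑ A, m A * ∑ i, f i * v A i ^ 2 = ∑ i, f i * Gw m v i i := by
  have e : ∀ A, m A * ∑ i, f i * v A i ^ 2 = ∑ i, f i * (m A * v A i ^ 2) := by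
    intro A
    rw [Finset.mul_sum]
    exact Finset.sum_congr rfl fun i _ => by ring
  simp only [e]
  rw [Finset.sum_comm]
  refine Finset.sum_congr rfl fun i _ => ?_
  rw [gb_Gdiag, Finset.mul_sum]

theorem gb_O2_diag (k : α → ℝ) (z : α → X → ℝ) (i : X) :
    O2 (Gw k z) i i = ∑ l, off (Gw k z) i l ^ 2 := by
  unfold O2
  refine Finset.sum_congr rfl fun l _ => ?_
  rw [gf_off_sym (Gw_sym k z) l i]
  ring

/-- `(O^2)_ii Γ_ii ≤ Ph_i ∑_l O_il^2` -/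
theorem gb_O2_le {r : α → α → Prop} [DecidableRel r] {θ : ℝ} {m k j : α → ℝ} {v z y : α → X → ℝ}
    {R : Matrix X X ℝ} {Ph : X → ℝ} (hB : BDat r θ m k j v z y R Ph) :
    ∑ i, O2 (Gw k z) i i * Gw m v i i ≤ Bq Ph (Gw k z) := by
  unfold Bq
  refine Finset.sum_le_sum fun i _ => ?_
  rw [gb_O2_diag, Finset.sum_mul]
  refine Finset.sum_le_sum fun l _ => ?_
  rcases aF_bad (η := 0) (η' := 0) (ηR := 0) hB i with h | ⟨h, _, _⟩
  · have h1 : Gw m v i i ≤ max (Ph i) (Ph l) := le_trans h (le_max_left _ _)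
    rw [mul_comm]
    exact mul_le_mul_of_nonneg_right h1 (sq_nonneg _)
  · rw [h l]
    simp

theorem gb_R0 {r : α → α → Prop} [DecidableRel r] {θ : ℝ} {m k j : α → ℝ} {v z y : α → X → ℝ}
    {R : Matrix X X ℝ} {Ph : X → ℝ} (hB : BDat r θ m k j v z y R Ph) (i : X) : R i i = ∑ l, R i l ^ 2 := by
  rw [← hB.Ri i i]
  refine Finset.sum_congr rfl fun l _ => ?_
  rw [hB.Rs l i]
  ring

theorem gb_R_le {r : α → α → Prop} [DecidableRel r] {θ : ℝ} {m k j : α → ℝ} {v z y : α → X → ℝ}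
    {R : Matrix X X ℝ} {Ph : X → ℝ} (hB : BDat r θ m k j v z y R Ph) :
    ∑ i, R i i * Gw m v i i ≤ 1 / 2 * ms m (fun A => ap R (v A)) := by
  refine le_trans (Finset.sum_le_sum fun i _ => ?_) hB.RML
  have h0 : 0 ≤ R i i := by
    rw [gb_R0 hB]
    exact Finset.sum_nonneg fun _ _ => sq_nonneg _
  rcases aF_bad (η := 0) (η' := 0) (ηR := 0) hB i with h | ⟨_, h, _⟩
  · rw [mul_comm]
    exact mul_le_mul_of_nonneg_right h h0
  · rw [h i]
    simp

/-- `∑ Γ_ii |a_i|^2 ≤ NN` -/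
theorem gb_ra_le {r : α → α → Prop} [DecidableRel r] {θ : ℝ} {m k j : α → ℝ} {v z y : α → X → ℝ}
    {R : Matrix X X ℝ} {Ph : X → ℝ} (hB : BDat r θ m k j v z y R Ph) {η η' ηR : ℝ} :
    ∑ i, ra (aF η η' ηR k z R) i * Gw m v i i ≤ NNq Ph (aF η η' ηR k z R) := by
  unfold NNq
  refine Finset.sum_le_sum fun i _ => ?_
  rcases aF_bad (η := η) (η' := η') (ηR := ηR) hB i with h | ⟨_, _, h⟩
  · rw [mul_comm]
    exact mul_le_mul_of_nonneg_right h (Finset.sum_nonneg fun _ _ => sq_nonneg _)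
  · have e : ra (aF η η' ηR k z R) i = 0 := by
      unfold ra
      exact Finset.sum_eq_zero fun l _ => by rw [h l]; ring
    rw [e]
    simp

theorem B1 {r : α → α → Prop} [DecidableRel r] {θ : ℝ} {m k j : α → ℝ} {v z y : α → X → ℝ}
    {R : Matrix X X ℝ} {Ph : X → ℝ} (hB : BDat r θ m k j v z y R Ph) {η η' ηR : ℝ} (hη : 0 ≤ η) (hη' : 0 ≤ η')
    (hηR : 0 ≤ ηR) (hD : DF η η' ηR ≤ 1 / 200) :
    η * TQ m k v z + η' * (ms m (fun A => ap (off (Gw k z)) (v A)) - Bq Ph (Gw k z))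
      + ηR / 2 * ms m (fun A => ap R (v A)) - DF η η' ηR / 5 * NNq Ph (aF η η' ηR k z R)
      ≤ ∑ A, m A * qd (aF η η' ηR k z R) (v A) := by
  obtain ⟨_, h2, h3, h4, _⟩ := nF_of_BDat hB hη hη' hηR
  have hK := K0_pos.le
  have hD0 : 0 ≤ DF η η' ηR := by
    unfold DF
    positivity
  set n := nF η η' ηR (Gw k z) R with hn
  set a := aF η η' ηR k z R with ha
  have haM : a = aM n := rfl
  -- the linear part
  have e1 : ∑ A, m A * qd (off n) (v A) = η * (∑ A, m A * qd (off (Gw k z)) (v A))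
      + η' * (ms m (fun A => ap (off (Gw k z)) (v A)) - ∑ i, O2 (Gw k z) i i * Gw m v i i)
      + ηR * (ms m (fun A => ap R (v A)) - ∑ i, R i i * Gw m v i i) := by
    rw [← gb_sum_diag m v (fun i => O2 (Gw k z) i i), ← gb_sum_diag m v (fun i => R i i)]
    unfold ms
    rw [← Finset.sum_sub_distrib, ← Finset.sum_sub_distrib, Finset.mul_sum, Finset.mul_sum,
      Finset.mul_sum, ← Finset.sum_add_distrib, ← Finset.sum_add_distrib]
    refine Finset.sum_congr rfl fun A _ => ?_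
    rw [gf_qd_off, gf_qd_off, hn, nF_qd (Gw_sym k z) hB.Rs hB.Ri]
    have e2 : ∑ i, nF η η' ηR (Gw k z) R i i * v A i ^ 2 = η * ∑ i, Gw k z i i * v A i ^ 2
        + η' * ∑ i, O2 (Gw k z) i i * v A i ^ 2 + ηR * ∑ i, R i i * v A i ^ 2 := by
      rw [Finset.mul_sum, Finset.mul_sum, Finset.mul_sum, ← Finset.sum_add_distrib,
        ← Finset.sum_add_distrib]
      refine Finset.sum_congr rfl fun i _ => ?_
      unfold nF
      ring
    rw [e2]
    ring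
  have e3 : ∑ A, m A * qd (off (Gw k z)) (v A) = TQ m k v z := by
    rw [gb_sum_qd]
    rfl
  -- the rest
  have e4 : ∑ A, m A * qd a (v A) = ∑ A, m A * qd (off n) (v A) + ∑ i, ∑ j, (a i j - off n i j) * Gw m v i j := by
    rw [gb_sum_qd, gb_sum_qd, ← Finset.sum_add_distrib]
    refine Finset.sum_congr rfl fun i _ => ?_
    rw [← Finset.sum_add_distrib]
    exact Finset.sum_congr rfl fun j _ => by ring
  have e5 : |∑ i, ∑ j, (a i j - off n i j) * Gw m v i j| ≤ DF η η' ηR / 5 * ∑ i, ra a i * Gw m v i i := by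
    have h5 : ∀ i j, |(a i j - off n i j) * Gw m v i j| ≤
        DF η η' ηR / 5 / 2 * (a i j ^ 2 * Gw m v i i) + DF η η' ηR / 5 / 2 * (a i j ^ 2 * Gw m v j j) := by
      intro i j
      rw [abs_mul]
      have h6 : |a i j - off n i j| ≤ DF η η' ηR / 5 * a i j ^ 2 := by
        rw [haM]
        refine le_trans (gq_sub_le h2 hD0 hD h3 h4 i j) ?_
        refine mul_le_mul_of_nonneg_left ?_ (by positivity)
        have h7 := pow_le_pow_left₀ (abs_nonneg _) (off_le_aM n i j) 2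
        rwa [sq_abs, sq_abs] at h7
      have h8 := mul_le_mul h6 (gb_Gabs hB.m0 v i j) (abs_nonneg _) (by positivity)
      refine le_trans h8 (le_of_eq ?_)
      ring
    have h9 : ∑ i, ∑ j, (DF η η' ηR / 5 / 2 * (a i j ^ 2 * Gw m v i i) + DF η η' ηR / 5 / 2 * (a i j ^ 2 * Gw m v j j))
        = DF η η' ηR / 5 * ∑ i, ra a i * Gw m v i i := by
      have h10 : ∑ i, ∑ j, DF η η' ηR / 5 / 2 * (a i j ^ 2 * Gw m v i i) =
          DF η η' ηR / 5 / 2 * ∑ i, ra a i * Gw m v i i := by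
        rw [Finset.mul_sum]
        refine Finset.sum_congr rfl fun i _ => ?_
        unfold ra
        rw [Finset.sum_mul, Finset.mul_sum]
      have h11 : ∑ i, ∑ j, DF η η' ηR / 5 / 2 * (a i j ^ 2 * Gw m v j j) =
          DF η η' ηR / 5 / 2 * ∑ i, ra a i * Gw m v i i := by
        rw [Finset.sum_comm, Finset.mul_sum]
        refine Finset.sum_congr rfl fun i _ => ?_
        unfold ra
        rw [Finset.sum_mul, Finset.mul_sum]
        refine Finset.sum_congr rfl fun j _ => ?_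
        rw [haM, gq_aM_sym h2 j i]
      simp only [Finset.sum_add_distrib]
      rw [h10, h11]
      ring
    rw [← h9]
    refine le_trans (Finset.abs_sum_le_sum_abs _ _) (Finset.sum_le_sum fun i _ => ?_)
    exact le_trans (Finset.abs_sum_le_sum_abs _ _) (Finset.sum_le_sum fun j _ => h5 i j)
  have h12 := (abs_le.1 e5).1
  have h13 := mul_le_mul_of_nonneg_left (gb_ra_le (η := η) (η' := η') (ηR := ηR) hB)
    (by positivity : 0 ≤ DF η η' ηR / 5)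
  have h14 := mul_le_mul_of_nonneg_left (gb_O2_le hB) hη'
  have h15 := mul_le_mul_of_nonneg_left (gb_R_le hB) hηR
  rw [e4, e1, e3]
  rw [← ha] at h13
  linarith

end BMV
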