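import Pool.Agent.BMV.GB1

/-! BMV GB2 (helper94): the quantities of the tilted experiment in terms of the block data: upper bounds of `AA` and `NN`.

Notation of GB1: `O = off N`, `n = nF ..`, `a = aM n`, `K = K0`, `D = DF ..`.
`off n = η O + η' off(O^2) + ηR off(R)`, `|a_ij| ≤ (101/100)|off(n)_ij|` (`aM_le_off`), `|a - off n|_ij ≤ |off(n)_ij|^3/5` (`aM_sub`).

B3: `ra a i ≤ (101/100)^2 ∑_j off(n)_ij^2 ≤ (101/100)^2 * 3 (η^2 ∑_j O_ij^2 + η'^2 ∑_j (O^2)_ij^2 + ηR^2 ∑_j R_ij^2)`, and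
`∑_i Ph_i ∑_j O_ij^2 ≤ Bq`; `∑_j (O^2)_ij^2 = |O (O e_i)|^2 ≤ K^2 |O e_i|^2` (`offN_op`), so `∑_i Ph_i ∑_j (O^2)_ij^2 ≤ K^2 Bq`; `∑_j R_ij^2 = R_ii`, `RML`.

B2: `|a v|^2 ≤ 2 |off(n) v|^2 + 2 |(a - off n) v|^2`, `|off(n) v|^2 ≤ 3 (η^2 |Ov|^2 + η'^2 |off(O^2) v|^2 + ηR^2 |off(R) v|^2)`.
* `|off(O^2)v|^2 ≤ 2 |O^2 v|^2 + 2 ∑_i (O^2)_ii^2 v_i^2 ≤ 2 K^2 |Ov|^2 + 2 K^2 ∑_i (O^2)_ii v_i^2` (`(O^2)_ii = |O e_i|^2 ≤ K^2`); summed with the weights `m_A`: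
  `2 K^2 OO + 2 K^2 ∑_i (O^2)_ii Γ_ii ≤ 2 K^2 OO + 2 K^2 Bq` (`(O^2)_ii Γ_ii ≤ Ph_i ∑_l O_il^2`, zero on bad `i`, `aF_bad`).
* `|off(R)v|^2 ≤ 2 |Rv|^2 + 2 ∑_i R_ii^2 v_i^2`, `0 ≤ R_ii ≤ 1`: summed `≤ 2 ML + 2 ∑ Ph_i R_ii ≤ 3 ML`.
* `|(a - off n) v|^2 ≤ ∑_i (∑_j |off(n)_ij|^3/5 |v_j|)^2 ≤ (1/25) ∑_i (∑_j off(n)_ij^2)(∑_j off(n)_ij^4 v_j^2) ≤ (D^4/25) ∑_j (∑_i off(n)_ij^2) v_j^2` (`row_le`, `ent_le`); summed
  `≤ (D^4/25) ∑_j Γ_jj ra a j ≤ (D^4/25) NN ≤ NN/2`. -/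

namespace BMV

open Finset BMP

variable {α X : Type} [Fintype α] [Fintype X] [DecidableEq X]

theorem gc_Bq_ge {k : α → ℝ} {z : α → X → ℝ} {Ph : X → ℝ} :
    ∑ i, Ph i * ∑ l, off (Gw k z) i l ^ 2 ≤ Bq Ph (Gw k z) := by
  unfold Bq
  refine Finset.sum_le_sum fun i _ => ?_
  rw [Finset.mul_sum]
  exact Finset.sum_le_sum fun l _ => mul_le_mul_of_nonneg_right (le_max_left _ _) (sq_nonneg _)

/-- rows of `O^2` -/
theorem gc_O2_row {r : α → α → Prop} [DecidableRel r] {θ : ℝ} {m k j : α → ℝ} {v z y : α → X → ℝ}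
    {R : Matrix X X ℝ} {Ph : X → ℝ} (hB : BDat r θ m k j v z y R Ph) (i : X) :
    ∑ l, O2 (Gw k z) i l ^ 2 ≤ K0 ^ 2 * ∑ l, off (Gw k z) i l ^ 2 := by
  have h := offN_op (Gw_sym k z) K0_pos.le (gb_N0 hB.k0 z) hB.qN (fun l => off (Gw k z) i l)
  unfold n2 at h
  refine le_trans (le_of_eq ?_) h
  refine Finset.sum_congr rfl fun l _ => ?_
  congr 1
  unfold O2 ap
  refine Finset.sum_congr rfl fun p _ => ?_
  rw [gf_off_sym (Gw_sym k z) p l]
  ring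

theorem gc_off_sq (n : Matrix X X ℝ) (i j : X) : off n i j ^ 2 ≤ n i j ^ 2 := by
  unfold off
  split_ifs
  · have := sq_nonneg (n i j)
    simpa using this
  · exact le_rfl

theorem gc_off_nF (η η' ηR : ℝ) (N R : Matrix X X ℝ) (i j : X) :
    off (nF η η' ηR N R) i j = η * off N i j + η' * off (O2 N) i j + ηR * off R i j := by
  unfold off nF
  split_ifs
  · ring
  · rfl

theorem gc_sq3 (x y z : ℝ) : (x + y + z) ^ 2 ≤ 3 * (x ^ 2 + y ^ 2 + z ^ 2) := by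
  nlinarith [sq_nonneg (x - y), sq_nonneg (y - z), sq_nonneg (x - z)]

theorem B3 {r : α → α → Prop} [DecidableRel r] {θ : ℝ} {m k j : α → ℝ} {v z y : α → X → ℝ}
    {R : Matrix X X ℝ} {Ph : X → ℝ} (hB : BDat r θ m k j v z y R Ph) {η η' ηR : ℝ} (hη : 0 ≤ η) (hη' : 0 ≤ η')
    (hηR : 0 ≤ ηR) (hD : DF η η' ηR ≤ 1 / 200) :
    NNq Ph (aF η η' ηR k z R) ≤ 4 * ((η ^ 2 + η' ^ 2 * K0 ^ 2) * Bq Ph (Gw k z)
      + ηR ^ 2 / 2 * ms m (fun A => ap R (v A))) := by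
  obtain ⟨_, h2, h3, h4, _⟩ := nF_of_BDat hB hη hη' hηR
  have h5 : ∀ i, ra (aF η η' ηR k z R) i ≤ 4 * (η ^ 2 * ∑ l, off (Gw k z) i l ^ 2
      + η' ^ 2 * (K0 ^ 2 * ∑ l, off (Gw k z) i l ^ 2) + ηR ^ 2 * R i i) := by
    intro i
    have h6 : ra (aF η η' ηR k z R) i ≤ ∑ l, 4 * (η ^ 2 * off (Gw k z) i l ^ 2
        + η' ^ 2 * O2 (Gw k z) i l ^ 2 + ηR ^ 2 * R i l ^ 2) := by
      unfold ra
      refine Finset.sum_le_sum fun l _ => ?_
      have h7 := aM_le_off h2 hD h3 h4 i l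
      have h8 := pow_le_pow_left₀ (abs_nonneg _) h7 2
      rw [mul_pow, sq_abs, sq_abs, gc_off_nF] at h8
      have h9 := gc_sq3 (η * off (Gw k z) i l) (η' * off (O2 (Gw k z)) i l) (ηR * off R i l)
      have h10 := mul_le_mul_of_nonneg_left (gc_off_sq (O2 (Gw k z)) i l) (sq_nonneg η')
      have h11 := mul_le_mul_of_nonneg_left (gc_off_sq R i l) (sq_nonneg ηR)
      have h12 : 0 ≤ η ^ 2 * off (Gw k z) i l ^ 2 := by positivity
      have h13 : 0 ≤ η' ^ 2 * O2 (Gw k z) i l ^ 2 := by positivity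
      have h14 : 0 ≤ ηR ^ 2 * R i l ^ 2 := by positivity
      have h15 : aF η η' ηR k z R i l ^ 2 = aM (nF η η' ηR (Gw k z) R) i l ^ 2 := rfl
      rw [h15]
      rw [mul_pow, mul_pow, mul_pow] at h9
      linarith
    refine le_trans h6 ?_
    rw [← Finset.mul_sum]
    refine mul_le_mul_of_nonneg_left ?_ (by norm_num)
    rw [Finset.sum_add_distrib, Finset.sum_add_distrib, ← Finset.mul_sum, ← Finset.mul_sum, ← Finset.mul_sum,
      ← gb_R0 hB]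
    have h16 := mul_le_mul_of_nonneg_left (gc_O2_row hB i) (sq_nonneg η')
    linarith
  have h6 : NNq Ph (aF η η' ηR k z R) ≤ ∑ i, Ph i * (4 * (η ^ 2 * ∑ l, off (Gw k z) i l ^ 2
      + η' ^ 2 * (K0 ^ 2 * ∑ l, off (Gw k z) i l ^ 2) + ηR ^ 2 * R i i)) := by
    unfold NNq
    exact Finset.sum_le_sum fun i _ => mul_le_mul_of_nonneg_left (h5 i) (hB.Ph0 i).le
  have h7 : ∑ i, Ph i * (4 * (η ^ 2 * ∑ l, off (Gw k z) i l ^ 2
      + η' ^ 2 * (K0 ^ 2 * ∑ l, off (Gw k z) i l ^ 2) + ηR ^ 2 * R i i)) =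
      4 * ((η ^ 2 + η' ^ 2 * K0 ^ 2) * ∑ i, Ph i * ∑ l, off (Gw k z) i l ^ 2 + ηR ^ 2 * ∑ i, Ph i * R i i) := by
    rw [Finset.mul_sum, Finset.mul_sum, ← Finset.sum_add_distrib, Finset.mul_sum]
    exact Finset.sum_congr rfl fun i _ => by ring
  rw [h7] at h6
  have h8 := mul_le_mul_of_nonneg_left (gc_Bq_ge (k := k) (z := z) (Ph := Ph))
    (by positivity : 0 ≤ η ^ 2 + η' ^ 2 * K0 ^ 2)
  have h9 := mul_le_mul_of_nonneg_left hB.RML (sq_nonneg ηR)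
  linarith

theorem gc_ap_off_n2 (M : Matrix X X ℝ) (x : X → ℝ) :
    n2 (ap (off M) x) ≤ 2 * n2 (ap M x) + 2 * ∑ i, M i i ^ 2 * x i ^ 2 := by
  unfold n2
  rw [Finset.mul_sum, Finset.mul_sum, ← Finset.sum_add_distrib]
  refine Finset.sum_le_sum fun i _ => ?_
  have e : ap (off M) x i = ap M x i - M i i * x i := by
    unfold ap
    have e1 : M i i * x i = ∑ j, if i = j then M i j * x j else 0 := by
      rw [Finset.sum_ite_eq, if_pos (Finset.mem_univ i)]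
    rw [e1, ← Finset.sum_sub_distrib]
    refine Finset.sum_congr rfl fun j _ => ?_
    unfold off
    split_ifs
    · ring
    · ring
  rw [e]
  nlinarith [sq_nonneg (ap M x i + M i i * x i)]

theorem gc_ap_O2 (N : Matrix X X ℝ) (x : X → ℝ) : ap (O2 N) x = ap (off N) (ap (off N) x) := by
  funext i
  rw [gf_ap_ap]
  rfl

/-- one vector: the linear part -/
theorem gc_lin {r : α → α → Prop} [DecidableRel r] {θ : ℝ} {m k j : α → ℝ} {v z y : α → X → ℝ}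
    {R : Matrix X X ℝ} {Ph : X → ℝ} (hB : BDat r θ m k j v z y R Ph) (η η' ηR : ℝ) (x : X → ℝ) :
    n2 (ap (off (nF η η' ηR (Gw k z) R)) x) ≤ 3 * (η ^ 2 * n2 (ap (off (Gw k z)) x)
      + η' ^ 2 * (2 * K0 ^ 2 * n2 (ap (off (Gw k z)) x) + 2 * K0 ^ 2 * ∑ i, O2 (Gw k z) i i * x i ^ 2)
      + ηR ^ 2 * (2 * n2 (ap R x) + 2 * ∑ i, R i i * x i ^ 2)) := by
  have hN := Gw_sym k z
  have hop := offN_op hN K0_pos.le (gb_N0 hB.k0 z) hB.qN
  have h1 : n2 (ap (off (nF η η' ηR (Gw k z) R)) x) ≤ 3 * (η ^ 2 * n2 (ap (off (Gw k z)) x)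
      + η' ^ 2 * n2 (ap (off (O2 (Gw k z))) x) + ηR ^ 2 * n2 (ap (off R) x)) := by
    unfold n2
    rw [Finset.mul_sum, Finset.mul_sum, Finset.mul_sum, ← Finset.sum_add_distrib, ← Finset.sum_add_distrib,
      Finset.mul_sum]
    refine Finset.sum_le_sum fun i _ => ?_
    have e : ap (off (nF η η' ηR (Gw k z) R)) x i = η * ap (off (Gw k z)) x i
        + η' * ap (off (O2 (Gw k z))) x i + ηR * ap (off R) x i := by
      unfold ap
      rw [Finset.mul_sum, Finset.mul_sum, Finset.mul_sum, ← Finset.sum_add_distrib, ← Finset.sum_add_distrib]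
      refine Finset.sum_congr rfl fun j _ => ?_
      rw [gc_off_nF]
      ring
    rw [e, ← mul_pow, ← mul_pow, ← mul_pow]
    exact gc_sq3 _ _ _
  have h2 : n2 (ap (off (O2 (Gw k z))) x) ≤ 2 * K0 ^ 2 * n2 (ap (off (Gw k z)) x)
      + 2 * K0 ^ 2 * ∑ i, O2 (Gw k z) i i * x i ^ 2 := by
    refine le_trans (gc_ap_off_n2 _ x) ?_
    rw [gc_ap_O2]
    have h3 := hop (ap (off (Gw k z)) x)
    have h4 : ∑ i, O2 (Gw k z) i i ^ 2 * x i ^ 2 ≤ K0 ^ 2 * ∑ i, O2 (Gw k z) i i * x i ^ 2 := by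
      rw [Finset.mul_sum]
      refine Finset.sum_le_sum fun i _ => ?_
      have h5 : O2 (Gw k z) i i ≤ K0 ^ 2 := by
        have h6 := hop (Pi.single i 1)
        rw [gf_n2_single, mul_one] at h6
        refine le_trans (le_of_eq ?_) h6
        rw [gb_O2_diag]
        unfold n2
        refine Finset.sum_congr rfl fun l _ => ?_
        rw [gq_ap_single, gf_off_sym hN l i]
      have h7 : 0 ≤ O2 (Gw k z) i i := by
        rw [gb_O2_diag]
        exact Finset.sum_nonneg fun _ _ => sq_nonneg _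
      have h8 := mul_le_mul_of_nonneg_right h5 (mul_nonneg h7 (sq_nonneg (x i)))
      nlinarith
    linarith
  have h3 : n2 (ap (off R) x) ≤ 2 * n2 (ap R x) + 2 * ∑ i, R i i * x i ^ 2 := by
    refine le_trans (gc_ap_off_n2 _ x) ?_
    have h4 : ∑ i, R i i ^ 2 * x i ^ 2 ≤ ∑ i, R i i * x i ^ 2 := by
      refine Finset.sum_le_sum fun i _ => mul_le_mul_of_nonneg_right ?_ (sq_nonneg _)
      rw [gb_R0 hB i]
      rw [← gb_R0 hB i]
      conv_rhs => rw [gb_R0 hB i]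
      exact Finset.single_le_sum (f := fun l => R i l ^ 2) (fun _ _ => sq_nonneg _) (Finset.mem_univ i)
    linarith
  have h4 := mul_le_mul_of_nonneg_left h2 (sq_nonneg η')
  have h5 := mul_le_mul_of_nonneg_left h3 (sq_nonneg ηR)
  linarith

/-- one vector: the nonlinear part -/
theorem gc_non {n : Matrix X X ℝ} (hn : ∀ i j, n i j = n j i) {D : ℝ} (hD0 : 0 ≤ D) (hD : D ≤ 1 / 200)
    (h0 : ∀ x, 0 ≤ qd n x) (h1 : ∀ x, qd n x ≤ D * n2 x) (x : X → ℝ) :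
    2 * n2 (ap (fun i j => aM n i j - off n i j) x) ≤ ∑ i, ra (aM n) i * x i ^ 2 := by
  have h2 : ∀ i, ap (fun i j => aM n i j - off n i j) x i ^ 2 ≤
      D ^ 3 / 5 * ∑ j, D / 5 * aM n i j ^ 2 * x j ^ 2 := by
    intro i
    have h3 : (∑ j, (aM n i j - off n i j) * x j) ^ 2 ≤
        (∑ j, |aM n i j - off n i j|) * ∑ j, |aM n i j - off n i j| * x j ^ 2 := by
      refine Finset.sum_sq_le_sum_mul_sum_of_sq_le_mul _ (fun j _ => abs_nonneg _)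
        (fun j _ => mul_nonneg (abs_nonneg _) (sq_nonneg _)) fun j _ => ?_
      rw [mul_pow, ← sq_abs (aM n i j - off n i j)]
      refine le_of_eq ?_
      ring
    have h4 : ∑ j, |aM n i j - off n i j| ≤ D ^ 3 / 5 := by
      have h5 := Finset.sum_le_sum fun j (_ : j ∈ Finset.univ) => gq_sub_le hn hD0 hD h0 h1 i j
      rw [← Finset.mul_sum] at h5
      have h6 := mul_le_mul_of_nonneg_left (gq_row_off hn hD0 h0 h1 i) (by positivity : 0 ≤ D / 5)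
      have h7 : D / 5 * D ^ 2 = D ^ 3 / 5 := by ring
      rw [h7] at h6
      exact le_trans h5 h6
    have h8 : ∑ j, |aM n i j - off n i j| * x j ^ 2 ≤ ∑ j, D / 5 * aM n i j ^ 2 * x j ^ 2 := by
      refine Finset.sum_le_sum fun j _ => mul_le_mul_of_nonneg_right ?_ (sq_nonneg _)
      refine le_trans (gq_sub_le hn hD0 hD h0 h1 i j) ?_
      refine mul_le_mul_of_nonneg_left ?_ (by positivity)
      have h7 := pow_le_pow_left₀ (abs_nonneg _) (off_le_aM n i j) 2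
      rwa [sq_abs, sq_abs] at h7
    refine le_trans h3 (mul_le_mul h4 h8 ?_ (by positivity))
    exact Finset.sum_nonneg fun j _ => mul_nonneg (abs_nonneg _) (sq_nonneg _)
  have h3 : n2 (ap (fun i j => aM n i j - off n i j) x) ≤
      D ^ 3 / 5 * (D / 5 * ∑ i, ra (aM n) i * x i ^ 2) := by
    have e : D ^ 3 / 5 * (D / 5 * ∑ i, ra (aM n) i * x i ^ 2) =
        ∑ i, D ^ 3 / 5 * ∑ j, D / 5 * aM n i j ^ 2 * x j ^ 2 := by
      rw [← Finset.mul_sum, Finset.sum_comm]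
      congr 1
      rw [Finset.mul_sum]
      refine Finset.sum_congr rfl fun i _ => ?_
      unfold ra
      rw [Finset.sum_mul, Finset.mul_sum]
      refine Finset.sum_congr rfl fun j _ => ?_
      rw [gq_aM_sym hn j i]
      ring
    rw [e]
    unfold n2
    exact Finset.sum_le_sum fun i _ => h2 i
  have h4 : 0 ≤ ∑ i, ra (aM n) i * x i ^ 2 :=
    Finset.sum_nonneg fun i _ => mul_nonneg (Finset.sum_nonneg fun _ _ => sq_nonneg _) (sq_nonneg _)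
  have h5 : D ^ 3 / 5 * (D / 5) ≤ 1 / 2 := by
    have h6 : D ^ 3 ≤ 1 := pow_le_one₀ hD0 (by linarith)
    have h7 : 0 ≤ D ^ 3 := by positivity
    nlinarith
  nlinarith [mul_le_mul_of_nonneg_right h5 h4]

theorem B2 {r : α → α → Prop} [DecidableRel r] {θ : ℝ} {m k j : α → ℝ} {v z y : α → X → ℝ}
    {R : Matrix X X ℝ} {Ph : X → ℝ} (hB : BDat r θ m k j v z y R Ph) {η η' ηR : ℝ} (hη : 0 ≤ η) (hη' : 0 ≤ η')
    (hηR : 0 ≤ ηR) (hD : DF η η' ηR ≤ 1 / 200) :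
    ms m (fun A => ap (aF η η' ηR k z R) (v A)) ≤
      6 * (η ^ 2 + 2 * η' ^ 2 * K0 ^ 2) * ms m (fun A => ap (off (Gw k z)) (v A))
      + 12 * η' ^ 2 * K0 ^ 2 * Bq Ph (Gw k z) + 18 * ηR ^ 2 * ms m (fun A => ap R (v A))
      + NNq Ph (aF η η' ηR k z R) := by
  obtain ⟨_, h2, h3, h4, _⟩ := nF_of_BDat hB hη hη' hηR
  have hK := K0_pos.le
  have hD0 : 0 ≤ DF η η' ηR := by
    unfold DF
    positivity
  have h5 : ∀ A, n2 (ap (aF η η' ηR k z R) (v A)) ≤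
      6 * (η ^ 2 * n2 (ap (off (Gw k z)) (v A))
      + η' ^ 2 * (2 * K0 ^ 2 * n2 (ap (off (Gw k z)) (v A)) + 2 * K0 ^ 2 * ∑ i, O2 (Gw k z) i i * v A i ^ 2)
      + ηR ^ 2 * (2 * n2 (ap R (v A)) + 2 * ∑ i, R i i * v A i ^ 2))
      + ∑ i, ra (aF η η' ηR k z R) i * v A i ^ 2 := by
    intro A
    have h6 := gc_lin hB η η' ηR (v A)
    have h7 := gc_non h2 hD0 hD h3 h4 (v A)
    have h8 : n2 (ap (aF η η' ηR k z R) (v A)) ≤ 2 * n2 (ap (off (nF η η' ηR (Gw k z) R)) (v A))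
        + 2 * n2 (ap (fun i j => aM (nF η η' ηR (Gw k z) R) i j - off (nF η η' ηR (Gw k z) R) i j) (v A)) := by
      unfold n2
      rw [Finset.mul_sum, Finset.mul_sum, ← Finset.sum_add_distrib]
      refine Finset.sum_le_sum fun i _ => ?_
      have e : ap (aF η η' ηR k z R) (v A) i = ap (off (nF η η' ηR (Gw k z) R)) (v A) i
          + ap (fun i j => aM (nF η η' ηR (Gw k z) R) i j - off (nF η η' ηR (Gw k z) R) i j) (v A) i := by
        unfold ap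
        rw [← Finset.sum_add_distrib]
        refine Finset.sum_congr rfl fun j _ => ?_
        unfold aF
        ring
      rw [e]
      nlinarith [sq_nonneg (ap (off (nF η η' ηR (Gw k z) R)) (v A) i
          - ap (fun i j => aM (nF η η' ηR (Gw k z) R) i j - off (nF η η' ηR (Gw k z) R) i j) (v A) i)]
    have h9 : ∑ i, ra (aM (nF η η' ηR (Gw k z) R)) i * v A i ^ 2 = ∑ i, ra (aF η η' ηR k z R) i * v A i ^ 2 := rfl
    rw [h9] at h7
    linarith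
  have h6 : ms m (fun A => ap (aF η η' ηR k z R) (v A)) ≤
      ∑ A, (6 * (η ^ 2 + 2 * η' ^ 2 * K0 ^ 2) * (m A * n2 (ap (off (Gw k z)) (v A)))
      + 12 * η' ^ 2 * K0 ^ 2 * (m A * ∑ i, O2 (Gw k z) i i * v A i ^ 2)
      + 12 * ηR ^ 2 * (m A * n2 (ap R (v A))) + 12 * ηR ^ 2 * (m A * ∑ i, R i i * v A i ^ 2)
      + m A * ∑ i, ra (aF η η' ηR k z R) i * v A i ^ 2) := by
    unfold ms
    refine Finset.sum_le_sum fun A _ => ?_
    refine le_trans (mul_le_mul_of_nonneg_left (h5 A) (hB.m0 A)) (le_of_eq ?_)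
    ring
  simp only [Finset.sum_add_distrib, ← Finset.mul_sum] at h6
  rw [gb_sum_diag m v (fun i => O2 (Gw k z) i i), gb_sum_diag m v (fun i => R i i),
    gb_sum_diag m v (fun i => ra (aF η η' ηR k z R) i)] at h6
  have h7 : ∑ A, m A * n2 (ap (off (Gw k z)) (v A)) = ms m (fun A => ap (off (Gw k z)) (v A)) := rfl
  have h8 : ∑ A, m A * n2 (ap R (v A)) = ms m (fun A => ap R (v A)) := rfl
  rw [h7, h8] at h6
  have h9 := mul_le_mul_of_nonneg_left (gb_O2_le hB) (by positivity : 0 ≤ 12 * η' ^ 2 * K0 ^ 2)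
  have h10 := mul_le_mul_of_nonneg_left (gb_R_le hB) (by positivity : 0 ≤ 12 * ηR ^ 2)
  have h11 := gb_ra_le (η := η) (η' := η') (ηR := ηR) hB
  linarith

/-- the sum of the functionals `Zq` -/
theorem sum_Zq {r : α → α → Prop} [DecidableRel r] {θ : ℝ} {m k j : α → ℝ} {v z y : α → X → ℝ}
    {R : Matrix X X ℝ} {Ph : X → ℝ} (hB : BDat r θ m k j v z y R Ph) {η η' ηR : ℝ} :
    ∑ A, m A * Zq (aF η η' ηR k z R) (v A) ≤
      ms m (fun A => ap (aF η η' ηR k z R) (v A)) + NNq Ph (aF η η' ηR k z R) := by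
  have h11 := gb_ra_le (η := η) (η' := η') (ηR := ηR) hB
  have e : ∑ A, m A * Zq (aF η η' ηR k z R) (v A) = ms m (fun A => ap (aF η η' ηR k z R) (v A))
      + ∑ i, ra (aF η η' ηR k z R) i * Gw m v i i := by
    rw [← gb_sum_diag m v (fun i => ra (aF η η' ηR k z R) i)]
    unfold ms Zq
    rw [← Finset.sum_add_distrib]
    exact Finset.sum_congr rfl fun A _ => by ring
  rw [e]
  linarith

end BMV
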