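import Pool.Agent.BMV.GMom

/-! BMV GCov (section 4, helper94): the exact covariance formula.

`qx M s = tr M + ∑_{i ≠ j} M_ij x_i x_j`, `(dt v s)^2 = ∑_{kl} v_k v_l x_k x_l`, `s_ij = e^(-D) a_ij`. Hence the left side is
`∑_{i≠j} O_ij [ Ew(x_i x_j (dt v)^2) - s_ij Ew((dt v)^2) ]`, `O = off M` (the trace part cancels because `∑ w = 1`).
`Ew((dt v)^2) = n2 v + ∑_{kl} v_k v_l s_kl` (`s` has zero diagonal).
Summing `mom4` against `v_k v_l`: for `i ≠ j`
`Ew(x_i x_j (dt v)^2) = s_ij n2 v + 2 v_i v_j + 2 v_i ((sv)_j - v_i s_ij) + 2 v_j ((sv)_i - v_j s_ij) + e^(-D)^2 ∑_{kl} v_k v_l F4`.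
So the bracket is `2 v_i v_j + 2 v_i (sv)_j + 2 v_j (sv)_i - 2 s_ij (v_i^2 + v_j^2) + [e^(-D)^2 ∑ v_k v_l F4 - s_ij ∑ v_k v_l s_kl]`, and
`s_ij s_kl = e^(-D)^2 a_ij a_kl`. Multiply by `O_ij` (symmetric, zero diagonal) and sum:
`∑ O_ij v_i (sv)_j = ∑_j (Ov)_j (sv)_j`, `∑ O_ij s_ij v_i^2 = ∑_i v_i^2 ∑_j O_ij s_ij`. -/

namespace BMV

open Finset BMP

variable {X : Type} [Fintype X] [DecidableEq X]

private lemma E2_99 {a b : Matrix X X ℝ} (ha : ∀ i, a i i = 0) {D : ℝ} {w : (X → Bool) → ℝ}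
    (hw : Fld w D a b) (k l : X) :
    Ew w (fun s => sg (s k) * sg (s l)) = (if k = l then 1 else 0) + Real.exp (-D) * a k l := by
  by_cases h : k = l
  · subst h
    rw [if_pos rfl, ha, mul_zero, add_zero]
    have e : (fun s : X → Bool => sg (s k) * sg (s k)) = fun _ => (1 : ℝ) := by
      funext s
      exact sg_mul_self _
    rw [e]
    exact Ew_const w hw.w1 1
  · rw [if_neg h, zero_add]
    exact hw.two k l h

private lemma dt_sq99 (v : X → ℝ) (s : X → Bool) :
    dt v s ^ 2 = ∑ k, ∑ l, v k * v l * (sg (s k) * sg (s l)) := by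
  unfold dt
  rw [sq, sum_mul_sum]
  exact sum_congr rfl fun k _ => sum_congr rfl fun l _ => by ring

private lemma S1_99 (v : X → ℝ) (c : ℝ) :
    ∑ k, ∑ l, v k * v l * ((if k = l then (1 : ℝ) else 0) * c) = n2 v * c := by
  unfold n2
  rw [sum_mul]
  refine sum_congr rfl fun k _ => ?_
  rw [sum_eq_single k]
  · rw [if_pos rfl]
    ring
  · intro l _ hl
    rw [if_neg (Ne.symm hl)]
    ring
  · intro h
    exact absurd (mem_univ k) h

private lemma S2_99 (v Y : X → ℝ) (i : X) :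
    ∑ k, ∑ l, v k * v l * ((if k = i then (1 : ℝ) else 0) * Y l) = v i * ∑ l, v l * Y l := by
  rw [sum_eq_single i]
  · rw [mul_sum]
    refine sum_congr rfl fun l _ => ?_
    rw [if_pos rfl]
    ring
  · intro k _ hk
    refine sum_eq_zero fun l _ => ?_
    rw [if_neg hk]
    ring
  · intro h
    exact absurd (mem_univ i) h

private lemma S3_99 (v Y : X → ℝ) (i : X) :
    ∑ k, ∑ l, v k * v l * ((if l = i then (1 : ℝ) else 0) * Y k) = v i * ∑ k, v k * Y k := by
  rw [sum_comm, ← S2_99 v Y i]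
  exact sum_congr rfl fun k _ => sum_congr rfl fun l _ => by ring

private lemma S4_99 (v : X → ℝ) (j : X) :
    ∑ l, v l * (if l = j then (1 : ℝ) else 0) = v j := by
  rw [sum_eq_single j]
  · rw [if_pos rfl, mul_one]
  · intro l _ hl
    rw [if_neg hl, mul_zero]
  · intro h
    exact absurd (mem_univ j) h

private lemma S5_99 (a : Matrix X X ℝ) (v : X → ℝ) (i j : X) (e c : ℝ) :
    ∑ l, v l * (e * a j l - (if l = i then (1 : ℝ) else 0) * c) = e * ap a v j - v i * c := by
  have h1 : ∑ l, v l * (e * a j l - (if l = i then (1 : ℝ) else 0) * c) =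
      e * ∑ l, a j l * v l - (∑ l, v l * (if l = i then (1 : ℝ) else 0)) * c := by
    rw [mul_sum, sum_mul, ← sum_sub_distrib]
    exact sum_congr rfl fun l _ => by ring
  rw [h1, S4_99]
  rfl

private lemma E4_99 {a b : Matrix X X ℝ} (has : ∀ i j, a i j = a j i) (ha : ∀ i, a i i = 0)
    (hb : ∀ i, b i i = 0) {D : ℝ} {w : (X → Bool) → ℝ} (hw : Fld w D a b) (v : X → ℝ) {i j : X}
    (hij : i ≠ j) :
    Ew w (fun s => sg (s i) * sg (s j) * dt v s ^ 2) =
      Real.exp (-D) * a i j * n2 v + 2 * (v i * v j)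
      + 2 * (Real.exp (-D) * (v i * ap a v j)) + 2 * (Real.exp (-D) * (v j * ap a v i))
      - 2 * (Real.exp (-D) * (a i j * (v i ^ 2 + v j ^ 2)))
      + Real.exp (-D) ^ 2 * ∑ k, ∑ l, v k * v l * F4 a b i j k l := by
  have e1 : (fun s : X → Bool => sg (s i) * sg (s j) * dt v s ^ 2) =
      fun s => ∑ k, ∑ l, v k * v l * (sg (s i) * sg (s j) * (sg (s k) * sg (s l))) := by
    funext s
    rw [dt_sq99, mul_sum]
    refine sum_congr rfl fun k _ => ?_
    rw [mul_sum]
    exact sum_congr rfl fun l _ => by ring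
  rw [e1, Ew_sum w univ]
  have e2 : ∀ k ∈ (univ : Finset X), Ew w (fun s => ∑ l, v k * v l *
      (sg (s i) * sg (s j) * (sg (s k) * sg (s l)))) =
      ∑ l, (v k * v l * ((if k = l then (1 : ℝ) else 0) * (Real.exp (-D) * a i j))
        + v k * v l * ((if k = i then (1 : ℝ) else 0) * (if l = j then (1 : ℝ) else 0))
        + v k * v l * ((if k = j then (1 : ℝ) else 0) * (if l = i then (1 : ℝ) else 0))
        + v k * v l * ((if k = i then (1 : ℝ) else 0) * (Real.exp (-D) * a j l -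
            (if l = i then (1 : ℝ) else 0) * (Real.exp (-D) * a i j)))
        + v k * v l * ((if k = j then (1 : ℝ) else 0) * (Real.exp (-D) * a i l -
            (if l = j then (1 : ℝ) else 0) * (Real.exp (-D) * a i j)))
        + v k * v l * ((if l = i then (1 : ℝ) else 0) * (Real.exp (-D) * a j k -
            (if k = i then (1 : ℝ) else 0) * (Real.exp (-D) * a i j)))
        + v k * v l * ((if l = j then (1 : ℝ) else 0) * (Real.exp (-D) * a i k -
            (if k = j then (1 : ℝ) else 0) * (Real.exp (-D) * a i j)))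
        + Real.exp (-D) ^ 2 * (v k * v l * F4 a b i j k l)) := by
    intro k _
    rw [Ew_sum w univ]
    refine sum_congr rfl fun l _ => ?_
    rw [Ew_mul_left, mom4 has ha hb hw hij k l]
    ring
  rw [sum_congr rfl e2]
  simp only [sum_add_distrib]
  rw [S1_99, S2_99 v (fun l => if l = j then (1 : ℝ) else 0) i,
    S2_99 v (fun l => if l = i then (1 : ℝ) else 0) j,
    S2_99 v (fun l => Real.exp (-D) * a j l - (if l = i then (1 : ℝ) else 0) *
      (Real.exp (-D) * a i j)) i,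
    S2_99 v (fun l => Real.exp (-D) * a i l - (if l = j then (1 : ℝ) else 0) *
      (Real.exp (-D) * a i j)) j,
    S3_99 v (fun l => Real.exp (-D) * a j l - (if l = i then (1 : ℝ) else 0) *
      (Real.exp (-D) * a i j)) i,
    S3_99 v (fun l => Real.exp (-D) * a i l - (if l = j then (1 : ℝ) else 0) *
      (Real.exp (-D) * a i j)) j, S4_99, S4_99, S5_99, S5_99]
  have e3 : ∑ k, ∑ l, Real.exp (-D) ^ 2 * (v k * v l * F4 a b i j k l) =
      Real.exp (-D) ^ 2 * ∑ k, ∑ l, v k * v l * F4 a b i j k l := by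
    rw [mul_sum]
    exact sum_congr rfl fun k _ => by rw [mul_sum]
  rw [e3]
  ring

private lemma qx_eq99 (M : Matrix X X ℝ) (s : X → Bool) :
    qx M s = ∑ i, M i i + ∑ i, ∑ j, off M i j * (sg (s i) * sg (s j)) := by
  unfold qx
  rw [← sum_add_distrib]
  refine sum_congr rfl fun i _ => ?_
  have h1 : ∀ j ∈ (univ : Finset X), M i j * (sg (s i) * sg (s j)) =
      (if i = j then M i i else 0) + off M i j * (sg (s i) * sg (s j)) := by
    intro j _
    unfold off
    by_cases h : i = j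
    · subst h
      rw [if_pos rfl, if_pos rfl, sg_mul_self]
      ring
    · rw [if_neg h, if_neg h]
      ring
  rw [sum_congr rfl h1, sum_add_distrib]
  congr 1
  rw [sum_ite_eq]
  simp

theorem Ew_sq {a b : Matrix X X ℝ} (ha : ∀ i, a i i = 0) {D : ℝ} {w : (X → Bool) → ℝ} (hw : Fld w D a b)
    (v : X → ℝ) : Ew w (fun s => dt v s ^ 2) = n2 v + Real.exp (-D) * ∑ k, ∑ l, v k * v l * a k l := by
  have e1 : (fun s : X → Bool => dt v s ^ 2) =
      fun s => ∑ k, ∑ l, v k * v l * (sg (s k) * sg (s l)) := by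
    funext s
    exact dt_sq99 v s
  rw [e1, Ew_sum w univ]
  have e2 : ∀ k ∈ (univ : Finset X), Ew w (fun s => ∑ l, v k * v l * (sg (s k) * sg (s l))) =
      ∑ l, (v k * v l * ((if k = l then (1 : ℝ) else 0) * 1) +
        Real.exp (-D) * (v k * v l * a k l)) := by
    intro k _
    rw [Ew_sum w univ]
    refine sum_congr rfl fun l _ => ?_
    rw [Ew_mul_left, E2_99 ha hw]
    ring
  rw [sum_congr rfl e2]
  simp only [sum_add_distrib]
  rw [S1_99, mul_one, mul_sum]
  congr 1
  refine sum_congr rfl fun k _ => ?_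
  rw [mul_sum]

theorem Ew_qx {a b : Matrix X X ℝ} (ha : ∀ i, a i i = 0) {D : ℝ} {w : (X → Bool) → ℝ} (hw : Fld w D a b)
    (M : Matrix X X ℝ) : Ew w (qx M) = ∑ i, M i i + Real.exp (-D) * ∑ i, ∑ j, off M i j * a i j := by
  have e1 : qx M = fun s : X → Bool => ∑ i, M i i +
      ∑ i, ∑ j, off M i j * (sg (s i) * sg (s j)) := by
    funext s
    exact qx_eq99 M s
  rw [e1, Ew_add, Ew_const w hw.w1, Ew_sum w univ, mul_sum]
  congr 1
  refine sum_congr rfl fun i _ => ?_
  rw [Ew_sum w univ, mul_sum]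
  refine sum_congr rfl fun j _ => ?_
  rw [Ew_mul_left, E2_99 ha hw]
  by_cases h : i = j
  · subst h
    simp [off]
  · rw [if_neg h]
    ring

theorem cov_eq {a b : Matrix X X ℝ} (has : ∀ i j, a i j = a j i) (ha : ∀ i, a i i = 0) (hb : ∀ i, b i i = 0)
    {D : ℝ} {w : (X → Bool) → ℝ} (hw : Fld w D a b) {M : Matrix X X ℝ} (hM : ∀ i j, M i j = M j i) (v : X → ℝ) :
    Cv w (qx M) (fun s => dt v s ^ 2) =
      2 * qd (off M) v + 4 * (Real.exp (-D) * ∑ i, ap (off M) v i * ap a v i)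
      - 4 * (Real.exp (-D) * ∑ i, v i ^ 2 * ∑ j, off M i j * a i j)
      + Real.exp (-D) ^ 2 * Rem (off M) a b v := by
  have hO : ∀ i j, off M i j = off M j i := by
    intro i j
    unfold off
    by_cases h : i = j
    · subst h
      rfl
    · rw [if_neg h, if_neg (Ne.symm h), hM]
  have e1 : (fun s : X → Bool => qx M s * dt v s ^ 2) = fun s => (∑ i, M i i) * dt v s ^ 2 +
      ∑ i, ∑ j, off M i j * (sg (s i) * sg (s j) * dt v s ^ 2) := by
    funext s
    rw [qx_eq99, add_mul]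
    congr 1
    rw [sum_mul]
    refine sum_congr rfl fun i _ => ?_
    rw [sum_mul]
    refine sum_congr rfl fun j _ => ?_
    ring
  have e2 : Ew w (fun s => qx M s * dt v s ^ 2) = (∑ i, M i i) * Ew w (fun s => dt v s ^ 2) +
      ∑ i, ∑ j, off M i j * Ew w (fun s => sg (s i) * sg (s j) * dt v s ^ 2) := by
    rw [e1, Ew_add, Ew_mul_left, Ew_sum w univ]
    congr 1
    refine sum_congr rfl fun i _ => ?_
    rw [Ew_sum w univ]
    refine sum_congr rfl fun j _ => ?_
    rw [Ew_mul_left]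
  unfold Cv
  rw [e2, Ew_qx ha hw M]
  have e3 : ∀ i j : X, off M i j * Ew w (fun s => sg (s i) * sg (s j) * dt v s ^ 2) =
      off M i j * (Real.exp (-D) * a i j * n2 v + 2 * (v i * v j)
      + 2 * (Real.exp (-D) * (v i * ap a v j)) + 2 * (Real.exp (-D) * (v j * ap a v i))
      - 2 * (Real.exp (-D) * (a i j * (v i ^ 2 + v j ^ 2)))
      + Real.exp (-D) ^ 2 * ∑ k, ∑ l, v k * v l * F4 a b i j k l) := by
    intro i j
    by_cases h : i = j
    · have h0 : off M i j = 0 := by
        unfold off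
        rw [if_pos h]
      rw [h0, zero_mul, zero_mul]
    · rw [E4_99 has ha hb hw v h]
  have e4 : (∑ i, M i i) * Ew w (fun s => dt v s ^ 2) +
      ∑ i, ∑ j, off M i j * Ew w (fun s => sg (s i) * sg (s j) * dt v s ^ 2) -
      (∑ i, M i i + Real.exp (-D) * ∑ i, ∑ j, off M i j * a i j) * Ew w (fun s => dt v s ^ 2) =
      ∑ i, ∑ j, (2 * (v i * off M i j * v j)
        + 2 * (Real.exp (-D) * (off M i j * v i * ap a v j))
        + 2 * (Real.exp (-D) * (off M i j * v j * ap a v i))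
        - 2 * (Real.exp (-D) * (v i ^ 2 * (off M i j * a i j)))
        - 2 * (Real.exp (-D) * (v j ^ 2 * (off M i j * a i j)))
        + Real.exp (-D) ^ 2 * (off M i j * (∑ k, ∑ l, v k * v l * F4 a b i j k l -
            a i j * ∑ k, ∑ l, v k * v l * a k l))) := by
    have e5 : (∑ i, M i i) * Ew w (fun s => dt v s ^ 2) +
        ∑ i, ∑ j, off M i j * Ew w (fun s => sg (s i) * sg (s j) * dt v s ^ 2) -
        (∑ i, M i i + Real.exp (-D) * ∑ i, ∑ j, off M i j * a i j) *
          Ew w (fun s => dt v s ^ 2) =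
        ∑ i, ∑ j, (off M i j * Ew w (fun s => sg (s i) * sg (s j) * dt v s ^ 2) -
          Real.exp (-D) * (off M i j * a i j) * Ew w (fun s => dt v s ^ 2)) := by
      have e6 : ∑ i, ∑ j, (off M i j * Ew w (fun s => sg (s i) * sg (s j) * dt v s ^ 2) -
          Real.exp (-D) * (off M i j * a i j) * Ew w (fun s => dt v s ^ 2)) =
          ∑ i, ∑ j, off M i j * Ew w (fun s => sg (s i) * sg (s j) * dt v s ^ 2) -
          Real.exp (-D) * (∑ i, ∑ j, off M i j * a i j) * Ew w (fun s => dt v s ^ 2) := by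
        simp only [sum_sub_distrib, ← sum_mul, ← mul_sum]
      rw [e6]
      ring
    rw [e5]
    refine sum_congr rfl fun i _ => sum_congr rfl fun j _ => ?_
    rw [e3, Ew_sq ha hw]
    ring
  rw [e4]
  simp only [sum_add_distrib, sum_sub_distrib, ← mul_sum]
  have f1 : ∑ i, ∑ j, v i * off M i j * v j = qd (off M) v := rfl
  have f2 : ∑ i, ∑ j, off M i j * v j * ap a v i = ∑ i, ap (off M) v i * ap a v i := by
    refine sum_congr rfl fun i _ => ?_
    rw [← sum_mul]
    rfl
  have f3 : ∑ i, ∑ j, off M i j * v i * ap a v j = ∑ i, ap (off M) v i * ap a v i := by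
    rw [sum_comm, ← f2]
    refine sum_congr rfl fun i _ => sum_congr rfl fun j _ => ?_
    rw [hO j i]
  have f4 : ∑ i, ∑ j, v j ^ 2 * (off M i j * a i j) =
      ∑ i, v i ^ 2 * ∑ j, off M i j * a i j := by
    rw [sum_comm]
    refine sum_congr rfl fun i _ => ?_
    rw [mul_sum]
    refine sum_congr rfl fun j _ => ?_
    rw [hO j i, has j i]
  have f6 : Rem (off M) a b v = ∑ i, ∑ j, off M i j * (∑ k, ∑ l, v k * v l * F4 a b i j k l -
            a i j * ∑ k, ∑ l, v k * v l * a k l) := rfl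
  rw [f1, f2, f3, f4, f6]
  ring

end BMV
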