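import Pool.Agent.BMV.Basic

/-!
# Project BMV, section 4 (helper94): auxiliary definitions for Lemma Q4

Paper proof: /team-store/aa_additive_helper67.md, section 4.
-/

namespace BMV

open Finset BMP

variable {X : Type} [Fintype X] [DecidableEq X]

/-- the remainder of the covariance formula, before the factor `e^(-2D)` -/
def Rem (O a b : Matrix X X ℝ) (v : X → ℝ) : ℝ :=
  ∑ i, ∑ j, O i j * (∑ k, ∑ l, v k * v l * F4 a b i j k l - a i j * ∑ k, ∑ l, v k * v l * a k l)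

/-- the bilinear form of `O` has norm at most `K` -/
def BilN (O : Matrix X X ℝ) (K : ℝ) : Prop :=
  ∀ x y : X → ℝ, |∑ i, ∑ j, O i j * (x i * y j)| ≤ K * (n2 x + n2 y) / 2

/-- the mass `∑ |a_i|^2 v_i^2` -/
def SS (a : Matrix X X ℝ) (v : X → ℝ) : ℝ := ∑ i, ra a i * v i ^ 2

/-- the pair of matrices `a, b` behaves as `off sinh n, off cosh n` with small rows -/
structure IsAB (a b : Matrix X X ℝ) : Prop where
  asymm : ∀ i j, a i j = a j i
  bsymm : ∀ i j, b i j = b j i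
  adiag : ∀ i, a i i = 0
  bdiag : ∀ i, b i i = 0
  b1 : ∀ i j, i ≠ j → 1 ≤ b i j
  b2 : ∀ i j, i ≠ j → b i j ≤ 1 + a i j ^ 2 / 2
  row : ∀ i, ra a i ≤ 1 / 64

end BMV
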