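import Pool.Agent.BMV.GDef

/-! BMV GFld (helper94): the covariance matrix `n = η N + η' O^2 + ηR R` of the third experiment, `O = off N`.

`N = Gw k z` (symmetric, `0 ≤ <x,Nx> ≤ K|x|^2`), `R` symmetric idempotent.
* `offN_op`: `N_ii = <e_i, N e_i> ∈ [0, K]`, so `-K|x|^2 ≤ <x,Nx> - ∑ N_ii x_i^2 = <x,Ox> ≤ K|x|^2`. For symmetric `O` with `|<x,Ox>| ≤ K|x|^2`:
  polarisation `4<x,Oy> = <x+y,O(x+y)> - <x-y,O(x-y)>` gives `|<x,Oy>| ≤ K(|x|^2+|y|^2)/2`; with `y = t O x`, `t > 0`: `t |Ox|^2 ≤ K(|x|^2 + t^2 |Ox|^2)/2`;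
  if `K > 0` take `t = 1/K`: `|Ox|^2/K ≤ K|x|^2/2 + |Ox|^2/(2K)`, i.e. `|Ox|^2 ≤ K^2 |x|^2`; if `K = 0` then `t|Ox|^2 ≤ 0` gives `Ox = 0`.
  (State and prove the general fact `op_of_form` first.)
* `nF_psd`: `<x,nx> = η<x,Nx> + η'|Ox|^2 + ηR|Rx|^2 ≥ 0` and `n` symmetric (`Matrix.PosSemidef` over `ℝ`: use the constructor with
  `IsHermitian` = symmetric; `dotProduct x (M.mulVec x) = qd M x` by unfolding).
* `nF_op`: `|Ox|^2 ≤ K^2|x|^2`, `|Rx|^2 ≤ |x|^2` (`|Rx|^2 = <x,Rx>`, Cauchy-Schwarz, or `0 ≤ |x - Rx|^2 = |x|^2 - |Rx|^2`). -/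

namespace BMV

open Finset BMP

variable {X : Type} [Fintype X] [DecidableEq X]

/-- the square of the off-diagonal part -/
def O2 (N : Matrix X X ℝ) : Matrix X X ℝ := fun i j => ∑ l, off N i l * off N l j

/-- covariance of the field of the third experiment -/
def nF (η η' ηR : ℝ) (N R : Matrix X X ℝ) : Matrix X X ℝ := fun i j => η * N i j + η' * O2 N i j + ηR * R i j

theorem gf_qd_lin {M : Matrix X X ℝ} (hM : ∀ i j, M i j = M j i) (x y : X → ℝ) (t : ℝ) :
    qd M (fun i => x i + t * y i) = qd M x + 2 * t * ∑ i, x i * ap M y i + t ^ 2 * qd M y := by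
  have e1 : ∑ i, x i * ap M y i = ∑ i, ∑ j, x i * M i j * y j := by
    unfold ap
    refine Finset.sum_congr rfl fun i _ => ?_
    rw [Finset.mul_sum]
    exact Finset.sum_congr rfl fun j _ => by ring
  have e2 : ∑ i, ∑ j, y i * M i j * x j = ∑ i, ∑ j, x i * M i j * y j := by
    rw [Finset.sum_comm]
    refine Finset.sum_congr rfl fun i _ => Finset.sum_congr rfl fun j _ => ?_
    rw [hM j i]
    ring
  have e3 : qd M (fun i => x i + t * y i) = ∑ i, ∑ j, (x i * M i j * x j + t * (x i * M i j * y j)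
      + t * (y i * M i j * x j) + t ^ 2 * (y i * M i j * y j)) := by
    unfold qd
    exact Finset.sum_congr rfl fun i _ => Finset.sum_congr rfl fun j _ => by ring
  rw [e3, e1]
  simp only [Finset.sum_add_distrib, ← Finset.mul_sum]
  rw [e2]
  unfold qd
  ring

private theorem n2_lin (x y : X → ℝ) (t : ℝ) :
    n2 (fun i => x i + t * y i) + n2 (fun i => x i + (-t) * y i) = 2 * n2 x + 2 * t ^ 2 * n2 y := by
  unfold n2
  rw [← Finset.sum_add_distrib, Finset.mul_sum, Finset.mul_sum, ← Finset.sum_add_distrib]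
  exact Finset.sum_congr rfl fun i _ => by ring

theorem gf_mul_ap {M : Matrix X X ℝ} (hM : ∀ i j, M i j = M j i) (x y : X → ℝ) :
    ∑ i, x i * ap M y i = ∑ i, ap M x i * y i := by
  unfold ap
  have e1 : ∑ i, x i * ∑ j, M i j * y j = ∑ i, ∑ j, x i * (M i j * y j) :=
    Finset.sum_congr rfl fun i _ => by rw [Finset.mul_sum]
  have e2 : ∑ i, (∑ j, M i j * x j) * y i = ∑ i, ∑ j, M i j * x j * y i :=
    Finset.sum_congr rfl fun i _ => by rw [Finset.sum_mul]
  rw [e1, e2, Finset.sum_comm]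
  refine Finset.sum_congr rfl fun i _ => Finset.sum_congr rfl fun j _ => ?_
  rw [hM j i]
  ring

theorem gf_n2_nonneg (x : X → ℝ) : 0 ≤ n2 x := Finset.sum_nonneg fun _ _ => sq_nonneg _

/-- operator norm from the quadratic form, for symmetric matrices -/
theorem op_of_form {M : Matrix X X ℝ} (hM : ∀ i j, M i j = M j i) {K : ℝ} (hK : 0 ≤ K)
    (h : ∀ x, |qd M x| ≤ K * n2 x) (x : X → ℝ) : n2 (ap M x) ≤ K ^ 2 * n2 x := by
  have key : ∀ t : ℝ, 2 * t * n2 (ap M x) ≤ K * (n2 x + t ^ 2 * n2 (ap M x)) := by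
    intro t
    have h1 := (abs_le.1 (h (fun i => x i + t * ap M x i))).2
    have h2 := (abs_le.1 (h (fun i => x i + (-t) * ap M x i))).1
    rw [gf_qd_lin hM] at h1 h2
    have h3 := n2_lin x (ap M x) t
    have h4 : ∑ i, x i * ap M (ap M x) i = n2 (ap M x) := by
      rw [gf_mul_ap hM]
      unfold n2
      exact Finset.sum_congr rfl fun i _ => by ring
    rw [h4] at h1 h2
    have h5 : K * (n2 (fun i => x i + t * ap M x i) + n2 (fun i => x i + (-t) * ap M x i)) =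
        K * (2 * n2 x + 2 * t ^ 2 * n2 (ap M x)) := by rw [h3]
    nlinarith
  have hN := gf_n2_nonneg (ap M x)
  rcases hK.eq_or_lt with h0 | h0
  · have := key 1
    rw [← h0] at this ⊢
    nlinarith
  · have h1 := key (1 / K)
    have h2 : 2 * (1 / K) * n2 (ap M x) * K ≤ K * (n2 x + (1 / K) ^ 2 * n2 (ap M x)) * K :=
      mul_le_mul_of_nonneg_right h1 h0.le
    have e1 : 2 * (1 / K) * n2 (ap M x) * K = 2 * n2 (ap M x) := by field_simp
    have e2 : K * (n2 x + (1 / K) ^ 2 * n2 (ap M x)) * K = K ^ 2 * n2 x + n2 (ap M x) := by field_simp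
    rw [e1, e2] at h2
    linarith

theorem gf_qd_single (M : Matrix X X ℝ) (i : X) : qd M (Pi.single i 1) = M i i := by
  unfold qd
  rw [Finset.sum_eq_single i]
  · rw [Finset.sum_eq_single i]
    · rw [Pi.single_eq_same]
      ring
    · intro j _ hj
      rw [Pi.single_eq_of_ne hj, mul_zero]
    · intro hh
      exact absurd (Finset.mem_univ i) hh
  · intro j _ hj
    refine Finset.sum_eq_zero fun l _ => ?_
    rw [Pi.single_eq_of_ne hj]
    ring
  · intro hh
    exact absurd (Finset.mem_univ i) hh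

theorem gf_n2_single (i : X) : n2 (Pi.single i 1 : X → ℝ) = 1 := by
  unfold n2
  rw [Finset.sum_eq_single i]
  · rw [Pi.single_eq_same]
    ring
  · intro j _ hj
    rw [Pi.single_eq_of_ne hj]
    ring
  · intro hh
    exact absurd (Finset.mem_univ i) hh

theorem gf_diag {N : Matrix X X ℝ} {K : ℝ} (h0 : ∀ x, 0 ≤ qd N x) (h1 : ∀ x, qd N x ≤ K * n2 x) (i : X) :
    0 ≤ N i i ∧ N i i ≤ K := by
  have a := h0 (Pi.single i 1)
  have b := h1 (Pi.single i 1)
  rw [gf_qd_single] at a b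
  rw [gf_n2_single, mul_one] at b
  exact ⟨a, b⟩

theorem gf_qd_off (N : Matrix X X ℝ) (x : X → ℝ) : qd (off N) x = qd N x - ∑ i, N i i * x i ^ 2 := by
  unfold qd
  rw [← Finset.sum_sub_distrib]
  refine Finset.sum_congr rfl fun i _ => ?_
  have e : N i i * x i ^ 2 = ∑ j, if i = j then N i i * x i ^ 2 else 0 := by
    rw [Finset.sum_ite_eq, if_pos (Finset.mem_univ i)]
  rw [e, ← Finset.sum_sub_distrib]
  refine Finset.sum_congr rfl fun j _ => ?_
  unfold off
  split_ifs with hij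
  · subst hij
    ring
  · ring

/-- a symmetric matrix with form in `[0, K]` has off-diagonal part with form in `[-K, K]` -/
theorem off_form {N : Matrix X X ℝ} {K : ℝ} (h0 : ∀ x, 0 ≤ qd N x) (h1 : ∀ x, qd N x ≤ K * n2 x) (x : X → ℝ) :
    |qd (off N) x| ≤ K * n2 x := by
  have hd := gf_diag h0 h1
  have e1 : 0 ≤ ∑ i, N i i * x i ^ 2 := Finset.sum_nonneg fun i _ => mul_nonneg (hd i).1 (sq_nonneg _)
  have e2 : ∑ i, N i i * x i ^ 2 ≤ K * n2 x := by
    unfold n2
    rw [Finset.mul_sum]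
    exact Finset.sum_le_sum fun i _ => mul_le_mul_of_nonneg_right (hd i).2 (sq_nonneg _)
  rw [gf_qd_off, abs_le]
  constructor
  · linarith [h0 x]
  · linarith [h1 x]

theorem gf_off_sym {N : Matrix X X ℝ} (hN : ∀ i j, N i j = N j i) (i j : X) : off N i j = off N j i := by
  unfold off
  by_cases h : i = j
  · rw [if_pos h, if_pos h.symm]
  · rw [if_neg h, if_neg (Ne.symm h), hN]

theorem offN_op {N : Matrix X X ℝ} (hN : ∀ i j, N i j = N j i) {K : ℝ} (hK : 0 ≤ K) (h0 : ∀ x, 0 ≤ qd N x)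
    (h1 : ∀ x, qd N x ≤ K * n2 x) (x : X → ℝ) : n2 (ap (off N) x) ≤ K ^ 2 * n2 x :=
  op_of_form (gf_off_sym hN) hK (off_form h0 h1) x

theorem Gw_sym {α : Type} [Fintype α] (c : α → ℝ) (u : α → X → ℝ) (i j : X) : Gw c u i j = Gw c u j i := by
  unfold Gw
  exact Finset.sum_congr rfl fun A _ => by ring

theorem Gw_qd {α : Type} [Fintype α] (c : α → ℝ) (u : α → X → ℝ) (x : X → ℝ) :
    qd (Gw c u) x = ∑ A, c A * ip (u A) x ^ 2 := by
  have e : ∀ A, c A * ip (u A) x ^ 2 = ∑ i, ∑ j, x i * (c A * (u A i * u A j)) * x j := by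
    intro A
    unfold ip
    rw [sq, Finset.sum_mul_sum, Finset.mul_sum]
    refine Finset.sum_congr rfl fun i _ => ?_
    rw [Finset.mul_sum]
    exact Finset.sum_congr rfl fun j _ => by ring
  simp only [e]
  rw [Finset.sum_comm]
  unfold qd Gw
  refine Finset.sum_congr rfl fun i _ => ?_
  rw [Finset.sum_comm]
  refine Finset.sum_congr rfl fun j _ => ?_
  rw [Finset.mul_sum, Finset.sum_mul]

theorem gf_O2_sym {N : Matrix X X ℝ} (hN : ∀ i j, N i j = N j i) (i j : X) : O2 N i j = O2 N j i := by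
  unfold O2
  refine Finset.sum_congr rfl fun l _ => ?_
  rw [gf_off_sym hN i l, gf_off_sym hN l j]
  ring

theorem nF_sym {η η' ηR : ℝ} {N R : Matrix X X ℝ} (hN : ∀ i j, N i j = N j i) (hR : ∀ i j, R i j = R j i) (i j : X) :
    nF η η' ηR N R i j = nF η η' ηR N R j i := by
  unfold nF
  rw [hN i j, gf_O2_sym hN i j, hR i j]

theorem gf_ap_ap (M : Matrix X X ℝ) (x : X → ℝ) (i : X) :
    ap M (ap M x) i = ∑ j, (∑ l, M i l * M l j) * x j := by
  unfold ap
  have e : ∀ l, M i l * ∑ j, M l j * x j = ∑ j, M i l * M l j * x j := by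
    intro l
    rw [Finset.mul_sum]
    exact Finset.sum_congr rfl fun j _ => by ring
  simp only [e]
  rw [Finset.sum_comm]
  exact Finset.sum_congr rfl fun j _ => by rw [Finset.sum_mul]

/-- `<x, M^2 x> = |Mx|^2` -/
theorem gf_qd_sq {M : Matrix X X ℝ} (hM : ∀ i j, M i j = M j i) (x : X → ℝ) :
    qd (fun i j => ∑ l, M i l * M l j) x = n2 (ap M x) := by
  have e1 : qd (fun i j => ∑ l, M i l * M l j) x = ∑ i, x i * ap M (ap M x) i := by
    unfold qd
    refine Finset.sum_congr rfl fun i _ => ?_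
    rw [gf_ap_ap, Finset.mul_sum]
    exact Finset.sum_congr rfl fun j _ => by ring
  rw [e1, gf_mul_ap hM]
  unfold n2
  exact Finset.sum_congr rfl fun i _ => by ring

theorem nF_qd {η η' ηR : ℝ} {N R : Matrix X X ℝ} (hN : ∀ i j, N i j = N j i) (hR : ∀ i j, R i j = R j i)
    (hRi : ∀ i l, ∑ p, R i p * R p l = R i l) (x : X → ℝ) :
    qd (nF η η' ηR N R) x = η * qd N x + η' * n2 (ap (off N) x) + ηR * n2 (ap R x) := by
  have e1 : qd (nF η η' ηR N R) x = η * qd N x + η' * qd (O2 N) x + ηR * qd R x := by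
    unfold qd nF
    rw [Finset.mul_sum, Finset.mul_sum, Finset.mul_sum, ← Finset.sum_add_distrib, ← Finset.sum_add_distrib]
    refine Finset.sum_congr rfl fun i _ => ?_
    rw [Finset.mul_sum, Finset.mul_sum, Finset.mul_sum, ← Finset.sum_add_distrib, ← Finset.sum_add_distrib]
    exact Finset.sum_congr rfl fun j _ => by ring
  have e2 : qd (O2 N) x = n2 (ap (off N) x) := gf_qd_sq (gf_off_sym hN) x
  have e3 : qd R x = n2 (ap R x) := by
    rw [← gf_qd_sq hR]
    have : (fun i j => ∑ l, R i l * R l j) = R := by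
      funext i j
      exact hRi i j
    rw [this]
  rw [e1, e2, e3]

theorem nF_psd {η η' ηR : ℝ} (hη : 0 ≤ η) (hη' : 0 ≤ η') (hηR : 0 ≤ ηR) {N R : Matrix X X ℝ}
    (hN : ∀ i j, N i j = N j i) (h0 : ∀ x, 0 ≤ qd N x) (hR : ∀ i j, R i j = R j i)
    (hRi : ∀ i l, ∑ p, R i p * R p l = R i l) : (nF η η' ηR N R).PosSemidef := by
  refine Matrix.PosSemidef.of_dotProduct_mulVec_nonneg ?_ fun x => ?_
  · ext i j
    rw [Matrix.conjTranspose_apply, star_trivial]
    exact nF_sym hN hR j i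
  · have e : star x ⬝ᵥ (nF η η' ηR N R).mulVec x = qd (nF η η' ηR N R) x := by
      unfold qd dotProduct Matrix.mulVec dotProduct
      refine Finset.sum_congr rfl fun i _ => ?_
      rw [Finset.mul_sum]
      refine Finset.sum_congr rfl fun j _ => ?_
      rw [Pi.star_apply, star_trivial]
      ring
    rw [e, nF_qd hN hR hRi]
    have := gf_n2_nonneg (ap (off N) x)
    have := gf_n2_nonneg (ap R x)
    have := h0 x
    positivity

theorem gf_idem_le {R : Matrix X X ℝ} (hR : ∀ i j, R i j = R j i) (hRi : ∀ i l, ∑ p, R i p * R p l = R i l)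
    (x : X → ℝ) : n2 (ap R x) ≤ n2 x := by
  have e1 : ∑ i, x i * ap R x i = n2 (ap R x) := by
    rw [← gf_qd_sq hR]
    have : (fun i j => ∑ l, R i l * R l j) = R := by
      funext i j
      exact hRi i j
    rw [this]
    unfold qd ap
    refine Finset.sum_congr rfl fun i _ => ?_
    rw [Finset.mul_sum]
    exact Finset.sum_congr rfl fun j _ => by ring
  have e2 : 0 ≤ ∑ i, (x i - ap R x i) ^ 2 := Finset.sum_nonneg fun i _ => sq_nonneg _
  have e3 : ∑ i, (x i - ap R x i) ^ 2 = n2 x - 2 * ∑ i, x i * ap R x i + n2 (ap R x) := by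
    unfold n2
    rw [Finset.mul_sum, ← Finset.sum_sub_distrib, ← Finset.sum_add_distrib]
    exact Finset.sum_congr rfl fun i _ => by ring
  rw [e3, e1] at e2
  linarith

theorem nF_op {η η' ηR : ℝ} (hη : 0 ≤ η) (hη' : 0 ≤ η') (hηR : 0 ≤ ηR) {N R : Matrix X X ℝ}
    (hN : ∀ i j, N i j = N j i) {K : ℝ} (hK : 0 ≤ K) (h0 : ∀ x, 0 ≤ qd N x) (h1 : ∀ x, qd N x ≤ K * n2 x)
    (hR : ∀ i j, R i j = R j i) (hRi : ∀ i l, ∑ p, R i p * R p l = R i l) (x : X → ℝ) :
    qd (nF η η' ηR N R) x ≤ (η * K + η' * K ^ 2 + ηR) * n2 x := by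
  rw [nF_qd hN hR hRi]
  have a := mul_le_mul_of_nonneg_left (h1 x) hη
  have b := mul_le_mul_of_nonneg_left (offN_op hN hK h0 h1 x) hη'
  have c := mul_le_mul_of_nonneg_left (gf_idem_le hR hRi x) hηR
  nlinarith

theorem nF_diag {η η' ηR : ℝ} (hη : 0 ≤ η) (hη' : 0 ≤ η') (hηR : 0 ≤ ηR) {N R : Matrix X X ℝ}
    (hN : ∀ i j, N i j = N j i) {K : ℝ} (hK : 0 ≤ K) (h0 : ∀ x, 0 ≤ qd N x) (h1 : ∀ x, qd N x ≤ K * n2 x)
    (hR : ∀ i j, R i j = R j i) (hRi : ∀ i l, ∑ p, R i p * R p l = R i l) (i : X) :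
    nF η η' ηR N R i i ≤ η * K + η' * K ^ 2 + ηR := by
  have h := nF_op hη hη' hηR hN hK h0 h1 hR hRi (Pi.single i 1)
  rw [gf_qd_single, gf_n2_single, mul_one] at h
  exact h

end BMV
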