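import Pool.Agent.BMV.GDef
import Pool.Agent.BMP.RoundA

/-! BMV GLawA (section 4, helper94): tools for the construction of the gaussian-sine sign measure.

* `law_of_avg`: same proof as `BMP.corr_of_avg` (file BMP/RoundA): weights `w s = Ex_e ∏_i (1 + sg (s i) p_i(e))/2`; they are `≥ 0`, sum to `1`, and
  `∑_s w s ∏_{i ∈ S} sg (s i) = Ex_e ∏_i ∑_b (1 + sg b p_i)/2 * (if i ∈ S then sg b else 1) = Ex_e ∏_{i ∈ S} p_i(e)`.
* `Ex_sin4`: with `a = dt u1 e` etc. (`dt` is linear in the first argument)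
  `8 sin a sin b sin c sin d = cos(a+b+c+d) - cos(a+b+c-d) - cos(a+b-c+d) + cos(a+b-c-d) - cos(a-b+c+d) + cos(a-b+c-d) + cos(a-b-c+d) - cos(a-b-c-d)`
  (expand with `cos_add`, `cos_sub`, `sin_add`, `sin_sub`, then `ring`), and `BMP.Ex_cos`.
* `four_alg`: `exp(-x) = cosh x - sinh x`, `exp(x) = cosh x + sinh x`; both sides divided by `exp(-2D)` are polynomials in the twelve numbers
  `cosh n_ij, sinh n_ij`; `ring`. -/

namespace BMV

open Finset BMP

private theorem gl_sum_prod {K T : Type} [CommSemiring K] [Fintype T] [DecidableEq T]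
    (f : T → Bool → K) : ∑ s : T → Bool, ∏ i, f i (s i) = ∏ i, ∑ b, f i b := by
  rw [Finset.prod_univ_sum, Fintype.piFinset_univ]

theorem law_of_avg {X T : Type} [Fintype X] [DecidableEq X] [Fintype T] [DecidableEq T]
    (p : (T → Bool) → X → ℝ) (hp : ∀ e i, |p e i| ≤ 1) :
    ∃ w : (X → Bool) → ℝ, (∀ s, 0 ≤ w s) ∧ ∑ s, w s = 1 ∧
      ∀ S : Finset X, Ew w (fun s => ∏ i ∈ S, sg (s i)) = Ex (fun e => ∏ i ∈ S, p e i) := by
  have hfac : ∀ (e : T → Bool) (i : X) (b : Bool), 0 ≤ (1 + sg b * p e i) / 2 := by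
    intro e i b
    have h1 := abs_le.1 (hp e i)
    cases b
    · simp only [sg, Bool.false_eq_true, if_false]
      linarith [h1.2]
    · simp only [sg, if_true]
      linarith [h1.1]
  have hsum : ∀ (e : T → Bool) (i : X), ∑ b, (1 + sg b * p e i) / 2 = 1 := by
    intro e i
    rw [Fintype.sum_bool]
    simp only [sg, if_true, Bool.false_eq_true, if_false]
    ring
  have hswap : ∀ F : (X → Bool) → ℝ,
      ∑ s : X → Bool, Ex (fun e => ∏ i, (1 + sg (s i) * p e i) / 2) * F s =
        Ex (fun e => ∑ s : X → Bool, (∏ i, (1 + sg (s i) * p e i) / 2) * F s) := by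
    intro F
    unfold Ex
    rw [Finset.sum_comm, Finset.sum_div]
    refine Finset.sum_congr rfl fun s _ => ?_
    rw [div_mul_eq_mul_div, Finset.sum_mul]
  have hone : ∀ e : T → Bool, ∑ s : X → Bool, ∏ i, (1 + sg (s i) * p e i) / 2 = 1 := by
    intro e
    rw [gl_sum_prod (fun i b => (1 + sg b * p e i) / 2)]
    exact Finset.prod_eq_one fun i _ => hsum e i
  refine ⟨fun s => Ex (fun e => ∏ i, (1 + sg (s i) * p e i) / 2), ?_, ?_, ?_⟩
  · intro s
    unfold Ex
    exact div_nonneg (Finset.sum_nonneg fun e _ => Finset.prod_nonneg fun i _ => hfac e i (s i))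
      (by positivity)
  · have h1 := hswap (fun _ => 1)
    simp only [mul_one] at h1
    rw [h1]
    simp only [hone]
    exact Ex_const 1
  · intro S
    unfold Ew
    rw [hswap (fun s => ∏ i ∈ S, sg (s i))]
    congr 1
    funext e
    have h3 : ∀ s : X → Bool, (∏ k, (1 + sg (s k) * p e k) / 2) * (∏ i ∈ S, sg (s i)) =
        ∏ k, ((1 + sg (s k) * p e k) / 2 * (if k ∈ S then sg (s k) else 1)) := by
      intro s
      rw [Finset.prod_mul_distrib, Finset.prod_ite_mem, Finset.univ_inter]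
    rw [Finset.sum_congr rfl (fun s _ => h3 s),
      gl_sum_prod (fun k b => (1 + sg b * p e k) / 2 * (if k ∈ S then sg b else 1))]
    have h4 : ∀ k, ∑ b, (1 + sg b * p e k) / 2 * (if k ∈ S then sg b else 1) =
        if k ∈ S then p e k else 1 := by
      intro k
      rw [Fintype.sum_bool]
      simp only [sg, if_true, Bool.false_eq_true, if_false]
      by_cases h1 : k ∈ S
      · rw [if_pos h1, if_pos h1, if_pos h1]
        ring
      · rw [if_neg h1, if_neg h1, if_neg h1]
        ring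
    rw [Finset.prod_congr rfl (fun k _ => h4 k), Finset.prod_ite_mem, Finset.univ_inter]

private theorem gl_sin4 (a b c d : ℝ) :
    Real.sin a * Real.sin b * (Real.sin c * Real.sin d) =
      (Real.cos (a + b + c + d) - Real.cos (a + b + c - d) - Real.cos (a + b - c + d)
        + Real.cos (a + b - c - d) - Real.cos (a - b + c + d) + Real.cos (a - b + c - d)
        + Real.cos (a - b - c + d) - Real.cos (a - b - c - d)) / 8 := by
  simp only [Real.cos_add, Real.cos_sub, Real.sin_add, Real.sin_sub]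
  ring

theorem Ex_sin4 {T : Type} [Fintype T] [DecidableEq T] (u1 u2 u3 u4 : T → ℝ) :
    Ex (fun e : T → Bool => Real.sin (dt u1 e) * Real.sin (dt u2 e) * (Real.sin (dt u3 e) * Real.sin (dt u4 e))) =
      (∏ q, Real.cos (u1 q + u2 q + u3 q + u4 q) - ∏ q, Real.cos (u1 q + u2 q + u3 q - u4 q)
        - ∏ q, Real.cos (u1 q + u2 q - u3 q + u4 q) + ∏ q, Real.cos (u1 q + u2 q - u3 q - u4 q)
        - ∏ q, Real.cos (u1 q - u2 q + u3 q + u4 q) + ∏ q, Real.cos (u1 q - u2 q + u3 q - u4 q)
        + ∏ q, Real.cos (u1 q - u2 q - u3 q + u4 q) - ∏ q, Real.cos (u1 q - u2 q - u3 q - u4 q)) / 8 := by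
  have ha : ∀ (f g : T → ℝ) (e : T → Bool), dt (fun q => f q + g q) e = dt f e + dt g e := by
    intro f g e
    unfold dt
    rw [← Finset.sum_add_distrib]
    exact Finset.sum_congr rfl fun q _ => by ring
  have hs : ∀ (f g : T → ℝ) (e : T → Bool), dt (fun q => f q - g q) e = dt f e - dt g e := by
    intro f g e
    unfold dt
    rw [← Finset.sum_sub_distrib]
    exact Finset.sum_congr rfl fun q _ => by ring
  have h1 : ∀ e : T → Bool,
      Real.sin (dt u1 e) * Real.sin (dt u2 e) * (Real.sin (dt u3 e) * Real.sin (dt u4 e)) =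
      (Real.cos (dt (fun q => u1 q + u2 q + u3 q + u4 q) e)
        - Real.cos (dt (fun q => u1 q + u2 q + u3 q - u4 q) e)
        - Real.cos (dt (fun q => u1 q + u2 q - u3 q + u4 q) e)
        + Real.cos (dt (fun q => u1 q + u2 q - u3 q - u4 q) e)
        - Real.cos (dt (fun q => u1 q - u2 q + u3 q + u4 q) e)
        + Real.cos (dt (fun q => u1 q - u2 q + u3 q - u4 q) e)
        + Real.cos (dt (fun q => u1 q - u2 q - u3 q + u4 q) e)
        - Real.cos (dt (fun q => u1 q - u2 q - u3 q - u4 q) e)) / 8 := by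
    intro e
    rw [gl_sin4]
    simp only [ha, hs]
  rw [← Ex_cos (fun q => u1 q + u2 q + u3 q + u4 q), ← Ex_cos (fun q => u1 q + u2 q + u3 q - u4 q),
    ← Ex_cos (fun q => u1 q + u2 q - u3 q + u4 q), ← Ex_cos (fun q => u1 q + u2 q - u3 q - u4 q),
    ← Ex_cos (fun q => u1 q - u2 q + u3 q + u4 q), ← Ex_cos (fun q => u1 q - u2 q + u3 q - u4 q),
    ← Ex_cos (fun q => u1 q - u2 q - u3 q + u4 q), ← Ex_cos (fun q => u1 q - u2 q - u3 q - u4 q)]
  simp only [h1]
  unfold Ex
  rw [← Finset.sum_div, Finset.sum_sub_distrib, Finset.sum_add_distrib, Finset.sum_add_distrib,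
    Finset.sum_sub_distrib, Finset.sum_add_distrib, Finset.sum_sub_distrib, Finset.sum_sub_distrib]
  ring

/-- the average of the eight exponentials is `e^(-2D)` times the sum over the odd subgraphs -/
theorem four_alg (D x12 x13 x14 x23 x24 x34 : ℝ) :
    (Real.exp (-(2 * D) + (-x12 - x13 - x14 - x23 - x24 - x34))
      - Real.exp (-(2 * D) + (-x12 - x13 + x14 - x23 + x24 + x34))
      - Real.exp (-(2 * D) + (-x12 + x13 - x14 + x23 - x24 + x34))
      + Real.exp (-(2 * D) + (-x12 + x13 + x14 + x23 + x24 - x34))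
      - Real.exp (-(2 * D) + (x12 - x13 - x14 + x23 + x24 - x34))
      + Real.exp (-(2 * D) + (x12 - x13 + x14 + x23 - x24 + x34))
      + Real.exp (-(2 * D) + (x12 + x13 - x14 - x23 + x24 + x34))
      - Real.exp (-(2 * D) + (x12 + x13 + x14 - x23 - x24 - x34))) / 8 =
    Real.exp (-(2 * D)) *
      (Real.sinh x12 * Real.sinh x34 * (Real.cosh x13 * Real.cosh x14 * Real.cosh x23 * Real.cosh x24)
      + Real.sinh x13 * Real.sinh x24 * (Real.cosh x12 * Real.cosh x14 * Real.cosh x23 * Real.cosh x34)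
      + Real.sinh x14 * Real.sinh x23 * (Real.cosh x12 * Real.cosh x13 * Real.cosh x24 * Real.cosh x34)
      - Real.sinh x12 * Real.sinh x13 * Real.sinh x14 * (Real.cosh x23 * Real.cosh x24 * Real.cosh x34)
      - Real.sinh x12 * Real.sinh x23 * Real.sinh x24 * (Real.cosh x13 * Real.cosh x14 * Real.cosh x34)
      - Real.sinh x13 * Real.sinh x23 * Real.sinh x34 * (Real.cosh x12 * Real.cosh x14 * Real.cosh x24)
      - Real.sinh x14 * Real.sinh x24 * Real.sinh x34 * (Real.cosh x12 * Real.cosh x13 * Real.cosh x23)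
      + Real.sinh x12 * Real.sinh x34 * (Real.sinh x13 * Real.sinh x14 * Real.sinh x23 * Real.sinh x24)) := by
  have hn : ∀ x : ℝ, Real.exp (-x) = Real.cosh x - Real.sinh x := fun x => (Real.cosh_sub_sinh x).symm
  have hp : ∀ x : ℝ, Real.exp x = Real.cosh x + Real.sinh x := fun x => (Real.cosh_add_sinh x).symm
  have e6 : ∀ p q r s t u : ℝ, Real.exp (-(2 * D) + (p + q + r + s + t + u)) =
      Real.exp (-(2 * D)) * (Real.exp p * Real.exp q * Real.exp r * Real.exp s * Real.exp t * Real.exp u) := by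
    intro p q r s t u
    simp only [Real.exp_add]
  simp only [sub_eq_add_neg, e6]
  generalize Real.exp (-(2 * D)) = E
  simp only [hn]
  simp only [hp]
  ring

end BMV
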