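import Pool.Agent.BMV.GDef
import Pool.Agent.BMP.Avg

/-! BMV GMom (section 4, helper94): all moments of order four with `i ≠ j`.

Write `m(i,j,k,l) = Ew w (x_i x_j x_k x_l)`, `x_i = sg (s i)`, `x_i^2 = 1`, `s_ij = e^(-D) a_ij` (zero diagonal, symmetric). Cases for `i ≠ j`:
* `k = l`: `m = s_ij` (and on the right `F4 = 0` because each of the eight terms contains `a_kl` or `b_kl`; the terms with `k = i` etc. cancel).
* `k = i, l = j` or `k = j, l = i`: `m = 1`, `F4 = 0` (each term contains `a_ik` or `b_ik`).
* exactly one of `k, l` in `{i, j}`: e.g. `k = i`, `l ∉ {i,j}`: `m = s_jl`.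
* all distinct: `four`.
Each case: rewrite the product of the four signs with `sg_mul_self`, use `two` / `w1` / `four`, and simplify the right side with
`if_pos`, `if_neg`, `a i i = 0`, `b i i = 0`. -/

namespace BMV

open Finset BMP

variable {X : Type} [Fintype X] [DecidableEq X]

theorem F4_zero {a b : Matrix X X ℝ} (ha : ∀ i, a i i = 0) (hb : ∀ i, b i i = 0) {i j k l : X}
    (h : i = j ∨ i = k ∨ i = l ∨ j = k ∨ j = l ∨ k = l) : F4 a b i j k l = 0 := by
  unfold F4
  rcases h with h | h | h | h | h | h <;> subst h <;> simp only [ha, hb] <;> ring

theorem mom4 {a b : Matrix X X ℝ} (has : ∀ i j, a i j = a j i) (ha : ∀ i, a i i = 0) (hb : ∀ i, b i i = 0)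
    {D : ℝ} {w : (X → Bool) → ℝ} (hw : Fld w D a b) {i j : X} (hij : i ≠ j) (k l : X) :
    Ew w (fun s => sg (s i) * sg (s j) * (sg (s k) * sg (s l))) =
      (if k = l then 1 else 0) * (Real.exp (-D) * a i j)
      + (if k = i then 1 else 0) * (if l = j then 1 else 0) + (if k = j then 1 else 0) * (if l = i then 1 else 0)
      + (if k = i then 1 else 0) * (Real.exp (-D) * a j l - (if l = i then 1 else 0) * (Real.exp (-D) * a i j))
      + (if k = j then 1 else 0) * (Real.exp (-D) * a i l - (if l = j then 1 else 0) * (Real.exp (-D) * a i j))
      + (if l = i then 1 else 0) * (Real.exp (-D) * a j k - (if k = i then 1 else 0) * (Real.exp (-D) * a i j))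
      + (if l = j then 1 else 0) * (Real.exp (-D) * a i k - (if k = j then 1 else 0) * (Real.exp (-D) * a i j))
      + Real.exp (-D) ^ 2 * F4 a b i j k l := by
  by_cases hkl : k = l
  · subst hkl
    have e : (fun s : X → Bool => sg (s i) * sg (s j) * (sg (s k) * sg (s k))) =
        fun s => sg (s i) * sg (s j) := by
      funext s; rw [sg_mul_self, mul_one]
    rw [e, hw.two i j hij, F4_zero ha hb (Or.inr (Or.inr (Or.inr (Or.inr (Or.inr rfl))))), if_pos rfl]
    by_cases hki : k = i
    · subst hki
      rw [if_pos rfl, if_neg hij, has j k]
      ring
    · rw [if_neg hki]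
      by_cases hkj : k = j
      · subst hkj
        rw [if_pos rfl]
        ring
      · rw [if_neg hkj]
        ring
  · rw [if_neg hkl]
    by_cases hki : k = i
    · subst hki
      rw [if_pos rfl, if_neg hij, if_neg (Ne.symm hkl : ¬ l = k), ha k,
        F4_zero ha hb (Or.inr (Or.inl rfl))]
      by_cases hlj : l = j
      · subst hlj
        have e : (fun s : X → Bool => sg (s k) * sg (s l) * (sg (s k) * sg (s l))) =
            fun s => (1 : ℝ) := by
          funext s
          have h1 := sg_mul_self (s k)
          have h2 := sg_mul_self (s l)
          linear_combination (sg (s l) * sg (s l)) * h1 + h2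
        rw [e, Ew_const w hw.w1, if_pos rfl, ha l]
        ring
      · have e : (fun s : X → Bool => sg (s k) * sg (s j) * (sg (s k) * sg (s l))) =
            fun s => sg (s j) * sg (s l) := by
          funext s
          have h1 := sg_mul_self (s k)
          linear_combination (sg (s j) * sg (s l)) * h1
        rw [e, hw.two j l (Ne.symm hlj), if_neg hlj]
        ring
    · rw [if_neg hki]
      by_cases hkj : k = j
      · subst hkj
        rw [if_pos rfl, if_neg (Ne.symm hkl : ¬ l = k), ha k,
          F4_zero ha hb (Or.inr (Or.inr (Or.inr (Or.inl rfl))))]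
        by_cases hli : l = i
        · subst hli
          have e : (fun s : X → Bool => sg (s l) * sg (s k) * (sg (s k) * sg (s l))) =
              fun s => (1 : ℝ) := by
            funext s
            have h1 := sg_mul_self (s k)
            have h2 := sg_mul_self (s l)
            linear_combination (sg (s l) * sg (s l)) * h1 + h2
          rw [e, Ew_const w hw.w1, if_pos rfl, ha l]
          ring
        · have e : (fun s : X → Bool => sg (s i) * sg (s k) * (sg (s k) * sg (s l))) =
              fun s => sg (s i) * sg (s l) := by
            funext s
            have h1 := sg_mul_self (s k)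
            linear_combination (sg (s i) * sg (s l)) * h1
          rw [e, hw.two i l (Ne.symm hli), if_neg hli]
          ring
      · rw [if_neg hkj]
        by_cases hli : l = i
        · subst hli
          have e : (fun s : X → Bool => sg (s l) * sg (s j) * (sg (s k) * sg (s l))) =
              fun s => sg (s j) * sg (s k) := by
            funext s
            have h1 := sg_mul_self (s l)
            linear_combination (sg (s j) * sg (s k)) * h1
          rw [e, hw.two j k (Ne.symm hkj), if_pos rfl, if_neg hij,
            F4_zero ha hb (Or.inr (Or.inr (Or.inl rfl)))]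
          ring
        · rw [if_neg hli]
          by_cases hlj : l = j
          · subst hlj
            have e : (fun s : X → Bool => sg (s i) * sg (s l) * (sg (s k) * sg (s l))) =
                fun s => sg (s i) * sg (s k) := by
              funext s
              have h1 := sg_mul_self (s l)
              linear_combination (sg (s i) * sg (s k)) * h1
            rw [e, hw.two i k (Ne.symm hki), if_pos rfl,
              F4_zero ha hb (Or.inr (Or.inr (Or.inr (Or.inr (Or.inl rfl)))))]
            ring
          · rw [if_neg hlj, hw.four i j k l hij (Ne.symm hki) (Ne.symm hli) (Ne.symm hkj) (Ne.symm hlj) hkl]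
            ring

end BMV
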