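import Pool.Agent.BMV.GToolB

/-! BMV GR1 (section 4, helper94): the first matching.
Notation `A = n2 (ap a v)`, `S = SS a v`, `r_i = sqrt (ra a i) ≤ 1/8`, `w = av = ap a v`.

For fixed `i, j` put `γ_k = b_ik b_jk - 1`, `g_ik = [i = k] + a_ik^2`; `|γ_k| ≤ g_ik + g_jk` (`gam_le`). Since `a` is symmetric,
`G_ij := ∑_{kl} v_k v_l a_kl (b_ik b_jk)(b_il b_jl) - ∑_{kl} v_k v_l a_kl = 2 ∑_k γ_k v_k w_k + ∑_{kl} γ_k γ_l a_kl v_k v_l`, and the left side
is `∑_{ij} O_ij a_ij G_ij`.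
With `H_i = ∑_k g_ik |v_k||w_k| = |v_i||w_i| + ∑_k a_ik^2 |v_k||w_k|` and `Q_ij = ∑_{kl} g_ik g_jl |a_kl||v_k||v_l|` (symmetric in `i, j`):
`|G_ij| ≤ 2 (H_i + H_j) + Q_ii + 2 Q_ij + Q_jj`. By the symmetry of `|O_ij a_ij|`:
`|LHS| ≤ ∑_i D_i (4 H_i + 2 Q_ii) + 2 ∑_{ij} |O_ij||a_ij| Q_ij`, `D_i = ∑_j |O_ij||a_ij| ≤ K r_i ≤ K/8` (`Oa_le` with `c = a i`).
* `∑_i D_i 4 H_i ≤ 4 K ∑ r_i |v_i||w_i| + (K/2) ∑_{ik} a_ik^2 |v_k||w_k|`; the last sum is `∑_k r_k^2 |v_k||w_k| ≤ (1/8) ∑_k r_k |v_k||w_k|`. By `rav`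
  the total is `≤ (4 + 1/16) K (A + S)/2`.
* `Q_ii = 2 ∑_l a_il^2 |a_il||v_i||v_l| + ∑_{kl} a_ik^2 a_il^2 |a_kl||v_k||v_l|` (`a_ii = 0`); `∑_i` of the first part `≤ (2/8) S` (`|a_il| ≤ 1/8`, `sq_pair`);
  of the second `≤ (1/8) ∑_i (∑_k a_ik^2 |v_k|)^2 ≤ (1/8) ∑_i r_i^2 ∑_k a_ik^2 v_k^2 ≤ S/512`. So `∑_i D_i 2 Q_ii ≤ (K/4)(S/3)`.
* `Q_ij = |a_ij||v_i v_j| + ∑_l a_jl^2 |a_il||v_i v_l| + ∑_k a_ik^2 |a_kj||v_k v_j| + ∑_{kl} a_ik^2 a_jl^2 |a_kl||v_k v_l|`; by `sq_pair`, `t3` (twice, the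
  third sum is the second with `i, j` exchanged), `t4`: `2 ∑ |O_ij||a_ij| Q_ij ≤ 2 K (S + S/64 + S/64 + S/4096)` (`O_le`).
Total `≤ K (2.04 A + 4.3 S) ≤ 6 K (A + S)`. -/

namespace BMV

open Finset BMP

variable {X : Type} [Fintype X] [DecidableEq X]

private def gg (a : Matrix X X ℝ) (i k : X) : ℝ := (if i = k then 1 else 0) + a i k ^ 2

private def HH (a : Matrix X X ℝ) (v : X → ℝ) (i : X) : ℝ := ∑ k, gg a i k * (|v k| * |ap a v k|)

private def QR (a : Matrix X X ℝ) (v : X → ℝ) (i j : X) : ℝ :=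
  ∑ k, ∑ l, gg a i k * gg a j l * (|a k l| * (|v k| * |v l|))

private theorem gg_nonneg (a : Matrix X X ℝ) (i k : X) : 0 ≤ gg a i k := by
  unfold gg
  split_ifs <;> positivity

private theorem QR_comm {a b : Matrix X X ℝ} (h : IsAB a b) (v : X → ℝ) (i j : X) : QR a v i j = QR a v j i := by
  unfold QR
  rw [Finset.sum_comm]
  refine Finset.sum_congr rfl fun k _ => Finset.sum_congr rfl fun l _ => ?_
  rw [h.asymm l k]
  ring

private theorem G_id {a b : Matrix X X ℝ} (h : IsAB a b) (v : X → ℝ) (i j : X) :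
    ∑ k, ∑ l, v k * v l * (a k l * (b i k * b i l * b j k * b j l)) - ∑ k, ∑ l, v k * v l * a k l =
      2 * ∑ k, (b i k * b j k - 1) * (v k * ap a v k) +
        ∑ k, ∑ l, (b i k * b j k - 1) * (b i l * b j l - 1) * (a k l * (v k * v l)) := by
  have e1 : ∑ k, (b i k * b j k - 1) * (v k * ap a v k) =
      ∑ k, ∑ l, (b i k * b j k - 1) * (v k * (a k l * v l)) := by
    refine Finset.sum_congr rfl fun k _ => ?_
    unfold ap
    rw [Finset.mul_sum, Finset.mul_sum]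
  have e2 : ∑ k, (b i k * b j k - 1) * (v k * ap a v k) =
      ∑ k, ∑ l, (b i l * b j l - 1) * (v l * (a k l * v k)) := by
    rw [e1, Finset.sum_comm]
    refine Finset.sum_congr rfl fun k _ => Finset.sum_congr rfl fun l _ => ?_
    rw [h.asymm l k]
  rw [two_mul]
  nth_rw 1 [e1]
  rw [e2, ← Finset.sum_sub_distrib, ← Finset.sum_add_distrib, ← Finset.sum_add_distrib]
  refine Finset.sum_congr rfl fun k _ => ?_
  rw [← Finset.sum_sub_distrib, ← Finset.sum_add_distrib, ← Finset.sum_add_distrib]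
  refine Finset.sum_congr rfl fun l _ => ?_
  ring

private theorem G_bd {a b : Matrix X X ℝ} (h : IsAB a b) (v : X → ℝ) (i j : X) :
    |∑ k, ∑ l, v k * v l * (a k l * (b i k * b i l * b j k * b j l)) - ∑ k, ∑ l, v k * v l * a k l| ≤
      2 * (HH a v i + HH a v j) + (QR a v i i + 2 * QR a v i j + QR a v j j) := by
  rw [G_id h v i j]
  have hg : ∀ k, |b i k * b j k - 1| ≤ gg a i k + gg a j k := fun k => gam_le h i j k
  have h1 : |∑ k, (b i k * b j k - 1) * (v k * ap a v k)| ≤ HH a v i + HH a v j := by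
    unfold HH
    rw [← Finset.sum_add_distrib]
    refine (Finset.abs_sum_le_sum_abs _ _).trans (Finset.sum_le_sum fun k _ => ?_)
    rw [abs_mul, abs_mul, ← add_mul]
    exact mul_le_mul_of_nonneg_right (hg k) (by positivity)
  have h2 : |∑ k, ∑ l, (b i k * b j k - 1) * (b i l * b j l - 1) * (a k l * (v k * v l))| ≤
      QR a v i i + 2 * QR a v i j + QR a v j j := by
    have e : QR a v i i + 2 * QR a v i j + QR a v j j =
        ∑ k, ∑ l, (gg a i k + gg a j k) * (gg a i l + gg a j l) * (|a k l| * (|v k| * |v l|)) := by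
      have e3 : QR a v i i + 2 * QR a v i j + QR a v j j =
        QR a v i i + QR a v i j + QR a v j i + QR a v j j := by
        rw [QR_comm h v j i]; ring
      rw [e3]
      unfold QR
      rw [← Finset.sum_add_distrib, ← Finset.sum_add_distrib, ← Finset.sum_add_distrib]
      refine Finset.sum_congr rfl fun k _ => ?_
      rw [← Finset.sum_add_distrib, ← Finset.sum_add_distrib, ← Finset.sum_add_distrib]
      refine Finset.sum_congr rfl fun l _ => ?_
      ring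
    rw [e]
    refine (Finset.abs_sum_le_sum_abs _ _).trans (Finset.sum_le_sum fun k _ => ?_)
    refine (Finset.abs_sum_le_sum_abs _ _).trans (Finset.sum_le_sum fun l _ => ?_)
    rw [abs_mul, abs_mul, abs_mul, abs_mul]
    refine mul_le_mul_of_nonneg_right ?_ (by positivity)
    exact mul_le_mul (hg k) (hg l) (abs_nonneg _) (add_nonneg (gg_nonneg _ _ _) (gg_nonneg _ _ _))
  calc |2 * ∑ k, (b i k * b j k - 1) * (v k * ap a v k) +
        ∑ k, ∑ l, (b i k * b j k - 1) * (b i l * b j l - 1) * (a k l * (v k * v l))|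
      ≤ |2 * ∑ k, (b i k * b j k - 1) * (v k * ap a v k)| +
        |∑ k, ∑ l, (b i k * b j k - 1) * (b i l * b j l - 1) * (a k l * (v k * v l))| := abs_add_le _ _
    _ ≤ 2 * (HH a v i + HH a v j) + (QR a v i i + 2 * QR a v i j + QR a v j j) := by
        rw [abs_mul, abs_two]
        linarith

private theorem D_le {O a b : Matrix X X ℝ} {K : ℝ} (hK : 0 ≤ K) (hO : BilN O K) (h : IsAB a b) (i : X) :
    ∑ j, |O i j| * |a i j| ≤ K * Real.sqrt (ra a i) := Oa_le hK hO (a i) i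

private theorem HH_eq {a : Matrix X X ℝ} (v : X → ℝ) (i : X) :
    HH a v i = |v i| * |ap a v i| + ∑ k, a i k ^ 2 * (|v k| * |ap a v k|) := by
  unfold HH gg
  simp only [add_mul, Finset.sum_add_distrib, ite_mul, one_mul, zero_mul, Finset.sum_ite_eq, Finset.mem_univ, if_true]

private theorem DH {O a b : Matrix X X ℝ} {K : ℝ} (hK : 0 ≤ K) (hO : BilN O K) (h : IsAB a b) (v : X → ℝ) :
    ∑ i, (∑ j, |O i j| * |a i j|) * HH a v i ≤ K * (65 / 64) * ((n2 (ap a v) + SS a v) / 2) := by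
  have hr : ∀ i, Real.sqrt (ra a i) ≤ 1 / 8 := fun i => rt_le h i
  have hr0 : ∀ i, 0 ≤ Real.sqrt (ra a i) := fun i => Real.sqrt_nonneg _
  have hH : ∀ i, 0 ≤ HH a v i := fun i => Finset.sum_nonneg fun k _ => mul_nonneg (gg_nonneg _ _ _) (by positivity)
  have e1 : ∑ i, (∑ j, |O i j| * |a i j|) * HH a v i ≤
      K * ∑ i, Real.sqrt (ra a i) * (|v i| * |ap a v i|) + K * (1 / 8) * ∑ i, ∑ k, a i k ^ 2 * (|v k| * |ap a v k|) := by
    rw [Finset.mul_sum, Finset.mul_sum, ← Finset.sum_add_distrib]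
    refine Finset.sum_le_sum fun i _ => ?_
    calc (∑ j, |O i j| * |a i j|) * HH a v i ≤ (K * Real.sqrt (ra a i)) * HH a v i :=
          mul_le_mul_of_nonneg_right (D_le hK hO h i) (hH i)
      _ = K * (Real.sqrt (ra a i) * (|v i| * |ap a v i|)) +
          K * Real.sqrt (ra a i) * ∑ k, a i k ^ 2 * (|v k| * |ap a v k|) := by
          rw [HH_eq]; ring
      _ ≤ _ := by
          have h3 : 0 ≤ ∑ k, a i k ^ 2 * (|v k| * |ap a v k|) := Finset.sum_nonneg fun k _ => by positivity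
          have h4 : K * Real.sqrt (ra a i) ≤ K * (1 / 8) := mul_le_mul_of_nonneg_left (hr i) hK
          linarith [mul_le_mul_of_nonneg_right h4 h3]
  have e2 : ∑ i, ∑ k, a i k ^ 2 * (|v k| * |ap a v k|) ≤ (1 / 8) * ∑ i, Real.sqrt (ra a i) * (|v i| * |ap a v i|) := by
    rw [Finset.sum_comm, Finset.mul_sum]
    refine Finset.sum_le_sum fun k _ => ?_
    rw [← Finset.sum_mul]
    have e3 : ∑ i, a i k ^ 2 = Real.sqrt (ra a k) * Real.sqrt (ra a k) := by
      rw [Real.mul_self_sqrt (ra_nonneg a k)]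
      unfold ra
      exact Finset.sum_congr rfl fun i _ => by rw [h.asymm i k]
    rw [e3]
    have h5 : Real.sqrt (ra a k) * Real.sqrt (ra a k) ≤ (1 / 8) * Real.sqrt (ra a k) :=
      mul_le_mul_of_nonneg_right (hr k) (hr0 k)
    have h6 : 0 ≤ |v k| * |ap a v k| := by positivity
    linarith [mul_le_mul_of_nonneg_right h5 h6]
  have e4 := rav a v
  have e5 : K * ∑ i, Real.sqrt (ra a i) * (|v i| * |ap a v i|) ≤ K * ((n2 (ap a v) + SS a v) / 2) :=
    mul_le_mul_of_nonneg_left e4 hK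
  have e6 : K * (1 / 8) * ∑ i, ∑ k, a i k ^ 2 * (|v k| * |ap a v k|) ≤
      K * (1 / 8) * ((1 / 8) * ∑ i, Real.sqrt (ra a i) * (|v i| * |ap a v i|)) :=
    mul_le_mul_of_nonneg_left e2 (by positivity)
  linarith

private theorem QR_eq {a b : Matrix X X ℝ} (h : IsAB a b) (v : X → ℝ) (i j : X) :
    QR a v i j = |a i j| * (|v i| * |v j|) + ∑ l, a j l ^ 2 * (|a i l| * (|v i| * |v l|)) +
      ∑ k, a i k ^ 2 * (|a k j| * (|v k| * |v j|)) +
      ∑ k, ∑ l, a i k ^ 2 * a j l ^ 2 * (|a k l| * (|v k| * |v l|)) := by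
  unfold QR gg
  simp only [add_mul, mul_add, Finset.sum_add_distrib, ite_mul, mul_ite, one_mul, zero_mul, mul_one, mul_zero,
    Finset.sum_ite_eq, Finset.sum_ite_irrel, Finset.sum_const_zero, Finset.mem_univ, if_true]
  ring

private theorem Qii {a b : Matrix X X ℝ} (h : IsAB a b) (v : X → ℝ) :
    ∑ i, QR a v i i ≤ SS a v / 3 := by
  have ha8 : ∀ i j, |a i j| ≤ 1 / 8 := fun i j => a_abs_le h i j
  have e1 : ∀ i, QR a v i i ≤ 2 * ((1 / 8) * ∑ l, a i l ^ 2 * (|v i| * |v l|)) +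
      ∑ k, ∑ l, a i k ^ 2 * a i l ^ 2 * (|a k l| * (|v k| * |v l|)) := by
    intro i
    rw [QR_eq h, h.adiag i]
    have h1 : ∑ l, a i l ^ 2 * (|a i l| * (|v i| * |v l|)) ≤ (1 / 8) * ∑ l, a i l ^ 2 * (|v i| * |v l|) := by
      rw [Finset.mul_sum]
      refine Finset.sum_le_sum fun l _ => ?_
      have := mul_le_mul_of_nonneg_right (ha8 i l) (show 0 ≤ a i l ^ 2 * (|v i| * |v l|) by positivity)
      linarith
    have h2 : ∑ k, a i k ^ 2 * (|a k i| * (|v k| * |v i|)) ≤ (1 / 8) * ∑ l, a i l ^ 2 * (|v i| * |v l|) := by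
      rw [Finset.mul_sum]
      refine Finset.sum_le_sum fun l _ => ?_
      have := mul_le_mul_of_nonneg_right (ha8 l i) (show 0 ≤ a i l ^ 2 * (|v i| * |v l|) by positivity)
      linarith
    simp only [abs_zero, zero_mul, zero_add]
    linarith
  have e2 : ∑ i, ∑ l, a i l ^ 2 * (|v i| * |v l|) ≤ SS a v := sq_pair h v
  have e3 : ∑ i, ∑ k, ∑ l, a i k ^ 2 * a i l ^ 2 * (|a k l| * (|v k| * |v l|)) ≤ SS a v / 512 := by
    have hi : ∀ i, ∑ k, ∑ l, a i k ^ 2 * a i l ^ 2 * (|a k l| * (|v k| * |v l|)) ≤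
        (1 / 8) * ((1 / 64) * ∑ k, a i k ^ 2 * v k ^ 2) := by
      intro i
      have h1 : ∑ k, ∑ l, a i k ^ 2 * a i l ^ 2 * (|a k l| * (|v k| * |v l|)) ≤
          (1 / 8) * (∑ k, a i k ^ 2 * |v k|) ^ 2 := by
        rw [sq, Finset.sum_mul_sum, Finset.mul_sum]
        refine Finset.sum_le_sum fun k _ => ?_
        rw [Finset.mul_sum]
        refine Finset.sum_le_sum fun l _ => ?_
        have := mul_le_mul_of_nonneg_right (ha8 k l) (show 0 ≤ a i k ^ 2 * |v k| * (a i l ^ 2 * |v l|) by positivity)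
        linarith
      have h2 : (∑ k, a i k ^ 2 * |v k|) ^ 2 ≤ (∑ k, a i k ^ 2) * (∑ k, a i k ^ 2 * v k ^ 2) := by
        have := Finset.sum_mul_sq_le_sq_mul_sq Finset.univ (fun k => |a i k|) (fun k => |a i k| * |v k|)
        have e4 : ∑ k, |a i k| * (|a i k| * |v k|) = ∑ k, a i k ^ 2 * |v k| :=
          Finset.sum_congr rfl fun k _ => by rw [← mul_assoc, ← sq, sq_abs]
        have e5 : ∑ k, |a i k| ^ 2 = ∑ k, a i k ^ 2 := Finset.sum_congr rfl fun k _ => by rw [sq_abs]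
        have e6 : ∑ k, (|a i k| * |v k|) ^ 2 = ∑ k, a i k ^ 2 * v k ^ 2 :=
          Finset.sum_congr rfl fun k _ => by rw [mul_pow, sq_abs, sq_abs]
        rw [e4, e5, e6] at this
        exact this
      have h3 : ∑ k, a i k ^ 2 ≤ 1 / 64 := h.row i
      have h4 : 0 ≤ ∑ k, a i k ^ 2 * v k ^ 2 := Finset.sum_nonneg fun k _ => by positivity
      linarith [mul_le_mul_of_nonneg_right h3 h4]
    calc ∑ i, ∑ k, ∑ l, a i k ^ 2 * a i l ^ 2 * (|a k l| * (|v k| * |v l|))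
        ≤ ∑ i, (1 / 8) * ((1 / 64) * ∑ k, a i k ^ 2 * v k ^ 2) := Finset.sum_le_sum fun i _ => hi i
      _ = SS a v / 512 := by
        rw [SS_eq h, ← Finset.mul_sum, ← Finset.mul_sum]
        ring
  have e7 : ∑ i, QR a v i i ≤ 2 * ((1 / 8) * ∑ i, ∑ l, a i l ^ 2 * (|v i| * |v l|)) +
      ∑ i, ∑ k, ∑ l, a i k ^ 2 * a i l ^ 2 * (|a k l| * (|v k| * |v l|)) := by
    rw [Finset.mul_sum, Finset.mul_sum, ← Finset.sum_add_distrib]
    exact Finset.sum_le_sum fun i _ => e1 i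
  have := SS_nonneg a v
  linarith

private theorem OQ {O a b : Matrix X X ℝ} {K : ℝ} (hK : 0 ≤ K) (hO : BilN O K) (h : IsAB a b) (v : X → ℝ) :
    ∑ i, ∑ j, |O i j| * |a i j| * QR a v i j ≤ K * (SS a v + SS a v / 64 + SS a v / 64 + SS a v / 4096) := by
  have h1 : ∑ i, ∑ j, |O i j| * |a i j| * QR a v i j ≤ K * ∑ i, ∑ j, |a i j| * QR a v i j := by
    rw [Finset.mul_sum]
    refine Finset.sum_le_sum fun i _ => ?_
    rw [Finset.mul_sum]
    refine Finset.sum_le_sum fun j _ => ?_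
    have hQ : 0 ≤ QR a v i j := Finset.sum_nonneg fun k _ => Finset.sum_nonneg fun l _ =>
      mul_nonneg (mul_nonneg (gg_nonneg _ _ _) (gg_nonneg _ _ _)) (by positivity)
    have := mul_le_mul_of_nonneg_right (O_le hO i j) (show 0 ≤ |a i j| * QR a v i j by positivity)
    linarith
  refine h1.trans (mul_le_mul_of_nonneg_left ?_ hK)
  have s1 := sq_pair h v
  have s2 := t3 h v
  have s4 := t4 h v
  have e : ∑ i, ∑ j, |a i j| * QR a v i j = ∑ i, ∑ j, a i j ^ 2 * (|v i| * |v j|) +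
      ∑ i, ∑ j, ∑ l, |a i j| * a j l ^ 2 * |a i l| * (|v i| * |v l|) +
      ∑ i, ∑ j, ∑ l, |a j i| * a i l ^ 2 * |a j l| * (|v j| * |v l|) +
      ∑ i, ∑ j, ∑ k, ∑ l, |a i j| * a i k ^ 2 * a j l ^ 2 * |a k l| * (|v k| * |v l|) := by
    rw [← Finset.sum_add_distrib, ← Finset.sum_add_distrib, ← Finset.sum_add_distrib]
    refine Finset.sum_congr rfl fun i _ => ?_
    rw [← Finset.sum_add_distrib, ← Finset.sum_add_distrib, ← Finset.sum_add_distrib]
    refine Finset.sum_congr rfl fun j _ => ?_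
    rw [QR_eq h, mul_add, mul_add, mul_add]
    congr 1
    · congr 1
      · congr 1
        · rw [← mul_assoc, ← sq, sq_abs]
        · rw [Finset.mul_sum]
          exact Finset.sum_congr rfl fun l _ => by ring
      · rw [Finset.mul_sum]
        refine Finset.sum_congr rfl fun l _ => ?_
        rw [h.asymm j i, h.asymm l j]
        ring
    · rw [Finset.mul_sum]
      refine Finset.sum_congr rfl fun k _ => ?_
      rw [Finset.mul_sum]
      exact Finset.sum_congr rfl fun l _ => by ring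
  have s3 : ∑ i, ∑ j, ∑ l, |a j i| * a i l ^ 2 * |a j l| * (|v j| * |v l|) ≤ SS a v / 64 := by
    rw [Finset.sum_comm]
    exact s2
  rw [e]
  linarith

theorem R1 {O a b : Matrix X X ℝ} {K : ℝ} (hK : 0 ≤ K) (hO : BilN O K) (hOs : ∀ i j, O i j = O j i)
    (hO0 : ∀ i, O i i = 0) (h : IsAB a b) (v : X → ℝ) :
    |∑ i, ∑ j, O i j * (∑ k, ∑ l, v k * v l * (a i j * a k l * (b i k * b i l * b j k * b j l)) -
      a i j * ∑ k, ∑ l, v k * v l * a k l)| ≤ 6 * K * (n2 (ap a v) + SS a v) := by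
  have e1 : ∀ i j, O i j * (∑ k, ∑ l, v k * v l * (a i j * a k l * (b i k * b i l * b j k * b j l)) -
      a i j * ∑ k, ∑ l, v k * v l * a k l) = O i j * a i j *
      (∑ k, ∑ l, v k * v l * (a k l * (b i k * b i l * b j k * b j l)) - ∑ k, ∑ l, v k * v l * a k l) := by
    intro i j
    have : ∑ k, ∑ l, v k * v l * (a i j * a k l * (b i k * b i l * b j k * b j l)) =
        a i j * ∑ k, ∑ l, v k * v l * (a k l * (b i k * b i l * b j k * b j l)) := by
      rw [Finset.mul_sum]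
      refine Finset.sum_congr rfl fun k _ => ?_
      rw [Finset.mul_sum]
      exact Finset.sum_congr rfl fun l _ => by ring
    rw [this]
    ring
  have e2 : |∑ i, ∑ j, O i j * (∑ k, ∑ l, v k * v l * (a i j * a k l * (b i k * b i l * b j k * b j l)) -
      a i j * ∑ k, ∑ l, v k * v l * a k l)| ≤
      ∑ i, ∑ j, |O i j| * |a i j| * (2 * (HH a v i + HH a v j) + (QR a v i i + 2 * QR a v i j + QR a v j j)) := by
    refine (Finset.abs_sum_le_sum_abs _ _).trans (Finset.sum_le_sum fun i _ => ?_)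
    refine (Finset.abs_sum_le_sum_abs _ _).trans (Finset.sum_le_sum fun j _ => ?_)
    rw [e1, abs_mul, abs_mul]
    exact mul_le_mul_of_nonneg_left (G_bd h v i j) (by positivity)
  have e3 : ∑ i, ∑ j, |O i j| * |a i j| * (2 * (HH a v i + HH a v j) + (QR a v i i + 2 * QR a v i j + QR a v j j)) =
      4 * ∑ i, (∑ j, |O i j| * |a i j|) * HH a v i + 2 * ∑ i, (∑ j, |O i j| * |a i j|) * QR a v i i +
        2 * ∑ i, ∑ j, |O i j| * |a i j| * QR a v i j := by
    have f1 : ∀ F : X → ℝ, ∑ i, ∑ j, |O i j| * |a i j| * F j = ∑ i, ∑ j, |O i j| * |a i j| * F i := by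
      intro F
      rw [Finset.sum_comm]
      refine Finset.sum_congr rfl fun i _ => Finset.sum_congr rfl fun j _ => ?_
      rw [hOs j i, h.asymm j i]
    have f2 : ∑ i, ∑ j, |O i j| * |a i j| * (2 * (HH a v i + HH a v j) + (QR a v i i + 2 * QR a v i j + QR a v j j)) =
        2 * ∑ i, ∑ j, |O i j| * |a i j| * HH a v i + 2 * ∑ i, ∑ j, |O i j| * |a i j| * HH a v j +
        (∑ i, ∑ j, |O i j| * |a i j| * QR a v i i + 2 * ∑ i, ∑ j, |O i j| * |a i j| * QR a v i j +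
          ∑ i, ∑ j, |O i j| * |a i j| * QR a v j j) := by
      simp only [Finset.mul_sum, ← Finset.sum_add_distrib]
      refine Finset.sum_congr rfl fun i _ => Finset.sum_congr rfl fun j _ => ?_
      ring
    rw [f2, f1 (fun j => HH a v j), f1 (fun j => QR a v j j)]
    simp only [Finset.sum_mul]
    ring
  rw [e3] at e2
  have hD : ∀ i, ∑ j, |O i j| * |a i j| ≤ K * (1 / 8) := fun i =>
    (D_le hK hO h i).trans (mul_le_mul_of_nonneg_left (rt_le h i) hK)
  have hQ : ∀ i j, 0 ≤ QR a v i j := fun i j => Finset.sum_nonneg fun k _ => Finset.sum_nonneg fun l _ =>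
      mul_nonneg (mul_nonneg (gg_nonneg _ _ _) (gg_nonneg _ _ _)) (by positivity)
  have e4 : ∑ i, (∑ j, |O i j| * |a i j|) * QR a v i i ≤ K * (1 / 8) * (SS a v / 3) := by
    calc ∑ i, (∑ j, |O i j| * |a i j|) * QR a v i i ≤ ∑ i, K * (1 / 8) * QR a v i i :=
          Finset.sum_le_sum fun i _ => mul_le_mul_of_nonneg_right (hD i) (hQ i i)
      _ = K * (1 / 8) * ∑ i, QR a v i i := by rw [Finset.mul_sum]
      _ ≤ _ := mul_le_mul_of_nonneg_left (Qii h v) (by positivity)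
  have e5 := DH hK hO h v
  have e6 := OQ hK hO h v
  have hA : 0 ≤ K * n2 (ap a v) := mul_nonneg hK (Finset.sum_nonneg fun i _ => sq_nonneg _)
  have hS : 0 ≤ K * SS a v := mul_nonneg hK (SS_nonneg a v)
  linarith

end BMV
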