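import Pool.Agent.BMV.GToolB

/-! BMV GR2 (section 4, helper94): the second (and third) matching.
Notation `A = n2 (ap a v)`, `S = SS a v`, `r_i = sqrt (ra a i) ≤ 1/8`, `w = av = ap a v`, `e_ij = eps a b v i j`.

For fixed `i, j` let `p_k = a_ik b_jk v_k`, `q_l = a_jl b_il v_l`; `∑_k p_k = w_i + e_ij`, `∑_l q_l = w_j + e_ji` (`sum_ab`).
`b_kl = 1 - [k = l] + c_kl` with `0 ≤ c_kl ≤ a_kl^2/2`, `c_kk = 0`. Hence the left side is (a) + (b) + (b') + (c) - (d) + (e) with
(a) `∑_{ij} O_ij b_ij w_i w_j`: `≤ K (129/128) A` (`Ob_le` with `α = β = w`).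
(b) `∑ O_ij b_ij w_i e_ji`: `b_ij ≤ 129/128`, `|e_ji| ≤ |a_ij||v_i| + (1/2) ∑_k |a_jk| a_ik^2 |v_k|` (`eps_le`), so
   `≤ (129/128) [ ∑_i |w_i||v_i| K r_i + (1/2) ∑_{ik} |w_i| a_ik^2 |v_k| K r_k ]` (`Oa_le` for the sum over `j`) and
   `∑_{ik} a_ik^2 |w_i| r_k |v_k| ≤ (1/2) ∑_{ik} a_ik^2 (w_i^2 + r_k^2 v_k^2) ≤ (A + S)/128`. By `rav`: (b) `≤ (129/128) K (1/2 + 1/256)(A + S) ≤ .51 K (A + S)`.
(b') `∑ O_ij b_ij e_ij w_j` is equal to (b) by exchanging `i, j`.
(c) `∑ O_ij b_ij e_ij e_ji`: `≤ (129/128) K ∑ (e_ij^2 + e_ji^2)/2 = (129/128) K ∑ e_ij^2 ≤ 2.04 K S` (`eps_sq`).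
(d) `∑_k v_k^2 ∑_{ij} O_ij b_ij (a_ik b_ik)(a_jk b_jk)`: for each `k`, `α_i = a_ik b_ik`, `n2 α ≤ (129/128)^2 r_k^2`, `Ob_le`: `≤ 1.03 K S`.
(e) `∑_{kl} c_kl v_k v_l ∑_{ij} O_ij b_ij (a_ik b_il)(a_jl b_jk)`: for each `k, l`: `α_i = a_ik b_il`, `β_j = a_jl b_jk`, `Ob_le`:
   `≤ 1.03 K (r_k^2 + r_l^2)/2 ≤ 1.03 K/64`; `∑_{kl} c_kl |v_k v_l| ≤ S/2` (`sq_pair`). So `≤ K S/100`.
Total `≤ K (2.1 A + 4.2 S) ≤ 6 K (A + S)`. -/

namespace BMV

open Finset BMP

variable {X : Type} [Fintype X] [DecidableEq X]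

/-- (a) -/
theorem r2_a {O a b : Matrix X X ℝ} {K : ℝ} (hK : 0 ≤ K) (hO : BilN O K)
    (hO0 : ∀ i, O i i = 0) (h : IsAB a b) (v : X → ℝ) :
    |∑ i, ∑ j, O i j * b i j * (ap a v i * ap a v j)| ≤ K * (129 / 128) * n2 (ap a v) := by
  have := Ob_le hK hO hO0 h (ap a v) (ap a v)
  linarith

/-- (b) -/
theorem r2_b {O a b : Matrix X X ℝ} {K : ℝ} (hK : 0 ≤ K) (hO : BilN O K)
    (h : IsAB a b) (v : X → ℝ) :
    |∑ i, ∑ j, O i j * b i j * (ap a v i * eps a b v j i)| ≤ 51 / 100 * (K * (n2 (ap a v) + SS a v)) +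
      K * (n2 (ap a v) + SS a v) / 100 := by
  have hA : 0 ≤ n2 (ap a v) := sum_nonneg fun i _ => sq_nonneg _
  have hS0 := SS_nonneg a v
  have hR0 : ∀ k, ∑ i, a i k ^ 2 = ra a k := fun k => by
    unfold ra
    exact sum_congr rfl fun i _ => by rw [h.asymm]
  have hT : ∀ i j, |O i j * b i j * (ap a v i * eps a b v j i)| ≤
      129 / 128 * (|ap a v i| * |v i| * (|O i j| * |a i j|) +
        (∑ k, |ap a v i| * a i k ^ 2 * |v k| * (|O i j| * |a j k|)) / 2) := by
    intro i j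
    rw [abs_mul, abs_mul, abs_mul, abs_of_nonneg (b_nonneg h i j)]
    have h1 := eps_le h v j i
    have h2 := b_le h i j
    have h3 := b_nonneg h i j
    calc |O i j| * b i j * (|ap a v i| * |eps a b v j i|)
        ≤ |O i j| * (129 / 128) * (|ap a v i| * (|a j i| * |v i| + (∑ k, |a j k| * a i k ^ 2 * |v k|) / 2)) := by
          gcongr
      _ = 129 / 128 * (|ap a v i| * |v i| * (|O i j| * |a i j|) +
            (|O i j| * |ap a v i|) * (∑ k, |a j k| * a i k ^ 2 * |v k|) / 2) := by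
          rw [h.asymm j i]
          ring
      _ = _ := by
          congr 3
          rw [mul_sum]
          exact sum_congr rfl fun k _ => by ring
  have h1 : |∑ i, ∑ j, O i j * b i j * (ap a v i * eps a b v j i)| ≤
      ∑ i, ∑ j, 129 / 128 * (|ap a v i| * |v i| * (|O i j| * |a i j|) +
        (∑ k, |ap a v i| * a i k ^ 2 * |v k| * (|O i j| * |a j k|)) / 2) :=
    (abs_sum_le_sum_abs _ _).trans (sum_le_sum fun i _ => (abs_sum_le_sum_abs _ _).trans
      (sum_le_sum fun j _ => hT i j))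
  have h2 : ∑ i, ∑ j, 129 / 128 * (|ap a v i| * |v i| * (|O i j| * |a i j|) +
        (∑ k, |ap a v i| * a i k ^ 2 * |v k| * (|O i j| * |a j k|)) / 2) =
      129 / 128 * (∑ i, |ap a v i| * |v i| * (∑ j, |O i j| * |a i j|) +
        (∑ i, ∑ k, |ap a v i| * a i k ^ 2 * |v k| * (∑ j, |O i j| * |a j k|)) / 2) := by
    have c1 : ∑ i, ∑ k, |ap a v i| * a i k ^ 2 * |v k| * (∑ j, |O i j| * |a j k|) =
        ∑ i, ∑ j, ∑ k, |ap a v i| * a i k ^ 2 * |v k| * (|O i j| * |a j k|) := by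
      refine sum_congr rfl fun i _ => ?_
      simp only [mul_sum]
      rw [sum_comm]
    rw [c1, sum_div, ← sum_add_distrib, mul_sum]
    refine sum_congr rfl fun i _ => ?_
    rw [mul_sum, sum_div, ← sum_add_distrib, mul_sum]
  have h3 : ∑ i, |ap a v i| * |v i| * (∑ j, |O i j| * |a i j|) ≤ K * ((n2 (ap a v) + SS a v) / 2) := by
    calc ∑ i, |ap a v i| * |v i| * (∑ j, |O i j| * |a i j|)
        ≤ ∑ i, K * (Real.sqrt (ra a i) * (|v i| * |ap a v i|)) := by
          refine sum_le_sum fun i _ => ?_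
          have := Oa_le hK hO (fun j => a i j) i
          have h5 : ∑ j, |O i j| * |a i j| ≤ K * Real.sqrt (ra a i) := this
          have h6 : 0 ≤ |ap a v i| * |v i| := by positivity
          calc |ap a v i| * |v i| * (∑ j, |O i j| * |a i j|) ≤ |ap a v i| * |v i| * (K * Real.sqrt (ra a i)) :=
                mul_le_mul_of_nonneg_left h5 h6
            _ = _ := by ring
      _ = K * ∑ i, Real.sqrt (ra a i) * (|v i| * |ap a v i|) := by rw [mul_sum]
      _ ≤ _ := mul_le_mul_of_nonneg_left (rav a v) hK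
  have h4 : ∑ i, ∑ k, |ap a v i| * a i k ^ 2 * |v k| * (∑ j, |O i j| * |a j k|) ≤
      K * ((n2 (ap a v) + SS a v) / 128) := by
    have g1 : ∀ i k, |ap a v i| * a i k ^ 2 * |v k| * (∑ j, |O i j| * |a j k|) ≤
        K * (a i k ^ 2 * (ap a v i ^ 2) / 2 + a i k ^ 2 * (ra a k * v k ^ 2) / 2) := by
      intro i k
      have h5 : ∑ j, |O i j| * |a j k| ≤ K * Real.sqrt (ra a k) := by
        have := Oa_le hK hO (fun j => a j k) i
        rwa [hR0] at this
      have h6 : 0 ≤ |ap a v i| * a i k ^ 2 * |v k| := by positivity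
      have h7 : |ap a v i| * (|v k| * Real.sqrt (ra a k)) ≤ ap a v i ^ 2 / 2 + ra a k * v k ^ 2 / 2 := by
        have e1 : (|v k| * Real.sqrt (ra a k)) ^ 2 = ra a k * v k ^ 2 := by
          rw [mul_pow, sq_abs, Real.sq_sqrt (ra_nonneg a k)]
          ring
        nlinarith [sq_nonneg (|ap a v i| - |v k| * Real.sqrt (ra a k)), sq_abs (ap a v i)]
      calc |ap a v i| * a i k ^ 2 * |v k| * (∑ j, |O i j| * |a j k|)
          ≤ |ap a v i| * a i k ^ 2 * |v k| * (K * Real.sqrt (ra a k)) := mul_le_mul_of_nonneg_left h5 h6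
        _ = K * a i k ^ 2 * (|ap a v i| * (|v k| * Real.sqrt (ra a k))) := by ring
        _ ≤ K * a i k ^ 2 * (ap a v i ^ 2 / 2 + ra a k * v k ^ 2 / 2) :=
            mul_le_mul_of_nonneg_left h7 (by positivity)
        _ = _ := by ring
    have g2 : ∑ i, ∑ k, a i k ^ 2 * (ap a v i ^ 2) / 2 ≤ n2 (ap a v) / 128 := by
      unfold n2
      rw [sum_div]
      refine sum_le_sum fun i _ => ?_
      have : ∑ k, a i k ^ 2 * (ap a v i ^ 2) / 2 = ra a i * ap a v i ^ 2 / 2 := by
        unfold ra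
        rw [sum_mul, sum_div]
      rw [this]
      nlinarith [h.row i, sq_nonneg (ap a v i)]
    have g3 : ∑ i, ∑ k, a i k ^ 2 * (ra a k * v k ^ 2) / 2 ≤ SS a v / 128 := by
      rw [sum_comm]
      unfold SS
      rw [sum_div]
      refine sum_le_sum fun k _ => ?_
      have : ∑ i, a i k ^ 2 * (ra a k * v k ^ 2) / 2 = ra a k * (ra a k * v k ^ 2) / 2 := by
        rw [← sum_div, ← sum_mul, hR0]
      rw [this]
      have h8 : 0 ≤ ra a k * v k ^ 2 := mul_nonneg (ra_nonneg a k) (sq_nonneg _)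
      nlinarith [h.row k]
    calc ∑ i, ∑ k, |ap a v i| * a i k ^ 2 * |v k| * (∑ j, |O i j| * |a j k|)
        ≤ ∑ i, ∑ k, K * (a i k ^ 2 * (ap a v i ^ 2) / 2 + a i k ^ 2 * (ra a k * v k ^ 2) / 2) :=
          sum_le_sum fun i _ => sum_le_sum fun k _ => g1 i k
      _ = K * (∑ i, ∑ k, a i k ^ 2 * (ap a v i ^ 2) / 2 + ∑ i, ∑ k, a i k ^ 2 * (ra a k * v k ^ 2) / 2) := by
          rw [← sum_add_distrib, mul_sum]
          refine sum_congr rfl fun i _ => ?_
          rw [← sum_add_distrib, mul_sum]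
      _ ≤ _ := mul_le_mul_of_nonneg_left (by linarith) hK
  rw [h2] at h1
  have hKA : 0 ≤ K * (n2 (ap a v) + SS a v) := mul_nonneg hK (by linarith)
  nlinarith

/-- (c) -/
theorem r2_c {O a b : Matrix X X ℝ} {K : ℝ} (hK : 0 ≤ K) (hO : BilN O K)
    (h : IsAB a b) (v : X → ℝ) :
    |∑ i, ∑ j, O i j * b i j * (eps a b v i j * eps a b v j i)| ≤ K * (205 / 100) * SS a v := by
  have hS0 := SS_nonneg a v
  have hT : ∀ i j, |O i j * b i j * (eps a b v i j * eps a b v j i)| ≤
      K * (129 / 128) / 2 * eps a b v i j ^ 2 + K * (129 / 128) / 2 * eps a b v j i ^ 2 := by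
    intro i j
    rw [abs_mul, abs_mul, abs_of_nonneg (b_nonneg h i j)]
    have h1 := O_le hO i j
    have h2 := b_le h i j
    have h3 := b_nonneg h i j
    have h4 : |eps a b v i j * eps a b v j i| ≤ eps a b v i j ^ 2 / 2 + eps a b v j i ^ 2 / 2 := by
      rw [abs_mul]
      nlinarith [sq_nonneg (|eps a b v i j| - |eps a b v j i|), sq_abs (eps a b v i j), sq_abs (eps a b v j i)]
    calc |O i j| * b i j * |eps a b v i j * eps a b v j i|
        ≤ K * (129 / 128) * (eps a b v i j ^ 2 / 2 + eps a b v j i ^ 2 / 2) := by gcongr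
      _ = _ := by ring
  have h1 : |∑ i, ∑ j, O i j * b i j * (eps a b v i j * eps a b v j i)| ≤
      ∑ i, ∑ j, (K * (129 / 128) / 2 * eps a b v i j ^ 2 + K * (129 / 128) / 2 * eps a b v j i ^ 2) :=
    (abs_sum_le_sum_abs _ _).trans (sum_le_sum fun i _ => (abs_sum_le_sum_abs _ _).trans
      (sum_le_sum fun j _ => hT i j))
  have h2 : ∑ i, ∑ j, (K * (129 / 128) / 2 * eps a b v i j ^ 2 + K * (129 / 128) / 2 * eps a b v j i ^ 2) =
      K * (129 / 128) * ∑ i, ∑ j, eps a b v i j ^ 2 := by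
    have c1 : ∑ i, ∑ j, K * (129 / 128) / 2 * eps a b v j i ^ 2 =
        ∑ i, ∑ j, K * (129 / 128) / 2 * eps a b v i j ^ 2 := sum_comm
    simp only [sum_add_distrib]
    rw [c1, ← two_mul]
    simp only [← mul_sum]
    ring
  rw [h2] at h1
  have h3 := mul_le_mul_of_nonneg_left (eps_sq h v) (by positivity : 0 ≤ K * (129 / 128))
  have hKS : 0 ≤ K * SS a v := mul_nonneg hK hS0
  nlinarith

/-- (d) and (e): the part with `b_kl - 1` -/
theorem r2_de {O a b : Matrix X X ℝ} {K : ℝ} (hK : 0 ≤ K) (hO : BilN O K)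
    (hO0 : ∀ i, O i i = 0) (h : IsAB a b) (v : X → ℝ) :
    |∑ k, ∑ l, v k * v l * (b k l - 1) * ∑ i, ∑ j, O i j * b i j * ((a i k * b i l) * (a j l * b j k))| ≤
      K * (12 / 10) * SS a v := by
  have hS0 := SS_nonneg a v
  have hR0 : ∀ k, ∑ i, a i k ^ 2 = ra a k := fun k => by
    unfold ra
    exact sum_congr rfl fun i _ => by rw [h.asymm]
  have hn : ∀ k l, n2 (fun i => a i k * b i l) ≤ (129 / 128) ^ 2 * ra a k := by
    intro k l
    unfold n2
    rw [← hR0, mul_sum]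
    refine sum_le_sum fun i _ => ?_
    have h3 := b_le h i l
    have h4 := b_nonneg h i l
    have h5 : b i l ^ 2 ≤ (129 / 128) ^ 2 := by nlinarith
    calc (a i k * b i l) ^ 2 = b i l ^ 2 * a i k ^ 2 := by ring
      _ ≤ _ := mul_le_mul_of_nonneg_right h5 (sq_nonneg _)
  have hI : ∀ k l, |∑ i, ∑ j, O i j * b i j * ((a i k * b i l) * (a j l * b j k))| ≤
      K * (103 / 100) * ((ra a k + ra a l) / 2) := by
    intro k l
    have h1 := Ob_le hK hO hO0 h (fun i => a i k * b i l) (fun j => a j l * b j k)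
    have h2 := hn k l
    have h3 := hn l k
    have h4 := ra_nonneg a k
    have h5 := ra_nonneg a l
    refine h1.trans ?_
    have h6 : n2 (fun i => a i k * b i l) + n2 (fun j => a j l * b j k) ≤ (129 / 128) ^ 2 * (ra a k + ra a l) := by
      linarith
    have h7 : 0 ≤ K * (129 / 128) := by positivity
    have h8 : 0 ≤ K * (ra a k + ra a l) := mul_nonneg hK (by linarith)
    nlinarith [mul_le_mul_of_nonneg_left h6 h7]
  have hb1 : ∀ k l, |b k l - 1| ≤ (if k = l then 1 else 0) + a k l ^ 2 / 2 := by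
    intro k l
    by_cases hkl : k = l
    · subst hkl
      rw [h.bdiag, if_pos rfl, h.adiag]
      norm_num
    · rw [if_neg hkl, abs_of_nonneg (by linarith [h.b1 k l hkl])]
      linarith [h.b2 k l hkl]
  have hT : ∀ k l, |v k * v l * (b k l - 1) * ∑ i, ∑ j, O i j * b i j * ((a i k * b i l) * (a j l * b j k))| ≤
      (if k = l then K * (103 / 100) * (ra a k * v k ^ 2) else 0) + K * (103 / 100) / 128 * (a k l ^ 2 * (|v k| * |v l|)) := by
    intro k l
    rw [abs_mul, abs_mul, abs_mul]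
    have h1 := hI k l
    have h2 := hb1 k l
    by_cases hkl : k = l
    · subst hkl
      rw [if_pos rfl] at h2 ⊢
      rw [h.adiag] at h2 ⊢
      have h3 : |b k k - 1| ≤ 1 := by simpa using h2
      have h4 : |v k| * |v k| = v k ^ 2 := by rw [← sq, sq_abs]
      rw [h4]
      have h5 : K * (103 / 100) * ((ra a k + ra a k) / 2) = K * (103 / 100) * ra a k := by ring
      rw [h5] at h1
      have h6 : v k ^ 2 * |b k k - 1| ≤ v k ^ 2 := by nlinarith [sq_nonneg (v k)]
      calc v k ^ 2 * |b k k - 1| * |∑ i, ∑ j, O i j * b i j * (a i k * b i k * (a j k * b j k))|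
          ≤ v k ^ 2 * (K * (103 / 100) * ra a k) := mul_le_mul h6 h1 (abs_nonneg _) (sq_nonneg _)
        _ = _ := by ring
    · rw [if_neg hkl] at h2 ⊢
      have h3 : |b k l - 1| ≤ a k l ^ 2 / 2 := by simpa using h2
      have h5 : K * (103 / 100) * ((ra a k + ra a l) / 2) ≤ K * (103 / 100) / 64 := by
        have := h.row k
        have := h.row l
        have h8 : 0 ≤ K * (103 / 100) := by positivity
        nlinarith
      have h6 : 0 ≤ |v k| * |v l| := by positivity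
      calc |v k| * |v l| * |b k l - 1| * |∑ i, ∑ j, O i j * b i j * (a i k * b i l * (a j l * b j k))|
          ≤ |v k| * |v l| * (a k l ^ 2 / 2) * (K * (103 / 100) / 64) :=
            mul_le_mul (mul_le_mul_of_nonneg_left h3 h6) (h1.trans h5) (abs_nonneg _) (by positivity)
        _ = _ := by ring
  calc |∑ k, ∑ l, v k * v l * (b k l - 1) * ∑ i, ∑ j, O i j * b i j * ((a i k * b i l) * (a j l * b j k))|
      ≤ ∑ k, ∑ l, |v k * v l * (b k l - 1) * ∑ i, ∑ j, O i j * b i j * ((a i k * b i l) * (a j l * b j k))| :=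
        (abs_sum_le_sum_abs _ _).trans (sum_le_sum fun k _ => abs_sum_le_sum_abs _ _)
    _ ≤ ∑ k, ∑ l, ((if k = l then K * (103 / 100) * (ra a k * v k ^ 2) else 0) +
          K * (103 / 100) / 128 * (a k l ^ 2 * (|v k| * |v l|))) :=
        sum_le_sum fun k _ => sum_le_sum fun l _ => hT k l
    _ = K * (103 / 100) * SS a v + K * (103 / 100) / 128 * ∑ k, ∑ l, a k l ^ 2 * (|v k| * |v l|) := by
        simp only [sum_add_distrib, sum_ite_eq, mem_univ, if_true]
        unfold SS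
        simp only [mul_sum]
    _ ≤ _ := by
        have h1 := mul_le_mul_of_nonneg_left (sq_pair h v) (by positivity : 0 ≤ K * (103 / 100) / 128)
        have hKS : 0 ≤ K * SS a v := mul_nonneg hK hS0
        nlinarith

theorem R2 {O a b : Matrix X X ℝ} {K : ℝ} (hK : 0 ≤ K) (hO : BilN O K) (hOs : ∀ i j, O i j = O j i)
    (hO0 : ∀ i, O i i = 0) (h : IsAB a b) (v : X → ℝ) :
    |∑ i, ∑ j, O i j * ∑ k, ∑ l, v k * v l * (a i k * a j l * (b i j * b i l * b j k * b k l))| ≤
      6 * K * (n2 (ap a v) + SS a v) := by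
  have hA : 0 ≤ n2 (ap a v) := sum_nonneg fun i _ => sq_nonneg _
  have hS0 := SS_nonneg a v
  have hKA : 0 ≤ K * n2 (ap a v) := mul_nonneg hK hA
  have hKS : 0 ≤ K * SS a v := mul_nonneg hK hS0
  have e0 : ∑ i, ∑ j, O i j * ∑ k, ∑ l, v k * v l * (a i k * a j l * (b i j * b i l * b j k * b k l)) =
      ∑ i, ∑ j, O i j * b i j * (ap a v i * ap a v j) +
      ∑ i, ∑ j, O i j * b i j * (ap a v i * eps a b v j i) +
      ∑ i, ∑ j, O i j * b i j * (eps a b v i j * ap a v j) +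
      ∑ i, ∑ j, O i j * b i j * (eps a b v i j * eps a b v j i) +
      ∑ k, ∑ l, v k * v l * (b k l - 1) * ∑ i, ∑ j, O i j * b i j * ((a i k * b i l) * (a j l * b j k)) := by
    have e1 : ∑ k, ∑ l, v k * v l * (b k l - 1) * ∑ i, ∑ j, O i j * b i j * ((a i k * b i l) * (a j l * b j k)) =
        ∑ i, ∑ j, ∑ k, ∑ l, v k * v l * (b k l - 1) * (O i j * b i j * ((a i k * b i l) * (a j l * b j k))) := by
      simp only [mul_sum]
      rw [show (∑ k, ∑ l, ∑ i, ∑ j, v k * v l * (b k l - 1) * (O i j * b i j * ((a i k * b i l) * (a j l * b j k)))) =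
        ∑ k, ∑ i, ∑ j, ∑ l, v k * v l * (b k l - 1) * (O i j * b i j * ((a i k * b i l) * (a j l * b j k))) from
        sum_congr rfl fun k _ => by
          rw [sum_comm]
          exact sum_congr rfl fun i _ => sum_comm]
      rw [sum_comm]
      exact sum_congr rfl fun i _ => sum_comm
    rw [e1, ← sum_add_distrib, ← sum_add_distrib, ← sum_add_distrib, ← sum_add_distrib]
    refine sum_congr rfl fun i _ => ?_
    rw [← sum_add_distrib, ← sum_add_distrib, ← sum_add_distrib, ← sum_add_distrib]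
    refine sum_congr rfl fun j _ => ?_
    have e2 : O i j * b i j * (ap a v i * ap a v j) + O i j * b i j * (ap a v i * eps a b v j i) +
        O i j * b i j * (eps a b v i j * ap a v j) + O i j * b i j * (eps a b v i j * eps a b v j i) =
        O i j * b i j * ((ap a v i + eps a b v i j) * (ap a v j + eps a b v j i)) := by ring
    rw [e2, ← sum_ab v i j, ← sum_ab v j i, sum_mul_sum, mul_sum, mul_sum, ← sum_add_distrib]
    refine sum_congr rfl fun k _ => ?_
    rw [mul_sum, mul_sum, ← sum_add_distrib]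
    exact sum_congr rfl fun l _ => by ring
  have hb' : ∑ i, ∑ j, O i j * b i j * (eps a b v i j * ap a v j) =
      ∑ i, ∑ j, O i j * b i j * (ap a v i * eps a b v j i) := by
    rw [sum_comm]
    refine sum_congr rfl fun i _ => sum_congr rfl fun j _ => ?_
    rw [hOs j i, h.bsymm j i]
    ring
  have ha := r2_a hK hO hO0 h v
  have hb := r2_b hK hO h v
  have hc := r2_c hK hO h v
  have hd := r2_de hK hO hO0 h v
  rw [e0, hb']
  refine (abs_add_le _ _).trans ?_
  refine (add_le_add (abs_add_le _ _) le_rfl).trans ?_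
  refine (add_le_add (add_le_add (abs_add_le _ _) le_rfl) le_rfl).trans ?_
  refine (add_le_add (add_le_add (add_le_add (abs_add_le _ _) le_rfl) le_rfl) le_rfl).trans ?_
  nlinarith

end BMV
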