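import Pool.Agent.BMV.GToolB

/-! BMV GR3 (section 4, helper94): the stars with centre `i` (and `j`).
Notation `A = n2 (ap a v)`, `S = SS a v`, `r_i = sqrt (ra a i) ≤ 1/8`, `w = av = ap a v`, `e_ij = eps a b v i j`.

For fixed `i, j` let `p_k = a_ik b_jk v_k`; `∑_k p_k = w_i + e_ij` (`sum_ab`). `b_kl = 1 - [k = l] + c_kl` with `0 ≤ c_kl ≤ a_kl^2/2`, `c_kk = 0`:
inner sum `= a_ij [ (∑ p)^2 - ∑_k p_k^2 + ∑_{kl} c_kl p_k p_l ]`.
`|O_ij a_ij| ≤ K |a_ij|`, `∑_j |O_ij||a_ij| ≤ K r_i ≤ K/8` (`Oa_le`), also `|O_ij a_ij| ≤ K/8`.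
* `(∑ p)^2 ≤ 2 w_i^2 + 2 e_ij^2`: contributes `≤ (K/4) A + (K/4) ∑ e_ij^2 ≤ (K/4) A + .51 K S` (`eps_sq`).
* `∑_k p_k^2 ≤ (129/128)^2 ∑_k a_ik^2 v_k^2`, `|∑ c_kl p_k p_l| ≤ ∑_{kl} (a_kl^2/2)(p_k^2 + p_l^2)/2 ≤ (1/128) ∑ p_k^2`: contributes
  `≤ 1.04 (K/8) ∑_{ik} a_ik^2 v_k^2 ≤ .14 K S` (`SS_eq`).
Total `≤ 4 K (A + S)`. -/

namespace BMV

open Finset BMP

variable {X : Type} [Fintype X] [DecidableEq X]

theorem r3_b1 {a b : Matrix X X ℝ} (h : IsAB a b) (k l : X) :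
    |b k l - 1| ≤ (if k = l then 1 else 0) + a k l ^ 2 / 2 := by
  by_cases hkl : k = l
  · subst hkl
    rw [h.bdiag, if_pos rfl, h.adiag]
    norm_num
  · rw [if_neg hkl, abs_of_nonneg (by linarith [h.b1 k l hkl])]
    linarith [h.b2 k l hkl]

theorem r3_quad {a b : Matrix X X ℝ} (h : IsAB a b) (p : X → ℝ) :
    |∑ k, ∑ l, p k * p l * b k l| ≤ (∑ k, p k) ^ 2 + 129 / 128 * ∑ k, p k ^ 2 := by
  have e1 : ∑ k, ∑ l, p k * p l * b k l = (∑ k, p k) ^ 2 + ∑ k, ∑ l, p k * p l * (b k l - 1) := by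
    rw [sq, sum_mul_sum, ← sum_add_distrib]
    refine sum_congr rfl fun k _ => ?_
    rw [← sum_add_distrib]
    exact sum_congr rfl fun l _ => by ring
  have t1 : ∀ k l, |p k * p l * (b k l - 1)| ≤
      (if k = l then p k ^ 2 else 0) + (a k l ^ 2 * p k ^ 2 / 4 + a l k ^ 2 * p l ^ 2 / 4) := by
    intro k l
    rw [abs_mul, abs_mul]
    have h1 := r3_b1 h k l
    have h2 : |p k| * |p l| ≤ (p k ^ 2 + p l ^ 2) / 2 := by
      nlinarith [sq_nonneg (|p k| - |p l|), sq_abs (p k), sq_abs (p l)]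
    have h0 : 0 ≤ |p k| * |p l| := mul_nonneg (abs_nonneg _) (abs_nonneg _)
    by_cases hkl : k = l
    · subst hkl
      rw [if_pos rfl] at h1 ⊢
      rw [h.adiag] at h1 ⊢
      have h3 : |b k k - 1| ≤ 1 := by simpa using h1
      have : |p k| * |p k| * |b k k - 1| ≤ |p k| * |p k| * 1 := mul_le_mul_of_nonneg_left h3 h0
      have h4 : |p k| * |p k| = p k ^ 2 := by rw [← sq, sq_abs]
      rw [h4] at this ⊢
      nlinarith [sq_nonneg (p k)]
    · rw [if_neg hkl] at h1 ⊢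
      rw [h.asymm l k]
      have h3 : |b k l - 1| ≤ a k l ^ 2 / 2 := by simpa using h1
      calc |p k| * |p l| * |b k l - 1| ≤ (p k ^ 2 + p l ^ 2) / 2 * (a k l ^ 2 / 2) :=
            mul_le_mul h2 h3 (abs_nonneg _) (by positivity)
        _ = _ := by ring
  have t2 : ∑ k, ∑ l, ((if k = l then p k ^ 2 else 0) + (a k l ^ 2 * p k ^ 2 / 4 + a l k ^ 2 * p l ^ 2 / 4)) ≤
      129 / 128 * ∑ k, p k ^ 2 := by
    have s1 : ∑ k, ∑ l, (if k = l then p k ^ 2 else 0) = ∑ k, p k ^ 2 := by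
      refine sum_congr rfl fun k _ => ?_
      rw [sum_ite_eq]
      simp
    have s2 : ∑ k, ∑ l, a l k ^ 2 * p l ^ 2 / 4 = ∑ k, ∑ l, a k l ^ 2 * p k ^ 2 / 4 := sum_comm
    have s3 : ∑ k, ∑ l, a k l ^ 2 * p k ^ 2 / 4 ≤ ∑ k, p k ^ 2 / 256 := by
      refine sum_le_sum fun k _ => ?_
      have : ∑ l, a k l ^ 2 * p k ^ 2 / 4 = ra a k * p k ^ 2 / 4 := by
        unfold ra
        rw [sum_mul, sum_div]
      rw [this]
      nlinarith [h.row k, sq_nonneg (p k)]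
    have s4 : ∑ k, p k ^ 2 / 256 = (∑ k, p k ^ 2) / 256 := by rw [sum_div]
    simp only [sum_add_distrib]
    rw [s1, s2]
    linarith
  have t3' : |∑ k, ∑ l, p k * p l * (b k l - 1)| ≤ 129 / 128 * ∑ k, p k ^ 2 :=
    calc |∑ k, ∑ l, p k * p l * (b k l - 1)| ≤ ∑ k, ∑ l, |p k * p l * (b k l - 1)| :=
          (abs_sum_le_sum_abs _ _).trans (sum_le_sum fun k _ => abs_sum_le_sum_abs _ _)
      _ ≤ _ := (sum_le_sum fun k _ => sum_le_sum fun l _ => t1 k l).trans t2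
  rw [e1]
  calc |(∑ k, p k) ^ 2 + ∑ k, ∑ l, p k * p l * (b k l - 1)| ≤ |(∑ k, p k) ^ 2| + _ := abs_add_le _ _
    _ ≤ _ := by rw [abs_of_nonneg (sq_nonneg _)]; linarith

theorem R3 {O a b : Matrix X X ℝ} {K : ℝ} (hK : 0 ≤ K) (hO : BilN O K) (h : IsAB a b) (v : X → ℝ) :
    |∑ i, ∑ j, O i j * ∑ k, ∑ l, v k * v l * (a i j * a i k * a i l * (b j k * b j l * b k l))| ≤
      4 * K * (n2 (ap a v) + SS a v) := by
  have hin : ∀ i j, |∑ k, ∑ l, v k * v l * (a i j * a i k * a i l * (b j k * b j l * b k l))| ≤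
      |a i j| * (2 * ap a v i ^ 2 + 2 * eps a b v i j ^ 2 + 103 / 100 * ∑ k, a i k ^ 2 * v k ^ 2) := by
    intro i j
    have e1 : ∑ k, ∑ l, v k * v l * (a i j * a i k * a i l * (b j k * b j l * b k l)) =
        a i j * ∑ k, ∑ l, (a i k * b j k * v k) * (a i l * b j l * v l) * b k l := by
      rw [mul_sum]
      refine sum_congr rfl fun k _ => ?_
      rw [mul_sum]
      exact sum_congr rfl fun l _ => by ring
    rw [e1, abs_mul]
    refine mul_le_mul_of_nonneg_left ?_ (abs_nonneg _)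
    have h1 := r3_quad h (fun k => a i k * b j k * v k)
    rw [sum_ab] at h1
    have h2 : ∑ k, (a i k * b j k * v k) ^ 2 ≤ (129 / 128) ^ 2 * ∑ k, a i k ^ 2 * v k ^ 2 := by
      rw [mul_sum]
      refine sum_le_sum fun k _ => ?_
      have h3 := b_le h j k
      have h4 := b_nonneg h j k
      have h5 : b j k ^ 2 ≤ (129 / 128) ^ 2 := by nlinarith
      have h6 : 0 ≤ a i k ^ 2 * v k ^ 2 := by positivity
      calc (a i k * b j k * v k) ^ 2 = b j k ^ 2 * (a i k ^ 2 * v k ^ 2) := by ring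
        _ ≤ _ := mul_le_mul_of_nonneg_right h5 h6
    have h7 : 0 ≤ ∑ k, a i k ^ 2 * v k ^ 2 := sum_nonneg fun k _ => by positivity
    have h8 : (ap a v i + eps a b v i j) ^ 2 ≤ 2 * ap a v i ^ 2 + 2 * eps a b v i j ^ 2 := by
      nlinarith [sq_nonneg (ap a v i - eps a b v i j)]
    nlinarith
  have hS : ∑ i, ∑ k, a i k ^ 2 * v k ^ 2 = SS a v := (SS_eq h v).symm
  have hw : ∀ i, ∑ j, |O i j| * |a i j| ≤ K / 8 := by
    intro i
    refine (Oa_le hK hO (fun j => a i j) i).trans ?_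
    have : Real.sqrt (∑ j, a i j ^ 2) ≤ 1 / 8 := rt_le h i
    nlinarith
  have hOa : ∀ i j, |O i j| * |a i j| ≤ K / 8 := by
    intro i j
    have h1 := O_le hO i j
    have h2 := a_abs_le h i j
    nlinarith [abs_nonneg (O i j), abs_nonneg (a i j)]
  have h1 : |∑ i, ∑ j, O i j * ∑ k, ∑ l, v k * v l * (a i j * a i k * a i l * (b j k * b j l * b k l))| ≤
      ∑ i, ∑ j, |O i j| * (|a i j| * (2 * ap a v i ^ 2 + 2 * eps a b v i j ^ 2 +
        103 / 100 * ∑ k, a i k ^ 2 * v k ^ 2)) := by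
    refine (abs_sum_le_sum_abs _ _).trans (sum_le_sum fun i _ => ?_)
    refine (abs_sum_le_sum_abs _ _).trans (sum_le_sum fun j _ => ?_)
    rw [abs_mul]
    exact mul_le_mul_of_nonneg_left (hin i j) (abs_nonneg _)
  have h2 : ∑ i, ∑ j, |O i j| * (|a i j| * (2 * ap a v i ^ 2 + 2 * eps a b v i j ^ 2 +
        103 / 100 * ∑ k, a i k ^ 2 * v k ^ 2)) =
      ∑ i, (∑ j, |O i j| * |a i j|) * (2 * ap a v i ^ 2 + 103 / 100 * ∑ k, a i k ^ 2 * v k ^ 2) +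
      ∑ i, ∑ j, (|O i j| * |a i j|) * (2 * eps a b v i j ^ 2) := by
    rw [← sum_add_distrib]
    refine sum_congr rfl fun i _ => ?_
    rw [sum_mul, ← sum_add_distrib]
    exact sum_congr rfl fun j _ => by ring
  have h3 : ∑ i, (∑ j, |O i j| * |a i j|) * (2 * ap a v i ^ 2 + 103 / 100 * ∑ k, a i k ^ 2 * v k ^ 2) ≤
      K / 8 * (2 * n2 (ap a v) + 103 / 100 * SS a v) := by
    have : K / 8 * (2 * n2 (ap a v) + 103 / 100 * SS a v) =
        ∑ i, K / 8 * (2 * ap a v i ^ 2 + 103 / 100 * ∑ k, a i k ^ 2 * v k ^ 2) := by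
      rw [← mul_sum, sum_add_distrib, ← mul_sum, ← mul_sum, hS]
      rfl
    rw [this]
    refine sum_le_sum fun i _ => mul_le_mul_of_nonneg_right (hw i) ?_
    have h7 : 0 ≤ ∑ k, a i k ^ 2 * v k ^ 2 := sum_nonneg fun k _ => by positivity
    positivity
  have h4 : ∑ i, ∑ j, (|O i j| * |a i j|) * (2 * eps a b v i j ^ 2) ≤ K / 8 * (2 * (201 / 100 * SS a v)) := by
    calc ∑ i, ∑ j, (|O i j| * |a i j|) * (2 * eps a b v i j ^ 2)
        ≤ ∑ i, ∑ j, K / 8 * (2 * eps a b v i j ^ 2) :=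
          sum_le_sum fun i _ => sum_le_sum fun j _ => mul_le_mul_of_nonneg_right (hOa i j) (by positivity)
      _ = K / 8 * (2 * ∑ i, ∑ j, eps a b v i j ^ 2) := by
          simp only [mul_sum]
      _ ≤ _ := by
          have := eps_sq h v
          have hK8 : 0 ≤ K / 8 := by positivity
          exact mul_le_mul_of_nonneg_left (by linarith) hK8
  have hA : 0 ≤ n2 (ap a v) := sum_nonneg fun i _ => sq_nonneg _
  have hS0 := SS_nonneg a v
  have hKA : 0 ≤ K * n2 (ap a v) := mul_nonneg hK hA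
  have hKS : 0 ≤ K * SS a v := mul_nonneg hK hS0
  rw [h2] at h1
  nlinarith

end BMV
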