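import Pool.Agent.BMV.GToolB

/-! BMV GR4 (section 4, helper94): the stars with centre `k` (and `l`), and the complete graph.
Notation `A = n2 (ap a v)`, `S = SS a v`, `r_i = sqrt (ra a i) ≤ 1/8`, `w = av = ap a v`.

R4: the left side is `∑_k v_k ∑_{ij} O_ij b_ij a_ik a_jk L_ijk` with `L_ijk = ∑_l a_kl (b_il b_jl) v_l = w_k + ∑_l a_kl γ_l v_l`, `γ_l = b_il b_jl - 1`,
`|γ_l| ≤ g_il + g_jl`, `g_il = [i = l] + a_il^2` (`gam_le`).
* main part: `∑_k v_k w_k ∑_{ij} O_ij b_ij a_ik a_jk`, for each `k` by `Ob_le` (`α = β = (a_ik)_i`): `≤ ∑_k |v_k||w_k| (129/128) K r_k^2 ≤ (129/128)(K/8) (A + S)/2` (`rav`).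
* the rest is `≤ (129/128) ∑_{ijk} |O_ij||a_ik||a_jk||v_k| ∑_l |a_kl| (g_il + g_jl)|v_l|`, by the symmetry `i <-> j` (`|O_ij|` symmetric)
  `= (129/64) ∑_{ik} |a_ik||v_k| (∑_j |O_ij||a_jk|) ∑_l |a_kl| g_il |v_l| ≤ (129/64) (K/8) ∑_{ik} |a_ik||v_k| ( |a_ki||v_i| + ∑_l |a_kl| a_il^2 |v_l| )`
  (`Oa_le`, `r_k ≤ 1/8`) `≤ .26 K (S + S/64)` (`sq_pair` and `t3` after renaming: `∑_{ikl} |a_ki| a_il^2 |a_kl||v_k v_l|`).
R5: `|O_ij| ≤ K` and `t6`. -/

namespace BMV

open Finset BMP

variable {X : Type} [Fintype X] [DecidableEq X]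

theorem R4 {O a b : Matrix X X ℝ} {K : ℝ} (hK : 0 ≤ K) (hO : BilN O K) (hOs : ∀ i j, O i j = O j i)
    (hO0 : ∀ i, O i i = 0) (h : IsAB a b) (v : X → ℝ) :
    |∑ i, ∑ j, O i j * ∑ k, ∑ l, v k * v l * (a i k * a j k * a k l * (b i j * b i l * b j l))| ≤
      4 * K * (n2 (ap a v) + SS a v) := by
  have hA : 0 ≤ n2 (ap a v) := sum_nonneg fun i _ => sq_nonneg _
  have hS0 := SS_nonneg a v
  have hKA : 0 ≤ K * n2 (ap a v) := mul_nonneg hK hA
  have hKS : 0 ≤ K * SS a v := mul_nonneg hK hS0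
  -- splitting
  have e0 : ∑ i, ∑ j, O i j * ∑ k, ∑ l, v k * v l * (a i k * a j k * a k l * (b i j * b i l * b j l)) =
      ∑ k, v k * ap a v k * (∑ i, ∑ j, O i j * b i j * (a i k * a j k)) +
      ∑ i, ∑ j, ∑ k, ∑ l, O i j * b i j * (a i k * a j k) * v k * (a k l * (b i l * b j l - 1) * v l) := by
    have e1 : ∑ k, v k * ap a v k * (∑ i, ∑ j, O i j * b i j * (a i k * a j k)) =
        ∑ i, ∑ j, ∑ k, v k * ap a v k * (O i j * b i j * (a i k * a j k)) := by
      simp only [mul_sum]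
      rw [sum_comm]
      refine sum_congr rfl fun i _ => ?_
      rw [sum_comm]
    rw [e1, ← sum_add_distrib]
    refine sum_congr rfl fun i _ => ?_
    rw [← sum_add_distrib]
    refine sum_congr rfl fun j _ => ?_
    rw [← sum_add_distrib, mul_sum]
    refine sum_congr rfl fun k _ => ?_
    unfold ap
    rw [mul_sum, mul_sum, sum_mul, ← sum_add_distrib]
    exact sum_congr rfl fun l _ => by ring
  -- main part
  have hM1 : |∑ k, v k * ap a v k * (∑ i, ∑ j, O i j * b i j * (a i k * a j k))| ≤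
      K * (129 / 128) / 8 * ((n2 (ap a v) + SS a v) / 2) := by
    calc |∑ k, v k * ap a v k * (∑ i, ∑ j, O i j * b i j * (a i k * a j k))|
        ≤ ∑ k, |v k * ap a v k * (∑ i, ∑ j, O i j * b i j * (a i k * a j k))| := abs_sum_le_sum_abs _ _
      _ ≤ ∑ k, K * (129 / 128) / 8 * (Real.sqrt (ra a k) * (|v k| * |ap a v k|)) := by
          refine sum_le_sum fun k _ => ?_
          rw [abs_mul, abs_mul]
          have h1 := Ob_le hK hO hO0 h (fun i => a i k) (fun i => a i k)
          have h2 : n2 (fun i => a i k) = ra a k := by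
            unfold n2 ra
            exact sum_congr rfl fun i _ => by rw [h.asymm]
          rw [h2] at h1
          have h3 : ra a k = Real.sqrt (ra a k) * Real.sqrt (ra a k) :=
            (Real.mul_self_sqrt (ra_nonneg a k)).symm
          have h4 := rt_le h k
          have h5 := Real.sqrt_nonneg (ra a k)
          have h6 : K * (129 / 128) * (ra a k + ra a k) / 2 ≤ K * (129 / 128) / 8 * Real.sqrt (ra a k) := by
            have h7 : ra a k ≤ Real.sqrt (ra a k) / 8 := by nlinarith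
            have h8 : 0 ≤ K * (129 / 128) := by positivity
            nlinarith
          have h9 : 0 ≤ |v k| * |ap a v k| := mul_nonneg (abs_nonneg _) (abs_nonneg _)
          calc |v k| * |ap a v k| * |∑ i, ∑ j, O i j * b i j * (a i k * a j k)|
              ≤ |v k| * |ap a v k| * (K * (129 / 128) / 8 * Real.sqrt (ra a k)) :=
                mul_le_mul_of_nonneg_left (h1.trans h6) h9
            _ = _ := by ring
      _ = K * (129 / 128) / 8 * ∑ k, Real.sqrt (ra a k) * (|v k| * |ap a v k|) := by rw [mul_sum]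
      _ ≤ _ := mul_le_mul_of_nonneg_left (rav a v) (by positivity)
  -- the rest
  have hR0 : ∀ k, ∑ i, a i k ^ 2 = ra a k := fun k => by
    unfold ra
    exact sum_congr rfl fun i _ => by rw [h.asymm]
  have hOak : ∀ i k, ∑ j, |O i j| * |a j k| ≤ K / 8 := by
    intro i k
    refine (Oa_le hK hO (fun j => a j k) i).trans ?_
    have : Real.sqrt (∑ j, a j k ^ 2) ≤ 1 / 8 := by rw [hR0]; exact rt_le h k
    nlinarith
  set g : X → X → ℝ := fun i l => (if i = l then 1 else 0) + a i l ^ 2 with hg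
  have hg0 : ∀ i l, 0 ≤ g i l := fun i l => by
    simp only [hg]
    split_ifs <;> positivity
  have hT : ∀ i j k l, |O i j * b i j * (a i k * a j k) * v k * (a k l * (b i l * b j l - 1) * v l)| ≤
      129 / 128 * (|O i j| * |a j k| * (|a i k| * |v k| * (|a k l| * g i l * |v l|))) +
      129 / 128 * (|O j i| * |a i k| * (|a j k| * |v k| * (|a k l| * g j l * |v l|))) := by
    intro i j k l
    have h1 := gam_le h i j l
    have h2 := b_le h i j
    have h3 := b_nonneg h i j
    rw [hOs j i]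
    have e : |O i j * b i j * (a i k * a j k) * v k * (a k l * (b i l * b j l - 1) * v l)| =
        |O i j| * |a i k| * |a j k| * |v k| * |a k l| * |v l| * (b i j * |b i l * b j l - 1|) := by
      simp only [abs_mul, abs_of_nonneg h3]
      ring
    rw [e]
    have h4 : b i j * |b i l * b j l - 1| ≤ 129 / 128 * (g i l + g j l) :=
      mul_le_mul h2 h1 (abs_nonneg _) (by norm_num)
    have h5 : 0 ≤ |O i j| * |a i k| * |a j k| * |v k| * |a k l| * |v l| := by positivity
    calc |O i j| * |a i k| * |a j k| * |v k| * |a k l| * |v l| * (b i j * |b i l * b j l - 1|)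
        ≤ |O i j| * |a i k| * |a j k| * |v k| * |a k l| * |v l| * (129 / 128 * (g i l + g j l)) :=
          mul_le_mul_of_nonneg_left h4 h5
      _ = _ := by ring
  have hQ : ∑ i, ∑ j, ∑ k, ∑ l, 129 / 128 * (|O i j| * |a j k| * (|a i k| * |v k| * (|a k l| * g i l * |v l|))) ≤
      129 / 128 * (K / 8 * (SS a v + SS a v / 64)) := by
    have s1 : ∑ i, ∑ j, ∑ k, ∑ l, 129 / 128 * (|O i j| * |a j k| * (|a i k| * |v k| * (|a k l| * g i l * |v l|))) =
        129 / 128 * ∑ i, ∑ k, (∑ j, |O i j| * |a j k|) * (∑ l, |a i k| * |v k| * (|a k l| * g i l * |v l|)) := by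
      simp only [mul_sum, sum_mul]
      refine sum_congr rfl fun i _ => ?_
      rw [sum_comm]
      refine sum_congr rfl fun k _ => ?_
      rw [sum_comm]
    have s2 : ∑ i, ∑ k, (∑ j, |O i j| * |a j k|) * (∑ l, |a i k| * |v k| * (|a k l| * g i l * |v l|)) ≤
        ∑ i, ∑ k, K / 8 * (∑ l, |a i k| * |v k| * (|a k l| * g i l * |v l|)) := by
      refine sum_le_sum fun i _ => sum_le_sum fun k _ => mul_le_mul_of_nonneg_right (hOak i k) ?_
      refine sum_nonneg fun l _ => ?_
      have := hg0 i l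
      positivity
    have s3 : ∀ i k, ∑ l, |a i k| * |v k| * (|a k l| * g i l * |v l|) =
        a i k ^ 2 * (|v i| * |v k|) + ∑ l, |a k i| * a i l ^ 2 * |a k l| * (|v k| * |v l|) := by
      intro i k
      have : ∀ l, |a i k| * |v k| * (|a k l| * g i l * |v l|) =
          (if i = l then a i k ^ 2 * (|v i| * |v k|) else 0) + |a k i| * a i l ^ 2 * |a k l| * (|v k| * |v l|) := by
        intro l
        simp only [hg]
        rw [h.asymm k i]
        by_cases hil : i = l
        · subst hil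
          rw [if_pos rfl, if_pos rfl, h.asymm k i]
          have : a i k ^ 2 = |a i k| * |a i k| := by rw [← sq, sq_abs]
          rw [this, h.adiag i]
          ring
        · rw [if_neg hil, if_neg hil]
          ring
      rw [sum_congr rfl fun l _ => this l, sum_add_distrib, sum_ite_eq]
      simp
    have s4 : ∑ i, ∑ k, K / 8 * (∑ l, |a i k| * |v k| * (|a k l| * g i l * |v l|)) =
        K / 8 * (∑ i, ∑ k, a i k ^ 2 * (|v i| * |v k|) +
          ∑ k, ∑ i, ∑ l, |a k i| * a i l ^ 2 * |a k l| * (|v k| * |v l|)) := by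
      rw [mul_add, mul_sum, mul_sum]
      rw [sum_comm (s := (Finset.univ : Finset X)) (t := (Finset.univ : Finset X))
        (f := fun i k => K / 8 * (∑ l, |a i k| * |v k| * (|a k l| * g i l * |v l|)))]
      have c1 : ∑ i, K / 8 * ∑ k, a i k ^ 2 * (|v i| * |v k|) = ∑ k, ∑ i, K / 8 * (a i k ^ 2 * (|v i| * |v k|)) := by
        simp only [mul_sum]
        rw [sum_comm]
      rw [c1, ← sum_add_distrib]
      refine sum_congr rfl fun k _ => ?_
      rw [mul_sum, ← sum_add_distrib]
      refine sum_congr rfl fun i _ => ?_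
      rw [s3]
      ring
    have s5 := sq_pair h v
    have s6 := t3 h v
    rw [s1]
    refine mul_le_mul_of_nonneg_left ?_ (by norm_num)
    refine s2.trans ?_
    rw [s4]
    exact mul_le_mul_of_nonneg_left (add_le_add s5 s6) (by positivity)
  have hM2 : |∑ i, ∑ j, ∑ k, ∑ l, O i j * b i j * (a i k * a j k) * v k * (a k l * (b i l * b j l - 1) * v l)| ≤
      129 / 128 * (K / 8 * (SS a v + SS a v / 64)) + 129 / 128 * (K / 8 * (SS a v + SS a v / 64)) := by
    calc |∑ i, ∑ j, ∑ k, ∑ l, O i j * b i j * (a i k * a j k) * v k * (a k l * (b i l * b j l - 1) * v l)|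
        ≤ ∑ i, ∑ j, ∑ k, ∑ l, |O i j * b i j * (a i k * a j k) * v k * (a k l * (b i l * b j l - 1) * v l)| :=
          (abs_sum_le_sum_abs _ _).trans (sum_le_sum fun i _ => (abs_sum_le_sum_abs _ _).trans
            (sum_le_sum fun j _ => (abs_sum_le_sum_abs _ _).trans (sum_le_sum fun k _ => abs_sum_le_sum_abs _ _)))
      _ ≤ ∑ i, ∑ j, ∑ k, ∑ l, (129 / 128 * (|O i j| * |a j k| * (|a i k| * |v k| * (|a k l| * g i l * |v l|))) +
            129 / 128 * (|O j i| * |a i k| * (|a j k| * |v k| * (|a k l| * g j l * |v l|)))) :=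
          sum_le_sum fun i _ => sum_le_sum fun j _ => sum_le_sum fun k _ => sum_le_sum fun l _ => hT i j k l
      _ = ∑ i, ∑ j, ∑ k, ∑ l, 129 / 128 * (|O i j| * |a j k| * (|a i k| * |v k| * (|a k l| * g i l * |v l|))) +
          ∑ i, ∑ j, ∑ k, ∑ l, 129 / 128 * (|O j i| * |a i k| * (|a j k| * |v k| * (|a k l| * g j l * |v l|))) := by
          simp only [sum_add_distrib]
      _ = ∑ i, ∑ j, ∑ k, ∑ l, 129 / 128 * (|O i j| * |a j k| * (|a i k| * |v k| * (|a k l| * g i l * |v l|))) +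
          ∑ i, ∑ j, ∑ k, ∑ l, 129 / 128 * (|O i j| * |a j k| * (|a i k| * |v k| * (|a k l| * g i l * |v l|))) := by
          congr 1
          exact sum_comm
      _ ≤ _ := add_le_add hQ hQ
  rw [e0]
  refine (abs_add_le _ _).trans ?_
  nlinarith

theorem R5 {O a b : Matrix X X ℝ} {K : ℝ} (hK : 0 ≤ K) (hO : BilN O K) (h : IsAB a b) (v : X → ℝ) :
    |∑ i, ∑ j, O i j * ∑ k, ∑ l, v k * v l * (a i j * a k l * (a i k * a i l * a j k * a j l))| ≤
      2 * K * (n2 (ap a v) + SS a v) := by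
  have hA : 0 ≤ n2 (ap a v) := sum_nonneg fun i _ => sq_nonneg _
  have hS0 := SS_nonneg a v
  have hKA : 0 ≤ K * n2 (ap a v) := mul_nonneg hK hA
  have hKS : 0 ≤ K * SS a v := mul_nonneg hK hS0
  have h1 : |∑ i, ∑ j, O i j * ∑ k, ∑ l, v k * v l * (a i j * a k l * (a i k * a i l * a j k * a j l))| ≤
      ∑ i, ∑ j, ∑ k, ∑ l, K * (|a i j| * |a k l| * (|a i k| * |a i l| * |a j k| * |a j l|) * (|v k| * |v l|)) := by
    refine (abs_sum_le_sum_abs _ _).trans (sum_le_sum fun i _ => ?_)
    refine (abs_sum_le_sum_abs _ _).trans (sum_le_sum fun j _ => ?_)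
    rw [mul_sum]
    refine (abs_sum_le_sum_abs _ _).trans (sum_le_sum fun k _ => ?_)
    rw [mul_sum]
    refine (abs_sum_le_sum_abs _ _).trans (sum_le_sum fun l _ => ?_)
    have e : |O i j * (v k * v l * (a i j * a k l * (a i k * a i l * a j k * a j l)))| =
        |O i j| * (|a i j| * |a k l| * (|a i k| * |a i l| * |a j k| * |a j l|) * (|v k| * |v l|)) := by
      simp only [abs_mul]
      ring
    rw [e]
    exact mul_le_mul_of_nonneg_right (O_le hO i j) (by positivity)
  have h2 : ∑ i, ∑ j, ∑ k, ∑ l, K * (|a i j| * |a k l| * (|a i k| * |a i l| * |a j k| * |a j l|) * (|v k| * |v l|)) =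
      K * ∑ i, ∑ j, ∑ k, ∑ l, |a i j| * |a k l| * (|a i k| * |a i l| * |a j k| * |a j l|) * (|v k| * |v l|) := by
    simp only [mul_sum]
  rw [h2] at h1
  have h3 := mul_le_mul_of_nonneg_left (t6 h v) hK
  nlinarith

end BMV
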