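import Pool.Agent.BMV.GCov
import Pool.Agent.BMV.GR1
import Pool.Agent.BMV.GR2
import Pool.Agent.BMV.GR3
import Pool.Agent.BMV.GR4

/-! BMV GQ4 (section 4, helper94): Lemma Q4.

* `isAB_of_QH`: the row `a_i` is `ap a (Pi.single i 1)` (symmetry), so `ra a i ≤ κ^2 ≤ 1/64`.
* `bilN_off`: for symmetric `M` with `|<x, M x>| ≤ κ |x|^2` for all `x` (as `|qd M x| ≤ κ * n2 x`), the off-diagonal part satisfies `BilN (off M) (2 κ)`:
  `|M_ii| ≤ κ` (`x = e_i`), polarisation `4 <x, M y> = <x+y, M (x+y)> - <x-y, M (x-y)>` gives `|<x, M y>| ≤ κ (|x+y|^2 + |x-y|^2)/4 = κ (n2 x + n2 y)/2`,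
  and `|∑ M_ii x_i y_i| ≤ κ (n2 x + n2 y)/2`.
* `rem_le`: `F4` has eight terms; `Rem O a b v` is the sum of the expressions of `R1` (matching `ij|kl` with the subtracted term), `R2` (matching `ik|jl`),
  `R2` again (matching `il|jk`: exchange the names `k, l`), minus `R3` (star `i`), minus `R3` (star `j`: exchange the names `i, j`; `O`, `a`, `b` symmetric),
  minus `R4` (star `k`), minus `R4` (star `l`: exchange the names `k, l`), plus `R5`. Total `6 + 6 + 6 + 4 + 4 + 4 + 4 + 2 = 36 ≤ 50`.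
* `Q4`: `cov_eq`, `rem_le` with `K = 2 κM`, `0 ≤ e^(-D)^2 ≤ 1`. -/

namespace BMV

open Finset BMP

variable {X : Type} [Fintype X] [DecidableEq X]

theorem isAB_of_QH {a b : Matrix X X ℝ} {κ : ℝ} (h : QH a b κ) : IsAB a b where
  asymm := h.as
  bsymm := h.bs
  adiag := h.ad
  bdiag := h.bd
  b1 := h.b1
  b2 := fun i j _ => by
    have := h.b2 i j
    linarith
  row := fun i => by
    have h1 := h.op (Pi.single i 1)
    have h2 : n2 (Pi.single i (1 : ℝ) : X → ℝ) = 1 := by
      unfold n2
      rw [Finset.sum_eq_single i]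
      · simp
      · intro j _ hj
        rw [Pi.single_eq_of_ne hj]
        norm_num
      · intro hh
        exact absurd (Finset.mem_univ i) hh
    have h3 : n2 (ap a (Pi.single i 1)) = ra a i := by
      unfold n2 ra
      refine Finset.sum_congr rfl fun j _ => ?_
      have : ap a (Pi.single i 1) j = a j i := by
        unfold ap
        rw [Finset.sum_eq_single i]
        · simp
        · intro k _ hk
          rw [Pi.single_eq_of_ne hk, mul_zero]
        · intro hh
          exact absurd (Finset.mem_univ i) hh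
      rw [this, h.as j i]
    rw [h2, h3, mul_one] at h1
    have h4 : κ ^ 2 ≤ (1 / 100) ^ 2 := pow_le_pow_left₀ h.κ0 h.κ1 2
    norm_num at h4
    linarith

omit [DecidableEq X] in
private theorem n2_add_sub (x y : X → ℝ) :
    n2 (fun i => x i + y i) + n2 (fun i => x i - y i) = 2 * (n2 x + n2 y) := by
  unfold n2
  rw [← Finset.sum_add_distrib, ← Finset.sum_add_distrib, Finset.mul_sum]
  exact Finset.sum_congr rfl fun i _ => by ring

omit [DecidableEq X] in
private theorem polar {M : Matrix X X ℝ} (hM : ∀ i j, M i j = M j i) (x y : X → ℝ) :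
    qd M (fun i => x i + y i) - qd M (fun i => x i - y i) =
      4 * ∑ i, ∑ j, M i j * (x i * y j) := by
  have h1 : ∑ i, ∑ j, M i j * (x j * y i) = ∑ i, ∑ j, M i j * (x i * y j) := by
    rw [Finset.sum_comm]
    exact Finset.sum_congr rfl fun i _ => Finset.sum_congr rfl fun j _ => by rw [hM j i]
  have h2 : qd M (fun i => x i + y i) - qd M (fun i => x i - y i) =
      2 * ∑ i, ∑ j, M i j * (x i * y j) + 2 * ∑ i, ∑ j, M i j * (x j * y i) := by
    unfold qd
    rw [Finset.mul_sum, Finset.mul_sum, ← Finset.sum_sub_distrib, ← Finset.sum_add_distrib]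
    refine Finset.sum_congr rfl fun i _ => ?_
    rw [Finset.mul_sum, Finset.mul_sum, ← Finset.sum_sub_distrib, ← Finset.sum_add_distrib]
    refine Finset.sum_congr rfl fun j _ => ?_
    ring
  rw [h2, h1]
  ring

theorem bilN_off {M : Matrix X X ℝ} (hM : ∀ i j, M i j = M j i) {κ : ℝ} (hκ : ∀ x, |qd M x| ≤ κ * n2 x) :
    BilN (off M) (2 * κ) := by
  intro x y
  have h1 : |∑ i, ∑ j, M i j * (x i * y j)| ≤ κ * (n2 x + n2 y) / 2 := by
    have h2 := polar hM x y
    have h3 := hκ (fun i => x i + y i)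
    have h4 := hκ (fun i => x i - y i)
    have h5 := n2_add_sub x y
    have h6 : |qd M (fun i => x i + y i) - qd M (fun i => x i - y i)| ≤
        κ * n2 (fun i => x i + y i) + κ * n2 (fun i => x i - y i) :=
      (abs_sub _ _).trans (add_le_add h3 h4)
    rw [h2, abs_mul, ← mul_add, h5, abs_of_pos (show (0 : ℝ) < 4 by norm_num)] at h6
    linarith
  have hdiag : ∀ i, |M i i| ≤ κ := by
    intro i
    have h2 := hκ (Pi.single i 1)
    have h3 : n2 (Pi.single i (1 : ℝ) : X → ℝ) = 1 := by
      unfold n2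
      rw [Finset.sum_eq_single i]
      · simp
      · intro j _ hj
        rw [Pi.single_eq_of_ne hj]
        norm_num
      · intro hh
        exact absurd (Finset.mem_univ i) hh
    have h4 : qd M (Pi.single i 1) = M i i := by
      unfold qd
      rw [Finset.sum_eq_single i]
      · rw [Finset.sum_eq_single i]
        · simp
        · intro k _ hk
          rw [Pi.single_eq_of_ne hk, mul_zero]
        · intro hh
          exact absurd (Finset.mem_univ i) hh
      · intro k _ hk
        refine Finset.sum_eq_zero fun l _ => ?_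
        rw [Pi.single_eq_of_ne hk, zero_mul, zero_mul]
      · intro hh
        exact absurd (Finset.mem_univ i) hh
    rw [h3, h4, mul_one] at h2
    exact h2
  have h2 : |∑ i, M i i * (x i * y i)| ≤ κ * (n2 x + n2 y) / 2 := by
    refine (Finset.abs_sum_le_sum_abs _ _).trans ?_
    have e : κ * (n2 x + n2 y) / 2 = ∑ i, κ * (x i ^ 2 + y i ^ 2) / 2 := by
      unfold n2
      rw [← Finset.sum_add_distrib, Finset.mul_sum, Finset.sum_div]
    rw [e]
    refine Finset.sum_le_sum fun i _ => ?_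
    rw [abs_mul, abs_mul]
    have h3 := hdiag i
    have h4 : |x i| * |y i| ≤ (x i ^ 2 + y i ^ 2) / 2 := by
      rw [← sq_abs (x i), ← sq_abs (y i)]
      nlinarith [sq_nonneg (|x i| - |y i|)]
    have h5 : 0 ≤ |x i| * |y i| := by positivity
    calc |M i i| * (|x i| * |y i|) ≤ κ * (|x i| * |y i|) := mul_le_mul_of_nonneg_right h3 h5
      _ ≤ κ * ((x i ^ 2 + y i ^ 2) / 2) :=
          mul_le_mul_of_nonneg_left h4 ((abs_nonneg _).trans h3)
      _ = κ * (x i ^ 2 + y i ^ 2) / 2 := by ring
  have h3 : ∑ i, ∑ j, off M i j * (x i * y j) =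
      ∑ i, ∑ j, M i j * (x i * y j) - ∑ i, M i i * (x i * y i) := by
    rw [← Finset.sum_sub_distrib]
    refine Finset.sum_congr rfl fun i _ => ?_
    have h4 : ∑ j, (M i j * (x i * y j) - off M i j * (x i * y j)) = M i i * (x i * y i) := by
      rw [Finset.sum_eq_single i]
      · unfold off
        rw [if_pos rfl]
        ring
      · intro j _ hj
        unfold off
        rw [if_neg (Ne.symm hj), sub_self]
      · intro hh
        exact absurd (Finset.mem_univ i) hh
    rw [Finset.sum_sub_distrib] at h4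
    linarith
  rw [h3]
  refine (abs_sub _ _).trans ?_
  linarith

/-- the sums against `O` -/
private def Sg (O : Matrix X X ℝ) (v : X → ℝ) (f : X → X → X → X → ℝ) : ℝ :=
  ∑ i, ∑ j, O i j * ∑ k, ∑ l, v k * v l * f i j k l

omit [DecidableEq X] in
private theorem Sg_add (O : Matrix X X ℝ) (v : X → ℝ) (f g : X → X → X → X → ℝ) :
    Sg O v (fun i j k l => f i j k l + g i j k l) = Sg O v f + Sg O v g := by
  unfold Sg
  rw [← Finset.sum_add_distrib]
  refine Finset.sum_congr rfl fun i _ => ?_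
  rw [← Finset.sum_add_distrib]
  refine Finset.sum_congr rfl fun j _ => ?_
  rw [← mul_add, ← Finset.sum_add_distrib]
  congr 1
  refine Finset.sum_congr rfl fun k _ => ?_
  rw [← Finset.sum_add_distrib]
  exact Finset.sum_congr rfl fun l _ => by ring

omit [DecidableEq X] in
private theorem Sg_sub (O : Matrix X X ℝ) (v : X → ℝ) (f g : X → X → X → X → ℝ) :
    Sg O v (fun i j k l => f i j k l - g i j k l) = Sg O v f - Sg O v g := by
  unfold Sg
  rw [← Finset.sum_sub_distrib]
  refine Finset.sum_congr rfl fun i _ => ?_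
  rw [← Finset.sum_sub_distrib]
  refine Finset.sum_congr rfl fun j _ => ?_
  rw [← mul_sub, ← Finset.sum_sub_distrib]
  congr 1
  refine Finset.sum_congr rfl fun k _ => ?_
  rw [← Finset.sum_sub_distrib]
  exact Finset.sum_congr rfl fun l _ => by ring

omit [DecidableEq X] in
private theorem Sg_kl (O : Matrix X X ℝ) (v : X → ℝ) (f : X → X → X → X → ℝ) :
    Sg O v (fun i j k l => f i j l k) = Sg O v f := by
  unfold Sg
  refine Finset.sum_congr rfl fun i _ => Finset.sum_congr rfl fun j _ => ?_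
  congr 1
  rw [Finset.sum_comm]
  exact Finset.sum_congr rfl fun k _ => Finset.sum_congr rfl fun l _ => by ring

omit [DecidableEq X] in
private theorem Sg_ij {O : Matrix X X ℝ} (hO : ∀ i j, O i j = O j i) (v : X → ℝ)
    (f : X → X → X → X → ℝ) : Sg O v (fun i j k l => f j i k l) = Sg O v f := by
  unfold Sg
  rw [Finset.sum_comm]
  exact Finset.sum_congr rfl fun i _ => Finset.sum_congr rfl fun j _ => by rw [hO j i]

omit [DecidableEq X] in
private theorem Sg_congr (O : Matrix X X ℝ) (v : X → ℝ) {f g : X → X → X → X → ℝ}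
    (h : ∀ i j k l, f i j k l = g i j k l) : Sg O v f = Sg O v g := by
  have : f = g := by
    funext i j k l
    exact h i j k l
  rw [this]

theorem rem_le {O a b : Matrix X X ℝ} {K : ℝ} (hK : 0 ≤ K) (hO : BilN O K) (hOs : ∀ i j, O i j = O j i)
    (hO0 : ∀ i, O i i = 0) (h : IsAB a b) (v : X → ℝ) :
    |Rem O a b v| ≤ 50 * K * Zq a v := by
  have hZ : Zq a v = n2 (ap a v) + SS a v := rfl
  have hZ0 : 0 ≤ n2 (ap a v) + SS a v := by
    unfold n2 SS ra
    positivity
  have ha := h.asymm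
  have hb := h.bsymm
  -- the first difference
  have hd : ∀ f : X → X → X → X → ℝ, (∑ i, ∑ j, O i j * (∑ k, ∑ l, v k * v l * f i j k l -
      a i j * ∑ k, ∑ l, v k * v l * a k l)) = Sg O v f - Sg O v (fun i j k l => a i j * a k l) := by
    intro f
    unfold Sg
    rw [← Finset.sum_sub_distrib]
    refine Finset.sum_congr rfl fun i _ => ?_
    rw [← Finset.sum_sub_distrib]
    refine Finset.sum_congr rfl fun j _ => ?_
    rw [mul_sub]
    congr 2
    rw [Finset.mul_sum]
    refine Finset.sum_congr rfl fun k _ => ?_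
    rw [Finset.mul_sum]
    exact Finset.sum_congr rfl fun l _ => by ring
  have r1 := R1 hK hO hOs hO0 h v
  have r2 := R2 hK hO hOs hO0 h v
  have r3 := R3 hK hO h v
  have r4 := R4 hK hO hOs hO0 h v
  have r5 := R5 hK hO h v
  rw [hd (fun i j k l => a i j * a k l * (b i k * b i l * b j k * b j l))] at r1
  have hR : Rem O a b v = Sg O v (F4 a b) - Sg O v (fun i j k l => a i j * a k l) :=
    hd (F4 a b)
  set f1 : X → X → X → X → ℝ := fun i j k l => a i j * a k l * (b i k * b i l * b j k * b j l)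
    with hf1
  set f2 : X → X → X → X → ℝ := fun i j k l => a i k * a j l * (b i j * b i l * b j k * b k l)
    with hf2
  set f3 : X → X → X → X → ℝ := fun i j k l => a i j * a i k * a i l * (b j k * b j l * b k l)
    with hf3
  set f4 : X → X → X → X → ℝ := fun i j k l => a i k * a j k * a k l * (b i j * b i l * b j l)
    with hf4
  set f5 : X → X → X → X → ℝ := fun i j k l => a i j * a k l * (a i k * a i l * a j k * a j l)
    with hf5
  have hF : Sg O v (F4 a b) = Sg O v f1 + Sg O v f2 + Sg O v (fun i j k l => f2 i j l k)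
      - Sg O v f3 - Sg O v (fun i j k l => f3 j i k l) - Sg O v f4
      - Sg O v (fun i j k l => f4 i j l k) + Sg O v f5 := by
    rw [← Sg_add, ← Sg_add, ← Sg_sub, ← Sg_sub, ← Sg_sub, ← Sg_sub, ← Sg_add]
    refine Sg_congr O v fun i j k l => ?_
    simp only [hf1, hf2, hf3, hf4, hf5]
    unfold F4
    rw [hb k j, hb l j, ha k i, ha k j, ha l i, ha l j]
    ring
  have e2 : Sg O v (fun i j k l => f2 i j l k) = Sg O v f2 := Sg_kl O v f2
  have e3 : Sg O v (fun i j k l => f3 j i k l) = Sg O v f3 := Sg_ij hOs v f3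
  have e4 : Sg O v (fun i j k l => f4 i j l k) = Sg O v f4 := Sg_kl O v f4
  rw [e2, e3, e4] at hF
  rw [hR, hF]
  have r2' : |Sg O v f2| ≤ 6 * K * (n2 (ap a v) + SS a v) := r2
  have r3' : |Sg O v f3| ≤ 4 * K * (n2 (ap a v) + SS a v) := r3
  have r4' : |Sg O v f4| ≤ 4 * K * (n2 (ap a v) + SS a v) := r4
  have r5' : |Sg O v f5| ≤ 2 * K * (n2 (ap a v) + SS a v) := r5
  have hKZ : 0 ≤ K * (n2 (ap a v) + SS a v) := mul_nonneg hK hZ0
  rw [hZ]
  rw [abs_le] at r1 r2' r3' r4' r5' ⊢
  constructor <;> linarith [r1.1, r1.2, r2'.1, r2'.2, r3'.1, r3'.2, r4'.1, r4'.2, r5'.1, r5'.2]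

/-- Lemma Q4 -/
theorem Q4 {a b : Matrix X X ℝ} {κ : ℝ} (h : QH a b κ) {D : ℝ} (hD : 0 ≤ D) {w : (X → Bool) → ℝ} (hw : Fld w D a b)
    {M : Matrix X X ℝ} (hM : ∀ i j, M i j = M j i) {κM : ℝ} (h0 : 0 ≤ κM) (hκ : ∀ x, |qd M x| ≤ κM * n2 x) (v : X → ℝ) :
    |Cv w (qx M) (fun s => dt v s ^ 2) -
      (2 * qd (off M) v + 4 * (Real.exp (-D) * ∑ i, ap (off M) v i * ap a v i)
        - 4 * (Real.exp (-D) * ∑ i, v i ^ 2 * ∑ j, off M i j * a i j))| ≤ 100 * κM * Zq a v := by
  have h1 := cov_eq h.as h.ad h.bd hw hM v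
  have h2 : Cv w (qx M) (fun s => dt v s ^ 2) -
      (2 * qd (off M) v + 4 * (Real.exp (-D) * ∑ i, ap (off M) v i * ap a v i)
        - 4 * (Real.exp (-D) * ∑ i, v i ^ 2 * ∑ j, off M i j * a i j)) =
      Real.exp (-D) ^ 2 * Rem (off M) a b v := by
    rw [h1]
    ring
  rw [h2, abs_mul, abs_of_nonneg (by positivity)]
  have h3 : |Rem (off M) a b v| ≤ 50 * (2 * κM) * Zq a v := by
    refine rem_le (by linarith) (bilN_off hM hκ) (fun i j => ?_) (fun i => ?_) (isAB_of_QH h) v
    · unfold off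
      by_cases hij : i = j
      · rw [if_pos hij, if_pos hij.symm]
      · rw [if_neg hij, if_neg (Ne.symm hij), hM i j]
    · unfold off
      rw [if_pos rfl]
  have h4 : Real.exp (-D) ^ 2 ≤ 1 := by
    have h5 : Real.exp (-D) ≤ 1 := Real.exp_le_one_iff.2 (by linarith)
    exact pow_le_one₀ (Real.exp_pos _).le h5
  calc Real.exp (-D) ^ 2 * |Rem (off M) a b v| ≤ 1 * |Rem (off M) a b v| :=
        mul_le_mul_of_nonneg_right h4 (abs_nonneg _)
    _ ≤ 100 * κM * Zq a v := by
        rw [one_mul]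
        refine h3.trans (le_of_eq ?_)
        ring

end BMV
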