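import Pool.Agent.BMV.GFld

/-! BMV GQH (helper94): the matrices `a = off(sinh n)`, `b = off(cosh n)` for a small positive semidefinite `n`.

Hypotheses: `n` symmetric, `0 ≤ <x,nx> ≤ D|x|^2`, `0 ≤ D ≤ 1/200`.
* `ent_le`: `0 ≤ n_ii ≤ D` (`x = e_i`); `2|n_ij| ≤ n_ii + n_jj` (`x = e_i ± e_j`), so `|n_ij| ≤ D`.
* `row_le`: `∑_j n_ij^2 = n2 (ap n e_i) ≤ D^2` (`op_of_form` of GFld with `|qd n x| ≤ D n2 x`).
* `sinh_sub`: for `|x| ≤ 1/200`: `|sinh x - x| ≤ |x|^3/5` (e.g. from the power series / `Real.abs_exp_sub_one_sub_id_le`-type bounds for `exp x` and `exp (-x)`: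
  `sinh x - x = (e^x - e^{-x})/2 - x`; or `Real.exp_bound` with `n = 4`); hence
  `|aM n i j - off n i j| ≤ |off n i j|^3/5`, and `|off n i j| ≤ |aM n i j| ≤ (101/100)|off n i j|` (`|x| ≤ |sinh x|`: `Real.self_le_sinh_iff`).
* `QH_of`: with `κ = 2D`: symmetric, zero diagonal clear; `cosh ≥ 1`, `cosh x ≤ 1 + sinh^2 x/2` since `cosh x - 1 = sinh^2 x/(1 + cosh x)`;
  `op`: `a = off n + E`, `|E_ij| ≤ |n_ij|^3/5 ≤ (D/5) n_ij^2`, `|off n x| ≤ D|x|` (`offN_op`), and by Cauchy-Schwarz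
  `|Ex|^2 = ∑_i (∑_j E_ij x_j)^2 ≤ ∑_i (∑_j |E_ij|)(∑_j |E_ij| x_j^2) ≤ (D^3/5)^2 |x|^2` (row sums of `|E|` are `≤ (D/5) D^2`, also column sums by symmetry);
  so `|ax|^2 ≤ 2 D^2|x|^2 + 2 (D^3/5)^2 |x|^2 ≤ (2D)^2|x|^2`. -/

namespace BMV

open Finset BMP

variable {X : Type} [Fintype X] [DecidableEq X]

theorem gq_ap_single (n : Matrix X X ℝ) (i j : X) : ap n (Pi.single j 1) i = n i j := by
  unfold ap
  rw [Finset.sum_eq_single j]
  · rw [Pi.single_eq_same, mul_one]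
  · intro l _ hl
    rw [Pi.single_eq_of_ne hl, mul_zero]
  · intro hh
    exact absurd (Finset.mem_univ j) hh

theorem gq_qd_pair {n : Matrix X X ℝ} (hn : ∀ i j, n i j = n j i) (i j : X) (t : ℝ) :
    qd n (fun l => (Pi.single i 1 : X → ℝ) l + t * (Pi.single j 1 : X → ℝ) l) = n i i + 2 * t * n i j + t ^ 2 * n j j := by
  rw [gf_qd_lin hn, gf_qd_single, gf_qd_single]
  have e : ∑ l, (Pi.single i 1 : X → ℝ) l * ap n (Pi.single j 1) l = n i j := by
    rw [Finset.sum_eq_single i]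
    · rw [Pi.single_eq_same, gq_ap_single, one_mul]
    · intro l _ hl
      rw [Pi.single_eq_of_ne hl, zero_mul]
    · intro hh
      exact absurd (Finset.mem_univ i) hh
  rw [e]

theorem ent_le {n : Matrix X X ℝ} (hn : ∀ i j, n i j = n j i) {D : ℝ} (h0 : ∀ x, 0 ≤ qd n x)
    (h1 : ∀ x, qd n x ≤ D * n2 x) (i j : X) : |n i j| ≤ D := by
  have a := gf_diag h0 h1 i
  have b := gf_diag h0 h1 j
  have c := h0 (fun l => (Pi.single i 1 : X → ℝ) l + 1 * (Pi.single j 1 : X → ℝ) l)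
  have d := h0 (fun l => (Pi.single i 1 : X → ℝ) l + (-1) * (Pi.single j 1 : X → ℝ) l)
  rw [gq_qd_pair hn] at c d
  rw [abs_le]
  constructor <;> linarith [a.1, a.2, b.1, b.2]

theorem row_le {n : Matrix X X ℝ} (hn : ∀ i j, n i j = n j i) {D : ℝ} (hD : 0 ≤ D) (h0 : ∀ x, 0 ≤ qd n x)
    (h1 : ∀ x, qd n x ≤ D * n2 x) (i : X) : ∑ j, n i j ^ 2 ≤ D ^ 2 := by
  have h := op_of_form hn hD (fun x => by
    rw [abs_le]
    have := h0 x
    have := h1 x
    have := mul_nonneg hD (gf_n2_nonneg x)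
    constructor <;> linarith) (Pi.single i 1)
  rw [gf_n2_single, mul_one] at h
  have e : n2 (ap n (Pi.single i 1)) = ∑ j, n i j ^ 2 := by
    unfold n2
    refine Finset.sum_congr rfl fun j _ => ?_
    rw [gq_ap_single, hn j i]
  rw [e] at h
  exact h

theorem sinh_sub {x : ℝ} (hx : |x| ≤ 1 / 200) : |Real.sinh x - x| ≤ |x| ^ 3 / 5 := by
  have h1 := Real.exp_bound (x := x) (by linarith) (n := 4) (by norm_num)
  have h2 := Real.exp_bound (x := -x) (by rw [abs_neg]; linarith) (n := 4) (by norm_num)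
  simp only [Finset.sum_range_succ, Finset.sum_range_zero, Nat.factorial] at h1 h2
  rw [abs_neg] at h2
  norm_num at h1 h2
  have h3 : 0 ≤ |x| := abs_nonneg x
  have h4 : |x| ^ 4 ≤ |x| ^ 3 * (1 / 200) := by
    rw [pow_succ]
    exact mul_le_mul_of_nonneg_left hx (by positivity)
  have h5 : |x ^ 3| = |x| ^ 3 := abs_pow x 3
  have h6 := le_abs_self (x ^ 3)
  have h7 := neg_abs_le (x ^ 3)
  rw [h5] at h6 h7
  rw [abs_le] at h1 h2 ⊢
  rw [Real.sinh_eq]
  have h8 : 0 ≤ |x| ^ 3 := by positivity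
  constructor <;> nlinarith [h1.1, h1.2, h2.1, h2.2]

theorem aM_sub {n : Matrix X X ℝ} (hn : ∀ i j, n i j = n j i) {D : ℝ} (hD : D ≤ 1 / 200) (h0 : ∀ x, 0 ≤ qd n x)
    (h1 : ∀ x, qd n x ≤ D * n2 x) (i j : X) : |aM n i j - off n i j| ≤ |off n i j| ^ 3 / 5 := by
  unfold aM off
  split_ifs
  · simp
  · exact sinh_sub (le_trans (ent_le hn h0 h1 i j) hD)

theorem gq_abs_le_sinh (x : ℝ) : |x| ≤ |Real.sinh x| := by
  rw [Real.abs_sinh]
  exact Real.self_le_sinh_iff.2 (abs_nonneg x)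

theorem off_le_aM (n : Matrix X X ℝ) (i j : X) : |off n i j| ≤ |aM n i j| := by
  unfold aM off
  split_ifs
  · exact le_rfl
  · exact gq_abs_le_sinh _

theorem aM_le_off {n : Matrix X X ℝ} (hn : ∀ i j, n i j = n j i) {D : ℝ} (hD : D ≤ 1 / 200) (h0 : ∀ x, 0 ≤ qd n x)
    (h1 : ∀ x, qd n x ≤ D * n2 x) (i j : X) : |aM n i j| ≤ 101 / 100 * |off n i j| := by
  have h := aM_sub hn hD h0 h1 i j
  have h2 : |off n i j| ≤ 1 / 200 := by
    unfold off
    split_ifs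
    · rw [abs_zero]
      norm_num
    · exact le_trans (ent_le hn h0 h1 i j) hD
  have h3 := abs_sub_abs_le_abs_sub (aM n i j) (off n i j)
  have h4 := abs_nonneg (off n i j)
  have h5 : |off n i j| ^ 3 ≤ |off n i j| * (1 / 200) ^ 2 := by
    have : |off n i j| ^ 3 = |off n i j| * |off n i j| ^ 2 := by ring
    rw [this]
    exact mul_le_mul_of_nonneg_left (pow_le_pow_left₀ h4 h2 2) h4
  nlinarith

theorem gq_cosh_le (x : ℝ) : Real.cosh x ≤ 1 + 1 / 2 * Real.sinh x ^ 2 := by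
  have h1 := Real.cosh_sq x
  have h2 := Real.one_le_cosh x
  nlinarith

/-- Schur test -/
theorem gq_schur {E : Matrix X X ℝ} (hE : ∀ i j, E i j = E j i) {ρ : ℝ} (hρ : ∀ i, ∑ j, |E i j| ≤ ρ) (x : X → ℝ) :
    n2 (ap E x) ≤ ρ ^ 2 * n2 x := by
  have h1 : ∀ i, ap E x i ^ 2 ≤ ρ * ∑ j, |E i j| * x j ^ 2 := by
    intro i
    have h2 : (∑ j, E i j * x j) ^ 2 ≤ (∑ j, |E i j|) * ∑ j, |E i j| * x j ^ 2 := by
      refine Finset.sum_sq_le_sum_mul_sum_of_sq_eq_mul _ (fun j _ => abs_nonneg _)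
        (fun j _ => mul_nonneg (abs_nonneg _) (sq_nonneg _)) fun j _ => ?_
      rw [mul_pow, ← sq_abs (E i j)]
      ring
    exact le_trans h2 (mul_le_mul_of_nonneg_right (hρ i)
      (Finset.sum_nonneg fun j _ => mul_nonneg (abs_nonneg _) (sq_nonneg _)))
  have h3 : ∑ i, ρ * ∑ j, |E i j| * x j ^ 2 = ρ * ∑ j, (∑ i, |E j i|) * x j ^ 2 := by
    rw [← Finset.mul_sum, Finset.sum_comm]
    congr 1
    refine Finset.sum_congr rfl fun j _ => ?_
    rw [Finset.sum_mul]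
    exact Finset.sum_congr rfl fun i _ => by rw [hE i j]
  rcases isEmpty_or_nonempty X with hX | ⟨⟨i0⟩⟩
  · unfold n2
    simp
  have hρ0 : 0 ≤ ρ := le_trans (Finset.sum_nonneg fun j _ => abs_nonneg (E i0 j)) (hρ i0)
  unfold n2
  calc ∑ i, ap E x i ^ 2 ≤ ∑ i, ρ * ∑ j, |E i j| * x j ^ 2 := Finset.sum_le_sum fun i _ => h1 i
    _ = ρ * ∑ j, (∑ i, |E j i|) * x j ^ 2 := h3
    _ ≤ ρ * ∑ j, ρ * x j ^ 2 := mul_le_mul_of_nonneg_left
        (Finset.sum_le_sum fun j _ => mul_le_mul_of_nonneg_right (hρ j) (sq_nonneg _)) hρ0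
    _ = ρ ^ 2 * ∑ j, x j ^ 2 := by rw [← Finset.mul_sum]; ring

theorem gq_row_off {n : Matrix X X ℝ} (hn : ∀ i j, n i j = n j i) {D : ℝ} (hD : 0 ≤ D) (h0 : ∀ x, 0 ≤ qd n x)
    (h1 : ∀ x, qd n x ≤ D * n2 x) (i : X) : ∑ j, off n i j ^ 2 ≤ D ^ 2 := by
  refine le_trans (Finset.sum_le_sum fun j _ => ?_) (row_le hn hD h0 h1 i)
  unfold off
  split_ifs
  · have := sq_nonneg (n i j)
    simpa using this
  · exact le_rfl

theorem gq_off_le {n : Matrix X X ℝ} (hn : ∀ i j, n i j = n j i) {D : ℝ} (hD : 0 ≤ D) (h0 : ∀ x, 0 ≤ qd n x)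
    (h1 : ∀ x, qd n x ≤ D * n2 x) (i j : X) : |off n i j| ≤ D := by
  unfold off
  split_ifs
  · rwa [abs_zero]
  · exact ent_le hn h0 h1 i j

/-- `|a - off n| ≤ (D/5) off(n)^2` entrywise -/
theorem gq_sub_le {n : Matrix X X ℝ} (hn : ∀ i j, n i j = n j i) {D : ℝ} (hD0 : 0 ≤ D) (hD : D ≤ 1 / 200)
    (h0 : ∀ x, 0 ≤ qd n x) (h1 : ∀ x, qd n x ≤ D * n2 x) (i j : X) :
    |aM n i j - off n i j| ≤ D / 5 * off n i j ^ 2 := by
  refine le_trans (aM_sub hn hD h0 h1 i j) ?_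
  have h2 := gq_off_le hn hD0 h0 h1 i j
  have h3 : |off n i j| ^ 3 ≤ D * off n i j ^ 2 := by
    rw [← sq_abs (off n i j)]
    have : |off n i j| ^ 3 = |off n i j| * |off n i j| ^ 2 := by ring
    rw [this]
    exact mul_le_mul_of_nonneg_right h2 (by positivity)
  linarith

theorem gq_aM_sym {n : Matrix X X ℝ} (hn : ∀ i j, n i j = n j i) (i j : X) : aM n i j = aM n j i := by
  unfold aM
  by_cases h : i = j
  · rw [if_pos h, if_pos h.symm]
  · rw [if_neg h, if_neg (Ne.symm h), hn]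

theorem QH_of {n : Matrix X X ℝ} (hn : ∀ i j, n i j = n j i) {D : ℝ} (hD0 : 0 ≤ D) (hD : D ≤ 1 / 200)
    (h0 : ∀ x, 0 ≤ qd n x) (h1 : ∀ x, qd n x ≤ D * n2 x) : QH (aM n) (bM n) (2 * D) where
  κ0 := by linarith
  κ1 := by linarith
  as := gq_aM_sym hn
  bs := fun i j => by
    unfold bM
    by_cases h : i = j
    · rw [if_pos h, if_pos h.symm]
    · rw [if_neg h, if_neg (Ne.symm h), hn]
  ad := fun i => by
    unfold aM
    rw [if_pos rfl]
  bd := fun i => by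
    unfold bM
    rw [if_pos rfl]
  b1 := fun i j hij => by
    unfold bM
    rw [if_neg hij]
    exact Real.one_le_cosh _
  b2 := fun i j => by
    unfold bM aM
    split_ifs
    · norm_num
    · exact gq_cosh_le _
  op := fun x => by
    set E : Matrix X X ℝ := fun i j => aM n i j - off n i j with hEd
    have hE : ∀ i j, E i j = E j i := fun i j => by
      rw [hEd]
      simp only
      rw [gq_aM_sym hn i j, gf_off_sym hn i j]
    have hr : ∀ i, ∑ j, |E i j| ≤ D ^ 3 / 5 := by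
      intro i
      have h2 := Finset.sum_le_sum fun j (_ : j ∈ Finset.univ) => gq_sub_le hn hD0 hD h0 h1 i j
      rw [← Finset.mul_sum] at h2
      have h3 := mul_le_mul_of_nonneg_left (gq_row_off hn hD0 h0 h1 i) (by positivity : 0 ≤ D / 5)
      have h4 : D / 5 * D ^ 2 = D ^ 3 / 5 := by ring
      rw [h4] at h3
      exact le_trans h2 h3
    have h2 := gq_schur hE hr x
    have h3 := offN_op hn hD0 h0 h1 x
    have h4 : n2 (ap (aM n) x) ≤ 2 * n2 (ap (off n) x) + 2 * n2 (ap E x) := by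
      unfold n2
      rw [Finset.mul_sum, Finset.mul_sum, ← Finset.sum_add_distrib]
      refine Finset.sum_le_sum fun i _ => ?_
      have e : ap (aM n) x i = ap (off n) x i + ap E x i := by
        unfold ap
        rw [← Finset.sum_add_distrib]
        exact Finset.sum_congr rfl fun j _ => by rw [hEd]; ring
      rw [e]
      nlinarith [sq_nonneg (ap (off n) x i - ap E x i)]
    have h5 := gf_n2_nonneg x
    have h6 : (D ^ 3 / 5) ^ 2 ≤ D ^ 2 := by
      have h7 : D ^ 3 / 5 ≤ D := by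
        have : D ^ 2 ≤ 1 := by nlinarith
        nlinarith
      exact pow_le_pow_left₀ (by positivity) h7 2
    have h8 : (D ^ 3 / 5) ^ 2 * n2 x ≤ D ^ 2 * n2 x := mul_le_mul_of_nonneg_right h6 h5
    have h9 : (2 * D) ^ 2 * n2 x = 4 * (D ^ 2 * n2 x) := by ring
    rw [h9]
    linarith

end BMV
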