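import Pool.Agent.BMV.GDef
import Pool.Agent.BMP.Avg

/-! BMV GTool (section 4, helper94): elementary bounds used in the estimate of the remainder `Rem`.
Notation: `r_i = sqrt (ra a i) ≤ 1/8`, `S = SS a v = ∑_i r_i^2 v_i^2 = ∑_{ij} a_ij^2 v_i^2 = ∑_{ij} a_ij^2 v_j^2` (symmetry).

* `O_le`: `x = Pi.single i 1`, `y = Pi.single j 1` in `BilN` (`n2 (Pi.single i 1) = 1`).
* `O_row`: put `r2 = ∑_j O_ij^2`. In `BilN` take `x = Pi.single i (sqrt r2)`, `y j = O i j`: `sqrt r2 * r2 ≤ K (r2 + r2)/2`, so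
  `sqrt r2 ≤ K` (if `r2 > 0`), i.e. `r2 ≤ K^2` (`K ≥ 0`).
* `Oa_le`: Cauchy-Schwarz with `O_row`: `∑_j |O_ij| |c_j| ≤ sqrt(∑ O_ij^2) sqrt(∑ c_j^2) ≤ K sqrt(∑ c_j^2)`.
* `Ob_le`: `O_ij b_ij = O_ij + O_ij (b_ij - 1)` and `O_ii = 0`, `|b_ij - 1| ≤ a_ij^2/2` for `i ≠ j`, `|O_ij| ≤ K`; the first part is
  `BilN`, the second is `≤ K ∑_{ij} (a_ij^2/2) (α_i^2 + β_j^2)/2 ≤ K (1/128) (n2 α + n2 β)/2`.
* `rav`: `r_i |v_i| |(av)_i| ≤ (r_i^2 v_i^2 + (av)_i^2)/2`.
* `gam_le`: if `k = i` or `k = j` then `b_ik b_jk = 0` and the left side is `1 ≤` the right side; else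
  `0 ≤ b_ik b_jk - 1 ≤ (1 + a_ik^2/2)(1 + a_jk^2/2) - 1 ≤ a_ik^2 + a_jk^2` since `a_jk^2 ≤ ra ≤ 1/64`. -/

namespace BMV

open Finset BMP

variable {X : Type} [Fintype X] [DecidableEq X]

theorem ra_nonneg (a : Matrix X X ℝ) (i : X) : 0 ≤ ra a i := Finset.sum_nonneg fun _ _ => sq_nonneg _

theorem SS_nonneg (a : Matrix X X ℝ) (v : X → ℝ) : 0 ≤ SS a v := Finset.sum_nonneg fun i _ => mul_nonneg (ra_nonneg a i) (sq_nonneg _)

private theorem n2_single (i : X) (t : ℝ) : n2 (Pi.single i t : X → ℝ) = t ^ 2 := by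
  unfold n2
  rw [Finset.sum_eq_single i]
  · rw [Pi.single_eq_same]
  · intro j _ hj
    rw [Pi.single_eq_of_ne hj]
    ring
  · intro h
    exact absurd (Finset.mem_univ i) h

private theorem bil_single (O : Matrix X X ℝ) (i : X) (t : ℝ) (y : X → ℝ) :
    ∑ i', ∑ j, O i' j * ((Pi.single i t : X → ℝ) i' * y j) = t * ∑ j, O i j * y j := by
  rw [Finset.sum_eq_single i]
  · rw [Pi.single_eq_same, Finset.mul_sum]
    exact Finset.sum_congr rfl fun j _ => by ring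
  · intro j _ hj
    refine Finset.sum_eq_zero fun l _ => ?_
    rw [Pi.single_eq_of_ne hj]
    ring
  · intro h
    exact absurd (Finset.mem_univ i) h

theorem O_le {O : Matrix X X ℝ} {K : ℝ} (hO : BilN O K) (i j : X) : |O i j| ≤ K := by
  have h := hO (Pi.single i 1) (Pi.single j 1)
  rw [bil_single, n2_single, n2_single, Finset.sum_eq_single j, Pi.single_eq_same] at h
  · have e1 : (1 : ℝ) * (O i j * 1) = O i j := by ring
    have e2 : K * ((1 : ℝ) ^ 2 + 1 ^ 2) / 2 = K := by ring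
    rwa [e1, e2] at h
  · intro l _ hl
    rw [Pi.single_eq_of_ne hl, mul_zero]
  · intro hj
    exact absurd (Finset.mem_univ j) hj

theorem O_row {O : Matrix X X ℝ} {K : ℝ} (hK : 0 ≤ K) (hO : BilN O K) (i : X) : ∑ j, O i j ^ 2 ≤ K ^ 2 := by
  have h := hO (Pi.single i (Real.sqrt (∑ j, O i j ^ 2))) (fun j => O i j)
  have hr : 0 ≤ ∑ j, O i j ^ 2 := Finset.sum_nonneg fun _ _ => sq_nonneg _
  rw [bil_single, n2_single, Real.sq_sqrt hr] at h
  have e1 : ∑ j, O i j * O i j = ∑ j, O i j ^ 2 := Finset.sum_congr rfl fun j _ => by ring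
  have e2 : n2 (fun j => O i j) = ∑ j, O i j ^ 2 := rfl
  rw [e1, e2] at h
  have h1 := (abs_le.1 h).2
  have h2 := Real.sq_sqrt hr
  have h3 := Real.sqrt_nonneg (∑ j, O i j ^ 2)
  generalize ∑ j, O i j ^ 2 = r at *
  rcases hr.eq_or_lt with h0 | h0
  · rw [← h0]
    positivity
  · have h4 : Real.sqrt r ≤ K := by
      have h5 : Real.sqrt r * r ≤ K * r := by linarith
      exact le_of_mul_le_mul_right h5 h0
    nlinarith

theorem Oa_le {O : Matrix X X ℝ} {K : ℝ} (hK : 0 ≤ K) (hO : BilN O K) (c : X → ℝ) (i : X) :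
    ∑ j, |O i j| * |c j| ≤ K * Real.sqrt (∑ j, c j ^ 2) := by
  have h1 : ∑ j, |O i j| * |c j| ≤ Real.sqrt (∑ j, |O i j| ^ 2) * Real.sqrt (∑ j, |c j| ^ 2) :=
    Real.sum_mul_le_sqrt_mul_sqrt Finset.univ (fun j => |O i j|) (fun j => |c j|)
  have e1 : ∑ j, |O i j| ^ 2 = ∑ j, O i j ^ 2 := Finset.sum_congr rfl fun j _ => sq_abs _
  have e2 : ∑ j, |c j| ^ 2 = ∑ j, c j ^ 2 := Finset.sum_congr rfl fun j _ => sq_abs _
  rw [e1, e2] at h1
  refine le_trans h1 (mul_le_mul_of_nonneg_right ?_ (Real.sqrt_nonneg _))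
  rw [← Real.sqrt_sq hK]
  exact Real.sqrt_le_sqrt (O_row hK hO i)

private theorem a_sq_le {a b : Matrix X X ℝ} (h : IsAB a b) (i j : X) : a i j ^ 2 ≤ 1 / 64 :=
  le_trans (Finset.single_le_sum (f := fun j => a i j ^ 2) (fun _ _ => sq_nonneg _) (Finset.mem_univ j)) (h.row i)

theorem a_abs_le {a b : Matrix X X ℝ} (h : IsAB a b) (i j : X) : |a i j| ≤ 1 / 8 := by
  refine abs_le_of_sq_le_sq ?_ (by norm_num)
  have := a_sq_le h i j
  linarith

theorem a_abs_le_rt {a b : Matrix X X ℝ} (h : IsAB a b) (i j : X) : |a i j| ≤ Real.sqrt (ra a i) := by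
  rw [← Real.sqrt_sq_eq_abs]
  exact Real.sqrt_le_sqrt (Finset.single_le_sum (f := fun j => a i j ^ 2) (fun _ _ => sq_nonneg _)
    (Finset.mem_univ j))

theorem rt_le {a b : Matrix X X ℝ} (h : IsAB a b) (i : X) : Real.sqrt (ra a i) ≤ 1 / 8 := by
  have h1 := Real.sqrt_le_sqrt (h.row i)
  have h2 : Real.sqrt (1 / 64) = 1 / 8 := by
    rw [show (1 / 64 : ℝ) = (1 / 8) ^ 2 by norm_num]
    exact Real.sqrt_sq (by norm_num)
  rwa [h2] at h1

theorem b_nonneg {a b : Matrix X X ℝ} (h : IsAB a b) (i j : X) : 0 ≤ b i j := by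
  rcases eq_or_ne i j with rfl | hij
  · rw [h.bdiag]
  · linarith [h.b1 i j hij]

theorem b_le {a b : Matrix X X ℝ} (h : IsAB a b) (i j : X) : b i j ≤ 129 / 128 := by
  rcases eq_or_ne i j with rfl | hij
  · rw [h.bdiag]
    norm_num
  · linarith [h.b2 i j hij, a_sq_le h i j]

theorem Ob_le {O a b : Matrix X X ℝ} {K : ℝ} (hK : 0 ≤ K) (hO : BilN O K) (hO0 : ∀ i, O i i = 0) (h : IsAB a b)
    (α β : X → ℝ) : |∑ i, ∑ j, O i j * b i j * (α i * β j)| ≤ K * (129 / 128) * (n2 α + n2 β) / 2 := by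
  have e1 : ∑ i, ∑ j, O i j * b i j * (α i * β j) =
      ∑ i, ∑ j, O i j * (α i * β j) + ∑ i, ∑ j, O i j * (b i j - 1) * (α i * β j) := by
    rw [← Finset.sum_add_distrib]
    refine Finset.sum_congr rfl fun i _ => ?_
    rw [← Finset.sum_add_distrib]
    exact Finset.sum_congr rfl fun j _ => by ring
  have h2 : |∑ i, ∑ j, O i j * (b i j - 1) * (α i * β j)| ≤
      ∑ i, ∑ j, (K / 4 * (a i j ^ 2 * α i ^ 2) + K / 4 * (a i j ^ 2 * β j ^ 2)) := by
    refine le_trans (Finset.abs_sum_le_sum_abs _ _) (Finset.sum_le_sum fun i _ => ?_)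
    refine le_trans (Finset.abs_sum_le_sum_abs _ _) (Finset.sum_le_sum fun j _ => ?_)
    have ha := sq_nonneg (a i j)
    have hp : 0 ≤ K / 4 * (a i j ^ 2 * α i ^ 2) + K / 4 * (a i j ^ 2 * β j ^ 2) := by positivity
    rcases eq_or_ne i j with rfl | hij
    · rw [hO0 i, zero_mul, zero_mul, abs_zero]
      exact hp
    · have h3 := O_le hO i j
      have h4 : |b i j - 1| ≤ a i j ^ 2 / 2 := by
        rw [abs_of_nonneg (by linarith [h.b1 i j hij])]
        linarith [h.b2 i j hij]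
      have h5 : |α i * β j| ≤ (α i ^ 2 + β j ^ 2) / 2 := by
        rw [abs_le]
        constructor <;> nlinarith [sq_nonneg (α i + β j), sq_nonneg (α i - β j)]
      rw [abs_mul, abs_mul]
      have h6 : |O i j| * |b i j - 1| ≤ K * (a i j ^ 2 / 2) :=
        mul_le_mul h3 h4 (abs_nonneg _) hK
      have h7 : |O i j| * |b i j - 1| * |α i * β j| ≤ K * (a i j ^ 2 / 2) * ((α i ^ 2 + β j ^ 2) / 2) :=
        mul_le_mul h6 h5 (abs_nonneg _) (by positivity)
      refine le_trans h7 (le_of_eq ?_)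
      ring
  have h3 : ∑ i, ∑ j, (K / 4 * (a i j ^ 2 * α i ^ 2) + K / 4 * (a i j ^ 2 * β j ^ 2)) =
      K / 4 * ∑ i, ra a i * α i ^ 2 + K / 4 * ∑ j, ra a j * β j ^ 2 := by
    have h4 : ∑ i, ∑ j, K / 4 * (a i j ^ 2 * β j ^ 2) = K / 4 * ∑ j, ra a j * β j ^ 2 := by
      rw [Finset.sum_comm, Finset.mul_sum]
      refine Finset.sum_congr rfl fun j _ => ?_
      unfold ra
      rw [Finset.sum_mul, Finset.mul_sum]
      refine Finset.sum_congr rfl fun i _ => ?_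
      rw [h.asymm i j]
    have h5 : ∑ i, ∑ j, K / 4 * (a i j ^ 2 * α i ^ 2) = K / 4 * ∑ i, ra a i * α i ^ 2 := by
      rw [Finset.mul_sum]
      refine Finset.sum_congr rfl fun i _ => ?_
      unfold ra
      rw [Finset.sum_mul, Finset.mul_sum]
    rw [← h4, ← h5, ← Finset.sum_add_distrib]
    refine Finset.sum_congr rfl fun i _ => ?_
    rw [← Finset.sum_add_distrib]
  have h4 : ∀ γ : X → ℝ, K / 4 * ∑ i, ra a i * γ i ^ 2 ≤ K / 4 * (1 / 64 * n2 γ) := by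
    intro γ
    refine mul_le_mul_of_nonneg_left ?_ (by linarith)
    unfold n2
    rw [Finset.mul_sum]
    exact Finset.sum_le_sum fun i _ => mul_le_mul_of_nonneg_right (h.row i) (sq_nonneg _)
  have h5 := hO α β
  rw [e1]
  refine le_trans (abs_add_le _ _) ?_
  have h6 := h4 α
  have h7 := h4 β
  rw [h3] at h2
  linarith

theorem SS_eq {a b : Matrix X X ℝ} (h : IsAB a b) (v : X → ℝ) : SS a v = ∑ i, ∑ j, a i j ^ 2 * v j ^ 2 := by
  unfold SS ra
  rw [Finset.sum_comm]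
  refine Finset.sum_congr rfl fun i _ => ?_
  rw [Finset.sum_mul]
  exact Finset.sum_congr rfl fun j _ => by rw [h.asymm i j]

theorem rav (a : Matrix X X ℝ) (v : X → ℝ) :
    ∑ i, Real.sqrt (ra a i) * (|v i| * |ap a v i|) ≤ (n2 (ap a v) + SS a v) / 2 := by
  have e : (n2 (ap a v) + SS a v) / 2 = ∑ i, (ap a v i ^ 2 + ra a i * v i ^ 2) / 2 := by
    unfold n2 SS
    rw [← Finset.sum_add_distrib, Finset.sum_div]
  rw [e]
  refine Finset.sum_le_sum fun i _ => ?_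
  have h1 := Real.sq_sqrt (ra_nonneg a i)
  have h2 := sq_nonneg (Real.sqrt (ra a i) * |v i| - |ap a v i|)
  have h3 := sq_abs (v i)
  have h4 := sq_abs (ap a v i)
  have h5 : (Real.sqrt (ra a i) * |v i|) ^ 2 = ra a i * v i ^ 2 := by rw [mul_pow, h1, h3]
  nlinarith

theorem gam_le {a b : Matrix X X ℝ} (h : IsAB a b) (i j k : X) :
    |b i k * b j k - 1| ≤ ((if i = k then 1 else 0) + a i k ^ 2) + ((if j = k then 1 else 0) + a j k ^ 2) := by
  have hx := a_sq_le h i k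
  have hy := a_sq_le h j k
  have hx0 := sq_nonneg (a i k)
  have hy0 := sq_nonneg (a j k)
  rcases eq_or_ne i k with rfl | hik
  · rw [h.bdiag, if_pos rfl, zero_mul, zero_sub, abs_neg, abs_one]
    split_ifs <;> linarith
  rcases eq_or_ne j k with rfl | hjk
  · rw [h.bdiag, if_pos rfl, mul_zero, zero_sub, abs_neg, abs_one]
    split_ifs <;> linarith
  rw [if_neg hik, if_neg hjk]
  have h1 := h.b1 i k hik
  have h2 := h.b1 j k hjk
  have h3 := h.b2 i k hik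
  have h4 := h.b2 j k hjk
  have h5 : 1 ≤ b i k * b j k := by nlinarith
  have h6 : b i k * b j k ≤ (1 + a i k ^ 2 / 2) * (1 + a j k ^ 2 / 2) :=
    mul_le_mul h3 h4 (by linarith) (by linarith)
  rw [abs_of_nonneg (by linarith)]
  nlinarith [mul_nonneg hx0 hy0, mul_le_mul hx hy hy0 (by norm_num : (0:ℝ) ≤ 1 / 64)]

end BMV
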