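import Pool.Agent.BMV.GTool

/-! BMV GToolB (section 4, helper94): elementary sums used in the estimate of the remainder `Rem`.
Notation: `r_i^2 = ra a i ≤ 1/64`, `S = SS a v = ∑_i r_i^2 v_i^2 = ∑_{ij} a_ij^2 v_i^2 = ∑_{ij} a_ij^2 v_j^2` (symmetry).

* `sq_pair`: `|x_i||x_j| ≤ (x_i^2 + x_j^2)/2` and symmetry.
* `t3`: `|a_ij| a_jl^2 |a_il| |v_i v_l| = (|a_ij||a_jl||v_l|)(|a_il||a_jl||v_i|) ≤ (a_ij^2 a_jl^2 v_l^2 + a_il^2 a_jl^2 v_i^2)/2`;
  summing the first over `i` gives `r_j^2 a_jl^2 v_l^2 ≤ a_jl^2 v_l^2/64`, the second over `j` gives `r_l^2 a_il^2 v_i^2 ≤ a_il^2 v_i^2/64`.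
* `t4`: `|a_ij| a_ik^2 a_jl^2 |a_kl| |v_k v_l| ≤ (a_ij^2 a_ik^2 a_jl^2 v_k^2 + a_kl^2 a_ik^2 a_jl^2 v_l^2)/2`; first: sum over `l`, then `j`, (each
  gives a factor `≤ 1/64`), then `∑_{ik} a_ik^2 v_k^2 = S`; second: sum over `i`, then `k`, then `∑_{jl} a_jl^2 v_l^2 = S`.
* `t6`: `|a_ij a_kl a_ik a_il a_jk a_jl v_k v_l| ≤ (a_ij^2 a_jk^2 a_kl^2 v_k^2 + a_ik^2 a_il^2 a_jl^2 v_l^2)/2`; first: sum over `i`, then over `l`
  (`∑_l a_kl^2 ≤ 1/64`), rest `∑_{jk} a_jk^2 v_k^2 = S`; second: sum over `k`, then over `j`, rest `∑_{il} a_il^2 v_l^2 = S`.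
* `sum_ab`: `a_ik b_jk v_k = a_ik v_k + a_ik (b_jk - 1) v_k`.
* `eps_le`: the term `k = j` of the sum is `- a_ij v_j` (`b_jj = 0`), in the other terms `|b_jk - 1| ≤ a_jk^2/2`.
* `eps_sq`: `eps_ij^2 ≤ 2 a_ij^2 v_j^2 + (1/2) (∑_k |a_ik| a_jk^2 |v_k|)^2`, and by Cauchy-Schwarz
  `(∑_k |a_ik| a_jk^2 |v_k|)^2 ≤ (∑_k a_jk^2)(∑_k a_ik^2 a_jk^2 v_k^2) ≤ (1/64) ∑_k a_ik^2 a_jk^2 v_k^2`; sum over `i, j`: `∑_{ijk} a_ik^2 a_jk^2 v_k^2 =
  ∑_k r_k^4 v_k^2 ≤ S/64`. Total `≤ 2 S + S/8192`. -/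

namespace BMV

open Finset BMP

variable {X : Type} [Fintype X] [DecidableEq X]

/-- the error `∑_k a_ik (b_jk - 1) v_k` -/
def eps (a b : Matrix X X ℝ) (v : X → ℝ) (i j : X) : ℝ := ∑ k, a i k * (b j k - 1) * v k

private theorem gtb_K1 {a b : Matrix X X ℝ} (h : IsAB a b) {P : X → ℝ} (hP : ∀ j, 0 ≤ P j) :
    ∑ i, ∑ j, a i j ^ 2 * P j ≤ (∑ j, P j) / 64 := by
  rw [Finset.sum_comm, Finset.sum_div]
  refine Finset.sum_le_sum fun j _ => ?_
  rw [← Finset.sum_mul]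
  have h1 : ∑ i, a i j ^ 2 ≤ 1 / 64 := by
    have := h.row j
    unfold ra at this
    calc ∑ i, a i j ^ 2 = ∑ i, a j i ^ 2 := Finset.sum_congr rfl fun i _ => by rw [h.asymm i j]
      _ ≤ 1 / 64 := this
  nlinarith [mul_le_mul_of_nonneg_right h1 (hP j)]

private theorem gtb_K2 {a b : Matrix X X ℝ} (h : IsAB a b) {P : X → ℝ} (hP : ∀ j, 0 ≤ P j) :
    ∑ i, ∑ j, a i j ^ 2 * P i ≤ (∑ i, P i) / 64 := by
  rw [Finset.sum_div]
  refine Finset.sum_le_sum fun i _ => ?_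
  rw [← Finset.sum_mul]
  have h1 : ∑ j, a i j ^ 2 ≤ 1 / 64 := h.row i
  nlinarith [mul_le_mul_of_nonneg_right h1 (hP i)]

private theorem gtb_SS (a : Matrix X X ℝ) (v : X → ℝ) : SS a v = ∑ i, ∑ j, a i j ^ 2 * v i ^ 2 := by
  unfold SS ra
  refine Finset.sum_congr rfl fun i _ => ?_
  rw [Finset.sum_mul]

theorem sq_pair {a b : Matrix X X ℝ} (h : IsAB a b) (x : X → ℝ) :
    ∑ i, ∑ j, a i j ^ 2 * (|x i| * |x j|) ≤ SS a x := by
  have h1 : SS a x = (∑ i, ∑ j, (a i j ^ 2 * x i ^ 2 / 2 + a i j ^ 2 * x j ^ 2 / 2)) := by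
    have e1 := gtb_SS a x
    have e2 := SS_eq h x
    simp only [Finset.sum_add_distrib, ← Finset.sum_div]
    linarith
  rw [h1]
  refine Finset.sum_le_sum fun i _ => Finset.sum_le_sum fun j _ => ?_
  have h2 : |x i| * |x j| ≤ (x i ^ 2 + x j ^ 2) / 2 := by
    nlinarith [sq_nonneg (|x i| - |x j|), sq_abs (x i), sq_abs (x j)]
  nlinarith [mul_le_mul_of_nonneg_left h2 (sq_nonneg (a i j))]

theorem t3 {a b : Matrix X X ℝ} (h : IsAB a b) (v : X → ℝ) :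
    ∑ i, ∑ j, ∑ l, |a i j| * a j l ^ 2 * |a i l| * (|v i| * |v l|) ≤ SS a v / 64 := by
  have h1 : ∑ i, ∑ j, ∑ l, |a i j| * a j l ^ 2 * |a i l| * (|v i| * |v l|) ≤
      (∑ i, ∑ j, ∑ l, a i j ^ 2 * (a j l ^ 2 * v l ^ 2)) / 2 +
      (∑ i, ∑ j, ∑ l, a j l ^ 2 * (a i l ^ 2 * v i ^ 2)) / 2 := by
    simp only [Finset.sum_div, ← Finset.sum_add_distrib]
    refine Finset.sum_le_sum fun i _ => Finset.sum_le_sum fun j _ =>
      Finset.sum_le_sum fun l _ => ?_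
    have e1 : a j l ^ 2 = |a j l| * |a j l| := by rw [← sq_abs, sq]
    have e2 : a i j ^ 2 = |a i j| * |a i j| := by rw [← sq_abs, sq]
    have e3 : a i l ^ 2 = |a i l| * |a i l| := by rw [← sq_abs, sq]
    have e4 : v i ^ 2 = |v i| * |v i| := by rw [← sq_abs, sq]
    have e5 : v l ^ 2 = |v l| * |v l| := by rw [← sq_abs, sq]
    rw [e1, e2, e3, e4, e5]
    have := sq_nonneg (|a i j| * |a j l| * |v l| - |a i l| * |a j l| * |v i|)
    nlinarith [this]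
  have h2 : ∑ i, ∑ j, ∑ l, a i j ^ 2 * (a j l ^ 2 * v l ^ 2) ≤ SS a v / 64 := by
    have := gtb_K1 h (P := fun j => ∑ l, a j l ^ 2 * v l ^ 2)
      (fun j => Finset.sum_nonneg fun l _ => mul_nonneg (sq_nonneg _) (sq_nonneg _))
    rw [← SS_eq h v] at this
    simp only [Finset.mul_sum] at this
    exact this
  have h3 : ∑ i, ∑ j, ∑ l, a j l ^ 2 * (a i l ^ 2 * v i ^ 2) ≤ SS a v / 64 := by
    rw [gtb_SS a v, Finset.sum_div]
    refine Finset.sum_le_sum fun i _ => ?_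
    exact gtb_K1 h (P := fun l => a i l ^ 2 * v i ^ 2)
      (fun l => mul_nonneg (sq_nonneg _) (sq_nonneg _))
  linarith

theorem t4 {a b : Matrix X X ℝ} (h : IsAB a b) (v : X → ℝ) :
    ∑ i, ∑ j, ∑ k, ∑ l, |a i j| * a i k ^ 2 * a j l ^ 2 * |a k l| * (|v k| * |v l|) ≤ SS a v / 4096 := by
  have h1 : ∑ i, ∑ j, ∑ k, ∑ l, |a i j| * a i k ^ 2 * a j l ^ 2 * |a k l| * (|v k| * |v l|) ≤
      (∑ i, ∑ j, ∑ k, ∑ l, a j l ^ 2 * (a i j ^ 2 * (a i k ^ 2 * v k ^ 2))) / 2 +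
      (∑ i, ∑ j, ∑ k, ∑ l, a i k ^ 2 * (a k l ^ 2 * (a j l ^ 2 * v l ^ 2))) / 2 := by
    simp only [Finset.sum_div, ← Finset.sum_add_distrib]
    refine Finset.sum_le_sum fun i _ => Finset.sum_le_sum fun j _ =>
      Finset.sum_le_sum fun k _ => Finset.sum_le_sum fun l _ => ?_
    have e1 : a j l ^ 2 = |a j l| * |a j l| := by rw [← sq_abs, sq]
    have e2 : a i j ^ 2 = |a i j| * |a i j| := by rw [← sq_abs, sq]
    have e3 : a i k ^ 2 = |a i k| * |a i k| := by rw [← sq_abs, sq]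
    have e4 : a k l ^ 2 = |a k l| * |a k l| := by rw [← sq_abs, sq]
    have e5 : v k ^ 2 = |v k| * |v k| := by rw [← sq_abs, sq]
    have e6 : v l ^ 2 = |v l| * |v l| := by rw [← sq_abs, sq]
    rw [e1, e2, e3, e4, e5, e6]
    have := sq_nonneg (|a i j| * |a i k| * |a j l| * |v k| - |a k l| * |a i k| * |a j l| * |v l|)
    nlinarith [this]
  have h2 : ∑ i, ∑ j, ∑ k, ∑ l, a j l ^ 2 * (a i j ^ 2 * (a i k ^ 2 * v k ^ 2)) ≤
      SS a v / 4096 := by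
    have g1 : ∀ i j, ∑ k, ∑ l, a j l ^ 2 * (a i j ^ 2 * (a i k ^ 2 * v k ^ 2)) ≤
        (a i j ^ 2 * ∑ k, a i k ^ 2 * v k ^ 2) / 64 := by
      intro i j
      rw [Finset.mul_sum, Finset.sum_div]
      refine Finset.sum_le_sum fun k _ => ?_
      rw [← Finset.sum_mul]
      have g2 : ∑ l, a j l ^ 2 ≤ 1 / 64 := h.row j
      have g3 : 0 ≤ a i j ^ 2 * (a i k ^ 2 * v k ^ 2) := by positivity
      nlinarith [mul_le_mul_of_nonneg_right g2 g3]
    calc ∑ i, ∑ j, ∑ k, ∑ l, a j l ^ 2 * (a i j ^ 2 * (a i k ^ 2 * v k ^ 2)) ≤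
        ∑ i, ∑ j, (a i j ^ 2 * ∑ k, a i k ^ 2 * v k ^ 2) / 64 :=
          Finset.sum_le_sum fun i _ => Finset.sum_le_sum fun j _ => g1 i j
      _ = (∑ i, ∑ j, (a i j ^ 2 * ∑ k, a i k ^ 2 * v k ^ 2)) / 64 := by
          simp only [Finset.sum_div]
      _ ≤ ((∑ i, ∑ k, a i k ^ 2 * v k ^ 2) / 64) / 64 := by
          have := gtb_K2 h (P := fun i => ∑ k, a i k ^ 2 * v k ^ 2)
            (fun i => Finset.sum_nonneg fun l _ => mul_nonneg (sq_nonneg _) (sq_nonneg _))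
          linarith
      _ = SS a v / 4096 := by rw [SS_eq h v]; ring
  have h3 : ∑ i, ∑ j, ∑ k, ∑ l, a i k ^ 2 * (a k l ^ 2 * (a j l ^ 2 * v l ^ 2)) ≤
      SS a v / 4096 := by
    rw [Finset.sum_comm]
    have g1 : ∀ j, ∑ i, ∑ k, ∑ l, a i k ^ 2 * (a k l ^ 2 * (a j l ^ 2 * v l ^ 2)) ≤
        (∑ l, a j l ^ 2 * v l ^ 2) / 4096 := by
      intro j
      have g2 := gtb_K1 h (P := fun k => ∑ l, a k l ^ 2 * (a j l ^ 2 * v l ^ 2))
        (fun k => Finset.sum_nonneg fun l _ => by positivity)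
      have g3 := gtb_K1 h (P := fun l => a j l ^ 2 * v l ^ 2) (fun l => by positivity)
      simp only [Finset.mul_sum] at g2
      linarith
    calc ∑ j, ∑ i, ∑ k, ∑ l, a i k ^ 2 * (a k l ^ 2 * (a j l ^ 2 * v l ^ 2)) ≤
        ∑ j, (∑ l, a j l ^ 2 * v l ^ 2) / 4096 := Finset.sum_le_sum fun j _ => g1 j
      _ = SS a v / 4096 := by rw [SS_eq h v, Finset.sum_div]
  linarith

theorem t6 {a b : Matrix X X ℝ} (h : IsAB a b) (v : X → ℝ) :
    ∑ i, ∑ j, ∑ k, ∑ l, |a i j| * |a k l| * (|a i k| * |a i l| * |a j k| * |a j l|) * (|v k| * |v l|) ≤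
      SS a v / 4096 := by
  have h1 : ∑ i, ∑ j, ∑ k, ∑ l, |a i j| * |a k l| * (|a i k| * |a i l| * |a j k| * |a j l|) *
      (|v k| * |v l|) ≤
      (∑ i, ∑ j, ∑ k, ∑ l, a i j ^ 2 * (a k l ^ 2 * (a j k ^ 2 * v k ^ 2))) / 2 +
      (∑ i, ∑ j, ∑ k, ∑ l, a i k ^ 2 * (a j l ^ 2 * (a i l ^ 2 * v l ^ 2))) / 2 := by
    simp only [Finset.sum_div, ← Finset.sum_add_distrib]
    refine Finset.sum_le_sum fun i _ => Finset.sum_le_sum fun j _ =>
      Finset.sum_le_sum fun k _ => Finset.sum_le_sum fun l _ => ?_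
    have e1 : a j l ^ 2 = |a j l| * |a j l| := by rw [← sq_abs, sq]
    have e2 : a i j ^ 2 = |a i j| * |a i j| := by rw [← sq_abs, sq]
    have e3 : a i k ^ 2 = |a i k| * |a i k| := by rw [← sq_abs, sq]
    have e4 : a k l ^ 2 = |a k l| * |a k l| := by rw [← sq_abs, sq]
    have e7 : a j k ^ 2 = |a j k| * |a j k| := by rw [← sq_abs, sq]
    have e8 : a i l ^ 2 = |a i l| * |a i l| := by rw [← sq_abs, sq]
    have e5 : v k ^ 2 = |v k| * |v k| := by rw [← sq_abs, sq]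
    have e6 : v l ^ 2 = |v l| * |v l| := by rw [← sq_abs, sq]
    rw [e1, e2, e3, e4, e5, e6, e7, e8]
    have := sq_nonneg (|a i j| * |a j k| * |a k l| * |v k| - |a i k| * |a i l| * |a j l| * |v l|)
    nlinarith [this]
  have h2 : ∑ i, ∑ j, ∑ k, ∑ l, a i j ^ 2 * (a k l ^ 2 * (a j k ^ 2 * v k ^ 2)) ≤
      SS a v / 4096 := by
    have g2 := gtb_K1 h (P := fun j => ∑ k, ∑ l, a k l ^ 2 * (a j k ^ 2 * v k ^ 2))
      (fun k => Finset.sum_nonneg fun l _ => Finset.sum_nonneg fun l _ => by positivity)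
    simp only [Finset.mul_sum] at g2
    have g3 : ∑ j, ∑ k, ∑ l, a k l ^ 2 * (a j k ^ 2 * v k ^ 2) ≤ SS a v / 64 := by
      rw [SS_eq h v, Finset.sum_div]
      refine Finset.sum_le_sum fun j _ => ?_
      exact gtb_K2 h (P := fun k => a j k ^ 2 * v k ^ 2) (fun k => by positivity)
    linarith
  have h3 : ∑ i, ∑ j, ∑ k, ∑ l, a i k ^ 2 * (a j l ^ 2 * (a i l ^ 2 * v l ^ 2)) ≤
      SS a v / 4096 := by
    have g1 : ∀ i, ∑ j, ∑ k, ∑ l, a i k ^ 2 * (a j l ^ 2 * (a i l ^ 2 * v l ^ 2)) ≤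
        (∑ l, a i l ^ 2 * v l ^ 2) / 4096 := by
      intro i
      have g2 := gtb_K1 h (P := fun l => a i l ^ 2 * v l ^ 2) (fun l => by positivity)
      have g4 : 0 ≤ ∑ j, ∑ l, a j l ^ 2 * (a i l ^ 2 * v l ^ 2) :=
        Finset.sum_nonneg fun j _ => Finset.sum_nonneg fun l _ => by positivity
      have g5 : ∑ j, ∑ k, ∑ l, a i k ^ 2 * (a j l ^ 2 * (a i l ^ 2 * v l ^ 2)) =
          (∑ k, a i k ^ 2) * ∑ j, ∑ l, a j l ^ 2 * (a i l ^ 2 * v l ^ 2) := by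
        rw [Finset.mul_sum]
        refine Finset.sum_congr rfl fun j _ => ?_
        rw [Finset.sum_mul]
        refine Finset.sum_congr rfl fun k _ => ?_
        rw [Finset.mul_sum]
      have g6 : ∑ k, a i k ^ 2 ≤ 1 / 64 := h.row i
      rw [g5]
      nlinarith [mul_le_mul_of_nonneg_right g6 g4]
    calc ∑ i, ∑ j, ∑ k, ∑ l, a i k ^ 2 * (a j l ^ 2 * (a i l ^ 2 * v l ^ 2)) ≤
        ∑ i, (∑ l, a i l ^ 2 * v l ^ 2) / 4096 := Finset.sum_le_sum fun i _ => g1 i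
      _ = SS a v / 4096 := by rw [SS_eq h v, Finset.sum_div]
  linarith

theorem sum_ab {a b : Matrix X X ℝ} (v : X → ℝ) (i j : X) :
    ∑ k, a i k * b j k * v k = ap a v i + eps a b v i j := by
  unfold ap eps
  rw [← Finset.sum_add_distrib]
  refine Finset.sum_congr rfl fun k _ => ?_
  ring

theorem eps_le {a b : Matrix X X ℝ} (h : IsAB a b) (v : X → ℝ) (i j : X) :
    |eps a b v i j| ≤ |a i j| * |v j| + (∑ k, |a i k| * a j k ^ 2 * |v k|) / 2 := by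
  unfold eps
  refine le_trans (Finset.abs_sum_le_sum_abs _ _) ?_
  have h1 : |a i j| * |v j| + (∑ k, |a i k| * a j k ^ 2 * |v k|) / 2 =
      ∑ k, ((if k = j then |a i j| * |v j| else 0) + |a i k| * a j k ^ 2 * |v k| / 2) := by
    rw [Finset.sum_add_distrib, Finset.sum_ite_eq' , if_pos (Finset.mem_univ _), Finset.sum_div]
  rw [h1]
  refine Finset.sum_le_sum fun k _ => ?_
  rw [abs_mul, abs_mul]
  by_cases hk : k = j
  · subst hk
    rw [if_pos rfl, h.bdiag k]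
    have : 0 ≤ |a i k| * a k k ^ 2 * |v k| / 2 := by positivity
    rw [zero_sub, abs_neg, abs_one, mul_one]
    linarith
  · rw [if_neg hk, zero_add]
    have g1 := h.b1 j k (fun e => hk e.symm)
    have g2 := h.b2 j k (fun e => hk e.symm)
    have g3 : |b j k - 1| ≤ a j k ^ 2 / 2 := by
      rw [abs_of_nonneg (by linarith)]
      linarith
    calc |a i k| * |b j k - 1| * |v k| ≤ |a i k| * (a j k ^ 2 / 2) * |v k| :=
          mul_le_mul_of_nonneg_right (mul_le_mul_of_nonneg_left g3 (abs_nonneg _)) (abs_nonneg _)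
      _ = |a i k| * a j k ^ 2 * |v k| / 2 := by ring

theorem eps_sq {a b : Matrix X X ℝ} (h : IsAB a b) (v : X → ℝ) :
    ∑ i, ∑ j, eps a b v i j ^ 2 ≤ (201 / 100) * SS a v := by
  have h1 : ∀ i j, eps a b v i j ^ 2 ≤ 2 * (a i j ^ 2 * v j ^ 2) +
      (∑ k, a i k ^ 2 * (a j k ^ 2 * v k ^ 2)) / 128 := by
    intro i j
    set Z := ∑ k, |a i k| * a j k ^ 2 * |v k| with hZ
    have hZ0 : 0 ≤ Z := Finset.sum_nonneg fun k _ => by positivity
    have g1 := eps_le h v i j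
    have g2 : eps a b v i j ^ 2 ≤ (|a i j| * |v j| + Z / 2) ^ 2 := by
      rw [← sq_abs (eps a b v i j)]
      exact pow_le_pow_left₀ (abs_nonneg _) g1 2
    have g3 : (|a i j| * |v j| + Z / 2) ^ 2 ≤ 2 * (a i j ^ 2 * v j ^ 2) + Z ^ 2 / 2 := by
      have e1 : a i j ^ 2 * v j ^ 2 = (|a i j| * |v j|) ^ 2 := by
        rw [mul_pow, sq_abs, sq_abs]
      rw [e1]
      nlinarith [sq_nonneg (|a i j| * |v j| - Z / 2)]
    have g4 : Z ^ 2 ≤ (∑ k, a i k ^ 2 * (a j k ^ 2 * v k ^ 2)) / 64 := by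
      have c1 := Finset.sum_mul_sq_le_sq_mul_sq Finset.univ (fun k => |a j k|)
        (fun k => |a i k| * |a j k| * |v k|)
      have c2 : ∑ k, |a j k| * (|a i k| * |a j k| * |v k|) = Z := by
        refine Finset.sum_congr rfl fun k _ => ?_
        rw [← sq_abs (a j k)]
        ring
      have c3 : ∑ k, |a j k| ^ 2 ≤ 1 / 64 := by
        have := h.row j
        unfold ra at this
        simp only [sq_abs]
        exact this
      have c4 : ∑ k, (|a i k| * |a j k| * |v k|) ^ 2 = ∑ k, a i k ^ 2 * (a j k ^ 2 * v k ^ 2) := by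
        refine Finset.sum_congr rfl fun k _ => ?_
        rw [mul_pow, mul_pow, sq_abs, sq_abs, sq_abs]
        ring
      rw [c2, c4] at c1
      have c5 : 0 ≤ ∑ k, a i k ^ 2 * (a j k ^ 2 * v k ^ 2) :=
        Finset.sum_nonneg fun k _ => by positivity
      nlinarith [mul_le_mul_of_nonneg_right c3 c5]
    linarith
  have h2 : ∑ i, ∑ j, ∑ k, a i k ^ 2 * (a j k ^ 2 * v k ^ 2) ≤ SS a v / 64 := by
    rw [Finset.sum_comm, SS_eq h v, Finset.sum_div]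
    refine Finset.sum_le_sum fun j _ => ?_
    exact gtb_K1 h (P := fun k => a j k ^ 2 * v k ^ 2) (fun k => by positivity)
  have h3 : ∑ i, ∑ j, eps a b v i j ^ 2 ≤ 2 * SS a v +
      (∑ i, ∑ j, ∑ k, a i k ^ 2 * (a j k ^ 2 * v k ^ 2)) / 128 := by
    rw [SS_eq h v]
    simp only [Finset.sum_div, Finset.mul_sum, ← Finset.sum_add_distrib]
    refine Finset.sum_le_sum fun i _ => Finset.sum_le_sum fun j _ => ?_
    have := h1 i j
    simp only [Finset.sum_div] at this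
    exact this
  have h4 := SS_nonneg a v
  linarith

end BMV
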