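import Pool.Agent.BMV.Basic

/-!
# BMV/Jgap: sets of small `k/m`

PROOF.  Fix `A`; `m_i = m(A,i)`, `k_i = k(A,i)`, `M = bar m A`, `κ = bar k A/M`, `κ_i = k_i/m_i`.  If `M = 0` all
terms vanish.  For `m_i > 0`: `log κ - log κ_i = log (κ/κ_i)` (`k_i > 0`, `κ > 0`) and
(a) `m_i log(κ/κ_i) ≥ m_i (1 - κ_i/κ)` (`Real.one_sub_inv_le_log_of_pos`);
(b) for `i ∈ H`: `κ/κ_i ≥ 1/ε`, so `m_i log(κ/κ_i) ≥ m_i log(1/ε) ≥ m_i (1 - κ_i/κ) + m_i (log(1/ε) - 1)`
(`κ_i/κ ≥ 0`).  (`1 ≤ log(1/ε)` is not needed; if `ε ≤ 0` then no `i ∈ H` has `m_i > 0`, so assume `0 < ε`.)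
Sum: `∑ m_i (1 - κ_i/κ) = M - bar k A/κ = 0` because `k_i = 0` where `m_i = 0`.
`Jt_nonneg` is the case `H = ∅`.
-/

namespace BMV

open Finset BMP

variable {α X : Type} [Fintype α] [Fintype X] [DecidableEq X]

private theorem jgap_term (m k M K ε : ℝ) (hm : 0 ≤ m) (hk : 0 ≤ k) (hkp : 0 < m → 0 < k)
    (hkz : m = 0 → k = 0) (hM : 0 < M) (hK : 0 < K) :
    m - k * (M / K) ≤ m * (Real.log (K / M) - Real.log (k / m)) ∧
    (0 < ε → k * M ≤ ε * (K * m) →
      m - k * (M / K) + m * (Real.log (1 / ε) - 1) ≤ m * (Real.log (K / M) - Real.log (k / m))) := by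
  rcases hm.eq_or_lt with h0 | h0
  · have hk0 := hkz h0.symm
    rw [← h0, hk0]
    simp
  · have hk0 := hkp h0
    have hlog : Real.log (K / M) - Real.log (k / m) = Real.log ((K / M) / (k / m)) := by
      rw [← Real.log_div (ne_of_gt (by positivity)) (ne_of_gt (by positivity))]
    have hpos : 0 < (K / M) / (k / m) := by positivity
    have hinv : ((K / M) / (k / m))⁻¹ = k * M / (K * m) := by
      field_simp
    constructor
    · have h1 := Real.one_sub_inv_le_log_of_pos hpos
      rw [hlog]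
      have h2 : m * (1 - ((K / M) / (k / m))⁻¹) = m - k * (M / K) := by
        rw [hinv]; field_simp
      rw [← h2]
      exact mul_le_mul_of_nonneg_left h1 h0.le
    · intro hε hH
      rw [hlog]
      have h3 : 1 / ε ≤ (K / M) / (k / m) := by
        have h6 : (K / M) / (k / m) = (K * m) / (k * M) := by field_simp
        rw [h6, div_le_div_iff₀ hε (by positivity)]
        linarith
      have h4 : Real.log (1 / ε) ≤ Real.log ((K / M) / (k / m)) :=
        Real.log_le_log (by positivity) h3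
      have h5 : 0 ≤ k * (M / K) := by positivity
      nlinarith [mul_le_mul_of_nonneg_left h4 h0.le]

omit [Fintype α] [DecidableEq X] in
private theorem bar_zero (m : α × X → ℝ) (hm : ∀ p, 0 ≤ m p) (A : α) (h : bar m A = 0) (i : X) :
    m (A, i) = 0 := by
  unfold bar at h
  exact (Finset.sum_eq_zero_iff_of_nonneg (fun i _ => hm (A, i))).1 h i (Finset.mem_univ i)

theorem Jt_nonneg (m k : α × X → ℝ) (hm : ∀ p, 0 ≤ m p) (hk : ∀ p, 0 ≤ k p)
    (hkp : ∀ p, 0 < m p → 0 < k p) (hkz : ∀ p, m p = 0 → k p = 0) (A : α) : 0 ≤ Jt m k A := by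
  have hM0 : 0 ≤ bar m A := Finset.sum_nonneg fun i _ => hm (A, i)
  rcases hM0.eq_or_lt with hM | hM
  · unfold Jt
    refine Finset.sum_nonneg fun i _ => ?_
    rw [bar_zero m hm A hM.symm i]
    simp
  · have hK : 0 < bar k A := by
      obtain ⟨i, -, hi⟩ : ∃ i ∈ (Finset.univ : Finset X), 0 < m (A, i) := by
        by_contra hc
        push Not at hc
        have : bar m A ≤ 0 := Finset.sum_nonpos fun i hi => hc i hi
        linarith
      exact lt_of_lt_of_le (hkp _ hi)
        (Finset.single_le_sum (f := fun i => k (A, i)) (fun i _ => hk (A, i)) (Finset.mem_univ i))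
    have h1 : ∑ i, (m (A, i) - k (A, i) * (bar m A / bar k A)) ≤ Jt m k A := by
      unfold Jt
      exact Finset.sum_le_sum fun i _ => (jgap_term (m (A, i)) (k (A, i)) (bar m A) (bar k A) 1 (hm _)
        (hk _) (hkp _) (hkz _) hM hK).1
    have h2 : ∑ i, (m (A, i) - k (A, i) * (bar m A / bar k A)) = 0 := by
      rw [Finset.sum_sub_distrib, ← Finset.sum_mul]
      change bar m A - bar k A * (bar m A / bar k A) = 0
      field_simp
      ring
    linarith

theorem jgap (m k : α × X → ℝ) (hm : ∀ p, 0 ≤ m p) (hk : ∀ p, 0 ≤ k p)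
    (hkp : ∀ p, 0 < m p → 0 < k p) (hkz : ∀ p, m p = 0 → k p = 0) (A : α) (ε : ℝ) (hε : 0 < ε)
    (H : X → Prop) [DecidablePred H]
    (hH : ∀ i, H i → k (A, i) * bar m A ≤ ε * (bar k A * m (A, i))) :
    (∑ i, if H i then m (A, i) else 0) * (Real.log (1 / ε) - 1) ≤ Jt m k A := by
  have hM0 : 0 ≤ bar m A := Finset.sum_nonneg fun i _ => hm (A, i)
  rcases hM0.eq_or_lt with hM | hM
  · have h0 : (∑ i, if H i then m (A, i) else 0) = 0 := by
      refine Finset.sum_eq_zero fun i _ => ?_
      rw [bar_zero m hm A hM.symm i]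
      simp
    rw [h0, zero_mul]
    exact Jt_nonneg m k hm hk hkp hkz A
  · have hK : 0 < bar k A := by
      obtain ⟨i, -, hi⟩ : ∃ i ∈ (Finset.univ : Finset X), 0 < m (A, i) := by
        by_contra hc
        push Not at hc
        have : bar m A ≤ 0 := Finset.sum_nonpos fun i hi => hc i hi
        linarith
      exact lt_of_lt_of_le (hkp _ hi)
        (Finset.single_le_sum (f := fun i => k (A, i)) (fun i _ => hk (A, i)) (Finset.mem_univ i))
    have h1 : ∑ i, ((m (A, i) - k (A, i) * (bar m A / bar k A)) +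
        (if H i then m (A, i) else 0) * (Real.log (1 / ε) - 1)) ≤ Jt m k A := by
      unfold Jt
      refine Finset.sum_le_sum fun i _ => ?_
      have h3 := jgap_term (m (A, i)) (k (A, i)) (bar m A) (bar k A) ε (hm _)
        (hk _) (hkp _) (hkz _) hM hK
      by_cases hi : H i
      · rw [if_pos hi]
        exact h3.2 hε (hH i hi)
      · rw [if_neg hi, zero_mul, add_zero]
        exact h3.1
    have h2 : ∑ i, (m (A, i) - k (A, i) * (bar m A / bar k A)) = 0 := by
      rw [Finset.sum_sub_distrib, ← Finset.sum_mul]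
      change bar m A - bar k A * (bar m A / bar k A) = 0
      field_simp
      ring
    rw [Finset.sum_add_distrib, h2, zero_add, ← Finset.sum_mul] at h1
    exact h1

end BMV
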