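import Pool.Agent.BMV.GeoBad
import Pool.Agent.BMV.Jgap

/-!
# BMV/GeoHot: mass of the hot coordinates

PROOF.  Fix `A` with `bar m A > 0` (otherwise the term is `0 ≤` the right side; `KLt_nonneg`, `Jt_nonneg`) and
`H = {i : good i, not cold A i}`.
Claim: for `i ∈ H`, `k(A,i) bar m A ≤ (2/L0) (bar k A m(A,i))`.  Not cold: `nL κ ≥ mL i + 2`, so
`κ ≥ 4^(nL κ) ≥ 4^(mL i + 2) = 16/Ph i` (`BMP.nL_le`), i.e. `bar k A Ph i ≥ 16 L0 bar j A ≥ 16 L0 bar m A`.
If `Gd i = 0`: `Pm i ≤ 8 Gd i = 0`, so `m(A,i) = 0`, `k(A,i) = 0`.  If `Gd i > 0`: `Ph i < 4 Gd i ≤ 32 Pm i`, so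
`bar m A ≤ (2/L0) bar k A Pm i` and `k(A,i) bar m A ≤ (2/L0) bar k A k(A,i) Pm i ≤ (2/L0) bar k A m(A,i)` (`k_P`).
`jgap` with `ε = 2/L0`: `1/ε = L0/2 = 2 exp 200`, `log (1/ε) - 1 ≥ 199` (`log 2 ≥ 0`), so
`∑_{i ∈ H} m(A,i) ≤ Jt A/199`.  `hell_v1` with the indicator of `H`, `Φ = 1`:
`bar m A ∑_{i∈H} vh² ≤ (2/199) Jt A + 2 KLt A ≤ Jt A/99 + 2 KLt A`.
-/

namespace BMV

open Finset BMP

variable {α X : Type} [Fintype α] [Fintype X] [DecidableEq X]
variable (r : α → α → Prop) [DecidableRel r] (θ δ h : ℝ) (c : α → X → ℝ) (m k j : α × X → ℝ)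

private theorem L0_pos' : 0 < L0 := by
  unfold L0
  positivity

private theorem log_L0 : 199 ≤ Real.log (1 / (2 / L0)) - 1 := by
  have h1 : 1 / (2 / L0) = 2 * Real.exp 200 := by
    unfold L0
    rw [one_div_div]
    ring
  rw [h1, Real.log_mul (by norm_num) (Real.exp_pos _).ne', Real.log_exp]
  have h2 : 0 ≤ Real.log 2 := Real.log_nonneg (by norm_num)
  linarith

private theorem hot_key (hθ : 0 < θ) (hS : St θ δ h (rX r) (cW c) m k j) (A : α)
    (hA : 0 < bar m A) (i : X) (hg : good c m i) (hc : ¬ cold c m k j A i) :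
    k (A, i) * bar m A ≤ 2 / L0 * (bar k A * m (A, i)) := by
  have hL := L0_pos'
  have hm := hS.m0
  have hj : bar m A ≤ bar j A := bar_mj r θ δ h (cW c) m k j hS A
  have hjp : 0 < bar j A := lt_of_lt_of_le hA hj
  have hkb : 0 ≤ bar k A := Finset.sum_nonneg fun _ _ => hS.k0 _
  have hk : 0 ≤ k (A, i) := hS.k0 _
  have hG := Gd_nonneg c m hm i
  rcases hG.eq_or_lt with h0 | h0
  · have h1 : Pm m i ≤ 0 := by
      have := hg.2
      rw [← h0] at this
      linarith
    have h2 : m (A, i) ≤ Pm m i := by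
      unfold Pm
      exact Finset.single_le_sum (f := fun A => m (A, i)) (fun _ _ => hm _) (Finset.mem_univ A)
    have h3 : m (A, i) = 0 := le_antisymm (by linarith) (hm _)
    rw [h3, (kz r θ δ h hθ (cW c) m k j hS (A, i) h3).1]
    simp
  · have h1 := Ph_lt c m hm i hg h0
    have h2 := hg.1
    have hκ := kap_pos r θ δ h c m k j hθ hS A
    have h3 := nL_le (kap m k j A) hκ
    have h4 : mL (vg c m) i + 2 ≤ nL (kap m k j A) := by
      unfold cold at hc
      omega
    have h5 : (4 : ℝ) ^ (mL (vg c m) i + 2) ≤ (4 : ℝ) ^ (nL (kap m k j A)) :=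
      zpow_le_zpow_right₀ (by norm_num) h4
    have h6 : (4 : ℝ) ^ (mL (vg c m) i + 2) * Phg c m i = 16 := by
      unfold Phg
      rw [← zpow_add₀ (by norm_num)]
      have : mL (vg c m) i + 2 + -mL (vg c m) i = 2 := by ring
      rw [this]
      norm_num
    have h7 : 16 ≤ kap m k j A * Phg c m i := by
      rw [← h6]
      exact mul_le_mul_of_nonneg_right (h5.trans h3) (Ph_pos c m i).le
    have h8 : kap m k j A = bar k A / (L0 * bar j A) := by
      unfold kap
      rw [if_neg hA.ne']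
    rw [h8, div_mul_eq_mul_div, le_div_iff₀ (by positivity)] at h7
    have h9 := k_P r θ δ h hθ (cW c) m k j hS A i
    have h10 : 16 * (L0 * bar m A) ≤ bar k A * (32 * Pm m i) := by
      have h11 : 16 * (L0 * bar m A) ≤ 16 * (L0 * bar j A) := by
        have := mul_le_mul_of_nonneg_left hj hL.le
        linarith
      have h12 : bar k A * Phg c m i ≤ bar k A * (32 * Pm m i) :=
        mul_le_mul_of_nonneg_left (by linarith) hkb
      linarith
    have h13 : k (A, i) * (L0 * bar m A) ≤ 2 * (bar k A * m (A, i)) := by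
      have h14 := mul_le_mul_of_nonneg_left h10 hk
      have h15 : bar k A * (k (A, i) * Pm m i) ≤ bar k A * m (A, i) :=
        mul_le_mul_of_nonneg_left h9 hkb
      nlinarith
    rw [div_mul_eq_mul_div, le_div_iff₀ hL]
    calc k (A, i) * bar m A * L0 = k (A, i) * (L0 * bar m A) := by ring
      _ ≤ 2 * (bar k A * m (A, i)) := h13

theorem hot_mass (hθ : 0 < θ) (hS : St θ δ h (rX r) (cW c) m k j) :
    ∑ A, bar m A * ∑ i, (if good c m i ∧ ¬ cold c m k j A i then vh c m A i ^ 2 else 0) ≤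
      2 * ∑ A, KLt (cW c) m A + 1 / 99 * ∑ A, Jt m k A := by
  have hkz : ∀ p, m p = 0 → k p = 0 := fun p hp => (kz r θ δ h hθ (cW c) m k j hS p hp).1
  rw [Finset.mul_sum, Finset.mul_sum, ← Finset.sum_add_distrib]
  refine Finset.sum_le_sum fun A _ => ?_
  have hJ : 0 ≤ Jt m k A := Jt_nonneg m k hS.m0 hS.k0 hS.kp hkz A
  have hW : ∀ p, 0 ≤ cW c p := fun p => sq_nonneg _
  have hK : 0 ≤ KLt (cW c) m A := KLt_nonneg (cW c) m hW hS.m0 hS.Wp A
  rcases (bar_m0 m hS.m0 A).eq_or_lt with hA | hA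
  · rw [← hA, zero_mul]
    positivity
  · have h1 := hell_v1 r θ δ h c m k j hS A
      (fun i => if good c m i ∧ ¬ cold c m k j A i then 1 else 0) 1
      (fun i => by split_ifs <;> norm_num) (fun i => by split_ifs <;> norm_num)
    have h2 := jgap m k hS.m0 hS.k0 hS.kp hkz A (2 / L0) (div_pos two_pos L0_pos')
      (fun i => good c m i ∧ ¬ cold c m k j A i)
      (fun i hi => hot_key r θ δ h c m k j hθ hS A hA i hi.1 hi.2)
    have h3 : ∀ i, vh c m A i ^ 2 * (if good c m i ∧ ¬ cold c m k j A i then (1 : ℝ) else 0) =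
        if good c m i ∧ ¬ cold c m k j A i then vh c m A i ^ 2 else 0 := by
      intro i
      split_ifs <;> simp
    have h4 : ∀ i, m (A, i) * (if good c m i ∧ ¬ cold c m k j A i then (1 : ℝ) else 0) =
        if good c m i ∧ ¬ cold c m k j A i then m (A, i) else 0 := by
      intro i
      split_ifs <;> simp
    simp only [h3, h4] at h1
    set T := ∑ i, (if good c m i ∧ ¬ cold c m k j A i then m (A, i) else 0) with hT
    have hT0 : 0 ≤ T := by
      rw [hT]
      refine Finset.sum_nonneg fun i _ => ?_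
      split_ifs
      · exact hS.m0 _
      · exact le_rfl
    have h5 : T * 199 ≤ Jt m k A := (mul_le_mul_of_nonneg_left log_L0 hT0).trans h2
    linarith

end BMV
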