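import Pool.Agent.BMV.GeoN
import Pool.Agent.BMV.GeoHot

/-!
# BMV/GeoE: the diagonal term

PROOF.  `KL = ∑ KLt`, `J = ∑ Jt`, `Ml = ms (bar m) (ap R vh)`, `g(A,i)` = indicator of (good `i` and cold `A i`).
Step 1.  For each `C` let `φ_i = ∑_A [¬ r A C] bar k A zg A i ^ 2`; `0 ≤ φ_i ≤ ∑_A bar k A zg A i ^ 2 ≤ 20 L0` (`N_diag`).
 `Eb = ∑_C bar m C ∑_i vh C i ^ 2 φ_i ≤ 2 ∑_C ∑_i m(C,i) φ_i + 40 L0 KL` (`hell_v1`).
Step 2.  `zg A i ^ 2 ≤ 2 g vh A i ^ 2 + 2 g (ap R vh A i)²` (`zg_eq`), so with `Q_A(i) = ∑_C [¬ r A C] m(C,i) ≤ Pm i`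
 `∑_C ∑_i m(C,i) φ_i ≤ 2 ∑_A bar k A ∑_i g vh² Q_A(i) + 2 ∑_A bar k A ∑_i g (ap R vh)² Pm i`.
 On `g`: `bar k A Pm i ≤ 8 bar k A Ph i ≤ 128 L0 bar j A ≤ 160 L0 bar m A` (`Pm_le`, `cold_k`), so the last sum is
 `≤ 160 L0 Ml`.
Step 3.  For each `A` (with `bar m A > 0`) `hell_v1` with `φ'_i = g (bar k A/bar m A) Q_A(i) ≤ 160 L0`:
 `bar k A ∑_i g vh² Q_A(i) = bar m A ∑ vh² φ' ≤ 2 ∑_i m(A,i) φ'_i + 320 L0 KLt A`.
Step 4.  `∑_i m(A,i) φ'_i ≤ Mt ∑_i k(A,i) Q_A(i) + 160 L0 ∑_{i ∈ H} m(A,i)`, `H = {i : Mt k(A,i) bar m A ≤ bar k A m(A,i)}` (outside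
 `H`: `(bar k/bar m) m(A,i) < Mt k(A,i)`), and `jgap` with `ε = 1/Mt`, `log Mt - 1 = 100000 L0`:
 `∑_H m(A,i) ≤ Jt A/(100000 L0)`.  Sum over `A`: `∑_A ∑_i k(A,i) Q_A(i) = Oc r m k`.
Total: `Eb ≤ 2 (2 (2 (Mt Oc + (160/100000) J) + 320 L0 KL) + 320 L0 Ml) + 40 L0 KL`
 `= 8 Mt Oc + 0.0128 J + 1320 L0 KL + 640 L0 Ml`.
-/

namespace BMV

open Finset BMP

variable {α X : Type} [Fintype α] [Fintype X] [DecidableEq X]
variable (r : α → α → Prop) [DecidableRel r] (θ δ h : ℝ) (c : α → X → ℝ) (m k j : α × X → ℝ)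
  (R : Matrix X X ℝ)

/-- mass of the variable `i` on the monomials which do not meet `A` -/
private def QA (m : α × X → ℝ) (A : α) (i : X) : ℝ := ∑ C, if r A C then 0 else m (C, i)

omit [Fintype X] [DecidableEq X] in
private theorem QA_nonneg (hm : ∀ p, 0 ≤ m p) (A : α) (i : X) : 0 ≤ QA r m A i := by
  unfold QA
  refine Finset.sum_nonneg fun C _ => ?_
  split_ifs
  · exact le_rfl
  · exact hm _

omit [Fintype X] [DecidableEq X] in
private theorem QA_le (hm : ∀ p, 0 ≤ m p) (A : α) (i : X) : QA r m A i ≤ Pm m i := by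
  unfold QA Pm
  refine Finset.sum_le_sum fun C _ => ?_
  split_ifs
  · exact hm _
  · exact le_rfl

private theorem Mt_pos : 0 < Mt := by unfold Mt; exact Real.exp_pos _

private theorem log_Mt : Real.log (1 / (1 / Mt)) - 1 = 100000 * L0 := by
  rw [one_div_one_div]
  unfold Mt
  rw [Real.log_exp]
  ring

omit [DecidableEq X] in
/-- the first exchange of sums -/
private theorem Eb_eq :
    Eb r (bar m) (bar k) (vh c m) (zg c m k j R) =
      ∑ C, bar m C * ∑ i, vh c m C i ^ 2 *
        (∑ A, if r A C then 0 else bar k A * zg c m k j R A i ^ 2) := by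
  unfold Eb ns
  rw [Finset.sum_comm]
  refine Finset.sum_congr rfl fun C _ => ?_
  have e1 : bar m C * ∑ i, vh c m C i ^ 2 *
        (∑ A, if r A C then 0 else bar k A * zg c m k j R A i ^ 2) =
      ∑ i, ∑ A, if r A C then 0 else
        bar k A * bar m C * (zg c m k j R A i ^ 2 * vh c m C i ^ 2) := by
    rw [Finset.mul_sum]
    refine Finset.sum_congr rfl fun i _ => ?_
    rw [Finset.mul_sum, Finset.mul_sum]
    refine Finset.sum_congr rfl fun A _ => ?_
    split_ifs
    · ring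
    · ring
  rw [e1, Finset.sum_comm]
  refine Finset.sum_congr rfl fun A _ => ?_
  split_ifs
  · simp
  · exact Finset.mul_sum _ _ _

omit [DecidableEq X] in
/-- the second exchange of sums -/
private theorem S1_eq :
    ∑ C, ∑ i, m (C, i) * (∑ A, if r A C then 0 else bar k A * zg c m k j R A i ^ 2) =
      ∑ A, ∑ i, bar k A * zg c m k j R A i ^ 2 * QA r m A i := by
  have e1 : ∀ C, ∑ i, m (C, i) * (∑ A, if r A C then 0 else bar k A * zg c m k j R A i ^ 2) =
      ∑ A, ∑ i, bar k A * zg c m k j R A i ^ 2 * (if r A C then 0 else m (C, i)) := by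
    intro C
    rw [Finset.sum_comm]
    refine Finset.sum_congr rfl fun i _ => ?_
    rw [Finset.mul_sum]
    refine Finset.sum_congr rfl fun A _ => ?_
    split_ifs
    · ring
    · ring
  rw [Finset.sum_congr rfl fun C _ => e1 C, Finset.sum_comm]
  refine Finset.sum_congr rfl fun A _ => ?_
  rw [Finset.sum_comm]
  refine Finset.sum_congr rfl fun i _ => ?_
  unfold QA
  rw [Finset.mul_sum]

omit [DecidableEq X] in
private theorem Oc_eq : Oc r m k = ∑ A, ∑ i, k (A, i) * QA r m A i := by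
  unfold Oc ns
  refine Finset.sum_congr rfl fun A _ => ?_
  have e1 : ∀ i, k (A, i) * QA r m A i = ∑ C, if r A C then 0 else k (A, i) * m (C, i) := by
    intro i
    unfold QA
    rw [Finset.mul_sum]
    refine Finset.sum_congr rfl fun C _ => ?_
    split_ifs
    · ring
    · ring
  rw [Finset.sum_congr rfl fun i _ => e1 i, Finset.sum_comm]
  refine Finset.sum_congr rfl fun C _ => ?_
  split_ifs
  · simp
  · rfl

/-- steps 2, 3, 4 for one `A` -/
private theorem one_A (hθ : 0 < θ) (hS : St θ δ h (rX r) (cW c) m k j) (hR : IsClean (vg c m) R) (A : α) :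
    ∑ i, bar k A * zg c m k j R A i ^ 2 * QA r m A i ≤
      4 * Mt * (∑ i, k (A, i) * QA r m A i) + 4 * (160 / 100000) * Jt m k A
        + 640 * L0 * KLt (cW c) m A + 320 * L0 * (bar m A * n2 (ap R (vh c m A))) := by
  classical
  have hL := L0_pos
  have hMt := Mt_pos
  have hcW : ∀ p, 0 ≤ cW c p := fun p => sq_nonneg _
  have hQ0 := QA_nonneg r m hS.m0 A
  have hkz : ∀ p, m p = 0 → k p = 0 := fun p hp => (kz r θ δ h hθ (cW c) m k j hS p hp).1
  have hJ : 0 ≤ Jt m k A := Jt_nonneg m k hS.m0 hS.k0 hS.kp hkz A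
  have hK : 0 ≤ KLt (cW c) m A := KLt_nonneg (cW c) m hcW hS.m0 hS.Wp A
  have hm0 : 0 ≤ bar m A := bar_m0 m hS.m0 A
  have hk0 : 0 ≤ bar k A := Finset.sum_nonneg fun _ _ => hS.k0 _
  have hn2 : 0 ≤ n2 (ap R (vh c m A)) := Finset.sum_nonneg fun _ _ => sq_nonneg _
  have hkQ : 0 ≤ ∑ i, k (A, i) * QA r m A i :=
    Finset.sum_nonneg fun i _ => mul_nonneg (hS.k0 _) (hQ0 i)
  rcases hm0.eq_or_lt with hM | hM
  · have hz := zg_zero c m k j R A hM.symm
    have e0 : ∑ i, bar k A * zg c m k j R A i ^ 2 * QA r m A i = 0 := by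
      refine Finset.sum_eq_zero fun i _ => ?_
      rw [hz]
      simp
    rw [e0]
    positivity
  · -- the bound on the good cold coordinates
    have hcold : ∀ i, good c m i → cold c m k j A i → bar k A * Pm m i ≤ 160 * L0 * bar m A := by
      intro i hg hc
      have e1 := Pm_le c m hS.m0 i hg
      have e2 := cold_k r θ δ h c m k j hθ hS A hM i hc
      have e3 := bar_j5 r θ δ h (cW c) m k j hS A
      have e4 := mul_le_mul_of_nonneg_left e1 hk0
      nlinarith
    set g : X → ℝ := fun i => if good c m i ∧ cold c m k j A i then 1 else 0 with hg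
    have hg0 : ∀ i, 0 ≤ g i := fun i => by rw [hg]; dsimp only; split_ifs <;> norm_num
    have hg1 : ∀ i, g i ≤ 1 := fun i => by rw [hg]; dsimp only; split_ifs <;> norm_num
    have hgP : ∀ i, g i * (bar k A * QA r m A i) ≤ 160 * L0 * bar m A := by
      intro i
      rw [hg]
      dsimp only
      split_ifs with hi
      · rw [one_mul]
        exact le_trans (mul_le_mul_of_nonneg_left (QA_le r m hS.m0 A i) hk0) (hcold i hi.1 hi.2)
      · rw [zero_mul]
        positivity
    -- step 2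
    have s2 : ∀ i, bar k A * zg c m k j R A i ^ 2 * QA r m A i ≤
        2 * (vh c m A i ^ 2 * (g i * (bar k A * QA r m A i)))
          + 320 * L0 * (bar m A * ap R (vh c m A) i ^ 2) := by
      intro i
      have e1 : zg c m k j R A i = g i * (vh c m A i - ap R (vh c m A) i) := by
        rw [zg_eq c m k j R hR A hM i, hg]
        dsimp only
        split_ifs
        · ring
        · ring
      have e2 : g i * g i = g i := by
        rw [hg]
        dsimp only
        split_ifs <;> norm_num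
      have e3 : bar k A * zg c m k j R A i ^ 2 * QA r m A i =
          (g i * (bar k A * QA r m A i)) * (vh c m A i - ap R (vh c m A) i) ^ 2 := by
        rw [e1, mul_pow, pow_two (g i), e2]
        ring
      have e4 : (vh c m A i - ap R (vh c m A) i) ^ 2 ≤
          2 * vh c m A i ^ 2 + 2 * ap R (vh c m A) i ^ 2 := by
        nlinarith [sq_nonneg (vh c m A i + ap R (vh c m A) i)]
      have e5 : 0 ≤ g i * (bar k A * QA r m A i) := mul_nonneg (hg0 i) (mul_nonneg hk0 (hQ0 i))
      rw [e3]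
      have e6 := mul_le_mul_of_nonneg_left e4 e5
      have e7 := mul_le_mul_of_nonneg_right (hgP i) (sq_nonneg (ap R (vh c m A) i))
      nlinarith
    -- step 3
    set f : X → ℝ := fun i => g i * (bar k A * QA r m A i) / bar m A with hf
    have hf0 : ∀ i, 0 ≤ f i := fun i => div_nonneg (mul_nonneg (hg0 i) (mul_nonneg hk0 (hQ0 i))) hM.le
    have hf1 : ∀ i, f i ≤ 160 * L0 := fun i => by
      rw [hf]
      dsimp only
      rw [div_le_iff₀ hM]
      exact hgP i
    have s3 := hell_v1 r θ δ h c m k j hS A f (160 * L0) hf0 hf1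
    have s3' : ∑ i, vh c m A i ^ 2 * (g i * (bar k A * QA r m A i)) =
        bar m A * ∑ i, vh c m A i ^ 2 * f i := by
      rw [Finset.mul_sum]
      refine Finset.sum_congr rfl fun i _ => ?_
      rw [hf]
      dsimp only
      field_simp
    -- step 4
    set H : X → Prop := fun i => Mt * (k (A, i) * bar m A) ≤ bar k A * m (A, i) with hH
    have s4 := jgap m k hS.m0 hS.k0 hS.kp hkz A (1 / Mt) (by positivity) H (by
      intro i hi
      rw [hH] at hi
      have e1 := mul_le_mul_of_nonneg_left hi (by positivity : (0 : ℝ) ≤ 1 / Mt)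
      have e2 : 1 / Mt * (Mt * (k (A, i) * bar m A)) = k (A, i) * bar m A := by
        field_simp
      rw [e2] at e1
      exact e1)
    rw [log_Mt] at s4
    have s5 : ∀ i, m (A, i) * f i ≤
        Mt * (k (A, i) * QA r m A i) + 160 * L0 * (if H i then m (A, i) else 0) := by
      intro i
      by_cases hi : H i
      · rw [if_pos hi]
        have e1 := mul_le_mul_of_nonneg_left (hf1 i) (hS.m0 (A, i))
        have e2 : 0 ≤ Mt * (k (A, i) * QA r m A i) :=
          mul_nonneg hMt.le (mul_nonneg (hS.k0 _) (hQ0 i))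
        linarith
      · rw [if_neg hi, mul_zero, add_zero]
        rw [hH] at hi
        push Not at hi
        have e1 : m (A, i) * f i ≤ bar k A * m (A, i) * QA r m A i / bar m A := by
          rw [hf]
          dsimp only
          have e2 : m (A, i) * (g i * (bar k A * QA r m A i) / bar m A) =
              g i * (bar k A * m (A, i) * QA r m A i / bar m A) := by
            field_simp
          rw [e2]
          have e3 : 0 ≤ bar k A * m (A, i) * QA r m A i / bar m A :=
            div_nonneg (mul_nonneg (mul_nonneg hk0 (hS.m0 _)) (hQ0 i)) hM.le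
          exact (mul_le_mul_of_nonneg_right (hg1 i) e3).trans (le_of_eq (one_mul _))
        refine e1.trans ?_
        rw [div_le_iff₀ hM]
        have e4 := mul_le_mul_of_nonneg_right hi.le (hQ0 i)
        linarith
    have s6 : ∑ i, m (A, i) * f i ≤
        Mt * (∑ i, k (A, i) * QA r m A i) + 160 * L0 * (∑ i, if H i then m (A, i) else 0) := by
      rw [Finset.mul_sum, Finset.mul_sum, ← Finset.sum_add_distrib]
      exact Finset.sum_le_sum fun i _ => s5 i
    have s7 : ∑ i, bar k A * zg c m k j R A i ^ 2 * QA r m A i ≤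
        2 * (∑ i, vh c m A i ^ 2 * (g i * (bar k A * QA r m A i)))
          + 320 * L0 * (bar m A * n2 (ap R (vh c m A))) := by
      have e1 : 2 * (∑ i, vh c m A i ^ 2 * (g i * (bar k A * QA r m A i)))
          + 320 * L0 * (bar m A * n2 (ap R (vh c m A))) =
          ∑ i, (2 * (vh c m A i ^ 2 * (g i * (bar k A * QA r m A i)))
          + 320 * L0 * (bar m A * ap R (vh c m A) i ^ 2)) := by
        rw [Finset.sum_add_distrib, ← Finset.mul_sum, ← Finset.mul_sum, ← Finset.mul_sum]
        rfl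
      rw [e1]
      exact Finset.sum_le_sum fun i _ => s2 i
    rw [s3'] at s7
    have s8 : 160 * L0 * (∑ i, if H i then m (A, i) else 0) ≤ 160 / 100000 * Jt m k A := by
      nlinarith
    nlinarith

theorem Eb_le (hθ : 0 < θ) (hS : St θ δ h (rX r) (cW c) m k j) (hR : IsClean (vg c m) R) :
    Eb r (bar m) (bar k) (vh c m) (zg c m k j R) ≤
      640 * L0 * ms (bar m) (fun A => ap R (vh c m A)) + 1320 * L0 * ∑ A, KLt (cW c) m A
        + 8 * Mt * Oc r m k + 1 / 78 * ∑ A, Jt m k A := by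
  have hL := L0_pos
  have hcW : ∀ p, 0 ≤ cW c p := fun p => sq_nonneg _
  have hkz : ∀ p, m p = 0 → k p = 0 := fun p hp => (kz r θ δ h hθ (cW c) m k j hS p hp).1
  have hJ : 0 ≤ ∑ A, Jt m k A := Finset.sum_nonneg fun A _ => Jt_nonneg m k hS.m0 hS.k0 hS.kp hkz A
  have hk0 : ∀ A, 0 ≤ bar k A := fun A => Finset.sum_nonneg fun _ _ => hS.k0 _
  -- step 1
  have hphi0 : ∀ C i, 0 ≤ ∑ A, (if r A C then 0 else bar k A * zg c m k j R A i ^ 2) := by
    intro C i
    refine Finset.sum_nonneg fun A _ => ?_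
    split_ifs
    · exact le_rfl
    · exact mul_nonneg (hk0 A) (sq_nonneg _)
  have hphi1 : ∀ C i, ∑ A, (if r A C then 0 else bar k A * zg c m k j R A i ^ 2) ≤ 20 * L0 := by
    intro C i
    refine le_trans ?_ (N_diag r θ δ h c m k j R hθ hS hR i)
    unfold Gw
    refine Finset.sum_le_sum fun A _ => ?_
    rw [← pow_two]
    split_ifs
    · exact mul_nonneg (hk0 A) (sq_nonneg _)
    · exact le_rfl
  have h1 : Eb r (bar m) (bar k) (vh c m) (zg c m k j R) ≤
      2 * (∑ C, ∑ i, m (C, i) * (∑ A, if r A C then 0 else bar k A * zg c m k j R A i ^ 2))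
        + 40 * L0 * ∑ C, KLt (cW c) m C := by
    rw [Eb_eq, Finset.mul_sum, Finset.mul_sum, ← Finset.sum_add_distrib]
    refine Finset.sum_le_sum fun C _ => ?_
    refine (hell_v1 r θ δ h c m k j hS C _ (20 * L0) (hphi0 C) (hphi1 C)).trans (le_of_eq ?_)
    ring
  rw [S1_eq] at h1
  have h2 : ∑ A, ∑ i, bar k A * zg c m k j R A i ^ 2 * QA r m A i ≤
      4 * Mt * Oc r m k + 4 * (160 / 100000) * ∑ A, Jt m k A
        + 640 * L0 * ∑ A, KLt (cW c) m A + 320 * L0 * ms (bar m) (fun A => ap R (vh c m A)) := by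
    have e1 : 4 * Mt * Oc r m k + 4 * (160 / 100000) * ∑ A, Jt m k A
        + 640 * L0 * ∑ A, KLt (cW c) m A + 320 * L0 * ms (bar m) (fun A => ap R (vh c m A)) =
        ∑ A, (4 * Mt * (∑ i, k (A, i) * QA r m A i) + 4 * (160 / 100000) * Jt m k A
        + 640 * L0 * KLt (cW c) m A + 320 * L0 * (bar m A * n2 (ap R (vh c m A)))) := by
      rw [Oc_eq]
      simp only [Finset.sum_add_distrib, ← Finset.mul_sum]
      rfl
    rw [e1]
    exact Finset.sum_le_sum fun A _ => one_A r θ δ h c m k j R hθ hS hR A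
  nlinarith

end BMV
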