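import Pool.Agent.BMV.GeoY
import Pool.Agent.BMV.GeoE
import Pool.Agent.BMP.Spec

/-!
# BMV/Geo: the block data of a maximiser

PROOF.  `R` from `BMP.exists_clean (vg c m)`; collect `BarF`, `GeoDef`, `GeoR`, `GeoN`, `GeoY`, `GeoE`.
`v0`: `vh = 0` if `bar m A = 0`.  `vzy`: definition of `yg`.  `Ri` is `IsClean.idem`.
`GP`: good: `Gd i ≤ Phg i`; bad: `zg A i = 0` for all `A` (`zg_eq`, `zg_zero`) and `R i l = 0` (`R_bad`).
-/

namespace BMV

open Finset BMP

variable {α X : Type} [Fintype α] [Fintype X] [DecidableEq X]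
variable (r : α → α → Prop) [DecidableRel r] (θ δ h : ℝ) (c : α → X → ℝ) (m k j : α × X → ℝ)

theorem geo (hr : ∀ A C, r A C → r C A) (hθ : 0 < θ) (hS : St θ δ h (rX r) (cW c) m k j) :
    ∃ (z y : α → X → ℝ) (R : Matrix X X ℝ) (Ph : X → ℝ),
      BDat r θ (bar m) (bar k) (bar j) (vh c m) z y R Ph ∧
      ms (bar m) y ≤ 5 * ∑ A, KLt (cW c) m A + 1 / 99 * ∑ A, Jt m k A
        + ms (bar m) (fun A => ap R (vh c m A)) ∧
      Eb r (bar m) (bar k) (vh c m) z ≤
        640 * L0 * ms (bar m) (fun A => ap R (vh c m A)) + 1320 * L0 * ∑ A, KLt (cW c) m A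
        + 8 * Mt * Oc r m k + 1 / 78 * ∑ A, Jt m k A := by
  obtain ⟨R, hR⟩ := BMP.exists_clean (vg c m)
  refine ⟨zg c m k j R, yg c m k j R, R, Phg c m, ?_, Y_le r θ δ h c m k j R hθ hS hR,
    Eb_le r θ δ h c m k j R hθ hS hR⟩
  refine
    { θ0 := hθ
      rs := hr
      m0 := bar_m0 m hS.m0
      k0 := fun A => Finset.sum_nonneg fun _ _ => hS.k0 _
      kp := bar_kp r θ δ h (cW c) m k j hS
      mj := bar_mj r θ δ h (cW c) m k j hS
      j5 := bar_j5 r θ δ h (cW c) m k j hS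
      kU := bar_kU r θ δ h hθ (cW c) m k j hS
      nv := fun A hA => vh_n2 r θ δ h c m k j hS A hA
      v0 := fun A hA => ?_
      z0 := fun A hA => zg_zero c m k j R A hA
      vzy := fun A i => ?_
      orth := fun A => orth_g c m k j R hS.m0 hR A
      qN := fun x => N_qd r θ δ h c m k j R hθ hS hR x
      Ph0 := fun i => Ph_pos c m i
      GP := fun i => ?_
      zG := fun i => zG_g c m k j R hS.m0 hR i
      cold := fun A i hi => cold_g r θ δ h c m k j R hθ hS hR A i hi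
      Rs := ?_
      Ri := ?_
      RML := RML_g c m R hS.m0 hR }
  · funext i
    unfold vh
    rw [if_neg (by rw [hA]; exact lt_irrefl 0)]
    rfl
  · unfold yg
    ring
  · by_cases hg : good c m i
    · exact Or.inl (Ph_ge c m hS.m0 i hg)
    · refine Or.inr ⟨fun A => ?_, fun l => (R_bad c m R hR i hg l).1⟩
      rcases (bar_m0 m hS.m0 A).eq_or_lt with h0 | h0
      · rw [zg_zero c m k j R A h0.symm]
        rfl
      · rw [zg_eq c m k j R hR A h0 i, if_neg]
        exact fun h1 => hg h1.1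
  · exact hR.symm
  · exact hR.idem

end BMV
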