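import Pool.Agent.BMV.Basic

/-!
# BMV/Hell: Hellinger inequality

PROOF.  Fix `A`, let `m_i = m(A,i)`, `M = bar m A`, `w_i = M * W(A,i)/bar W A` (so `∑ w_i = M` if `M > 0`, since
then `bar W A > 0`).  If `M = 0` all terms vanish.  Claim `KLt ≥ ∑ (√m_i - √w_i)²`.  Indeed the term of `KLt` is
`m_i (log (m_i/W_i) - log (M/bar W)) = m_i log (m_i/w_i)` for `m_i > 0` (then `W_i > 0`), and
`m_i log(m_i/w_i) = - 2 m_i log √(w_i/m_i) ≥ - 2 m_i (√(w_i/m_i) - 1) = 2 m_i - 2 √(m_i w_i)` (also for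
`m_i = 0`); the sum is `2 M - 2 ∑ √(m_i w_i) = ∑ (√m_i - √w_i)²`.
Now `w_i ≤ 2 m_i + 2 (√w_i - √m_i)²` and `m_i ≤ 2 w_i + 2 (√m_i - √w_i)²`; multiply by `0 ≤ φ_i ≤ Φ`.
-/

namespace BMV

open Finset BMP

variable {α X : Type} [Fintype α] [Fintype X] [DecidableEq X]

/-- scalar inequality -/
theorem hell_scal {m w : ℝ} (hm : 0 < m) (hw : 0 < w) :
    m + w - 2 * (√m * √w) ≤ m * Real.log (m / w) + (w - m) := by
  have h1 : Real.log (√(w / m)) ≤ √(w / m) - 1 :=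
    Real.log_le_sub_one_of_pos (Real.sqrt_pos.2 (div_pos hw hm))
  have h2 : Real.log (√(w / m)) = Real.log (w / m) / 2 := Real.log_sqrt (div_pos hw hm).le
  have h3 : Real.log (m / w) = -Real.log (w / m) := by
    rw [← Real.log_inv, inv_div]
  have h4 : m * √(w / m) = √m * √w := by
    rw [Real.sqrt_div hw.le]
    have h5 := Real.mul_self_sqrt hm.le
    have h6 : √m ≠ 0 := (Real.sqrt_pos.2 hm).ne'
    field_simp
    nlinarith
  have h7 : m * (2 - 2 * √(w / m)) ≤ m * Real.log (m / w) :=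
    mul_le_mul_of_nonneg_left (by rw [h3]; linarith) hm.le
  have h8 : m * (2 - 2 * √(w / m)) = 2 * m - 2 * (√m * √w) := by
    rw [← h4]
    ring
  linarith

/-- Hellinger -/
theorem hell_kl (W m : α × X → ℝ) (hW : ∀ p, 0 ≤ W p) (hm : ∀ p, 0 ≤ m p)
    (hWp : ∀ p, 0 < m p → 0 < W p) (A : α) :
    ∑ i, (√(m (A, i)) - √(bar m A * (W (A, i) / bar W A))) ^ 2 ≤ KLt W m A := by
  have hM0 : 0 ≤ bar m A := Finset.sum_nonneg fun i _ => hm (A, i)
  rcases hM0.eq_or_lt with hM | hM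
  · have hz : ∀ i, m (A, i) = 0 := fun i =>
      (Finset.sum_eq_zero_iff_of_nonneg (fun i _ => hm (A, i))).1 hM.symm i (Finset.mem_univ i)
    unfold KLt
    rw [← hM]
    refine Finset.sum_le_sum fun i _ => ?_
    rw [hz i]
    simp
  · obtain ⟨i0, -, hi0⟩ : ∃ i ∈ Finset.univ, 0 < m (A, i) := by
      by_contra hc
      push Not at hc
      have : bar m A ≤ 0 := Finset.sum_nonpos fun i hi => hc i hi
      linarith
    have hWb : 0 < bar W A := lt_of_lt_of_le (hWp _ hi0)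
      (Finset.single_le_sum (f := fun i => W (A, i)) (fun i _ => hW (A, i)) (Finset.mem_univ i0))
    have hw0 : ∀ i, 0 ≤ bar m A * (W (A, i) / bar W A) := fun i =>
      mul_nonneg hM.le (div_nonneg (hW _) hWb.le)
    have hws : ∑ i, bar m A * (W (A, i) / bar W A) = ∑ i, m (A, i) := by
      rw [← Finset.mul_sum, ← Finset.sum_div]
      have : (∑ i, W (A, i)) = bar W A := rfl
      rw [this, div_self hWb.ne', mul_one]
      rfl
    have hterm : ∀ i, (√(m (A, i)) - √(bar m A * (W (A, i) / bar W A))) ^ 2 ≤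
        m (A, i) * (Real.log (m (A, i) / W (A, i)) - Real.log (bar m A / bar W A)) +
          (bar m A * (W (A, i) / bar W A) - m (A, i)) := by
      intro i
      have e1 : (√(m (A, i)) - √(bar m A * (W (A, i) / bar W A))) ^ 2 =
          m (A, i) + bar m A * (W (A, i) / bar W A) -
            2 * (√(m (A, i)) * √(bar m A * (W (A, i) / bar W A))) := by
        have e2 := Real.sq_sqrt (hm (A, i))
        have e3 := Real.sq_sqrt (hw0 i)
        nlinarith
      rw [e1]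
      rcases (hm (A, i)).eq_or_lt with h0 | h0
      · rw [← h0]
        simp
      · have hWi := hWp _ h0
        have hwi : 0 < bar m A * (W (A, i) / bar W A) := mul_pos hM (div_pos hWi hWb)
        have e4 := hell_scal h0 hwi
        have e5 : Real.log (m (A, i) / (bar m A * (W (A, i) / bar W A))) =
            Real.log (m (A, i) / W (A, i)) - Real.log (bar m A / bar W A) := by
          rw [Real.log_div h0.ne' hwi.ne', Real.log_mul hM.ne' (div_pos hWi hWb).ne',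
            Real.log_div hWi.ne' hWb.ne', Real.log_div h0.ne' hWi.ne',
            Real.log_div hM.ne' hWb.ne']
          ring
        rw [← e5]
        exact e4
    refine (Finset.sum_le_sum fun i _ => hterm i).trans (le_of_eq ?_)
    rw [Finset.sum_add_distrib, Finset.sum_sub_distrib, hws, sub_self, add_zero]
    rfl

theorem KLt_nonneg (W m : α × X → ℝ) (hW : ∀ p, 0 ≤ W p) (hm : ∀ p, 0 ≤ m p)
    (hWp : ∀ p, 0 < m p → 0 < W p) (A : α) : 0 ≤ KLt W m A :=
  (Finset.sum_nonneg fun _ _ => sq_nonneg _).trans (hell_kl W m hW hm hWp A)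

theorem hell_two {a b c f F : ℝ} (ha : 0 ≤ a) (hb : 0 ≤ b) (h : c = (√a - √b) ^ 2) (hf : 0 ≤ f)
    (hF : f ≤ F) : b * f ≤ 2 * (a * f) + 2 * (F * c) := by
  have e1 : b ≤ 2 * a + 2 * c := by
    have e2 := Real.sq_sqrt ha
    have e3 := Real.sq_sqrt hb
    rw [h]
    nlinarith [sq_nonneg (2 * √a - √b)]
  have hc : 0 ≤ c := by rw [h]; positivity
  have e4 : b * f ≤ (2 * a + 2 * c) * f := mul_le_mul_of_nonneg_right e1 hf
  have e5 : c * f ≤ c * F := mul_le_mul_of_nonneg_left hF hc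
  nlinarith

theorem hell1 (W m : α × X → ℝ) (hW : ∀ p, 0 ≤ W p) (hm : ∀ p, 0 ≤ m p)
    (hWp : ∀ p, 0 < m p → 0 < W p) (A : α) (φ : X → ℝ) (Φ : ℝ) (h0 : ∀ i, 0 ≤ φ i) (h1 : ∀ i, φ i ≤ Φ) :
    bar m A * ∑ i, W (A, i) / bar W A * φ i ≤ 2 * ∑ i, m (A, i) * φ i + 2 * Φ * KLt W m A := by
  rcases isEmpty_or_nonempty X with hX | ⟨⟨i0⟩⟩
  · simp [KLt]
  have hΦ : 0 ≤ Φ := (h0 i0).trans (h1 i0)
  have hM0 : 0 ≤ bar m A := Finset.sum_nonneg fun i _ => hm (A, i)
  have hWb : 0 ≤ bar W A := Finset.sum_nonneg fun i _ => hW (A, i)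
  have e1 := mul_le_mul_of_nonneg_left (hell_kl W m hW hm hWp A) hΦ
  have e2 : ∑ i, bar m A * (W (A, i) / bar W A) * φ i ≤
      ∑ i, (2 * (m (A, i) * φ i) +
        2 * (Φ * (√(m (A, i)) - √(bar m A * (W (A, i) / bar W A))) ^ 2)) :=
    Finset.sum_le_sum fun i _ => hell_two (hm _) (mul_nonneg hM0 (div_nonneg (hW _) hWb)) rfl
      (h0 i) (h1 i)
  rw [Finset.sum_add_distrib, ← Finset.mul_sum, ← Finset.mul_sum, ← Finset.mul_sum] at e2
  have e3 : bar m A * ∑ i, W (A, i) / bar W A * φ i =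
      ∑ i, bar m A * (W (A, i) / bar W A) * φ i := by
    rw [Finset.mul_sum]
    exact Finset.sum_congr rfl fun i _ => by ring
  rw [e3]
  linarith

theorem hell2 (W m : α × X → ℝ) (hW : ∀ p, 0 ≤ W p) (hm : ∀ p, 0 ≤ m p)
    (hWp : ∀ p, 0 < m p → 0 < W p) (A : α) (φ : X → ℝ) (Φ : ℝ) (h0 : ∀ i, 0 ≤ φ i) (h1 : ∀ i, φ i ≤ Φ) :
    ∑ i, m (A, i) * φ i ≤ 2 * (bar m A * ∑ i, W (A, i) / bar W A * φ i) + 2 * Φ * KLt W m A := by
  rcases isEmpty_or_nonempty X with hX | ⟨⟨i0⟩⟩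
  · simp [KLt]
  have hΦ : 0 ≤ Φ := (h0 i0).trans (h1 i0)
  have hM0 : 0 ≤ bar m A := Finset.sum_nonneg fun i _ => hm (A, i)
  have hWb : 0 ≤ bar W A := Finset.sum_nonneg fun i _ => hW (A, i)
  have e1 := mul_le_mul_of_nonneg_left (hell_kl W m hW hm hWp A) hΦ
  have e2 : ∑ i, m (A, i) * φ i ≤
      ∑ i, (2 * (bar m A * (W (A, i) / bar W A) * φ i) +
        2 * (Φ * (√(m (A, i)) - √(bar m A * (W (A, i) / bar W A))) ^ 2)) :=
    Finset.sum_le_sum fun i _ => hell_two (mul_nonneg hM0 (div_nonneg (hW _) hWb)) (hm _)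
      (by ring) (h0 i) (h1 i)
  rw [Finset.sum_add_distrib, ← Finset.mul_sum, ← Finset.mul_sum, ← Finset.mul_sum] at e2
  have e3 : bar m A * ∑ i, W (A, i) / bar W A * φ i =
      ∑ i, bar m A * (W (A, i) / bar W A) * φ i := by
    rw [Finset.mul_sum]
    exact Finset.sum_congr rfl fun i _ => by ring
  rw [e3]
  linarith

end BMV
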