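import Pool.Agent.BMV.GeoDef
import Pool.Agent.BMV.Hell

/-!
# BMV/GeoBad: mass of the bad coordinates

PROOF.  Let `KL = ∑_A KLt`, for a set `H` of coordinates `Γ(H) = ∑_A bar m A ∑_{i ∈ H} vh A i ^ 2 = ∑_{i ∈ H} Gd i` and
`P(H) = ∑_{i ∈ H} Pm i`.  `hell1`, `hell2` with `φ` = indicator of `H`, `Φ = 1`, summed over `A`
(`cW (A,i)/bar cW A = vh A i ^ 2` if `bar m A > 0`, `vh_sq`; the left side is `0` if `bar m A = 0`):
`Γ(H) ≤ 2 P(H) + 2 KL`, `P(H) ≤ 2 Γ(H) + 2 KL`.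
`H1 = {8 Pm i < Gd i}`: `P(H1) ≤ Γ(H1)/8`, so `Γ(H1) ≤ (8/3) KL`.
`H2 = {8 Gd i < Pm i}`: `Γ(H2) ≤ P(H2)/8`, `P(H2) ≤ (8/3) KL`, `Γ(H2) ≤ KL/3`.
The bad set is contained in `H1 ∪ H2`; `Γ(bad) ≤ 3 KL`.
-/

namespace BMV

open Finset BMP

variable {α X : Type} [Fintype α] [Fintype X] [DecidableEq X]
variable (r : α → α → Prop) [DecidableRel r] (θ δ h : ℝ) (c : α → X → ℝ) (m k j : α × X → ℝ)

/-- `hell1` in terms of the unit vectors -/
theorem hell_v1 (hS : St θ δ h (rX r) (cW c) m k j) (A : α) (φ : X → ℝ) (Φ : ℝ)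
    (h0 : ∀ i, 0 ≤ φ i) (h1 : ∀ i, φ i ≤ Φ) :
    bar m A * ∑ i, vh c m A i ^ 2 * φ i ≤ 2 * ∑ i, m (A, i) * φ i + 2 * Φ * KLt (cW c) m A := by
  have hh := hell1 (cW c) m (fun p => sq_nonneg _) hS.m0 hS.Wp A φ Φ h0 h1
  rcases (bar_m0 m hS.m0 A).eq_or_lt with hA | hA
  · rw [← hA, zero_mul] at hh ⊢
    exact hh
  · simp_rw [vh_sq r θ δ h c m k j hS A hA] at hh
    exact hh

theorem hell_v2 (hS : St θ δ h (rX r) (cW c) m k j) (A : α) (φ : X → ℝ) (Φ : ℝ)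
    (h0 : ∀ i, 0 ≤ φ i) (h1 : ∀ i, φ i ≤ Φ) :
    ∑ i, m (A, i) * φ i ≤ 2 * (bar m A * ∑ i, vh c m A i ^ 2 * φ i) + 2 * Φ * KLt (cW c) m A := by
  have hh := hell2 (cW c) m (fun p => sq_nonneg _) hS.m0 hS.Wp A φ Φ h0 h1
  rcases (bar_m0 m hS.m0 A).eq_or_lt with hA | hA
  · rw [← hA, zero_mul] at hh ⊢
    exact hh
  · simp_rw [vh_sq r θ δ h c m k j hS A hA] at hh
    exact hh

private theorem bad_G (φ : X → ℝ) :
    ∑ A, bar m A * ∑ i, vh c m A i ^ 2 * φ i = ∑ i, φ i * Gd c m i := by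
  unfold Gd Gw
  simp_rw [mul_sum]
  rw [sum_comm]
  exact sum_congr rfl fun i _ => sum_congr rfl fun A _ => by ring

private theorem bad_P (φ : X → ℝ) :
    ∑ A, ∑ i, m (A, i) * φ i = ∑ i, φ i * Pm m i := by
  unfold Pm
  simp_rw [mul_sum]
  rw [sum_comm]
  exact sum_congr rfl fun i _ => sum_congr rfl fun A _ => by ring

theorem bad_mass (hS : St θ δ h (rX r) (cW c) m k j) :
    ∑ A, bar m A * ∑ i, (if good c m i then 0 else vh c m A i ^ 2) ≤ 3 * ∑ A, KLt (cW c) m A := by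
  classical
  set KL := ∑ A, KLt (cW c) m A with hKL
  have hG0 : ∀ i, 0 ≤ Gd c m i := Gd_nonneg c m hS.m0
  -- the two general inequalities
  have g1 : ∀ φ : X → ℝ, (∀ i, 0 ≤ φ i) → (∀ i, φ i ≤ 1) →
      ∑ i, φ i * Gd c m i ≤ 2 * ∑ i, φ i * Pm m i + 2 * KL := by
    intro φ h0 h1
    have h2 := sum_le_sum fun A (_ : A ∈ (univ : Finset α)) => hell_v1 r θ δ h c m k j hS A φ 1 h0 h1
    rw [bad_G, sum_add_distrib, ← mul_sum, bad_P, ← mul_sum] at h2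
    linarith
  have g2 : ∀ φ : X → ℝ, (∀ i, 0 ≤ φ i) → (∀ i, φ i ≤ 1) →
      ∑ i, φ i * Pm m i ≤ 2 * ∑ i, φ i * Gd c m i + 2 * KL := by
    intro φ h0 h1
    have h2 := sum_le_sum fun A (_ : A ∈ (univ : Finset α)) => hell_v2 r θ δ h c m k j hS A φ 1 h0 h1
    rw [bad_P, sum_add_distrib, ← mul_sum, bad_G, ← mul_sum] at h2
    linarith
  have hI : ∀ (q : X → Prop) [DecidablePred q], (∀ i, 0 ≤ (if q i then (1 : ℝ) else 0)) ∧
      (∀ i, (if q i then (1 : ℝ) else 0) ≤ 1) := fun q _ =>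
    ⟨fun i => by split_ifs <;> norm_num, fun i => by split_ifs <;> norm_num⟩
  set φ1 : X → ℝ := fun i => if 8 * Pm m i < Gd c m i then 1 else 0 with hφ1
  set φ2 : X → ℝ := fun i => if 8 * Gd c m i < Pm m i then 1 else 0 with hφ2
  have a1 := g1 φ1 (hI _).1 (hI _).2
  have a2 := g2 φ2 (hI _).1 (hI _).2
  have b1 : ∑ i, φ1 i * Pm m i ≤ 1 / 8 * ∑ i, φ1 i * Gd c m i := by
    rw [mul_sum]
    refine sum_le_sum fun i _ => ?_
    simp only [hφ1]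
    split_ifs with hi
    · linarith
    · simp
  have b2 : ∑ i, φ2 i * Gd c m i ≤ 1 / 8 * ∑ i, φ2 i * Pm m i := by
    rw [mul_sum]
    refine sum_le_sum fun i _ => ?_
    simp only [hφ2]
    split_ifs with hi
    · linarith
    · simp
  have e : ∑ A, bar m A * ∑ i, (if good c m i then 0 else vh c m A i ^ 2) =
      ∑ i, (if good c m i then 0 else 1) * Gd c m i := by
    rw [← bad_G]
    refine sum_congr rfl fun A _ => ?_
    congr 1
    refine sum_congr rfl fun i _ => ?_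
    split_ifs <;> simp
  have f : ∑ i, (if good c m i then 0 else 1) * Gd c m i ≤
      ∑ i, φ1 i * Gd c m i + ∑ i, φ2 i * Gd c m i := by
    rw [← sum_add_distrib]
    refine sum_le_sum fun i _ => ?_
    have hg := hG0 i
    simp only [hφ1, hφ2]
    split_ifs with c1 c2 c3 c3 c2 c3 c3
    all_goals first | linarith | skip
    exfalso
    apply c1
    unfold good
    constructor <;> linarith
  rw [e]
  linarith

end BMV
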