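import Pool.Agent.BMV.BarF
import Pool.Agent.BMP.OB2

/-!
# BMV/GeoDef: the geometry of a block, definitions and first facts

`c A i` is the coefficient, `m, k, j` the state on `α × X`, `W (A,i) = c A i ^ 2`.
PROOF.
`bar W A = n2 (c A)` (unfold).  `vh_n2`: `n2 (c A) > 0` when `bar m A > 0` (`bar_Wp`); `(c/√n2)² sums to 1`.
`vh_sq`: `W (A,i)/bar W A = vh A i ^ 2` if `bar m A > 0`.  `c_eq`: `c A i = √(bar W A) vh A i`.
`PB_vg`: `PB (vg) i = ∑_A (if good then √(bar m A) vh A i else 0)² = if good then Gd i else 0` (`bar m ≥ 0`).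
`Ph_pos`: power of `4`.  `Ph_ge`: `BMP.PB_le`.  `Ph_lt`: `BMP.PB_gt`: `4^(-mL-1) < PB`, so `Ph < 4 Gd` if `Gd i > 0`.
`Pm_le`: `Pm i ≤ 8 Gd i ≤ 8 Ph i`.
-/

namespace BMV

open Finset BMP

variable {α X : Type} [Fintype α] [Fintype X] [DecidableEq X]

/-- the weights `c²` on `α × X` -/
def cW (c : α → X → ℝ) (p : α × X) : ℝ := c p.1 p.2 ^ 2

/-- mass of the variable `i` -/
def Pm (m : α × X → ℝ) (i : X) : ℝ := ∑ A, m (A, i)

/-- unit vectors of the block -/
noncomputable def vh (c : α → X → ℝ) (m : α × X → ℝ) (A : α) : X → ℝ :=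
  fun i => if 0 < bar m A then c A i / Real.sqrt (n2 (c A)) else 0

/-- diagonal of the Gram matrix -/
noncomputable def Gd (c : α → X → ℝ) (m : α × X → ℝ) (i : X) : ℝ := Gw (bar m) (vh c m) i i

/-- the diagonal agrees with the mass of the variable -/
def good (c : α → X → ℝ) (m : α × X → ℝ) (i : X) : Prop :=
  Gd c m i ≤ 8 * Pm m i ∧ Pm m i ≤ 8 * Gd c m i

noncomputable instance (c : α → X → ℝ) (m : α × X → ℝ) : DecidablePred (good c m) := fun i => by
  unfold good; infer_instance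

/-- weighted vectors on the good coordinates -/
noncomputable def vg (c : α → X → ℝ) (m : α × X → ℝ) (A : α) : X → ℝ :=
  fun i => if good c m i then Real.sqrt (bar m A) * vh c m A i else 0

/-- the weights for the truncation -/
noncomputable def kap (m k j : α × X → ℝ) (A : α) : ℝ :=
  if bar m A = 0 then 1 else bar k A / (L0 * bar j A)

/-- cold coordinates -/
def cold (c : α → X → ℝ) (m k j : α × X → ℝ) (A : α) (i : X) : Prop :=
  nL (kap m k j A) ≤ mL (vg c m) i + 1

noncomputable instance (c : α → X → ℝ) (m k j : α × X → ℝ) (A : α) : DecidablePred (cold c m k j A) :=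
  fun i => by unfold cold; infer_instance

noncomputable def zg (c : α → X → ℝ) (m k j : α × X → ℝ) (R : Matrix X X ℝ) (A : α) : X → ℝ :=
  fun i => zC (vg c m) (kap m k j) R A i / Real.sqrt (bar m A)

noncomputable def yg (c : α → X → ℝ) (m k j : α × X → ℝ) (R : Matrix X X ℝ) (A : α) : X → ℝ :=
  fun i => vh c m A i - zg c m k j R A i

noncomputable def Phg (c : α → X → ℝ) (m : α × X → ℝ) (i : X) : ℝ := (4 : ℝ) ^ (- mL (vg c m) i)

variable (r : α → α → Prop) [DecidableRel r] (θ δ h : ℝ) (c : α → X → ℝ) (m k j : α × X → ℝ)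

theorem bar_cW (A : α) : bar (cW c) A = n2 (c A) := by
  rfl

theorem vh_n2 (hS : St θ δ h (rX r) (cW c) m k j) (A : α) (hA : 0 < bar m A) : n2 (vh c m A) = 1 := by
  have h1 := bar_Wp r θ δ h (cW c) m k j (fun p => sq_nonneg _) hS A hA
  rw [bar_cW] at h1
  unfold n2 vh
  simp only [if_pos hA, div_pow, Real.sq_sqrt h1.le]
  rw [← Finset.sum_div]
  exact div_self h1.ne'

theorem vh_sq (hS : St θ δ h (rX r) (cW c) m k j) (A : α) (hA : 0 < bar m A) (i : X) :
    cW c (A, i) / bar (cW c) A = vh c m A i ^ 2 := by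
  have h1 := bar_Wp r θ δ h (cW c) m k j (fun p => sq_nonneg _) hS A hA
  rw [bar_cW] at h1
  unfold vh
  rw [if_pos hA, div_pow, Real.sq_sqrt h1.le, bar_cW]
  rfl

theorem c_eq (hS : St θ δ h (rX r) (cW c) m k j) (A : α) (hA : 0 < bar m A) (i : X) :
    c A i = Real.sqrt (bar (cW c) A) * vh c m A i := by
  have h1 := bar_Wp r θ δ h (cW c) m k j (fun p => sq_nonneg _) hS A hA
  rw [bar_cW] at h1 ⊢
  have h2 : Real.sqrt (n2 (c A)) ≠ 0 := (Real.sqrt_pos.2 h1).ne'
  unfold vh
  rw [if_pos hA, mul_comm, div_mul_cancel₀ _ h2]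

theorem PB_vg (hm : ∀ p, 0 ≤ m p) (i : X) : PB (vg c m) i = if good c m i then Gd c m i else 0 := by
  unfold PB vg
  by_cases hg : good c m i
  · simp only [if_pos hg]
    unfold Gd Gw
    refine Finset.sum_congr rfl fun A _ => ?_
    rw [mul_pow, Real.sq_sqrt (bar_m0 m hm A)]
    ring
  · simp only [if_neg hg]
    simp

theorem Gd_nonneg (hm : ∀ p, 0 ≤ m p) (i : X) : 0 ≤ Gd c m i := by
  unfold Gd Gw
  exact Finset.sum_nonneg fun A _ => mul_nonneg (bar_m0 m hm A) (mul_self_nonneg _)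

theorem Ph_pos (i : X) : 0 < Phg c m i := by
  unfold Phg
  positivity

theorem Ph_ge (hm : ∀ p, 0 ≤ m p) (i : X) (hi : good c m i) : Gd c m i ≤ Phg c m i := by
  have h1 := PB_le (vg c m) i
  rw [PB_vg c m hm i, if_pos hi] at h1
  exact h1

theorem Ph_lt (hm : ∀ p, 0 ≤ m p) (i : X) (hi : good c m i) (h0 : 0 < Gd c m i) :
    Phg c m i < 4 * Gd c m i := by
  have h2 : PB (vg c m) i = Gd c m i := by rw [PB_vg c m hm i, if_pos hi]
  have h1 := PB_gt (vg c m) i (by rw [h2]; exact h0)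
  rw [h2, zpow_sub₀ (by norm_num), zpow_one] at h1
  unfold Phg
  linarith

theorem Pm_le (hm : ∀ p, 0 ≤ m p) (i : X) (hi : good c m i) : Pm m i ≤ 8 * Phg c m i := by
  have h1 := Ph_ge c m hm i hi
  have h2 := hi.2
  linarith

theorem kap_pos (hθ : 0 < θ) (hS : St θ δ h (rX r) (cW c) m k j) (A : α) : 0 < kap m k j A := by
  unfold kap
  by_cases h1 : bar m A = 0
  · rw [if_pos h1]
    exact one_pos
  · rw [if_neg h1]
    have h2 : 0 < bar m A := lt_of_le_of_ne (bar_m0 m hS.m0 A) (Ne.symm h1)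
    have h3 := bar_kp r θ δ h (cW c) m k j hS A h2
    have h4 := bar_mj r θ δ h (cW c) m k j hS A
    have h5 : 0 < bar j A := lt_of_lt_of_le h2 h4
    have h6 : 0 < L0 := by
      unfold L0
      positivity
    positivity

end BMV
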