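import Pool.Agent.BMV.GeoR

/-!
# BMV/GeoN: the matrix `N = Gw (bar k) z`

PROOF.  Put `w A = 4/5 * (bar j A/bar m A)` (`= 0` if `bar m A = 0`); `0 ≤ w ≤ 1` (`4 bar j ≤ 5 bar m`).
`bar k A * (z_i z_l) = (5 L0/4) * (w A * kap A * (zC_i zC_l))`: if `bar m A > 0`,
`w κ zC zC = (4/5)(bar j/bar m)(bar k/(L0 bar j)) bar m z z = (4/(5 L0)) bar k z z` (`zC = √(bar m) z`, `bar j > 0`); if
`bar m A = 0`, both sides vanish (`bar k A = 0` by `kz`, `w A = 0`).
So `Gw (bar k) z = (5 L0/4) • NQ (vg) kap R w`, and `BMP.NQ_qd` (`≤ 64 n2`), `BMP.NQ_diag` (`≤ 16`) give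
`K0 = 80 L0` and `20 L0`.
-/

namespace BMV

open Finset BMP

variable {α X : Type} [Fintype α] [Fintype X] [DecidableEq X]
variable (r : α → α → Prop) [DecidableRel r] (θ δ h : ℝ) (c : α → X → ℝ) (m k j : α × X → ℝ)
  (R : Matrix X X ℝ)

theorem N_eq (hθ : 0 < θ) (hS : St θ δ h (rX r) (cW c) m k j) (i l : X) :
    Gw (bar k) (zg c m k j R) i l = 5 * L0 / 4 *
      NQ (vg c m) (kap m k j) R (fun A => 4 / 5 * (bar j A / bar m A)) i l := by
  unfold Gw NQ
  rw [mul_sum]
  refine sum_congr rfl fun A _ => ?_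
  have hL := L0_pos
  rcases (bar_m0 m hS.m0 A).eq_or_lt with h0 | h0
  · unfold zg
    simp [h0.symm]
  · have hj : 0 < bar j A := h0.trans_le (bar_mj r θ δ h (cW c) m k j hS A)
    have hs : 0 < Real.sqrt (bar m A) := Real.sqrt_pos.2 h0
    have hs2 := Real.sq_sqrt h0.le
    unfold kap zg
    rw [if_neg h0.ne']
    have e : zC (vg c m) (kap m k j) R A i / Real.sqrt (bar m A) *
        (zC (vg c m) (kap m k j) R A l / Real.sqrt (bar m A)) =
        zC (vg c m) (kap m k j) R A i * zC (vg c m) (kap m k j) R A l / bar m A := by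
      rw [div_mul_div_comm, ← sq, hs2]
    have e2 : (fun A => if bar m A = 0 then 1 else bar k A / (L0 * bar j A)) = kap m k j := rfl
    rw [e2, e]
    field_simp
    try ring

private theorem N_w (hS : St θ δ h (rX r) (cW c) m k j) (A : α) :
    0 ≤ 4 / 5 * (bar j A / bar m A) ∧ 4 / 5 * (bar j A / bar m A) ≤ 1 := by
  have hj := bar_mj r θ δ h (cW c) m k j hS A
  have hj5 := bar_j5 r θ δ h (cW c) m k j hS A
  have hm := bar_m0 m hS.m0 A
  rcases hm.eq_or_lt with h0 | h0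
  · rw [← h0]
    simp
  · constructor
    · have : 0 ≤ bar j A / bar m A := div_nonneg (hm.trans hj) hm
      linarith
    · have : bar j A / bar m A ≤ 5 / 4 := by
        rw [div_le_iff₀ h0]
        linarith
      linarith

theorem N_qd (hθ : 0 < θ) (hS : St θ δ h (rX r) (cW c) m k j) (hR : IsClean (vg c m) R) (x : X → ℝ) :
    qd (Gw (bar k) (zg c m k j R)) x ≤ K0 * n2 x := by
  have h1 := NQ_qd (vg c m) (kap m k j) R hR (fun A => 4 / 5 * (bar j A / bar m A))
    (kap_pos r θ δ h c m k j hθ hS) (fun A => (N_w r θ δ h c m k j hS A).1)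
    (fun A => (N_w r θ δ h c m k j hS A).2) x
  have e : qd (Gw (bar k) (zg c m k j R)) x = 5 * L0 / 4 *
      qd (NQ (vg c m) (kap m k j) R (fun A => 4 / 5 * (bar j A / bar m A))) x := by
    unfold qd
    rw [mul_sum]
    refine sum_congr rfl fun i _ => ?_
    rw [mul_sum]
    refine sum_congr rfl fun l _ => ?_
    rw [N_eq r θ δ h c m k j R hθ hS]
    ring
  have hL := L0_pos
  rw [e, K0_eq]
  calc 5 * L0 / 4 * qd (NQ (vg c m) (kap m k j) R (fun A => 4 / 5 * (bar j A / bar m A))) x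
      ≤ 5 * L0 / 4 * (64 * n2 x) := mul_le_mul_of_nonneg_left h1 (by positivity)
    _ = 80 * L0 * n2 x := by ring

theorem N_diag (hθ : 0 < θ) (hS : St θ δ h (rX r) (cW c) m k j) (hR : IsClean (vg c m) R) (i : X) :
    Gw (bar k) (zg c m k j R) i i ≤ 20 * L0 := by
  have h1 := NQ_diag (vg c m) (kap m k j) R hR (fun A => 4 / 5 * (bar j A / bar m A))
    (kap_pos r θ δ h c m k j hθ hS) (fun A => (N_w r θ δ h c m k j hS A).1)
    (fun A => (N_w r θ δ h c m k j hS A).2) i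
  have hL := L0_pos
  rw [N_eq r θ δ h c m k j R hθ hS]
  calc _ ≤ 5 * L0 / 4 * 16 := mul_le_mul_of_nonneg_left h1 (by positivity)
    _ = 20 * L0 := by ring

end BMV
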