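import Pool.Agent.BMV.GeoDef

/-!
# BMV/GeoR: the projection `R` and the vectors `z`

`hR : IsClean (vg c m) R` (it exists: `BMP.exists_clean`).
PROOF.
`R_bad`: let `i` be bad; `vg A i = 0` for all `A`, so the row and column `i` of `Gh (vg c m)` vanish.  Let
`w = ap R (Pi.single i 1)` (`w l = R l i`).  `hR.contr (Pi.single i 1)` : `qd Gh (Qa R e_i) ≤ qd Gh e_i = 0`;
`Qa R e_i = e_i - w`, and `qd Gh (e_i - w) = qd Gh w` since the `i`-th row and column vanish.  `hR.big e_i`:
`2 n2 w ≤ qd Gh w ≤ 0`, so `w = 0`; symmetry for the row.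
`ap_vg`: `ap R (vg A) = √(bar m A) • ap R (vh A)` because `R l i = 0` for the bad `i`.
`ML_eq`: `ML (vg) R = ∑ n2 (√(bar m) ap R vh) = ms (bar m) (ap R vh)`.
`RML_g`: `BMP.F1`.
`zg_eq`: `BMP.zC_eq`: `zC A i = if cold then Qa R (vg A) i else 0`; for a bad `i`, `Qa R (vg A) i = 0 - 0`; for a good `i`
 it is `√(bar m A) (vh A i - ap R (vh A) i)`; divide by `√(bar m A) > 0`.
`zg_zero`: if `bar m A = 0` division by `√0 = 0` gives `0`.
`zG_g`: `bar m A * zg A i ^ 2 ≤ Qa R (vg A) i ^ 2` (both cases), then `BMP.F3` and `PB_vg` (`Gd ≥ 0`).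
`cold_g`: `zg A i ≠ 0` gives `bar m A > 0` and `cold` (and `good`): `nL κ ≤ mL i + 1`, so
 `κ < 4^(nL κ + 1) ≤ 4^(mL i + 2) = 16/Ph` (`BMP.lt_nL`), `κ = bar k/(L0 bar j)`, `bar j > 0`.
 Stated also for cold coordinates (`cold_k`).
-/

namespace BMV

open Finset BMP

variable {α X : Type} [Fintype α] [Fintype X] [DecidableEq X]
variable (r : α → α → Prop) [DecidableRel r] (θ δ h : ℝ) (c : α → X → ℝ) (m k j : α × X → ℝ)
  (R : Matrix X X ℝ)

private theorem ap_sgl (i l : X) : ap R (Pi.single i (1 : ℝ)) l = R l i := by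
  unfold ap
  rw [Finset.sum_eq_single i]
  · rw [Pi.single_eq_same, mul_one]
  · intro j _ hj
    rw [Pi.single_eq_of_ne hj, mul_zero]
  · intro hi
    exact absurd (Finset.mem_univ i) hi

private theorem qd_ext (G : Matrix X X ℝ) (i : X) (h1 : ∀ l, G i l = 0) (h2 : ∀ l, G l i = 0)
    (x y : X → ℝ) (h : ∀ l, l ≠ i → x l = -y l) : qd G x = qd G y := by
  unfold qd
  refine Finset.sum_congr rfl fun a _ => Finset.sum_congr rfl fun b _ => ?_
  by_cases ha : a = i
  · subst ha
    rw [h1]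
    ring
  · by_cases hb : b = i
    · subst hb
      rw [h2]
      ring
    · rw [h a ha, h b hb]
      ring

theorem R_bad (hR : IsClean (vg c m) R) (i : X) (hi : ¬ good c m i) (l : X) : R i l = 0 ∧ R l i = 0 := by
  have hv : ∀ A, vg c m A i = 0 := fun A => by
    unfold vg
    rw [if_neg hi]
  have g1 : ∀ l, Gh (vg c m) i l = 0 := by
    intro l
    unfold Gh Gm
    have : ∑ A, vg c m A i * vg c m A l = 0 := Finset.sum_eq_zero fun A _ => by
      rw [hv A, zero_mul]
    rw [this, mul_zero]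
    split_ifs <;> rfl
  have g2 : ∀ l, Gh (vg c m) l i = 0 := by
    intro l
    unfold Gh Gm
    have : ∑ A, vg c m A l * vg c m A i = 0 := Finset.sum_eq_zero fun A _ => by
      rw [hv A, mul_zero]
    rw [this, mul_zero]
    split_ifs <;> rfl
  set w := ap R (Pi.single i (1 : ℝ)) with hw
  have e1 : qd (Gh (vg c m)) (Qa R (Pi.single i (1 : ℝ))) = qd (Gh (vg c m)) w := by
    refine qd_ext _ i g1 g2 _ _ fun l hl => ?_
    unfold Qa
    rw [Pi.single_eq_of_ne hl, zero_sub]
  have e2 : qd (Gh (vg c m)) (Pi.single i (1 : ℝ)) = 0 := by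
    unfold qd
    refine Finset.sum_eq_zero fun a _ => Finset.sum_eq_zero fun b _ => ?_
    by_cases ha : a = i
    · subst ha
      rw [g1]
      ring
    · rw [Pi.single_eq_of_ne ha]
      ring
  have h1 := hR.contr (Pi.single i (1 : ℝ))
  have h2 := hR.big (Pi.single i (1 : ℝ))
  rw [e1, e2] at h1
  rw [← hw] at h2
  have h3 : n2 w = 0 := by
    have : 0 ≤ n2 w := Finset.sum_nonneg fun _ _ => sq_nonneg _
    linarith
  have h4 : ∀ l, w l = 0 := by
    intro l
    unfold n2 at h3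
    have h5 := (Finset.sum_eq_zero_iff_of_nonneg fun l _ => sq_nonneg (w l)).1 h3 l (Finset.mem_univ l)
    exact pow_eq_zero_iff (by norm_num) |>.1 h5
  have h5 : R l i = 0 := by
    rw [← ap_sgl R i l]
    exact h4 l
  exact ⟨by rw [hR.symm i l]; exact h5, h5⟩

theorem ap_vg (hR : IsClean (vg c m) R) (A : α) (l : X) :
    ap R (vg c m A) l = Real.sqrt (bar m A) * ap R (vh c m A) l := by
  unfold ap
  rw [Finset.mul_sum]
  refine Finset.sum_congr rfl fun j _ => ?_
  unfold vg
  by_cases hj : good c m j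
  · rw [if_pos hj]
    ring
  · rw [if_neg hj, (R_bad c m R hR j hj l).2]
    ring

theorem ML_eq (hm : ∀ p, 0 ≤ m p) (hR : IsClean (vg c m) R) :
    ML (vg c m) R = ms (bar m) (fun A => ap R (vh c m A)) := by
  unfold ML ms
  refine Finset.sum_congr rfl fun A _ => ?_
  unfold n2
  rw [Finset.mul_sum]
  refine Finset.sum_congr rfl fun l _ => ?_
  rw [ap_vg c m R hR A l, mul_pow, Real.sq_sqrt (bar_m0 m hm A)]

theorem RML_g (hm : ∀ p, 0 ≤ m p) (hR : IsClean (vg c m) R) :
    ∑ i, Phg c m i * R i i ≤ 1 / 2 * ms (bar m) (fun A => ap R (vh c m A)) := by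
  rw [← ML_eq c m R hm hR]
  exact F1 (vg c m) R hR

theorem zg_eq (hR : IsClean (vg c m) R) (A : α) (hA : 0 < bar m A) (i : X) :
    zg c m k j R A i = if good c m i ∧ cold c m k j A i then vh c m A i - ap R (vh c m A) i else 0 := by
  have hs : Real.sqrt (bar m A) ≠ 0 := (Real.sqrt_pos.2 hA).ne'
  unfold zg
  rw [zC_eq (vg c m) R hR (kap m k j) A i]
  by_cases hc : cold c m k j A i
  · rw [if_pos (show nL (kap m k j A) ≤ mL (vg c m) i + 1 from hc)]
    unfold Qa
    rw [ap_vg c m R hR A i]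
    by_cases hg : good c m i
    · rw [if_pos ⟨hg, hc⟩]
      unfold vg
      rw [if_pos hg]
      field_simp
    · rw [if_neg fun h => hg h.1]
      unfold vg
      rw [if_neg hg]
      have h1 : ap R (vh c m A) i = 0 := by
        unfold ap
        refine Finset.sum_eq_zero fun j _ => ?_
        rw [(R_bad c m R hR i hg j).1, zero_mul]
      rw [h1]
      simp
  · rw [if_neg (show ¬ nL (kap m k j A) ≤ mL (vg c m) i + 1 from hc), if_neg fun h => hc h.2, zero_div]

theorem zg_zero (A : α) (hA : bar m A = 0) : zg c m k j R A = 0 := by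
  funext i
  unfold zg
  rw [hA, Real.sqrt_zero, div_zero]
  rfl

theorem zG_g (hm : ∀ p, 0 ≤ m p) (hR : IsClean (vg c m) R) (i : X) :
    ∑ A, bar m A * zg c m k j R A i ^ 2 ≤ Gw (bar m) (vh c m) i i := by
  have h1 : ∀ A, bar m A * zg c m k j R A i ^ 2 ≤ Qa R (vg c m A) i ^ 2 := by
    intro A
    rcases (bar_m0 m hm A).eq_or_lt with h0 | h0
    · rw [← h0, zero_mul]
      exact sq_nonneg _
    · unfold zg
      rw [div_pow, Real.sq_sqrt h0.le, mul_div_cancel₀ _ h0.ne', zC_eq (vg c m) R hR (kap m k j) A i]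
      split_ifs
      · exact le_rfl
      · rw [zero_pow two_ne_zero]
        exact sq_nonneg _
  refine (Finset.sum_le_sum fun A _ => h1 A).trans ?_
  refine (F3 (vg c m) R hR i).trans ?_
  rw [PB_vg c m hm i]
  split_ifs
  · exact le_rfl
  · exact Gd_nonneg c m hm i

theorem cold_k (hθ : 0 < θ) (hS : St θ δ h (rX r) (cW c) m k j) (A : α) (hA : 0 < bar m A) (i : X)
    (hi : cold c m k j A i) : Phg c m i * bar k A ≤ 16 * L0 * bar j A := by
  have hj : 0 < bar j A := lt_of_lt_of_le hA (bar_mj r θ δ h (cW c) m k j hS A)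
  have hL := L0_pos
  have hk : kap m k j A = bar k A / (L0 * bar j A) := by
    unfold kap
    rw [if_neg hA.ne']
  have h1 : kap m k j A < (4 : ℝ) ^ (nL (kap m k j A) + 1) := lt_nL _
  have h2 : (4 : ℝ) ^ (nL (kap m k j A) + 1) ≤ (4 : ℝ) ^ (mL (vg c m) i + 2) := by
    refine zpow_le_zpow_right₀ (by norm_num) ?_
    have hi' : nL (kap m k j A) ≤ mL (vg c m) i + 1 := hi
    omega
  have h3 : Phg c m i * (4 : ℝ) ^ (mL (vg c m) i + 2) = 16 := by
    unfold Phg
    rw [← zpow_add₀ (by norm_num : (4 : ℝ) ≠ 0)]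
    have : -mL (vg c m) i + (mL (vg c m) i + 2) = 2 := by ring
    rw [this]
    norm_num
  have hP : 0 < Phg c m i := Ph_pos c m i
  have h4 : Phg c m i * kap m k j A ≤ 16 := by
    rw [← h3]
    exact mul_le_mul_of_nonneg_left (h1.le.trans h2) hP.le
  have h5 : bar k A = kap m k j A * (L0 * bar j A) := by
    rw [hk]
    field_simp
  rw [h5]
  have h6 : 0 ≤ L0 * bar j A := by positivity
  have h7 := mul_le_mul_of_nonneg_right h4 h6
  linarith

theorem cold_g (hθ : 0 < θ) (hS : St θ δ h (rX r) (cW c) m k j) (hR : IsClean (vg c m) R) (A : α) (i : X)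
    (hi : zg c m k j R A i ≠ 0) : Phg c m i * bar k A ≤ 16 * L0 * bar j A := by
  have hA : 0 < bar m A := by
    rcases (bar_m0 m hS.m0 A).eq_or_lt with h0 | h0
    · exfalso
      refine hi ?_
      rw [zg_zero c m k j R A h0.symm]
      rfl
    · exact h0
  refine cold_k r θ δ h c m k j hθ hS A hA i ?_
  rw [zg_eq c m k j R hR A hA i] at hi
  by_contra hc
  rw [if_neg fun h => hc h.2] at hi
  exact hi rfl

end BMV
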