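import Pool.Agent.BMV.GeoR
import Pool.Agent.BMV.GeoHot

/-!
# BMV/GeoY: orthogonality and size of `y = v - z`

PROOF.
`orth_g`: if `bar m A = 0`, `zg = 0`.  Otherwise, with `q = bar m A`, `√q zg = zC = Qa R u`, `u = uC (vg) κ A` (the
truncation of `vg A` to the cold coordinates), `zC` is supported on cold good coordinates (`zg_eq`).
`q ip z y = q (ip z vh - n2 z) = ip zC (vg A) - n2 zC` (on the support `√q vh = vg`), and
`ip zC (vg A) = ip zC u` (support cold), `= ip (Qa R u) u = ip (Qa R u) (Qa R u)` (`BMP.Qa_symm`, `BMP.Qa_idem`).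
`Y_le`: for `bar m A > 0`, by `zg_eq`: `y_i = vh_i` if `i` is bad or good and not cold, and `y_i = ap R (vh A) i` if `i` is
good and cold.  So `n2 y ≤ ∑_{bad} vh² + ∑_{hot} vh² + n2 (ap R vh)`; sum with `bad_mass`, `hot_mass`.
-/

namespace BMV

open Finset BMP

variable {α X : Type} [Fintype α] [Fintype X] [DecidableEq X]
variable (r : α → α → Prop) [DecidableRel r] (θ δ h : ℝ) (c : α → X → ℝ) (m k j : α × X → ℝ)
  (R : Matrix X X ℝ)

theorem orth_g (hm : ∀ p, 0 ≤ m p) (hR : IsClean (vg c m) R) (A : α) :
    ip (zg c m k j R A) (yg c m k j R A) = 0 := by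
  rcases eq_or_lt_of_le (bar_m0 m hm A) with h0 | hpos
  · rw [zg_zero c m k j R A h0.symm]
    unfold ip
    simp
  · obtain ⟨s, hs⟩ : ∃ s, s = Real.sqrt (bar m A) := ⟨_, rfl⟩
    have hs0 : 0 < s := by rw [hs]; exact Real.sqrt_pos.2 hpos
    obtain ⟨Z, hZ⟩ : ∃ Z : X → ℝ, Z = zC (vg c m) (kap m k j) R A := ⟨_, rfl⟩
    obtain ⟨u, hu⟩ : ∃ u : X → ℝ, u = uC (vg c m) (kap m k j) A := ⟨_, rfl⟩
    have hzg : ∀ i, zg c m k j R A i = Z i / s := by
      intro i
      rw [hZ, hs]
      rfl
    have hZu : Z = Qa R u := by rw [hZ, hu]; rfl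
    -- on the support of `Z`
    have h1 : ∀ i, Z i * (s * vh c m A i) = Z i * u i := by
      intro i
      have e1 := zg_eq c m k j R hR A hpos i
      by_cases hg : good c m i ∧ cold c m k j A i
      · have e2 : u i = s * vh c m A i := by
          rw [hu]
          unfold uC
          have hc : nL (kap m k j A) ≤ mL (vg c m) i + 1 := hg.2
          rw [if_pos hc]
          unfold vg
          rw [if_pos hg.1, hs]
        rw [e2]
      · rw [if_neg hg, hzg i] at e1
        have e3 : Z i = 0 := by
          rcases div_eq_zero_iff.1 e1 with h | h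
          · exact h
          · exact absurd h hs0.ne'
        rw [e3]
        ring
    have h2 : ∑ i, Z i * u i = ∑ i, Z i * Z i := by
      have e1 : ∑ i, Z i * Z i = ∑ i, Qa R Z i * u i := by
        rw [← Qa_symm (vg c m) R hR Z u, ← hZu]
      have e2 : Qa R Z = Z := by
        rw [hZu]
        exact Qa_idem (vg c m) R hR u
      rw [e1, e2]
    have h3 : s * s * ip (zg c m k j R A) (yg c m k j R A) = 0 := by
      have e1 : s * s * ip (zg c m k j R A) (yg c m k j R A) =
          ∑ i, (Z i * (s * vh c m A i) - Z i * Z i) := by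
        unfold ip
        rw [Finset.mul_sum]
        refine Finset.sum_congr rfl fun i _ => ?_
        unfold yg
        rw [hzg i]
        field_simp
      rw [e1, Finset.sum_sub_distrib, Finset.sum_congr rfl fun i _ => h1 i, h2, sub_self]
    rcases mul_eq_zero.1 h3 with h | h
    · exact absurd h (mul_pos hs0 hs0).ne'
    · exact h

theorem Y_le (hθ : 0 < θ) (hS : St θ δ h (rX r) (cW c) m k j) (hR : IsClean (vg c m) R) :
    ms (bar m) (yg c m k j R) ≤ 5 * ∑ A, KLt (cW c) m A + 1 / 99 * ∑ A, Jt m k A
      + ms (bar m) (fun A => ap R (vh c m A)) := by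
  have hb := bad_mass r θ δ h c m k j hS
  have hh := hot_mass r θ δ h c m k j hθ hS
  have key : ms (bar m) (yg c m k j R) ≤
      ∑ A, bar m A * ∑ i, (if good c m i then 0 else vh c m A i ^ 2)
      + ∑ A, bar m A * ∑ i, (if good c m i ∧ ¬ cold c m k j A i then vh c m A i ^ 2 else 0)
      + ms (bar m) (fun A => ap R (vh c m A)) := by
    unfold ms
    rw [← Finset.sum_add_distrib, ← Finset.sum_add_distrib]
    refine Finset.sum_le_sum fun A _ => ?_
    rcases eq_or_lt_of_le (bar_m0 m hS.m0 A) with h0 | hpos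
    · rw [← h0]
      simp
    · rw [← mul_add, ← mul_add]
      refine mul_le_mul_of_nonneg_left ?_ hpos.le
      unfold n2
      rw [← Finset.sum_add_distrib, ← Finset.sum_add_distrib]
      refine Finset.sum_le_sum fun i _ => ?_
      have e1 := zg_eq c m k j R hR A hpos i
      have e2 : yg c m k j R A i = vh c m A i - zg c m k j R A i := rfl
      have e3 := sq_nonneg (ap R (vh c m A) i)
      have e4 := sq_nonneg (vh c m A i)
      by_cases hg : good c m i
      · by_cases hc : cold c m k j A i
        · rw [if_pos ⟨hg, hc⟩] at e1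
          rw [e2, e1, if_pos hg, if_neg (fun h' => h'.2 hc)]
          ring_nf
          exact le_rfl
        · rw [if_neg (fun h' => hc h'.2)] at e1
          rw [e2, e1, if_pos hg, if_pos ⟨hg, hc⟩]
          simp only [sub_zero]
          linarith
      · rw [if_neg (fun h' => hg h'.1)] at e1
        rw [e2, e1, if_neg hg, if_neg (fun h' => hg h'.1)]
        simp only [sub_zero]
        linarith
  linarith

end BMV
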