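import Pool.Agent.BMV.StepF
import Pool.Agent.BMV.EndT

/-!
# BMV/Iter: the induction on the number of blocks

PROOF.  Let `C1 = 36 Mt d0 > 0` and `p` a natural number with `p ≥ 2 C1`, `p ≥ 1`.  For `t ≥ 2` put
`ρ = max (1/2) (1 - C1/t)`.  Claim `(t-1)^p ≤ ρ t^p`: by Bernoulli `(t/(t-1))^p = (1 + 1/(t-1))^p ≥ 1 + p/(t-1) ≥ 1 + p/t`
(`one_add_mul_le_pow`).  If `t ≤ p`: `1 + p/t ≥ 2`, so `(t-1)^p ≤ t^p/2`.  If `t > p`: `ρ ≥ 1 - C1/t ≥ 1 - p/(2t)` and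
`(1 - p/(2t))(1 + p/t) ≥ 1` because `p/(2t) ≥ p²/(2t²)`.
Induction on `n` with `card ι = n + 1` for all `ι` (pattern of `BMP.theorem1`): `n = 0` is `endT`.  Step, `t = n + 2`:
`stepF` gives `b, s` with `ρ GB θ c ≤ GB θ (rev c b s) ≤ (t-1)^p (2 θ^α)` (`Bdd_rev`, `card {j // j ≠ b} = n + 1`), so
`ρ GB θ c ≤ ρ t^p (2 θ^α)` and `ρ > 0`.
-/

namespace BMV

open Finset BMP

private theorem pow_claim {C1 : ℝ} (hC1 : 0 < C1) {p : ℕ} (hp : 2 * C1 ≤ p) {x : ℝ}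
    (hx : 1 ≤ x) :
    x ^ p ≤ max (1 / 2) (1 - C1 / (x + 1)) * (x + 1) ^ p := by
  have hx0 : 0 < x := by linarith
  have hp0 : (0 : ℝ) < p := by linarith
  have h1 : 1 + (p : ℝ) * (1 / x) ≤ (1 + 1 / x) ^ p :=
    one_add_mul_le_pow (by have : 0 < 1 / x := by positivity
                           linarith) p
  have h2 : (x + 1) ^ p = x ^ p * (1 + 1 / x) ^ p := by
    rw [← mul_pow]
    congr 1
    field_simp
  have h3 : (p : ℝ) / (x + 1) ≤ (p : ℝ) * (1 / x) := by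
    rw [mul_one_div]
    apply div_le_div_of_nonneg_left hp0.le hx0 (by linarith)
  have hxp : 0 < x ^ p := by positivity
  obtain ⟨y, hy⟩ : ∃ y : ℝ, y = (p : ℝ) / (x + 1) := ⟨_, rfl⟩
  have hy0 : 0 ≤ y := by rw [hy]; positivity
  have h4 : x ^ p * (1 + y) ≤ (x + 1) ^ p := by
    rw [h2]
    refine mul_le_mul_of_nonneg_left ?_ hxp.le
    rw [hy]
    linarith
  have h5 : 0 < (x + 1) ^ p := by positivity
  rcases le_or_gt 1 y with h6 | h6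
  · have h7 : 1 / 2 * (x + 1) ^ p ≤ max (1 / 2) (1 - C1 / (x + 1)) * (x + 1) ^ p :=
      mul_le_mul_of_nonneg_right (le_max_left _ _) h5.le
    nlinarith
  · have h7 : (1 - C1 / (x + 1)) * (x + 1) ^ p ≤ max (1 / 2) (1 - C1 / (x + 1)) * (x + 1) ^ p :=
      mul_le_mul_of_nonneg_right (le_max_right _ _) h5.le
    have h8 : C1 / (x + 1) ≤ y / 2 := by
      rw [hy, div_div, div_le_div_iff₀ (by linarith) (by linarith)]
      nlinarith
    have h9 : (1 - y / 2) * (x + 1) ^ p ≤ (1 - C1 / (x + 1)) * (x + 1) ^ p :=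
      mul_le_mul_of_nonneg_right (by linarith) h5.le
    have h10 : (1 - y / 2) * (x ^ p * (1 + y)) ≤ (1 - y / 2) * (x + 1) ^ p :=
      mul_le_mul_of_nonneg_left h4 (by linarith)
    have h11 : 1 ≤ (1 - y / 2) * (1 + y) := by nlinarith
    have h12 : x ^ p * 1 ≤ x ^ p * ((1 - y / 2) * (1 + y)) :=
      mul_le_mul_of_nonneg_left h11 hxp.le
    have h13 : (1 - y / 2) * (x ^ p * (1 + y)) = x ^ p * ((1 - y / 2) * (1 + y)) := by ring
    linarith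

theorem iter : ∃ p : ℕ, ∀ (n : ℕ) (X : Type) [Fintype X] [DecidableEq X] (ι : Type) [Fintype ι]
    [DecidableEq ι], Fintype.card ι = n + 1 → ∀ (c : (ι → X) → ℝ), Bdd c → ∀ θ : ℝ, 0 < θ →
    GB θ c ≤ ((n + 1 : ℕ) : ℝ) ^ p * (2 * θ ^ (d0 / (1 + d0))) := by
  obtain ⟨C1, hC1⟩ : ∃ C1 : ℝ, C1 = 36 * Mt * d0 := ⟨_, rfl⟩
  have hC1p : 0 < C1 := by
    have h1 := d0_pos
    have h2 : 0 < Mt := by
      unfold Mt
      exact Real.exp_pos _
    rw [hC1]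
    positivity
  obtain ⟨p, hp⟩ : ∃ p : ℕ, 2 * C1 ≤ (p : ℝ) := exists_nat_ge (2 * C1)
  refine ⟨p, fun n => ?_⟩
  induction n with
  | zero =>
    intro X _ _ ι _ _ hι c hc θ hθ
    have h1 := endT (by rw [hι]) c hc θ hθ
    simpa using h1
  | succ n ih =>
    intro X _ _ ι _ _ hι c hc θ hθ
    obtain ⟨b, s, hs⟩ := stepF (ι := ι) (X := X) (by omega) θ hθ c
    have hcard : Fintype.card {j // j ≠ b} = n + 1 := by
      rw [Fintype.card_subtype_compl, Fintype.card_subtype_eq, hι]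
      omega
    have h1 := ih X {j // j ≠ b} hcard (rev c b s) (Bdd_rev c hc b s) θ hθ
    obtain ⟨x, hx⟩ : ∃ x : ℝ, x = ((n + 1 : ℕ) : ℝ) := ⟨_, rfl⟩
    have hx1 : 1 ≤ x := by
      rw [hx]
      push_cast
      have : (0 : ℝ) ≤ n := Nat.cast_nonneg n
      linarith
    have hι' : (Fintype.card ι : ℝ) = x + 1 := by
      rw [hι, hx]
      push_cast
      ring
    have hn2 : ((n + 1 + 1 : ℕ) : ℝ) = x + 1 := by
      rw [hx]
      push_cast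
      ring
    rw [hι', ← hC1] at hs
    rw [← hx] at h1
    rw [hn2]
    have h2 := pow_claim hC1p hp hx1
    obtain ⟨ρ, hρ⟩ : ∃ ρ : ℝ, ρ = max (1 / 2) (1 - C1 / (x + 1)) := ⟨_, rfl⟩
    rw [← hρ] at hs h2
    have hρ0 : 0 < ρ := by
      rw [hρ]
      exact lt_max_of_lt_left (by norm_num)
    obtain ⟨τ, hτ⟩ : ∃ τ : ℝ, τ = 2 * θ ^ (d0 / (1 + d0)) := ⟨_, rfl⟩
    have hτ0 : 0 ≤ τ := by rw [hτ]; positivity
    rw [← hτ] at h1 ⊢
    have h3 : x ^ p * τ ≤ ρ * (x + 1) ^ p * τ := mul_le_mul_of_nonneg_right h2 hτ0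
    have h4 : ρ * GB θ c ≤ ρ * ((x + 1) ^ p * τ) := by
      calc ρ * GB θ c ≤ GB θ (rev c b s) := hs
        _ ≤ x ^ p * τ := h1
        _ ≤ ρ * (x + 1) ^ p * τ := h3
        _ = ρ * ((x + 1) ^ p * τ) := by ring
    exact le_of_mul_le_mul_left h4 hρ0

end BMV
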