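import Pool.Agent.BMV.BarF

/-!
# BMV/L1: the dual variable of the merged state

PROOF of `L1`.  If `bar m A = 0` all `m (A,i) = 0`, `j (A,i) = 0`, so both sides are `0`.  Otherwise sum
`m (A,i) (lamA (A,i) - 1) = 0` (trivial if `m (A,i) = 0`) over `i`:
`∑ m log(W/m) + δ ∑ m log(θ k/m) + 8 h δ ∑ (j²/m - m) - 2 δ ∑ m nb (rX r) k (A,i) = 0`, where
`nb (rX r) k (A,i) = nb r (bar k) A + ∑_C [¬ r A C] k (C,i)`.  Insert
`∑ m log(W/m) = bar m log(bar W/bar m) - KLt`, `∑ m log(θ k/m) = bar m log(θ bar k/bar m) - Jt`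
(`k > 0` where `m > 0`, `bar k > 0`), `∑ j²/m = Qt + bar j²/bar m`.
`onl_sum`: exchange the sums, `r` symmetric.
-/

namespace BMV

open Finset BMP

variable {α X : Type} [Fintype α] [Fintype X] [DecidableEq X] (r : α → α → Prop) [DecidableRel r]

theorem nb_rX (f : α × X → ℝ) (A : α) (i : X) :
    nb (rX r) f (A, i) = nb r (bar f) A + ∑ C, if r A C then 0 else f (C, i) := by
  unfold nb
  rw [Fintype.sum_prod_type, ← Finset.sum_add_distrib]
  refine Finset.sum_congr rfl fun C _ => ?_
  by_cases hr : r A C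
  · rw [if_pos hr, if_pos hr, add_zero]
    refine Finset.sum_congr rfl fun l _ => ?_
    rw [if_pos (show rX r (A, i) (C, l) from Or.inl hr)]
  · rw [if_neg hr, if_neg hr, zero_add]
    have h2 : ∀ l, (if rX r (A, i) (C, l) then f (C, l) else 0) =
        if i = l then f (C, l) else 0 := by
      intro l
      by_cases hl : i = l
      · rw [if_pos hl, if_pos (show rX r (A, i) (C, l) from Or.inr hl)]
      · rw [if_neg hl, if_neg (show ¬ rX r (A, i) (C, l) from fun h => h.elim hr hl)]
    rw [Finset.sum_congr rfl fun l _ => h2 l, Finset.sum_ite_eq, if_pos (Finset.mem_univ _)]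

private theorem log_flip1 (a b : ℝ) : Real.log (a / b) = -Real.log (b / a) := by
  rw [← Real.log_inv, inv_div]

theorem L1 (θ δ h : ℝ) (hθ : 0 < θ) (W m k j : α × X → ℝ) (hS : St θ δ h (rX r) W m k j) (A : α) :
    bar m A * (lamA θ δ h r (bar W) (bar m) (bar k) (bar j) A - 1)
      = KLt W m A + δ * Jt m k A - 8 * h * δ * Qt m j A + 2 * δ * onl r m k A := by
  have e1 : ∑ i, m (A, i) * Real.log (W (A, i) / m (A, i)) =
      bar m A * Real.log (bar W A / bar m A) - KLt W m A := by
    have h1 : KLt W m A = ∑ i, (-(m (A, i) * Real.log (W (A, i) / m (A, i))) +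
        m (A, i) * Real.log (bar W A / bar m A)) := by
      unfold KLt
      refine Finset.sum_congr rfl fun i _ => ?_
      rw [log_flip1 (m (A, i)), log_flip1 (bar m A)]
      ring
    rw [h1, Finset.sum_add_distrib, Finset.sum_neg_distrib, ← Finset.sum_mul]
    unfold bar
    ring
  have e2 : ∑ i, m (A, i) * Real.log (θ * k (A, i) / m (A, i)) =
      bar m A * Real.log (θ * bar k A / bar m A) - Jt m k A := by
    have h1 : ∀ i, m (A, i) * Real.log (θ * k (A, i) / m (A, i)) =
        m (A, i) * Real.log θ + m (A, i) * Real.log (k (A, i) / m (A, i)) := by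
      intro i
      rcases (hS.m0 (A, i)).eq_or_lt with h0 | h0
      · rw [← h0]; ring
      · have hk := hS.kp (A, i) h0
        rw [mul_div_assoc, Real.log_mul hθ.ne' (by positivity)]
        ring
    have h2 : bar m A * Real.log (θ * bar k A / bar m A) =
        bar m A * Real.log θ + bar m A * Real.log (bar k A / bar m A) := by
      rcases (bar_m0 m hS.m0 A).eq_or_lt with h0 | h0
      · rw [← h0]; ring
      · have hk := bar_kp r θ δ h W m k j hS A h0
        rw [mul_div_assoc, Real.log_mul hθ.ne' (by positivity)]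
        ring
    have h3 : Jt m k A = bar m A * Real.log (bar k A / bar m A) -
        ∑ i, m (A, i) * Real.log (k (A, i) / m (A, i)) := by
      unfold Jt
      rw [Finset.sum_congr rfl fun i _ => mul_sub (m (A, i)) _ _, Finset.sum_sub_distrib,
        ← Finset.sum_mul]
      rfl
    rw [Finset.sum_congr rfl fun i _ => h1 i, Finset.sum_add_distrib, ← Finset.sum_mul, h2, h3]
    unfold bar
    ring
  have e3 : ∑ i, j (A, i) ^ 2 / m (A, i) = bar j A ^ 2 / bar m A + Qt m j A := by
    unfold Qt
    ring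
  have e4 : ∑ i, m (A, i) = bar m A := rfl
  have e5 : ∑ i, m (A, i) * nb (rX r) k (A, i) = bar m A * nb r (bar k) A + onl r m k A := by
    rw [Finset.sum_congr rfl fun i _ => by rw [nb_rX r k A i, mul_add], Finset.sum_add_distrib,
      ← Finset.sum_mul]
    rfl
  have hsq : ∀ a b : ℝ, a * ((b / a) ^ 2 - 1) = b ^ 2 / a - a := by
    intro a b
    rcases eq_or_ne a 0 with h0 | h0
    · rw [h0]; simp
    · field_simp
  have h0 : ∑ i, m (A, i) * (lamA θ δ h (rX r) W m k j (A, i) - 1) = 0 := by
    refine Finset.sum_eq_zero fun i _ => ?_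
    rcases (hS.m0 (A, i)).eq_or_lt with h0 | h0
    · rw [← h0, zero_mul]
    · rw [hS.lam (A, i) h0, sub_self, mul_zero]
  have h1 : ∀ i, m (A, i) * (lamA θ δ h (rX r) W m k j (A, i) - 1) =
      m (A, i) * Real.log (W (A, i) / m (A, i)) +
        δ * (m (A, i) * Real.log (θ * k (A, i) / m (A, i))) +
        8 * h * δ * (j (A, i) ^ 2 / m (A, i)) - 8 * h * δ * m (A, i) -
        2 * δ * (m (A, i) * nb (rX r) k (A, i)) := by
    intro i
    have h2 := hsq (m (A, i)) (j (A, i))
    unfold lamA
    have h3 : m (A, i) * (Real.log (W (A, i) / m (A, i)) + 1 +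
        δ * Real.log (θ * k (A, i) / m (A, i)) + 8 * h * δ * ((j (A, i) / m (A, i)) ^ 2 - 1) -
        2 * δ * nb (rX r) k (A, i) - 1) = m (A, i) * Real.log (W (A, i) / m (A, i)) +
        δ * (m (A, i) * Real.log (θ * k (A, i) / m (A, i))) +
        8 * h * δ * (m (A, i) * ((j (A, i) / m (A, i)) ^ 2 - 1)) -
        2 * δ * (m (A, i) * nb (rX r) k (A, i)) := by ring
    rw [h3, h2]
    ring
  rw [Finset.sum_congr rfl fun i _ => h1 i, Finset.sum_sub_distrib, Finset.sum_sub_distrib,
    Finset.sum_add_distrib, Finset.sum_add_distrib, ← Finset.mul_sum, ← Finset.mul_sum,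
    ← Finset.mul_sum, ← Finset.mul_sum, e1, e2, e3, e4, e5] at h0
  have h2 := hsq (bar m A) (bar j A)
  unfold lamA
  have h3 : bar m A * (Real.log (bar W A / bar m A) + 1 +
      δ * Real.log (θ * bar k A / bar m A) + 8 * h * δ * ((bar j A / bar m A) ^ 2 - 1) -
      2 * δ * nb r (bar k) A - 1) = bar m A * Real.log (bar W A / bar m A) +
      δ * (bar m A * Real.log (θ * bar k A / bar m A)) +
      8 * h * δ * (bar m A * ((bar j A / bar m A) ^ 2 - 1)) -
      2 * δ * (bar m A * nb r (bar k) A) := by ring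
  rw [h3, h2]
  linarith

theorem onl_sum (hr : ∀ A C, r A C → r C A) (m k : α × X → ℝ) : ∑ A, onl r m k A = Oc r m k := by
  unfold onl Oc ns
  have h1 : ∀ A, ∑ i, m (A, i) * ∑ C, (if r A C then 0 else k (C, i)) =
      ∑ C, if r C A then 0 else ∑ i, k (C, i) * m (A, i) := by
    intro A
    rw [Finset.sum_congr rfl fun i _ => Finset.mul_sum _ _ _, Finset.sum_comm]
    refine Finset.sum_congr rfl fun C _ => ?_
    by_cases h : r A C
    · rw [if_pos (hr _ _ h)]
      refine Finset.sum_eq_zero fun i _ => ?_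
      rw [if_pos h, mul_zero]
    · rw [if_neg (fun h' => h (hr _ _ h'))]
      refine Finset.sum_congr rfl fun i _ => ?_
      rw [if_neg h, mul_comm]
  rw [Finset.sum_congr rfl fun A _ => h1 A, Finset.sum_comm]

theorem onl_nonneg (m k : α × X → ℝ) (hm : ∀ p, 0 ≤ m p) (hk : ∀ p, 0 ≤ k p) (A : α) : 0 ≤ onl r m k A := by
  unfold onl
  refine Finset.sum_nonneg fun i _ => mul_nonneg (hm _) (Finset.sum_nonneg fun C _ => ?_)
  split_ifs
  · exact le_rfl
  · exact hk _

end BMV
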