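import Pool.Agent.BMV.BarF

/-!
# BMV/QG: signs of the losses

PROOF.
`Qt_nonneg`: `bar j² ≤ (∑ j²/m)(∑ m)` (Cauchy-Schwarz; where `m = 0` also `j = 0`).
`Gp_nonneg`: `mu (bar k) (bar j) A C = min(∑_{i,l} j(A,i) k(C,l), ∑_{i,l} j(C,l) k(A,i)) ≥ ∑_{i,l} min(.,.)`.
`Ohc_le`: `mu k j (A,i) (C,i) ≤ j(C,i) k(A,i) ≤ (5/4) m(C,i) k(A,i)`.
-/

namespace BMV

open Finset BMP

variable {α X : Type} [Fintype α] [Fintype X] [DecidableEq X] (r : α → α → Prop) [DecidableRel r]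

theorem Qt_nonneg (m j : α × X → ℝ) (hm : ∀ p, 0 ≤ m p) (hj : ∀ p, m p = 0 → j p = 0) (A : α) :
    0 ≤ Qt m j A := by
  unfold Qt
  have h1 : bar j A ^ 2 ≤ (∑ i, j (A, i) ^ 2 / m (A, i)) * bar m A := by
    unfold bar
    refine Finset.sum_sq_le_sum_mul_sum_of_sq_le_mul _ (fun i _ => ?_) (fun i _ => hm _) (fun i _ => ?_)
    · exact div_nonneg (sq_nonneg _) (hm _)
    · rcases eq_or_ne (m (A, i)) 0 with h | h
      · rw [hj _ h, h]; simp
      · rw [div_mul_cancel₀ _ h]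
  have h0 : 0 ≤ ∑ i, j (A, i) ^ 2 / m (A, i) :=
    Finset.sum_nonneg fun i _ => div_nonneg (sq_nonneg _) (hm _)
  have hb : 0 ≤ bar m A := Finset.sum_nonneg fun i _ => hm _
  rcases eq_or_lt_of_le hb with h | h
  · rw [← h, div_zero, sub_zero]
    exact h0
  · rw [sub_nonneg, div_le_iff₀ h]
    exact h1

theorem Gp_nonneg (k j : α × X → ℝ) (A : α) : 0 ≤ Gp r k j A := by
  unfold Gp
  refine Finset.sum_nonneg fun C _ => ?_
  split_ifs
  · rw [sub_nonneg]
    unfold mu bar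
    refine le_min ?_ ?_
    · rw [Finset.sum_mul_sum]
      exact Finset.sum_le_sum fun i _ => Finset.sum_le_sum fun l _ => min_le_left _ _
    · rw [mul_comm, Finset.sum_mul_sum]
      refine Finset.sum_le_sum fun i _ => Finset.sum_le_sum fun l _ => ?_
      rw [mul_comm (k (A, i))]
      exact min_le_right _ _
  · exact le_rfl

theorem Ohc_le (θ δ h : ℝ) (W m k j : α × X → ℝ) (hS : St θ δ h (rX r) W m k j) :
    Ohc r k j ≤ 5 / 4 * Oc r m k := by
  unfold Ohc Oc ns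
  rw [Finset.mul_sum]
  refine Finset.sum_le_sum fun A _ => ?_
  rw [Finset.mul_sum]
  refine Finset.sum_le_sum fun C _ => ?_
  split_ifs
  · simp
  · rw [Finset.mul_sum]
    refine Finset.sum_le_sum fun i _ => ?_
    refine le_trans (min_le_right _ _) ?_
    have h1 := hS.j5 (C, i)
    have h2 := hS.k0 (A, i)
    nlinarith

theorem Oc_nonneg (m k : α × X → ℝ) (hm : ∀ p, 0 ≤ m p) (hk : ∀ p, 0 ≤ k p) : 0 ≤ Oc r m k := by
  unfold Oc ns
  refine Finset.sum_nonneg fun A _ => Finset.sum_nonneg fun C _ => ?_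
  split_ifs
  · exact le_rfl
  · exact Finset.sum_nonneg fun i _ => mul_nonneg (hk _) (hm _)

end BMV
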