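import Pool.Agent.BMV.L2
import Pool.Agent.BMV.QG

/-!
# BMV/L2b: upper bound for the merged `Xi`

PROOF.  As in `L2` (same computation, exact formula): if `bar m A = 0` all is `0` (`XiA = 0`, and the right side is `≥ 0`:
`Gp_nonneg`, `Qt_nonneg`).  Otherwise
`XiA(bar) = 2 ∑_i k(A,i) ∑_C [¬ r A C] m(C,i) - 2 h ∑_i ∑_C [¬ r A C] mu k j (A,i) (C,i) + 2 h Gp + 16 h Qt`; drop the
nonpositive term.  `sum_Xi_le`: sum over `A`; `∑_A ∑_i k(A,i) ∑_C [¬ r A C] m(C,i) = Oc r m k` (definition, exchange of
sums).
-/

namespace BMV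

open Finset BMP

variable {α X : Type} [Fintype α] [Fintype X] [DecidableEq X] (r : α → α → Prop) [DecidableRel r]

private theorem sum_rX_l2b (F : α × X → ℝ) (A : α) (i : X) :
    (∑ C, if rX r (A, i) C then F C else 0) =
      (∑ C, if r A C then ∑ l, F (C, l) else 0) + ∑ C, if r A C then 0 else F (C, i) := by
  rw [Fintype.sum_prod_type, ← Finset.sum_add_distrib]
  refine Finset.sum_congr rfl fun C _ => ?_
  by_cases h : r A C
  · rw [if_pos h, if_pos h, add_zero]
    refine Finset.sum_congr rfl fun l _ => ?_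
    rw [if_pos (show rX r (A, i) (C, l) from Or.inl h)]
  · rw [if_neg h, if_neg h, zero_add]
    rw [Finset.sum_eq_single i]
    · rw [if_pos (show rX r (A, i) (C, i) from Or.inr rfl)]
    · intro l _ hl
      rw [if_neg]
      rintro (h' | h')
      · exact h h'
      · exact hl h'.symm
    · intro hi
      exact absurd (Finset.mem_univ i) hi

theorem Xi_le (θ δ h : ℝ) (hθ : 0 < θ) (hh : 0 ≤ h) (W m k j : α × X → ℝ)
    (hS : St θ δ h (rX r) W m k j) (A : α) :
    XiA θ h r (bar m) (bar k) (bar j) A ≤
      2 * ∑ i, k (A, i) * (∑ C, if r A C then 0 else m (C, i)) + 2 * h * Gp r k j A + 16 * h * Qt m j A := by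
  by_cases hA : bar m A = 0
  · have hm : ∀ i, m (A, i) = 0 := bar_zero m hS.m0 A hA
    have hk : bar k A = 0 := Finset.sum_eq_zero fun i _ => (kz r θ δ h hθ W m k j hS (A, i) (hm i)).1
    have hj : bar j A = 0 := Finset.sum_eq_zero fun i _ => (kz r θ δ h hθ W m k j hS (A, i) (hm i)).2
    unfold XiA
    have h1 : (∑ C, if r A C then mu (bar k) (bar j) A C else 0) = 0 :=
      Finset.sum_eq_zero fun C _ => by
        unfold mu
        rw [hk, hj]
        simp
    have h2 : bar m A - θ * bar k A - 2 * bar k A * nb r (bar m) A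
        + 2 * h * (∑ C, if r A C then mu (bar k) (bar j) A C else 0)
        - 16 * h * (bar j A * (bar j A - bar m A) / bar m A) = 0 := by
      rw [h1, hA, hk, hj]
      simp
    rw [h2]
    have h3 : 0 ≤ ∑ i, k (A, i) * ∑ C, (if r A C then 0 else m (C, i)) := Finset.sum_nonneg fun i _ =>
      mul_nonneg (hS.k0 _) (Finset.sum_nonneg fun C _ => by
        split_ifs
        · exact le_rfl
        · exact hS.m0 _)
    have hG := Gp_nonneg r k j A
    have hQ : 0 ≤ Qt m j A := Qt_nonneg m j hS.m0 (fun p hp => (kz r θ δ h hθ W m k j hS p hp).2) A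
    positivity
  · set T1 : ℝ := ∑ i, k (A, i) * ∑ C, if r A C then 0 else m (C, i) with hT1
    set T2 : ℝ := ∑ i, ∑ C, if r A C then 0 else mu k j (A, i) (C, i) with hT2
    have e1 : ∑ i, k (A, i) * nb (rX r) m (A, i) = bar k A * nb r (bar m) A + T1 := by
      have : ∀ i, k (A, i) * nb (rX r) m (A, i) =
          k (A, i) * nb r (bar m) A + k (A, i) * ∑ C, if r A C then 0 else m (C, i) := by
        intro i
        rw [← mul_add]
        congr 1
        exact sum_rX_l2b r m A i
      rw [Finset.sum_congr rfl fun i _ => this i, Finset.sum_add_distrib, ← Finset.sum_mul, hT1]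
      rfl
    have e2 : (∑ C, if r A C then mu (bar k) (bar j) A C else 0) -
        ∑ i, (∑ C, if rX r (A, i) C then mu k j (A, i) C else 0) = Gp r k j A - T2 := by
      have h1 : ∑ i, (∑ C, if rX r (A, i) C then mu k j (A, i) C else 0) =
          (∑ i, ∑ C, if r A C then ∑ l, mu k j (A, i) (C, l) else 0) + T2 := by
        rw [hT2, ← Finset.sum_add_distrib]
        exact Finset.sum_congr rfl fun i _ => sum_rX_l2b r (mu k j (A, i)) A i
      have h2 : (∑ i, ∑ C, if r A C then ∑ l, mu k j (A, i) (C, l) else 0) =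
          ∑ C, if r A C then ∑ i, ∑ l, mu k j (A, i) (C, l) else 0 := by
        rw [Finset.sum_comm]
        refine Finset.sum_congr rfl fun C _ => ?_
        split_ifs
        · rfl
        · exact Finset.sum_const_zero
      have h3 : Gp r k j A = (∑ C, if r A C then mu (bar k) (bar j) A C else 0) -
          ∑ C, if r A C then ∑ i, ∑ l, mu k j (A, i) (C, l) else 0 := by
        unfold Gp
        rw [← Finset.sum_sub_distrib]
        refine Finset.sum_congr rfl fun C _ => ?_
        split_ifs
        · rfl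
        · exact (sub_zero _).symm
      rw [h1, h2, h3]
      ring
    have e3 : ∑ i, j (A, i) * (j (A, i) - m (A, i)) / m (A, i) =
        Qt m j A + bar j A * (bar j A - bar m A) / bar m A := by
      have h1 : ∀ i, j (A, i) * (j (A, i) - m (A, i)) / m (A, i) = j (A, i) ^ 2 / m (A, i) - j (A, i) := by
        intro i
        by_cases h0 : m (A, i) = 0
        · rw [h0, (kz r θ δ h hθ W m k j hS (A, i) h0).2]
          simp
        · field_simp
      have h2 : bar j A * (bar j A - bar m A) / bar m A = bar j A ^ 2 / bar m A - bar j A := by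
        field_simp
      rw [Finset.sum_congr rfl fun i _ => h1 i, Finset.sum_sub_distrib, h2]
      unfold Qt
      have h3 : ∑ i, j (A, i) = bar j A := rfl
      rw [h3]
      ring
    have e0 : ∑ i, XiA θ h (rX r) m k j (A, i) = 0 := Finset.sum_eq_zero fun i _ => hS.xi (A, i)
    have e4 : ∑ i, XiA θ h (rX r) m k j (A, i) =
        bar m A - θ * bar k A - 2 * ∑ i, k (A, i) * nb (rX r) m (A, i)
          + 2 * h * ∑ i, (∑ C, if rX r (A, i) C then mu k j (A, i) C else 0)
          - 16 * h * ∑ i, j (A, i) * (j (A, i) - m (A, i)) / m (A, i) := by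
      unfold XiA bar
      rw [Finset.sum_sub_distrib, Finset.sum_add_distrib, Finset.sum_sub_distrib,
        Finset.sum_sub_distrib, Finset.mul_sum, Finset.mul_sum, Finset.mul_sum, Finset.mul_sum]
      congr 3
      refine Finset.sum_congr rfl fun i _ => ?_
      ring
    have hT2' : 0 ≤ T2 := Finset.sum_nonneg fun i _ => Finset.sum_nonneg fun C _ => by
      split_ifs
      · exact le_rfl
      · exact mu_nonneg k j hS.k0 (fun p => le_trans (hS.m0 p) (hS.mj p)) _ _
    have hG := Gp_nonneg r k j A
    have hQ : 0 ≤ Qt m j A := Qt_nonneg m j hS.m0 (fun p hp => (kz r θ δ h hθ W m k j hS p hp).2) A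
    have hfin : XiA θ h r (bar m) (bar k) (bar j) A =
        2 * T1 + 2 * h * (Gp r k j A - T2) + 16 * h * Qt m j A := by
      have : XiA θ h r (bar m) (bar k) (bar j) A - 0 = _ := rfl
      rw [← e2]
      rw [e4, e1, e3] at e0
      unfold XiA
      linarith
    rw [hfin]
    have h1 : 0 ≤ h * T2 := mul_nonneg hh hT2'
    linarith

theorem sum_Xi_le (θ δ h : ℝ) (hθ : 0 < θ) (hh : 0 ≤ h) (W m k j : α × X → ℝ)
    (hS : St θ δ h (rX r) W m k j) :
    ∑ A, XiA θ h r (bar m) (bar k) (bar j) A ≤
      2 * Oc r m k + 2 * h * ∑ A, Gp r k j A + 16 * h * ∑ A, Qt m j A := by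
  have h1 := Finset.sum_le_sum fun A (_ : A ∈ (Finset.univ : Finset α)) => Xi_le r θ δ h hθ hh W m k j hS A
  rw [Finset.sum_add_distrib, Finset.sum_add_distrib, ← Finset.mul_sum, ← Finset.mul_sum,
    ← Finset.mul_sum] at h1
  have h2 : ∑ A, ∑ i, k (A, i) * (∑ C, if r A C then 0 else m (C, i)) = Oc r m k := by
    unfold Oc ns
    refine Finset.sum_congr rfl fun A _ => ?_
    have h3 : ∀ i, k (A, i) * (∑ C, if r A C then 0 else m (C, i)) =
        ∑ C, if r A C then 0 else k (A, i) * m (C, i) := by
      intro i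
      rw [Finset.mul_sum]
      refine Finset.sum_congr rfl fun C _ => ?_
      split_ifs
      · exact mul_zero _
      · rfl
    rw [Finset.sum_congr rfl fun i _ => h3 i, Finset.sum_comm]
    refine Finset.sum_congr rfl fun C _ => ?_
    split_ifs
    · exact Finset.sum_const_zero
    · rfl
  rwa [h2] at h1

end BMV
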