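import Pool.Agent.BMV.BarF

/-!
# BMV/Merge: the merging identity

PROOF.  `m = 0` implies `k = j = 0` (`kz`).
Local terms, for each `A` (sum over `i`; `log (a/b) = - log (b/a)` always):
 * `∑_i m (log (W/m) + 1) = bar m (log (bar W/bar m) + 1) - KLt` : expand `KLt`.
 * `∑_i m log (θ k/m) = bar m log (θ bar k/bar m) - Jt` : where `m_i > 0`, `k_i > 0` and
   `log (θ k/m) = log θ + log (k/m)`; if `bar m > 0` also `bar k > 0`; if `bar m = 0` everything is `0`.
 * `∑_i (j-m)²/m = ∑ j²/m - 2 bar j + bar m` (where `m_i = 0` also `j_i = 0`), and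
   `(bar j - bar m)²/bar m = bar j²/bar m - 2 bar j + bar m`; the difference is `Qt`.
Pairs: `rX r (A,i) (C,l) ↔ r A C ∨ i = l`, so
 `hs (rX r) f = ∑_{A,C} (if r A C then ∑_{i,l} f (A,i) (C,l) else ∑_i f (A,i) (C,i))`.
 For `f = k m` the first part is `hs r (bar k bar m)`, the second `Oc`; for `f = mu k j` the first part is
 `hs r (mu (bar k) (bar j)) - ∑ Gp`, the second `Ohc`.
-/

namespace BMV

open Finset BMP

variable {α X : Type} [Fintype α] [Fintype X] [DecidableEq X] (r : α → α → Prop) [DecidableRel r]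

theorem hs_rX (f : α × X → α × X → ℝ) :
    hs (rX r) f = ∑ A, ∑ C, if r A C then ∑ i, ∑ l, f (A, i) (C, l) else ∑ i, f (A, i) (C, i) := by
  unfold hs
  rw [Fintype.sum_prod_type]
  refine Finset.sum_congr rfl fun A _ => ?_
  have h1 : ∀ i, (∑ q : α × X, if rX r (A, i) q then f (A, i) q else 0) =
      ∑ C, ∑ l, if rX r (A, i) (C, l) then f (A, i) (C, l) else 0 := fun i =>
    Fintype.sum_prod_type _
  rw [Finset.sum_congr rfl fun i _ => h1 i, Finset.sum_comm]
  refine Finset.sum_congr rfl fun C _ => ?_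
  by_cases hr : r A C
  · rw [if_pos hr]
    refine Finset.sum_congr rfl fun i _ => Finset.sum_congr rfl fun l _ => ?_
    rw [if_pos (show rX r (A, i) (C, l) from Or.inl hr)]
  · rw [if_neg hr]
    refine Finset.sum_congr rfl fun i _ => ?_
    have h2 : ∀ l, (if rX r (A, i) (C, l) then f (A, i) (C, l) else 0) =
        if i = l then f (A, i) (C, l) else 0 := by
      intro l
      by_cases hl : i = l
      · rw [if_pos hl, if_pos (show rX r (A, i) (C, l) from Or.inr hl)]
      · rw [if_neg hl, if_neg (show ¬ rX r (A, i) (C, l) from fun h => h.elim hr hl)]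
    rw [Finset.sum_congr rfl fun l _ => h2 l, Finset.sum_ite_eq, if_pos (Finset.mem_univ _)]

private theorem log_flip (a b : ℝ) : Real.log (a / b) = -Real.log (b / a) := by
  rw [← Real.log_inv, inv_div]

/-- the local part -/
private theorem merge_loc (θ δ h : ℝ) (hθ : 0 < θ) (W m k j : α × X → ℝ)
    (hS : St θ δ h (rX r) W m k j) (A : α) :
    ∑ i, lc θ δ h (W (A, i)) (m (A, i)) (k (A, i)) (j (A, i)) =
      lc θ δ h (bar W A) (bar m A) (bar k A) (bar j A) - KLt W m A - δ * Jt m k A
        - 8 * h * δ * Qt m j A := by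
  have hz := kz r θ δ h hθ W m k j hS
  have hM0 : bar m A = 0 → bar j A = 0 := by
    intro hM
    unfold bar
    refine Finset.sum_eq_zero fun i _ => ?_
    exact (hz (A, i) (bar_zero m hS.m0 A hM i)).2
  -- entropy
  have e1 : ∑ i, m (A, i) * Real.log (W (A, i) / m (A, i)) =
      bar m A * Real.log (bar W A / bar m A) - KLt W m A := by
    have h1 : KLt W m A = ∑ i, (-(m (A, i) * Real.log (W (A, i) / m (A, i))) +
        m (A, i) * Real.log (bar W A / bar m A)) := by
      unfold KLt
      refine Finset.sum_congr rfl fun i _ => ?_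
      rw [log_flip (m (A, i)), log_flip (bar m A)]
      ring
    rw [h1, Finset.sum_add_distrib, Finset.sum_neg_distrib, ← Finset.sum_mul]
    unfold bar
    ring
  -- logarithms of k
  have e2 : ∑ i, m (A, i) * Real.log (θ * k (A, i) / m (A, i)) =
      bar m A * Real.log (θ * bar k A / bar m A) - Jt m k A := by
    have h1 : ∀ i, m (A, i) * Real.log (θ * k (A, i) / m (A, i)) =
        m (A, i) * Real.log θ + m (A, i) * Real.log (k (A, i) / m (A, i)) := by
      intro i
      rcases (hS.m0 (A, i)).eq_or_lt with h0 | h0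
      · rw [← h0]; ring
      · have hk := hS.kp (A, i) h0
        rw [mul_div_assoc, Real.log_mul hθ.ne' (by positivity)]
        ring
    have h2 : bar m A * Real.log (θ * bar k A / bar m A) =
        bar m A * Real.log θ + bar m A * Real.log (bar k A / bar m A) := by
      rcases (bar_m0 m hS.m0 A).eq_or_lt with h0 | h0
      · rw [← h0]; ring
      · have hk := bar_kp r θ δ h W m k j hS A h0
        rw [mul_div_assoc, Real.log_mul hθ.ne' (by positivity)]
        ring
    have h3 : Jt m k A = bar m A * Real.log (bar k A / bar m A) -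
        ∑ i, m (A, i) * Real.log (k (A, i) / m (A, i)) := by
      unfold Jt
      rw [Finset.sum_congr rfl fun i _ => mul_sub (m (A, i)) _ _, Finset.sum_sub_distrib,
        ← Finset.sum_mul]
      rfl
    rw [Finset.sum_congr rfl fun i _ => h1 i, Finset.sum_add_distrib, ← Finset.sum_mul, h2, h3]
    unfold bar
    ring
  -- quadratic terms
  have e3 : ∑ i, (j (A, i) - m (A, i)) ^ 2 / m (A, i) =
      (bar j A - bar m A) ^ 2 / bar m A + Qt m j A := by
    have h1 : ∀ i, (j (A, i) - m (A, i)) ^ 2 / m (A, i) =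
        j (A, i) ^ 2 / m (A, i) - 2 * j (A, i) + m (A, i) := by
      intro i
      rcases (hS.m0 (A, i)).eq_or_lt with h0 | h0
      · have hj := (hz (A, i) h0.symm).2
        rw [← h0, hj]; simp
      · field_simp
        ring
    have h2 : (bar j A - bar m A) ^ 2 / bar m A =
        bar j A ^ 2 / bar m A - 2 * bar j A + bar m A := by
      rcases (bar_m0 m hS.m0 A).eq_or_lt with h0 | h0
      · rw [← h0, hM0 h0.symm]; simp
      · field_simp
        ring
    rw [Finset.sum_congr rfl fun i _ => h1 i, h2, Finset.sum_add_distrib,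
      Finset.sum_sub_distrib, ← Finset.mul_sum]
    unfold Qt bar
    ring
  have e4 : ∑ i, m (A, i) = bar m A := rfl
  have e5 : ∑ i, k (A, i) = bar k A := rfl
  unfold lc
  have h1 : ∀ i, m (A, i) * (Real.log (W (A, i) / m (A, i)) + 1) +
      δ * (m (A, i) * Real.log (θ * k (A, i) / m (A, i)) + m (A, i) - θ * k (A, i) -
        8 * h * ((j (A, i) - m (A, i)) ^ 2 / m (A, i))) =
      m (A, i) * Real.log (W (A, i) / m (A, i)) + (1 + δ) * m (A, i) +
        δ * (m (A, i) * Real.log (θ * k (A, i) / m (A, i))) - δ * θ * k (A, i) -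
        δ * (8 * h) * ((j (A, i) - m (A, i)) ^ 2 / m (A, i)) := by
    intro i
    ring
  rw [Finset.sum_congr rfl fun i _ => h1 i, Finset.sum_sub_distrib, Finset.sum_sub_distrib,
    Finset.sum_add_distrib, Finset.sum_add_distrib, ← Finset.mul_sum, ← Finset.mul_sum,
    ← Finset.mul_sum, ← Finset.mul_sum, e1, e2, e3, e4, e5]
  ring

theorem merge (θ δ h : ℝ) (hθ : 0 < θ) (W m k j : α × X → ℝ) (hS : St θ δ h (rX r) W m k j) :
    Psi θ δ h (rX r) W m k j = Psi θ δ h r (bar W) (bar m) (bar k) (bar j) - ∑ A, KLt W m A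
      - δ * ∑ A, Jt m k A - 8 * h * δ * ∑ A, Qt m j A - 2 * δ * Oc r m k - h * δ * ∑ A, Gp r k j A
      + h * δ * Ohc r k j := by
  have e1 : ∑ B, lc θ δ h (W B) (m B) (k B) (j B) =
      ∑ A, lc θ δ h (bar W A) (bar m A) (bar k A) (bar j A) - ∑ A, KLt W m A
        - δ * ∑ A, Jt m k A - 8 * h * δ * ∑ A, Qt m j A := by
    rw [Fintype.sum_prod_type, Finset.sum_congr rfl fun A _ => merge_loc r θ δ h hθ W m k j hS A,
      Finset.sum_sub_distrib, Finset.sum_sub_distrib, Finset.sum_sub_distrib, ← Finset.mul_sum,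
      ← Finset.mul_sum]
  have e2 : hs (rX r) (fun B C => k B * m C) =
      hs r (fun A C => bar k A * bar m C) + Oc r m k := by
    rw [hs_rX]
    unfold Oc hs ns
    rw [← Finset.sum_add_distrib]
    refine Finset.sum_congr rfl fun A _ => ?_
    rw [← Finset.sum_add_distrib]
    refine Finset.sum_congr rfl fun C _ => ?_
    split_ifs
    · unfold bar
      beta_reduce
      rw [Finset.sum_mul_sum, add_zero]
    · rw [zero_add]
  have e3 : hs (rX r) (mu k j) = hs r (mu (bar k) (bar j)) - ∑ A, Gp r k j A + Ohc r k j := by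
    rw [hs_rX]
    unfold Ohc hs ns Gp
    rw [← Finset.sum_sub_distrib, ← Finset.sum_add_distrib]
    refine Finset.sum_congr rfl fun A _ => ?_
    rw [← Finset.sum_sub_distrib, ← Finset.sum_add_distrib]
    refine Finset.sum_congr rfl fun C _ => ?_
    split_ifs
    · ring
    · ring
  unfold Psi
  rw [e1, e2, e3]
  ring

end BMV
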