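import Pool.Agent.BMV.Basic

/-!
# BMV/PsiLe: upper bound for the free energy

PROOF.
`lc_le`: case `m = 0`: `lc = - δ θ k ≤ 0 ≤ W`.  Case `m > 0`: `m (log (W/m) + 1) ≤ m * (W/m) = W`
(`Real.log_le_sub_one_of_pos`), and with `y = θ k / m > 0`, `m log y + m - θ k = m (log y + 1 - y) ≤ 0`;
the last term is `≤ 0`.
`pairs_le`: pointwise, `mu k j B C ≤ j C * k B ≤ 2 k B m C`, so
`hs (mu) ≤ 2 hs (k B m C)` and `h * δ * hs mu ≤ 2 h δ hs(k m) ≤ 2 δ hs(k m)`.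
`Psi_le`: sum.  `Psi_le_GG`: `le_csSup` with the bound `Psi_le`.
`GG_eq`: the set of values has the maximum `Psi ... m k j` (`IsGreatest.csSup_eq`).
`GG_nonneg`: the zero state is admissible and has `Psi = 0`.
-/

namespace BMV

open Finset BMP

theorem lc_le (θ δ h W m k j : ℝ) (hθ : 0 < θ) (hδ : 0 ≤ δ) (hh : 0 ≤ h) (hW : 0 ≤ W) (hm : 0 ≤ m)
    (hk : 0 ≤ k) (hWp : 0 < m → 0 < W) (hkp : 0 < m → 0 < k) : lc θ δ h W m k j ≤ W := by
  unfold lc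
  rcases hm.eq_or_lt with h0 | hp
  · rw [← h0]
    simp only [zero_mul, div_zero, mul_zero, sub_zero, zero_add]
    have h1 : 0 ≤ δ * (θ * k) := mul_nonneg hδ (mul_nonneg hθ.le hk)
    have h2 : δ * (0 - θ * k) = - (δ * (θ * k)) := by ring
    rw [h2]
    linarith
  · have hWp' := hWp hp
    have hkp' := hkp hp
    have h1 : m * (Real.log (W / m) + 1) ≤ W := by
      have h2 := Real.log_le_sub_one_of_pos (div_pos hWp' hp)
      have h3 : m * (Real.log (W / m) + 1) ≤ m * (W / m) :=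
        mul_le_mul_of_nonneg_left (by linarith) hp.le
      have h4 : m * (W / m) = W := by field_simp
      linarith
    have h5 : m * Real.log (θ * k / m) + m - θ * k ≤ 0 := by
      have h2 := Real.log_le_sub_one_of_pos (div_pos (mul_pos hθ hkp') hp)
      have h3 : m * Real.log (θ * k / m) ≤ m * (θ * k / m - 1) :=
        mul_le_mul_of_nonneg_left h2 hp.le
      have h4 : m * (θ * k / m - 1) = θ * k - m := by field_simp
      linarith
    have h6 : 0 ≤ 8 * h * ((j - m) ^ 2 / m) :=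
      mul_nonneg (mul_nonneg (by norm_num) hh) (div_nonneg (sq_nonneg _) hp.le)
    have h7 : δ * (m * Real.log (θ * k / m) + m - θ * k - 8 * h * ((j - m) ^ 2 / m)) ≤ 0 :=
      mul_nonpos_of_nonneg_of_nonpos hδ (by linarith)
    linarith

variable {β : Type} [Fintype β] (r : β → β → Prop) [DecidableRel r]

theorem pairs_le (δ h : ℝ) (hδ : 0 ≤ δ) (hh : 0 ≤ h) (hh1 : h ≤ 1) (m k j : β → ℝ)
    (hm : ∀ B, 0 ≤ m B) (hk : ∀ B, 0 ≤ k B) (hjm : ∀ B, j B ≤ 2 * m B) :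
    - 2 * δ * hs r (fun B C => k B * m C) + h * δ * hs r (mu k j) ≤ 0 := by
  have h1 : hs r (mu k j) ≤ 2 * hs r (fun B C => k B * m C) := by
    rw [← hs_mul_left]
    refine hs_mono r _ _ fun B C _ => ?_
    refine (mu_le_right k j B C).trans ?_
    have h2 : j C * k B ≤ 2 * m C * k B := mul_le_mul_of_nonneg_right (hjm C) (hk B)
    linarith
  have h2 : 0 ≤ hs r (fun B C => k B * m C) := hs_nonneg r _ fun B C _ => mul_nonneg (hk B) (hm C)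
  have h3 : h * δ * hs r (mu k j) ≤ h * δ * (2 * hs r (fun B C => k B * m C)) :=
    mul_le_mul_of_nonneg_left h1 (mul_nonneg hh hδ)
  have h4 : h * (δ * (2 * hs r (fun B C => k B * m C))) ≤ 1 * (δ * (2 * hs r (fun B C => k B * m C))) :=
    mul_le_mul_of_nonneg_right hh1 (mul_nonneg hδ (mul_nonneg (by norm_num) h2))
  linarith

theorem Psi_le (θ δ h : ℝ) (hθ : 0 < θ) (hδ : 0 ≤ δ) (hh : 0 ≤ h) (hh1 : h ≤ 1) (W m k j : β → ℝ)
    (hW : ∀ B, 0 ≤ W B) (hd : Dom W m k j) : Psi θ δ h r W m k j ≤ ∑ B, W B := by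
  have h1 := pairs_le r δ h hδ hh hh1 m k j hd.m0 hd.k0 hd.jm
  have h2 : ∑ B, lc θ δ h (W B) (m B) (k B) (j B) ≤ ∑ B, W B :=
    Finset.sum_le_sum fun B _ => lc_le θ δ h (W B) (m B) (k B) (j B) hθ hδ hh (hW B) (hd.m0 B)
      (hd.k0 B) (hd.Wp B) (hd.kp B)
  unfold Psi
  linarith

theorem Psi_le_GG (θ δ h : ℝ) (hθ : 0 < θ) (hδ : 0 ≤ δ) (hh : 0 ≤ h) (hh1 : h ≤ 1) (W m k j : β → ℝ)
    (hW : ∀ B, 0 ≤ W B) (hd : Dom W m k j) : Psi θ δ h r W m k j ≤ GG θ δ h r W := by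
  unfold GG
  refine le_csSup ⟨∑ B, W B, ?_⟩ ⟨m, k, j, hd, rfl⟩
  rintro x ⟨m', k', j', hd', rfl⟩
  exact Psi_le r θ δ h hθ hδ hh hh1 W m' k' j' hW hd'

theorem GG_eq (θ δ h : ℝ) (W m k j : β → ℝ) (hx : IsMx θ δ h r W m k j) :
    GG θ δ h r W = Psi θ δ h r W m k j := by
  unfold GG
  refine IsGreatest.csSup_eq ⟨⟨m, k, j, hx.dom, rfl⟩, ?_⟩
  rintro x ⟨m', k', j', hd', rfl⟩
  exact hx.mx m' k' j' hd'

theorem GG_nonneg (θ δ h : ℝ) (hθ : 0 < θ) (hδ : 0 ≤ δ) (hh : 0 ≤ h) (hh1 : h ≤ 1) (W : β → ℝ)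
    (hW : ∀ B, 0 ≤ W B) : 0 ≤ GG θ δ h r W := by
  have hd : Dom W (fun _ => 0) (fun _ => 0) (fun _ => 0) :=
    ⟨fun _ => le_rfl, fun _ => le_rfl, fun _ => le_rfl, fun _ => by norm_num,
      fun _ h' => absurd h' (lt_irrefl _), fun _ h' => absurd h' (lt_irrefl _)⟩
  have h1 := Psi_le_GG r θ δ h hθ hδ hh hh1 W _ _ _ hW hd
  have h2 : Psi θ δ h r W (fun _ => 0) (fun _ => 0) (fun _ => 0) = 0 := by
    unfold Psi lc hs mu
    simp
  rw [h2] at h1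
  exact h1

end BMV
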