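import Pool.Agent.BMV.Basic
import Pool.Agent.BMP.RoundA
import Pool.Agent.BMV.GLawA

/-!
# BMV/Rnd: independent rounding, two- and four-point functions

PROOF.  As in `BMP.corr_of_avg` (file `Pool/Agent/BMP/RoundA.lean`; copy its private lemma `sum_prod`): the weights
`w s = Ex_e ∏_i (1 + sg (s i) p_i(e))/2`.  For fixed `e` and distinct indices,
`∑_s ∏_i (1 + sg (s i) p_i)/2 * (sg (s i) sg (s j) sg (s k) sg (s l)) = p_i p_j p_k p_l`
(the product over the coordinates factorises; each coordinate outside `{i,j,k,l}` gives `1`, the coordinate `i`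
gives `((1 + p_i) - (1 - p_i))/2 = p_i`).  It is convenient to prove first, for a Finset `S` of indices,
`∑_s (∏_i (1 + sg (s i) p_i)/2) * ∏_{i ∈ S} sg (s i) = ∏_{i ∈ S} p_i` and to take `S = {i,j}`, `{i,j,k,l}`.
-/

namespace BMV

open Finset BMP

variable {X : Type} [Fintype X] [DecidableEq X]

private theorem rnd_prod2 (f : X → ℝ) {i j : X} (hij : i ≠ j) :
    ∏ a ∈ ({i, j} : Finset X), f a = f i * f j := Finset.prod_pair hij

private theorem rnd_prod4 (f : X → ℝ) {i j k l : X} (hij : i ≠ j) (hik : i ≠ k) (hil : i ≠ l)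
    (hjk : j ≠ k) (hjl : j ≠ l) (hkl : k ≠ l) :
    ∏ a ∈ ({i, j, k, l} : Finset X), f a = f i * f j * (f k * f l) := by
  rw [Finset.prod_insert (by simp [hij, hik, hil]), Finset.prod_insert (by simp [hjk, hjl]),
    Finset.prod_pair hkl]
  ring

theorem rnd {T : Type} [Fintype T] [DecidableEq T] (p : (T → Bool) → X → ℝ) (hp : ∀ e i, |p e i| ≤ 1) :
    ∃ w : (X → Bool) → ℝ, (∀ s, 0 ≤ w s) ∧ ∑ s, w s = 1 ∧
      (∀ i j, i ≠ j → Ew w (fun s => sg (s i) * sg (s j)) = Ex (fun e => p e i * p e j)) ∧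
      (∀ i j k l, i ≠ j → i ≠ k → i ≠ l → j ≠ k → j ≠ l → k ≠ l →
        Ew w (fun s => sg (s i) * sg (s j) * (sg (s k) * sg (s l)))
          = Ex (fun e => p e i * p e j * (p e k * p e l))) := by
  obtain ⟨w, h0, h1, h2⟩ := law_of_avg p hp
  refine ⟨w, h0, h1, fun i j hij => ?_, fun i j k l hij hik hil hjk hjl hkl => ?_⟩
  · have h3 := h2 {i, j}
    have e1 : (fun s : X → Bool => ∏ a ∈ ({i, j} : Finset X), sg (s a)) =
        fun s => sg (s i) * sg (s j) := funext fun s => rnd_prod2 (fun a => sg (s a)) hij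
    have e2 : (fun e : T → Bool => ∏ a ∈ ({i, j} : Finset X), p e a) =
        fun e => p e i * p e j := funext fun e => rnd_prod2 (p e) hij
    rw [e1, e2] at h3
    exact h3
  · have h3 := h2 {i, j, k, l}
    have e1 : (fun s : X → Bool => ∏ a ∈ ({i, j, k, l} : Finset X), sg (s a)) =
        fun s => sg (s i) * sg (s j) * (sg (s k) * sg (s l)) :=
      funext fun s => rnd_prod4 (fun a => sg (s a)) hij hik hil hjk hjl hkl
    have e2 : (fun e : T → Bool => ∏ a ∈ ({i, j, k, l} : Finset X), p e a) =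
        fun e => p e i * p e j * (p e k * p e l) :=
      funext fun e => rnd_prod4 (p e) hij hik hil hjk hjl hkl
    rw [e1, e2] at h3
    exact h3

end BMV
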