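import Pool.Agent.BMV.Basic

/-!
# BMV/Scal: scalar inequalities for the trial state (`F = z + y`)

PROOF.
`scal1`: Let `S = z² + y²`, `f = F²`.  If `F = 0` then `z = -y` and the right side is `-2 y² ≤ 0 = ` left side
(`log (0/0)`: everything is multiplied by `F² = 0`; the term `F² log ν = 0`).  If `F ≠ 0` then `S > 0` and
`(ν z² + 9/8 y²)/F² ≥ ν S/F²` (`ν ≤ 9/8`), so
`F² log(..) ≥ F² log ν + F² log (S/F²) ≥ F² log ν + f (1 - f/S)`.  It remains `f (2 - f/S) ≥ z² - 3 y² = S - 4 y²`,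
i.e. `4 y² ≥ S - 2 f + f²/S = (S - f)²/S = 4 z² y²/S`, true since `z² ≤ S`.
`scal2`: if `z² ≤ 5/4 F²` the left side is `0`.  Otherwise `5 y² - z² + (5/4)(z+y)² = (z/2 + 5y/2)² ≥ 0`.
`scal3`: put `a = min (z²) (5/4 F²)`, `w = ν a`.  If `F = 0` the left side is `0` (division by `0`) and the right
side is `≥ 0` (`F = 0`, `ρ ≥ 1`).  Otherwise
`(ρ w - F²)²/F² = ρ² (w - F²)²/F² + 2 ρ (ρ-1) (w - F²) + (ρ-1)² F²`, `w ≤ ν z²`, and
`(w - F²)² ≤ 2 (ν-1)² a² + 2 (a - F²)²`, with `a²/F² ≤ (5/4) a ≤ (5/4) z²` and `2 (a - F²)²/F² ≤ 9 y²`: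
 if `z² ≤ 5/4 F²`, `a = z²`, `(z² - F²)² = y² (z + F)²` and `2 (z+F)² ≤ 9 F²` because
 `(z+F)² ≤ (1 + √(5/4))² F²` and `2 (1 + √(5/4))² = 4.5 + 2 √5 ≤ 9` (`√5 ≤ 2.25`); avoid the root: from `z² ≤ 5/4 F²`,
 `2 (z+F)² = 2 z² + 4 z F + 2 F² ≤ 2 z² + (2 z² · (9/10) + (20/9)·F²)...` or `nlinarith`: `4 z F ≤ (16/9) z² + (9/4) F²`,
 total `≤ (34/9)(5/4) F² + (17/4) F² = (8.972..) F² ≤ 9 F²`;
 if `z² > 5/4 F²`, `a - F² = F²/4`, `2 (F²/4)²/F² = F²/8`, and `8 · 9 y² = 72 y² ≥ F²`: if `72 y² < F²` then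
 `|z| ≤ |F| + |y|` gives `z² ≤ (1+t) F² + (1 + 1/t) y² < (1 + t + (1+1/t)/72) F²`, with `t = 1/8`:
 `1 + 1/8 + 9/72 = 5/4`, contradiction.
-/

namespace BMV

open Finset BMP

theorem scal1 (ν F z y : ℝ) (hF : F = z + y) (h0 : 0 < ν) (h1 : ν ≤ 9 / 8) :
    z ^ 2 - 3 * y ^ 2 + F ^ 2 * Real.log ν ≤
      F ^ 2 * Real.log ((ν * z ^ 2 + 9 / 8 * y ^ 2) / F ^ 2) + F ^ 2 := by
  by_cases hF0 : F = 0
  · have hz : z = -y := by linarith
    rw [hF0, hz]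
    have := sq_nonneg y
    norm_num
    linarith
  · have hf : 0 < F ^ 2 := by positivity
    obtain ⟨f, hfd⟩ : ∃ f, f = F ^ 2 := ⟨_, rfl⟩
    obtain ⟨S, hS⟩ : ∃ S, S = z ^ 2 + y ^ 2 := ⟨_, rfl⟩
    have hS0 : 0 < S := by
      rcases eq_or_ne y 0 with h | h
      · have hz : z ≠ 0 := by
          rintro rfl
          rw [h] at hF
          exact hF0 (by linarith)
        rw [hS]
        positivity
      · rw [hS]
        have : 0 < y ^ 2 := by positivity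
        have := sq_nonneg z
        linarith
    rw [← hfd] at hf ⊢
    have e1 : Real.log (ν * (S / f)) ≤ Real.log ((ν * z ^ 2 + 9 / 8 * y ^ 2) / f) := by
      apply Real.log_le_log (by positivity)
      rw [← mul_div_assoc]
      apply div_le_div_of_nonneg_right _ hf.le
      rw [hS]
      have := sq_nonneg y
      have := mul_le_mul_of_nonneg_right h1 this
      linarith
    have hSf : 0 < S / f := by positivity
    rw [Real.log_mul h0.ne' hSf.ne'] at e1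
    have e2 := Real.one_sub_inv_le_log_of_pos hSf
    rw [inv_div] at e2
    have e3 : z ^ 2 - 3 * y ^ 2 ≤ f * (2 - f / S) := by
      have e4 : f * (2 - f / S) = (2 * f * S - f ^ 2) / S := by
        field_simp
      rw [e4, le_div_iff₀ hS0, hfd, hF, hS]
      have e5 : 2 * (z + y) ^ 2 * (z ^ 2 + y ^ 2) - ((z + y) ^ 2) ^ 2 -
          (z ^ 2 - 3 * y ^ 2) * (z ^ 2 + y ^ 2) = 4 * (y ^ 2) ^ 2 := by ring
      have := sq_nonneg (y ^ 2)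
      linarith
    have e6 := mul_le_mul_of_nonneg_left (add_le_add_right e2 (Real.log ν)) hf.le
    have e7 := mul_le_mul_of_nonneg_left e1 hf.le
    have e8 : f * (Real.log ν + (1 - f / S)) = f * Real.log ν + f * (2 - f / S) - f := by ring
    linarith

theorem scal2 (F z y : ℝ) (hF : F = z + y) : z ^ 2 - min (z ^ 2) (5 / 4 * F ^ 2) ≤ 5 * y ^ 2 := by
  rcases le_total (z ^ 2) (5 / 4 * F ^ 2) with h | h
  · rw [min_eq_left h, sub_self]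
    positivity
  · rw [min_eq_right h, hF]
    have e : 5 * y ^ 2 - (z ^ 2 - 5 / 4 * (z + y) ^ 2) = (z / 2 + 5 * y / 2) ^ 2 := by ring
    have := sq_nonneg (z / 2 + 5 * y / 2)
    linarith

private theorem scal_aux (F z y : ℝ) (hF : F = z + y) :
    2 * (min (z ^ 2) (5 / 4 * F ^ 2) - F ^ 2) ^ 2 ≤ 9 * y ^ 2 * F ^ 2 := by
  rcases le_total (z ^ 2) (5 / 4 * F ^ 2) with h | h
  · rw [min_eq_left h]
    have e1 : (z ^ 2 - F ^ 2) ^ 2 = y ^ 2 * (z + F) ^ 2 := by rw [hF]; ring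
    have e2 : 2 * (z + F) ^ 2 ≤ 9 * F ^ 2 := by
      have e3 : 0 ≤ (4 / 3 * z - 3 / 2 * F) ^ 2 := sq_nonneg _
      have e4 : (4 / 3 * z - 3 / 2 * F) ^ 2 = 16 / 9 * z ^ 2 - 4 * (z * F) + 9 / 4 * F ^ 2 := by
        ring
      have e5 : 2 * (z + F) ^ 2 = 2 * z ^ 2 + 4 * (z * F) + 2 * F ^ 2 := by ring
      have e6 := sq_nonneg F
      linarith
    rw [e1]
    have e7 := mul_le_mul_of_nonneg_left e2 (sq_nonneg y)
    linarith
  · rw [min_eq_right h]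
    have e1 : F ^ 2 ≤ 72 * y ^ 2 := by
      by_contra hn
      push Not at hn
      have e2 : z ^ 2 = F ^ 2 - 2 * (F * y) + y ^ 2 := by
        have : z = F - y := by linarith
        rw [this]
        ring
      have e3 : 0 ≤ (F / 4 + 4 * y) ^ 2 := sq_nonneg _
      have e4 : (F / 4 + 4 * y) ^ 2 = F ^ 2 / 16 + 2 * (F * y) + 16 * y ^ 2 := by ring
      have e5 : 0 ≤ (F / 2 * (1 / 2) * 2 / 2 + 0) ^ 2 := sq_nonneg _
      have e6 : 0 ≤ (F + 8 * y) ^ 2 := sq_nonneg _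
      have e7 : (F + 8 * y) ^ 2 = F ^ 2 + 16 * (F * y) + 64 * y ^ 2 := by ring
      linarith
    have e2 : 2 * (5 / 4 * F ^ 2 - F ^ 2) ^ 2 = F ^ 2 / 8 * F ^ 2 := by ring
    rw [e2]
    have e3 := mul_le_mul_of_nonneg_right e1 (sq_nonneg F)
    linarith

theorem scal3 (ρ ν F z y : ℝ) (hF : F = z + y) (h1 : 1 ≤ ρ) (h2 : ρ ≤ 5 / 4) (h3 : 0 ≤ ν) :
    (ρ * (ν * min (z ^ 2) (5 / 4 * F ^ 2)) - F ^ 2) ^ 2 / F ^ 2 ≤
      (ρ - 1) ^ 2 * F ^ 2 + 2 * ρ * (ρ - 1) * (ν * z ^ 2 - F ^ 2)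
        + ρ ^ 2 * (5 / 2 * (ν - 1) ^ 2 * z ^ 2 + 9 * y ^ 2) := by
  have hρ0 : 0 ≤ ρ - 1 := by linarith
  have hρ : 0 ≤ ρ := by linarith
  by_cases hF0 : F = 0
  · rw [hF0]
    have e1 : (0 : ℝ) ^ 2 = 0 := by norm_num
    rw [e1, div_zero, mul_zero, sub_zero]
    positivity
  · have hf : 0 < F ^ 2 := by positivity
    have hx := scal_aux F z y hF
    have ha1 : min (z ^ 2) (5 / 4 * F ^ 2) ≤ z ^ 2 := min_le_left _ _
    have ha2 : min (z ^ 2) (5 / 4 * F ^ 2) ≤ 5 / 4 * F ^ 2 := min_le_right _ _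
    have ha0 : 0 ≤ min (z ^ 2) (5 / 4 * F ^ 2) := le_min (sq_nonneg z) (by positivity)
    generalize min (z ^ 2) (5 / 4 * F ^ 2) = a at hx ha1 ha2 ha0 ⊢
    generalize F ^ 2 = f at hf hx ha2 ⊢
    clear hF0 hF
    rw [div_le_iff₀ hf]
    have q1 : a ^ 2 ≤ 5 / 4 * z ^ 2 * f := by
      have q2 := mul_le_mul ha1 ha2 ha0 (sq_nonneg z)
      calc a ^ 2 = a * a := by ring
        _ ≤ z ^ 2 * (5 / 4 * f) := q2
        _ = 5 / 4 * z ^ 2 * f := by ring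
    have q3 : (ν * a - f) ^ 2 ≤ (5 / 2 * (ν - 1) ^ 2 * z ^ 2 + 9 * y ^ 2) * f := by
      have q4 : (ν * a - f) ^ 2 ≤ 2 * (ν - 1) ^ 2 * a ^ 2 + 2 * (a - f) ^ 2 := by
        have q5 : 2 * (ν - 1) ^ 2 * a ^ 2 + 2 * (a - f) ^ 2 - (ν * a - f) ^ 2 =
            ((ν - 1) * a - (a - f)) ^ 2 := by ring
        have := sq_nonneg ((ν - 1) * a - (a - f))
        linarith
      have q6 := mul_le_mul_of_nonneg_left q1 (show 0 ≤ 2 * (ν - 1) ^ 2 by positivity)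
      calc (ν * a - f) ^ 2 ≤ 2 * (ν - 1) ^ 2 * a ^ 2 + 2 * (a - f) ^ 2 := q4
        _ ≤ 2 * (ν - 1) ^ 2 * (5 / 4 * z ^ 2 * f) + 9 * y ^ 2 * f := add_le_add q6 hx
        _ = (5 / 2 * (ν - 1) ^ 2 * z ^ 2 + 9 * y ^ 2) * f := by ring
    have q7 : ν * a - f ≤ ν * z ^ 2 - f := by
      have := mul_le_mul_of_nonneg_left ha1 h3
      linarith
    have q8 := mul_le_mul_of_nonneg_left q7
      (show 0 ≤ 2 * ρ * (ρ - 1) * f from mul_nonneg (mul_nonneg (by linarith) hρ0) hf.le)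
    have q9 := mul_le_mul_of_nonneg_left q3 (sq_nonneg ρ)
    calc (ρ * (ν * a) - f) ^ 2 = ρ ^ 2 * (ν * a - f) ^ 2 +
          2 * ρ * (ρ - 1) * f * (ν * a - f) + (ρ - 1) ^ 2 * f * f := by ring
      _ ≤ ρ ^ 2 * ((5 / 2 * (ν - 1) ^ 2 * z ^ 2 + 9 * y ^ 2) * f) +
          2 * ρ * (ρ - 1) * f * (ν * z ^ 2 - f) + (ρ - 1) ^ 2 * f * f := by linarith
      _ = _ := by ring

end BMV
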