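import Pool.Agent.BMV.Upd

/-!
# BMV/StA: first properties of a maximiser: `k = 0` where `m = 0`, `m ≤ j`, `k (θ + U) ≤ m`

PROOF.  Use `Psi_update` and `IsMx.mx` for the changed state (check `Dom`; `Function.update` at `B`, split on
`C = B`).
`mx_kz`: `m_B = 0`, then `j_B = 0` (`0 ≤ j ≤ 2m`).  Change `k_B` to `0`: the local term changes by `+ δ θ k_B`
(`lc θ δ h W 0 k 0 = - δ θ k`, with `0/0 = 0`), the pairs by `+ 2 δ k_B nbo m_B`, the min terms by `0`
(`min(0 * k_C, j_C k_B) = 0` since `j_C k_B ≥ 0`), the diagonal by `0`.  The total must be `≤ 0`, so `k_B = 0`.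
`mx_mj`: if `j_B < m_B` change `j_B` to `m_B` (allowed, `m ≤ 2m`): the local term gains
`8 h δ (j-m)²/m > 0`, all min terms and the diagonal are monotone in `j_B`.  Contradiction.
`mx_kU`: if `m_B = 0` use `mx_kz`.  Let `m_B > 0`, `ε ∈ (0,1)`, change `k_B` to `(1-ε) k_B`.
 local: `δ (m log(1-ε) + θ ε k)`; pairs: `+ 2 δ ε k (nbo m + [r B B] m) = 2 δ ε k U` with `U = nb r m B`;
 min terms: each `min(j_B k_C, j_C (1-ε) k_B) - min(j_B k_C, j_C k_B) ≥ - j_C ε k_B ≥ - 2 m_C ε k_B`, the diagonal
 loses `j_B ε k_B ≤ 2 m_B ε k_B`; so the change is at least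
 `δ (m log(1-ε) + ε k (θ + 2U - 4hU)) ≥ δ (m log(1-ε) + ε k (θ + U))` (`h ≤ 1/4`).  It is `≤ 0`, and
 `log(1-ε) ≥ - ε/(1-ε)` (`Real.one_sub_inv_le_log_of_pos`), so `(1-ε) k (θ + U) ≤ m` for all `ε ∈ (0,1)`; let
 `ε → 0` (or: if `k(θ+U) > m`, choose `ε` with `(1-ε) k(θ+U) > m`).
-/

namespace BMV

open Finset BMP

variable {β : Type} [Fintype β] (r : β → β → Prop) [DecidableRel r]

private lemma nbo_nonneg99 [DecidableEq β] (m : β → ℝ) (hm : ∀ B, 0 ≤ m B) (B : β) :
    0 ≤ nbo r m B := by
  unfold nbo
  refine sum_nonneg fun C _ => ?_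
  split_ifs
  · exact hm C
  · exact le_rfl

private lemma dom_k99 [DecidableEq β] {W m k j : β → ℝ} (hd : Dom W m k j) (B : β) {k1 : ℝ}
    (h0 : 0 ≤ k1) (h1 : 0 < m B → 0 < k1) : Dom W m (Function.update k B k1) j := by
  refine ⟨hd.m0, fun C => ?_, hd.j0, hd.jm, hd.Wp, fun C hC => ?_⟩
  · by_cases hCB : C = B
    · subst hCB
      rw [Function.update_self]
      exact h0
    · rw [Function.update_of_ne hCB]
      exact hd.k0 C
  · by_cases hCB : C = B
    · subst hCB
      rw [Function.update_self]
      exact h1 hC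
    · rw [Function.update_of_ne hCB]
      exact hd.kp C hC

private lemma dom_j99 [DecidableEq β] {W m k j : β → ℝ} (hd : Dom W m k j) (B : β) {j1 : ℝ}
    (h0 : 0 ≤ j1) (h1 : j1 ≤ 2 * m B) : Dom W m k (Function.update j B j1) := by
  refine ⟨hd.m0, hd.k0, fun C => ?_, fun C => ?_, hd.Wp, hd.kp⟩
  · by_cases hCB : C = B
    · subst hCB
      rw [Function.update_self]
      exact h0
    · rw [Function.update_of_ne hCB]
      exact hd.j0 C
  · by_cases hCB : C = B
    · subst hCB
      rw [Function.update_self]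
      exact h1
    · rw [Function.update_of_ne hCB]
      exact hd.jm C

theorem mx_kz (θ δ h : ℝ) (hθ : 0 < θ) (hδ : 0 < δ) (hh : 0 < h) (hh1 : h ≤ 1 / 4)
    (hr : ∀ B C, r B C → r C B) (W m k j : β → ℝ) (hx : IsMx θ δ h r W m k j) (B : β) (hB : m B = 0) :
    k B = 0 := by
  classical
  have hd := hx.dom
  have hjB : j B = 0 := le_antisymm (by have := hd.jm B; rw [hB] at this; linarith) (hd.j0 B)
  have hk0 := hd.k0 B
  have hdom : Dom W m (Function.update k B 0) j := dom_k99 hd B le_rfl (fun h => by
    rw [hB] at h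
    exact absurd h (lt_irrefl _))
  have hle := hx.mx m (Function.update k B 0) j hdom
  have hup := Psi_update r θ δ h hr W m k j B (m B) 0 (j B)
  rw [Function.update_eq_self, Function.update_eq_self] at hup
  have hlc : lc θ δ h (W B) (m B) 0 (j B) - lc θ δ h (W B) (m B) (k B) (j B) = δ * (θ * k B) := by
    unfold lc
    rw [hB, hjB]
    simp
  have hmin : (∑ C ∈ univ.erase B,
      if r B C then min (j B * k C) (j C * 0) - min (j B * k C) (j C * k B) else 0) = 0 := by
    refine sum_eq_zero fun C _ => ?_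
    split_ifs
    · have h1 : 0 ≤ j C * k B := mul_nonneg (hd.j0 C) hk0
      rw [hjB, zero_mul, mul_zero, min_self, min_eq_left h1, sub_zero]
    · rfl
  have hdg : (if r B B then (0 : ℝ) * m B - k B * m B else 0) = 0 := by
    rw [hB]
    simp
  have hdg2 : (if r B B then j B * 0 - j B * k B else 0) = 0 := by
    rw [hjB]
    simp
  rw [hlc, hmin, hdg, hdg2] at hup
  have hn := nbo_nonneg99 r m hd.m0 B
  have h1 : δ * (θ * k B) + 2 * δ * (k B * nbo r m B) ≤ 0 := by
    have e : δ * (θ * k B) + 2 * δ * (k B * nbo r m B) = δ * (θ * k B) -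
        2 * δ * ((0 - k B) * nbo r m B + (m B - m B) * nbo r k B + 0) +
        h * δ * (2 * 0 + 0) := by ring
    rw [e, ← hup]
    linarith
  have h2 : 0 ≤ 2 * δ * (k B * nbo r m B) := by positivity
  have h3 : δ * (θ * k B) ≤ 0 := by linarith
  have h4 : 0 < δ * θ := mul_pos hδ hθ
  nlinarith

theorem mx_mj (θ δ h : ℝ) (hθ : 0 < θ) (hδ : 0 < δ) (hh : 0 < h) (hh1 : h ≤ 1 / 4)
    (hr : ∀ B C, r B C → r C B) (W m k j : β → ℝ) (hx : IsMx θ δ h r W m k j) (B : β) :
    m B ≤ j B := by
  classical
  by_contra hcon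
  push Not at hcon
  have hd := hx.dom
  have hj0 := hd.j0 B
  have hmp : 0 < m B := lt_of_le_of_lt hj0 hcon
  have hk0 := hd.k0 B
  have hdom : Dom W m k (Function.update j B (m B)) := dom_j99 hd B hmp.le (by linarith)
  have hle := hx.mx m k (Function.update j B (m B)) hdom
  have hup := Psi_update r θ δ h hr W m k j B (m B) (k B) (m B)
  rw [Function.update_eq_self, Function.update_eq_self] at hup
  have hlc : lc θ δ h (W B) (m B) (k B) (m B) - lc θ δ h (W B) (m B) (k B) (j B) =
      δ * (8 * h * ((j B - m B) ^ 2 / m B)) := by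
    unfold lc
    rw [sub_self]
    simp
    ring
  have hmin : 0 ≤ (∑ C ∈ univ.erase B,
      if r B C then min (m B * k C) (j C * k B) - min (j B * k C) (j C * k B) else 0) := by
    refine sum_nonneg fun C _ => ?_
    split_ifs
    · have h1 : j B * k C ≤ m B * k C := mul_le_mul_of_nonneg_right hcon.le (hd.k0 C)
      exact sub_nonneg.2 (min_le_min_right _ h1)
    · exact le_rfl
  have hdg : (if r B B then k B * m B - k B * m B else 0) = 0 := by simp
  have hdg2 : 0 ≤ (if r B B then m B * k B - j B * k B else 0) := by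
    split_ifs
    · exact sub_nonneg.2 (mul_le_mul_of_nonneg_right hcon.le hk0)
    · exact le_rfl
  have hpos : 0 < δ * (8 * h * ((j B - m B) ^ 2 / m B)) := by
    have : j B - m B ≠ 0 := by linarith
    positivity
  rw [hlc, hdg] at hup
  have h5 : 0 ≤ h * δ * (2 * (∑ C ∈ univ.erase B,
      if r B C then min (m B * k C) (j C * k B) - min (j B * k C) (j C * k B) else 0) +
      (if r B B then m B * k B - j B * k B else 0)) := by positivity
  have h6 : 2 * δ * ((k B - k B) * nbo r m B + (m B - m B) * nbo r k B + 0) = 0 := by ring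
  rw [h6] at hup
  linarith

theorem mx_kU (θ δ h : ℝ) (hθ : 0 < θ) (hδ : 0 < δ) (hh : 0 < h) (hh1 : h ≤ 1 / 4)
    (hr : ∀ B C, r B C → r C B) (W m k j : β → ℝ) (hx : IsMx θ δ h r W m k j) (B : β) :
    k B * (θ + nb r m B) ≤ m B := by
  classical
  have hd := hx.dom
  rcases (hd.m0 B).eq_or_lt with hm0 | hmp
  · rw [mx_kz r θ δ h hθ hδ hh hh1 hr W m k j hx B hm0.symm, zero_mul]
    exact hd.m0 B
  have hkp : 0 < k B := hd.kp B hmp
  have hU0 : 0 ≤ nb r m B := by
    unfold nb
    refine sum_nonneg fun C _ => ?_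
    split_ifs
    · exact hd.m0 C
    · exact le_rfl
  have key : ∀ ε : ℝ, 0 < ε → ε < 1 → (1 - ε) * (k B * (θ + nb r m B)) ≤ m B := by
    intro ε hε hε1
    have h1ε : 0 < 1 - ε := by linarith
    have hk1 : 0 < (1 - ε) * k B := mul_pos h1ε hkp
    have hdom : Dom W m (Function.update k B ((1 - ε) * k B)) j :=
      dom_k99 hd B hk1.le (fun _ => hk1)
    have hle := hx.mx m (Function.update k B ((1 - ε) * k B)) j hdom
    have hup := Psi_update r θ δ h hr W m k j B (m B) ((1 - ε) * k B) (j B)
    rw [Function.update_eq_self, Function.update_eq_self] at hup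
    have hlc : lc θ δ h (W B) (m B) ((1 - ε) * k B) (j B) - lc θ δ h (W B) (m B) (k B) (j B) =
        δ * (m B * Real.log (1 - ε) + θ * ε * k B) := by
      unfold lc
      have e1 : θ * ((1 - ε) * k B) / m B = (1 - ε) * (θ * k B / m B) := by ring
      have e2 : Real.log (θ * ((1 - ε) * k B) / m B) =
          Real.log (1 - ε) + Real.log (θ * k B / m B) := by
        rw [e1, Real.log_mul h1ε.ne' (by positivity)]
      rw [e2]
      ring
    have hmin : -(2 * ε * k B * nbo r m B) ≤ (∑ C ∈ univ.erase B,
        if r B C then min (j B * k C) (j C * ((1 - ε) * k B)) - min (j B * k C) (j C * k B)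
        else 0) := by
      have e3 : -(2 * ε * k B * nbo r m B) =
          ∑ C ∈ univ.erase B, if r B C then -(2 * ε * k B * m C) else 0 := by
        unfold nbo
        rw [mul_sum, ← sum_neg_distrib]
        refine sum_congr rfl fun C _ => ?_
        split_ifs
        · rfl
        · simp
      rw [e3]
      refine sum_le_sum fun C _ => ?_
      split_ifs
      · have hjC := hd.j0 C
        have hjm := hd.jm C
        have h3 : ε * k B * j C ≤ ε * k B * (2 * m C) :=
          mul_le_mul_of_nonneg_left hjm (by positivity)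
        have h4 : min (j B * k C) (j C * k B) - ε * k B * j C ≤
            min (j B * k C) (j C * ((1 - ε) * k B)) := by
          have h5 : 0 ≤ ε * k B * j C := by positivity
          refine le_min ?_ ?_
          · have := min_le_left (j B * k C) (j C * k B)
            linarith
          · have := min_le_right (j B * k C) (j C * k B)
            have e : j C * ((1 - ε) * k B) = j C * k B - ε * k B * j C := by ring
            rw [e]
            linarith
        linarith
      · exact le_rfl
    have hnb := nb_eq_nbo r m B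
    have hn := nbo_nonneg99 r m hd.m0 B
    set N := nbo r m B with hN
    set d : ℝ := if r B B then m B else 0 with hd'
    have hd0 : 0 ≤ d := by
      rw [hd']
      split_ifs
      · exact hmp.le
      · exact le_rfl
    have hdg : (if r B B then (1 - ε) * k B * m B - k B * m B else 0) = -(ε * k B * d) := by
      rw [hd']
      split_ifs
      · ring
      · ring
    have hdg2 : -(2 * ε * k B * d) ≤ (if r B B then j B * ((1 - ε) * k B) - j B * k B else 0) := by
      rw [hd']
      split_ifs
      · have hjm := hd.jm B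
        have h3 : ε * k B * j B ≤ ε * k B * (2 * m B) :=
          mul_le_mul_of_nonneg_left hjm (by positivity)
        linarith
      · simp
    rw [hlc, hdg] at hup
    -- lower bound of the change
    have hlow : δ * (m B * Real.log (1 - ε) + θ * ε * k B) + 2 * δ * (ε * k B * (N + d)) +
        h * δ * (2 * (-(2 * ε * k B * N)) + -(2 * ε * k B * d)) ≤ 0 := by
      have h5 : h * δ * (2 * (-(2 * ε * k B * N)) + -(2 * ε * k B * d)) ≤
          h * δ * (2 * (∑ C ∈ univ.erase B,
        if r B C then min (j B * k C) (j C * ((1 - ε) * k B)) - min (j B * k C) (j C * k B)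
        else 0) + (if r B B then j B * ((1 - ε) * k B) - j B * k B else 0)) :=
        mul_le_mul_of_nonneg_left (by linarith) (by positivity)
      have h6 : 2 * δ * (ε * k B * (N + d)) = -(2 * δ * (((1 - ε) * k B - k B) * N +
          (m B - m B) * nbo r k B + -(ε * k B * d))) := by ring
      rw [h6]
      linarith
    have hlog : -(ε / (1 - ε)) ≤ Real.log (1 - ε) := by
      have h7 := Real.one_sub_inv_le_log_of_pos h1ε
      have e : -(ε / (1 - ε)) = 1 - (1 - ε)⁻¹ := by
        field_simp
        ring
      rw [e]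
      exact h7
    have hN' : N + d = nb r m B := hnb.symm
    -- divide by `δ ε`
    have h8 : m B * Real.log (1 - ε) + ε * (k B * (θ + (N + d))) ≤ 0 := by
      have h9 : δ * (m B * Real.log (1 - ε) + ε * (k B * (θ + (N + d)))) ≤ 0 := by
        have h10 : 0 ≤ δ * (ε * k B * ((1 - 4 * h) * (N + d) + 2 * h * d)) := by
          have : 0 ≤ 1 - 4 * h := by linarith
          positivity
        have e : δ * (m B * Real.log (1 - ε) + ε * (k B * (θ + (N + d)))) =
            (δ * (m B * Real.log (1 - ε) + θ * ε * k B) + 2 * δ * (ε * k B * (N + d)) +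
            h * δ * (2 * (-(2 * ε * k B * N)) + -(2 * ε * k B * d))) -
            δ * (ε * k B * ((1 - 4 * h) * (N + d) + 2 * h * d)) := by ring
        rw [e]
        linarith
      by_contra hc
      push Not at hc
      have := mul_pos hδ hc
      linarith
    have h11 : ε * (k B * (θ + (N + d))) ≤ m B * (ε / (1 - ε)) := by
      have h12 : m B * (-(ε / (1 - ε))) ≤ m B * Real.log (1 - ε) :=
        mul_le_mul_of_nonneg_left hlog hmp.le
      linarith
    rw [hN'] at h11
    have h13 : (k B * (θ + nb r m B)) * (1 - ε) ≤ m B := by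
      have e : m B * (ε / (1 - ε)) = (m B / (1 - ε)) * ε := by ring
      rw [e, mul_comm ε] at h11
      have h14 := le_of_mul_le_mul_right h11 hε
      rwa [le_div_iff₀ h1ε] at h14
    linarith
  by_contra hcon
  push Not at hcon
  set X := k B * (θ + nb r m B) with hX
  have hXp : 0 < X := lt_trans hmp hcon
  have h1 := key ((X - m B) / (2 * X)) (by
    apply div_pos
    · linarith
    · linarith) (by
    rw [div_lt_one (by linarith)]
    linarith)
  have e : (1 - (X - m B) / (2 * X)) * X = (X + m B) / 2 := by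
    field_simp
    ring
  rw [e] at h1
  linarith

end BMV
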