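import Pool.Agent.BMV.StA

/-!
# BMV/StB: `4 j ≤ 5 m` for a maximiser

PROOF.  If `m_B = 0` then `j_B = 0`.  Let `m = m_B > 0`, `k = k_B`, `j = j_B` and suppose `4 j > 5 m`.  Put
`ε = m/40` and change `j_B` to `j - ε` (`≥ 0`, `≤ 2m`).  By `Psi_update` the change divided by `h δ` is
`8 (2 ε (j-m) - ε²)/m + 2 ∑_{C ≠ B, r B C} (min((j-ε) k_C, j_C k) - min(j k_C, j_C k)) - [r B B] ε k`.
Each bracket is `≥ - ε * 2 m_C k/(j-ε)`: if `(j-ε) k_C ≥ j_C k` both minima are `j_C k`; otherwise the
difference is `≥ - ε k_C` and `k_C < j_C k/(j-ε) ≤ 2 m_C k/(j-ε)`.  Also `ε k ≤ 4 ε k m/(j-ε)` (`j ≤ 2m`).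
With `U = nb r m B` (`nb_eq_nbo`) and `k U ≤ m` (`mx_kU`, `θ k ≥ 0`):
`change/(h δ) ≥ 8 (2 ε (j-m) - ε²)/m - 4 ε k U/(j-ε) ≥ ε (16 (j-m)/m - 8 ε/m - 4 m/(j-ε))`
`> ε (4 - 1/5 - 160/49) > 0`  (`j - ε > (49/40) m`).  Contradiction with maximality.
-/

namespace BMV

open Finset BMP

variable {β : Type} [Fintype β] (r : β → β → Prop) [DecidableRel r]

private theorem min_diff (J1 J e kC jC K mC : ℝ) (hJ1 : 0 < J1) (he : 0 ≤ e) (hJ : J = J1 + e)
    (hk : 0 ≤ kC) (hK : 0 ≤ K) (hm : 0 ≤ mC) (hj : jC ≤ 2 * mC) :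
    - (e * (2 * K / J1)) * mC ≤ min (J1 * kC) (jC * K) - min (J * kC) (jC * K) := by
  have hpos : 0 ≤ e * (2 * K / J1) * mC := by positivity
  rcases le_total (jC * K) (J1 * kC) with h | h
  · have h2 : jC * K ≤ J * kC := by
      rw [hJ]; nlinarith [mul_nonneg he hk]
    rw [min_eq_right h, min_eq_right h2]
    linarith
  · rw [min_eq_left h]
    have h2 : min (J * kC) (jC * K) ≤ J * kC := min_le_left _ _
    have h3 : kC ≤ 2 * K / J1 * mC := by
      have h4 : J1 * kC ≤ 2 * mC * K := le_trans h (mul_le_mul_of_nonneg_right hj hK)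
      have h5 : 2 * K / J1 * mC = (2 * mC * K) / J1 := by ring
      rw [h5, le_div_iff₀ hJ1]
      linarith
    have h6 : e * kC ≤ e * (2 * K / J1 * mC) := mul_le_mul_of_nonneg_left h3 he
    rw [hJ] at h2 ⊢
    rw [hJ] at *
    nlinarith

theorem mx_j5 (θ δ h : ℝ) (hθ : 0 < θ) (hδ : 0 < δ) (hh : 0 < h) (hh1 : h ≤ 1 / 4)
    (hr : ∀ B C, r B C → r C B) (W m k j : β → ℝ) (hx : IsMx θ δ h r W m k j) (B : β) :
    4 * j B ≤ 5 * m B := by
  classical
  rcases (hx.dom.m0 B).eq_or_lt with hm | hm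
  · have := hx.dom.jm B
    rw [← hm] at this ⊢
    linarith
  by_contra hcon
  push Not at hcon
  have hK : 0 ≤ k B := hx.dom.k0 B
  have hJ2 : j B ≤ 2 * m B := hx.dom.jm B
  set J1 : ℝ := j B - m B / 40 with hJ1def
  have hJ1 : 49 / 40 * m B < J1 := by rw [hJ1def]; linarith
  have hJ1p : 0 < J1 := by linarith [hm]
  have hkU := mx_kU r θ δ h hθ hδ hh hh1 hr W m k j hx B
  have hdom : Dom W (Function.update m B (m B)) (Function.update k B (k B)) (Function.update j B J1) := by
    rw [Function.update_eq_self, Function.update_eq_self]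
    refine ⟨hx.dom.m0, hx.dom.k0, ?_, ?_, hx.dom.Wp, hx.dom.kp⟩
    · intro C
      by_cases hC : C = B
      · subst hC; rw [Function.update_self]; exact hJ1p.le
      · rw [Function.update_of_ne hC]; exact hx.dom.j0 C
    · intro C
      by_cases hC : C = B
      · subst hC; rw [Function.update_self]; rw [hJ1def]; linarith
      · rw [Function.update_of_ne hC]; exact hx.dom.jm C
  have hle := hx.mx _ _ _ hdom
  have hup := Psi_update r θ δ h hr W m k j B (m B) (k B) J1
  have hneg : Psi θ δ h r W (Function.update m B (m B)) (Function.update k B (k B)) (Function.update j B J1)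
      - Psi θ δ h r W m k j ≤ 0 := by linarith
  rw [hup] at hneg
  -- the local term
  have hlc : lc θ δ h (W B) (m B) (k B) J1 - lc θ δ h (W B) (m B) (k B) (j B)
      = h * δ * (8 * (2 * (m B / 40) * (j B - m B) - (m B / 40) ^ 2) / m B) := by
    unfold lc
    rw [hJ1def]
    field_simp
    ring
  -- the middle term
  have hmid : 2 * δ * ((k B - k B) * nbo r m B + (m B - m B) * nbo r k B
          + if r B B then k B * m B - k B * m B else 0) = 0 := by
    by_cases hb : r B B
    · rw [if_pos hb]; ring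
    · rw [if_neg hb]; ring
  -- the sum
  have hsum : - (m B / 40 * (2 * k B / J1)) * nbo r m B ≤ ∑ C ∈ univ.erase B,
            if r B C then min (J1 * k C) (j C * k B) - min (j B * k C) (j C * k B) else 0 := by
    unfold nbo
    rw [Finset.mul_sum]
    refine Finset.sum_le_sum fun C _ => ?_
    by_cases hC : r B C
    · rw [if_pos hC, if_pos hC]
      exact min_diff J1 (j B) (m B / 40) (k C) (j C) (k B) (m C) hJ1p (by positivity) (by rw [hJ1def]; ring)
        (hx.dom.k0 C) hK (hx.dom.m0 C) (hx.dom.jm C)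
    · rw [if_neg hC, if_neg hC]; simp
  have hdiag : - (m B / 40 * (2 * k B / J1)) * (2 * (if r B B then m B else 0)) ≤
      (if r B B then J1 * k B - j B * k B else 0) := by
    by_cases hb : r B B
    · rw [if_pos hb, if_pos hb]
      have h1 : J1 * k B - j B * k B = - (m B / 40) * k B := by rw [hJ1def]; ring
      rw [h1]
      have h2 : m B / 40 * k B ≤ m B / 40 * (2 * k B / J1) * (2 * m B) := by
        have h3 : k B ≤ 2 * k B / J1 * (2 * m B) := by
          have h5 : 2 * k B / J1 * (2 * m B) = (4 * m B * k B) / J1 := by ring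
          rw [h5, le_div_iff₀ hJ1p]
          have h6 : J1 ≤ 4 * m B := by rw [hJ1def]; linarith
          nlinarith [mul_le_mul_of_nonneg_left h6 hK]
        have h4 : (0:ℝ) ≤ m B / 40 := by positivity
        nlinarith [mul_le_mul_of_nonneg_left h3 h4]
      linarith
    · rw [if_neg hb, if_neg hb]; simp
  have hU := nb_eq_nbo r m B
  have htot : - (m B / 40 * (4 * k B / J1)) * nb r m B ≤
      2 * (∑ C ∈ univ.erase B,
            if r B C then min (J1 * k C) (j C * k B) - min (j B * k C) (j C * k B) else 0)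
          + if r B B then J1 * k B - j B * k B else 0 := by
    rw [hU]
    have e1 : - (m B / 40 * (4 * k B / J1)) * (nbo r m B + if r B B then m B else 0) =
      2 * (- (m B / 40 * (2 * k B / J1)) * nbo r m B) + - (m B / 40 * (2 * k B / J1)) * (2 * (if r B B then m B else 0)) := by
      ring
    rw [e1]
    linarith
  have hkU' : k B * nb r m B ≤ m B := by nlinarith [mul_nonneg hK hθ.le]
  have hfin : - (m B / 40 * (4 * m B / J1)) ≤ - (m B / 40 * (4 * k B / J1)) * nb r m B := by
    have e2 : m B / 40 * (4 * k B / J1) * nb r m B = m B / 40 * (4 / J1) * (k B * nb r m B) := by ring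
    have e3 : m B / 40 * (4 * m B / J1) = m B / 40 * (4 / J1) * m B := by ring
    have e4 : 0 ≤ m B / 40 * (4 / J1) := by positivity
    have e5 := mul_le_mul_of_nonneg_left hkU' e4
    linarith
  have hq : 4 * m B / J1 < 160 / 49 := by
    rw [div_lt_iff₀ hJ1p]; linarith
  have hq2 : m B / 40 * (4 * m B / J1) ≤ m B / 40 * (160 / 49) :=
    mul_le_mul_of_nonneg_left hq.le (by positivity)
  have hloc2 : m B / 40 * (19 / 5) ≤ 8 * (2 * (m B / 40) * (j B - m B) - (m B / 40) ^ 2) / m B := by
    rw [le_div_iff₀ hm]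
    nlinarith [mul_pos hm hm, mul_pos hm (show (0:ℝ) < 4 * j B - 5 * m B by linarith)]
  have hpos : 0 < h * δ := mul_pos hh hδ
  have hall : 0 < h * δ * (8 * (2 * (m B / 40) * (j B - m B) - (m B / 40) ^ 2) / m B
      + (2 * (∑ C ∈ univ.erase B,
            if r B C then min (J1 * k C) (j C * k B) - min (j B * k C) (j C * k B) else 0)
          + if r B B then J1 * k B - j B * k B else 0)) := by
    apply mul_pos hpos
    nlinarith
  rw [hlc, hmid] at hneg
  rw [mul_add] at hall
  linarith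

end BMV
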