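import Pool.Agent.BMV.Scal
import Pool.Agent.BMV.PsiLe

/-!
# BMV/Trial: the free energy of the trial state

`WT A` is the weight after the restriction; `WT A = W A * dt (v A) s ^ 2` where `m A > 0`.
PROOF of `trial_dom`: with `a = min (z²) (5/4 F²)`:
`jT = j ν a ≤ (5/4) m (9/8) (5/4) F² ≤ 2 m F²`; `mT > 0` gives `m > 0`, `F ≠ 0`, so `WT = W F² > 0` and `k > 0` and
one of `z, y` is nonzero (`F = z + y`, additivity of `dt`).
PROOF of `trial_pol` (lower bound of `Psi`).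
Local terms: `lc θ δ h (WT A) (mT) (kT) (jT) ≥ loc ..` for every `A`.
 * `m A = 0`: then `k A = 0` (`kU`, `θ > 0`, `nb ≥ 0`), `j A = 0`; both sides `0`.
 * `m A > 0`, `F = 0`: `mT = 0`, `lc = - δ θ kT`, and `loc` has the extra terms `δ m (z² - 3 y²) = - 2 δ m y² ≤ 0` and
   `- 8 h δ m (2 ρ (ρ-1) ν z² + ρ² (..)) ≤ 0` (`ρ = j/m ≥ 1`).
 * `m A > 0`, `F ≠ 0`: `WT/mT = W/m`; `log (θ kT/mT) = log (θ k/m) + log ((ν z² + 9/8 y²)/F²)`
   (both arguments are positive) and `scal1`; `(jT - mT)²/mT = m (ρ (ν a) - F²)²/F²` and `scal3`.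
Pairs: `kT A * mT C` is exactly the polynomial.  For related `A, C`:
 `jT A * kT C ≥ j_A ν_A a_A k_C ν_C z_C² ≥ ν_A ν_C (j_A k_C) (a_A a_C)` and symmetrically, so
 `mu kT jT A C ≥ ν_A ν_C mu k j A C (a_A a_C)`, and
 `a_A a_C ≥ z_A² z_C² - 5 y_A² z_C² - 5 z_A² y_C²` from `scal2`: `z²z'² - a a' = (z² - a) z'² + a (z'² - a')`,
 `0 ≤ a ≤ z²`.
-/

namespace BMV

open Finset BMP

variable {α X : Type} [Fintype α] [Fintype X] [DecidableEq X] (r : α → α → Prop) [DecidableRel r]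

omit [Fintype α] [DecidableEq X] in
private theorem dt_add (v z y : α → X → ℝ) (hv : ∀ A i, v A i = z A i + y A i) (s : X → Bool) (A : α) :
    dt (v A) s = dt (z A) s + dt (y A) s := by
  unfold dt
  rw [← Finset.sum_add_distrib]
  exact Finset.sum_congr rfl fun i _ => by rw [hv]; ring

private theorem min_bd (F Z : ℝ) : 0 ≤ min (Z ^ 2) (5 / 4 * F ^ 2) :=
  le_min (sq_nonneg _) (mul_nonneg (by norm_num) (sq_nonneg _))

private theorem loc_le (θ δ h W m k j ν F Z Y WT : ℝ) (hθ : 0 < θ) (hδ : 0 ≤ δ) (hh : 0 ≤ h)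
    (hF : F = Z + Y) (m0 : 0 ≤ m) (k0 : 0 ≤ k) (hWp : 0 < m → 0 < W) (kp : 0 < m → 0 < k)
    (mk : m = 0 → k = 0) (mj : m ≤ j) (j5 : 4 * j ≤ 5 * m) (hν : 7 / 8 ≤ ν) (hν' : ν ≤ 9 / 8)
    (hWT : 0 < m → WT = W * F ^ 2) :
    loc θ δ h W m k j ν F Z Y ≤
      lc θ δ h WT (m * F ^ 2) (k * (ν * Z ^ 2 + 9 / 8 * Y ^ 2))
        (j * (ν * min (Z ^ 2) (5 / 4 * F ^ 2))) := by
  have hνp : 0 < ν := by linarith
  rcases eq_or_lt_of_le m0 with hm | hm
  · have hk := mk hm.symm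
    have hj : j = 0 := by linarith
    rw [← hm, hk, hj]
    unfold loc lc
    simp
  · have hρ : 1 ≤ j / m := by rw [le_div_iff₀ hm]; linarith
    have hρ' : j / m ≤ 5 / 4 := by rw [div_le_iff₀ hm]; linarith
    by_cases hF0 : F = 0
    · have hZ : Z = -Y := by linarith
      have hZ2 : Z ^ 2 = Y ^ 2 := by rw [hZ]; ring
      have hmin : min (Z ^ 2) (5 / 4 * F ^ 2) = 0 := by
        rw [hF0]
        have : (5 / 4 * (0 : ℝ) ^ 2) = 0 := by norm_num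
        rw [this]
        exact min_eq_right (sq_nonneg _)
      rw [hmin, hF0]
      unfold loc lc
      have e0 : (0 : ℝ) ^ 2 = 0 := by norm_num
      rw [e0, hZ2]
      simp only [mul_zero, zero_mul, zero_add, div_zero, sub_zero, add_zero]
      have hY := sq_nonneg Y
      have h1 : 0 ≤ 2 * (j / m) * (j / m - 1) * (ν * Y ^ 2) :=
        mul_nonneg (mul_nonneg (by linarith) (by linarith)) (mul_nonneg hνp.le hY)
      have h2 : 0 ≤ (j / m) ^ 2 * (5 / 2 * (ν - 1) ^ 2 * Y ^ 2 + 9 * Y ^ 2) := by positivity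
      have h3 : 0 ≤ 8 * h * (m * (2 * (j / m) * (j / m - 1) * (ν * Y ^ 2)
          + (j / m) ^ 2 * (5 / 2 * (ν - 1) ^ 2 * Y ^ 2 + 9 * Y ^ 2))) :=
        mul_nonneg (by linarith) (mul_nonneg hm.le (add_nonneg h1 h2))
      have h4 : 0 ≤ m * Y ^ 2 := mul_nonneg hm.le hY
      refine mul_le_mul_of_nonneg_left ?_ hδ
      linarith
    · have hFp : 0 < F ^ 2 := by positivity
      have hS : 0 < ν * Z ^ 2 + 9 / 8 * Y ^ 2 := by
        rcases eq_or_ne Z 0 with hz | hz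
        · have hy : Y ≠ 0 := by
            intro hy
            apply hF0
            rw [hF, hz, hy, add_zero]
          have : 0 < Y ^ 2 := by positivity
          have := mul_nonneg hνp.le (sq_nonneg Z)
          linarith
        · have h1 : 0 < Z ^ 2 := by positivity
          have := mul_pos hνp h1
          have := sq_nonneg Y
          linarith
      have hW := hWp hm
      have hk := kp hm
      have hmF : 0 < m * F ^ 2 := mul_pos hm hFp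
      have e1 : WT / (m * F ^ 2) = W / m := by
        rw [hWT hm, mul_div_mul_right _ _ hFp.ne']
      have e2 : Real.log (θ * (k * (ν * Z ^ 2 + 9 / 8 * Y ^ 2)) / (m * F ^ 2)) =
          Real.log (θ * k / m) + Real.log ((ν * Z ^ 2 + 9 / 8 * Y ^ 2) / F ^ 2) := by
        rw [← Real.log_mul (div_pos (mul_pos hθ hk) hm).ne' (div_pos hS hFp).ne',
          div_mul_div_comm]
        congr 2
        ring
      have e3 : (j * (ν * min (Z ^ 2) (5 / 4 * F ^ 2)) - m * F ^ 2) ^ 2 / (m * F ^ 2) =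
          m * (((j / m) * (ν * min (Z ^ 2) (5 / 4 * F ^ 2)) - F ^ 2) ^ 2 / F ^ 2) := by
        have hm' := hm.ne'
        have hF' := hFp.ne'
        field_simp
      have s1 := scal1 ν F Z Y hF hνp hν'
      have s3 := scal3 (j / m) ν F Z Y hF hρ hρ' hνp.le
      unfold loc lc
      rw [e1, e2, e3]
      have t1 := mul_le_mul_of_nonneg_left s1 hm.le
      have t3 := mul_le_mul_of_nonneg_left (mul_le_mul_of_nonneg_left s3 hm.le)
        (show (0 : ℝ) ≤ 8 * h by linarith)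
      have t4 : m * (F ^ 2 * Real.log (θ * k / m) + Z ^ 2 - 3 * Y ^ 2 + F ^ 2 * Real.log ν)
          - θ * k * (ν * Z ^ 2 + 9 / 8 * Y ^ 2)
          - 8 * h * (m * ((j / m - 1) ^ 2 * F ^ 2 + 2 * (j / m) * (j / m - 1) * (ν * Z ^ 2 - F ^ 2)
              + (j / m) ^ 2 * (5 / 2 * (ν - 1) ^ 2 * Z ^ 2 + 9 * Y ^ 2))) ≤
          m * F ^ 2 * (Real.log (θ * k / m) + Real.log ((ν * Z ^ 2 + 9 / 8 * Y ^ 2) / F ^ 2))
            + m * F ^ 2 - θ * (k * (ν * Z ^ 2 + 9 / 8 * Y ^ 2))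
            - 8 * h * (m * (((j / m) * (ν * min (Z ^ 2) (5 / 4 * F ^ 2)) - F ^ 2) ^ 2 / F ^ 2)) := by
        linarith
      have t5 := mul_le_mul_of_nonneg_left t4 hδ
      linarith

theorem trial_dom (W m k j ν : α → ℝ) (v z y : α → X → ℝ) (WT : α → ℝ) (s : X → Bool)
    (hWp : ∀ A, 0 < m A → 0 < W A) (m0 : ∀ A, 0 ≤ m A) (k0 : ∀ A, 0 ≤ k A) (kp : ∀ A, 0 < m A → 0 < k A)
    (mj : ∀ A, m A ≤ j A) (j5 : ∀ A, 4 * j A ≤ 5 * m A) (hv : ∀ A i, v A i = z A i + y A i)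
    (hν : ∀ A, 7 / 8 ≤ ν A ∧ ν A ≤ 9 / 8) (hWT : ∀ A, 0 < m A → WT A = W A * dt (v A) s ^ 2) :
    Dom WT (mT m v s) (kT k ν z y s) (jT j ν v z s) := by
  have hνp : ∀ A, 0 < ν A := fun A => by linarith [(hν A).1]
  have hmp : ∀ A, 0 < mT m v s A → 0 < m A ∧ dt (v A) s ≠ 0 := by
    intro A hA
    unfold mT at hA
    constructor
    · rcases eq_or_lt_of_le (m0 A) with h | h
      · rw [← h, zero_mul] at hA
        exact absurd hA (lt_irrefl _)
      · exact h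
    · intro h
      rw [h] at hA
      norm_num at hA
  refine ⟨fun A => mul_nonneg (m0 A) (sq_nonneg _), fun A => ?_, fun A => ?_, fun A => ?_,
    fun A hA => ?_, fun A hA => ?_⟩
  · unfold kT
    exact mul_nonneg (k0 A) (add_nonneg (mul_nonneg (hνp A).le (sq_nonneg _))
      (mul_nonneg (by norm_num) (sq_nonneg _)))
  · unfold jT
    exact mul_nonneg ((m0 A).trans (mj A)) (mul_nonneg (hνp A).le (min_bd _ _))
  · unfold jT mT
    have h1 : min (dt (z A) s ^ 2) (5 / 4 * dt (v A) s ^ 2) ≤ 5 / 4 * dt (v A) s ^ 2 :=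
      min_le_right _ _
    have h2 : ν A * min (dt (z A) s ^ 2) (5 / 4 * dt (v A) s ^ 2) ≤
        9 / 8 * (5 / 4 * dt (v A) s ^ 2) :=
      mul_le_mul (hν A).2 h1 (min_bd _ _) (by norm_num)
    have h3 : j A * (ν A * min (dt (z A) s ^ 2) (5 / 4 * dt (v A) s ^ 2)) ≤
        (5 / 4 * m A) * (9 / 8 * (5 / 4 * dt (v A) s ^ 2)) :=
      mul_le_mul (by linarith [j5 A]) h2 (mul_nonneg (hνp A).le (min_bd _ _))
        (by linarith [m0 A])
    have h4 : 0 ≤ m A * dt (v A) s ^ 2 := mul_nonneg (m0 A) (sq_nonneg _)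
    nlinarith
  · obtain ⟨h1, h2⟩ := hmp A hA
    rw [hWT A h1]
    exact mul_pos (hWp A h1) (by positivity)
  · obtain ⟨h1, h2⟩ := hmp A hA
    unfold kT
    refine mul_pos (kp A h1) ?_
    have h3 := dt_add v z y hv s A
    rcases eq_or_ne (dt (z A) s) 0 with hz | hz
    · have hy : dt (y A) s ≠ 0 := by
        intro hy
        apply h2
        rw [h3, hz, hy, add_zero]
      have h5 : 0 < dt (y A) s ^ 2 := by positivity
      have h6 := mul_nonneg (hνp A).le (sq_nonneg (dt (z A) s))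
      linarith
    · have h5 : 0 < dt (z A) s ^ 2 := by positivity
      have h6 := mul_pos (hνp A) h5
      have h7 := sq_nonneg (dt (y A) s)
      linarith

private theorem mu_scal (jA kA jC kC νA νC FA FC ZA ZC YA YC : ℝ) (hA : FA = ZA + YA)
    (hC : FC = ZC + YC) (hjA : 0 ≤ jA) (hkA : 0 ≤ kA) (hjC : 0 ≤ jC) (hkC : 0 ≤ kC)
    (hνA : 0 ≤ νA) (hνC : 0 ≤ νC) :
    νA * νC * min (jA * kC) (jC * kA) * (ZA ^ 2 * ZC ^ 2 - 5 * (YA ^ 2 * ZC ^ 2)
      - 5 * (ZA ^ 2 * YC ^ 2)) ≤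
    min (jA * (νA * min (ZA ^ 2) (5 / 4 * FA ^ 2)) * (kC * (νC * ZC ^ 2 + 9 / 8 * YC ^ 2)))
      (jC * (νC * min (ZC ^ 2) (5 / 4 * FC ^ 2)) * (kA * (νA * ZA ^ 2 + 9 / 8 * YA ^ 2))) := by
  have sA := scal2 FA ZA YA hA
  have sC := scal2 FC ZC YC hC
  set a := min (ZA ^ 2) (5 / 4 * FA ^ 2) with ha
  set c := min (ZC ^ 2) (5 / 4 * FC ^ 2) with hc
  have a0 : 0 ≤ a := min_bd _ _
  have c0 : 0 ≤ c := min_bd _ _
  have a1 : a ≤ ZA ^ 2 := min_le_left _ _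
  have c1 : c ≤ ZC ^ 2 := min_le_left _ _
  have hac : ZA ^ 2 * ZC ^ 2 - 5 * (YA ^ 2 * ZC ^ 2) - 5 * (ZA ^ 2 * YC ^ 2) ≤ a * c := by
    have t1 := mul_le_mul_of_nonneg_right sA (sq_nonneg ZC)
    have t2 := mul_le_mul_of_nonneg_left sC a0
    have t3 := mul_le_mul_of_nonneg_right a1 (show 0 ≤ 5 * YC ^ 2 by positivity)
    nlinarith
  have hμ0 : 0 ≤ min (jA * kC) (jC * kA) := le_min (mul_nonneg hjA hkC) (mul_nonneg hjC hkA)
  have hν0 : 0 ≤ νA * νC := mul_nonneg hνA hνC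
  have h1 : νA * νC * min (jA * kC) (jC * kA) * (ZA ^ 2 * ZC ^ 2 - 5 * (YA ^ 2 * ZC ^ 2)
      - 5 * (ZA ^ 2 * YC ^ 2)) ≤ νA * νC * min (jA * kC) (jC * kA) * (a * c) :=
    mul_le_mul_of_nonneg_left hac (mul_nonneg hν0 hμ0)
  refine h1.trans (le_min ?_ ?_)
  · have h2 : νA * νC * min (jA * kC) (jC * kA) * (a * c) ≤ νA * νC * (jA * kC) * (a * c) :=
      mul_le_mul_of_nonneg_right (mul_le_mul_of_nonneg_left (min_le_left _ _) hν0)
        (mul_nonneg a0 c0)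
    have h3 : c ≤ ZC ^ 2 := c1
    have h4 : νC * c ≤ νC * ZC ^ 2 + 9 / 8 * YC ^ 2 := by
      have := mul_le_mul_of_nonneg_left c1 hνC
      have := sq_nonneg YC
      linarith
    have h5 : jA * (νA * a) * (kC * (νC * c)) ≤ jA * (νA * a) * (kC * (νC * ZC ^ 2 + 9 / 8 * YC ^ 2)) :=
      mul_le_mul_of_nonneg_left (mul_le_mul_of_nonneg_left h4 hkC)
        (mul_nonneg hjA (mul_nonneg hνA a0))
    refine h2.trans (le_trans (le_of_eq ?_) h5)
    ring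
  · have h2 : νA * νC * min (jA * kC) (jC * kA) * (a * c) ≤ νA * νC * (jC * kA) * (a * c) :=
      mul_le_mul_of_nonneg_right (mul_le_mul_of_nonneg_left (min_le_right _ _) hν0)
        (mul_nonneg a0 c0)
    have h4 : νA * a ≤ νA * ZA ^ 2 + 9 / 8 * YA ^ 2 := by
      have := mul_le_mul_of_nonneg_left a1 hνA
      have := sq_nonneg YA
      linarith
    have h5 : jC * (νC * c) * (kA * (νA * a)) ≤ jC * (νC * c) * (kA * (νA * ZA ^ 2 + 9 / 8 * YA ^ 2)) :=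
      mul_le_mul_of_nonneg_left (mul_le_mul_of_nonneg_left h4 hkA)
        (mul_nonneg hjC (mul_nonneg hνC c0))
    refine h2.trans (le_trans (le_of_eq ?_) h5)
    ring

theorem trial_pol (θ δ h : ℝ) (hθ : 0 < θ) (hδ : 0 ≤ δ) (hh : 0 ≤ h) (W m k j ν : α → ℝ)
    (v z y : α → X → ℝ) (WT : α → ℝ) (s : X → Bool)
    (hWp : ∀ A, 0 < m A → 0 < W A) (m0 : ∀ A, 0 ≤ m A) (k0 : ∀ A, 0 ≤ k A) (kp : ∀ A, 0 < m A → 0 < k A)
    (mj : ∀ A, m A ≤ j A) (j5 : ∀ A, 4 * j A ≤ 5 * m A) (kU : ∀ A, k A * (θ + nb r m A) ≤ m A)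
    (hv : ∀ A i, v A i = z A i + y A i)
    (hν : ∀ A, 7 / 8 ≤ ν A ∧ ν A ≤ 9 / 8) (hWT : ∀ A, 0 < m A → WT A = W A * dt (v A) s ^ 2) :
    Pol θ δ h r W m k j ν v z y s ≤
      Psi θ δ h r WT (mT m v s) (kT k ν z y s) (jT j ν v z s) := by
  have hνp : ∀ A, 0 ≤ ν A := fun A => by linarith [(hν A).1]
  have hmk : ∀ A, m A = 0 → k A = 0 := by
    intro A hA
    have h1 := kU A
    rw [hA] at h1
    have h2 := nb_nonneg r m m0 A
    have h3 : 0 < θ + nb r m A := by linarith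
    by_contra hne
    have h4 : 0 < k A := lt_of_le_of_ne (k0 A) (Ne.symm hne)
    have := mul_pos h4 h3
    linarith
  have hadd := dt_add v z y hv s
  have L1 : ∑ A, loc θ δ h (W A) (m A) (k A) (j A) (ν A) (dt (v A) s) (dt (z A) s) (dt (y A) s) ≤
      ∑ A, lc θ δ h (WT A) (mT m v s A) (kT k ν z y s A) (jT j ν v z s A) := by
    refine Finset.sum_le_sum fun A _ => ?_
    exact loc_le θ δ h (W A) (m A) (k A) (j A) (ν A) _ _ _ (WT A) hθ hδ hh (hadd A) (m0 A) (k0 A)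
      (hWp A) (kp A) (hmk A) (mj A) (j5 A) (hν A).1 (hν A).2 (hWT A)
  have L2 : hs r (fun A C => k A * m C * ((ν A * dt (z A) s ^ 2 + 9 / 8 * dt (y A) s ^ 2)
      * dt (v C) s ^ 2)) = hs r (fun B C => kT k ν z y s B * mT m v s C) := by
    refine hs_congr r _ _ fun B C _ => ?_
    unfold kT mT
    ring
  have L3 : hs r (fun A C => ν A * ν C * mu k j A C * (dt (z A) s ^ 2 * dt (z C) s ^ 2
      - 5 * (dt (y A) s ^ 2 * dt (z C) s ^ 2) - 5 * (dt (z A) s ^ 2 * dt (y C) s ^ 2))) ≤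
      hs r (mu (kT k ν z y s) (jT j ν v z s)) := by
    refine hs_mono r _ _ fun A C _ => ?_
    exact mu_scal (j A) (k A) (j C) (k C) (ν A) (ν C) _ _ _ _ _ _ (hadd A) (hadd C)
      ((m0 A).trans (mj A)) (k0 A) ((m0 C).trans (mj C)) (k0 C) (hνp A) (hνp C)
  have L4 := mul_le_mul_of_nonneg_left L3 (mul_nonneg hh hδ)
  unfold Pol Psi
  rw [L2]
  linarith

/-- the polynomial is a lower bound for the maximal free energy after the restriction -/
theorem pol_le_GG (θ δ h : ℝ) (hθ : 0 < θ) (hδ : 0 ≤ δ) (hh : 0 ≤ h) (hh1 : h ≤ 1) (W m k j ν : α → ℝ)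
    (v z y : α → X → ℝ) (WT : α → ℝ) (s : X → Bool) (hWT0 : ∀ A, 0 ≤ WT A)
    (hWp : ∀ A, 0 < m A → 0 < W A) (m0 : ∀ A, 0 ≤ m A) (k0 : ∀ A, 0 ≤ k A) (kp : ∀ A, 0 < m A → 0 < k A)
    (mj : ∀ A, m A ≤ j A) (j5 : ∀ A, 4 * j A ≤ 5 * m A) (kU : ∀ A, k A * (θ + nb r m A) ≤ m A)
    (hv : ∀ A i, v A i = z A i + y A i)
    (hν : ∀ A, 7 / 8 ≤ ν A ∧ ν A ≤ 9 / 8) (hWT : ∀ A, 0 < m A → WT A = W A * dt (v A) s ^ 2) :
    Pol θ δ h r W m k j ν v z y s ≤ GG θ δ h r WT :=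
  (trial_pol r θ δ h hθ hδ hh W m k j ν v z y WT s hWp m0 k0 kp mj j5 kU hv hν hWT).trans
    (Psi_le_GG r θ δ h hθ hδ hh hh1 WT _ _ _ hWT0
      (trial_dom W m k j ν v z y WT s hWp m0 k0 kp mj j5 hv hν hWT))

end BMV
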