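import Pool.Agent.BMV.XE3b

/-! BMV XE3c (helper94): experiment E3, the bonus; and the final lower bound of E3.

`hs(νν' mu Cv(z^2,z'^2)) = all pairs - ns(νν' mu Cv(z^2,z'^2)) ≥ - ns(..)` (`bonus_var`, `hs_add_ns`). For each `C` with `m_C > 0` (the others contribute `0`, `z_C = 0`):
`M_C = Gw c_C z`, `c_C(A) = if r A C then 0 else ν_A ν_C mu k j A C`, `0 ≤ c_C(A) ≤ (103/100)(5/4) k_A m_C ≤ (13/10) m_C k_A` (`mu_le`), so `0 ≤ qd M_C x ≤ (13/10) m_C K0 n2 x`.
`ns(..) = ∑_C Cv (qx M_C) (sqv (z C))`, and by `GQ4.Q4` and `lin_part` with `t_A = (13/10) m_C [¬ r A C]`, `lam = 1/m_C`: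
`Cv (qx M_C) (sqv z_C) ≤ 2 qd (off M_C) z_C + (169/100) m_C (H + 2 Hd) + 8 K0 m_C Zq a z_C + 130 m_C K0 Zq a z_C`, `H = ∑_{A: ¬ r A C} k ip(z_A,z_C)^2`, `Hd = ∑_{A: ¬ r A C} k ∑_i z_A(i)^2 z_C(i)^2`,
`2 qd (off M_C) z_C ≤ 2 qd M_C z_C ≤ (26/10) m_C H` (the diagonal of `M_C` is `≥ 0`).
Sum over `C`: `ns(k m' ip(z,z')^2) ≤ 2 Sur + 2 K0 ms m y` (`z' = v' - y'`, `∑_A k ip(z_A,x)^2 = qd N x ≤ K0 n2 x`), `ns(k m' ∑ z^2 z'^2) ≤ 2 Eb + 2 K0 ms m y` (`N_ii ≤ K0`), `sum_mZq_z`: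
`ns(..) ≤ (43/10)(2 Sur + 2 K0 Y) + (34/10)(2 Eb + 2 K0 Y) + 138 K0 (2 AA + NN + 2 κ^2 Y) ≤ 9 Sur + 7 Eb + 16 K0 Y + 276 K0 AA + 138 K0 NN`.
`XE3`: combine `XE3a`, `XE3b`, this (multiplied by `hδ`, `h K0 ≤ 1/1000`) and `sum_uu` (`∑ m (u^2 + uz^2) ≤ 3 AA + 2 κ^2 Y`): Y: `5 + 5.1 + .016 + .001 ≤ 10.2`. -/

namespace BMV

open Finset BMP

variable {α X : Type} [Fintype α] [Fintype X] [DecidableEq X] {r : α → α → Prop} [DecidableRel r]
  {θ : ℝ} {m k j : α → ℝ} {v z y : α → X → ℝ} {R : Matrix X X ℝ} {Ph : X → ℝ}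

private lemma ms_nonneg99c (hm : ∀ A, 0 ≤ m A) (u : α → X → ℝ) : 0 ≤ ms m u := by
  unfold ms
  exact Finset.sum_nonneg fun A _ => mul_nonneg (hm A) (gf_n2_nonneg _)

private lemma NN_nonneg99c (hB : BDat r θ m k j v z y R Ph) (a : Matrix X X ℝ) :
    0 ≤ NNq Ph a := by
  unfold NNq
  refine Finset.sum_nonneg fun i _ => mul_nonneg (hB.Ph0 i).le ?_
  unfold ra
  exact Finset.sum_nonneg fun _ _ => sq_nonneg _

private noncomputable def T99c (a : Matrix X X ℝ) (D : ℝ) (M : Matrix X X ℝ) (x : X → ℝ) : ℝ :=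
  4 * (Real.exp (-D) * |∑ i, ap (off M) x i * ap a x i|)
    + 4 * (Real.exp (-D) * |∑ i, x i ^ 2 * ∑ l, off M i l * a i l|)

private lemma Q4_up99c {a b : Matrix X X ℝ} {κ : ℝ} (h : QH a b κ) {D : ℝ} (hD : 0 ≤ D)
    {w : (X → Bool) → ℝ} (hw : Fld w D a b) {M : Matrix X X ℝ} (hM : ∀ i j, M i j = M j i)
    {κM : ℝ} (h0 : 0 ≤ κM) (hκ : ∀ x, |qd M x| ≤ κM * n2 x) (x : X → ℝ) :
    Cv w (qx M) (sqv x) ≤ 2 * qd (off M) x + T99c a D M x + 100 * κM * Zq a x := by
  have h1 := Q4 h hD hw hM h0 hκ x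
  have h2 := (abs_le.1 h1).2
  have h3 : Cv w (qx M) (sqv x) = Cv w (qx M) (fun s => dt x s ^ 2) := rfl
  have he := (Real.exp_pos (-D)).le
  have h4 : Real.exp (-D) * ∑ i, ap (off M) x i * ap a x i ≤
      Real.exp (-D) * |∑ i, ap (off M) x i * ap a x i| :=
    mul_le_mul_of_nonneg_left (le_abs_self _) he
  have h5 : -(Real.exp (-D) * |∑ i, x i ^ 2 * ∑ l, off M i l * a i l|) ≤
      Real.exp (-D) * ∑ i, x i ^ 2 * ∑ l, off M i l * a i l := by
    rw [← mul_neg]
    exact mul_le_mul_of_nonneg_left (neg_abs_le _) he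
  rw [h3]
  unfold T99c
  linarith

private lemma ns_col99c (f g : α → ℝ) (F : α → α → ℝ) :
    ns r (fun A C => f A * g C * F A C) =
      ∑ C, g C * ∑ A, (if r A C then 0 else f A) * F A C := by
  unfold ns
  rw [Finset.sum_comm]
  refine Finset.sum_congr rfl fun C _ => ?_
  rw [Finset.mul_sum]
  refine Finset.sum_congr rfl fun A _ => ?_
  split_ifs <;> ring

private lemma nu_bd99c (hB : BDat r θ m k j v z y R Ph) {a b : Matrix X X ℝ} {κ D : ℝ}
    (h : QH a b κ) (hD : 0 ≤ D) (A : α) : 0 ≤ nu3 a D z A ∧ nu3 a D z A ≤ 91 / 90 := by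
  have h1 := abs_le.1 (nu3_le hB h hD A)
  constructor <;> linarith [h1.1, h1.2]

private lemma nunu99c (hB : BDat r θ m k j v z y R Ph) {a b : Matrix X X ℝ} {κ D : ℝ}
    (h : QH a b κ) (hD : 0 ≤ D) (A C : α) :
    0 ≤ nu3 a D z A * nu3 a D z C ∧ nu3 a D z A * nu3 a D z C ≤ 103 / 100 := by
  have h1 := nu_bd99c hB h hD A
  have h2 := nu_bd99c hB h hD C
  refine ⟨mul_nonneg h1.1 h2.1, ?_⟩
  have h3 := mul_le_mul h1.2 h2.2 h2.1 (by norm_num : (0 : ℝ) ≤ 91 / 90)
  refine h3.trans ?_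
  norm_num

private lemma ip_zy99c (hB : BDat r θ m k j v z y R Ph) (p : X → ℝ) (C : α) :
    ip p (z C) ^ 2 ≤ 2 * ip p (v C) ^ 2 + 2 * ip p (y C) ^ 2 := by
  have e : ip p (z C) = ip p (v C) - ip p (y C) := by
    unfold ip
    rw [← Finset.sum_sub_distrib]
    refine Finset.sum_congr rfl fun i _ => ?_
    rw [hB.vzy C i]
    ring
  rw [e]
  nlinarith [sq_nonneg (ip p (v C) + ip p (y C))]

private lemma diag_zy99c (hB : BDat r θ m k j v z y R Ph) (p : X → ℝ) (C : α) :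
    ∑ i, p i ^ 2 * z C i ^ 2 ≤ 2 * (∑ i, p i ^ 2 * v C i ^ 2) + 2 * ∑ i, p i ^ 2 * y C i ^ 2 := by
  rw [Finset.mul_sum, Finset.mul_sum, ← Finset.sum_add_distrib]
  refine Finset.sum_le_sum fun i _ => ?_
  have e : z C i = v C i - y C i := by rw [hB.vzy C i]; ring
  rw [e]
  have h1 : (v C i - y C i) ^ 2 ≤ 2 * v C i ^ 2 + 2 * y C i ^ 2 := by
    nlinarith [sq_nonneg (v C i + y C i)]
  have h2 := mul_le_mul_of_nonneg_left h1 (sq_nonneg (p i))
  linarith

/-- one column -/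
private lemma col99c (hB : BDat r θ m k j v z y R Ph) {a b : Matrix X X ℝ} {κ D : ℝ}
    (h : QH a b κ) (hD : 0 ≤ D) {w : (X → Bool) → ℝ} (hw : Fld w D a b) (C : α) :
    Cv w (qx (Gw (fun A => if r A C then 0 else nu3 a D z A * nu3 a D z C * mu k j A C) z))
      (sqv (z C)) ≤
    m C * (429 / 100 * (∑ A, (if r A C then 0 else k A) * ip (z A) (z C) ^ 2)
      + 338 / 100 * (∑ A, (if r A C then 0 else k A) * ∑ i, z A i ^ 2 * z C i ^ 2)
      + 138 * K0 * Zq a (z C)) := by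
  have hK := K0_pos
  have hk0 := hB.k0
  rcases (hB.m0 C).eq_or_lt with h0 | hpos
  · have hz : z C = 0 := hB.z0 C h0.symm
    have hs : sqv (z C) = fun _ : X → Bool => (0 : ℝ) := by
      funext s
      unfold sqv dt
      rw [hz]
      simp
    rw [hs, ← h0, zero_mul]
    unfold Cv Ew
    simp
  · -- bounds of the coefficients
    have hc0 : ∀ A, 0 ≤ (if r A C then 0 else nu3 a D z A * nu3 a D z C * mu k j A C) := by
      intro A
      split_ifs
      · exact le_rfl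
      · exact mul_nonneg (nunu99c hB h hD A C).1 (mu_nonneg k j hk0 hB.j0 A C)
    have hc1 : ∀ A, (if r A C then 0 else nu3 a D z A * nu3 a D z C * mu k j A C) ≤
        13 / 10 * m C * (if r A C then 0 else k A) := by
      intro A
      split_ifs
      · simp
      · have h1 := nunu99c hB h hD A C
        have h2 := mu_le hB A C
        have h3 := mu_nonneg k j hk0 hB.j0 A C
        have h4 := mul_nonneg (hk0 A) hpos.le
        calc nu3 a D z A * nu3 a D z C * mu k j A C ≤ 103 / 100 * (5 / 4 * (k A * m C)) :=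
              mul_le_mul h1.2 h2 h3 (by norm_num)
          _ ≤ 13 / 10 * m C * k A := by linarith
    have hqd : ∀ x, qd (Gw (fun A => if r A C then 0 else
        nu3 a D z A * nu3 a D z C * mu k j A C) z) x ≤
        13 / 10 * m C * ∑ A, (if r A C then 0 else k A) * ip (z A) x ^ 2 := by
      intro x
      rw [Gw_qd, Finset.mul_sum]
      refine Finset.sum_le_sum fun A _ => ?_
      have := mul_le_mul_of_nonneg_right (hc1 A) (sq_nonneg (ip (z A) x))
      linarith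
    have hsub : ∀ x, ∑ A, (if r A C then 0 else k A) * ip (z A) x ^ 2 ≤ K0 * n2 x := by
      intro x
      refine le_trans ?_ (hB.qN x)
      rw [Gw_qd]
      refine Finset.sum_le_sum fun A _ => ?_
      refine mul_le_mul_of_nonneg_right ?_ (sq_nonneg _)
      split_ifs
      · exact hk0 A
      · exact le_rfl
    have hform : ∀ x, |qd (Gw (fun A => if r A C then 0 else
        nu3 a D z A * nu3 a D z C * mu k j A C) z) x| ≤ 13 / 10 * m C * K0 * n2 x := by
      intro x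
      rw [abs_of_nonneg]
      · refine (hqd x).trans ?_
        have := mul_le_mul_of_nonneg_left (hsub x) (show 0 ≤ 13 / 10 * m C by positivity)
        linarith
      · rw [Gw_qd]
        exact Finset.sum_nonneg fun A _ => mul_nonneg (hc0 A) (sq_nonneg _)
    have hq := Q4_up99c h hD hw (Gw_sym _ z) (show 0 ≤ 13 / 10 * m C * K0 by positivity) hform
      (z C)
    have hoff : qd (off (Gw (fun A => if r A C then 0 else
        nu3 a D z A * nu3 a D z C * mu k j A C) z)) (z C) ≤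
        13 / 10 * m C * ∑ A, (if r A C then 0 else k A) * ip (z A) (z C) ^ 2 := by
      refine le_trans ?_ (hqd (z C))
      rw [gf_qd_off]
      have : 0 ≤ ∑ i, Gw (fun A => if r A C then 0 else
          nu3 a D z A * nu3 a D z C * mu k j A C) z i i * z C i ^ 2 := by
        refine Finset.sum_nonneg fun i _ => mul_nonneg ?_ (sq_nonneg _)
        unfold Gw
        exact Finset.sum_nonneg fun A _ => mul_nonneg (hc0 A) (mul_self_nonneg _)
      linarith
    have hT : T99c a D (Gw (fun A => if r A C then 0 else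
        nu3 a D z A * nu3 a D z C * mu k j A C) z) (z C) ≤
        1 / m C * (∑ A, k A * (if r A C then 0 else 13 / 10 * m C) ^ 2 * ip (z A) (z C) ^ 2
          + 2 * ∑ A, k A * (if r A C then 0 else 13 / 10 * m C) ^ 2 *
            ∑ i, z A i ^ 2 * z C i ^ 2)
        + 8 * K0 / (1 / m C) * Zq a (z C) := by
      refine lin_part h.ad hD _ k (fun A => if r A C then 0 else 13 / 10 * m C) z hK hk0
        (fun A => ?_) (fun A => ?_) hB.qN (z C) (1 / m C) (by positivity)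
      · try simp only
        split_ifs
        · exact le_rfl
        · positivity
      · rw [abs_of_nonneg (hc0 A)]
        refine (hc1 A).trans (le_of_eq ?_)
        try simp only
        split_ifs <;> ring
    have e1 : ∑ A, k A * (if r A C then 0 else 13 / 10 * m C) ^ 2 * ip (z A) (z C) ^ 2 =
        (13 / 10 * m C) ^ 2 * ∑ A, (if r A C then 0 else k A) * ip (z A) (z C) ^ 2 := by
      rw [Finset.mul_sum]
      refine Finset.sum_congr rfl fun A _ => ?_
      split_ifs <;> ring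
    have e2 : ∑ A, k A * (if r A C then 0 else 13 / 10 * m C) ^ 2 *
        ∑ i, z A i ^ 2 * z C i ^ 2 =
        (13 / 10 * m C) ^ 2 * ∑ A, (if r A C then 0 else k A) * ∑ i, z A i ^ 2 * z C i ^ 2 := by
      rw [Finset.mul_sum]
      refine Finset.sum_congr rfl fun A _ => ?_
      split_ifs <;> ring
    rw [e1, e2] at hT
    have e3 : 1 / m C * ((13 / 10 * m C) ^ 2 *
        (∑ A, (if r A C then 0 else k A) * ip (z A) (z C) ^ 2) +
        2 * ((13 / 10 * m C) ^ 2 *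
          ∑ A, (if r A C then 0 else k A) * ∑ i, z A i ^ 2 * z C i ^ 2)) +
        8 * K0 / (1 / m C) * Zq a (z C) =
        169 / 100 * (m C * ∑ A, (if r A C then 0 else k A) * ip (z A) (z C) ^ 2) +
        338 / 100 * (m C * ∑ A, (if r A C then 0 else k A) * ∑ i, z A i ^ 2 * z C i ^ 2) +
        8 * (K0 * m C * Zq a (z C)) := by
      field_simp
      ring
    rw [e3] at hT
    have e4 : m C * (429 / 100 * (∑ A, (if r A C then 0 else k A) * ip (z A) (z C) ^ 2)
      + 338 / 100 * (∑ A, (if r A C then 0 else k A) * ∑ i, z A i ^ 2 * z C i ^ 2)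
      + 138 * K0 * Zq a (z C)) =
      2 * (13 / 10 * m C * ∑ A, (if r A C then 0 else k A) * ip (z A) (z C) ^ 2) +
      (169 / 100 * (m C * ∑ A, (if r A C then 0 else k A) * ip (z A) (z C) ^ 2) +
        338 / 100 * (m C * ∑ A, (if r A C then 0 else k A) * ∑ i, z A i ^ 2 * z C i ^ 2) +
        8 * (K0 * m C * Zq a (z C))) + 100 * (13 / 10 * m C * K0) * Zq a (z C) := by ring
    rw [e4]
    linarith

private lemma sumH99c (hB : BDat r θ m k j v z y R Ph) :
    ∑ C, m C * (∑ A, (if r A C then 0 else k A) * ip (z A) (z C) ^ 2) ≤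
      2 * Sur r m k v z + 2 * (K0 * ms m y) := by
  have hk0 := hB.k0
  have hm0 := hB.m0
  have h1 : ∑ C, m C * (∑ A, (if r A C then 0 else k A) * ip (z A) (z C) ^ 2) ≤
      ∑ C, (2 * (m C * ∑ A, (if r A C then 0 else k A) * ip (z A) (v C) ^ 2) +
        2 * (m C * ∑ A, k A * ip (z A) (y C) ^ 2)) := by
    refine Finset.sum_le_sum fun C _ => ?_
    have h2 : ∑ A, (if r A C then 0 else k A) * ip (z A) (z C) ^ 2 ≤
        2 * (∑ A, (if r A C then 0 else k A) * ip (z A) (v C) ^ 2) +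
        2 * ∑ A, k A * ip (z A) (y C) ^ 2 := by
      rw [Finset.mul_sum, Finset.mul_sum, ← Finset.sum_add_distrib]
      refine Finset.sum_le_sum fun A _ => ?_
      have h3 := ip_zy99c hB (z A) C
      split_ifs
      · have := mul_nonneg (hk0 A) (sq_nonneg (ip (z A) (y C)))
        rw [zero_mul, zero_mul]
        linarith
      · have := mul_le_mul_of_nonneg_left h3 (hk0 A)
        linarith
    have h4 := mul_le_mul_of_nonneg_left h2 (hm0 C)
    linarith
  refine h1.trans ?_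
  rw [Finset.sum_add_distrib, ← Finset.mul_sum, ← Finset.mul_sum]
  have h5 : ∑ C, m C * ∑ A, (if r A C then 0 else k A) * ip (z A) (v C) ^ 2 =
      Sur r m k v z := by
    unfold Sur
    rw [ns_col99c]
  have h6 : ∑ C, m C * ∑ A, k A * ip (z A) (y C) ^ 2 ≤ K0 * ms m y := by
    unfold ms
    rw [Finset.mul_sum]
    refine Finset.sum_le_sum fun C _ => ?_
    have h7 := hB.qN (y C)
    rw [Gw_qd] at h7
    have := mul_le_mul_of_nonneg_left h7 (hm0 C)
    linarith
  rw [h5]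
  linarith

private lemma sumHd99c (hB : BDat r θ m k j v z y R Ph) :
    ∑ C, m C * (∑ A, (if r A C then 0 else k A) * ∑ i, z A i ^ 2 * z C i ^ 2) ≤
      2 * Eb r m k v z + 2 * (K0 * ms m y) := by
  have hk0 := hB.k0
  have hm0 := hB.m0
  have h1 : ∑ C, m C * (∑ A, (if r A C then 0 else k A) * ∑ i, z A i ^ 2 * z C i ^ 2) ≤
      ∑ C, (2 * (m C * ∑ A, (if r A C then 0 else k A) * ∑ i, z A i ^ 2 * v C i ^ 2) +
        2 * (m C * ∑ A, k A * ∑ i, z A i ^ 2 * y C i ^ 2)) := by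
    refine Finset.sum_le_sum fun C _ => ?_
    have h2 : ∑ A, (if r A C then 0 else k A) * ∑ i, z A i ^ 2 * z C i ^ 2 ≤
        2 * (∑ A, (if r A C then 0 else k A) * ∑ i, z A i ^ 2 * v C i ^ 2) +
        2 * ∑ A, k A * ∑ i, z A i ^ 2 * y C i ^ 2 := by
      rw [Finset.mul_sum, Finset.mul_sum, ← Finset.sum_add_distrib]
      refine Finset.sum_le_sum fun A _ => ?_
      have h3 := diag_zy99c hB (z A) C
      split_ifs
      · have h8 : 0 ≤ ∑ i, z A i ^ 2 * y C i ^ 2 :=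
          Finset.sum_nonneg fun i _ => mul_nonneg (sq_nonneg _) (sq_nonneg _)
        have := mul_nonneg (hk0 A) h8
        rw [zero_mul, zero_mul]
        linarith
      · have := mul_le_mul_of_nonneg_left h3 (hk0 A)
        linarith
    have h4 := mul_le_mul_of_nonneg_left h2 (hm0 C)
    linarith
  refine h1.trans ?_
  rw [Finset.sum_add_distrib, ← Finset.mul_sum, ← Finset.mul_sum]
  have h5 : ∑ C, m C * ∑ A, (if r A C then 0 else k A) * ∑ i, z A i ^ 2 * v C i ^ 2 =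
      Eb r m k v z := by
    unfold Eb
    rw [ns_col99c]
  have h6 : ∑ C, m C * ∑ A, k A * ∑ i, z A i ^ 2 * y C i ^ 2 ≤ K0 * ms m y := by
    unfold ms
    rw [Finset.mul_sum]
    refine Finset.sum_le_sum fun C _ => ?_
    have h7 : ∑ A, k A * ∑ i, z A i ^ 2 * y C i ^ 2 ≤ K0 * n2 (y C) := by
      have h8 : ∑ A, k A * ∑ i, z A i ^ 2 * y C i ^ 2 = ∑ i, Gw k z i i * y C i ^ 2 := by
        unfold Gw
        simp only [Finset.sum_mul, Finset.mul_sum]
        rw [Finset.sum_comm]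
        exact Finset.sum_congr rfl fun A _ => Finset.sum_congr rfl fun i _ => by ring
      rw [h8]
      unfold n2
      rw [Finset.mul_sum]
      refine Finset.sum_le_sum fun i _ => ?_
      exact mul_le_mul_of_nonneg_right (gf_diag (gb_N0 hk0 z) hB.qN i).2 (sq_nonneg _)
    have := mul_le_mul_of_nonneg_left h7 (hm0 C)
    linarith
  rw [h5]
  linarith

theorem bonus3 {a b : Matrix X X ℝ} {κ D : ℝ} (hB : BDat r θ m k j v z y R Ph) (h : QH a b κ) (hD : 0 ≤ D)
    {w : (X → Bool) → ℝ} (hw : Fld w D a b) (hbad : Bad0 m k v z Ph a) :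
    -(9 * Sur r m k v z + 7 * Eb r m k v z + 16 * K0 * ms m y + 276 * K0 * ms m (fun A => ap a (v A))
        + 138 * K0 * NNq Ph a) ≤
      hs r (fun A C => nu3 a D z A * nu3 a D z C * mu k j A C * Cv w (sqv (z A)) (sqv (z C))) := by
  have hK := K0_pos
  have hκ2 : κ ^ 2 ≤ (1 / 100) ^ 2 := pow_le_pow_left₀ h.κ0 h.κ1 2
  have hY := ms_nonneg99c hB.m0 y
  have h1 := bonus_var hB (nu3 a D z) w hw.w0 hw.w1
  have h2 := hs_add_ns r (fun A C => nu3 a D z A * nu3 a D z C * mu k j A C *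
    Cv w (sqv (z A)) (sqv (z C)))
  have h3 : ns r (fun A C => nu3 a D z A * nu3 a D z C * mu k j A C *
      Cv w (sqv (z A)) (sqv (z C))) =
      ∑ C, Cv w (qx (Gw (fun A => if r A C then 0 else
        nu3 a D z A * nu3 a D z C * mu k j A C) z)) (sqv (z C)) := by
    unfold ns
    rw [Finset.sum_comm]
    refine Finset.sum_congr rfl fun C _ => ?_
    rw [← Cv_sum_left]
    refine Finset.sum_congr rfl fun A _ => ?_
    split_ifs <;> ring
  have h4 : ∑ C, Cv w (qx (Gw (fun A => if r A C then 0 else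
        nu3 a D z A * nu3 a D z C * mu k j A C) z)) (sqv (z C)) ≤
      429 / 100 * (∑ C, m C * (∑ A, (if r A C then 0 else k A) * ip (z A) (z C) ^ 2))
      + 338 / 100 * (∑ C, m C * (∑ A, (if r A C then 0 else k A) *
          ∑ i, z A i ^ 2 * z C i ^ 2))
      + 138 * K0 * ∑ C, m C * Zq a (z C) := by
    rw [Finset.mul_sum, Finset.mul_sum, Finset.mul_sum, ← Finset.sum_add_distrib,
      ← Finset.sum_add_distrib]
    refine Finset.sum_le_sum fun C _ => ?_
    refine (col99c hB h hD hw C).trans (le_of_eq ?_)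
    ring
  have h5 := sumH99c hB
  have h6 := sumHd99c hB
  have h7 := sum_mZq_z hB h hbad
  have h8 := mul_le_mul_of_nonneg_left h7 (show 0 ≤ 138 * K0 by positivity)
  have h9 : κ ^ 2 * (K0 * ms m y) ≤ (1 / 100) ^ 2 * (K0 * ms m y) :=
    mul_le_mul_of_nonneg_right hκ2 (mul_nonneg hK.le hY)
  have h10 : 0 ≤ K0 * ms m y := mul_nonneg hK.le hY
  have h11 : 0 ≤ Sur r m k v z := by
    unfold Sur
    exact ns_nonneg r _ fun A C _ => mul_nonneg (mul_nonneg (hB.k0 A) (hB.m0 C)) (sq_nonneg _)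
  have h12 : 0 ≤ Eb r m k v z := by
    unfold Eb
    refine ns_nonneg r _ fun A C _ => mul_nonneg (mul_nonneg (hB.k0 A) (hB.m0 C)) ?_
    exact Finset.sum_nonneg fun i _ => mul_nonneg (sq_nonneg _) (sq_nonneg _)
  have e8 : 138 * K0 * (2 * ms m (fun A => ap a (v A)) + NNq Ph a + 2 * κ ^ 2 * ms m y) =
      276 * K0 * ms m (fun A => ap a (v A)) + 138 * K0 * NNq Ph a +
      276 * (κ ^ 2 * (K0 * ms m y)) := by ring
  rw [e8] at h8
  have e16 : 16 * K0 * ms m y = 16 * (K0 * ms m y) := by ring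
  rw [e16]
  rw [h3] at h2
  linarith

theorem XE3 {a b : Matrix X X ℝ} {κ D : ℝ} (hB : BDat r θ m k j v z y R Ph) (h : QH a b κ) (hD : 0 ≤ D)
    {w : (X → Bool) → ℝ} (hw : Fld w D a b) (hbad : Bad0 m k v z Ph a) (ε1 ε2 : ℝ) (h1 : 0 < ε1) (h2 : 0 < ε2)
    (δ hh : ℝ) (hδ : 0 ≤ δ) (hh0 : 0 ≤ hh) (hh1 : hh ≤ 1 / 1000000) (hhK : hh * K0 ≤ 1 / 1000) (W : α → ℝ) :
    Psi θ δ hh r W m k j + ∑ A, m A * uu a D (v A) * lamA θ δ hh r W m k j A
      - 4 * δ * hs r (fun A C => k A * m C * (nu3 a D z A * chi (z A) (v C)))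
      - δ * (51 / 5 * ms m y + ε1 * ms m (fun A => ap (off (Gw k z)) (v A))
        + (16 / ε1 + 308 * K0) * ms m (fun A => ap a (v A)) + (1 / 2 + 9 * hh) * Sur r m k v z
        + (1 + 7 * hh) * Eb r m k v z + 4 * ε2 * Bq Ph (Gw k z) + (4 / ε2 + 308 * K0) * NNq Ph a)
      ≤ Ew w (Pol θ δ hh r W m k j (nu3 a D z) v z y) := by
  have hK := K0_pos
  have hKge := K0_ge
  have hκ2 : κ ^ 2 ≤ (1 / 100) ^ 2 := pow_le_pow_left₀ h.κ0 h.κ1 2
  have hY := ms_nonneg99c hB.m0 y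
  have hAA := ms_nonneg99c hB.m0 (fun A => ap a (v A))
  have hNN := NN_nonneg99c hB a
  have a1 := XE3a hB h hD hw δ hh hδ hh0 hh1 W
  have a2 := mul_le_mul_of_nonneg_left (XE3b hB h hD hw hbad ε1 ε2 h1 h2) hδ
  have a3 := mul_le_mul_of_nonneg_left (bonus3 hB h hD hw hbad) (mul_nonneg hh0 hδ)
  obtain ⟨u1, u2⟩ := sum_uu hB h hD
  have a4 : ∑ A, m A * (uu a D (v A) ^ 2 + uu a D (z A) ^ 2) ≤
      3 * ms m (fun A => ap a (v A)) + 2 * κ ^ 2 * ms m y := by
    have e : ∑ A, m A * (uu a D (v A) ^ 2 + uu a D (z A) ^ 2) =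
        ∑ A, m A * uu a D (v A) ^ 2 + ∑ A, m A * uu a D (z A) ^ 2 := by
      rw [← Finset.sum_add_distrib]
      exact Finset.sum_congr rfl fun A _ => by ring
    rw [e]
    linarith
  have a5 : δ * (5 * ms m y + ∑ A, m A * (uu a D (v A) ^ 2 + uu a D (z A) ^ 2)) ≤
      δ * (5 * ms m y + (3 * ms m (fun A => ap a (v A)) + 2 * κ ^ 2 * ms m y)) :=
    mul_le_mul_of_nonneg_left (by linarith) hδ
  -- the error terms
  have b1 : κ ^ 2 * ms m y ≤ (1 / 100) ^ 2 * ms m y := mul_le_mul_of_nonneg_right hκ2 hY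
  have b2 : hh * K0 * ms m y ≤ 1 / 1000 * ms m y := mul_le_mul_of_nonneg_right hhK hY
  have b3 : hh * K0 * ms m (fun A => ap a (v A)) ≤ 1 / 1000 * ms m (fun A => ap a (v A)) :=
    mul_le_mul_of_nonneg_right hhK hAA
  have b4 : hh * K0 * NNq Ph a ≤ 1 / 1000 * NNq Ph a := mul_le_mul_of_nonneg_right hhK hNN
  have b5 : 80000 * ms m (fun A => ap a (v A)) ≤ K0 * ms m (fun A => ap a (v A)) :=
    mul_le_mul_of_nonneg_right hKge hAA
  have b6 : 80000 * NNq Ph a ≤ K0 * NNq Ph a := mul_le_mul_of_nonneg_right hKge hNN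
  have key : 5 * ms m y + (3 * ms m (fun A => ap a (v A)) + 2 * κ ^ 2 * ms m y)
      + (51 / 10 * ms m y + ε1 * ms m (fun A => ap (off (Gw k z)) (v A))
        + (16 / ε1 + 307 * K0) * ms m (fun A => ap a (v A)) + 1 / 2 * Sur r m k v z
        + Eb r m k v z + 4 * ε2 * Bq Ph (Gw k z) + (4 / ε2 + 307 * K0) * NNq Ph a)
      + hh * (9 * Sur r m k v z + 7 * Eb r m k v z + 16 * K0 * ms m y
        + 276 * K0 * ms m (fun A => ap a (v A)) + 138 * K0 * NNq Ph a) ≤
      51 / 5 * ms m y + ε1 * ms m (fun A => ap (off (Gw k z)) (v A))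
        + (16 / ε1 + 308 * K0) * ms m (fun A => ap a (v A)) + (1 / 2 + 9 * hh) * Sur r m k v z
        + (1 + 7 * hh) * Eb r m k v z + 4 * ε2 * Bq Ph (Gw k z)
        + (4 / ε2 + 308 * K0) * NNq Ph a := by
    have e1 : (16 / ε1 + 307 * K0) * ms m (fun A => ap a (v A)) =
        16 / ε1 * ms m (fun A => ap a (v A)) + 307 * (K0 * ms m (fun A => ap a (v A))) := by ring
    have e2 : (16 / ε1 + 308 * K0) * ms m (fun A => ap a (v A)) =
        16 / ε1 * ms m (fun A => ap a (v A)) + 308 * (K0 * ms m (fun A => ap a (v A))) := by ring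
    have e3 : (4 / ε2 + 307 * K0) * NNq Ph a = 4 / ε2 * NNq Ph a + 307 * (K0 * NNq Ph a) := by
      ring
    have e4 : (4 / ε2 + 308 * K0) * NNq Ph a = 4 / ε2 * NNq Ph a + 308 * (K0 * NNq Ph a) := by
      ring
    have e5 : hh * (9 * Sur r m k v z + 7 * Eb r m k v z + 16 * K0 * ms m y
        + 276 * K0 * ms m (fun A => ap a (v A)) + 138 * K0 * NNq Ph a) =
        9 * hh * Sur r m k v z + 7 * hh * Eb r m k v z + 16 * (hh * K0 * ms m y)
        + 276 * (hh * K0 * ms m (fun A => ap a (v A))) + 138 * (hh * K0 * NNq Ph a) := by ring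
    rw [e1, e2, e3, e4, e5]
    linarith
  have key2 := mul_le_mul_of_nonneg_left key hδ
  have c1 : 4 * δ * hs r (fun A C => k A * m C * (nu3 a D z A * chi (z A) (v C))) =
      δ * (4 * hs r (fun A C => k A * m C * (nu3 a D z A * chi (z A) (v C)))) := by ring
  have c2 : 2 * δ * hs r (fun A C => k A * m C *
          (nu3 a D z A * Cv w (sqv (z A)) (sqv (v C)) + 9 / 8 * Cv w (sqv (y A)) (sqv (v C)))) =
      δ * (2 * hs r (fun A C => k A * m C *
          (nu3 a D z A * Cv w (sqv (z A)) (sqv (v C))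
            + 9 / 8 * Cv w (sqv (y A)) (sqv (v C))))) := by ring
  rw [c2] at a1
  rw [c1]
  refine le_trans ?_ a1
  have d1 := mul_add δ
  linarith

end BMV
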