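import Pool.Agent.BMV.XE2
import Pool.Agent.BMV.XE3c

/-! BMV XTot (helper94): the average of the three experiments.

`ν3 = nu3 a D z`, `ν2 = 2 - ν3`, `|ν2 - 1| = |ν3 - 1| ≤ 1/90`.
`posit`: `∑_{A,C} k m' chi(z,v') = TQ` (`chi p q = ∑_{i≠l} p_i p_l q_i q_l`), so `hs(k m' chi(z,v')) = TQ - ns(k m' chi(z,v')) = TQ - Sur + Eb`.
Sum of `XE1`, `XE2` (`ν = ν2`), `XE3`: the `chi` terms are `-4δ hs(k m' chi (1 + ν2 + ν3)) = -12 δ (TQ - Sur + Eb)`.
`∑ m (ν2 - 1)^2 ≤ (21/20) ∑ m uu(z)^2 ≤ (21/20)(2 AA + 2 κ^2 Y)`.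
`Sur`: `12 - 1/2 - 9hh - 12hh ≥ 0`, drop it (`Sur ≥ 0`). `Eb`: `12 + 1 + 7hh ≤ 13.1`. `Y`: `91/10 + 91/10 + 51/5 + 1/1000 ≤ 28.5`. `AA`: `16/ε1 + 308 K0 + 3 ≤ 16/ε1 + 309 K0`. Divide by `3`. -/

namespace BMV

open Finset BMP

variable {α X : Type} [Fintype α] [Fintype X] [DecidableEq X] {r : α → α → Prop} [DecidableRel r]
  {θ : ℝ} {m k j : α → ℝ} {v z y : α → X → ℝ} {R : Matrix X X ℝ} {Ph : X → ℝ}

private theorem chi_sum (p q : X → ℝ) :
    chi p q = ∑ i, ∑ l, if i = l then 0 else p i * p l * (q i * q l) := by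
  have h1 : ip p q ^ 2 = ∑ i, ∑ l, p i * p l * (q i * q l) := by
    unfold ip
    rw [sq, Finset.sum_mul_sum]
    exact Finset.sum_congr rfl fun i _ => Finset.sum_congr rfl fun l _ => by ring
  have h2 : ∑ i, p i ^ 2 * q i ^ 2 = ∑ i, ∑ l, if i = l then p i * p l * (q i * q l) else 0 := by
    refine Finset.sum_congr rfl fun i _ => ?_
    rw [Finset.sum_ite_eq Finset.univ i, if_pos (Finset.mem_univ _)]
    ring
  unfold chi
  rw [h1, h2, ← Finset.sum_sub_distrib]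
  refine Finset.sum_congr rfl fun i _ => ?_
  rw [← Finset.sum_sub_distrib]
  refine Finset.sum_congr rfl fun l _ => ?_
  split_ifs <;> ring

private theorem TQ_sum (m k : α → ℝ) (v z : α → X → ℝ) :
    TQ m k v z = ∑ A, ∑ C, k A * m C * chi (z A) (v C) := by
  have h1 : ∀ A C, k A * m C * chi (z A) (v C) =
      ∑ i, ∑ l, if i = l then 0 else k A * (z A i * z A l) * (m C * (v C i * v C l)) := by
    intro A C
    rw [chi_sum, Finset.mul_sum]
    refine Finset.sum_congr rfl fun i _ => ?_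
    rw [Finset.mul_sum]
    refine Finset.sum_congr rfl fun l _ => ?_
    split_ifs <;> ring
  have h2 : ∀ i l, off (Gw k z) i l * Gw m v i l =
      ∑ A, ∑ C, if i = l then 0 else k A * (z A i * z A l) * (m C * (v C i * v C l)) := by
    intro i l
    unfold off Gw
    by_cases h : i = l
    · simp [h]
    · simp only [h, if_false]
      rw [Finset.sum_mul_sum]
  unfold TQ
  simp_rw [h1, h2]
  rw [show (∑ i, ∑ l, ∑ A, ∑ C, (if i = l then (0 : ℝ) else k A * (z A i * z A l) * (m C * (v C i * v C l))))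
    = ∑ i, ∑ A, ∑ l, ∑ C, (if i = l then (0 : ℝ) else k A * (z A i * z A l) * (m C * (v C i * v C l))) from
      Finset.sum_congr rfl fun i _ => Finset.sum_comm]
  rw [Finset.sum_comm]
  refine Finset.sum_congr rfl fun A _ => ?_
  rw [show (∑ i, ∑ l, ∑ C, (if i = l then (0 : ℝ) else k A * (z A i * z A l) * (m C * (v C i * v C l))))
    = ∑ i, ∑ C, ∑ l, (if i = l then (0 : ℝ) else k A * (z A i * z A l) * (m C * (v C i * v C l))) from
      Finset.sum_congr rfl fun i _ => Finset.sum_comm]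
  rw [Finset.sum_comm]

theorem posit (r : α → α → Prop) [DecidableRel r] (m k : α → ℝ) (v z : α → X → ℝ) :
    hs r (fun A C => k A * m C * chi (z A) (v C)) = TQ m k v z - Sur r m k v z + Eb r m k v z := by
  have h1 := hs_add_ns r (fun A C => k A * m C * chi (z A) (v C))
  rw [← TQ_sum] at h1
  have h2 : ns r (fun A C => k A * m C * chi (z A) (v C)) = Sur r m k v z - Eb r m k v z := by
    unfold Sur Eb
    rw [← ns_sub]
    congr 1
    funext A C
    unfold chi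
    ring
  linarith

theorem XTot {a b : Matrix X X ℝ} {κ D : ℝ} (hB : BDat r θ m k j v z y R Ph) (h : QH a b κ) (hD : 0 ≤ D)
    {w : (X → Bool) → ℝ} (hw : Fld w D a b) (hbad : Bad0 m k v z Ph a) (ε1 ε2 : ℝ) (h1 : 0 < ε1) (h2 : 0 < ε2)
    (δ hh : ℝ) (hδ : 0 ≤ δ) (hh0 : 0 ≤ hh) (hh1 : hh ≤ 1 / 1000000) (hhK : hh * K0 ≤ 1 / 1000) (W : α → ℝ) :
    Psi θ δ hh r W m k j + 1 / 3 * ∑ A, m A * uu a D (v A) * lamA θ δ hh r W m k j A
      + δ / 3 * ∑ A, (1 - nu3 a D z A) * XiA θ hh r m k j A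
      + hh * δ * (Bq Ph (Gw k z) / (24 * L0))
      - 4 * δ * TQ m k v z
      - δ * (19 / 2 * ms m y + 22 / 5 * Eb r m k v z + ε1 / 3 * ms m (fun A => ap (off (Gw k z)) (v A))
        + (16 / ε1 + 309 * K0) / 3 * ms m (fun A => ap a (v A)) + 4 / 3 * ε2 * Bq Ph (Gw k z)
        + (4 / ε2 + 308 * K0) / 3 * NNq Ph a)
      ≤ (Ew (uw X) (Pol θ δ hh r W m k j (fun _ => 1) v z y)
        + Ew (uw X) (Pol θ δ hh r W m k j (fun A => 2 - nu3 a D z A) v z y)
        + Ew w (Pol θ δ hh r W m k j (nu3 a D z) v z y)) / 3 := by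
  have hν : ∀ A, |(fun A => 2 - nu3 a D z A) A - 1| ≤ 1 / 90 := by
    intro A
    have := nu3_le hB h hD A
    rw [show (fun A => 2 - nu3 a D z A) A - 1 = -(nu3 a D z A - 1) by ring, abs_neg]
    exact this
  have e1 := XE1 hB δ hh hδ hh0 hh1 hhK W
  have e2 := XE2 hB δ hh hδ hh0 hh1 hhK W (fun A => 2 - nu3 a D z A) hν
  have e3 := XE3 hB h hD hw hbad ε1 ε2 h1 h2 δ hh hδ hh0 hh1 hhK W
  have hpos := posit r m k v z
  -- the chi terms
  have hchi : hs r (fun A C => k A * m C * ((2 - nu3 a D z A) * chi (z A) (v C)))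
      + hs r (fun A C => k A * m C * (nu3 a D z A * chi (z A) (v C)))
      = 2 * hs r (fun A C => k A * m C * chi (z A) (v C)) := by
    rw [← hs_add, ← hs_mul_left]
    refine hs_congr r _ _ fun A C _ => ?_
    ring
  rw [hpos] at hchi e1
  -- nonnegativity
  have hSur : 0 ≤ Sur r m k v z :=
    ns_nonneg r _ fun A C _ => mul_nonneg (mul_nonneg (hB.k0 A) (hB.m0 C)) (sq_nonneg _)
  have hEb : 0 ≤ Eb r m k v z :=
    ns_nonneg r _ fun A C _ => mul_nonneg (mul_nonneg (hB.k0 A) (hB.m0 C))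
      (Finset.sum_nonneg fun i _ => mul_nonneg (sq_nonneg _) (sq_nonneg _))
  have hms : ∀ u : α → X → ℝ, 0 ≤ ms m u := fun u =>
    Finset.sum_nonneg fun A _ => mul_nonneg (hB.m0 A) (Finset.sum_nonneg fun i _ => sq_nonneg _)
  have hY := hms y
  have hAA := hms (fun A => ap a (v A))
  -- the square of the correction
  have hsq : ∑ A, m A * ((2 - nu3 a D z A) - 1) ^ 2 ≤
      21 / 20 * (2 * ms m (fun A => ap a (v A)) + 2 * κ ^ 2 * ms m y) := by
    have k1 : ∑ A, m A * ((2 - nu3 a D z A) - 1) ^ 2 ≤ ∑ A, 21 / 20 * (m A * uu a D (z A) ^ 2) := by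
      refine Finset.sum_le_sum fun A _ => ?_
      have k2 := mul_le_mul_of_nonneg_left (nu3_sq hB h hD A) (hB.m0 A)
      have k3 : ((2 - nu3 a D z A) - 1) ^ 2 = (nu3 a D z A - 1) ^ 2 := by ring
      rw [k3]
      linarith
    rw [← Finset.mul_sum] at k1
    have k4 := (sum_uu hB h hD).2
    linarith
  have hκ : κ ^ 2 ≤ 1 / 10000 := by
    have := h.κ0
    have := h.κ1
    nlinarith
  have hκY : κ ^ 2 * ms m y ≤ 1 / 10000 * ms m y := mul_le_mul_of_nonneg_right hκ hY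
  have hK := K0_ge
  have hsq' : 6 / 5 * ∑ A, m A * ((2 - nu3 a D z A) - 1) ^ 2 ≤
      K0 * ms m (fun A => ap a (v A)) + 1 / 1000 * ms m y := by
    have k5 : 3 * ms m (fun A => ap a (v A)) ≤ K0 * ms m (fun A => ap a (v A)) :=
      mul_le_mul_of_nonneg_right (by linarith) hAA
    linarith
  -- linear part of the correction
  have hXi : ∑ A, ((2 - nu3 a D z A) - 1) * XiA θ hh r m k j A =
      ∑ A, (1 - nu3 a D z A) * XiA θ hh r m k j A :=
    Finset.sum_congr rfl fun A _ => by ring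
  rw [hXi] at e2
  have f1 := mul_le_mul_of_nonneg_left hsq' hδ
  have f2 : 4 * δ * (hs r (fun A C => k A * m C * ((2 - nu3 a D z A) * chi (z A) (v C)))
      + hs r (fun A C => k A * m C * (nu3 a D z A * chi (z A) (v C)))) =
      4 * δ * (2 * (TQ m k v z - Sur r m k v z + Eb r m k v z)) := by rw [hchi]
  have f3 : 0 ≤ δ * Sur r m k v z := mul_nonneg hδ hSur
  have f4 : 0 ≤ δ * Eb r m k v z := mul_nonneg hδ hEb
  have f5 : 0 ≤ δ * ms m y := mul_nonneg hδ hY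
  have f6 : hh * (δ * Sur r m k v z) ≤ 1 / 1000000 * (δ * Sur r m k v z) :=
    mul_le_mul_of_nonneg_right hh1 f3
  have f7 : hh * (δ * Eb r m k v z) ≤ 1 / 1000000 * (δ * Eb r m k v z) :=
    mul_le_mul_of_nonneg_right hh1 f4
  have hL : Bq Ph (Gw k z) / (8 * L0) = 3 * (Bq Ph (Gw k z) / (24 * L0)) := by
    have := L0_pos
    field_simp
    ring
  rw [hL] at e1
  rw [le_div_iff₀ (by norm_num : (0 : ℝ) < 3)]
  linarith
end BMV
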