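import Pool.Agent.BMV.Merge
import Pool.Agent.BMV.L1
import Pool.Agent.BMV.L2b
import Pool.Agent.BMV.Geo
import Pool.Agent.BMV.GB2
import Pool.Agent.BMV.XTot
import Pool.Agent.BMV.Absorb
import Pool.Agent.BMV.Trial

/-!
# BMV/StepA: the free energy after the restriction of a block

PROOF.  `δ = d0`, `h = h0`, `K = K0`, `L = L0`.  `geo` gives `z, y, R, Ph` with `hB : BDat ...` for the merged state
`bar m, bar k, bar j`, `v = vh c m`.
Parameters: `η = 16 δ` if `0 ≤ TQ`, else `η = 0`; `η' = δ/(1200 K²)`, `ηR = 500 K δ`; `D = DF η η' ηR` (`= η K + η' K² + ηR`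
`≤ 1/200`).  `exists_field hB` : `QH (aF ..) (bF ..) (2 D)` and `w` with `Fld w D (aF ..) (bF ..)`.  `Bad0` from `aF_bad`.
`XTot` with `κ = 2 D`, `ε1 = 1/(4800 K²)`, `ε2 = 1/(1600 K²)`, `W = bar (cW c)` gives a lower bound for the average of the three
expectations of `Pol`.  One of the three experiments reaches the average, and `exists_ge` (weights `uw X` or `w`) gives
a point `s` with `Pol ... s ≥` this bound; `pol_le_GG` (with `WT A = dt (c A) s ^ 2`, by `c_eq`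
`dt (c A) s = √(bar cW A) dt (vh c m A) s`, `√² = bar cW A`; `ν = 1`, `2 - nu3` or `nu3`, all in `[7/8, 9/8]` by `nu3_le`)
gives `≤ GG θ δ h r (fun A => dt (c A) s ^ 2)`.
Lower bound (write `KL, J, Q, G` for the sums of `KLt, Jt, Qt, Gp`, `O = Oc r m k`):
(1) `merge`, `Ohc_le`: `Psi_{t-1}(bar) ≥ Psi_t + KL + δ J + 8 h δ Q + h δ G + (2 - (5/4) h) δ O`.
(2) `∑ bar m uu(v) lamA = ∑ bar m uu(v) + ∑ uu(v) (KLt + δ Jt - 8 h δ Qt + 2 δ onl)` (`L1`), `|uu(v)| ≤ 2 D ≤ 1/100`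
 (`|qd a v| ≤ κ n2 v`, `n2 v ≤ 1`, `exp(-D) ≤ 1`), so it is
 `≥ exp(-D) S - (1/100) (KL + δ J + 8 h δ Q + 2 δ O)`, `S = ∑ bar m qd a v` (`onl_sum`; all terms `≥ 0`).
(3) `∑ (1 - nu3) XiA ≥ - (1/90) ∑ XiA ≥ - (1/90) (2 O + 2 h G + 16 h Q)` (`nu3_le`, `Xi_nonneg`, `sum_Xi_le`).
(4) The terms with `Q, G, O` in (1)-(3) add up to something `≥ 0`; the factor of `KL + δ J` is `1 - 1/300 ≥ 99/100`.
(5) `absorb` with `B1, B2, B3` (`S`, `AA`, `NN`), `Y` and `Eb` from `geo`.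
(`exp(-D) ≥ 1 - D ≥ 99/100`.)
-/

namespace BMV

open Finset BMP

variable {α X : Type} [Fintype α] [Fintype X] [DecidableEq X] (r : α → α → Prop) [DecidableRel r]

private theorem stepA_aux {e u x1 x2 x3 x4 : ℝ} (p1 : 0 ≤ x1) (p2 : 0 ≤ x2) (p3 : 0 ≤ x3) (p4 : 0 ≤ x4)
    (h1 : -(1 / 100) ≤ u) (h2 : u ≤ 1 / 100) :
    e - 1 / 100 * (x1 + x2 + x3 + x4) ≤ e + u * (x1 + x2 - x3 + x4) := by
  have a1 := mul_nonneg (by linarith : 0 ≤ u + 1 / 100) p1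
  have a2 := mul_nonneg (by linarith : 0 ≤ u + 1 / 100) p2
  have a3 := mul_nonneg (by linarith : 0 ≤ 1 / 100 - u) p3
  have a4 := mul_nonneg (by linarith : 0 ≤ u + 1 / 100) p4
  linarith

private theorem stepA_final {P P' KL J Q G O Oh d h E S U V B T R M : ℝ} (hd : 0 ≤ d) (hh : 0 ≤ h)
    (hh8 : h ≤ 1 / 80000000) (hO : 0 ≤ O) (hQ : 0 ≤ Q) (hG : 0 ≤ G) (hJ : 0 ≤ J)
    (s1 : P = P' - KL - d * J - 8 * h * d * Q - 2 * d * O - h * d * G + h * d * Oh)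
    (s1' : h * d * Oh ≤ h * d * (5 / 4 * O))
    (s2 : E * S - 1 / 100 * (KL + d * J + 8 * h * d * Q + 2 * d * O) ≤ U)
    (s3 : -(1 / 90 * (2 * O + 2 * h * G + 16 * h * Q)) ≤ V)
    (ab : -(36 * M * d * O) ≤ 99 / 100 * (KL + d * J) + 1 / 3 * (E * S) + B - T - R) (hKL : 0 ≤ KL) :
    P - 36 * M * d * O ≤ P' + 1 / 3 * U + d / 3 * V + B - T - R := by
  have s3' := mul_le_mul_of_nonneg_left s3 hd
  have q1 : 0 ≤ h * d * Q := mul_nonneg (mul_nonneg hh hd) hQ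
  have q2 : 0 ≤ h * d * G := mul_nonneg (mul_nonneg hh hd) hG
  have q3 : 0 ≤ d * O := mul_nonneg hd hO
  have q4 : h * (d * O) ≤ 1 / 80000000 * (d * O) := mul_le_mul_of_nonneg_right hh8 q3
  have q5 : 0 ≤ d * J := mul_nonneg hd hJ
  linarith

theorem stepA (hr : ∀ A C, r A C → r C A) (θ : ℝ) (hθ : 0 < θ) (c : α → X → ℝ) (m k j : α × X → ℝ)
    (hS : St θ d0 h0 (rX r) (cW c) m k j) :
    ∃ s : X → Bool, Psi θ d0 h0 (rX r) (cW c) m k j - 36 * Mt * d0 * Oc r m k ≤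
      GG θ d0 h0 r (fun A => dt (c A) s ^ 2) := by
  obtain ⟨z, y, R, Ph, hB, hY, hEb⟩ := geo r θ d0 h0 c m k j hr hθ hS
  have hK := K0_ge
  have hKp := K0_pos
  have hd := d0_pos
  have hh := h0_pos
  have hh8 := h0_le
  have hhK := h0_K0
  have hdK := d0_K0
  have hMt : 0 ≤ Mt := (Real.exp_pos _).le
  -- size of `d0`
  have hdK1 : d0 * K0 ≤ 1 / 1000000 := by
    have e1 : d0 * K0 * K0 ^ 4 = 1 := by rw [← hdK]; ring
    have e2 : (1000000 : ℝ) ≤ K0 ^ 4 := by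
      calc (1000000 : ℝ) ≤ 80000 ^ 4 := by norm_num
        _ ≤ K0 ^ 4 := pow_le_pow_left₀ (by norm_num) hK 4
    have e3 : 0 < d0 * K0 := mul_pos hd hKp
    have e4 : d0 * K0 * 1000000 ≤ d0 * K0 * K0 ^ 4 := mul_le_mul_of_nonneg_left e2 e3.le
    linarith
  have hd1 : d0 ≤ 1 / 1000000 := by
    have : d0 * 1 ≤ d0 * K0 := mul_le_mul_of_nonneg_left (by linarith) hd.le
    linarith
  -- parameters
  obtain ⟨η, hη⟩ : ∃ η : ℝ, (η = 16 * d0 ∧ 0 ≤ TQ (bar m) (bar k) (vh c m) z) ∨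
      (η = 0 ∧ TQ (bar m) (bar k) (vh c m) z ≤ 0) := by
    rcases le_total 0 (TQ (bar m) (bar k) (vh c m) z) with h | h
    · exact ⟨16 * d0, Or.inl ⟨rfl, h⟩⟩
    · exact ⟨0, Or.inr ⟨rfl, h⟩⟩
  have hη0 : 0 ≤ η := by
    rcases hη with ⟨h, _⟩ | ⟨h, _⟩ <;> rw [h]
    positivity
  have hη1 : η ≤ 16 * d0 := by
    rcases hη with ⟨h, _⟩ | ⟨h, _⟩ <;> rw [h]
    positivity
  have hη' : 0 ≤ d0 / (1200 * K0 ^ 2) := by positivity
  have hηR : 0 ≤ 500 * K0 * d0 := by positivity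
  have hD0 : 0 ≤ DF η (d0 / (1200 * K0 ^ 2)) (500 * K0 * d0) := by
    unfold DF
    positivity
  have hDe : DF η (d0 / (1200 * K0 ^ 2)) (500 * K0 * d0) =
      η * K0 + d0 / (1200 * K0 ^ 2) * K0 ^ 2 + 500 * K0 * d0 := rfl
  have hD : DF η (d0 / (1200 * K0 ^ 2)) (500 * K0 * d0) ≤ 1 / 200 := by
    rw [hDe]
    have e1 : d0 / (1200 * K0 ^ 2) * K0 ^ 2 = d0 / 1200 := by
      field_simp
    have e2 : η * K0 ≤ 16 * d0 * K0 := mul_le_mul_of_nonneg_right hη1 hKp.le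
    rw [e1]
    nlinarith
  obtain ⟨hQ, w, hw⟩ := exists_field hB hη0 hη' hηR hD
  have hbad : Bad0 (bar m) (bar k) (vh c m) z Ph (aF η (d0 / (1200 * K0 ^ 2)) (500 * K0 * d0) (bar k) z R) :=
    fun i => (aF_bad hB i).imp_right fun h => ⟨h.1, h.2.2⟩
  have hT := XTot hB hQ hD0 hw hbad (1 / (4800 * K0 ^ 2)) (1 / (1600 * K0 ^ 2)) (by positivity)
    (by positivity) d0 h0 hd.le hh.le (by linarith) hhK.le (bar (cW c))
  have b1 := B1 hB hη0 hη' hηR hD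
  have b2 := B2 hB hη0 hη' hηR hD
  have b3 := B3 hB hη0 hη' hηR hD
  set D := DF η (d0 / (1200 * K0 ^ 2)) (500 * K0 * d0) with hDdef
  set a := aF η (d0 / (1200 * K0 ^ 2)) (500 * K0 * d0) (bar k) z R with ha
  -- the trial states
  have hP : ∀ (ν : α → ℝ), (∀ A, 7 / 8 ≤ ν A ∧ ν A ≤ 9 / 8) → ∀ s : X → Bool,
      Pol θ d0 h0 r (bar (cW c)) (bar m) (bar k) (bar j) ν (vh c m) z y s ≤
        GG θ d0 h0 r (fun A => dt (c A) s ^ 2) := by
    intro ν hν s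
    refine pol_le_GG r θ d0 h0 hθ hd.le hh.le (by linarith) (bar (cW c)) (bar m) (bar k) (bar j) ν
      (vh c m) z y (fun A => dt (c A) s ^ 2) s (fun A => sq_nonneg _)
      (fun A hA => bar_Wp r θ d0 h0 (cW c) m k j (fun p => sq_nonneg _) hS A hA)
      hB.m0 hB.k0 hB.kp hB.mj hB.j5 hB.kU hB.vzy hν fun A hA => ?_
    have e1 : dt (c A) s = Real.sqrt (bar (cW c) A) * dt (vh c m A) s := by
      unfold dt
      rw [Finset.mul_sum]
      refine Finset.sum_congr rfl fun i _ => ?_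
      rw [c_eq r θ d0 h0 c m k j hS A hA i]
      ring
    have e2 := bar_Wp r θ d0 h0 (cW c) m k j (fun p => sq_nonneg _) hS A hA
    show dt (c A) s ^ 2 = bar (cW c) A * dt (vh c m A) s ^ 2
    rw [e1, mul_pow, Real.sq_sqrt e2.le]
  have hν3 : ∀ A, 7 / 8 ≤ nu3 a D z A ∧ nu3 a D z A ≤ 9 / 8 := by
    intro A
    have h1 := abs_le.1 (nu3_le hB hQ hD0 A)
    constructor <;> linarith [h1.1, h1.2]
  have hν2 : ∀ A, 7 / 8 ≤ (fun A => 2 - nu3 a D z A) A ∧ (fun A => 2 - nu3 a D z A) A ≤ 9 / 8 := by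
    intro A
    have h1 := abs_le.1 (nu3_le hB hQ hD0 A)
    constructor
    · show 7 / 8 ≤ 2 - nu3 a D z A
      linarith [h1.1, h1.2]
    · show 2 - nu3 a D z A ≤ 9 / 8
      linarith [h1.1, h1.2]
  -- one of the three experiments
  have hex : ∀ t : ℝ, t ≤ (Ew (uw X) (Pol θ d0 h0 r (bar (cW c)) (bar m) (bar k) (bar j) (fun _ => 1) (vh c m) z y)
        + Ew (uw X) (Pol θ d0 h0 r (bar (cW c)) (bar m) (bar k) (bar j) (fun A => 2 - nu3 a D z A) (vh c m) z y)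
        + Ew w (Pol θ d0 h0 r (bar (cW c)) (bar m) (bar k) (bar j) (nu3 a D z) (vh c m) z y)) / 3 →
      ∃ s : X → Bool, t ≤ GG θ d0 h0 r (fun A => dt (c A) s ^ 2) := by
    intro t ht
    have huw : ∀ s, 0 ≤ uw X s := fun s => by unfold uw; positivity
    by_cases c1 : t ≤ Ew (uw X) (Pol θ d0 h0 r (bar (cW c)) (bar m) (bar k) (bar j) (fun _ => 1) (vh c m) z y)
    · obtain ⟨s, hs⟩ := exists_ge _ huw uw_sum _ t c1
      exact ⟨s, hs.trans (hP _ (fun A => by norm_num) s)⟩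
    by_cases c2 : t ≤ Ew (uw X) (Pol θ d0 h0 r (bar (cW c)) (bar m) (bar k) (bar j)
        (fun A => 2 - nu3 a D z A) (vh c m) z y)
    · obtain ⟨s, hs⟩ := exists_ge _ huw uw_sum _ t c2
      exact ⟨s, hs.trans (hP _ hν2 s)⟩
    push Not at c1 c2
    have c3 : t ≤ Ew w (Pol θ d0 h0 r (bar (cW c)) (bar m) (bar k) (bar j) (nu3 a D z) (vh c m) z y) := by
      linarith
    obtain ⟨s, hs⟩ := exists_ge _ hw.w0 hw.w1 _ t c3
    exact ⟨s, hs.trans (hP _ hν3 s)⟩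
  refine hex _ (le_trans ?_ hT)
  -- nonnegative quantities
  have hz := kz r θ d0 h0 hθ (cW c) m k j hS
  have nKL : ∀ A, 0 ≤ KLt (cW c) m A := KLt_nonneg (cW c) m (fun p => sq_nonneg _) hS.m0 hS.Wp
  have nJ : ∀ A, 0 ≤ Jt m k A := Jt_nonneg m k hS.m0 hS.k0 hS.kp fun p hp => (hz p hp).1
  have nQ : ∀ A, 0 ≤ Qt m j A := Qt_nonneg m j hS.m0 fun p hp => (hz p hp).2
  have nG : ∀ A, 0 ≤ Gp r k j A := Gp_nonneg r k j
  have nO : ∀ A, 0 ≤ onl r m k A := onl_nonneg r m k hS.m0 hS.k0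
  have hO := Oc_nonneg r m k hS.m0 hS.k0
  have hOs := onl_sum r hr m k
  have hms : ∀ u : α → X → ℝ, 0 ≤ ms (bar m) u := fun u =>
    Finset.sum_nonneg fun A _ => mul_nonneg (hB.m0 A) (Finset.sum_nonneg fun i _ => sq_nonneg _)
  have hBq : 0 ≤ Bq Ph (Gw (bar k) z) :=
    Finset.sum_nonneg fun i _ => Finset.sum_nonneg fun l _ =>
      mul_nonneg (le_trans (hB.Ph0 i).le (le_max_left _ _)) (sq_nonneg _)
  have hNN : 0 ≤ NNq Ph a :=
    Finset.sum_nonneg fun i _ => mul_nonneg (hB.Ph0 i).le (Finset.sum_nonneg fun _ _ => sq_nonneg _)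
  have sKL : 0 ≤ ∑ A, KLt (cW c) m A := Finset.sum_nonneg fun A _ => nKL A
  have sJ : 0 ≤ ∑ A, Jt m k A := Finset.sum_nonneg fun A _ => nJ A
  have sQ : 0 ≤ ∑ A, Qt m j A := Finset.sum_nonneg fun A _ => nQ A
  have sG : 0 ≤ ∑ A, Gp r k j A := Finset.sum_nonneg fun A _ => nG A
  -- (1)
  have s1 := merge r θ d0 h0 hθ (cW c) m k j hS
  have s1' := mul_le_mul_of_nonneg_left (Ohc_le r θ d0 h0 (cW c) m k j hS) (mul_nonneg hh.le hd.le)
  -- (2)
  have s2 : Real.exp (-D) * (∑ A, bar m A * qd a (vh c m A))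
      - 1 / 100 * (∑ A, KLt (cW c) m A + d0 * ∑ A, Jt m k A + 8 * h0 * d0 * ∑ A, Qt m j A
        + 2 * d0 * Oc r m k) ≤
      ∑ A, bar m A * uu a D (vh c m A) * lamA θ d0 h0 r (bar (cW c)) (bar m) (bar k) (bar j) A := by
    rw [← hOs, Finset.mul_sum, Finset.mul_sum, Finset.mul_sum, Finset.mul_sum, ← Finset.sum_add_distrib,
      ← Finset.sum_add_distrib, ← Finset.sum_add_distrib, Finset.mul_sum, ← Finset.sum_sub_distrib]
    refine Finset.sum_le_sum fun A _ => ?_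
    have l1 := L1 r θ d0 h0 hθ (cW c) m k j hS A
    have hu : |uu a D (vh c m A)| ≤ 1 / 100 := by
      refine (uu_le hQ hD0 (vh c m A)).trans ?_
      have hn : n2 (vh c m A) ≤ 1 := by
        rcases (hB.m0 A).eq_or_lt with h | h
        · rw [hB.v0 A h.symm]
          unfold n2
          simp
        · exact (hB.nv A h).le
      have h1 : 2 * D * n2 (vh c m A) ≤ 2 * D * 1 := mul_le_mul_of_nonneg_left hn (by linarith)
      linarith
    have hu' := abs_le.1 hu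
    have e1 : bar m A * uu a D (vh c m A) * lamA θ d0 h0 r (bar (cW c)) (bar m) (bar k) (bar j) A =
        Real.exp (-D) * (bar m A * qd a (vh c m A)) + uu a D (vh c m A) *
          (bar m A * (lamA θ d0 h0 r (bar (cW c)) (bar m) (bar k) (bar j) A - 1)) := by
      unfold uu
      ring
    rw [e1, l1]
    have p1 := nKL A
    have p2 : 0 ≤ d0 * Jt m k A := mul_nonneg hd.le (nJ A)
    have p3 : 0 ≤ 8 * h0 * d0 * Qt m j A := mul_nonneg (by positivity) (nQ A)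
    have p4 : 0 ≤ 2 * d0 * onl r m k A := mul_nonneg (by positivity) (nO A)
    exact stepA_aux p1 p2 p3 p4 hu'.1 hu'.2
  -- (3)
  have s3 : - (1 / 90 * (2 * Oc r m k + 2 * h0 * ∑ A, Gp r k j A + 16 * h0 * ∑ A, Qt m j A)) ≤
      ∑ A, (1 - nu3 a D z A) * XiA θ h0 r (bar m) (bar k) (bar j) A := by
    have t1 := sum_Xi_le r θ d0 h0 hθ hh.le (cW c) m k j hS
    have t2 : - (1 / 90 * ∑ A, XiA θ h0 r (bar m) (bar k) (bar j) A) ≤
        ∑ A, (1 - nu3 a D z A) * XiA θ h0 r (bar m) (bar k) (bar j) A := by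
      rw [Finset.mul_sum, ← Finset.sum_neg_distrib]
      refine Finset.sum_le_sum fun A _ => ?_
      have h1 := Xi_nonneg r θ d0 h0 hθ hh.le (by linarith) (cW c) m k j hS A
      have h2 := abs_le.1 (nu3_le hB hQ hD0 A)
      nlinarith [mul_nonneg (by linarith [h2.2] : 0 ≤ 1 / 90 + (1 - nu3 a D z A)) h1]
    linarith
  -- (5)
  have hE0 : 99 / 100 ≤ Real.exp (-D) := by
    have := Real.add_one_le_exp (-D)
    linarith
  have hE1 : Real.exp (-D) ≤ 1 := Real.exp_le_one_iff.2 (by linarith)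
  have ab := absorb K0 d0 L0 h0 η D (Real.exp (-D)) (∑ A, KLt (cW c) m A) (∑ A, Jt m k A) (Oc r m k)
    (ms (bar m) (fun A => ap R (vh c m A))) (ms (bar m) (fun A => ap (off (Gw (bar k) z)) (vh c m A)))
    (Bq Ph (Gw (bar k) z)) (NNq Ph a) (ms (bar m) (fun A => ap a (vh c m A))) (TQ (bar m) (bar k) (vh c m) z)
    (∑ A, bar m A * qd a (vh c m A)) (ms (bar m) y) (Eb r (bar m) (bar k) (vh c m) z) Mt
    hK hdK K0_eq hhK hMt hη hDe hE0 hE1 sKL sJ hO (hms _) (hms _) hBq hNN b1 b2 b3 hY hEb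
  exact stepA_final hd.le hh.le hh8 hO sQ sG sJ s1 s1' s2 s3 ab sKL

end BMV
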