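import Pool.Agent.BMV.XCv

/-! BMV XE2 (helper94): experiments E1 and E2: uniform measure with a correction `ν` of the dual charges.

`h ≤ 1/1000000`, `|ν_A - 1| ≤ 1/90`. By `pol_exp` (`w = uw X`), `e2_unif`, `Cv_unif` (`Cv (sqv p) (sqv q) = 2 chi p q`), the expectation is
`∑ eloc(.., n2 v, n2 z, n2 y) - 2δ hs(k m' [(ν n2 z + 9/8 n2 y) n2 v' + 2 ν chi(z,v') + (9/4) chi(y,v')]) + hδ hs(νν' mu [n2 z n2 z' + 2 chi(z,z') - 5(n2 y n2 z' + 2 chi(y,z')) - 5(n2 z n2 y' + 2 chi(z,y'))])`.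
If `m_A = 0` all terms of `A` vanish (`k_A = j_A = 0`, `v = z = y = 0`; also `lc = 0`). Let `m_A > 0`: `n2 v = 1`, `Y = n2 y`, `n2 z = 1 - Y` (`BDat.nzy`), `c = ν - 1`, `ρ = j/m ∈ [1, 5/4]`.
LOCAL: `e = ν (1-Y) + (9/8) Y - 1 = c - c Y + Y/8`. `eloc - lc = δ { m[-4Y + log ν] - θk e - 8hm[2ρ(ρ-1)(ν(1-Y) - 1) + ρ^2((5/2)c^2(1-Y) + 9Y)] }` with `log ν ≥ c - c^2`,
`ν(1-Y) - 1 = c - νY ≤ c`, `ρ^2 ≤ 25/16`: `≥ δ{ m[-4Y + c - c^2] - θk e - 16hmρ(ρ-1)c - h m (32 c^2 + 113 Y) }`, and `mρ(ρ-1) = j(j-m)/m`.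
ENERGY: `-2δ[hs(km'(1+e)) - hs(km')] = -2δ ∑ k e U` (`m' n2 v' = m'`), and `-θk e - 2kUe ≥ -c(θk + 2kU) - (|c| + 1/8) Y 2m` (`k(θ+U) ≤ m`).
`-(9/2)δ hs(km' chi(y,v')) ≥ -(9/2) δ ∑ m Y` (`chi_abs_le`, `m' n2 v' = m'`, `kU ≤ m`).
BONUS: `νν'(1-Y)(1-Y') ≥ νν' - (103/100)(Y+Y')`, `νν' - 1 = c + c' + cc' ≥ c + c' - (c^2+c'^2)/2`, `5(n2 y n2 z' + 2chi(y,z')) ≤ 15 Y`; with `mu_hs_left`, `mu_hs_right`, symmetry (`∑_A c_A ∑_{C~A} mu` twice):
`hδ{..} ≥ hδ{ 2 ∑_A c_A ∑_{C~A} mu + 2 hs(νν' mu chi(z,z')) } - hδ ∑ m (42 Y + 1.3 c^2)`.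
Sum: the first order terms in `c` are `δ ∑ c_A XiA_A`; the rest is `≥ -δ ∑ m (4 + 2|c| + 1/4 + 9/2 + 155 h) Y - δ ∑ m (1 + 34 h) c^2 ≥ -δ (9 ms m y + (6/5) ∑ m c^2)`. -/

namespace BMV

open Finset BMP

variable {α X : Type} [Fintype α] [Fintype X] [DecidableEq X] {r : α → α → Prop} [DecidableRel r]
  {θ : ℝ} {m k j : α → ℝ} {v z y : α → X → ℝ} {R : Matrix X X ℝ} {Ph : X → ℝ}

private theorem log_ge {c : ℝ} (hc : |c| ≤ 1 / 90) : c - c ^ 2 ≤ Real.log (1 + c) := by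
  have h1 : |(-c)| < 1 := by rw [abs_neg]; linarith
  have h2 := Real.abs_log_sub_add_sum_range_le h1 2
  rw [Finset.sum_range_succ, Finset.sum_range_succ, Finset.sum_range_zero, abs_neg] at h2
  norm_num at h2
  have h3 := (abs_le.1 h2).1
  have h4 : |c| ^ 3 / (1 - |c|) ≤ c ^ 2 / 2 := by
    rw [div_le_iff₀ (by linarith)]
    have h5 : |c| ^ 3 = |c| * c ^ 2 := by rw [← sq_abs c]; ring
    rw [h5]
    nlinarith [sq_nonneg c, abs_nonneg c]
  linarith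

private theorem loc_ineq {θ δ h W m k j ν Y U : ℝ} (hm : 0 < m) (hY : 0 ≤ Y) (hY1 : Y ≤ 1) (hk : 0 ≤ k)
    (hθ : 0 ≤ θ) (hU : 0 ≤ U) (hkU : k * (θ + U) ≤ m) (hmj : m ≤ j) (hj5 : 4 * j ≤ 5 * m)
    (hν : |ν - 1| ≤ 1 / 90) (hh : 0 ≤ h) (hδ : 0 ≤ δ) :
    lc θ δ h W m k j - 2 * δ * (k * U)
      + δ * ((ν - 1) * (m - θ * k - 2 * k * U - 16 * h * (j * (j - m) / m))
        - m * ((4 + 1 / 4 + 1 / 45 + 113 * h) * Y + (1 + 32 * h) * (ν - 1) ^ 2)) ≤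
    eloc θ δ h W m k j ν 1 (1 - Y) Y - 2 * δ * (k * (ν * (1 - Y) + 9 / 8 * Y) * U) := by
  obtain ⟨ρ, hρ⟩ : ∃ ρ, ρ = j / m := ⟨_, rfl⟩
  have hj : j = ρ * m := by rw [hρ]; field_simp
  have hρ1 : 1 ≤ ρ := by rw [hρ, le_div_iff₀ hm]; linarith
  have hρ2 : ρ ≤ 5 / 4 := by rw [hρ, div_le_iff₀ hm]; linarith
  have e1 : (j - m) ^ 2 / m = m * (ρ - 1) ^ 2 := by rw [hj]; field_simp
  have e2 : j * (j - m) / m = m * (ρ * (ρ - 1)) := by rw [hj]; field_simp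
  obtain ⟨c, hc⟩ : ∃ c, ν = 1 + c := ⟨ν - 1, by ring⟩
  have hc1 : ν - 1 = c := by rw [hc]; ring
  rw [hc1] at hν
  have hcl := abs_le.1 hν
  have hlog := log_ge hν
  have b1 : 0 ≤ m * (Real.log ν - c + c ^ 2) := by
    refine mul_nonneg hm.le ?_
    rw [hc]
    linarith
  have b2 : (θ * k + 2 * k * U) * (Y * (1 / 8 - c)) ≤ m * ((1 / 4 + 1 / 45) * Y) := by
    have h1 : θ * k + 2 * k * U ≤ 2 * m := by nlinarith [mul_nonneg hθ hk, mul_nonneg hk hU]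
    have h2 : Y * (1 / 8 - c) ≤ Y * (1 / 8 + 1 / 90) := mul_le_mul_of_nonneg_left (by linarith) hY
    have h3 : 0 ≤ Y * (1 / 8 - c) := mul_nonneg hY (by linarith)
    calc (θ * k + 2 * k * U) * (Y * (1 / 8 - c)) ≤ (2 * m) * (Y * (1 / 8 + 1 / 90)) :=
          mul_le_mul h1 h2 h3 (by linarith)
      _ = m * ((1 / 4 + 1 / 45) * Y) := by ring
  have b3 : 0 ≤ 16 * h * m * (ρ * (ρ - 1)) * (ν * Y) := by
    have h1 : 0 ≤ ρ * (ρ - 1) := mul_nonneg (by linarith) (by linarith)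
    have h2 : 0 ≤ ν * Y := mul_nonneg (by rw [hc]; linarith) hY
    positivity
  have b4 : 8 * h * m * (ρ ^ 2 * (5 / 2 * c ^ 2 * (1 - Y) + 9 * Y)) ≤ h * m * (113 * Y + 32 * c ^ 2) := by
    have h0 : 0 ≤ c ^ 2 := sq_nonneg c
    have h1 : ρ ^ 2 ≤ 25 / 16 := by nlinarith
    have h2 : 5 / 2 * c ^ 2 * (1 - Y) + 9 * Y ≤ 5 / 2 * c ^ 2 + 9 * Y := by nlinarith [mul_nonneg h0 hY]
    have h3 : 0 ≤ 5 / 2 * c ^ 2 * (1 - Y) + 9 * Y := by
      have := mul_nonneg h0 (show 0 ≤ 1 - Y by linarith)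
      nlinarith
    have h4 : ρ ^ 2 * (5 / 2 * c ^ 2 * (1 - Y) + 9 * Y) ≤ 25 / 16 * (5 / 2 * c ^ 2 + 9 * Y) :=
      mul_le_mul h1 h2 h3 (by norm_num)
    have h5 : 0 ≤ h * m := mul_nonneg hh hm.le
    have h6 : 8 * (ρ ^ 2 * (5 / 2 * c ^ 2 * (1 - Y) + 9 * Y)) ≤ 113 * Y + 32 * c ^ 2 := by linarith
    calc 8 * h * m * (ρ ^ 2 * (5 / 2 * c ^ 2 * (1 - Y) + 9 * Y))
        = (h * m) * (8 * (ρ ^ 2 * (5 / 2 * c ^ 2 * (1 - Y) + 9 * Y))) := by ring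
      _ ≤ h * m * (113 * Y + 32 * c ^ 2) := mul_le_mul_of_nonneg_left h6 h5
  unfold lc eloc
  rw [e1, e2, hc1, ← hρ]
  have key : (m * 1 * (Real.log (W / m) + 1)
      + δ * (m * (1 * Real.log (θ * k / m) + (1 - Y) - 3 * Y + 1 * Real.log ν)
        - θ * k * (ν * (1 - Y) + 9 / 8 * Y)
        - 8 * h * (m * ((ρ - 1) ^ 2 * 1 + 2 * ρ * (ρ - 1) * (ν * (1 - Y) - 1)
            + ρ ^ 2 * (5 / 2 * c ^ 2 * (1 - Y) + 9 * Y)))) - 2 * δ * (k * (ν * (1 - Y) + 9 / 8 * Y) * U))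
      - (m * (Real.log (W / m) + 1) + δ * (m * Real.log (θ * k / m) + m - θ * k - 8 * h * (m * (ρ - 1) ^ 2))
        - 2 * δ * (k * U)
        + δ * (c * (m - θ * k - 2 * k * U - 16 * h * (m * (ρ * (ρ - 1))))
          - m * ((4 + 1 / 4 + 1 / 45 + 113 * h) * Y + (1 + 32 * h) * c ^ 2)))
      = δ * (m * (Real.log ν - c + c ^ 2) + (m * ((1 / 4 + 1 / 45) * Y)
        - (θ * k + 2 * k * U) * (Y * (1 / 8 - c)))
        + 16 * h * m * (ρ * (ρ - 1)) * (ν * Y)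
        + (h * m * (113 * Y + 32 * c ^ 2) - 8 * h * m * (ρ ^ 2 * (5 / 2 * c ^ 2 * (1 - Y) + 9 * Y)))) := by
    rw [hc]
    ring
  have key2 : 0 ≤ δ * (m * (Real.log ν - c + c ^ 2) + (m * ((1 / 4 + 1 / 45) * Y)
        - (θ * k + 2 * k * U) * (Y * (1 / 8 - c)))
        + 16 * h * m * (ρ * (ρ - 1)) * (ν * Y)
        + (h * m * (113 * Y + 32 * c ^ 2) - 8 * h * m * (ρ ^ 2 * (5 / 2 * c ^ 2 * (1 - Y) + 9 * Y)))) :=
    mul_nonneg hδ (by linarith)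
  linarith

private theorem pair_ineq {μ ν ν' Y Y' s t1 t2 : ℝ} (hμ : 0 ≤ μ) (hν : |ν - 1| ≤ 1 / 90)
    (hν' : |ν' - 1| ≤ 1 / 90) (hY : 0 ≤ Y) (hY1 : Y ≤ 1) (hY' : 0 ≤ Y') (hY1' : Y' ≤ 1)
    (ht1 : t1 ≤ Y * (1 - Y')) (ht2 : t2 ≤ (1 - Y) * Y') :
    μ + μ * (ν - 1) + μ * (ν' - 1) + 2 * (ν * ν' * μ * s)
      - μ * (84 / 5 * Y + 1 / 2 * (ν - 1) ^ 2) - μ * (84 / 5 * Y' + 1 / 2 * (ν' - 1) ^ 2) ≤
    ν * ν' * μ * ((1 - Y) * (1 - Y') + 2 * s - 5 * (Y * (1 - Y') + 2 * t1) - 5 * ((1 - Y) * Y' + 2 * t2)) := by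
  have c1 := abs_le.1 hν
  have c2 := abs_le.1 hν'
  have ha0 : 0 ≤ ν * ν' := mul_nonneg (by linarith) (by linarith)
  have ha1 : ν * ν' ≤ 103 / 100 := by
    have h1 : ν * ν' ≤ (91 / 90) * (91 / 90) :=
      mul_le_mul (by linarith) (by linarith) (by linarith) (by norm_num)
    norm_num at h1
    linarith
  have ha2 : 1 + (ν - 1) + (ν' - 1) - 1 / 2 * (ν - 1) ^ 2 - 1 / 2 * (ν' - 1) ^ 2 ≤ ν * ν' := by
    nlinarith [sq_nonneg (ν - 1 + (ν' - 1))]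
  have hb : 2 * s + (1 - 16 * (Y + Y')) ≤ (1 - Y) * (1 - Y') + 2 * s - 5 * (Y * (1 - Y') + 2 * t1)
      - 5 * ((1 - Y) * Y' + 2 * t2) := by
    have h1 := mul_nonneg hY hY'
    nlinarith
  have h2 : ν * ν' * (16 * (Y + Y')) ≤ 103 / 100 * (16 * (Y + Y')) :=
    mul_le_mul_of_nonneg_right ha1 (by linarith)
  have h3 : 1 + (ν - 1) + (ν' - 1) + 2 * (ν * ν' * s) - (84 / 5 * Y + 1 / 2 * (ν - 1) ^ 2)
      - (84 / 5 * Y' + 1 / 2 * (ν' - 1) ^ 2) ≤ ν * ν' * ((1 - Y) * (1 - Y') + 2 * s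
        - 5 * (Y * (1 - Y') + 2 * t1) - 5 * ((1 - Y) * Y' + 2 * t2)) := by
    have h4 := mul_le_mul_of_nonneg_left hb ha0
    have h5 : ν * ν' * (2 * s + (1 - 16 * (Y + Y'))) =
        2 * (ν * ν' * s) + ν * ν' - ν * ν' * (16 * (Y + Y')) := by ring
    linarith
  have h4 := mul_le_mul_of_nonneg_left h3 hμ
  calc _ = μ * (1 + (ν - 1) + (ν' - 1) + 2 * (ν * ν' * s) - (84 / 5 * Y + 1 / 2 * (ν - 1) ^ 2)
      - (84 / 5 * Y' + 1 / 2 * (ν' - 1) ^ 2)) := by ring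
    _ ≤ _ := h4
    _ = _ := by ring

private theorem nn2 (x : X → ℝ) : 0 ≤ n2 x := Finset.sum_nonneg fun _ _ => sq_nonneg _

private theorem n2z : n2 (0 : X → ℝ) = 0 := by
  unfold n2
  refine Finset.sum_eq_zero fun i _ => ?_
  rw [Pi.zero_apply]
  ring

private theorem yz (hB : BDat r θ m k j v z y R Ph) {A : α} (h : m A = 0) : y A = 0 := by
  funext i
  have h1 := hB.vzy A i
  rw [hB.v0 A h, hB.z0 A h] at h1
  simpa using h1.symm

private theorem mu0 (hB : BDat r θ m k j v z y R Ph) (A C : α) : 0 ≤ mu k j A C :=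
  le_min (mul_nonneg (hB.j0 A) (hB.k0 C)) (mul_nonneg (hB.j0 C) (hB.k0 A))

private theorem muz (hB : BDat r θ m k j v z y R Ph) {A C : α} (h : m A = 0 ∨ m C = 0) : mu k j A C = 0 := by
  refine le_antisymm ?_ (mu0 hB A C)
  refine le_trans (mu_le hB A C) ?_
  rcases h with h | h
  · rw [hB.kz A h, zero_mul, mul_zero]
  · rw [h, mul_zero, mul_zero]

private theorem energy_part (hB : BDat r θ m k j v z y R Ph) (ν : α → ℝ) :
    hs r (fun A C => k A * m C * ((ν A * n2 (z A) + 9 / 8 * n2 (y A)) * n2 (v C)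
      + (ν A * (2 * chi (z A) (v C)) + 9 / 8 * (2 * chi (y A) (v C))))) ≤
    ∑ A, k A * (ν A * n2 (z A) + 9 / 8 * n2 (y A)) * nb r m A
      + 2 * hs r (fun A C => k A * m C * (ν A * chi (z A) (v C))) + 9 / 4 * ms m y := by
  have e1 : hs r (fun A C => k A * m C * ((ν A * n2 (z A) + 9 / 8 * n2 (y A)) * n2 (v C)
      + (ν A * (2 * chi (z A) (v C)) + 9 / 8 * (2 * chi (y A) (v C))))) =
      hs r (fun A C => (k A * (ν A * n2 (z A) + 9 / 8 * n2 (y A))) * m C)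
      + 2 * hs r (fun A C => k A * m C * (ν A * chi (z A) (v C)))
      + 9 / 4 * hs r (fun A C => k A * m C * chi (y A) (v C)) := by
    rw [← hs_mul_left, ← hs_mul_left, ← hs_add, ← hs_add]
    refine hs_congr r _ _ fun A C _ => ?_
    have := hB.mnv C
    calc k A * m C * ((ν A * n2 (z A) + 9 / 8 * n2 (y A)) * n2 (v C)
          + (ν A * (2 * chi (z A) (v C)) + 9 / 8 * (2 * chi (y A) (v C))))
        = k A * (ν A * n2 (z A) + 9 / 8 * n2 (y A)) * (m C * n2 (v C))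
          + 2 * (k A * m C * (ν A * chi (z A) (v C))) + 9 / 4 * (k A * m C * chi (y A) (v C)) := by ring
      _ = _ := by rw [this]
  have e2 : hs r (fun A C => k A * m C * chi (y A) (v C)) ≤ ms m y := by
    have h1 : hs r (fun A C => k A * m C * chi (y A) (v C)) ≤ hs r (fun A C => (k A * n2 (y A)) * m C) := by
      refine hs_mono r _ _ fun A C _ => ?_
      have h2 := le_trans (le_abs_self _) (chi_abs_le (y A) (v C))
      have h3 : 0 ≤ k A * m C := mul_nonneg (hB.k0 A) (hB.m0 C)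
      have h4 := mul_le_mul_of_nonneg_left h2 h3
      have h5 := hB.mnv C
      calc k A * m C * chi (y A) (v C) ≤ k A * m C * (n2 (y A) * n2 (v C)) := h4
        _ = k A * n2 (y A) * (m C * n2 (v C)) := by ring
        _ = k A * n2 (y A) * m C := by rw [h5]
    refine le_trans h1 ?_
    rw [hs_mul_nb]
    unfold ms
    refine Finset.sum_le_sum fun A _ => ?_
    have h6 : k A * nb r m A ≤ m A := by
      have h7 := hB.kU A
      have h8 := mul_nonneg hB.θ0.le (hB.k0 A)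
      nlinarith
    calc k A * n2 (y A) * nb r m A = (k A * nb r m A) * n2 (y A) := by ring
      _ ≤ m A * n2 (y A) := mul_le_mul_of_nonneg_right h6 (nn2 _)
  rw [e1, hs_mul_nb]
  linarith

private theorem bonus_part (hB : BDat r θ m k j v z y R Ph) (ν : α → ℝ) (hν : ∀ A, |ν A - 1| ≤ 1 / 90) :
    hs r (mu k j) + 2 * ∑ A, (ν A - 1) * (∑ C, if r A C then mu k j A C else 0)
      + 2 * hs r (fun A C => ν A * ν C * mu k j A C * chi (z A) (z C))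
      - ∑ A, m A * (42 * n2 (y A) + 5 / 4 * (ν A - 1) ^ 2) ≤
    hs r (fun A C => ν A * ν C * mu k j A C * (n2 (z A) * n2 (z C) + 2 * chi (z A) (z C)
      - 5 * (n2 (y A) * n2 (z C) + 2 * chi (y A) (z C))
      - 5 * (n2 (z A) * n2 (y C) + 2 * chi (z A) (y C)))) := by
  have e1 : hs r (fun A C => mu k j A C * (ν A - 1)) =
      ∑ A, (ν A - 1) * (∑ C, if r A C then mu k j A C else 0) := by
    unfold hs
    refine Finset.sum_congr rfl fun A _ => ?_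
    rw [Finset.mul_sum]
    refine Finset.sum_congr rfl fun C _ => ?_
    split_ifs
    · ring
    · ring
  have e2 : hs r (fun A C => mu k j A C * (ν C - 1)) =
      ∑ A, (ν A - 1) * (∑ C, if r A C then mu k j A C else 0) := by
    rw [← e1, hs_comm r hB.rs]
    refine hs_congr r _ _ fun A C _ => ?_
    rw [mu_comm]
  have e3 := mu_hs_left hB (fun A => 84 / 5 * n2 (y A) + 1 / 2 * (ν A - 1) ^ 2)
    (fun A => by have := nn2 (y A); positivity)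
  have e4 := mu_hs_right hB (fun A => 84 / 5 * n2 (y A) + 1 / 2 * (ν A - 1) ^ 2)
    (fun A => by have := nn2 (y A); positivity)
  have e5 : hs r (mu k j) + hs r (fun A C => mu k j A C * (ν A - 1))
      + hs r (fun A C => mu k j A C * (ν C - 1))
      + 2 * hs r (fun A C => ν A * ν C * mu k j A C * chi (z A) (z C))
      - hs r (fun A C => mu k j A C * (84 / 5 * n2 (y A) + 1 / 2 * (ν A - 1) ^ 2))
      - hs r (fun A C => mu k j A C * (84 / 5 * n2 (y C) + 1 / 2 * (ν C - 1) ^ 2)) ≤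
      hs r (fun A C => ν A * ν C * mu k j A C * (n2 (z A) * n2 (z C) + 2 * chi (z A) (z C)
      - 5 * (n2 (y A) * n2 (z C) + 2 * chi (y A) (z C))
      - 5 * (n2 (z A) * n2 (y C) + 2 * chi (z A) (y C)))) := by
    rw [← hs_mul_left, ← hs_add, ← hs_add, ← hs_add, ← hs_sub, ← hs_sub]
    refine hs_mono r _ _ fun A C _ => ?_
    by_cases h0 : m A = 0 ∨ m C = 0
    · rw [muz hB h0]
      simp
    · push Not at h0
      have hA : 0 < m A := lt_of_le_of_ne (hB.m0 A) (Ne.symm h0.1)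
      have hC : 0 < m C := lt_of_le_of_ne (hB.m0 C) (Ne.symm h0.2)
      have f1 : n2 (z A) = 1 - n2 (y A) := by
        have := hB.nzy A
        rw [hB.nv A hA] at this
        linarith
      have f2 : n2 (z C) = 1 - n2 (y C) := by
        have := hB.nzy C
        rw [hB.nv C hC] at this
        linarith
      have g1 := nn2 (z A)
      have g2 := nn2 (z C)
      have g3 := le_trans (le_abs_self _) (chi_abs_le (y A) (z C))
      have g4 := le_trans (le_abs_self _) (chi_abs_le (z A) (y C))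
      rw [f2] at g3
      rw [f1] at g4
      rw [f1, f2]
      exact pair_ineq (mu0 hB A C) (hν A) (hν C) (nn2 _) (by linarith) (nn2 _) (by linarith) g3 g4
  have e6 : ∑ A, m A * (42 * n2 (y A) + 5 / 4 * (ν A - 1) ^ 2) =
      2 * (5 / 4 * ∑ A, m A * (84 / 5 * n2 (y A) + 1 / 2 * (ν A - 1) ^ 2)) := by
    rw [Finset.mul_sum, Finset.mul_sum]
    exact Finset.sum_congr rfl fun A _ => by ring
  rw [e1, e2] at e5
  rw [e6]
  linarith

private theorem local_part (hB : BDat r θ m k j v z y R Ph) (δ h : ℝ) (hδ : 0 ≤ δ) (hh : 0 ≤ h)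
    (W ν : α → ℝ) (hν : ∀ A, |ν A - 1| ≤ 1 / 90) (A : α) :
    lc θ δ h (W A) (m A) (k A) (j A) - 2 * δ * (k A * nb r m A)
      + δ * ((ν A - 1) * (m A - θ * k A - 2 * k A * nb r m A - 16 * h * (j A * (j A - m A) / m A))
        - m A * ((4 + 1 / 4 + 1 / 45 + 113 * h) * n2 (y A) + (1 + 32 * h) * (ν A - 1) ^ 2)) ≤
    eloc θ δ h (W A) (m A) (k A) (j A) (ν A) (n2 (v A)) (n2 (z A)) (n2 (y A))
      - 2 * δ * (k A * (ν A * n2 (z A) + 9 / 8 * n2 (y A)) * nb r m A) := by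
  rcases (hB.m0 A).eq_or_lt with h0 | h0
  · have h0' := h0.symm
    have hk := hB.kz A h0'
    have hj : j A = 0 := by
      have h1 := hB.j5 A
      have h2 := hB.j0 A
      rw [h0'] at h1
      linarith
    rw [hB.v0 A h0', hB.z0 A h0', yz hB h0', n2z, h0', hk, hj]
    unfold lc eloc
    simp
  · have h1 := hB.nzy A
    rw [hB.nv A h0] at h1
    have h2 := nn2 (z A)
    have hz : n2 (z A) = 1 - n2 (y A) := by linarith
    rw [hB.nv A h0, hz]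
    exact loc_ineq h0 (nn2 _) (by linarith) (hB.k0 A) hB.θ0.le (nb_nonneg r m hB.m0 A) (hB.kU A) (hB.mj A)
      (hB.j5 A) (hν A) hh hδ

theorem XE12 (hB : BDat r θ m k j v z y R Ph) (δ h : ℝ) (hδ : 0 ≤ δ) (hh : 0 ≤ h) (hh1 : h ≤ 1 / 1000000)
    (W ν : α → ℝ) (hν : ∀ A, |ν A - 1| ≤ 1 / 90) :
    Psi θ δ h r W m k j + δ * ∑ A, (ν A - 1) * XiA θ h r m k j A
      - 4 * δ * hs r (fun A C => k A * m C * (ν A * chi (z A) (v C)))
      + 2 * (h * δ) * hs r (fun A C => ν A * ν C * mu k j A C * chi (z A) (z C))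
      - δ * (9 * ms m y + 6 / 5 * ∑ A, m A * (ν A - 1) ^ 2)
      ≤ Ew (uw X) (Pol θ δ h r W m k j ν v z y) := by
  rw [pol_exp]
  simp only [e2_unif, Cv_unif]
  have h1 := Finset.sum_le_sum fun A (_ : A ∈ (Finset.univ : Finset α)) => local_part hB δ h hδ hh W ν hν A
  have h2 := energy_part hB ν
  have h3 := bonus_part hB ν hν
  have h4 := mul_le_mul_of_nonneg_left h2 (show 0 ≤ 2 * δ by linarith)
  have h5 := mul_le_mul_of_nonneg_left h3 (mul_nonneg hh hδ)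
  rw [Finset.sum_sub_distrib (f := fun A => eloc θ δ h (W A) (m A) (k A) (j A) (ν A) (n2 (v A)) (n2 (z A)) (n2 (y A))),
    ← Finset.mul_sum] at h1
  have e1 : Psi θ δ h r W m k j + δ * ∑ A, (ν A - 1) * XiA θ h r m k j A =
      ∑ A, (lc θ δ h (W A) (m A) (k A) (j A) - 2 * δ * (k A * nb r m A)
      + δ * ((ν A - 1) * (m A - θ * k A - 2 * k A * nb r m A - 16 * h * (j A * (j A - m A) / m A))
        - m A * ((4 + 1 / 4 + 1 / 45 + 113 * h) * n2 (y A) + (1 + 32 * h) * (ν A - 1) ^ 2)))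
      + h * δ * (hs r (mu k j) + 2 * ∑ A, (ν A - 1) * (∑ C, if r A C then mu k j A C else 0))
      + δ * ((4 + 1 / 4 + 1 / 45 + 113 * h) * ms m y + (1 + 32 * h) * ∑ A, m A * (ν A - 1) ^ 2) := by
    unfold Psi ms
    rw [hs_mul_nb]
    have g1 : ∑ A, (ν A - 1) * XiA θ h r m k j A =
        ∑ A, (ν A - 1) * (m A - θ * k A - 2 * k A * nb r m A - 16 * h * (j A * (j A - m A) / m A))
        + 2 * h * ∑ A, (ν A - 1) * (∑ C, if r A C then mu k j A C else 0) := by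
      rw [Finset.mul_sum, ← Finset.sum_add_distrib]
      refine Finset.sum_congr rfl fun A _ => ?_
      unfold XiA
      ring
    have g2 : ∑ A, (lc θ δ h (W A) (m A) (k A) (j A) - 2 * δ * (k A * nb r m A)
      + δ * ((ν A - 1) * (m A - θ * k A - 2 * k A * nb r m A - 16 * h * (j A * (j A - m A) / m A))
        - m A * ((4 + 1 / 4 + 1 / 45 + 113 * h) * n2 (y A) + (1 + 32 * h) * (ν A - 1) ^ 2))) =
        ∑ A, lc θ δ h (W A) (m A) (k A) (j A) - 2 * δ * ∑ A, k A * nb r m A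
        + δ * ∑ A, (ν A - 1) * (m A - θ * k A - 2 * k A * nb r m A - 16 * h * (j A * (j A - m A) / m A))
        - δ * ((4 + 1 / 4 + 1 / 45 + 113 * h) * ∑ A, m A * n2 (y A)
          + (1 + 32 * h) * ∑ A, m A * (ν A - 1) ^ 2) := by
      rw [Finset.mul_sum, Finset.mul_sum, Finset.mul_sum (a := (4 + 1 / 4 + 1 / 45 + 113 * h)),
        Finset.mul_sum (a := (1 + 32 * h)), ← Finset.sum_add_distrib, Finset.mul_sum,
        ← Finset.sum_sub_distrib, ← Finset.sum_add_distrib, ← Finset.sum_sub_distrib]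
      exact Finset.sum_congr rfl fun A _ => by ring
    rw [g1, g2]
    ring
  have e2 : h * δ * (hs r (mu k j) + 2 * ∑ A, (ν A - 1) * (∑ C, if r A C then mu k j A C else 0)
      + 2 * hs r (fun A C => ν A * ν C * mu k j A C * chi (z A) (z C))
      - ∑ A, m A * (42 * n2 (y A) + 5 / 4 * (ν A - 1) ^ 2)) =
      h * δ * (hs r (mu k j) + 2 * ∑ A, (ν A - 1) * (∑ C, if r A C then mu k j A C else 0))
      + 2 * (h * δ) * hs r (fun A C => ν A * ν C * mu k j A C * chi (z A) (z C))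
      - h * δ * (42 * ms m y + 5 / 4 * ∑ A, m A * (ν A - 1) ^ 2) := by
    unfold ms
    have g3 : ∑ A, m A * (42 * n2 (y A) + 5 / 4 * (ν A - 1) ^ 2) =
        42 * ∑ A, m A * n2 (y A) + 5 / 4 * ∑ A, m A * (ν A - 1) ^ 2 := by
      rw [Finset.mul_sum, Finset.mul_sum, ← Finset.sum_add_distrib]
      exact Finset.sum_congr rfl fun A _ => by ring
    rw [g3]
    ring
  rw [e2] at h5
  rw [e1]
  have hY : 0 ≤ ms m y := Finset.sum_nonneg fun A _ => mul_nonneg (hB.m0 A) (nn2 _)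
  have hC : 0 ≤ ∑ A, m A * (ν A - 1) ^ 2 := Finset.sum_nonneg fun A _ => mul_nonneg (hB.m0 A) (sq_nonneg _)
  have k1 : 0 ≤ δ * ((9 - (4 + 1 / 4 + 1 / 45 + 113 * h) - 9 / 2 - 42 * h) * ms m y) :=
    mul_nonneg hδ (mul_nonneg (by linarith) hY)
  have k2 : 0 ≤ δ * ((6 / 5 - (1 + 32 * h) - 5 / 4 * h) * ∑ A, m A * (ν A - 1) ^ 2) :=
    mul_nonneg hδ (mul_nonneg (by linarith) hC)
  have e3 : δ * (9 * ms m y + 6 / 5 * ∑ A, m A * (ν A - 1) ^ 2) =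
      δ * ((4 + 1 / 4 + 1 / 45 + 113 * h) * ms m y + (1 + 32 * h) * ∑ A, m A * (ν A - 1) ^ 2)
      + 2 * δ * (9 / 4 * ms m y) + h * δ * (42 * ms m y + 5 / 4 * ∑ A, m A * (ν A - 1) ^ 2)
      + δ * ((9 - (4 + 1 / 4 + 1 / 45 + 113 * h) - 9 / 2 - 42 * h) * ms m y)
      + δ * ((6 / 5 - (1 + 32 * h) - 5 / 4 * h) * ∑ A, m A * (ν A - 1) ^ 2) := by ring
  rw [e3]
  linarith

/-- experiment E1 (`ν = 1`) -/
theorem XE1 (hB : BDat r θ m k j v z y R Ph) (δ h : ℝ) (hδ : 0 ≤ δ) (hh : 0 ≤ h) (hh1 : h ≤ 1 / 1000000)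
    (hhK : h * K0 ≤ 1 / 1000) (W : α → ℝ) :
    Psi θ δ h r W m k j - 4 * δ * hs r (fun A C => k A * m C * chi (z A) (v C))
      + h * δ * (Bq Ph (Gw k z) / (8 * L0)) - δ * (91 / 10 * ms m y + 6 * h * Sur r m k v z)
      ≤ Ew (uw X) (Pol θ δ h r W m k j (fun _ => 1) v z y) := by
  have h0 := XE12 hB δ h hδ hh hh1 W (fun _ => 1) (fun A => by rw [sub_self, abs_zero]; norm_num)
  have h1 := bonus_all hB
  have h2 := chi_ns_le hB (fun _ => 1) (fun A => zero_le_one) (fun A C => by norm_num)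
  simp only [sub_self, zero_mul, zero_pow two_ne_zero, Finset.sum_const_zero, mul_zero, add_zero, one_mul,
    mul_one] at h0 h2
  have h3 := hs_add_ns r (fun A C => mu k j A C * chi (z A) (z C))
  have hY : 0 ≤ ms m y := Finset.sum_nonneg fun A _ => mul_nonneg (hB.m0 A) (nn2 _)
  have hS : 0 ≤ Sur r m k v z := ns_nonneg r _ fun A C _ =>
    mul_nonneg (mul_nonneg (hB.k0 A) (hB.m0 C)) (sq_nonneg _)
  have hL := L0_pos
  have h4 : Bq Ph (Gw k z) / (16 * L0) - 13 / 5 * (Sur r m k v z + K0 * ms m y) ≤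
      hs r (fun A C => mu k j A C * chi (z A) (z C)) := by linarith
  have h5 := mul_le_mul_of_nonneg_left h4 (show 0 ≤ 2 * (h * δ) by positivity)
  have e1 : 2 * (h * δ) * (Bq Ph (Gw k z) / (16 * L0) - 13 / 5 * (Sur r m k v z + K0 * ms m y)) =
      h * δ * (Bq Ph (Gw k z) / (8 * L0)) - δ * (26 / 5 * (h * K0) * ms m y + 26 / 5 * h * Sur r m k v z) := by
    field_simp
    ring
  rw [e1] at h5
  have k1 : 0 ≤ δ * ((1 / 10 - 26 / 5 * (h * K0)) * ms m y) :=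
    mul_nonneg hδ (mul_nonneg (by linarith) hY)
  have k2 : 0 ≤ δ * ((6 - 26 / 5) * h * Sur r m k v z) :=
    mul_nonneg hδ (mul_nonneg (mul_nonneg (by norm_num) hh) hS)
  have e2 : δ * (91 / 10 * ms m y + 6 * h * Sur r m k v z) = δ * (9 * ms m y)
      + δ * (26 / 5 * (h * K0) * ms m y + 26 / 5 * h * Sur r m k v z)
      + δ * ((1 / 10 - 26 / 5 * (h * K0)) * ms m y) + δ * ((6 - 26 / 5) * h * Sur r m k v z) := by ring
  rw [e2]
  linarith

/-- experiment E2 -/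
theorem XE2 (hB : BDat r θ m k j v z y R Ph) (δ h : ℝ) (hδ : 0 ≤ δ) (hh : 0 ≤ h) (hh1 : h ≤ 1 / 1000000)
    (hhK : h * K0 ≤ 1 / 1000) (W ν : α → ℝ) (hν : ∀ A, |ν A - 1| ≤ 1 / 90) :
    Psi θ δ h r W m k j + δ * ∑ A, (ν A - 1) * XiA θ h r m k j A
      - 4 * δ * hs r (fun A C => k A * m C * (ν A * chi (z A) (v C)))
      - δ * (91 / 10 * ms m y + 6 / 5 * ∑ A, m A * (ν A - 1) ^ 2 + 6 * h * Sur r m k v z)
      ≤ Ew (uw X) (Pol θ δ h r W m k j ν v z y) := by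
  have h0 := XE12 hB δ h hδ hh hh1 W ν hν
  have h1 := bonus_all_nu hB ν
  have h2 := chi_ns_le hB ν (fun A => by have := (abs_le.1 (hν A)).1; linarith) (fun A C => by
    have c1 := abs_le.1 (hν A)
    have c2 := abs_le.1 (hν C)
    have h1 : ν A * ν C ≤ (91 / 90) * (91 / 90) :=
      mul_le_mul (by linarith) (by linarith) (by linarith) (by norm_num)
    norm_num at h1
    linarith)
  have h3 := hs_add_ns r (fun A C => ν A * ν C * mu k j A C * chi (z A) (z C))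
  have hY : 0 ≤ ms m y := Finset.sum_nonneg fun A _ => mul_nonneg (hB.m0 A) (nn2 _)
  have hS : 0 ≤ Sur r m k v z := ns_nonneg r _ fun A C _ =>
    mul_nonneg (mul_nonneg (hB.k0 A) (hB.m0 C)) (sq_nonneg _)
  have h4 : - (13 / 5 * (Sur r m k v z + K0 * ms m y)) ≤
      hs r (fun A C => ν A * ν C * mu k j A C * chi (z A) (z C)) := by linarith
  have h5 := mul_le_mul_of_nonneg_left h4 (show 0 ≤ 2 * (h * δ) by positivity)
  have e1 : 2 * (h * δ) * (- (13 / 5 * (Sur r m k v z + K0 * ms m y))) =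
      - δ * (26 / 5 * (h * K0) * ms m y + 26 / 5 * h * Sur r m k v z) := by
    ring
  rw [e1] at h5
  have k1 : 0 ≤ δ * ((1 / 10 - 26 / 5 * (h * K0)) * ms m y) :=
    mul_nonneg hδ (mul_nonneg (by linarith) hY)
  have k2 : 0 ≤ δ * ((6 - 26 / 5) * h * Sur r m k v z) :=
    mul_nonneg hδ (mul_nonneg (mul_nonneg (by norm_num) hh) hS)
  have e2 : δ * (91 / 10 * ms m y + 6 / 5 * ∑ A, m A * (ν A - 1) ^ 2 + 6 * h * Sur r m k v z) =
      δ * (9 * ms m y + 6 / 5 * ∑ A, m A * (ν A - 1) ^ 2)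
      + δ * (26 / 5 * (h * K0) * ms m y + 26 / 5 * h * Sur r m k v z)
      + δ * ((1 / 10 - 26 / 5 * (h * K0)) * ms m y) + δ * ((6 - 26 / 5) * h * Sur r m k v z) := by ring
  rw [e2]
  linarith

end BMV
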