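import Pool.Agent.BMV.Merge
import Pool.Agent.BMV.Geo
import Pool.Agent.BMV.XE2
import Pool.Agent.BMV.Trial
import Pool.Agent.BMV.Energy
import Pool.Agent.BMV.QG

/-!
# BMV/StepB: at least half of the free energy survives

PROOF.  `δ = d0`, `h = h0`.  `geo` gives `BDat` for the merged state, `v = vh c m`.  `XE1` gives
`Psi(bar) - 4 δ hs(k m' chi(z,v')) + (≥ 0) - δ (9.1 ms y + 6 h Sur) ≤ Ew (uw X) (Pol ... (ν = 1))`.
`|chi(p,q)| ≤ n2 p n2 q` (`chi = ip² - ∑ p² q²`, `0 ≤ ∑ p_i² q_i² ≤ n2 p n2 q`, `0 ≤ ip² ≤ n2 p n2 q`), `n2 z ≤ n2 v ≤ 1`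
(`n2 z + n2 y = n2 v`), so `hs(..) ≤ ∑ bar k nb r (bar m) ≤ ∑ bar m`, `ms y ≤ ∑ bar m`,
`Sur ≤ ∑_C bar m C qd (Gw (bar k) z) (v C) ≤ K0 ∑ bar m`, `6 h0 K0 ≤ 1`.
So the expectation is `≥ Psi(bar) - 15 δ ∑ bar m`.  `Psi(bar) ≥ Psi_t` (`merge`, signs of the losses, `Ohc_le`),
`∑ bar m = ∑ m ≤ Psi_t` (`energy`), `15 δ ≤ 1/2`.  `exists_ge` for the uniform weights and `pol_le_GG` as in
`StepA` (`ν = 1`).
-/

namespace BMV

open Finset BMP

variable {α X : Type} [Fintype α] [Fintype X] [DecidableEq X] (r : α → α → Prop) [DecidableRel r]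

private theorem d0_small : 15 * d0 ≤ 1 / 2 := by
  have h1 := d0_K0
  have h2 := K0_ge
  have h3 := d0_pos
  have h4 : K0 ^ 1 ≤ K0 ^ 5 := pow_le_pow_right₀ (by linarith) (by norm_num)
  rw [pow_one] at h4
  have h5 : d0 * 80000 ≤ 1 := by
    rw [← h1]
    exact mul_le_mul_of_nonneg_left (by linarith) h3.le
  linarith

omit [DecidableEq X] in
private theorem n2nn (x : X → ℝ) : 0 ≤ n2 x := Finset.sum_nonneg fun _ _ => sq_nonneg _

omit [DecidableEq X] in
private theorem n2zero : n2 (0 : X → ℝ) = 0 := by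
  unfold n2
  refine Finset.sum_eq_zero fun i _ => ?_
  show (0 : ℝ) ^ 2 = 0
  norm_num

omit [DecidableEq X] in
private theorem qd_Gw' (c : α → ℝ) (u : α → X → ℝ) (x : X → ℝ) :
    qd (Gw c u) x = ∑ A, c A * ip (u A) x ^ 2 := by
  have h1 : ∀ A, c A * ip (u A) x ^ 2 = ∑ i, ∑ j, x i * (c A * (u A i * u A j)) * x j := by
    intro A
    unfold ip
    rw [sq, Finset.sum_mul_sum, Finset.mul_sum]
    refine Finset.sum_congr rfl fun i _ => ?_
    rw [Finset.mul_sum]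
    exact Finset.sum_congr rfl fun j _ => by ring
  rw [Finset.sum_congr rfl fun A _ => h1 A, Finset.sum_comm]
  unfold qd Gw
  refine Finset.sum_congr rfl fun i _ => ?_
  rw [Finset.sum_comm]
  refine Finset.sum_congr rfl fun j _ => ?_
  rw [Finset.mul_sum, Finset.sum_mul]

variable {r}
variable {θ : ℝ} {m k j : α → ℝ} {v z y : α → X → ℝ} {R : Matrix X X ℝ} {Ph : X → ℝ}

private theorem z_le_one (hB : BDat r θ m k j v z y R Ph) (A : α) : n2 (z A) ≤ 1 := by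
  rcases (hB.m0 A).eq_or_lt with h | h
  · rw [hB.z0 A h.symm, n2zero]
    norm_num
  · have h1 := hB.nzy A
    have h2 := n2nn (y A)
    rw [hB.nv A h] at h1
    linarith

private theorem chi_part (hB : BDat r θ m k j v z y R Ph) :
    hs r (fun A C => k A * m C * chi (z A) (v C)) ≤ ∑ A, m A := by
  have h1 : hs r (fun A C => k A * m C * chi (z A) (v C)) ≤ hs r (fun A C => k A * m C) := by
    refine hs_mono r _ _ fun A C _ => ?_
    have h2 := le_trans (le_abs_self _) (chi_abs_le (z A) (v C))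
    have h3 := hB.mnv C
    have h4 := z_le_one hB A
    have h5 := n2nn (z A)
    have h6 := hB.k0 A
    have h7 := hB.m0 C
    calc k A * m C * chi (z A) (v C) ≤ k A * m C * (n2 (z A) * n2 (v C)) :=
          mul_le_mul_of_nonneg_left h2 (mul_nonneg h6 h7)
      _ = k A * (m C * n2 (v C)) * n2 (z A) := by ring
      _ = k A * m C * n2 (z A) := by rw [h3]
      _ ≤ k A * m C * 1 := mul_le_mul_of_nonneg_left h4 (mul_nonneg h6 h7)
      _ = k A * m C := mul_one _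
  refine h1.trans ?_
  rw [hs_mul_nb]
  refine Finset.sum_le_sum fun A _ => ?_
  have h2 := hB.kU A
  have h3 := mul_nonneg (hB.k0 A) hB.θ0.le
  have h4 : k A * (θ + nb r m A) = k A * θ + k A * nb r m A := by ring
  linarith

private theorem ms_part (hB : BDat r θ m k j v z y R Ph) : ms m y ≤ ∑ A, m A := by
  unfold ms
  refine Finset.sum_le_sum fun A _ => ?_
  have h1 := hB.nzy A
  have h2 := n2nn (z A)
  have h3 := hB.mnv A
  calc m A * n2 (y A) ≤ m A * n2 (v A) := mul_le_mul_of_nonneg_left (by linarith) (hB.m0 A)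
    _ = m A := h3

private theorem sur_part (hB : BDat r θ m k j v z y R Ph) :
    Sur r m k v z ≤ K0 * ∑ A, m A := by
  have h1 : Sur r m k v z ≤ ∑ A, ∑ C, k A * m C * ip (z A) (v C) ^ 2 := by
    rw [← hs_add_ns r (fun A C => k A * m C * ip (z A) (v C) ^ 2)]
    have h2 : 0 ≤ hs r (fun A C => k A * m C * ip (z A) (v C) ^ 2) :=
      hs_nonneg r _ fun A C _ => mul_nonneg (mul_nonneg (hB.k0 A) (hB.m0 C)) (sq_nonneg _)
    unfold Sur
    linarith
  refine h1.trans ?_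
  rw [Finset.sum_comm, Finset.mul_sum]
  refine Finset.sum_le_sum fun C _ => ?_
  have h3 : ∑ A, k A * m C * ip (z A) (v C) ^ 2 = m C * qd (Gw k z) (v C) := by
    rw [qd_Gw', Finset.mul_sum]
    exact Finset.sum_congr rfl fun A _ => by ring
  rw [h3]
  calc m C * qd (Gw k z) (v C) ≤ m C * (K0 * n2 (v C)) :=
        mul_le_mul_of_nonneg_left (hB.qN _) (hB.m0 C)
    _ = K0 * (m C * n2 (v C)) := by ring
    _ = K0 * m C := by rw [hB.mnv C]

private theorem bq_part (hB : BDat r θ m k j v z y R Ph) : 0 ≤ Bq Ph (Gw k z) := by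
  unfold Bq
  refine Finset.sum_nonneg fun i _ => Finset.sum_nonneg fun l _ => ?_
  exact mul_nonneg (le_max_of_le_left (hB.Ph0 i).le) (sq_nonneg _)

/-- The expectation in the first experiment. -/
private theorem exp_part (hB : BDat r θ m k j v z y R Ph) (W : α → ℝ) :
    Psi θ d0 h0 r W m k j - 15 * d0 * ∑ A, m A ≤
      Ew (uw X) (Pol θ d0 h0 r W m k j (fun _ => 1) v z y) := by
  have hh := h0_pos
  have hd := d0_pos
  have hL := L0_pos
  have hK := h0_K0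
  have hh1 := h0_le
  refine le_trans ?_ (XE1 hB d0 h0 hd.le hh.le (by linarith) hK.le W)
  have h1 := chi_part hB
  have h2 := ms_part hB
  have h3 := sur_part hB
  have h4 := bq_part hB
  have h5 : 0 ≤ h0 * d0 * (Bq Ph (Gw k z) / (8 * L0)) := by positivity
  have h6 : h0 * Sur r m k v z ≤ 1 / 1000 * ∑ A, m A := by
    calc h0 * Sur r m k v z ≤ h0 * (K0 * ∑ A, m A) := mul_le_mul_of_nonneg_left h3 hh.le
      _ = (h0 * K0) * ∑ A, m A := by ring
      _ = _ := by rw [hK]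
  have hM : 0 ≤ ∑ A, m A := Finset.sum_nonneg fun A _ => hB.m0 A
  have h7 := mul_le_mul_of_nonneg_left h1 hd.le
  have h8 := mul_le_mul_of_nonneg_left h2 hd.le
  have h9 := mul_le_mul_of_nonneg_left h6 hd.le
  have h10 := mul_nonneg hd.le hM
  have e1 : d0 * (91 / 10 * ms m y + 6 * h0 * Sur r m k v z) =
      91 / 10 * (d0 * ms m y) + 6 * (d0 * (h0 * Sur r m k v z)) := by ring
  rw [e1]
  linarith

variable (r)

theorem stepB (hr : ∀ A C, r A C → r C A) (θ : ℝ) (hθ : 0 < θ) (c : α → X → ℝ) (m k j : α × X → ℝ)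
    (hS : St θ d0 h0 (rX r) (cW c) m k j) :
    ∃ s : X → Bool, 1 / 2 * Psi θ d0 h0 (rX r) (cW c) m k j ≤ GG θ d0 h0 r (fun A => dt (c A) s ^ 2) := by
  have hh := h0_pos
  have hd := d0_pos
  have hh1 := h0_le
  have hd1 := d0_small
  obtain ⟨z, y, R, Ph, hB, -, -⟩ := geo r θ d0 h0 c m k j hr hθ hS
  have hrX : ∀ p q : α × X, rX r p q → rX r q p := fun p q h =>
    h.elim (fun h1 => Or.inl (hr _ _ h1)) (fun h1 => Or.inr h1.symm)
  have hkz : ∀ p, m p = 0 → k p = 0 := fun p hp => (kz r θ d0 h0 hθ (cW c) m k j hS p hp).1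
  have hjz : ∀ p, m p = 0 → j p = 0 := fun p hp => (kz r θ d0 h0 hθ (cW c) m k j hS p hp).2
  have hcW : ∀ p, 0 ≤ cW c p := fun p => sq_nonneg _
  have h1 := exp_part hB (bar (cW c))
  have h2 := merge r θ d0 h0 hθ (cW c) m k j hS
  have h3 := Ohc_le r θ d0 h0 (cW c) m k j hS
  have h4 : 0 ≤ Oc r m k := Oc_nonneg r m k hS.m0 hS.k0
  have hKL : 0 ≤ ∑ A, KLt (cW c) m A :=
    Finset.sum_nonneg fun A _ => KLt_nonneg (cW c) m hcW hS.m0 hS.Wp A
  have hJ : 0 ≤ ∑ A, Jt m k A :=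
    Finset.sum_nonneg fun A _ => Jt_nonneg m k hS.m0 hS.k0 hS.kp hkz A
  have hQ : 0 ≤ ∑ A, Qt m j A := Finset.sum_nonneg fun A _ => Qt_nonneg m j hS.m0 hjz A
  have hG : 0 ≤ ∑ A, Gp r k j A := Finset.sum_nonneg fun A _ => Gp_nonneg r k j A
  have h5 : Psi θ d0 h0 (rX r) (cW c) m k j ≤
      Psi θ d0 h0 r (bar (cW c)) (bar m) (bar k) (bar j) := by
    rw [h2]
    have e1 := mul_nonneg hd.le hJ
    have e2 : 0 ≤ 8 * h0 * d0 * ∑ A, Qt m j A := by positivity
    have e3 : 0 ≤ h0 * d0 * ∑ A, Gp r k j A := by positivity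
    have e4 : h0 * d0 * Ohc r k j ≤ h0 * d0 * (5 / 4 * Oc r m k) :=
      mul_le_mul_of_nonneg_left h3 (mul_nonneg hh.le hd.le)
    have e5 : h0 * d0 * (5 / 4 * Oc r m k) ≤ 2 * d0 * Oc r m k := by
      have e6 : h0 * (5 / 4) ≤ 2 := by linarith
      calc h0 * d0 * (5 / 4 * Oc r m k) = h0 * (5 / 4) * (d0 * Oc r m k) := by ring
        _ ≤ 2 * (d0 * Oc r m k) := mul_le_mul_of_nonneg_right e6 (mul_nonneg hd.le h4)
        _ = _ := by ring
    linarith
  have h6 := (energy (rX r) θ d0 h0 hθ hd (by linarith) hh (by linarith) hrX (cW c) m k j hS).2.1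
  have h7 : ∑ A, bar m A = ∑ p, m p := by
    rw [Fintype.sum_prod_type]
    rfl
  have hM : 0 ≤ ∑ A, bar m A := Finset.sum_nonneg fun A _ => hB.m0 A
  have h8 : 1 / 2 * Psi θ d0 h0 (rX r) (cW c) m k j ≤
      Ew (uw X) (Pol θ d0 h0 r (bar (cW c)) (bar m) (bar k) (bar j) (fun _ => 1) (vh c m) z y) := by
    refine le_trans ?_ h1
    have e1 : 15 * d0 * ∑ A, bar m A ≤ 1 / 2 * ∑ A, bar m A := mul_le_mul_of_nonneg_right hd1 hM
    rw [← h7] at h6
    linarith
  obtain ⟨s, hs⟩ := exists_ge (uw X) uw_nonneg uw_sum _ _ h8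
  refine ⟨s, hs.trans ?_⟩
  refine pol_le_GG r θ d0 h0 hθ hd.le hh.le (by linarith) (bar (cW c)) (bar m) (bar k) (bar j)
    (fun _ => 1) (vh c m) z y (fun A => dt (c A) s ^ 2) s (fun A => sq_nonneg _)
    (fun A hA => bar_Wp r θ d0 h0 (cW c) m k j hcW hS A hA) hB.m0 hB.k0 hB.kp hB.mj hB.j5 hB.kU
    hB.vzy (fun A => by norm_num) (fun A hA => ?_)
  have e0 := bar_Wp r θ d0 h0 (cW c) m k j hcW hS A hA
  have e1 : dt (c A) s = Real.sqrt (bar (cW c) A) * dt (vh c m A) s := by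
    unfold dt
    rw [Finset.mul_sum]
    refine Finset.sum_congr rfl fun i _ => ?_
    rw [c_eq r θ d0 h0 c m k j hS A hA i]
    ring
  beta_reduce
  rw [e1, mul_pow, Real.sq_sqrt e0.le]

end BMV
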