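import Pool.Agent.BMV.EqT
import Pool.Agent.BMV.Exist
import Pool.Agent.BMV.Energy
import Pool.Agent.BMV.StepA
import Pool.Agent.BMV.StepB

/-!
# BMV/StepF: restriction of a block of a form

PROOF.  `exists_max` (`W B = c B ^ 2`, `rM` symmetric, `d0, h0` small positive) gives a maximiser `(m,k,j)`; `mx_St`, `energy`,
`GG_eq`: `P := GB θ c = Psi ≥ ∑ m ≥ ∑ k nb rM m`.  For every block `b` transport to `α × X`
(`St_equiv`, `rM_ins`): the weights are `cW (vA c b) (A,i) = c (ins b i A) ^ 2`, and `Psi` is unchanged (`Psi_equiv`).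
`stepA` and `stepB`: for every `b` there are `s, s'` with
`P - 36 Mt d0 O_b ≤ GB θ (rev c b s)` and `P/2 ≤ GB θ (rev c b s')` (`rev c b s A = dt (vA c b A) s`).
`∑_b O_b ≤ ∑ k nb rM m ≤ P` (`sum_Oc`), so some `b` has `O_b ≤ P/t`, `t = card ι` (`Finset.exists_le_of_sum_le` or by
contradiction; `ι` is nonempty).  For this `b` take `s` or `s'` according to which of `1 - 36 Mt d0/t` and `1/2` is
larger.
-/

namespace BMV

open Finset BMP

variable {ι X : Type} [Fintype ι] [DecidableEq ι] [Fintype X] [DecidableEq X]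

theorem d0_small : d0 ≤ 1 / 1000000 := by
  have h1 := d0_K0
  have h2 := K0_ge
  have h3 := d0_pos
  have h4 : (80000 : ℝ) ^ 5 ≤ K0 ^ 5 := pow_le_pow_left₀ (by norm_num) h2 5
  have h5 : d0 * 1000000 ≤ d0 * K0 ^ 5 := by
    apply mul_le_mul_of_nonneg_left _ h3.le
    refine le_trans ?_ h4
    norm_num
  rw [h1] at h5
  linarith

theorem GB_nonneg (θ : ℝ) (hθ : 0 < θ) (c : (ι → X) → ℝ) : 0 ≤ GB θ c := by
  unfold GB
  have hh := h0_le
  exact GG_nonneg rM θ d0 h0 hθ d0_pos.le h0_pos.le (by linarith) (fun B => c B ^ 2)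
    (fun B => sq_nonneg _)

private theorem rM_sym (B C : ι → X) (h : rM B C) : rM C B := by
  obtain ⟨b, hb⟩ := h
  exact ⟨b, hb.symm⟩

theorem stepF (hι : 0 < Fintype.card ι) (θ : ℝ) (hθ : 0 < θ) (c : (ι → X) → ℝ) :
    ∃ (b : ι) (s : X → Bool),
      max (1 / 2) (1 - 36 * Mt * d0 / (Fintype.card ι : ℝ)) * GB θ c ≤ GB θ (rev c b s) := by
  have hd := d0_pos
  have hh := h0_pos
  have hh1 := h0_le
  have hd1 := d0_small
  have hMt : 0 < Mt := by
    unfold Mt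
    exact Real.exp_pos _
  obtain ⟨m, k, j, hx⟩ := exists_max (rM (ι := ι) (X := X)) θ d0 h0 hθ hd.le hh.le (by linarith)
    rM_sym (fun B => c B ^ 2) (fun B => sq_nonneg _)
  have hS := mx_St rM θ d0 h0 hθ hd hh (by linarith) rM_sym (fun B => c B ^ 2) m k j hx
  have hEn := energy rM θ d0 h0 hθ hd (by linarith) hh (by linarith) rM_sym (fun B => c B ^ 2)
    m k j hS
  have hGB : GB θ c = Psi θ d0 h0 rM (fun B => c B ^ 2) m k j :=
    GG_eq rM θ d0 h0 (fun B => c B ^ 2) m k j hx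
  obtain ⟨P, hP⟩ : ∃ P : ℝ, P = GB θ c := ⟨_, rfl⟩
  have hP0 : 0 ≤ P := by rw [hP]; exact GB_nonneg θ hθ c
  have ht : (0 : ℝ) < (Fintype.card ι : ℝ) := by exact_mod_cast hι
  obtain ⟨O, hO⟩ : ∃ O : ι → ℝ, O = fun b => Oc (rM (ι := {j // j ≠ b}) (X := X))
      (fun p => m (insE b p)) (fun p => k (insE b p)) := ⟨_, rfl⟩
  have hsum : ∑ b : ι, O b ≤ P := by
    have h1 := sum_Oc m k hS.m0 hS.k0
    rw [hO, hP, hGB]
    linarith [hEn.1, hEn.2.1]
  have hex : ∃ b : ι, O b ≤ P / (Fintype.card ι : ℝ) := by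
    haveI : Nonempty ι := Fintype.card_pos_iff.1 hι
    have h1 : ∑ b : ι, O b ≤ ∑ _b : ι, P / (Fintype.card ι : ℝ) := by
      rw [Finset.sum_const, Finset.card_univ, nsmul_eq_mul, mul_div_cancel₀ _ ht.ne']
      exact hsum
    obtain ⟨b, -, hb⟩ := Finset.exists_le_of_sum_le Finset.univ_nonempty h1
    exact ⟨b, hb⟩
  obtain ⟨b, hb⟩ := hex
  have hSb : St θ d0 h0 (rX (rM (ι := {j // j ≠ b}) (X := X))) (cW (vA c b))
      (fun p => m (insE b p)) (fun p => k (insE b p)) (fun p => j (insE b p)) :=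
    St_equiv rM (rX (rM (ι := {j // j ≠ b}) (X := X))) (insE b) (fun p q => rM_ins b p q)
      θ d0 h0 (fun B => c B ^ 2) m k j hS
  have hPb : Psi θ d0 h0 (rX (rM (ι := {j // j ≠ b}) (X := X))) (cW (vA c b))
      (fun p => m (insE b p)) (fun p => k (insE b p)) (fun p => j (insE b p)) = P := by
    rw [hP, hGB]
    exact Psi_equiv rM (rX (rM (ι := {j // j ≠ b}) (X := X))) (insE b) (fun p q => rM_ins b p q)
      θ d0 h0 (fun B => c B ^ 2) m k j
  obtain ⟨s1, hs1⟩ := stepA (rM (ι := {j // j ≠ b}) (X := X)) rM_sym θ hθ (vA c b)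
    (fun p => m (insE b p)) (fun p => k (insE b p)) (fun p => j (insE b p)) hSb
  obtain ⟨s2, hs2⟩ := stepB (rM (ι := {j // j ≠ b}) (X := X)) rM_sym θ hθ (vA c b)
    (fun p => m (insE b p)) (fun p => k (insE b p)) (fun p => j (insE b p)) hSb
  rw [hPb] at hs1 hs2
  have hg1 : GG θ d0 h0 (rM (ι := {j // j ≠ b}) (X := X)) (fun A => dt (vA c b A) s1 ^ 2) =
      GB θ (rev c b s1) := rfl
  have hg2 : GG θ d0 h0 (rM (ι := {j // j ≠ b}) (X := X)) (fun A => dt (vA c b A) s2 ^ 2) =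
      GB θ (rev c b s2) := rfl
  rw [hg1] at hs1
  rw [hg2] at hs2
  have hOb : Oc (rM (ι := {j // j ≠ b}) (X := X))
      (fun p => m (insE b p)) (fun p => k (insE b p)) = O b := by rw [hO]
  rw [hOb] at hs1
  rw [← hP]
  rcases le_total (1 / 2) (1 - 36 * Mt * d0 / (Fintype.card ι : ℝ)) with h1 | h1
  · refine ⟨b, s1, ?_⟩
    rw [max_eq_right h1]
    have h2 : 36 * Mt * d0 * O b ≤ 36 * Mt * d0 * (P / (Fintype.card ι : ℝ)) :=
      mul_le_mul_of_nonneg_left hb (by positivity)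
    have h3 : (1 - 36 * Mt * d0 / (Fintype.card ι : ℝ)) * P =
        P - 36 * Mt * d0 * (P / (Fintype.card ι : ℝ)) := by ring
    rw [h3]
    linarith
  · refine ⟨b, s2, ?_⟩
    rw [max_eq_left h1]
    exact hs2

end BMV
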