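import Pool.Agent.BMV.Basic

/-!
# BMV/Upd: change of the free energy when the state is changed at one index

PROOF.  Split the sums: for `F : β → β → ℝ` symmetric in the sense needed,
`hs r F = (if r B B then F B B else 0) + ∑_{C ≠ B} [r B C] F B C + ∑_{C ≠ B} [r C B] F C B + ∑_{C,D ≠ B} [r C D] F C D`
(first write this general splitting lemma with `Finset.sum_erase_eq_sub` / `Finset.add_sum_erase`), and
`r C B ↔ r B C`.  The last sum does not change.  For `F B C = k B * m C`:
the terms with `B` are `[r B B] k_B m_B + k_B ∑' m_C + m_B ∑' k_C`; for `F = mu k j` they are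
`[r B B] j_B k_B + 2 ∑' min(j_B k_C, j_C k_B)` (`min (j_B k_B) (j_B k_B) = j_B k_B`).
-/

namespace BMV

open Finset BMP

variable {β : Type} [Fintype β] [DecidableEq β] (r : β → β → Prop) [DecidableRel r]

/-- sum over the neighbours different from `B` -/
def nbo (f : β → ℝ) (B : β) : ℝ := ∑ C ∈ univ.erase B, if r B C then f C else 0

theorem nb_eq_nbo (f : β → ℝ) (B : β) : nb r f B = nbo r f B + if r B B then f B else 0 := by
  unfold nb nbo
  rw [← sum_erase_add univ _ (mem_univ B)]

private theorem hs_split (F : β → β → ℝ) (B : β) :
    hs r F = (if r B B then F B B else 0) + (∑ C ∈ univ.erase B, if r B C then F B C else 0)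
      + (∑ C ∈ univ.erase B, if r C B then F C B else 0)
      + ∑ C ∈ univ.erase B, ∑ D ∈ univ.erase B, if r C D then F C D else 0 := by
  unfold hs
  rw [← sum_erase_add univ _ (mem_univ B)]
  have h1 : ∀ C : β, (∑ D, if r C D then F C D else 0) =
      (∑ D ∈ univ.erase B, if r C D then F C D else 0) + if r C B then F C B else 0 := by
    intro C
    rw [← sum_erase_add univ _ (mem_univ B)]
  rw [h1 B, sum_congr rfl fun C _ => h1 C, sum_add_distrib]
  ring

private theorem hs_diff (hr : ∀ B C, r B C → r C B) (F G : β → β → ℝ) (B : β)
    (h : ∀ C D, C ≠ B → D ≠ B → F C D = G C D) :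
    hs r F - hs r G = (if r B B then F B B - G B B else 0)
      + ∑ C ∈ univ.erase B, if r B C then F B C + F C B - G B C - G C B else 0 := by
  rw [hs_split r F B, hs_split r G B]
  have h1 : (∑ C ∈ univ.erase B, ∑ D ∈ univ.erase B, if r C D then F C D else 0) =
      ∑ C ∈ univ.erase B, ∑ D ∈ univ.erase B, if r C D then G C D else 0 := by
    refine sum_congr rfl fun C hC => sum_congr rfl fun D hD => ?_
    rw [h C D (ne_of_mem_erase hC) (ne_of_mem_erase hD)]
  have h2 : ∀ H : β → β → ℝ, (∑ C ∈ univ.erase B, if r C B then H C B else 0) =
      ∑ C ∈ univ.erase B, if r B C then H C B else 0 := by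
    intro H
    refine sum_congr rfl fun C _ => ?_
    by_cases hC : r C B
    · rw [if_pos hC, if_pos (hr C B hC)]
    · rw [if_neg hC, if_neg fun h' => hC (hr B C h')]
  rw [h1, h2 F, h2 G]
  have h3 : (∑ C ∈ univ.erase B, if r B C then F B C + F C B - G B C - G C B else 0) =
      (∑ C ∈ univ.erase B, if r B C then F B C else 0) +
      (∑ C ∈ univ.erase B, if r B C then F C B else 0) -
      (∑ C ∈ univ.erase B, if r B C then G B C else 0) -
      (∑ C ∈ univ.erase B, if r B C then G C B else 0) := by
    rw [← sum_add_distrib, ← sum_sub_distrib, ← sum_sub_distrib]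
    refine sum_congr rfl fun C _ => ?_
    split_ifs <;> ring
  rw [h3]
  split_ifs <;> ring

theorem Psi_update (θ δ h : ℝ) (hr : ∀ B C, r B C → r C B) (W m k j : β → ℝ) (B : β) (m1 k1 j1 : ℝ) :
    Psi θ δ h r W (Function.update m B m1) (Function.update k B k1) (Function.update j B j1)
      - Psi θ δ h r W m k j
    = lc θ δ h (W B) m1 k1 j1 - lc θ δ h (W B) (m B) (k B) (j B)
      - 2 * δ * ((k1 - k B) * nbo r m B + (m1 - m B) * nbo r k B
          + if r B B then k1 * m1 - k B * m B else 0)
      + h * δ * (2 * (∑ C ∈ univ.erase B,
            if r B C then min (j1 * k C) (j C * k1) - min (j B * k C) (j C * k B) else 0)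
          + if r B B then j1 * k1 - j B * k B else 0) := by
  have e1 : (∑ C, lc θ δ h (W C) (Function.update m B m1 C) (Function.update k B k1 C)
      (Function.update j B j1 C)) - ∑ C, lc θ δ h (W C) (m C) (k C) (j C)
      = lc θ δ h (W B) m1 k1 j1 - lc θ δ h (W B) (m B) (k B) (j B) := by
    rw [← sum_erase_add univ _ (mem_univ B),
      ← sum_erase_add univ (fun C => lc θ δ h (W C) (m C) (k C) (j C)) (mem_univ B)]
    have : (∑ C ∈ univ.erase B, lc θ δ h (W C) (Function.update m B m1 C)
        (Function.update k B k1 C) (Function.update j B j1 C)) =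
        ∑ C ∈ univ.erase B, lc θ δ h (W C) (m C) (k C) (j C) := by
      refine sum_congr rfl fun C hC => ?_
      have hne := ne_of_mem_erase hC
      rw [Function.update_of_ne hne, Function.update_of_ne hne, Function.update_of_ne hne]
    rw [this]
    simp only [Function.update_self]
    ring
  have e2 : hs r (fun C D => Function.update k B k1 C * Function.update m B m1 D)
      - hs r (fun C D => k C * m D)
      = (k1 - k B) * nbo r m B + (m1 - m B) * nbo r k B
          + if r B B then k1 * m1 - k B * m B else 0 := by
    rw [hs_diff r hr _ _ B]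
    · unfold nbo
      rw [mul_sum, mul_sum, ← sum_add_distrib, add_comm]
      congr 1
      · refine sum_congr rfl fun C hC => ?_
        have hne := ne_of_mem_erase hC
        simp only [Function.update_self, Function.update_of_ne hne]
        split_ifs <;> ring
      · simp only [Function.update_self]
    · intro C D hC hD
      simp only [Function.update_of_ne hC, Function.update_of_ne hD]
  have e3 : hs r (mu (Function.update k B k1) (Function.update j B j1)) - hs r (mu k j)
      = 2 * (∑ C ∈ univ.erase B,
            if r B C then min (j1 * k C) (j C * k1) - min (j B * k C) (j C * k B) else 0)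
          + if r B B then j1 * k1 - j B * k B else 0 := by
    rw [hs_diff r hr _ _ B]
    · rw [mul_sum, add_comm]
      congr 1
      · refine sum_congr rfl fun C hC => ?_
        have hne := ne_of_mem_erase hC
        simp only [mu, Function.update_self, Function.update_of_ne hne]
        rw [min_comm (j C * k1) (j1 * k C), min_comm (j C * k B) (j B * k C)]
        split_ifs <;> ring
      · simp only [mu, Function.update_self, min_self]
    · intro C D hC hD
      simp only [mu, Function.update_of_ne hC, Function.update_of_ne hD]
  unfold Psi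
  rw [← e1, ← e2, ← e3]
  ring

end BMV
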