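import Pool.Agent.BMV.GQ4
import Pool.Agent.BMV.GLaw

/-! BMV X0 (helper94): exact expectation of the polynomial lower bound `Pol` under a measure `Fld w D a b`.

* `dt_sq_qx`: expand the square. `qx_Gw`: `∑_A c_A <u_A,x>^2 = qx (Gw c u)`.
* `Cv_sum_left`: `Cv` is linear in the first argument; so `∑_A c_A Cv (<u_A,x>^2, g) = Cv (qx (Gw c u), g)`.
* `e2_eq`: `GCov.Ew_sq` and `qd a p = ∑_k ∑_l p_k p_l a_kl`.
* `Ew_mul`: `Ew (f g) = Ew f * Ew g + Cv f g` (definition).
* `Cv_unif`: `GCov.cov_eq` with `a = 0`, `D = 0` (`GLaw.fld_unif`, any `b`, e.g. `b = 0`; with `a = 0` all terms of `F4 0 b`, so `Rem`, vanish) and `M = p p^T`: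
  `Cv = 2 qd (off (p p^T)) q = 2 (ip p q ^ 2 - ∑ p_i^2 q_i^2)`. (Or directly from the fourth moments.)
* `pol_exp`: `loc` depends only on the squares: `loc θ δ h W m k j ν F z y = eloc θ δ h W m k j ν (F^2) (z^2) (y^2)` and `eloc` is linear (homogeneous) in the triple
  `(F2, Z2, Y2)`; use `Ew_sum`, `Ew_add`, `Ew_sub`, `Ew_mul_left`, `Ew_hs`, `Ew_mul`. -/

namespace BMV

open Finset BMP

section

variable {X : Type} [Fintype X] [DecidableEq X]

/-- shift of the second moment of `<p, x>` -/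
noncomputable def uu (a : Matrix X X ℝ) (D : ℝ) (p : X → ℝ) : ℝ := Real.exp (-D) * qd a p

/-- second moment of `<p, x>` -/
noncomputable def e2 (a : Matrix X X ℝ) (D : ℝ) (p : X → ℝ) : ℝ := n2 p + uu a D p

/-- the square of a linear form -/
def sqv (p : X → ℝ) (s : X → Bool) : ℝ := dt p s ^ 2

theorem dt_sq_qx (p : X → ℝ) (s : X → Bool) : sqv p s = qx (fun i j => p i * p j) s := by
  unfold sqv dt qx
  rw [sq, Finset.sum_mul_sum]
  refine Finset.sum_congr rfl fun i _ => Finset.sum_congr rfl fun j _ => ?_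
  ring

theorem qx_Gw {α : Type} [Fintype α] (c : α → ℝ) (u : α → X → ℝ) (s : X → Bool) :
    ∑ A, c A * sqv (u A) s = qx (Gw c u) s := by
  have h1 : ∀ A, c A * sqv (u A) s = ∑ i, ∑ j, c A * (u A i * u A j) * (sg (s i) * sg (s j)) := by
    intro A
    rw [dt_sq_qx]
    unfold qx
    rw [Finset.mul_sum]
    refine Finset.sum_congr rfl fun i _ => ?_
    rw [Finset.mul_sum]
    exact Finset.sum_congr rfl fun j _ => by ring
  rw [Finset.sum_congr rfl fun A _ => h1 A, Finset.sum_comm]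
  unfold qx Gw
  refine Finset.sum_congr rfl fun i _ => ?_
  rw [Finset.sum_comm]
  refine Finset.sum_congr rfl fun j _ => ?_
  rw [Finset.sum_mul]

theorem Cv_sum_left {α : Type} [Fintype α] (w : (X → Bool) → ℝ) (c : α → ℝ) (u : α → X → ℝ) (g : (X → Bool) → ℝ) :
    ∑ A, c A * Cv w (sqv (u A)) g = Cv w (qx (Gw c u)) g := by
  have h1 : qx (Gw c u) = fun s => ∑ A, c A * sqv (u A) s := funext fun s => (qx_Gw c u s).symm
  unfold Cv
  rw [h1]
  have h2 : (fun s => (∑ A, c A * sqv (u A) s) * g s) = fun s => ∑ A, c A * (sqv (u A) s * g s) := by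
    funext s
    rw [Finset.sum_mul]
    exact Finset.sum_congr rfl fun A _ => by ring
  rw [h2, Ew_sum w Finset.univ (fun A s => c A * (sqv (u A) s * g s)),
    Ew_sum w Finset.univ (fun A s => c A * sqv (u A) s), Finset.sum_mul, ← Finset.sum_sub_distrib]
  refine Finset.sum_congr rfl fun A _ => ?_
  rw [Ew_mul_left, Ew_mul_left]
  ring

theorem Cv_comm (w : (X → Bool) → ℝ) (f g : (X → Bool) → ℝ) : Cv w f g = Cv w g f := by
  unfold Cv
  rw [show (fun s => f s * g s) = fun s => g s * f s from funext fun s => mul_comm _ _,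
    mul_comm (Ew w f)]

theorem Ew_mul (w : (X → Bool) → ℝ) (f g : (X → Bool) → ℝ) :
    Ew w (fun s => f s * g s) = Ew w f * Ew w g + Cv w f g := by
  unfold Cv
  ring

theorem e2_eq {a b : Matrix X X ℝ} (ha : ∀ i, a i i = 0) {D : ℝ} {w : (X → Bool) → ℝ} (hw : Fld w D a b)
    (p : X → ℝ) : Ew w (sqv p) = e2 a D p := by
  have h1 := Ew_sq ha hw p
  unfold e2 uu qd
  rw [show Ew w (sqv p) = Ew w (fun s => dt p s ^ 2) from rfl, h1]
  congr 2
  exact Finset.sum_congr rfl fun i _ => Finset.sum_congr rfl fun j _ => by ring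

theorem Cv_unif (p q : X → ℝ) : Cv (uw X) (sqv p) (sqv q) = 2 * chi p q := by
  unfold Cv
  rw [Ew_uw, Ew_uw, Ew_uw]
  rw [show Ex (fun s => sqv p s * sqv q s) = Ex (fun s => dt p s ^ 2 * dt q s ^ 2) from rfl,
    show Ex (sqv p) = Ex (fun s => dt p s ^ 2) from rfl,
    show Ex (sqv q) = Ex (fun s => dt q s ^ 2) from rfl, Ex_dt_sq_mul, Ex_dt_sq, Ex_dt_sq]
  unfold chi ip
  ring

theorem e2_unif (p : X → ℝ) : Ew (uw X) (sqv p) = n2 p := by
  rw [Ew_uw, show Ex (sqv p) = Ex (fun s => dt p s ^ 2) from rfl, Ex_dt_sq]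

end

/-- `loc` as a function of the squares -/
noncomputable def eloc (θ δ h W m k j ν F2 Z2 Y2 : ℝ) : ℝ :=
  m * F2 * (Real.log (W / m) + 1)
  + δ * (m * (F2 * Real.log (θ * k / m) + Z2 - 3 * Y2 + F2 * Real.log ν)
    - θ * k * (ν * Z2 + 9 / 8 * Y2)
    - 8 * h * (m * ((j / m - 1) ^ 2 * F2 + 2 * (j / m) * (j / m - 1) * (ν * Z2 - F2)
        + (j / m) ^ 2 * (5 / 2 * (ν - 1) ^ 2 * Z2 + 9 * Y2))))

section

variable {α X : Type} [Fintype α] [Fintype X] [DecidableEq X] (r : α → α → Prop) [DecidableRel r]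

private theorem eloc_lin (θ δ h W m k j ν F2 Z2 Y2 : ℝ) : eloc θ δ h W m k j ν F2 Z2 Y2 =
    eloc θ δ h W m k j ν 1 0 0 * F2 + (eloc θ δ h W m k j ν 0 1 0 * Z2
      + eloc θ δ h W m k j ν 0 0 1 * Y2) := by
  unfold eloc
  ring

private theorem Ew_eloc (θ δ h W m k j ν : ℝ) (w : (X → Bool) → ℝ) (f g l : (X → Bool) → ℝ) :
    Ew w (fun s => eloc θ δ h W m k j ν (f s) (g s) (l s)) =
      eloc θ δ h W m k j ν (Ew w f) (Ew w g) (Ew w l) := by
  rw [eloc_lin θ δ h W m k j ν (Ew w f) (Ew w g) (Ew w l)]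
  rw [show (fun s => eloc θ δ h W m k j ν (f s) (g s) (l s)) = fun s =>
    eloc θ δ h W m k j ν 1 0 0 * f s + (eloc θ δ h W m k j ν 0 1 0 * g s
      + eloc θ δ h W m k j ν 0 0 1 * l s) from funext fun s => eloc_lin θ δ h W m k j ν _ _ _]
  rw [Ew_add w (fun s => eloc θ δ h W m k j ν 1 0 0 * f s)
    (fun s => eloc θ δ h W m k j ν 0 1 0 * g s + eloc θ δ h W m k j ν 0 0 1 * l s),
    Ew_add w (fun s => eloc θ δ h W m k j ν 0 1 0 * g s), Ew_mul_left, Ew_mul_left, Ew_mul_left]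

theorem pol_exp (θ δ h : ℝ) (W m k j ν : α → ℝ) (v z y : α → X → ℝ) (w : (X → Bool) → ℝ) :
    Ew w (Pol θ δ h r W m k j ν v z y) =
      ∑ A, eloc θ δ h (W A) (m A) (k A) (j A) (ν A) (Ew w (sqv (v A))) (Ew w (sqv (z A))) (Ew w (sqv (y A)))
      - 2 * δ * hs r (fun A C => k A * m C *
          ((ν A * Ew w (sqv (z A)) + 9 / 8 * Ew w (sqv (y A))) * Ew w (sqv (v C))
            + (ν A * Cv w (sqv (z A)) (sqv (v C)) + 9 / 8 * Cv w (sqv (y A)) (sqv (v C)))))
      + h * δ * hs r (fun A C => ν A * ν C * mu k j A C *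
          (Ew w (sqv (z A)) * Ew w (sqv (z C)) + Cv w (sqv (z A)) (sqv (z C))
            - 5 * (Ew w (sqv (y A)) * Ew w (sqv (z C)) + Cv w (sqv (y A)) (sqv (z C)))
            - 5 * (Ew w (sqv (z A)) * Ew w (sqv (y C)) + Cv w (sqv (z A)) (sqv (y C))))) := by
  have h0 : Pol θ δ h r W m k j ν v z y = fun s =>
      ((∑ A, eloc θ δ h (W A) (m A) (k A) (j A) (ν A) (sqv (v A) s) (sqv (z A) s) (sqv (y A) s))
      - 2 * δ * hs r (fun A C => (fun s => k A * m C * ν A * (sqv (z A) s * sqv (v C) s)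
          + k A * m C * (9 / 8) * (sqv (y A) s * sqv (v C) s)) s))
      + h * δ * hs r (fun A C => (fun s => ν A * ν C * mu k j A C * (sqv (z A) s * sqv (z C) s)
          + (ν A * ν C * mu k j A C * (-5) * (sqv (y A) s * sqv (z C) s)
          + ν A * ν C * mu k j A C * (-5) * (sqv (z A) s * sqv (y C) s))) s) := by
    funext s
    unfold Pol
    congr 1
    · congr 1
      congr 1
      refine hs_congr r _ _ fun A C _ => ?_
      unfold sqv
      ring
    · congr 1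
      refine hs_congr r _ _ fun A C _ => ?_
      unfold sqv
      ring
  rw [h0]
  rw [Ew_add w (fun s => (∑ A, eloc θ δ h (W A) (m A) (k A) (j A) (ν A) (sqv (v A) s) (sqv (z A) s) (sqv (y A) s))
      - 2 * δ * hs r (fun A C => (fun s => k A * m C * ν A * (sqv (z A) s * sqv (v C) s)
          + k A * m C * (9 / 8) * (sqv (y A) s * sqv (v C) s)) s)),
    Ew_sub w (fun s => ∑ A, eloc θ δ h (W A) (m A) (k A) (j A) (ν A) (sqv (v A) s) (sqv (z A) s) (sqv (y A) s)),
    Ew_mul_left, Ew_mul_left, Ew_hs, Ew_hs,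
    Ew_sum w Finset.univ (fun A s => eloc θ δ h (W A) (m A) (k A) (j A) (ν A) (sqv (v A) s) (sqv (z A) s)
      (sqv (y A) s))]
  congr 1
  · congr 1
    · exact Finset.sum_congr rfl fun A _ => Ew_eloc _ _ _ _ _ _ _ _ w _ _ _
    · congr 1
      refine hs_congr r _ _ fun A C _ => ?_
      rw [Ew_add w (fun s => k A * m C * ν A * (sqv (z A) s * sqv (v C) s)), Ew_mul_left, Ew_mul_left,
        Ew_mul, Ew_mul]
      ring
  · congr 1
    refine hs_congr r _ _ fun A C _ => ?_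
    rw [Ew_add w (fun s => ν A * ν C * mu k j A C * (sqv (z A) s * sqv (z C) s)),
      Ew_add w (fun s => ν A * ν C * mu k j A C * (-5) * (sqv (y A) s * sqv (z C) s)),
      Ew_mul_left, Ew_mul_left, Ew_mul_left, Ew_mul, Ew_mul, Ew_mul]
    ring

end

end BMV
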