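import Pool.Agent.BMV.XMin
import Pool.Agent.BMV.GFld

/-! BMV XCv (helper94): bounds for the linear part of the covariance and for covariances of squares.

Facts on `a` (`QH a b κ`): `n2 (ap a x) ≤ κ^2 n2 x`, so `|qd a x| = |<x, a x>| ≤ κ n2 x` and `qd a x ^ 2 ≤ n2 x * n2 (ap a x)`; `ra a i = n2 (ap a e_i) ≤ κ^2` (symmetry);
`0 ≤ e^(-D) ≤ 1` for `D ≥ 0`; `Zq a x ≤ 2 κ^2 n2 x`; `Zq a x ≥ 0`.

`uu_le`, `uu_sq_le` are immediate.

`gram_cs`: for every `y`: `<y, M x> = ∑_A c_A ip(z_A,x) ip(z_A,y)`, `M = Gw c z`; by Cauchy-Schwarz and `|c_A| ≤ k_A t_A`: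
`<y,Mx>^2 ≤ (∑ k_A t_A^2 ip(z_A,x)^2)(∑ k_A ip(z_A,y)^2) ≤ (..)(K n2 y)`; take `y = M x` and cancel `n2 y` (trivial if `n2 y = 0`).
`gram_diag`: `M_ii^2 = (∑ c_A z_A(i)^2)^2 ≤ (∑ k_A t_A^2 z_A(i)^2)(∑ k_A z_A(i)^2)`, the last factor is `qd (Gw k z) e_i ≤ K`. Multiply by `x_i^2` and sum.
`gram_row`: `gram_cs` with `x = e_i`.

`lin_part`: `off M x = M x - diag(M) x`, so with `2 |p||q| ≤ (λ/(2K))p^2·... `: for vectors `4 |<p, a x>| ≤ (λ/K) n2 p + (4K/λ) n2 (ap a x)`; apply it with `p = M x` (`n2 p ≤ K H`) and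
`p = diag(M) x` (`n2 p ≤ K Hd`), `H = ∑ k t^2 ip(z,x)^2`, `Hd = ∑ k t^2 ∑_i z_i^2 x_i^2`. Third: `|∑_j off M i j a_ij| ≤ sqrt(∑_j M_ij^2) sqrt(ra a i)`,
`4 x_i^2 (..) ≤ x_i^2 ((λ/K) ∑_j M_ij^2 + (4K/λ) ra a i)`, `gram_row`: sum over `i` is `≤ λ Hd + (4K/λ) ∑ ra a i x_i^2`. Total `λ (H + 2 Hd) + (8K/λ) Zq a x` (`e^(-D) ≤ 1`).

`Cv_le`: `GQ4.Q4` with `M = p p^T` (`dt_sq_qx`), `κM = n2 p` (`|ip p x|^2 ≤ n2 p n2 x`): main terms `2 |qd (off M) q| = 2 |chi p q| ≤ 2 n2 p n2 q` (`0 ≤ ∑ p_i^2 q_i^2 ≤ n2 p n2 q`,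
`0 ≤ ip^2 ≤ n2 p n2 q`); `4 |<off M q, a q>| ≤ 4 (2 n2 p |q|) κ |q| ≤ (8/100) n2 p n2 q`; `4 ∑ q_i^2 |∑_j p_i p_j a_ij| ≤ 4 κ n2 p n2 q`
(`|p_i| ≤ |p|`, `|∑_j a_ij p_j| ≤ κ |p|`); remainder `100 n2 p Zq a q ≤ 200 κ^2 n2 p n2 q`. Sum `≤ (2 + .08 + .04 + .02) n2 p n2 q`. -/

namespace BMV

open Finset BMP

section

variable {X : Type} [Fintype X] [DecidableEq X] {a b : Matrix X X ℝ} {κ D : ℝ}

private theorem cs_sq (f g : X → ℝ) : (∑ i, f i * g i) ^ 2 ≤ n2 f * n2 g :=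
  Finset.sum_mul_sq_le_sq_mul_sq Finset.univ f g

private theorem cs2 {f g : X → ℝ} {A B : ℝ} (hA : 0 ≤ A) (hB : 0 ≤ B) (hf : n2 f ≤ A ^ 2) (hg : n2 g ≤ B ^ 2) :
    |∑ i, f i * g i| ≤ A * B := by
  have h2 : (∑ i, f i * g i) ^ 2 ≤ (A * B) ^ 2 := by
    rw [mul_pow]
    exact (cs_sq f g).trans (mul_le_mul hf hg (gf_n2_nonneg g) (sq_nonneg _))
  exact abs_le_of_sq_le_sq h2 (mul_nonneg hA hB)

private theorem qd_ap (M : Matrix X X ℝ) (x : X → ℝ) : qd M x = ∑ i, x i * ap M x i := by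
  unfold qd ap
  refine Finset.sum_congr rfl fun i _ => ?_
  rw [Finset.mul_sum]
  exact Finset.sum_congr rfl fun j _ => by ring

private theorem qd_sq_le (M : Matrix X X ℝ) (x : X → ℝ) : qd M x ^ 2 ≤ n2 x * n2 (ap M x) := by
  rw [qd_ap]
  exact cs_sq x (ap M x)

private theorem ap_sgl (M : Matrix X X ℝ) (i j : X) : ap M (Pi.single i 1) j = M j i := by
  unfold ap
  rw [Finset.sum_eq_single i]
  · rw [Pi.single_eq_same, mul_one]
  · intro k _ hk
    rw [Pi.single_eq_of_ne hk, mul_zero]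
  · intro hh
    exact absurd (Finset.mem_univ i) hh

private theorem ip_sgl (p : X → ℝ) (i : X) : ip p (Pi.single i 1) = p i := by
  unfold ip
  rw [Finset.sum_eq_single i]
  · rw [Pi.single_eq_same, mul_one]
  · intro k _ hk
    rw [Pi.single_eq_of_ne hk, mul_zero]
  · intro hh
    exact absurd (Finset.mem_univ i) hh

private theorem exp_le1 (hD : 0 ≤ D) : Real.exp (-D) ≤ 1 := Real.exp_le_one_iff.2 (by linarith)

theorem Zq_nonneg (a : Matrix X X ℝ) (x : X → ℝ) : 0 ≤ Zq a x := by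
  unfold Zq ra n2
  positivity

theorem ra_le (h : QH a b κ) (i : X) : ra a i ≤ κ ^ 2 := by
  have h1 := h.op (Pi.single i 1)
  have h3 : n2 (ap a (Pi.single i 1)) = ra a i := by
    unfold n2 ra
    refine Finset.sum_congr rfl fun j _ => ?_
    rw [ap_sgl, h.as j i]
  rw [gf_n2_single, h3, mul_one] at h1
  exact h1

theorem Zq_le (h : QH a b κ) (x : X → ℝ) : Zq a x ≤ 2 * κ ^ 2 * n2 x := by
  have h1 := h.op x
  have h2 : ∑ i, ra a i * x i ^ 2 ≤ κ ^ 2 * n2 x := by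
    unfold n2
    rw [Finset.mul_sum]
    exact Finset.sum_le_sum fun i _ => mul_le_mul_of_nonneg_right (ra_le h i) (sq_nonneg _)
  unfold Zq
  linarith

private theorem qd_le (h : QH a b κ) (x : X → ℝ) : |qd a x| ≤ κ * n2 x := by
  have h1 := qd_sq_le a x
  have h2 := h.op x
  have h3 := gf_n2_nonneg x
  refine abs_le_of_sq_le_sq ?_ (mul_nonneg h.κ0 h3)
  calc qd a x ^ 2 ≤ n2 x * n2 (ap a x) := h1
    _ ≤ n2 x * (κ ^ 2 * n2 x) := mul_le_mul_of_nonneg_left h2 h3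
    _ = (κ * n2 x) ^ 2 := by ring

theorem uu_le (h : QH a b κ) (hD : 0 ≤ D) (x : X → ℝ) : |uu a D x| ≤ κ * n2 x := by
  unfold uu
  rw [abs_mul, abs_of_pos (Real.exp_pos _)]
  calc Real.exp (-D) * |qd a x| ≤ 1 * |qd a x| := mul_le_mul_of_nonneg_right (exp_le1 hD) (abs_nonneg _)
    _ = |qd a x| := one_mul _
    _ ≤ κ * n2 x := qd_le h x

theorem uu_sq_le (hD : 0 ≤ D) (x : X → ℝ) : uu a D x ^ 2 ≤ n2 x * n2 (ap a x) := by
  unfold uu
  rw [mul_pow]
  calc Real.exp (-D) ^ 2 * qd a x ^ 2 ≤ 1 * qd a x ^ 2 :=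
        mul_le_mul_of_nonneg_right (pow_le_one₀ (Real.exp_pos _).le (exp_le1 hD)) (sq_nonneg _)
    _ = qd a x ^ 2 := one_mul _
    _ ≤ n2 x * n2 (ap a x) := qd_sq_le a x

private theorem sq_sq_le (p q : X → ℝ) : ∑ i, p i ^ 2 * q i ^ 2 ≤ n2 p * n2 q := by
  have h1 : n2 p * n2 q = ∑ i, p i ^ 2 * n2 q := by
    rw [← Finset.sum_mul]
    rfl
  rw [h1]
  refine Finset.sum_le_sum fun i _ => mul_le_mul_of_nonneg_left ?_ (sq_nonneg _)
  exact Finset.single_le_sum (f := fun i => q i ^ 2) (fun _ _ => sq_nonneg _) (Finset.mem_univ i)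

theorem chi_abs_le (p q : X → ℝ) : |chi p q| ≤ n2 p * n2 q := by
  have h1 : ip p q ^ 2 ≤ n2 p * n2 q := cs_sq p q
  have h2 := sq_sq_le p q
  have h3 : 0 ≤ ∑ i, p i ^ 2 * q i ^ 2 := Finset.sum_nonneg fun i _ => by positivity
  have h4 := sq_nonneg (ip p q)
  unfold chi
  rw [abs_le]
  constructor <;> linarith

theorem chi_le_sq (p q : X → ℝ) : chi p q ≤ ip p q ^ 2 := by
  have h3 : 0 ≤ ∑ i, p i ^ 2 * q i ^ 2 := Finset.sum_nonneg fun i _ => by positivity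
  unfold chi
  linarith

private theorem qd_pp (p x : X → ℝ) : qd (fun i j => p i * p j) x = ip p x ^ 2 := by
  unfold qd ip
  rw [sq, Finset.sum_mul_sum]
  exact Finset.sum_congr rfl fun i _ => Finset.sum_congr rfl fun j _ => by ring

theorem Cv_le (h : QH a b κ) (hD : 0 ≤ D) {w : (X → Bool) → ℝ} (hw : Fld w D a b) (p q : X → ℝ) :
    |Cv w (sqv p) (sqv q)| ≤ 11 / 5 * (n2 p * n2 q) := by
  set M : Matrix X X ℝ := fun i j => p i * p j with hM
  have hs : ∀ i j, M i j = M j i := fun i j => mul_comm _ _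
  have hp := gf_n2_nonneg p
  have hq := gf_n2_nonneg q
  have h0 : ∀ x, 0 ≤ qd M x := fun x => by
    rw [hM, qd_pp]
    exact sq_nonneg _
  have h1 : ∀ x, qd M x ≤ n2 p * n2 x := fun x => by
    rw [hM, qd_pp]
    exact cs_sq p x
  have hq4 := Q4 h hD hw hs hp (fun x => by
    rw [abs_of_nonneg (h0 x)]
    exact h1 x) q
  have e0 : qx M = sqv p := by
    funext s
    exact (dt_sq_qx p s).symm
  rw [e0] at hq4
  have e1 : qd (off M) q = chi p q := by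
    rw [gf_qd_off, hM, qd_pp]
    unfold chi
    congr 1
    exact Finset.sum_congr rfl fun i _ => by ring
  have b1 := chi_abs_le p q
  rw [← e1] at b1
  have ho := offN_op hs hp h0 h1
  have b2 : |∑ i, ap (off M) q i * ap a q i| ≤ κ * (n2 p * n2 q) := by
    refine (cs2 (A := n2 p * Real.sqrt (n2 q)) (B := κ * Real.sqrt (n2 q)) (by positivity)
      (mul_nonneg h.κ0 (Real.sqrt_nonneg _)) ?_ ?_).trans (le_of_eq ?_)
    · rw [mul_pow, Real.sq_sqrt hq]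
      exact ho q
    · rw [mul_pow, Real.sq_sqrt hq]
      exact h.op q
    · have := Real.mul_self_sqrt hq
      calc n2 p * Real.sqrt (n2 q) * (κ * Real.sqrt (n2 q))
          = κ * (n2 p * (Real.sqrt (n2 q) * Real.sqrt (n2 q))) := by ring
        _ = κ * (n2 p * n2 q) := by rw [this]
  have b3 : |∑ i, q i ^ 2 * ∑ j, off M i j * a i j| ≤ κ * (n2 p * n2 q) := by
    refine (Finset.abs_sum_le_sum_abs _ _).trans ?_
    have e : κ * (n2 p * n2 q) = ∑ i, q i ^ 2 * (n2 p * κ) := by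
      rw [← Finset.sum_mul]
      unfold n2
      ring
    rw [e]
    refine Finset.sum_le_sum fun i _ => ?_
    rw [abs_mul, abs_of_nonneg (sq_nonneg (q i))]
    refine mul_le_mul_of_nonneg_left ?_ (sq_nonneg _)
    refine cs2 (f := fun j => off M i j) (g := fun j => a i j) hp h.κ0 ?_ (ra_le h i)
    have h2 := ho (Pi.single i 1)
    rw [gf_n2_single, mul_one] at h2
    refine le_trans (le_of_eq ?_) h2
    unfold n2
    refine Finset.sum_congr rfl fun j _ => ?_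
    rw [ap_sgl, gf_off_sym hs]
  have b4 := Zq_le h q
  have hE0 := (Real.exp_pos (-D)).le
  have hE1 := exp_le1 hD
  have c2 : |Real.exp (-D) * ∑ i, ap (off M) q i * ap a q i| ≤ κ * (n2 p * n2 q) := by
    rw [abs_mul, abs_of_nonneg hE0]
    calc _ ≤ 1 * |∑ i, ap (off M) q i * ap a q i| := mul_le_mul_of_nonneg_right hE1 (abs_nonneg _)
      _ ≤ _ := by
        rw [one_mul]
        exact b2
  have c3 : |Real.exp (-D) * ∑ i, q i ^ 2 * ∑ j, off M i j * a i j| ≤ κ * (n2 p * n2 q) := by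
    rw [abs_mul, abs_of_nonneg hE0]
    calc _ ≤ 1 * |∑ i, q i ^ 2 * ∑ j, off M i j * a i j| := mul_le_mul_of_nonneg_right hE1 (abs_nonneg _)
      _ ≤ _ := by
        rw [one_mul]
        exact b3
  have hκ1 := h.κ1
  have hκ0 := h.κ0
  have hκ2 : κ ^ 2 ≤ 1 / 10000 := by nlinarith
  have hpq : 0 ≤ n2 p * n2 q := mul_nonneg hp hq
  have d1 : κ * (n2 p * n2 q) ≤ 1 / 100 * (n2 p * n2 q) := mul_le_mul_of_nonneg_right hκ1 hpq
  have d2 : 100 * n2 p * Zq a q ≤ 1 / 50 * (n2 p * n2 q) := by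
    calc 100 * n2 p * Zq a q ≤ 100 * n2 p * (2 * κ ^ 2 * n2 q) := mul_le_mul_of_nonneg_left b4 (by positivity)
      _ = κ ^ 2 * (200 * (n2 p * n2 q)) := by ring
      _ ≤ 1 / 10000 * (200 * (n2 p * n2 q)) := mul_le_mul_of_nonneg_right hκ2 (by positivity)
      _ = 1 / 50 * (n2 p * n2 q) := by ring
  change |Cv w (sqv p) (sqv q) - _| ≤ _ at hq4
  rw [abs_le] at hq4 b1 c2 c3 ⊢
  constructor
  · linarith [hq4.1, b1.1, b1.2, c2.1, c2.2, c3.1, c3.2]
  · linarith [hq4.2, b1.1, b1.2, c2.1, c2.2, c3.1, c3.2]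

variable {α : Type} [Fintype α]

/-- weighted Cauchy-Schwarz -/
private theorem wcs (c k t p q : α → ℝ) (hk : ∀ A, 0 ≤ k A) (hc : ∀ A, |c A| ≤ k A * t A) :
    (∑ A, c A * (p A * q A)) ^ 2 ≤ (∑ A, k A * t A ^ 2 * p A ^ 2) * ∑ A, k A * q A ^ 2 := by
  have h1 : |∑ A, c A * (p A * q A)| ≤ ∑ A, k A * (t A * |p A|) * |q A| := by
    refine (Finset.abs_sum_le_sum_abs _ _).trans (Finset.sum_le_sum fun A _ => ?_)
    rw [abs_mul, abs_mul]
    calc |c A| * (|p A| * |q A|) ≤ k A * t A * (|p A| * |q A|) :=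
          mul_le_mul_of_nonneg_right (hc A) (by positivity)
      _ = k A * (t A * |p A|) * |q A| := by ring
  have h2 : (∑ A, k A * (t A * |p A|) * |q A|) ^ 2 ≤ (∑ A, k A * t A ^ 2 * p A ^ 2) * ∑ A, k A * q A ^ 2 := by
    refine Finset.sum_sq_le_sum_mul_sum_of_sq_le_mul Finset.univ (fun A _ => ?_) (fun A _ => ?_) (fun A _ => le_of_eq ?_)
    · have := hk A
      positivity
    · have := hk A
      positivity
    · rw [mul_pow, mul_pow, mul_pow, sq_abs, sq_abs]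
      ring
  refine le_trans ?_ h2
  rw [← sq_abs (∑ A, c A * (p A * q A))]
  exact pow_le_pow_left₀ (abs_nonneg _) h1 2

private theorem ip_ap (c : α → ℝ) (z : α → X → ℝ) (x y : X → ℝ) :
    ∑ i, y i * ap (Gw c z) x i = ∑ A, c A * (ip (z A) x * ip (z A) y) := by
  have e : ∀ A, c A * (ip (z A) x * ip (z A) y) = ∑ i, ∑ j, y i * (c A * (z A i * z A j) * x j) := by
    intro A
    unfold ip
    rw [mul_comm (∑ i, z A i * x i), Finset.sum_mul_sum, Finset.mul_sum]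
    refine Finset.sum_congr rfl fun i _ => ?_
    rw [Finset.mul_sum]
    exact Finset.sum_congr rfl fun j _ => by ring
  simp only [e]
  rw [Finset.sum_comm]
  refine Finset.sum_congr rfl fun i _ => ?_
  rw [Finset.sum_comm]
  unfold ap Gw
  rw [Finset.mul_sum]
  refine Finset.sum_congr rfl fun j _ => ?_
  rw [Finset.sum_mul, Finset.mul_sum]

theorem gram_cs (c k t : α → ℝ) (z : α → X → ℝ) {K : ℝ} (hK : 0 ≤ K) (hk : ∀ A, 0 ≤ k A) (ht : ∀ A, 0 ≤ t A)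
    (hc : ∀ A, |c A| ≤ k A * t A) (hN : ∀ x, qd (Gw k z) x ≤ K * n2 x) (x : X → ℝ) :
    n2 (ap (Gw c z) x) ≤ K * ∑ A, k A * t A ^ 2 * ip (z A) x ^ 2 := by
  set y := ap (Gw c z) x with hy
  have e1 : n2 y = ∑ A, c A * (ip (z A) x * ip (z A) y) := by
    rw [← ip_ap, ← hy]
    unfold n2
    exact Finset.sum_congr rfl fun i _ => by ring
  have h1 := wcs c k t (fun A => ip (z A) x) (fun A => ip (z A) y) hk hc
  rw [← e1] at h1
  have h2 := hN y
  rw [Gw_qd] at h2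
  have hH : 0 ≤ ∑ A, k A * t A ^ 2 * ip (z A) x ^ 2 := Finset.sum_nonneg fun A _ => by
    have := hk A
    positivity
  have hy0 := gf_n2_nonneg y
  rcases hy0.eq_or_lt with h0 | h0
  · rw [← h0]
    exact mul_nonneg hK hH
  · have h3 : n2 y * n2 y ≤ (K * ∑ A, k A * t A ^ 2 * ip (z A) x ^ 2) * n2 y := by
      calc n2 y * n2 y = n2 y ^ 2 := (sq _).symm
        _ ≤ (∑ A, k A * t A ^ 2 * ip (z A) x ^ 2) * ∑ A, k A * ip (z A) y ^ 2 := h1
        _ ≤ (∑ A, k A * t A ^ 2 * ip (z A) x ^ 2) * (K * n2 y) := mul_le_mul_of_nonneg_left h2 hH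
        _ = _ := by ring
    exact le_of_mul_le_mul_right h3 h0

theorem gram_diag (c k t : α → ℝ) (z : α → X → ℝ) {K : ℝ} (hK : 0 ≤ K) (hk : ∀ A, 0 ≤ k A) (ht : ∀ A, 0 ≤ t A)
    (hc : ∀ A, |c A| ≤ k A * t A) (hN : ∀ x, qd (Gw k z) x ≤ K * n2 x) (x : X → ℝ) :
    ∑ i, (Gw c z i i * x i) ^ 2 ≤ K * ∑ A, k A * t A ^ 2 * ∑ i, z A i ^ 2 * x i ^ 2 := by
  have h1 : ∀ i, Gw c z i i ^ 2 ≤ K * ∑ A, k A * t A ^ 2 * z A i ^ 2 := by
    intro i
    have h2 := wcs c k t (fun A => z A i) (fun A => z A i) hk hc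
    have h3 := hN (Pi.single i 1)
    rw [gf_qd_single, gf_n2_single, mul_one] at h3
    have h4 : ∑ A, k A * z A i ^ 2 = Gw k z i i := by
      unfold Gw
      exact Finset.sum_congr rfl fun A _ => by ring
    have hH : 0 ≤ ∑ A, k A * t A ^ 2 * z A i ^ 2 := Finset.sum_nonneg fun A _ => by
      have := hk A
      positivity
    calc Gw c z i i ^ 2 ≤ (∑ A, k A * t A ^ 2 * z A i ^ 2) * ∑ A, k A * z A i ^ 2 := h2
      _ ≤ (∑ A, k A * t A ^ 2 * z A i ^ 2) * K := by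
          rw [h4]
          exact mul_le_mul_of_nonneg_left h3 hH
      _ = _ := mul_comm _ _
  have e : K * ∑ A, k A * t A ^ 2 * ∑ i, z A i ^ 2 * x i ^ 2 = ∑ i, (K * ∑ A, k A * t A ^ 2 * z A i ^ 2) * x i ^ 2 := by
    have e1 : ∀ A, k A * t A ^ 2 * ∑ i, z A i ^ 2 * x i ^ 2 = ∑ i, k A * t A ^ 2 * z A i ^ 2 * x i ^ 2 := by
      intro A
      rw [Finset.mul_sum]
      exact Finset.sum_congr rfl fun i _ => by ring
    simp only [e1]
    rw [Finset.sum_comm, Finset.mul_sum]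
    refine Finset.sum_congr rfl fun i _ => ?_
    rw [mul_assoc, Finset.sum_mul]
  rw [e]
  refine Finset.sum_le_sum fun i _ => ?_
  rw [mul_pow]
  exact mul_le_mul_of_nonneg_right (h1 i) (sq_nonneg _)

theorem gram_row (c k t : α → ℝ) (z : α → X → ℝ) {K : ℝ} (hK : 0 ≤ K) (hk : ∀ A, 0 ≤ k A) (ht : ∀ A, 0 ≤ t A)
    (hc : ∀ A, |c A| ≤ k A * t A) (hN : ∀ x, qd (Gw k z) x ≤ K * n2 x) (i : X) :
    ∑ l, Gw c z i l ^ 2 ≤ K * ∑ A, k A * t A ^ 2 * z A i ^ 2 := by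
  have h := gram_cs c k t z hK hk ht hc hN (Pi.single i 1)
  have e1 : n2 (ap (Gw c z) (Pi.single i 1)) = ∑ l, Gw c z i l ^ 2 := by
    unfold n2
    refine Finset.sum_congr rfl fun l _ => ?_
    rw [ap_sgl, Gw_sym]
  rw [e1] at h
  simp only [ip_sgl] at h
  exact h

private theorem young {K lam : ℝ} (hK : 0 < K) (hlam : 0 < lam) (f g : X → ℝ) :
    4 * |∑ i, f i * g i| ≤ lam / K * n2 f + 4 * K / lam * n2 g := by
  have h1 : |∑ i, f i * g i| ≤ ∑ i, |f i| * |g i| := by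
    refine (Finset.abs_sum_le_sum_abs _ _).trans (le_of_eq ?_)
    exact Finset.sum_congr rfl fun i _ => abs_mul _ _
  have h2 : 4 * ∑ i, |f i| * |g i| ≤ lam / K * n2 f + 4 * K / lam * n2 g := by
    unfold n2
    rw [Finset.mul_sum, Finset.mul_sum, Finset.mul_sum, ← Finset.sum_add_distrib]
    refine Finset.sum_le_sum fun i _ => ?_
    rw [← sq_abs (f i), ← sq_abs (g i)]
    have e : lam / K * |f i| ^ 2 + 4 * K / lam * |g i| ^ 2 - 4 * (|f i| * |g i|) =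
        (lam * |f i| - 2 * K * |g i|) ^ 2 / (K * lam) := by
      field_simp
      ring
    have : 0 ≤ (lam * |f i| - 2 * K * |g i|) ^ 2 / (K * lam) := by positivity
    linarith
  linarith

theorem lin_part (ha : ∀ i, a i i = 0) (hD : 0 ≤ D) (c k t : α → ℝ) (z : α → X → ℝ) {K : ℝ} (hK : 0 < K)
    (hk : ∀ A, 0 ≤ k A) (ht : ∀ A, 0 ≤ t A) (hc : ∀ A, |c A| ≤ k A * t A)
    (hN : ∀ x, qd (Gw k z) x ≤ K * n2 x) (x : X → ℝ) (lam : ℝ) (hlam : 0 < lam) :
    4 * (Real.exp (-D) * |∑ i, ap (off (Gw c z)) x i * ap a x i|)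
      + 4 * (Real.exp (-D) * |∑ i, x i ^ 2 * ∑ l, off (Gw c z) i l * a i l|) ≤
      lam * (∑ A, k A * t A ^ 2 * ip (z A) x ^ 2 + 2 * ∑ A, k A * t A ^ 2 * ∑ i, z A i ^ 2 * x i ^ 2)
        + 8 * K / lam * Zq a x := by
  set M := Gw c z with hM
  set H := ∑ A, k A * t A ^ 2 * ip (z A) x ^ 2 with hH
  set Hd := ∑ A, k A * t A ^ 2 * ∑ i, z A i ^ 2 * x i ^ 2 with hHd
  have hE1 := exp_le1 hD
  have drop : ∀ S : ℝ, 4 * (Real.exp (-D) * |S|) ≤ 4 * |S| := fun S => by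
    have := mul_le_mul_of_nonneg_right hE1 (abs_nonneg S)
    linarith
  have g1 : n2 (ap M x) ≤ K * H := gram_cs c k t z hK.le hk ht hc hN x
  have g2 : ∑ i, (M i i * x i) ^ 2 ≤ K * Hd := gram_diag c k t z hK.le hk ht hc hN x
  have g3 : ∀ i, ∑ l, M i l ^ 2 ≤ K * ∑ A, k A * t A ^ 2 * z A i ^ 2 := gram_row c k t z hK.le hk ht hc hN
  have scal : ∀ u v : ℝ, u ≤ K * v → lam / K * u ≤ lam * v := fun u v huv => by
    calc lam / K * u ≤ lam / K * (K * v) := mul_le_mul_of_nonneg_left huv (by positivity)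
      _ = lam * v := by field_simp
  -- the first term
  have e1 : ∑ i, ap (off M) x i * ap a x i = ∑ i, ap M x i * ap a x i - ∑ i, M i i * x i * ap a x i := by
    rw [← Finset.sum_sub_distrib]
    refine Finset.sum_congr rfl fun i _ => ?_
    rw [← sub_mul]
    congr 1
    unfold ap
    have e : M i i * x i = ∑ j, if i = j then M i j * x j else 0 := by
      rw [Finset.sum_ite_eq, if_pos (Finset.mem_univ i)]
    rw [e, ← Finset.sum_sub_distrib]
    refine Finset.sum_congr rfl fun j _ => ?_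
    unfold off
    split_ifs <;> ring
  have t1 : 4 * |∑ i, ap M x i * ap a x i| ≤ lam * H + 4 * K / lam * n2 (ap a x) := by
    have h1 := young hK hlam (ap M x) (ap a x)
    have h2 := scal _ _ g1
    linarith
  have t2 : 4 * |∑ i, M i i * x i * ap a x i| ≤ lam * Hd + 4 * K / lam * n2 (ap a x) := by
    have h1 := young hK hlam (fun i => M i i * x i) (ap a x)
    have h2 := scal _ _ g2
    have h3 : n2 (fun i => M i i * x i) = ∑ i, (M i i * x i) ^ 2 := rfl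
    rw [h3] at h1
    linarith
  have t3 : 4 * |∑ i, x i ^ 2 * ∑ l, off M i l * a i l| ≤ lam * Hd + 4 * K / lam * ∑ i, ra a i * x i ^ 2 := by
    have h1 : |∑ i, x i ^ 2 * ∑ l, off M i l * a i l| ≤ ∑ i, x i ^ 2 * |∑ l, M i l * a i l| := by
      refine (Finset.abs_sum_le_sum_abs _ _).trans (le_of_eq ?_)
      refine Finset.sum_congr rfl fun i _ => ?_
      rw [abs_mul, abs_of_nonneg (sq_nonneg (x i))]
      congr 2
      refine Finset.sum_congr rfl fun l _ => ?_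
      unfold off
      split_ifs with hil
      · rw [← hil, ha i, mul_zero, mul_zero]
      · rfl
    have h2 : ∀ i, x i ^ 2 * (4 * |∑ l, M i l * a i l|) ≤
        lam * (∑ A, k A * t A ^ 2 * z A i ^ 2) * x i ^ 2 + 4 * K / lam * (ra a i * x i ^ 2) := by
      intro i
      have h3 := young hK hlam (fun l => M i l) (fun l => a i l)
      have h4 := scal _ _ (g3 i)
      have h5 : n2 (fun l => M i l) = ∑ l, M i l ^ 2 := rfl
      have h6 : n2 (fun l => a i l) = ra a i := rfl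
      rw [h5, h6] at h3
      have h7 : 4 * |∑ l, M i l * a i l| ≤ lam * (∑ A, k A * t A ^ 2 * z A i ^ 2) + 4 * K / lam * ra a i := by
        linarith
      calc _ ≤ x i ^ 2 * (lam * (∑ A, k A * t A ^ 2 * z A i ^ 2) + 4 * K / lam * ra a i) :=
            mul_le_mul_of_nonneg_left h7 (sq_nonneg _)
        _ = _ := by ring
    have h3 := Finset.sum_le_sum fun i (_ : i ∈ Finset.univ) => h2 i
    rw [Finset.sum_add_distrib, ← Finset.mul_sum] at h3
    have e2 : ∑ i, lam * (∑ A, k A * t A ^ 2 * z A i ^ 2) * x i ^ 2 = lam * Hd := by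
      rw [hHd]
      have e3 : ∀ A, k A * t A ^ 2 * ∑ i, z A i ^ 2 * x i ^ 2 = ∑ i, k A * t A ^ 2 * z A i ^ 2 * x i ^ 2 := by
        intro A
        rw [Finset.mul_sum]
        exact Finset.sum_congr rfl fun i _ => by ring
      simp only [e3]
      rw [Finset.sum_comm, Finset.mul_sum]
      refine Finset.sum_congr rfl fun i _ => ?_
      rw [mul_assoc, Finset.sum_mul]
    rw [e2] at h3
    have e4 : ∑ i, x i ^ 2 * (4 * |∑ l, M i l * a i l|) = 4 * ∑ i, x i ^ 2 * |∑ l, M i l * a i l| := by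
      rw [Finset.mul_sum]
      exact Finset.sum_congr rfl fun i _ => by ring
    rw [e4] at h3
    linarith
  have s1 := drop (∑ i, ap (off M) x i * ap a x i)
  have s2 := drop (∑ i, x i ^ 2 * ∑ l, off M i l * a i l)
  have s3 : |∑ i, ap (off M) x i * ap a x i| ≤ |∑ i, ap M x i * ap a x i| + |∑ i, M i i * x i * ap a x i| := by
    rw [e1]
    exact abs_sub _ _
  have r0 : 0 ≤ ∑ i, ra a i * x i ^ 2 := by
    unfold ra
    positivity
  have hKl : 0 ≤ 4 * K / lam := by positivity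
  have e5 : 8 * K / lam * Zq a x = 4 * K / lam * n2 (ap a x) + 4 * K / lam * n2 (ap a x)
      + 4 * K / lam * (∑ i, ra a i * x i ^ 2) + 4 * K / lam * (∑ i, ra a i * x i ^ 2) := by
    unfold Zq
    ring
  have r1 := mul_nonneg hKl r0
  rw [e5]
  linarith

end

end BMV
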