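import Pool.Agent.BMV.XCv

/-! BMV XE3a (helper94): experiment E3 (tilted measure), local terms and first order terms.

`ν_A = 1/(1 + u^z_A)`, `u_A = uu a D (v_A)`, `u^z_A = uu a D (z_A)`, `u^y_A = uu a D (y_A)`; `|u_A| ≤ κ`, `|u^z_A| ≤ κ`, `|u^y_A| ≤ κ Y`, `κ ≤ 1/100` (`uu_le`), so `|ν_A - 1| ≤ 1/90`.
By `pol_exp` and `e2_eq`: `Ew (sqv v) = n2 v + u` etc. If `m_A = 0` everything with index `A` vanishes. Let `m_A > 0`: `n2 v = 1`, `Y = n2 y`, `n2 z = 1 - Y`, `ρ = j/m ∈ [1,5/4]`.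
LOCAL: `ν (n2 z + u^z) = 1 - νY`, `e = ν(n2 z + u^z) + (9/8)(Y + u^y) - 1 = -νY + (9/8)(Y + u^y) ∈ [0, (3/20) Y]`.
`eloc - lc = m u (log(W/m) + 1) + δ{ m u log(θk/m) + m[-Y + u^z - 3Y - 3u^y + (1+u) log ν] - θk e - 8hm[(ρ-1)^2 u + 2ρ(ρ-1)(-νY - u) + ρ^2((5/2)(ν-1)^2(n2 z + u^z) + 9(Y + u^y))] }`,
`log ν = -log(1+u^z) ≥ -u^z`, `(1+u) log ν ≥ -(1+u) u^z`, `(ρ-1)^2 - 2ρ(ρ-1) = 1 - ρ^2`, `-2ρ(ρ-1)νY ≤ 0`, `(ν-1)^2 ≤ (21/20)(u^z)^2`: so
`≥ m u [log(W/m) + 1 + δ log(θk/m) + 8hδ(ρ^2-1)] - δ m [ (403/100) Y + (u^2 + (u^z)^2)/2 + h(34 (u^z)^2 + 114 Y) ] - δ θk e`.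
ENERGY: `m' Ew(sqv v') = m'(1 + u')`. `-2δ[hs(km'(1+e)(1+u')) - hs(km')] = -2δ hs(km'u') - 2δ hs(km'e(1+u'))`; the first is `-2δ ∑_C m_C u_C nb r k C` (symmetry) and completes `lamA`;
the second with `-δθk e` is `≥ -δ ∑ e k (θ + (202/100) U) ≥ -(202/100) δ ∑ e m ≥ -(1/3) δ ms m y`.
BONUS: `νν'(n2 z + u^z)(n2 z' + u'^z) = (1-νY)(1-ν'Y') ≥ 1 - (102/100)(Y+Y')`; `|Cv(y^2,z'^2)| ≤ (11/5) Y` (`Cv_le`), so `5 νν'(Ew y^2 Ew z'^2 + Cv(y^2,z'^2)) ≤ 17 Y` and the same with the roles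
exchanged; `mu_hs_left`, `mu_hs_right`: bonus difference `≥ hδ hs(νν' mu Cv(z^2,z'^2)) - hδ (5/4)(2)(102/100 + 17) ms m y`.
Sum: `(4.03 + 1/3 + 160 h) ≤ 5`, `1/2 + 34 h ≤ 1`. -/

namespace BMV

open Finset BMP

variable {α X : Type} [Fintype α] [Fintype X] [DecidableEq X] {r : α → α → Prop} [DecidableRel r]
  {θ : ℝ} {m k j : α → ℝ} {v z y : α → X → ℝ} {R : Matrix X X ℝ} {Ph : X → ℝ}

/-- correction of the dual charges in the tilted experiment -/
noncomputable def nu3 (a : Matrix X X ℝ) (D : ℝ) (z : α → X → ℝ) (A : α) : ℝ := 1 / (1 + uu a D (z A))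

private theorem x3_n2 (x : X → ℝ) : 0 ≤ n2 x := Finset.sum_nonneg fun _ _ => sq_nonneg _

private theorem x3_n2z : n2 (0 : X → ℝ) = 0 := by
  unfold n2
  exact Finset.sum_eq_zero fun i _ => by simp

private theorem x3_v1 (hB : BDat r θ m k j v z y R Ph) (A : α) : n2 (v A) ≤ 1 := by
  rcases (hB.m0 A).eq_or_lt with h | h
  · rw [hB.v0 A h.symm, x3_n2z]
    exact zero_le_one
  · exact (hB.nv A h).le

private theorem x3_z1 (hB : BDat r θ m k j v z y R Ph) (A : α) : n2 (z A) ≤ 1 := by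
  have h1 := hB.nzy A
  have h2 := x3_v1 hB A
  have h3 := x3_n2 (y A)
  linarith

private theorem x3_y1 (hB : BDat r θ m k j v z y R Ph) (A : α) : n2 (y A) ≤ 1 := by
  have h1 := hB.nzy A
  have h2 := x3_v1 hB A
  have h3 := x3_n2 (z A)
  linarith

private theorem x3_uu {a b : Matrix X X ℝ} {κ D : ℝ} (h : QH a b κ) (hD : 0 ≤ D) (x : X → ℝ) :
    |uu a D x| ≤ 1 / 100 * n2 x :=
  (uu_le h hD x).trans (mul_le_mul_of_nonneg_right h.κ1 (x3_n2 x))

private theorem x3_uu1 {a b : Matrix X X ℝ} {κ D : ℝ} (h : QH a b κ) (hD : 0 ≤ D) (x : X → ℝ) (hx : n2 x ≤ 1) :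
    |uu a D x| ≤ 1 / 100 := by
  have := x3_uu h hD x
  linarith

theorem nu3_le {a b : Matrix X X ℝ} {κ D : ℝ} (hB : BDat r θ m k j v z y R Ph) (h : QH a b κ) (hD : 0 ≤ D) (A : α) :
    |nu3 a D z A - 1| ≤ 1 / 90 := by
  have h1 := abs_le.1 (x3_uu1 h hD (z A) (x3_z1 hB A))
  have h2 : 0 < 1 + uu a D (z A) := by linarith [h1.1]
  have h3 : nu3 a D z A - 1 = - uu a D (z A) / (1 + uu a D (z A)) := by
    unfold nu3
    field_simp
    ring
  rw [h3, abs_le]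
  constructor
  · rw [le_div_iff₀ h2]
    linarith [h1.1, h1.2]
  · rw [div_le_iff₀ h2]
    linarith [h1.1, h1.2]

theorem nu3_sq {a b : Matrix X X ℝ} {κ D : ℝ} (hB : BDat r θ m k j v z y R Ph) (h : QH a b κ) (hD : 0 ≤ D) (A : α) :
    (nu3 a D z A - 1) ^ 2 ≤ 21 / 20 * uu a D (z A) ^ 2 := by
  have h1 := abs_le.1 (x3_uu1 h hD (z A) (x3_z1 hB A))
  have h2 : 0 < 1 + uu a D (z A) := by linarith [h1.1]
  have h3 : nu3 a D z A - 1 = - uu a D (z A) / (1 + uu a D (z A)) := by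
    unfold nu3
    field_simp
    ring
  rw [h3, div_pow, div_le_iff₀ (by positivity)]
  have h4 : 99 / 100 ≤ 1 + uu a D (z A) := by linarith [h1.1]
  have h5 : (99 / 100 : ℝ) ^ 2 ≤ (1 + uu a D (z A)) ^ 2 := by
    apply pow_le_pow_left₀ (by norm_num) h4
  nlinarith [mul_le_mul_of_nonneg_left h5 (sq_nonneg (uu a D (z A)))]

/-- scalar form of the local inequality -/
private theorem x3_loc {θ δ h W m k j ν u uz uy Y : ℝ} (hm : 0 < m) (hk : 0 ≤ k) (hθ : 0 ≤ θ) (hδ : 0 ≤ δ) (hh0 : 0 ≤ h)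
    (hj1 : m ≤ j) (hj5 : 4 * j ≤ 5 * m) (hν : ν = 1 / (1 + uz)) (hY0 : 0 ≤ Y) (hY1 : Y ≤ 1)
    (hu : |u| ≤ 1 / 100) (huz : |uz| ≤ 1 / 100) (huy : |uy| ≤ 1 / 100 * Y)
    (hν2 : (ν - 1) ^ 2 ≤ 21 / 20 * uz ^ 2) :
    lc θ δ h W m k j
      + m * u * (Real.log (W / m) + 1 + δ * Real.log (θ * k / m) + 8 * h * δ * ((j / m) ^ 2 - 1))
      - δ * (m * (403 / 100 * Y + (u ^ 2 + uz ^ 2) / 2 + h * (34 * uz ^ 2 + 114 * Y)))
      - δ * (θ * (k * (ν * (1 - Y + uz) + 9 / 8 * (Y + uy) - 1)))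
      ≤ eloc θ δ h W m k j ν (1 + u) (1 - Y + uz) (Y + uy) := by
  have u1 := abs_le.1 hu
  have z1 := abs_le.1 huz
  have y1 := abs_le.1 huy
  have hp : 0 < 1 + uz := by linarith [z1.1]
  have hν0 : 0 < ν := by rw [hν]; positivity
  have hνz : ν * (1 + uz) = 1 := by rw [hν]; field_simp
  have hlog : -uz ≤ Real.log ν := by
    rw [hν, one_div, Real.log_inv]
    have := Real.log_le_sub_one_of_pos hp
    linarith
  have hlog2 : -(1 + u) * uz ≤ (1 + u) * Real.log ν := by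
    have t0 : 0 ≤ 1 + u := by linarith [u1.1]
    have t1 := mul_le_mul_of_nonneg_left hlog t0
    have t2 : (1 + u) * -uz = -(1 + u) * uz := by ring
    linarith
  obtain ⟨ρ, hρ⟩ : ∃ ρ, ρ = j / m := ⟨_, rfl⟩
  have hjm : j = ρ * m := by rw [hρ]; field_simp
  have hρ1 : 1 ≤ ρ := by rw [hρ, le_div_iff₀ hm]; linarith
  have hρ5 : ρ ≤ 5 / 4 := by rw [hρ, div_le_iff₀ hm]; linarith
  have hq : (j - m) ^ 2 / m = m * (ρ - 1) ^ 2 := by
    rw [hjm]
    field_simp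
  unfold lc eloc
  rw [hq, ← hρ]
  have e1 : ν * (1 - Y + uz) = 1 - ν * Y := by linear_combination hνz
  rw [e1]
  have hνY : 0 ≤ ν * Y := mul_nonneg hν0.le hY0
  -- the quadratic part
  have hZ2 : 1 - Y + uz ≤ 101 / 100 := by linarith [z1.2]
  have hY2 : Y + uy ≤ 101 / 100 * Y := by linarith [y1.2]
  have hA : 5 / 2 * (ν - 1) ^ 2 * (1 - Y + uz) + 9 * (Y + uy) ≤ 53 / 20 * uz ^ 2 + 1 / 400 * uz ^ 2 + 909 / 100 * Y := by
    have t1 : 5 / 2 * (ν - 1) ^ 2 * (1 - Y + uz) ≤ 5 / 2 * (ν - 1) ^ 2 * (101 / 100) :=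
      mul_le_mul_of_nonneg_left hZ2 (by positivity)
    linarith [sq_nonneg uz]
  have hA0 : 0 ≤ 53 / 20 * uz ^ 2 + 1 / 400 * uz ^ 2 + 909 / 100 * Y := by positivity
  have hρ2 : ρ ^ 2 ≤ 25 / 16 := by nlinarith
  have hB1 : ρ ^ 2 * (5 / 2 * (ν - 1) ^ 2 * (1 - Y + uz) + 9 * (Y + uy)) ≤
      25 / 16 * (53 / 20 * uz ^ 2 + 1 / 400 * uz ^ 2 + 909 / 100 * Y) :=
    (mul_le_mul_of_nonneg_left hA (sq_nonneg ρ)).trans (mul_le_mul_of_nonneg_right hρ2 hA0)
  have hC : (ρ - 1) ^ 2 * (1 + u) + 2 * ρ * (ρ - 1) * (1 - ν * Y - (1 + u)) +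
      ρ ^ 2 * (5 / 2 * (ν - 1) ^ 2 * (1 - Y + uz) + 9 * (Y + uy)) ≤
      (ρ - 1) ^ 2 - u * (ρ ^ 2 - 1) + 25 / 16 * (53 / 20 * uz ^ 2 + 1 / 400 * uz ^ 2 + 909 / 100 * Y) := by
    have t2 : 0 ≤ 2 * ρ * (ρ - 1) * (ν * Y) := by
      apply mul_nonneg _ hνY
      apply mul_nonneg (by linarith) (by linarith)
    have t3 : (ρ - 1) ^ 2 * (1 + u) + 2 * ρ * (ρ - 1) * (1 - ν * Y - (1 + u)) =
        (ρ - 1) ^ 2 - u * (ρ ^ 2 - 1) - 2 * ρ * (ρ - 1) * (ν * Y) := by ring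
    rw [t3]
    linarith
  have hD' : -(1/2) * (u ^ 2 + uz ^ 2) ≤ - (u * uz) := by nlinarith [sq_nonneg (u - uz)]
  have hE : 1 - (403 / 100 * Y + (u ^ 2 + uz ^ 2) / 2) ≤
      (1 - Y + uz) - 3 * (Y + uy) + (1 + u) * Real.log ν := by
    have t4 : -(1 + u) * uz = -uz - u * uz := by ring
    linarith [y1.2]
  -- assemble
  have hmδ : 0 ≤ m * δ := mul_nonneg hm.le hδ
  have hhmδ : 0 ≤ 8 * h * (m * δ) := by positivity
  have g1 := mul_le_mul_of_nonneg_left hE hmδ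
  have g2 := mul_le_mul_of_nonneg_left hC hhmδ
  have g3 : h * (m * δ) * (8 * (25 / 16 * (53 / 20 * uz ^ 2 + 1 / 400 * uz ^ 2 + 909 / 100 * Y))) ≤
      h * (m * δ) * (34 * uz ^ 2 + 114 * Y) := by
    apply mul_le_mul_of_nonneg_left _ (by positivity)
    linarith [sq_nonneg uz]
  linarith [g1, g2, g3]

private theorem x3_bon {νA νC zA zC yA yC YA YC c1 c2 : ℝ} (hA0 : 0 ≤ YA) (hC0 : 0 ≤ YC) (hνA : 0 < νA) (hνC : 0 < νC)
    (hνA1 : νA ≤ 100 / 99) (hνC1 : νC ≤ 100 / 99) (hzA : νA * zA = 1 - νA * YA) (hzC : νC * zC = 1 - νC * YC)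
    (hyA0 : 0 ≤ yA) (hyA : yA ≤ 101 / 100 * YA) (hyC0 : 0 ≤ yC) (hyC : yC ≤ 101 / 100 * YC)
    (hc1 : |c1| ≤ 11 / 5 * YA) (hc2 : |c2| ≤ 11 / 5 * YC) :
    1 - 1802 / 100 * (YA + YC) ≤ νA * νC * (zA * zC - 5 * (yA * zC + c1) - 5 * (zA * yC + c2)) := by
  have e : νA * νC * (zA * zC - 5 * (yA * zC + c1) - 5 * (zA * yC + c2)) =
      (νA * zA) * (νC * zC) - 5 * ((νA * yA) * (νC * zC)) - 5 * ((νA * zA) * (νC * yC))
        - 5 * (νA * νC * c1) - 5 * (νA * νC * c2) := by ring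
  rw [e, hzA, hzC]
  have pA : 0 ≤ νA * YA := mul_nonneg hνA.le hA0
  have pC : 0 ≤ νC * YC := mul_nonneg hνC.le hC0
  have pA1 : νA * YA ≤ 100 / 99 * YA := mul_le_mul_of_nonneg_right hνA1 hA0
  have pC1 : νC * YC ≤ 100 / 99 * YC := mul_le_mul_of_nonneg_right hνC1 hC0
  have qA : 0 ≤ νA * yA := mul_nonneg hνA.le hyA0
  have qC : 0 ≤ νC * yC := mul_nonneg hνC.le hyC0
  have qA1 : νA * yA ≤ 101 / 99 * YA := by
    have := mul_le_mul hνA1 hyA hyA0 (by norm_num)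
    linarith
  have qC1 : νC * yC ≤ 101 / 99 * YC := by
    have := mul_le_mul hνC1 hyC hyC0 (by norm_num)
    linarith
  have nn : νA * νC ≤ 100 / 99 * (100 / 99) := mul_le_mul hνA1 hνC1 hνC.le (by norm_num)
  have n0 : 0 ≤ νA * νC := (mul_pos hνA hνC).le
  have r1 : νA * νC * c1 ≤ 100 / 99 * (100 / 99) * (11 / 5 * YA) :=
    (mul_le_mul_of_nonneg_left ((le_abs_self c1).trans hc1) n0).trans
      (mul_le_mul_of_nonneg_right nn (by positivity))
  have r2 : νA * νC * c2 ≤ 100 / 99 * (100 / 99) * (11 / 5 * YC) :=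
    (mul_le_mul_of_nonneg_left ((le_abs_self c2).trans hc2) n0).trans
      (mul_le_mul_of_nonneg_right nn (by positivity))
  have m1 := mul_nonneg pA pC
  have m2 := mul_nonneg qA pC
  have m3 := mul_nonneg pA qC
  nlinarith

theorem XE3a {a b : Matrix X X ℝ} {κ D : ℝ} (hB : BDat r θ m k j v z y R Ph) (h : QH a b κ) (hD : 0 ≤ D)
    {w : (X → Bool) → ℝ} (hw : Fld w D a b) (δ hh : ℝ) (hδ : 0 ≤ δ) (hh0 : 0 ≤ hh) (hh1 : hh ≤ 1 / 1000000)
    (W : α → ℝ) :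
    Psi θ δ hh r W m k j + ∑ A, m A * uu a D (v A) * lamA θ δ hh r W m k j A
      - 2 * δ * hs r (fun A C => k A * m C *
          (nu3 a D z A * Cv w (sqv (z A)) (sqv (v C)) + 9 / 8 * Cv w (sqv (y A)) (sqv (v C))))
      + hh * δ * hs r (fun A C => nu3 a D z A * nu3 a D z C * mu k j A C * Cv w (sqv (z A)) (sqv (z C)))
      - δ * (5 * ms m y + ∑ A, m A * (uu a D (v A) ^ 2 + uu a D (z A) ^ 2))
      ≤ Ew w (Pol θ δ hh r W m k j (nu3 a D z) v z y) := by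
  have hνe : ∀ A, nu3 a D z A = 1 / (1 + uu a D (z A)) := fun A => rfl
  have hν2 := nu3_sq hB h hD
  rw [pol_exp]
  simp only [e2_eq h.ad hw]
  obtain ⟨ν, hν⟩ : ∃ ν : α → ℝ, ν = nu3 a D z := ⟨_, rfl⟩
  rw [← hν] at hνe hν2
  rw [← hν]
  -- elementary facts
  have hv1 := x3_v1 hB
  have hz1 := x3_z1 hB
  have hy1 := x3_y1 hB
  have hu : ∀ A, |uu a D (v A)| ≤ 1 / 100 := fun A => x3_uu1 h hD _ (hv1 A)
  have huz : ∀ A, |uu a D (z A)| ≤ 1 / 100 := fun A => x3_uu1 h hD _ (hz1 A)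
  have huy : ∀ A, |uu a D (y A)| ≤ 1 / 100 * n2 (y A) := fun A => x3_uu h hD _
  have hY0 : ∀ A, 0 ≤ n2 (y A) := fun A => x3_n2 _
  have hZ0 : ∀ A, 0 ≤ n2 (z A) := fun A => x3_n2 _
  have hp : ∀ A, 99 / 100 ≤ 1 + uu a D (z A) := fun A => by linarith [(abs_le.1 (huz A)).1]
  have hνp : ∀ A, 0 < ν A := fun A => by
    rw [hνe]
    have := hp A
    positivity
  have hνz : ∀ A, ν A * (1 + uu a D (z A)) = 1 := fun A => by
    rw [hνe]
    have := hp A
    field_simp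
  have hν99 : ∀ A, ν A ≤ 100 / 99 := fun A => by
    have h1 := hνz A
    have h2 := hp A
    have h3 := hνp A
    nlinarith
  have hν101 : ∀ A, 100 / 101 ≤ ν A := fun A => by
    have h1 := hνz A
    have h2 : 1 + uu a D (z A) ≤ 101 / 100 := by linarith [(abs_le.1 (huz A)).2]
    have h3 := hνp A
    nlinarith
  have hzy : ∀ A, 0 < m A → n2 (z A) = 1 - n2 (y A) := fun A hA => by
    have h1 := hB.nzy A
    have h2 := hB.nv A hA
    linarith
  have he2z : ∀ A, 0 < m A → e2 a D (z A) = 1 - n2 (y A) + uu a D (z A) := fun A hA => by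
    unfold e2
    rw [hzy A hA]
  have he2v : ∀ A, 0 < m A → e2 a D (v A) = 1 + uu a D (v A) := fun A hA => by
    unfold e2
    rw [hB.nv A hA]
  have he2y : ∀ A, e2 a D (y A) = n2 (y A) + uu a D (y A) := fun A => rfl
  have hνe2 : ∀ A, 0 < m A → ν A * e2 a D (z A) = 1 - ν A * n2 (y A) := fun A hA => by
    rw [he2z A hA]
    linear_combination hνz A
  obtain ⟨e, he⟩ : ∃ e : α → ℝ, ∀ A, e A = ν A * e2 a D (z A) + 9 / 8 * e2 a D (y A) - 1 := ⟨_, fun _ => rfl⟩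
  have hee : ∀ A, 0 < m A → e A = - (ν A * n2 (y A)) + 9 / 8 * (n2 (y A) + uu a D (y A)) := fun A hA => by
    rw [he, hνe2 A hA, he2y]
    ring
  have he0 : ∀ A, 0 < m A → 0 ≤ e A := fun A hA => by
    rw [hee A hA]
    have h1 := mul_le_mul_of_nonneg_right (hν99 A) (hY0 A)
    have h2 := (abs_le.1 (huy A)).1
    have h3 := hY0 A
    linarith
  have he1 : ∀ A, 0 < m A → e A ≤ 3 / 20 * n2 (y A) := fun A hA => by
    rw [hee A hA]
    have h1 := mul_le_mul_of_nonneg_right (hν101 A) (hY0 A)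
    have h2 := (abs_le.1 (huy A)).2
    have h3 := hY0 A
    linarith
  have hke : ∀ A, 0 ≤ k A * e A := fun A => by
    rcases (hB.m0 A).eq_or_lt with hA | hA
    · rw [hB.kz A hA.symm, zero_mul]
    · exact mul_nonneg (hB.k0 A) (he0 A hA)
  -- local part
  have hL : ∀ A, lc θ δ hh (W A) (m A) (k A) (j A)
      + m A * uu a D (v A) * (Real.log (W A / m A) + 1 + δ * Real.log (θ * k A / m A)
          + 8 * hh * δ * ((j A / m A) ^ 2 - 1))
      - δ * (m A * (403 / 100 * n2 (y A) + (uu a D (v A) ^ 2 + uu a D (z A) ^ 2) / 2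
          + hh * (34 * uu a D (z A) ^ 2 + 114 * n2 (y A))))
      - δ * (θ * (k A * e A))
      ≤ eloc θ δ hh (W A) (m A) (k A) (j A) (ν A) (e2 a D (v A)) (e2 a D (z A)) (e2 a D (y A)) := fun A => by
    rcases (hB.m0 A).eq_or_lt with hA | hA
    · have hk := hB.kz A hA.symm
      unfold lc eloc
      rw [hk, ← hA]
      simp
    · rw [he, he2v A hA, he2z A hA, he2y]
      exact x3_loc hA (hB.k0 A) hB.θ0.le hδ hh0 (hB.mj A) (hB.j5 A) (hνe A) (hY0 A) (hy1 A) (hu A) (huz A) (huy A)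
        (hν2 A)
  -- energy
  have hE : hs r (fun A C => k A * m C * ((ν A * e2 a D (z A) + 9 / 8 * e2 a D (y A)) * e2 a D (v C))) ≤
      hs r (fun A C => k A * m C) + ∑ A, m A * uu a D (v A) * nb r k A
        + 101 / 100 * ∑ A, k A * e A * nb r m A := by
    have t1 : hs r (fun A C => k A * m C * ((ν A * e2 a D (z A) + 9 / 8 * e2 a D (y A)) * e2 a D (v C))) ≤
        hs r (fun A C => k A * m C + (k A * (m C * uu a D (v C)) + 101 / 100 * (k A * e A * m C))) := by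
      refine hs_mono r _ _ fun A C _ => ?_
      have q1 : ν A * e2 a D (z A) + 9 / 8 * e2 a D (y A) = 1 + e A := by rw [he]; ring
      have q2 : m C * e2 a D (v C) = m C * (1 + uu a D (v C)) := by
        rcases (hB.m0 C).eq_or_lt with hC | hC
        · rw [← hC]
          simp
        · rw [he2v C hC]
      have q3 : k A * m C * ((ν A * e2 a D (z A) + 9 / 8 * e2 a D (y A)) * e2 a D (v C)) =
          (k A * (1 + e A)) * (m C * (1 + uu a D (v C))) := by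
        rw [q1, ← q2]
        ring
      rw [q3]
      have q4 : 0 ≤ k A * e A * m C := mul_nonneg (hke A) (hB.m0 C)
      have q5 := (abs_le.1 (hu C)).2
      nlinarith [mul_le_mul_of_nonneg_left q5 q4]
    refine t1.trans (le_of_eq ?_)
    rw [hs_add, hs_add, hs_mul_left, hs_mul_nb r (fun A => k A * e A) m]
    have t2 : hs r (fun A C => k A * (m C * uu a D (v C))) = ∑ A, m A * uu a D (v A) * nb r k A := by
      rw [hs_comm r hB.rs, ← hs_mul_nb]
      exact hs_congr r _ _ fun A C _ => by ring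
    rw [t2]
    ring
  have hK : ∑ A, k A * e A * (θ + 202 / 100 * nb r m A) ≤ 1 / 3 * ms m y := by
    unfold ms
    rw [Finset.mul_sum]
    refine Finset.sum_le_sum fun A _ => ?_
    rcases (hB.m0 A).eq_or_lt with hA | hA
    · rw [hB.kz A hA.symm, ← hA]
      simp
    · have q1 := he0 A hA
      have q2 := he1 A hA
      have q3 := hB.kU A
      have q4 : 0 ≤ k A * e A * θ := mul_nonneg (hke A) hB.θ0.le
      have q5 : k A * e A * (θ + 202 / 100 * nb r m A) ≤ 202 / 100 * (e A * (k A * (θ + nb r m A))) := by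
        nlinarith
      have q6 := mul_le_mul_of_nonneg_left q3 q1
      have q7 := mul_le_mul_of_nonneg_right q2 hA.le
      have q8 := mul_nonneg hA.le (hY0 A)
      nlinarith
  -- bonus
  have hBo : hs r (mu k j) - 1802 / 100 * (5 / 2 * ms m y) ≤
      hs r (fun A C => mu k j A C * (ν A * ν C * (e2 a D (z A) * e2 a D (z C)
        - 5 * (e2 a D (y A) * e2 a D (z C) + Cv w (sqv (y A)) (sqv (z C)))
        - 5 * (e2 a D (z A) * e2 a D (y C) + Cv w (sqv (z A)) (sqv (y C)))))) := by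
    have t1 : hs r (fun A C => mu k j A C - 1802 / 100 * (mu k j A C * n2 (y A) + mu k j A C * n2 (y C))) ≤
      hs r (fun A C => mu k j A C * (ν A * ν C * (e2 a D (z A) * e2 a D (z C)
        - 5 * (e2 a D (y A) * e2 a D (z C) + Cv w (sqv (y A)) (sqv (z C)))
        - 5 * (e2 a D (z A) * e2 a D (y C) + Cv w (sqv (z A)) (sqv (y C)))))) := by
      refine hs_mono r _ _ fun A C _ => ?_
      have p0 := mu_nonneg k j hB.k0 hB.j0 A C
      have p1 := mu_le hB A C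
      rcases (hB.m0 A).eq_or_lt with hA | hA
      · have p2 : mu k j A C = 0 := by
          rw [hB.kz A hA.symm] at p1
          linarith
        rw [p2]
        simp
      rcases (hB.m0 C).eq_or_lt with hC | hC
      · have p2 : mu k j A C = 0 := by
          rw [← hC] at p1
          linarith
        rw [p2]
        simp
      have c1 : |Cv w (sqv (y A)) (sqv (z C))| ≤ 11 / 5 * n2 (y A) := by
        have q1 := Cv_le h hD hw (y A) (z C)
        have q2 := mul_le_mul_of_nonneg_left (hz1 C) (hY0 A)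
        linarith
      have c2 : |Cv w (sqv (z A)) (sqv (y C))| ≤ 11 / 5 * n2 (y C) := by
        have q1 := Cv_le h hD hw (z A) (y C)
        have q2 := mul_le_mul_of_nonneg_right (hz1 A) (hY0 C)
        linarith
      have y0 : ∀ B, 0 ≤ e2 a D (y B) := fun B => by
        rw [he2y]
        have q1 := (abs_le.1 (huy B)).1
        have q2 := hY0 B
        linarith
      have y1 : ∀ B, e2 a D (y B) ≤ 101 / 100 * n2 (y B) := fun B => by
        rw [he2y]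
        have q1 := (abs_le.1 (huy B)).2
        linarith
      have key := x3_bon (hY0 A) (hY0 C) (hνp A) (hνp C) (hν99 A) (hν99 C) (hνe2 A hA) (hνe2 C hC)
        (y0 A) (y1 A) (y0 C) (y1 C) c1 c2
      have := mul_le_mul_of_nonneg_left key p0
      linarith
    refine le_trans ?_ t1
    rw [hs_sub, hs_mul_left, hs_add]
    have q1 := mu_hs_left hB (fun A => n2 (y A)) hY0
    have q2 := mu_hs_right hB (fun A => n2 (y A)) hY0
    have q3 : hs r (fun A C => mu k j A C) = hs r (mu k j) := rfl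
    rw [q3]
    unfold ms
    linarith
  -- split the sums
  have s1 : hs r (fun A C => k A * m C * ((ν A * e2 a D (z A) + 9 / 8 * e2 a D (y A)) * e2 a D (v C)
            + (ν A * Cv w (sqv (z A)) (sqv (v C)) + 9 / 8 * Cv w (sqv (y A)) (sqv (v C)))))
    = hs r (fun A C => k A * m C * ((ν A * e2 a D (z A) + 9 / 8 * e2 a D (y A)) * e2 a D (v C)))
      + hs r (fun A C => k A * m C *
          (ν A * Cv w (sqv (z A)) (sqv (v C)) + 9 / 8 * Cv w (sqv (y A)) (sqv (v C)))) := by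
    rw [← hs_add]
    exact hs_congr r _ _ fun A C _ => by ring
  have s2 : hs r (fun A C => ν A * ν C * mu k j A C *
          (e2 a D (z A) * e2 a D (z C) + Cv w (sqv (z A)) (sqv (z C))
            - 5 * (e2 a D (y A) * e2 a D (z C) + Cv w (sqv (y A)) (sqv (z C)))
            - 5 * (e2 a D (z A) * e2 a D (y C) + Cv w (sqv (z A)) (sqv (y C)))))
    = hs r (fun A C => ν A * ν C * mu k j A C * Cv w (sqv (z A)) (sqv (z C)))
      + hs r (fun A C => mu k j A C * (ν A * ν C * (e2 a D (z A) * e2 a D (z C)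
        - 5 * (e2 a D (y A) * e2 a D (z C) + Cv w (sqv (y A)) (sqv (z C)))
        - 5 * (e2 a D (z A) * e2 a D (y C) + Cv w (sqv (z A)) (sqv (y C)))))) := by
    rw [← hs_add]
    exact hs_congr r _ _ fun A C _ => by ring
  rw [s1, s2]
  have hLs := Finset.sum_le_sum fun A (_ : A ∈ (univ : Finset α)) => hL A
  have s3 : ∑ A, (lc θ δ hh (W A) (m A) (k A) (j A)
      + m A * uu a D (v A) * (Real.log (W A / m A) + 1 + δ * Real.log (θ * k A / m A)
          + 8 * hh * δ * ((j A / m A) ^ 2 - 1))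
      - δ * (m A * (403 / 100 * n2 (y A) + (uu a D (v A) ^ 2 + uu a D (z A) ^ 2) / 2
          + hh * (34 * uu a D (z A) ^ 2 + 114 * n2 (y A))))
      - δ * (θ * (k A * e A))) =
      ∑ A, lc θ δ hh (W A) (m A) (k A) (j A)
      + (∑ A, m A * uu a D (v A) * lamA θ δ hh r W m k j A + 2 * δ * ∑ A, m A * uu a D (v A) * nb r k A)
      - δ * (403 / 100 * ms m y + (∑ A, m A * uu a D (v A) ^ 2 + ∑ A, m A * uu a D (z A) ^ 2) / 2
          + hh * (34 * ∑ A, m A * uu a D (z A) ^ 2 + 114 * ms m y))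
      - δ * ∑ A, θ * (k A * e A) := by
    unfold ms lamA
    simp only [Finset.mul_sum, Finset.sum_div, ← Finset.sum_add_distrib, ← Finset.sum_sub_distrib]
    exact Finset.sum_congr rfl fun A _ => by ring
  rw [s3] at hLs
  have s4 : ∑ A, k A * e A * (θ + 202 / 100 * nb r m A) =
      ∑ A, θ * (k A * e A) + 202 / 100 * ∑ A, k A * e A * nb r m A := by
    rw [Finset.mul_sum, ← Finset.sum_add_distrib]
    exact Finset.sum_congr rfl fun A _ => by ring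
  rw [s4] at hK
  have s5 : ∑ A, m A * (uu a D (v A) ^ 2 + uu a D (z A) ^ 2) =
      ∑ A, m A * uu a D (v A) ^ 2 + ∑ A, m A * uu a D (z A) ^ 2 := by
    rw [← Finset.sum_add_distrib]
    exact Finset.sum_congr rfl fun A _ => by ring
  rw [s5]
  have n1 : 0 ≤ ms m y := Finset.sum_nonneg fun A _ => mul_nonneg (hB.m0 A) (hY0 A)
  have n3 : 0 ≤ ∑ A, m A * uu a D (v A) ^ 2 := Finset.sum_nonneg fun A _ => mul_nonneg (hB.m0 A) (sq_nonneg _)
  have n4 : 0 ≤ ∑ A, m A * uu a D (z A) ^ 2 := Finset.sum_nonneg fun A _ => mul_nonneg (hB.m0 A) (sq_nonneg _)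
  unfold Psi
  generalize ∑ A, m A * uu a D (v A) * lamA θ δ hh r W m k j A = L1 at *
  generalize ∑ A, lc θ δ hh (W A) (m A) (k A) (j A) = L2 at *
  generalize ∑ A, m A * uu a D (v A) * nb r k A = L3 at *
  generalize ∑ A, m A * uu a D (v A) ^ 2 = S2 at *
  generalize ∑ A, m A * uu a D (z A) ^ 2 = S3 at *
  generalize ms m y = S1 at *
  have f1 := mul_le_mul_of_nonneg_left hE hδ
  have f2 := mul_le_mul_of_nonneg_left hK hδ
  have f3 := mul_le_mul_of_nonneg_left hBo (mul_nonneg hh0 hδ)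
  have f4 : hh * (δ * S1) ≤ 1 / 1000000 * (δ * S1) := mul_le_mul_of_nonneg_right hh1 (mul_nonneg hδ n1)
  have f5 : hh * (δ * S3) ≤ 1 / 1000000 * (δ * S3) := mul_le_mul_of_nonneg_right hh1 (mul_nonneg hδ n4)
  have f6 := mul_nonneg hδ n1
  have f7 := mul_nonneg hδ n3
  have f8 := mul_nonneg hδ n4
  linarith

end BMV
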