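import Pool.Agent.BMV.XE3a
import Pool.Agent.BMV.GB1

/-! BMV XE3b (helper94): experiment E3, the covariance part of the energy.

`N = Gw k z`, `O = off N`, `ν = nu3 a D z`, `OO = ms m (O v)`, `AA = ms m (a v)`, `NN = NNq Ph a`.
y-part: `hs(k m' (9/8) Cv(y^2,v'^2)) ≤ (9/8)(11/5) hs(k Y m' n2 v') ≤ (5/2) ms m y` (`Cv_le`, `m' n2 v' = m'`, `kU ≤ m`).
z-part: for each `C` let `N'_C = Gw c_C z`, `c_C(A) = if r A C then k_A ν_A else 0`. `hs(k m' ν Cv(z^2,v'^2)) = ∑_C m_C Cv (qx N'_C) (sqv (v C))` (`Cv_sum_left`) and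
`hs(k m' ν chi(z,v')) = ∑_C m_C qd (off N'_C) (v C)`. By `GQ4.Q4` (`0 ≤ qd N'_C ≤ (9/8) K0 n2`):
`Cv (qx N'_C) (sqv v_C) - 2 qd (off N'_C) v_C ≤ T(N'_C) + (225/2) K0 Zq a v_C`, `T(M) = 4 |e^(-D) ∑ ap (off M) v_i ap a v_i| + 4 |e^(-D) ∑ v_i^2 ∑ off M_ij a_ij|`.
`N'_C = N - N1_C + N2_C`, `N1_C = Gw (if r A C then 0 else k_A) z`, `N2_C = Gw (if r A C then k_A (ν_A - 1) else 0) z`; `T` is subadditive (and `T(-M) = T(M)`; `Gw`, `off`, `ap` are linear).
* `T(N)`: `4 |<Ov, av>| ≤ (ε1/2) n2 (Ov) + (8/ε1) n2 (av)`; `∑_C m_C 4 ∑_i v_i^2 |∑_l O_il a_il| ≤ 4 ∑_i Γ_ii ∑_l |O_il||a_il| ≤ 4 ∑_i Ph_i ∑_l |O_il||a_il|` (rows with `Γ_ii > Ph_i` vanish)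
  `≤ 2 ε2 ∑ Ph_i O_il^2 + (2/ε2) ∑ Ph_i a_il^2 ≤ 2 ε2 Bq + (2/ε2) NN`.
* `T(N1_C)`: `lin_part` with `t_A = [¬ r A C]`, `lam = 1/4`: `∑_C m_C (..) ≤ (1/4)(Sur + 2 Eb) + 32 K0 ∑ m Zq a v`.
* `T(N2_C)`: `lin_part` with `t_A = |ν_A - 1| [r A C]`, `lam = 1`: `ip(z,v)^2 ≤ n2 z n2 v ≤ 1`, `∑_i z_i^2 v_i^2 ≤ n2 z n2 v ≤ 1`: `∑_C m_C (..) ≤ 3 hs(k (ν-1)^2 m') + 8 K0 ∑ m Zq a v ≤ 3 ∑ m (ν-1)^2 + 8 K0 ∑ m Zq a v`.
* `∑ m Zq a v ≤ AA + NN` (bad coordinates have `a_i = 0`).
* `∑ m (ν-1)^2 ≤ (21/20) ∑ m uu(z)^2 ≤ (21/20) ∑ m n2 (ap a z) ≤ (21/20)(2 AA + 2 κ^2 ms m y)` (`uu_sq_le`, `z = v - y`), `3 (21/20) 2 κ^2 ≤ 1/1000`.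
Total: `z-part ≤ 2 hs(km'ν chi) + (ε1/2) OO + (8/ε1) AA + 2 ε2 Bq + (2/ε2) NN + Sur/4 + Eb/2 + (153 K0 + 7)(AA + NN) + ms m y/1000`. Multiply by `2`; `7 ≤ K0/10`. -/

namespace BMV

open Finset BMP

variable {α X : Type} [Fintype α] [Fintype X] [DecidableEq X] {r : α → α → Prop} [DecidableRel r]
  {θ : ℝ} {m k j : α → ℝ} {v z y : α → X → ℝ} {R : Matrix X X ℝ} {Ph : X → ℝ}

/-- coordinates where the diagonal of the Gram matrix is not controlled carry nothing -/
def Bad0 (m k : α → ℝ) (v z : α → X → ℝ) (Ph : X → ℝ) (a : Matrix X X ℝ) : Prop :=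
  ∀ i, Gw m v i i ≤ Ph i ∨ ((∀ l, off (Gw k z) i l = 0) ∧ (∀ l, a i l = 0))

private lemma ms_nonneg99 (hm : ∀ A, 0 ≤ m A) (u : α → X → ℝ) : 0 ≤ ms m u := by
  unfold ms
  exact Finset.sum_nonneg fun A _ => mul_nonneg (hm A) (gf_n2_nonneg _)

private lemma ra_nonneg99 (a : Matrix X X ℝ) (i : X) : 0 ≤ ra a i := by
  unfold ra
  exact Finset.sum_nonneg fun _ _ => sq_nonneg _

private lemma ap_sub99 (a : Matrix X X ℝ) (x y z : X → ℝ) (h : ∀ i, x i = z i + y i) (i : X) :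
    ap a z i = ap a x i - ap a y i := by
  unfold ap
  rw [← Finset.sum_sub_distrib]
  refine Finset.sum_congr rfl fun j _ => ?_
  rw [h j]
  ring

private lemma n2_ap_z99 {a b : Matrix X X ℝ} {κ : ℝ} (h : QH a b κ) (x y z : X → ℝ)
    (hx : ∀ i, x i = z i + y i) :
    n2 (ap a z) ≤ 2 * n2 (ap a x) + 2 * κ ^ 2 * n2 y := by
  have h1 : n2 (ap a z) ≤ 2 * n2 (ap a x) + 2 * n2 (ap a y) := by
    unfold n2
    rw [Finset.mul_sum, Finset.mul_sum, ← Finset.sum_add_distrib]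
    refine Finset.sum_le_sum fun i _ => ?_
    rw [ap_sub99 a x y z hx i]
    nlinarith [sq_nonneg (ap a x i + ap a y i)]
  have h2 := h.op y
  linarith

private lemma sum_ra99 (hB : BDat r θ m k j v z y R Ph) {a : Matrix X X ℝ}
    (hbad : Bad0 m k v z Ph a) : ∑ i, ra a i * Gw m v i i ≤ NNq Ph a := by
  unfold NNq
  refine Finset.sum_le_sum fun i _ => ?_
  rcases hbad i with h1 | ⟨-, h1⟩
  · rw [mul_comm]
    exact mul_le_mul_of_nonneg_right h1 (ra_nonneg99 a i)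
  · have e : ra a i = 0 := by
      unfold ra
      exact Finset.sum_eq_zero fun l _ => by rw [h1 l]; ring
    rw [e]
    simp

theorem sum_mZq_v (hB : BDat r θ m k j v z y R Ph) {a : Matrix X X ℝ} (hbad : Bad0 m k v z Ph a) :
    ∑ A, m A * Zq a (v A) ≤ ms m (fun A => ap a (v A)) + NNq Ph a := by
  have e : ∑ A, m A * Zq a (v A) = ms m (fun A => ap a (v A)) + ∑ i, ra a i * Gw m v i i := by
    rw [← gb_sum_diag m v (fun i => ra a i)]
    unfold ms Zq
    rw [← Finset.sum_add_distrib]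
    exact Finset.sum_congr rfl fun A _ => by ring
  rw [e]
  have := sum_ra99 hB hbad
  linarith

theorem sum_mZq_z (hB : BDat r θ m k j v z y R Ph) {a b : Matrix X X ℝ} {κ : ℝ} (h : QH a b κ)
    (hbad : Bad0 m k v z Ph a) :
    ∑ A, m A * Zq a (z A) ≤ 2 * ms m (fun A => ap a (v A)) + NNq Ph a + 2 * κ ^ 2 * ms m y := by
  have e : ∑ A, m A * Zq a (z A) = ms m (fun A => ap a (z A)) + ∑ i, ra a i * Gw m z i i := by
    rw [← gb_sum_diag m z (fun i => ra a i)]
    unfold ms Zq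
    rw [← Finset.sum_add_distrib]
    exact Finset.sum_congr rfl fun A _ => by ring
  have h1 : ms m (fun A => ap a (z A)) ≤ 2 * ms m (fun A => ap a (v A)) + 2 * κ ^ 2 * ms m y := by
    unfold ms
    rw [Finset.mul_sum, Finset.mul_sum, ← Finset.sum_add_distrib]
    refine Finset.sum_le_sum fun A _ => ?_
    have := mul_le_mul_of_nonneg_left (n2_ap_z99 h (v A) (y A) (z A) (hB.vzy A)) (hB.m0 A)
    linarith
  have h2 : ∑ i, ra a i * Gw m z i i ≤ ∑ i, ra a i * Gw m v i i := by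
    refine Finset.sum_le_sum fun i _ => ?_
    refine mul_le_mul_of_nonneg_left ?_ (ra_nonneg99 a i)
    rw [gb_Gdiag]
    exact hB.zG i
  have h3 := sum_ra99 hB hbad
  rw [e]
  linarith

theorem sum_uu (hB : BDat r θ m k j v z y R Ph) {a b : Matrix X X ℝ} {κ D : ℝ} (h : QH a b κ) (hD : 0 ≤ D) :
    ∑ A, m A * uu a D (v A) ^ 2 ≤ ms m (fun A => ap a (v A)) ∧
    ∑ A, m A * uu a D (z A) ^ 2 ≤ 2 * ms m (fun A => ap a (v A)) + 2 * κ ^ 2 * ms m y := by
  constructor
  · unfold ms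
    refine Finset.sum_le_sum fun A _ => ?_
    have h1 := mul_le_mul_of_nonneg_left (uu_sq_le (a := a) hD (v A)) (hB.m0 A)
    have h2 := hB.mnv A
    calc m A * uu a D (v A) ^ 2 ≤ m A * (n2 (v A) * n2 (ap a (v A))) := h1
      _ = (m A * n2 (v A)) * n2 (ap a (v A)) := by ring
      _ = m A * n2 (ap a (v A)) := by rw [h2]
  · unfold ms
    rw [Finset.mul_sum, Finset.mul_sum, ← Finset.sum_add_distrib]
    refine Finset.sum_le_sum fun A _ => ?_
    have h1 := mul_le_mul_of_nonneg_left (uu_sq_le (a := a) hD (z A)) (hB.m0 A)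
    have h2 := hB.mnv A
    have h3 := hB.nzy A
    have h4 : m A * n2 (z A) ≤ m A := by
      have h5 := mul_nonneg (hB.m0 A) (gf_n2_nonneg (y A))
      have h6 : m A * n2 (z A) + m A * n2 (y A) = m A := by
        rw [← mul_add, h3, h2]
      linarith
    have h7 := gf_n2_nonneg (ap a (z A))
    have h8 := mul_le_mul_of_nonneg_left (n2_ap_z99 h (v A) (y A) (z A) (hB.vzy A)) (hB.m0 A)
    calc m A * uu a D (z A) ^ 2 ≤ m A * (n2 (z A) * n2 (ap a (z A))) := h1
      _ = (m A * n2 (z A)) * n2 (ap a (z A)) := by ring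
      _ ≤ m A * n2 (ap a (z A)) := mul_le_mul_of_nonneg_right h4 h7
      _ ≤ _ := by linarith

/-- the linear error terms -/
private noncomputable def T99 (a : Matrix X X ℝ) (D : ℝ) (M : Matrix X X ℝ) (x : X → ℝ) : ℝ :=
  4 * (Real.exp (-D) * |∑ i, ap (off M) x i * ap a x i|)
    + 4 * (Real.exp (-D) * |∑ i, x i ^ 2 * ∑ l, off M i l * a i l|)

private lemma exp_le99 {D : ℝ} (hD : 0 ≤ D) : Real.exp (-D) ≤ 1 :=
  Real.exp_le_one_iff.2 (by linarith)

private lemma Q4_up99 {a b : Matrix X X ℝ} {κ : ℝ} (h : QH a b κ) {D : ℝ} (hD : 0 ≤ D)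
    {w : (X → Bool) → ℝ} (hw : Fld w D a b) {M : Matrix X X ℝ} (hM : ∀ i j, M i j = M j i)
    {κM : ℝ} (h0 : 0 ≤ κM) (hκ : ∀ x, |qd M x| ≤ κM * n2 x) (x : X → ℝ) :
    Cv w (qx M) (sqv x) ≤ 2 * qd (off M) x + T99 a D M x + 100 * κM * Zq a x := by
  have h1 := Q4 h hD hw hM h0 hκ x
  have h2 := (abs_le.1 h1).2
  have h3 : Cv w (qx M) (sqv x) = Cv w (qx M) (fun s => dt x s ^ 2) := rfl
  have he := (Real.exp_pos (-D)).le
  have h4 : Real.exp (-D) * ∑ i, ap (off M) x i * ap a x i ≤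
      Real.exp (-D) * |∑ i, ap (off M) x i * ap a x i| :=
    mul_le_mul_of_nonneg_left (le_abs_self _) he
  have h5 : -(Real.exp (-D) * |∑ i, x i ^ 2 * ∑ l, off M i l * a i l|) ≤
      Real.exp (-D) * ∑ i, x i ^ 2 * ∑ l, off M i l * a i l := by
    rw [← mul_neg]
    exact mul_le_mul_of_nonneg_left (neg_abs_le _) he
  rw [h3]
  unfold T99
  linarith

private lemma off_Gw_lin99 {c c1 c2 c3 : α → ℝ} (hc : ∀ A, c A = c1 A - c2 A + c3 A)
    (u : α → X → ℝ) (i l : X) : off (Gw c u) i l =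
      off (Gw c1 u) i l - off (Gw c2 u) i l + off (Gw c3 u) i l := by
  unfold off
  split_ifs
  · ring
  · unfold Gw
    rw [← Finset.sum_sub_distrib, ← Finset.sum_add_distrib]
    refine Finset.sum_congr rfl fun A _ => ?_
    rw [hc A]
    ring

private lemma T_sub99 (a : Matrix X X ℝ) (D : ℝ) {c c1 c2 c3 : α → ℝ}
    (hc : ∀ A, c A = c1 A - c2 A + c3 A) (u : α → X → ℝ) (x : X → ℝ) :
    T99 a D (Gw c u) x ≤ T99 a D (Gw c1 u) x + T99 a D (Gw c2 u) x + T99 a D (Gw c3 u) x := by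
  have hap : ∀ i, ap (off (Gw c u)) x i =
      ap (off (Gw c1 u)) x i - ap (off (Gw c2 u)) x i + ap (off (Gw c3 u)) x i := by
    intro i
    unfold ap
    rw [← Finset.sum_sub_distrib, ← Finset.sum_add_distrib]
    refine Finset.sum_congr rfl fun l _ => ?_
    rw [off_Gw_lin99 hc]
    ring
  have e1 : ∑ i, ap (off (Gw c u)) x i * ap a x i = ∑ i, ap (off (Gw c1 u)) x i * ap a x i -
      ∑ i, ap (off (Gw c2 u)) x i * ap a x i + ∑ i, ap (off (Gw c3 u)) x i * ap a x i := by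
    rw [← Finset.sum_sub_distrib, ← Finset.sum_add_distrib]
    refine Finset.sum_congr rfl fun i _ => ?_
    rw [hap]
    ring
  have e2 : ∑ i, x i ^ 2 * ∑ l, off (Gw c u) i l * a i l =
      ∑ i, x i ^ 2 * ∑ l, off (Gw c1 u) i l * a i l -
      ∑ i, x i ^ 2 * ∑ l, off (Gw c2 u) i l * a i l +
      ∑ i, x i ^ 2 * ∑ l, off (Gw c3 u) i l * a i l := by
    rw [← Finset.sum_sub_distrib, ← Finset.sum_add_distrib]
    refine Finset.sum_congr rfl fun i _ => ?_
    rw [← mul_sub, ← mul_add, ← Finset.sum_sub_distrib, ← Finset.sum_add_distrib]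
    congr 1
    refine Finset.sum_congr rfl fun l _ => ?_
    rw [off_Gw_lin99 hc]
    ring
  have tri : ∀ p q t : ℝ, |p - q + t| ≤ |p| + |q| + |t| := fun p q t =>
    (abs_add_le _ _).trans (add_le_add_left (abs_sub _ _) _)
  have he := (Real.exp_pos (-D)).le
  unfold T99
  rw [e1, e2]
  have h1 := mul_le_mul_of_nonneg_left (tri (∑ i, ap (off (Gw c1 u)) x i * ap a x i)
    (∑ i, ap (off (Gw c2 u)) x i * ap a x i) (∑ i, ap (off (Gw c3 u)) x i * ap a x i)) he
  have h2 := mul_le_mul_of_nonneg_left (tri (∑ i, x i ^ 2 * ∑ l, off (Gw c1 u) i l * a i l)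
    (∑ i, x i ^ 2 * ∑ l, off (Gw c2 u) i l * a i l)
    (∑ i, x i ^ 2 * ∑ l, off (Gw c3 u) i l * a i l)) he
  linarith

private lemma amgm99 {ε : ℝ} (hε : 0 < ε) (p q : ℝ) :
    4 * (|p| * |q|) ≤ ε / 2 * p ^ 2 + 8 / ε * q ^ 2 := by
  have h1 : 0 ≤ (ε * |p| - 4 * |q|) ^ 2 / (2 * ε) := by positivity
  have h2 : (ε * |p| - 4 * |q|) ^ 2 / (2 * ε) =
      ε / 2 * |p| ^ 2 + 8 / ε * |q| ^ 2 - 4 * (|p| * |q|) := by
    field_simp
    ring
  rw [h2, sq_abs, sq_abs] at h1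
  linarith

private lemma S1_le99 (a M : Matrix X X ℝ) (x : X → ℝ) {ε : ℝ} (hε : 0 < ε) :
    4 * |∑ i, ap (off M) x i * ap a x i| ≤
      ε / 2 * n2 (ap (off M) x) + 8 / ε * n2 (ap a x) := by
  have h1 : |∑ i, ap (off M) x i * ap a x i| ≤ ∑ i, |ap (off M) x i| * |ap a x i| := by
    refine (Finset.abs_sum_le_sum_abs _ _).trans (le_of_eq ?_)
    exact Finset.sum_congr rfl fun i _ => abs_mul _ _
  have h2 : 4 * ∑ i, |ap (off M) x i| * |ap a x i| ≤
      ε / 2 * n2 (ap (off M) x) + 8 / ε * n2 (ap a x) := by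
    unfold n2
    rw [Finset.mul_sum, Finset.mul_sum, Finset.mul_sum, ← Finset.sum_add_distrib]
    exact Finset.sum_le_sum fun i _ => amgm99 hε _ _
  linarith

private lemma TN99 (hB : BDat r θ m k j v z y R Ph) {a : Matrix X X ℝ} {D : ℝ} (hD : 0 ≤ D)
    (hbad : Bad0 m k v z Ph a) {ε1 ε2 : ℝ} (h1 : 0 < ε1) (h2 : 0 < ε2) :
    ∑ C, m C * T99 a D (Gw k z) (v C) ≤ ε1 / 2 * ms m (fun A => ap (off (Gw k z)) (v A))
      + 8 / ε1 * ms m (fun A => ap a (v A)) + 2 * ε2 * Bq Ph (Gw k z) + 2 / ε2 * NNq Ph a := by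
  have he0 := (Real.exp_pos (-D)).le
  have he := exp_le99 hD
  -- split
  have hs1 : ∑ C, m C * T99 a D (Gw k z) (v C) ≤
      ∑ C, m C * (ε1 / 2 * n2 (ap (off (Gw k z)) (v C)) + 8 / ε1 * n2 (ap a (v C)))
      + ∑ C, m C * ∑ i, (4 * |∑ l, off (Gw k z) i l * a i l|) * v C i ^ 2 := by
    rw [← Finset.sum_add_distrib]
    refine Finset.sum_le_sum fun C _ => ?_
    rw [← mul_add]
    refine mul_le_mul_of_nonneg_left ?_ (hB.m0 C)
    unfold T99
    have h3 := S1_le99 a (Gw k z) (v C) h1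
    have h4 : Real.exp (-D) * |∑ i, ap (off (Gw k z)) (v C) i * ap a (v C) i| ≤
        |∑ i, ap (off (Gw k z)) (v C) i * ap a (v C) i| :=
      mul_le_of_le_one_left (abs_nonneg _) he
    have h5 : Real.exp (-D) * |∑ i, v C i ^ 2 * ∑ l, off (Gw k z) i l * a i l| ≤
        |∑ i, v C i ^ 2 * ∑ l, off (Gw k z) i l * a i l| :=
      mul_le_of_le_one_left (abs_nonneg _) he
    have h6 : |∑ i, v C i ^ 2 * ∑ l, off (Gw k z) i l * a i l| ≤
        ∑ i, v C i ^ 2 * |∑ l, off (Gw k z) i l * a i l| := by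
      refine (Finset.abs_sum_le_sum_abs _ _).trans (le_of_eq ?_)
      refine Finset.sum_congr rfl fun i _ => ?_
      rw [abs_mul, abs_of_nonneg (sq_nonneg _)]
    have h7 : ∑ i, (4 * |∑ l, off (Gw k z) i l * a i l|) * v C i ^ 2 =
        4 * ∑ i, v C i ^ 2 * |∑ l, off (Gw k z) i l * a i l| := by
      rw [Finset.mul_sum]
      exact Finset.sum_congr rfl fun i _ => by ring
    rw [h7]
    linarith
  have hs2 : ∑ C, m C * (ε1 / 2 * n2 (ap (off (Gw k z)) (v C)) + 8 / ε1 * n2 (ap a (v C))) =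
      ε1 / 2 * ms m (fun A => ap (off (Gw k z)) (v A)) + 8 / ε1 * ms m (fun A => ap a (v A)) := by
    unfold ms
    rw [Finset.mul_sum, Finset.mul_sum, ← Finset.sum_add_distrib]
    exact Finset.sum_congr rfl fun C _ => by ring
  have hs3 : ∑ C, m C * ∑ i, (4 * |∑ l, off (Gw k z) i l * a i l|) * v C i ^ 2 ≤
      2 * ε2 * Bq Ph (Gw k z) + 2 / ε2 * NNq Ph a := by
    rw [gb_sum_diag m v (fun i => 4 * |∑ l, off (Gw k z) i l * a i l|)]
    unfold Bq NNq
    rw [Finset.mul_sum, Finset.mul_sum, ← Finset.sum_add_distrib]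
    refine Finset.sum_le_sum fun i _ => ?_
    have hPh := (hB.Ph0 i).le
    have h8 : 4 * |∑ l, off (Gw k z) i l * a i l| ≤
        2 * ε2 * ∑ l, off (Gw k z) i l ^ 2 + 2 / ε2 * ra a i := by
      have h9 : |∑ l, off (Gw k z) i l * a i l| ≤ ∑ l, |off (Gw k z) i l| * |a i l| := by
        refine (Finset.abs_sum_le_sum_abs _ _).trans (le_of_eq ?_)
        exact Finset.sum_congr rfl fun l _ => abs_mul _ _
      have h10 : 4 * ∑ l, |off (Gw k z) i l| * |a i l| ≤
          2 * ε2 * ∑ l, off (Gw k z) i l ^ 2 + 2 / ε2 * ra a i := by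
        unfold ra
        rw [Finset.mul_sum, Finset.mul_sum, Finset.mul_sum, ← Finset.sum_add_distrib]
        refine Finset.sum_le_sum fun l _ => ?_
        have h11 := amgm99 (show 0 < 4 * ε2 by linarith) (off (Gw k z) i l) (a i l)
        have h12 : 8 / (4 * ε2) = 2 / ε2 := by
          field_simp
          norm_num
        rw [h12] at h11
        linarith
      linarith
    have h13 : Ph i * (2 * ε2 * ∑ l, off (Gw k z) i l ^ 2 + 2 / ε2 * ra a i) ≤
        2 * ε2 * ∑ l, max (Ph i) (Ph l) * off (Gw k z) i l ^ 2 + 2 / ε2 * (Ph i * ra a i) := by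
      have h14 : Ph i * ∑ l, off (Gw k z) i l ^ 2 ≤
          ∑ l, max (Ph i) (Ph l) * off (Gw k z) i l ^ 2 := by
        rw [Finset.mul_sum]
        exact Finset.sum_le_sum fun l _ =>
          mul_le_mul_of_nonneg_right (le_max_left _ _) (sq_nonneg _)
      have h15 := mul_le_mul_of_nonneg_left h14 (show 0 ≤ 2 * ε2 by linarith)
      linarith
    refine le_trans ?_ h13
    rcases hbad i with h16 | ⟨h16, -⟩
    · have h17 : 0 ≤ 4 * |∑ l, off (Gw k z) i l * a i l| := by positivity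
      calc 4 * |∑ l, off (Gw k z) i l * a i l| * Gw m v i i ≤
          4 * |∑ l, off (Gw k z) i l * a i l| * Ph i := mul_le_mul_of_nonneg_left h16 h17
        _ = Ph i * (4 * |∑ l, off (Gw k z) i l * a i l|) := by ring
        _ ≤ _ := mul_le_mul_of_nonneg_left h8 hPh
    · have h18 : ∑ l, off (Gw k z) i l * a i l = 0 :=
        Finset.sum_eq_zero fun l _ => by rw [h16 l, zero_mul]
      rw [h18, abs_zero, mul_zero, zero_mul]
      have := ra_nonneg99 a i
      positivity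
  linarith

private lemma qd_off_Gw99 (c : α → ℝ) (u : α → X → ℝ) (x : X → ℝ) :
    qd (off (Gw c u)) x = ∑ A, c A * chi (u A) x := by
  rw [gf_qd_off, Gw_qd]
  have e1 : ∑ i, Gw c u i i * x i ^ 2 = ∑ A, c A * ∑ i, u A i ^ 2 * x i ^ 2 := by
    unfold Gw
    simp only [Finset.sum_mul, Finset.mul_sum]
    rw [Finset.sum_comm]
    exact Finset.sum_congr rfl fun A _ => Finset.sum_congr rfl fun i _ => by ring
  rw [e1, ← Finset.sum_sub_distrib]
  refine Finset.sum_congr rfl fun A _ => ?_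
  unfold chi
  ring

private lemma hs_col99 (f g : α → ℝ) (F : α → α → ℝ) :
    hs r (fun A C => f A * g C * F A C) =
      ∑ C, g C * ∑ A, (if r A C then f A else 0) * F A C := by
  unfold hs
  rw [Finset.sum_comm]
  refine Finset.sum_congr rfl fun C _ => ?_
  rw [Finset.mul_sum]
  refine Finset.sum_congr rfl fun A _ => ?_
  split_ifs <;> ring

private lemma ns_col99 (f g : α → ℝ) (F : α → α → ℝ) :
    ns r (fun A C => f A * g C * F A C) =
      ∑ C, g C * ∑ A, (if r A C then 0 else f A) * F A C := by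
  unfold ns
  rw [Finset.sum_comm]
  refine Finset.sum_congr rfl fun C _ => ?_
  rw [Finset.mul_sum]
  refine Finset.sum_congr rfl fun A _ => ?_
  split_ifs <;> ring

private lemma knb99 (hB : BDat r θ m k j v z y R Ph) (A : α) : k A * nb r m A ≤ m A := by
  have h1 := hB.kU A
  have h2 := mul_nonneg (hB.k0 A) hB.θ0.le
  linarith

/-- the y-part -/
private lemma ypart99 (hB : BDat r θ m k j v z y R Ph) {a b : Matrix X X ℝ} {κ D : ℝ}
    (h : QH a b κ) (hD : 0 ≤ D) {w : (X → Bool) → ℝ} (hw : Fld w D a b) :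
    hs r (fun A C => k A * m C * (9 / 8 * Cv w (sqv (y A)) (sqv (v C)))) ≤
      99 / 40 * ms m y := by
  have h1 : hs r (fun A C => k A * m C * (9 / 8 * Cv w (sqv (y A)) (sqv (v C)))) ≤
      hs r (fun A C => (99 / 40 * (k A * n2 (y A))) * m C) := by
    refine hs_mono r _ _ fun A C _ => ?_
    have h2 := (abs_le.1 (Cv_le h hD hw (y A) (v C))).2
    have h3 : 0 ≤ k A * m C * (9 / 8) :=
      mul_nonneg (mul_nonneg (hB.k0 A) (hB.m0 C)) (by norm_num)
    have h4 := mul_le_mul_of_nonneg_left h2 h3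
    calc k A * m C * (9 / 8 * Cv w (sqv (y A)) (sqv (v C))) =
          k A * m C * (9 / 8) * Cv w (sqv (y A)) (sqv (v C)) := by ring
      _ ≤ k A * m C * (9 / 8) * (11 / 5 * (n2 (y A) * n2 (v C))) := h4
      _ = 99 / 40 * (k A * n2 (y A)) * (m C * n2 (v C)) := by ring
      _ = 99 / 40 * (k A * n2 (y A)) * m C := by rw [hB.mnv C]
  refine h1.trans ?_
  rw [hs_mul_nb]
  unfold ms
  rw [Finset.mul_sum]
  refine Finset.sum_le_sum fun A _ => ?_
  have h5 := knb99 hB A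
  have h6 := gf_n2_nonneg (y A)
  calc 99 / 40 * (k A * n2 (y A)) * nb r m A = 99 / 40 * (n2 (y A) * (k A * nb r m A)) := by ring
    _ ≤ 99 / 40 * (n2 (y A) * m A) := by gcongr
    _ = _ := by ring

private lemma nu_bd99 (hB : BDat r θ m k j v z y R Ph) {a b : Matrix X X ℝ} {κ D : ℝ}
    (h : QH a b κ) (hD : 0 ≤ D) (A : α) : 0 ≤ nu3 a D z A ∧ nu3 a D z A ≤ 91 / 90 := by
  have h1 := abs_le.1 (nu3_le hB h hD A)
  constructor <;> linarith [h1.1, h1.2]

private lemma ip_sq_le99 (p q : X → ℝ) : ip p q ^ 2 ≤ n2 p * n2 q := by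
  unfold ip n2
  exact Finset.sum_mul_sq_le_sq_mul_sq _ _ _

private lemma diag_le99 (p q : X → ℝ) : ∑ i, p i ^ 2 * q i ^ 2 ≤ n2 p * n2 q := by
  unfold n2
  rw [Finset.sum_mul]
  refine Finset.sum_le_sum fun i _ => ?_
  refine mul_le_mul_of_nonneg_left ?_ (sq_nonneg _)
  exact Finset.single_le_sum (f := fun l => q l ^ 2) (fun l _ => sq_nonneg _) (Finset.mem_univ i)

theorem XE3b {a b : Matrix X X ℝ} {κ D : ℝ} (hB : BDat r θ m k j v z y R Ph) (h : QH a b κ) (hD : 0 ≤ D)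
    {w : (X → Bool) → ℝ} (hw : Fld w D a b) (hbad : Bad0 m k v z Ph a) (ε1 ε2 : ℝ) (h1 : 0 < ε1) (h2 : 0 < ε2) :
    2 * hs r (fun A C => k A * m C *
          (nu3 a D z A * Cv w (sqv (z A)) (sqv (v C)) + 9 / 8 * Cv w (sqv (y A)) (sqv (v C)))) ≤
      4 * hs r (fun A C => k A * m C * (nu3 a D z A * chi (z A) (v C)))
      + (51 / 10 * ms m y + ε1 * ms m (fun A => ap (off (Gw k z)) (v A))
        + (16 / ε1 + 307 * K0) * ms m (fun A => ap a (v A)) + 1 / 2 * Sur r m k v z + Eb r m k v z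
        + 4 * ε2 * Bq Ph (Gw k z) + (4 / ε2 + 307 * K0) * NNq Ph a) := by
  have hm0 := hB.m0
  have hk0 := hB.k0
  have hK := K0_pos
  have hKge := K0_ge
  have hκ2 : κ ^ 2 ≤ (1 / 100) ^ 2 := pow_le_pow_left₀ h.κ0 h.κ1 2
  have hY := ms_nonneg99 hm0 y
  have hAA := ms_nonneg99 hm0 (fun A => ap a (v A))
  have hNN : 0 ≤ NNq Ph a := by
    unfold NNq
    exact Finset.sum_nonneg fun i _ => mul_nonneg (hB.Ph0 i).le (ra_nonneg99 a i)
  set ν := nu3 a D z with hν
  -- split into the z-part and the y-part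
  have hsplit : hs r (fun A C => k A * m C *
      (ν A * Cv w (sqv (z A)) (sqv (v C)) + 9 / 8 * Cv w (sqv (y A)) (sqv (v C)))) =
      hs r (fun A C => k A * m C * (ν A * Cv w (sqv (z A)) (sqv (v C)))) +
      hs r (fun A C => k A * m C * (9 / 8 * Cv w (sqv (y A)) (sqv (v C)))) := by
    rw [← hs_add]
    exact hs_congr r _ _ fun A C _ => by ring
  have hy := ypart99 hB h hD hw
  -- the z-part column by column
  have hz1 : hs r (fun A C => k A * m C * (ν A * Cv w (sqv (z A)) (sqv (v C)))) =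
      ∑ C, m C * Cv w (qx (Gw (fun A => if r A C then k A * ν A else 0) z)) (sqv (v C)) := by
    rw [hs_col99]
    refine Finset.sum_congr rfl fun C _ => ?_
    rw [← Cv_sum_left]
    congr 1
    refine Finset.sum_congr rfl fun A _ => ?_
    split_ifs <;> ring
  have hchi : hs r (fun A C => k A * m C * (ν A * chi (z A) (v C))) =
      ∑ C, m C * qd (off (Gw (fun A => if r A C then k A * ν A else 0) z)) (v C) := by
    rw [hs_col99]
    refine Finset.sum_congr rfl fun C _ => ?_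
    rw [qd_off_Gw99]
    congr 1
    refine Finset.sum_congr rfl fun A _ => ?_
    split_ifs <;> ring
  have hcol : ∀ C, Cv w (qx (Gw (fun A => if r A C then k A * ν A else 0) z)) (sqv (v C)) ≤
      2 * qd (off (Gw (fun A => if r A C then k A * ν A else 0) z)) (v C)
      + T99 a D (Gw k z) (v C)
      + (1 / 4 * (∑ A, k A * (if r A C then 0 else 1) ^ 2 * ip (z A) (v C) ^ 2
          + 2 * ∑ A, k A * (if r A C then 0 else 1) ^ 2 * ∑ i, z A i ^ 2 * v C i ^ 2)
        + 8 * K0 / (1 / 4) * Zq a (v C))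
      + (1 * (∑ A, k A * (if r A C then |ν A - 1| else 0) ^ 2 * ip (z A) (v C) ^ 2
          + 2 * ∑ A, k A * (if r A C then |ν A - 1| else 0) ^ 2 * ∑ i, z A i ^ 2 * v C i ^ 2)
        + 8 * K0 / 1 * Zq a (v C))
      + 100 * (91 / 90 * K0) * Zq a (v C) := by
    intro C
    have hform : ∀ x, |qd (Gw (fun A => if r A C then k A * ν A else 0) z) x| ≤
        91 / 90 * K0 * n2 x := by
      intro x
      rw [Gw_qd, abs_of_nonneg]
      · have h5 := hB.qN x
        rw [Gw_qd] at h5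
        have h6 : ∑ A, (if r A C then k A * ν A else 0) * ip (z A) x ^ 2 ≤
            91 / 90 * ∑ A, k A * ip (z A) x ^ 2 := by
          rw [Finset.mul_sum]
          refine Finset.sum_le_sum fun A _ => ?_
          have h7 := sq_nonneg (ip (z A) x)
          have h8 := nu_bd99 hB h hD A
          split_ifs
          · have h9 : k A * ν A ≤ k A * (91 / 90) := mul_le_mul_of_nonneg_left h8.2 (hk0 A)
            have h10 := mul_le_mul_of_nonneg_right h9 h7
            linarith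
          · rw [zero_mul]
            have := mul_nonneg (hk0 A) h7
            linarith
        linarith
      · refine Finset.sum_nonneg fun A _ => ?_
        have h8 := nu_bd99 hB h hD A
        split_ifs
        · exact mul_nonneg (mul_nonneg (hk0 A) h8.1) (sq_nonneg _)
        · rw [zero_mul]
    have hq := Q4_up99 h hD hw (Gw_sym _ z) (show 0 ≤ 91 / 90 * K0 by positivity) hform (v C)
    have hT := T_sub99 a D (c := fun A => if r A C then k A * ν A else 0) (c1 := k)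
      (c2 := fun A => if r A C then 0 else k A)
      (c3 := fun A => if r A C then k A * (ν A - 1) else 0) (fun A => by
        try simp only
        split_ifs <;> ring) z (v C)
    have hT2 : T99 a D (Gw (fun A => if r A C then 0 else k A) z) (v C) ≤
        (1 / 4 * (∑ A, k A * (if r A C then 0 else 1) ^ 2 * ip (z A) (v C) ^ 2
          + 2 * ∑ A, k A * (if r A C then 0 else 1) ^ 2 * ∑ i, z A i ^ 2 * v C i ^ 2)
        + 8 * K0 / (1 / 4) * Zq a (v C)) := by
      refine lin_part h.ad hD _ k (fun A => if r A C then 0 else 1) z hK hk0 (fun A => ?_)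
        (fun A => ?_) hB.qN (v C) (1 / 4) (by norm_num)
      · try simp only
        split_ifs <;> norm_num
      · try simp only
        split_ifs
        · simp
        · rw [mul_one, abs_of_nonneg (hk0 A)]
    have hT3 : T99 a D (Gw (fun A => if r A C then k A * (ν A - 1) else 0) z) (v C) ≤
        (1 * (∑ A, k A * (if r A C then |ν A - 1| else 0) ^ 2 * ip (z A) (v C) ^ 2
          + 2 * ∑ A, k A * (if r A C then |ν A - 1| else 0) ^ 2 * ∑ i, z A i ^ 2 * v C i ^ 2)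
        + 8 * K0 / 1 * Zq a (v C)) := by
      refine lin_part h.ad hD _ k (fun A => if r A C then |ν A - 1| else 0) z hK hk0 (fun A => ?_)
        (fun A => ?_) hB.qN (v C) 1 one_pos
      · try simp only
        split_ifs
        · exact abs_nonneg _
        · exact le_rfl
      · try simp only
        split_ifs
        · rw [abs_mul, abs_of_nonneg (hk0 A)]
        · simp
    linarith
  -- the sums
  have hSur : ∑ C, m C * ∑ A, k A * (if r A C then 0 else 1) ^ 2 * ip (z A) (v C) ^ 2 =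
      Sur r m k v z := by
    unfold Sur
    rw [ns_col99]
    refine Finset.sum_congr rfl fun C _ => ?_
    congr 1
    refine Finset.sum_congr rfl fun A _ => ?_
    split_ifs <;> ring
  have hEb : ∑ C, m C * ∑ A, k A * (if r A C then 0 else 1) ^ 2 * ∑ i, z A i ^ 2 * v C i ^ 2 =
      Eb r m k v z := by
    unfold Eb
    rw [ns_col99]
    refine Finset.sum_congr rfl fun C _ => ?_
    congr 1
    refine Finset.sum_congr rfl fun A _ => ?_
    split_ifs <;> ring
  have hnuz : ∀ (G : α → α → ℝ), (∀ A C, G A C ≤ n2 (z A) * n2 (v C)) →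
      ∑ C, m C * ∑ A, k A * (if r A C then |ν A - 1| else 0) ^ 2 * G A C ≤
      21 / 20 * ∑ A, m A * uu a D (z A) ^ 2 := by
    intro G hG
    have h5 : ∑ C, m C * ∑ A, k A * (if r A C then |ν A - 1| else 0) ^ 2 * G A C ≤
        hs r (fun A C => (k A * (ν A - 1) ^ 2 * n2 (z A)) * m C) := by
      have e : hs r (fun A C => (k A * (ν A - 1) ^ 2 * n2 (z A)) * m C) =
          hs r (fun A C => (k A * (ν A - 1) ^ 2 * n2 (z A)) * m C * 1) :=
        hs_congr r _ _ fun A C _ => by ring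
      rw [e, hs_col99]
      refine Finset.sum_le_sum fun C _ => ?_
      rw [Finset.mul_sum, Finset.mul_sum]
      refine Finset.sum_le_sum fun A _ => ?_
      split_ifs
      · rw [sq_abs]
        have h6 : 0 ≤ m C * (k A * (ν A - 1) ^ 2) :=
          mul_nonneg (hm0 C) (mul_nonneg (hk0 A) (sq_nonneg _))
        have h7 := mul_le_mul_of_nonneg_left (hG A C) h6
        calc m C * (k A * (ν A - 1) ^ 2 * G A C) = m C * (k A * (ν A - 1) ^ 2) * G A C := by ring
          _ ≤ m C * (k A * (ν A - 1) ^ 2) * (n2 (z A) * n2 (v C)) := h7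
          _ = (k A * (ν A - 1) ^ 2 * n2 (z A)) * (m C * n2 (v C)) := by ring
          _ = m C * (k A * (ν A - 1) ^ 2 * n2 (z A) * 1) := by
            rw [hB.mnv C]
            ring
      · rw [zero_pow two_ne_zero]
        simp
    refine h5.trans ?_
    rw [hs_mul_nb, Finset.mul_sum]
    refine Finset.sum_le_sum fun A _ => ?_
    have h6 := knb99 hB A
    have h7 := nu3_sq hB h hD A
    have h8 : m A * n2 (z A) ≤ m A := by
      have h9 := mul_nonneg (hm0 A) (gf_n2_nonneg (y A))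
      have h10 : m A * n2 (z A) + m A * n2 (y A) = m A := by
        rw [← mul_add, hB.nzy A, hB.mnv A]
      linarith
    have h11 := gf_n2_nonneg (z A)
    have h12 : 0 ≤ (ν A - 1) ^ 2 := sq_nonneg _
    calc k A * (ν A - 1) ^ 2 * n2 (z A) * nb r m A =
          ((ν A - 1) ^ 2 * n2 (z A)) * (k A * nb r m A) := by ring
      _ ≤ ((ν A - 1) ^ 2 * n2 (z A)) * m A := by gcongr
      _ = (ν A - 1) ^ 2 * (m A * n2 (z A)) := by ring
      _ ≤ (ν A - 1) ^ 2 * m A := by gcongr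
      _ ≤ 21 / 20 * uu a D (z A) ^ 2 * m A := mul_le_mul_of_nonneg_right h7 (hm0 A)
      _ = _ := by ring
  have hG1 := hnuz (fun A C => ip (z A) (v C) ^ 2) (fun A C => ip_sq_le99 _ _)
  have hG2 := hnuz (fun A C => ∑ i, z A i ^ 2 * v C i ^ 2) (fun A C => diag_le99 _ _)
  have hTN := TN99 hB hD hbad h1 h2
  have hZv := sum_mZq_v hB hbad
  have huz := (sum_uu hB h hD).2
  -- add up
  have hzz : ∑ C, m C * Cv w (qx (Gw (fun A => if r A C then k A * ν A else 0) z)) (sqv (v C)) ≤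
      2 * ∑ C, m C * qd (off (Gw (fun A => if r A C then k A * ν A else 0) z)) (v C)
      + ∑ C, m C * T99 a D (Gw k z) (v C)
      + 1 / 4 * ∑ C, m C * ∑ A, k A * (if r A C then 0 else 1) ^ 2 * ip (z A) (v C) ^ 2
      + 1 / 2 * ∑ C, m C * ∑ A, k A * (if r A C then 0 else 1) ^ 2 * ∑ i, z A i ^ 2 * v C i ^ 2
      + ∑ C, m C * ∑ A, k A * (if r A C then |ν A - 1| else 0) ^ 2 * ip (z A) (v C) ^ 2
      + 2 * ∑ C, m C * ∑ A, k A * (if r A C then |ν A - 1| else 0) ^ 2 *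
          ∑ i, z A i ^ 2 * v C i ^ 2
      + (40 + 100 * (91 / 90)) * K0 * ∑ C, m C * Zq a (v C) := by
    simp only [Finset.mul_sum (a := (2 : ℝ)), Finset.mul_sum (a := (1 / 4 : ℝ)),
      Finset.mul_sum (a := (1 / 2 : ℝ)), Finset.mul_sum (a := ((40 + 100 * (91 / 90)) * K0 : ℝ))]
    simp only [← Finset.sum_add_distrib]
    refine Finset.sum_le_sum fun C _ => ?_
    have h5 := mul_le_mul_of_nonneg_left (hcol C) (hm0 C)
    refine h5.trans (le_of_eq ?_)
    ring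
  rw [hSur, hEb, ← hchi, ← hz1] at hzz
  rw [hsplit]
  have hK1 : 0 ≤ K0 := hK.le
  have t1 : (40 + 100 * (91 / 90)) * K0 * ∑ C, m C * Zq a (v C) ≤
      (40 + 100 * (91 / 90)) * K0 * (ms m (fun A => ap a (v A)) + NNq Ph a) :=
    mul_le_mul_of_nonneg_left hZv (by positivity)
  have t2 : κ ^ 2 * ms m y ≤ (1 / 100) ^ 2 * ms m y := mul_le_mul_of_nonneg_right hκ2 hY
  have t3 : 80000 * ms m (fun A => ap a (v A)) ≤ K0 * ms m (fun A => ap a (v A)) :=
    mul_le_mul_of_nonneg_right hKge hAA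
  have t4 : 0 ≤ K0 * NNq Ph a := mul_nonneg hK1 hNN
  have t5 : (16 / ε1 + 307 * K0) * ms m (fun A => ap a (v A)) =
      2 * (8 / ε1 * ms m (fun A => ap a (v A))) + 307 * (K0 * ms m (fun A => ap a (v A))) := by ring
  have t6 : (4 / ε2 + 307 * K0) * NNq Ph a = 2 * (2 / ε2 * NNq Ph a) + 307 * (K0 * NNq Ph a) := by
    ring
  rw [t5, t6]
  have t7 : (40 + 100 * (91 / 90)) * K0 * (ms m (fun A => ap a (v A)) + NNq Ph a) =
      (40 + 100 * (91 / 90)) * (K0 * ms m (fun A => ap a (v A))) +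
      (40 + 100 * (91 / 90)) * (K0 * NNq Ph a) := by ring
  rw [t7] at t1
  linarith

end BMV
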