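import Pool.Agent.BMV.X0

/-! BMV XMin (helper94): the min kernel.

* `min_psd`: for `p ≥ 0`: `∑_{A,C} min (p_A) (p_C) x_A x_C ≥ 0`. Proof: strong induction on the number of indices with `p_A > 0`: if all `p_A = 0` the sum is `0`; otherwise let
  `t > 0` be the smallest positive value of `p`, `p' = max (p - t) 0`; for all pairs `min p_A p_C = min p'_A p'_C + t [p_A > 0][p_C > 0]`, so the sum is
  `t (∑_{p_A > 0} x_A)^2 + ∑ min p' p' x x`. (Or by the integral of indicators.)
* `min_ge`: `mu k j A C = min (j_A k_C) (j_C k_A)`. If `k_A = 0` then `mu k j A C = min(j_A k_C, 0) = 0` (all numbers are `≥ 0`). Let `p_A = j_A/k_A - T` for `k_A > 0, c_A ≠ 0`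
  (`≥ 0`), `p_A = 0` otherwise, `x_A = k_A c_A`: then `mu k j A C c_A c_C = (T + min p_A p_C) x_A x_C` for all `A, C` (both sides `0` if `x_A x_C = 0`); sum up, `min_psd`.
* `bonus_all`: `∑_{A,C} mu k j A C chi (z A) (z C) = ∑_{i≠l} ∑_{A,C} mu c_A c_C`, `c_A = z_A i * z_A l`; apply `min_ge` with `T = max (Ph i) (Ph l)/(16 L0)` (`cold` for `i` and `l`), and
  `∑_A k_A c_A = Gw k z i l`.
* `bonus_all_nu`: the same with `c_A = ν_A z_A i z_A l`, `T = 0`.
* `bonus_var`: `Cv w f g = Ew ((f - Ew f)(g - Ew g))` (`∑ w = 1`), pointwise `min_ge` with `T = 0`, `c_A = ν_A (f_A s - Ew f_A)`.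
* `mu_ns_le`: `0 ≤ mu k j A C ≤ j_C k_A ≤ (5/4) k_A m_C`.
* `mu_hs_le`: for `x ≥ 0`: `hs r (mu_AC x_A) ≤ ∑_A x_A (5/4) k_A nb r m A ≤ (5/4) ∑ m_A x_A` (`kU`), `mu_comm` and symmetry of `r` for the second form.
* `chi_ns_le`: `0 ≤ ν_A ν_C ≤ 103/100`; `chi (z A) (z C) ≤ ip (z A) (z C)^2 ≤ 2 ip (z A) (v C)^2 + 2 ip (z A) (y C)^2` (`z = v - y`); so the sum is
  `≤ (103/100)(5/4) 2 (Sur + ∑_C m_C ∑_A k_A ip (z A) (y C)^2)` and `∑_A k_A ip (z A) x^2 = qd (Gw k z) x ≤ K0 n2 x`. -/

namespace BMV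

open Finset BMP

section

variable {α : Type} [Fintype α]

private theorem xmin_step {t a b : ℝ} (ht : 0 < t) (ha : 0 ≤ a) (hb : 0 ≤ b) (ha' : 0 < a → t ≤ a)
    (hb' : 0 < b → t ≤ b) : min a b = min (max (a - t) 0) (max (b - t) 0) +
      t * ((if 0 < a then 1 else 0) * (if 0 < b then 1 else 0)) := by
  rcases ha.eq_or_lt with h1 | h1
  · rw [← h1, if_neg (lt_irrefl 0), max_eq_right (by linarith), min_eq_left hb,
      min_eq_left (le_max_right _ _)]
    ring
  · rcases hb.eq_or_lt with h2 | h2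
    · rw [← h2, if_neg (lt_irrefl 0), max_eq_right (by linarith : (0 : ℝ) - t ≤ 0), min_eq_right ha,
        min_eq_right (le_max_right _ _)]
      ring
    · rw [if_pos h1, if_pos h2, max_eq_left (by linarith [ha' h1]),
        max_eq_left (by linarith [hb' h2]), min_sub_sub_right]
      ring

private theorem xmin_sq (x : α → ℝ) (t : ℝ) :
    ∑ A, ∑ C, t * (x A * x C) = t * (∑ A, x A) ^ 2 := by
  rw [sq, Finset.sum_mul_sum, Finset.mul_sum]
  refine Finset.sum_congr rfl fun A _ => ?_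
  rw [Finset.mul_sum]

theorem min_psd (p x : α → ℝ) (hp : ∀ A, 0 ≤ p A) : 0 ≤ ∑ A, ∑ C, min (p A) (p C) * (x A * x C) := by
  classical
  have key : ∀ n : ℕ, ∀ p : α → ℝ, (∀ A, 0 ≤ p A) →
      (univ.filter (fun A => 0 < p A)).card = n →
      0 ≤ ∑ A, ∑ C, min (p A) (p C) * (x A * x C) := by
    intro n
    induction n using Nat.strong_induction_on with
    | _ n ih =>
      intro p hp hn
      rcases Finset.eq_empty_or_nonempty (univ.filter (fun A => 0 < p A)) with h0 | h0
      · have hz : ∀ A, p A = 0 := by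
          intro A
          by_contra hne
          have : A ∈ univ.filter (fun A => 0 < p A) :=
            Finset.mem_filter.2 ⟨Finset.mem_univ _, lt_of_le_of_ne (hp A) (Ne.symm hne)⟩
          rw [h0] at this
          exact absurd this (Finset.notMem_empty _)
        refine Finset.sum_nonneg fun A _ => Finset.sum_nonneg fun C _ => ?_
        rw [hz A, hz C, min_self, zero_mul]
      · obtain ⟨A0, hA0, hmin⟩ := Finset.exists_min_image _ p h0
        have ht : 0 < p A0 := (Finset.mem_filter.1 hA0).2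
        have hle : ∀ A, 0 < p A → p A0 ≤ p A := fun A hA =>
          hmin A (Finset.mem_filter.2 ⟨Finset.mem_univ _, hA⟩)
        obtain ⟨t, htd⟩ : ∃ t, t = p A0 := ⟨_, rfl⟩
        rw [← htd] at ht hle
        have hcard : (univ.filter (fun A => 0 < max (p A - t) 0)).card < n := by
          rw [← hn]
          refine Finset.card_lt_card ⟨fun A hA => ?_, fun hs => ?_⟩
          · rw [Finset.mem_filter] at hA ⊢
            refine ⟨Finset.mem_univ _, ?_⟩
            rcases lt_max_iff.1 hA.2 with h | h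
            · linarith
            · exact absurd h (lt_irrefl _)
          · have h2 := hs hA0
            rw [Finset.mem_filter] at h2
            rcases lt_max_iff.1 h2.2 with h | h
            · linarith
            · exact absurd h (lt_irrefl _)
        have h1 := ih _ hcard (fun A => max (p A - t) 0) (fun A => le_max_right _ _) rfl
        have h2 : ∑ A, ∑ C, min (p A) (p C) * (x A * x C) =
            ∑ A, ∑ C, min (max (p A - t) 0) (max (p C - t) 0) * (x A * x C) +
            ∑ A, ∑ C, t * (((if 0 < p A then 1 else 0) * x A) * ((if 0 < p C then 1 else 0) * x C)) := by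
          rw [← Finset.sum_add_distrib]
          refine Finset.sum_congr rfl fun A _ => ?_
          rw [← Finset.sum_add_distrib]
          refine Finset.sum_congr rfl fun C _ => ?_
          rw [xmin_step ht (hp A) (hp C) (hle A) (hle C)]
          ring
        rw [h2, xmin_sq (fun A => (if 0 < p A then 1 else 0) * x A) t]
        exact add_nonneg h1 (mul_nonneg ht.le (sq_nonneg _))
  exact key _ p hp rfl

private theorem xmin_mu (k j c : α → ℝ) (hk : ∀ A, 0 ≤ k A) (hj : ∀ A, 0 ≤ j A) (T : ℝ) (A C : α)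
    [Decidable (0 < k A ∧ c A ≠ 0)] [Decidable (0 < k C ∧ c C ≠ 0)] :
    mu k j A C * (c A * c C) = (T + min (if 0 < k A ∧ c A ≠ 0 then j A / k A - T else 0)
      (if 0 < k C ∧ c C ≠ 0 then j C / k C - T else 0)) * ((k A * c A) * (k C * c C)) := by
  by_cases h1 : c A = 0
  · have e1 : c A * c C = 0 := by rw [h1, zero_mul]
    have e2 : (k A * c A) * (k C * c C) = 0 := by rw [h1, mul_zero, zero_mul]
    rw [e1, e2, mul_zero, mul_zero]
  by_cases h2 : c C = 0
  · have e1 : c A * c C = 0 := by rw [h2, mul_zero]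
    have e2 : (k A * c A) * (k C * c C) = 0 := by rw [h2, mul_zero, mul_zero]
    rw [e1, e2, mul_zero, mul_zero]
  rcases (hk A).eq_or_lt with h3 | h3
  · have : mu k j A C = 0 := by
      unfold mu
      rw [← h3, mul_zero]
      exact min_eq_right (mul_nonneg (hj A) (hk C))
    have e2 : (k A * c A) * (k C * c C) = 0 := by rw [← h3, zero_mul, zero_mul]
    rw [this, e2, mul_zero, zero_mul]
  rcases (hk C).eq_or_lt with h4 | h4
  · have : mu k j A C = 0 := by
      unfold mu
      rw [← h4, mul_zero]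
      exact min_eq_left (mul_nonneg (hj C) (hk A))
    have e2 : (k A * c A) * (k C * c C) = 0 := by rw [← h4, zero_mul, mul_zero]
    rw [this, e2, mul_zero, zero_mul]
  rw [if_pos ⟨h3, h1⟩, if_pos ⟨h4, h2⟩, min_sub_sub_right]
  have h5 : mu k j A C = min (j A / k A) (j C / k C) * (k A * k C) := by
    rw [min_mul_of_nonneg _ _ (mul_nonneg h3.le h4.le)]
    unfold mu
    congr 1
    · field_simp
    · field_simp
  rw [h5]
  ring

theorem min_ge (k j c : α → ℝ) (hk : ∀ A, 0 ≤ k A) (hj : ∀ A, 0 ≤ j A) (T : ℝ) (hT : 0 ≤ T)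
    (h : ∀ A, c A ≠ 0 → T * k A ≤ j A) : T * (∑ A, k A * c A) ^ 2 ≤ ∑ A, ∑ C, mu k j A C * (c A * c C) := by
  classical
  have h1 : ∑ A, ∑ C, mu k j A C * (c A * c C) =
      ∑ A, ∑ C, T * ((k A * c A) * (k C * c C)) +
      ∑ A, ∑ C, min (if 0 < k A ∧ c A ≠ 0 then j A / k A - T else 0)
      (if 0 < k C ∧ c C ≠ 0 then j C / k C - T else 0) * ((k A * c A) * (k C * c C)) := by
    rw [← Finset.sum_add_distrib]
    refine Finset.sum_congr rfl fun A _ => ?_
    rw [← Finset.sum_add_distrib]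
    refine Finset.sum_congr rfl fun C _ => ?_
    rw [xmin_mu k j c hk hj T A C]
    ring
  rw [h1, xmin_sq (fun A => k A * c A) T]
  have h2 := min_psd (fun A => if 0 < k A ∧ c A ≠ 0 then j A / k A - T else 0)
    (fun A => k A * c A) (fun A => by
      show 0 ≤ if 0 < k A ∧ c A ≠ 0 then j A / k A - T else 0
      split_ifs with h3
      · have := h A h3.2
        have h4 : T ≤ j A / k A := by
          rw [le_div_iff₀ h3.1]
          exact this
        linarith
      · exact le_rfl)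
  linarith

end

section

variable {α X : Type} [Fintype α] [Fintype X] [DecidableEq X] {r : α → α → Prop} [DecidableRel r]
  {θ : ℝ} {m k j : α → ℝ} {v z y : α → X → ℝ} {R : Matrix X X ℝ} {Ph : X → ℝ}

theorem BDat.j0 (hB : BDat r θ m k j v z y R Ph) (A : α) : 0 ≤ j A :=
  le_trans (hB.m0 A) (hB.mj A)

private theorem xmin_nb (hB : BDat r θ m k j v z y R Ph) (A : α) : 0 ≤ nb r m A :=
  nb_nonneg r m hB.m0 A

theorem BDat.kz (hB : BDat r θ m k j v z y R Ph) (A : α) (h : m A = 0) : k A = 0 := by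
  have h1 := hB.kU A
  rw [h] at h1
  have h2 := xmin_nb hB A
  have h3 := hB.θ0
  have h4 := hB.k0 A
  have h5 : k A * θ ≤ 0 := by nlinarith [mul_nonneg h4 h2]
  have h6 : k A ≤ 0 := by
    by_contra h7
    push Not at h7
    linarith [mul_pos h7 h3]
  linarith

theorem BDat.nzy (hB : BDat r θ m k j v z y R Ph) (A : α) : n2 (z A) + n2 (y A) = n2 (v A) := by
  have h1 := hB.orth A
  have h2 : n2 (v A) = n2 (z A) + 2 * ip (z A) (y A) + n2 (y A) := by
    unfold n2 ip
    rw [Finset.mul_sum, ← Finset.sum_add_distrib, ← Finset.sum_add_distrib]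
    refine Finset.sum_congr rfl fun i _ => ?_
    rw [hB.vzy A i]
    ring
  rw [h2, h1]
  ring

theorem BDat.mnv (hB : BDat r θ m k j v z y R Ph) (A : α) : m A * n2 (v A) = m A := by
  rcases (hB.m0 A).eq_or_lt with h | h
  · rw [← h]
    ring
  · rw [hB.nv A h, mul_one]

theorem mu_le (hB : BDat r θ m k j v z y R Ph) (A C : α) : mu k j A C ≤ 5 / 4 * (k A * m C) := by
  have h1 := mu_le_right k j A C
  have h2 := hB.j5 C
  have h3 := mul_le_mul_of_nonneg_right h2 (hB.k0 A)
  linarith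

theorem mu_hs_left (hB : BDat r θ m k j v z y R Ph) (x : α → ℝ) (hx : ∀ A, 0 ≤ x A) :
    hs r (fun A C => mu k j A C * x A) ≤ 5 / 4 * ∑ A, m A * x A := by
  have h1 : hs r (fun A C => mu k j A C * x A) ≤
      hs r (fun A C => (5 / 4 * (x A * k A)) * m C) := by
    refine hs_mono r _ _ fun A C _ => ?_
    have := mul_le_mul_of_nonneg_right (mu_le hB A C) (hx A)
    linarith
  refine le_trans h1 ?_
  rw [hs_mul_nb, Finset.mul_sum]
  refine Finset.sum_le_sum fun A _ => ?_
  have h2 : k A * nb r m A ≤ m A := by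
    have := hB.kU A
    have h3 := mul_nonneg (hB.k0 A) hB.θ0.le
    linarith
  have h3 := mul_le_mul_of_nonneg_left h2 (hx A)
  linarith

theorem mu_hs_right (hB : BDat r θ m k j v z y R Ph) (x : α → ℝ) (hx : ∀ A, 0 ≤ x A) :
    hs r (fun A C => mu k j A C * x C) ≤ 5 / 4 * ∑ A, m A * x A := by
  refine le_trans (le_of_eq ?_) (mu_hs_left hB x hx)
  rw [hs_comm r hB.rs]
  refine hs_congr r _ _ fun A C _ => ?_
  rw [mu_comm]

private theorem xmin_chi (p q : X → ℝ) :
    chi p q = ∑ i, ∑ l, if i = l then 0 else (p i * p l) * (q i * q l) := by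
  unfold chi ip
  have h1 : ∑ i, p i ^ 2 * q i ^ 2 = ∑ i, ∑ l, if i = l then (p i * p l) * (q i * q l) else 0 := by
    refine Finset.sum_congr rfl fun i _ => ?_
    rw [Finset.sum_ite_eq, if_pos (Finset.mem_univ _)]
    ring
  rw [h1, sq, Finset.sum_mul_sum, ← Finset.sum_sub_distrib]
  refine Finset.sum_congr rfl fun i _ => ?_
  rw [← Finset.sum_sub_distrib]
  refine Finset.sum_congr rfl fun l _ => ?_
  split_ifs
  · ring
  · ring

private theorem xmin_sum4 (F : α → α → X → X → ℝ) :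
    ∑ A, ∑ C, ∑ i, ∑ l, F A C i l = ∑ i, ∑ l, ∑ A, ∑ C, F A C i l := by
  calc ∑ A, ∑ C, ∑ i, ∑ l, F A C i l = ∑ A, ∑ i, ∑ C, ∑ l, F A C i l :=
        Finset.sum_congr rfl fun A _ => Finset.sum_comm
    _ = ∑ i, ∑ A, ∑ C, ∑ l, F A C i l := Finset.sum_comm
    _ = ∑ i, ∑ A, ∑ l, ∑ C, F A C i l :=
        Finset.sum_congr rfl fun i _ => Finset.sum_congr rfl fun A _ => Finset.sum_comm
    _ = ∑ i, ∑ l, ∑ A, ∑ C, F A C i l := Finset.sum_congr rfl fun i _ => Finset.sum_comm

private theorem xmin_exp (g : α → α → ℝ) (z : α → X → ℝ) :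
    ∑ A, ∑ C, g A C * chi (z A) (z C) = ∑ i, ∑ l, if i = l then 0 else
      ∑ A, ∑ C, g A C * ((z A i * z A l) * (z C i * z C l)) := by
  have h1 : ∀ A C, g A C * chi (z A) (z C) =
      ∑ i, ∑ l, if i = l then 0 else g A C * ((z A i * z A l) * (z C i * z C l)) := by
    intro A C
    rw [xmin_chi, Finset.mul_sum]
    refine Finset.sum_congr rfl fun i _ => ?_
    rw [Finset.mul_sum]
    refine Finset.sum_congr rfl fun l _ => ?_
    split_ifs
    · ring
    · rfl
  simp only [h1]
  rw [xmin_sum4]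
  refine Finset.sum_congr rfl fun i _ => Finset.sum_congr rfl fun l _ => ?_
  split_ifs
  · simp
  · rfl

theorem bonus_all (hB : BDat r θ m k j v z y R Ph) :
    Bq Ph (Gw k z) / (16 * L0) ≤ ∑ A, ∑ C, mu k j A C * chi (z A) (z C) := by
  rw [xmin_exp]
  unfold Bq
  rw [Finset.sum_div]
  refine Finset.sum_le_sum fun i _ => ?_
  rw [Finset.sum_div]
  refine Finset.sum_le_sum fun l _ => ?_
  have hL := L0_pos
  by_cases hil : i = l
  · rw [if_pos hil]
    unfold off
    rw [if_pos hil]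
    simp
  · rw [if_neg hil]
    unfold off
    rw [if_neg hil]
    have h1 := min_ge k j (fun A => z A i * z A l) hB.k0 hB.j0
      (max (Ph i) (Ph l) / (16 * L0))
      (div_nonneg (le_trans (hB.Ph0 i).le (le_max_left _ _)) (by positivity)) (fun A hA => by
        have hzi : z A i ≠ 0 := left_ne_zero_of_mul hA
        have hzl : z A l ≠ 0 := right_ne_zero_of_mul hA
        have c1 := hB.cold A i hzi
        have c2 := hB.cold A l hzl
        rw [div_mul_eq_mul_div, div_le_iff₀ (by positivity)]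
        rw [max_mul_of_nonneg _ _ (hB.k0 A)]
        refine max_le ?_ ?_
        · linarith
        · linarith)
    refine le_trans (le_of_eq ?_) h1
    have h2 : Gw k z i l = ∑ A, k A * (z A i * z A l) := rfl
    rw [h2]
    ring

theorem bonus_all_nu (hB : BDat r θ m k j v z y R Ph) (ν : α → ℝ) :
    0 ≤ ∑ A, ∑ C, ν A * ν C * mu k j A C * chi (z A) (z C) := by
  rw [xmin_exp]
  refine Finset.sum_nonneg fun i _ => Finset.sum_nonneg fun l _ => ?_
  split_ifs
  · exact le_rfl
  · have h1 := min_ge k j (fun A => ν A * (z A i * z A l)) hB.k0 hB.j0 0 le_rfl (fun A _ => by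
      rw [zero_mul]
      exact hB.j0 A)
    rw [zero_mul] at h1
    refine le_trans h1 (le_of_eq ?_)
    refine Finset.sum_congr rfl fun A _ => Finset.sum_congr rfl fun C _ => ?_
    ring

private theorem xmin_Cv (w : (X → Bool) → ℝ) (h1 : ∑ s, w s = 1) (f g : (X → Bool) → ℝ) :
    Cv w f g = ∑ s, w s * ((f s - Ew w f) * (g s - Ew w g)) := by
  have h2 : ∑ s, w s * ((f s - Ew w f) * (g s - Ew w g)) =
      ∑ s, w s * (f s * g s) - Ew w g * ∑ s, w s * f s - Ew w f * ∑ s, w s * g s +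
      Ew w f * Ew w g * ∑ s, w s := by
    rw [Finset.mul_sum, Finset.mul_sum, Finset.mul_sum, ← Finset.sum_sub_distrib,
      ← Finset.sum_sub_distrib, ← Finset.sum_add_distrib]
    refine Finset.sum_congr rfl fun s _ => ?_
    ring
  have h3 : ∑ s, w s * f s = Ew w f := rfl
  have h4 : ∑ s, w s * g s = Ew w g := rfl
  have h5 : ∑ s, w s * (f s * g s) = Ew w (fun s => f s * g s) := rfl
  rw [h2, h1, h3, h4, h5]
  unfold Cv
  ring

theorem bonus_var (hB : BDat r θ m k j v z y R Ph) (ν : α → ℝ) (w : (X → Bool) → ℝ) (h0 : ∀ s, 0 ≤ w s)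
    (h1 : ∑ s, w s = 1) : 0 ≤ ∑ A, ∑ C, ν A * ν C * mu k j A C * Cv w (sqv (z A)) (sqv (z C)) := by
  have h2 : ∑ A, ∑ C, ν A * ν C * mu k j A C * Cv w (sqv (z A)) (sqv (z C)) =
      ∑ s, w s * ∑ A, ∑ C, mu k j A C * ((ν A * (sqv (z A) s - Ew w (sqv (z A)))) *
        (ν C * (sqv (z C) s - Ew w (sqv (z C))))) := by
    have h3 : ∀ A C, ν A * ν C * mu k j A C * Cv w (sqv (z A)) (sqv (z C)) =
        ∑ s, w s * (mu k j A C * ((ν A * (sqv (z A) s - Ew w (sqv (z A)))) *
        (ν C * (sqv (z C) s - Ew w (sqv (z C)))))) := by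
      intro A C
      rw [xmin_Cv w h1, Finset.mul_sum]
      refine Finset.sum_congr rfl fun s _ => ?_
      ring
    simp only [h3]
    rw [Finset.sum_congr rfl (fun A _ => Finset.sum_comm), Finset.sum_comm]
    refine Finset.sum_congr rfl fun s _ => ?_
    rw [Finset.mul_sum]
    refine Finset.sum_congr rfl fun A _ => ?_
    rw [Finset.mul_sum]
  rw [h2]
  refine Finset.sum_nonneg fun s _ => mul_nonneg (h0 s) ?_
  have h4 := min_ge k j (fun A => ν A * (sqv (z A) s - Ew w (sqv (z A)))) hB.k0 hB.j0 0 le_rfl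
    (fun A _ => by
      rw [zero_mul]
      exact hB.j0 A)
  rw [zero_mul] at h4
  exact h4

private theorem xmin_qd (k : α → ℝ) (z : α → X → ℝ) (x : X → ℝ) :
    ∑ A, k A * ip (z A) x ^ 2 = qd (Gw k z) x := by
  unfold qd Gw ip
  have h1 : ∀ A, k A * (∑ i, z A i * x i) ^ 2 =
      ∑ i, ∑ l, x i * (k A * (z A i * z A l)) * x l := by
    intro A
    rw [sq, Finset.sum_mul_sum, Finset.mul_sum]
    refine Finset.sum_congr rfl fun i _ => ?_
    rw [Finset.mul_sum]
    refine Finset.sum_congr rfl fun l _ => ?_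
    ring
  simp only [h1]
  rw [Finset.sum_comm]
  refine Finset.sum_congr rfl fun i _ => ?_
  rw [Finset.sum_comm]
  refine Finset.sum_congr rfl fun l _ => ?_
  rw [Finset.mul_sum, Finset.sum_mul]

theorem chi_ns_le (hB : BDat r θ m k j v z y R Ph) (ν : α → ℝ) (h0 : ∀ A, 0 ≤ ν A)
    (h1 : ∀ A C, ν A * ν C ≤ 103 / 100) :
    ns r (fun A C => ν A * ν C * mu k j A C * chi (z A) (z C)) ≤
      13 / 5 * (Sur r m k v z + K0 * ms m y) := by
  have h2 : ns r (fun A C => ν A * ν C * mu k j A C * chi (z A) (z C)) ≤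
      ns r (fun A C => 13 / 5 * (k A * m C * ip (z A) (v C) ^ 2 +
        k A * m C * ip (z A) (y C) ^ 2)) := by
    refine ns_mono r _ _ fun A C _ => ?_
    have g1 : 0 ≤ mu k j A C := mu_nonneg k j hB.k0 hB.j0 A C
    have g2 : chi (z A) (z C) ≤ ip (z A) (z C) ^ 2 := by
      unfold chi
      have : 0 ≤ ∑ i, z A i ^ 2 * z C i ^ 2 :=
        Finset.sum_nonneg fun i _ => mul_nonneg (sq_nonneg _) (sq_nonneg _)
      linarith
    have g3 : ip (z A) (z C) = ip (z A) (v C) - ip (z A) (y C) := by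
      unfold ip
      rw [← Finset.sum_sub_distrib]
      refine Finset.sum_congr rfl fun i _ => ?_
      rw [hB.vzy C i]
      ring
    have g4 : ip (z A) (z C) ^ 2 ≤ 2 * ip (z A) (v C) ^ 2 + 2 * ip (z A) (y C) ^ 2 := by
      rw [g3]
      nlinarith [sq_nonneg (ip (z A) (v C) + ip (z A) (y C))]
    have g5 : 0 ≤ ν A * ν C * mu k j A C := mul_nonneg (mul_nonneg (h0 A) (h0 C)) g1
    have g6 : ν A * ν C * mu k j A C * chi (z A) (z C) ≤
        ν A * ν C * mu k j A C * ip (z A) (z C) ^ 2 := mul_le_mul_of_nonneg_left g2 g5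
    have g7 : ν A * ν C * mu k j A C ≤ 103 / 100 * (5 / 4 * (k A * m C)) :=
      mul_le_mul (h1 A C) (mu_le hB A C) g1 (by norm_num)
    have g8 := mul_le_mul_of_nonneg_right g7 (sq_nonneg (ip (z A) (z C)))
    have g9 : 0 ≤ k A * m C := mul_nonneg (hB.k0 A) (hB.m0 C)
    have g10 := mul_le_mul_of_nonneg_left g4 g9
    have g11 : 0 ≤ k A * m C * ip (z A) (v C) ^ 2 := mul_nonneg g9 (sq_nonneg _)
    have g12 : 0 ≤ k A * m C * ip (z A) (y C) ^ 2 := mul_nonneg g9 (sq_nonneg _)
    have g13 : 103 / 100 * (5 / 4 * (k A * m C)) * ip (z A) (z C) ^ 2 =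
        103 / 80 * (k A * m C * ip (z A) (z C) ^ 2) := by ring
    have g14 : k A * m C * (2 * ip (z A) (v C) ^ 2 + 2 * ip (z A) (y C) ^ 2) =
        2 * (k A * m C * ip (z A) (v C) ^ 2) + 2 * (k A * m C * ip (z A) (y C) ^ 2) := by ring
    rw [g13] at g8
    rw [g14] at g10
    linarith
  refine le_trans h2 ?_
  rw [ns_mul_left, ns_add]
  have h3 : ns r (fun A C => k A * m C * ip (z A) (y C) ^ 2) ≤ K0 * ms m y := by
    have h4 := hs_add_ns r (fun A C => k A * m C * ip (z A) (y C) ^ 2)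
    have h5 : 0 ≤ hs r (fun A C => k A * m C * ip (z A) (y C) ^ 2) :=
      hs_nonneg r _ fun A C _ => mul_nonneg (mul_nonneg (hB.k0 A) (hB.m0 C)) (sq_nonneg _)
    have h6 : ∑ A, ∑ C, k A * m C * ip (z A) (y C) ^ 2 ≤ K0 * ms m y := by
      rw [Finset.sum_comm]
      unfold ms
      rw [Finset.mul_sum]
      refine Finset.sum_le_sum fun C _ => ?_
      have h7 : ∑ A, k A * m C * ip (z A) (y C) ^ 2 = m C * qd (Gw k z) (y C) := by
        rw [← xmin_qd, Finset.mul_sum]
        refine Finset.sum_congr rfl fun A _ => ?_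
        ring
      rw [h7]
      have := mul_le_mul_of_nonneg_left (hB.qN (y C)) (hB.m0 C)
      linarith
    linarith
  have h8 : ns r (fun A C => k A * m C * ip (z A) (v C) ^ 2) = Sur r m k v z := rfl
  rw [h8]
  linarith

end

end BMV
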